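import Pool.Agent.Lib.MP_91a79a_co.Res

/-!
Cutting a point set along a chord between two points of its hull (MP_91a79a_co).
-/

noncomputable section

namespace MP91a79a

open Set

/-- `x` is on a supporting line of `P` -/
def HV (P : Finset Pt) (x : Pt) : Prop :=
  ∃ α β : ℝ, (α ≠ 0 ∨ β ≠ 0) ∧ ∀ w ∈ P, lf α β w ≤ lf α β x

theorem HV.mono {P Q : Finset Pt} {x : Pt} (h : HV P x) (hQ : Q ⊆ P) : HV Q x := by
  obtain ⟨α, β, h0, h1⟩ := h
  exact ⟨α, β, h0, fun w hw => h1 w (hQ hw)⟩

theorem HV.of_cr {P : Finset Pt} {x y : Pt} (hxy : x ≠ y) (h : ∀ w ∈ P, 0 ≤ cr x y w) :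
    HV P x := by
  refine ⟨y.2 - x.2, -(y.1 - x.1), ?_, fun w hw => ?_⟩
  · by_contra hcon
    push Not at hcon
    apply hxy
    ext
    · linarith [hcon.2]
    · linarith [hcon.1]
  · have := h w hw
    unfold cr at this
    unfold lf
    linarith

theorem HV.of_cr' {P : Finset Pt} {x y : Pt} (hxy : x ≠ y) (h : ∀ w ∈ P, 0 ≤ cr y x w) :
    HV P x := by
  refine ⟨x.2 - y.2, -(x.1 - y.1), ?_, fun w hw => ?_⟩
  · by_contra hcon
    push Not at hcon
    apply hxy
    ext
    · linarith [hcon.2]
    · linarith [hcon.1]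
  · have := h w hw
    unfold cr at this
    unfold lf
    linarith

/-- the points of `P` on the left of `xy` (or on it) -/
def lft (P : Finset Pt) (x y : Pt) : Finset Pt := P.filter fun w => 0 ≤ cr x y w

theorem mem_lft {P : Finset Pt} {x y w : Pt} : w ∈ lft P x y ↔ w ∈ P ∧ 0 ≤ cr x y w :=
  Finset.mem_filter

theorem lft_sub (P : Finset Pt) (x y : Pt) : lft P x y ⊆ P := Finset.filter_subset _ _

theorem lf_hull_le {P : Finset Pt} {α β c : ℝ} (h : ∀ w ∈ P, lf α β w ≤ c) {z : Pt}
    (hz : z ∈ convexHull ℝ (P : Set Pt)) : lf α β z ≤ c := by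
  rw [Finset.mem_convexHull'] at hz
  obtain ⟨w, hw0, hw1, rfl⟩ := hz
  rw [lf_sum]
  calc ∑ y ∈ P, w y * lf α β y ≤ ∑ y ∈ P, w y * c :=
        Finset.sum_le_sum fun y hy => mul_le_mul_of_nonneg_left (h y hy) (hw0 y hy)
    _ = c := by rw [← Finset.sum_mul, hw1, one_mul]

theorem cr_hull_nonneg {P : Finset Pt} {a b : Pt} (h : ∀ w ∈ P, 0 ≤ cr a b w) {z : Pt}
    (hz : z ∈ convexHull ℝ (P : Set Pt)) : 0 ≤ cr a b z := by
  have h1 : ∀ w, lf (b.2 - a.2) (-(b.1 - a.1)) w = lf (b.2 - a.2) (-(b.1 - a.1)) a - cr a b w := by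
    intro w; unfold lf cr; ring
  have h2 := lf_hull_le (P := P) (α := b.2 - a.2) (β := -(b.1 - a.1))
    (c := lf (b.2 - a.2) (-(b.1 - a.1)) a) (fun w hw => by rw [h1 w]; linarith [h w hw]) hz
  rw [h1 z] at h2
  linarith

/-- a point on the line through `x ≠ y` -/
theorem on_line {x y m : Pt} (hxy : x ≠ y) (h : cr x y m = 0) :
    ∃ s : ℝ, m = (1 - s) • x + s • y := by
  have hN : 0 < (y.1 - x.1) ^ 2 + (y.2 - x.2) ^ 2 := by
    by_contra hcon
    push Not at hcon
    apply hxy
    have e1 : y.1 - x.1 = 0 := by nlinarith [sq_nonneg (y.1 - x.1), sq_nonneg (y.2 - x.2)]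
    have e2 : y.2 - x.2 = 0 := by nlinarith [sq_nonneg (y.1 - x.1), sq_nonneg (y.2 - x.2)]
    ext
    · linarith
    · linarith
  have h' : (y.1 - x.1) * (m.2 - x.2) = (y.2 - x.2) * (m.1 - x.1) := by
    unfold cr at h; linarith
  refine ⟨((m.1 - x.1) * (y.1 - x.1) + (m.2 - x.2) * (y.2 - x.2)) /
    ((y.1 - x.1) ^ 2 + (y.2 - x.2) ^ 2), ?_⟩
  ext
  · simp only [Prod.fst_add, Prod.smul_fst, smul_eq_mul]
    field_simp
    linear_combination -(y.2 - x.2) * h'
  · simp only [Prod.snd_add, Prod.smul_snd, smul_eq_mul]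
    field_simp
    linear_combination (y.1 - x.1) * h'

/-- a chord: both end points on the hull, points of `P` strictly on both sides -/
structure Chord (P : Finset Pt) (x y : Pt) : Prop where
  gp : GP P
  hx : x ∈ P
  hy : y ∈ P
  hvx : HV P x
  hvy : HV P y
  pos : ∃ p ∈ P, 0 < cr x y p
  neg : ∃ p ∈ P, cr x y p < 0

namespace Chord

variable {P : Finset Pt} {x y : Pt}

theorem ne (h : Chord P x y) : x ≠ y := by
  obtain ⟨p, -, hp⟩ := h.pos
  exact (ne_of_cr hp.ne').1

theorem symm (h : Chord P x y) : Chord P y x := by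
  obtain ⟨p, hp, hp'⟩ := h.pos
  obtain ⟨q, hq, hq'⟩ := h.neg
  exact ⟨h.gp, h.hy, h.hx, h.hvy, h.hvx, ⟨q, hq, by rw [cr_swap]; linarith⟩,
    ⟨p, hp, by rw [cr_swap]; linarith⟩⟩

theorem not_edge (h : Chord P x y) (h1 : ∀ w ∈ P, 0 ≤ cr x y w) : False := by
  obtain ⟨p, hp, hp'⟩ := h.neg
  linarith [h1 p hp]

theorem s_le (h : Chord P x y) {s : ℝ} (hm : (1 - s) • x + s • y ∈ convexHull ℝ (P : Set Pt)) :
    s ≤ 1 := by
  obtain ⟨α, β, h0, h1⟩ := h.hvy
  have h2 := lf_hull_le h1 hm
  rw [lf_add, lf_smul, lf_smul] at h2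
  have h3 := h1 x h.hx
  rcases h3.lt_or_eq with h4 | h4
  · by_contra hcon
    push Not at hcon
    nlinarith
  · exfalso
    rcases lf_edge (Q := P) h0 h4 (fun w hw => (h1 w hw).trans h4.ge) with h5 | h5
    · exact h.not_edge h5
    · exact h.symm.not_edge h5

theorem line (h : Chord P x y) {m : Pt} (hm : m ∈ convexHull ℝ (P : Set Pt))
    (hc : cr x y m = 0) : m ∈ segment ℝ x y := by
  obtain ⟨s, rfl⟩ := on_line h.ne hc
  have h1 := h.s_le hm
  have h2 : (1 - (1 - s)) • y + (1 - s) • x ∈ convexHull ℝ (P : Set Pt) := by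
    have e : (1 - (1 - s)) • y + (1 - s) • x = (1 - s) • x + s • y := by module
    rw [e]; exact hm
  have h3 := h.symm.s_le h2
  exact ⟨1 - s, s, by linarith, by linarith, by ring, rfl⟩

theorem x_mem (h : Chord P x y) : x ∈ lft P x y := mem_lft.2 ⟨h.hx, (cr_self x y).ge⟩
theorem y_mem (h : Chord P x y) : y ∈ lft P x y := mem_lft.2 ⟨h.hy, (cr_self' x y).ge⟩

theorem seg_sub (h : Chord P x y) : segment ℝ x y ⊆ convexHull ℝ (lft P x y : Set Pt) := by
  rw [← convexHull_pair]
  apply convexHull_mono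
  rintro z (rfl | rfl)
  · exact h.x_mem
  · exact h.y_mem

theorem card_lft (h : Chord P x y) : 3 ≤ (lft P x y).card := by
  obtain ⟨p, hp, hp'⟩ := h.pos
  have hsub : ({x, y, p} : Finset Pt) ⊆ lft P x y := by
    intro w hw
    simp only [Finset.mem_insert, Finset.mem_singleton] at hw
    rcases hw with rfl | rfl | rfl
    · exact h.x_mem
    · exact h.y_mem
    · exact mem_lft.2 ⟨hp, hp'.le⟩
  obtain ⟨n1, n2, n3⟩ := ne_of_cr hp'.ne'
  have hc : ({x, y, p} : Finset Pt).card = 3 := Finset.card_eq_three.2 ⟨_, _, _, n1, n2, n3, rfl⟩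
  rw [← hc]
  exact Finset.card_le_card hsub

theorem lft_nonneg {z : Pt} (hz : z ∈ convexHull ℝ (lft P x y : Set Pt)) : 0 ≤ cr x y z :=
  cr_hull_nonneg (fun w hw => (mem_lft.1 hw).2) hz

theorem lft_closed {p : Pt} (hp : p ∈ P) (h : p ∈ convexHull ℝ (lft P x y : Set Pt)) :
    p ∈ lft P x y := mem_lft.2 ⟨hp, lft_nonneg h⟩

theorem cover_left (h : Chord P x y) {z : Pt} (hz : z ∈ convexHull ℝ (P : Set Pt))
    (h0 : 0 ≤ cr x y z) : z ∈ convexHull ℝ (lft P x y : Set Pt) := by
  have hU : (P : Set Pt) = (lft P x y : Set Pt) ∪ (lft P y x : Set Pt) := by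
    ext w
    simp only [Set.mem_union, Finset.mem_coe, mem_lft]
    constructor
    · intro hw
      rcases le_total 0 (cr x y w) with h1 | h1
      · exact Or.inl ⟨hw, h1⟩
      · exact Or.inr ⟨hw, by rw [cr_swap]; linarith⟩
    · rintro (⟨hw, -⟩ | ⟨hw, -⟩) <;> exact hw
  rw [hU, convexHull_union ⟨x, h.x_mem⟩ ⟨x, h.symm.y_mem⟩] at hz
  rw [mem_convexJoin] at hz
  obtain ⟨l, hl, r, hr, a, b, ha, hb, hab, rfl⟩ := hz
  have hcl : 0 ≤ cr x y l := lft_nonneg hl
  have hcr' : 0 ≤ cr y x r := lft_nonneg hr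
  rw [cr_swap] at hcr'
  have hconv := convex_convexHull ℝ (lft P x y : Set Pt)
  have hlP : l ∈ convexHull ℝ (P : Set Pt) :=
    convexHull_mono (Finset.coe_subset.2 (lft_sub P x y)) hl
  have hrP : r ∈ convexHull ℝ (P : Set Pt) :=
    convexHull_mono (Finset.coe_subset.2 (lft_sub P y x)) hr
  rcases (by linarith : cr x y r ≤ 0).lt_or_eq with h1 | h1
  · rw [cr_comb2 _ _ _ _ _ _ hab] at h0
    -- the point of the segment `l r` on the line
    set D := cr x y l - cr x y r with hD
    have hDpos : 0 < D := by linarith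
    set m : Pt := (-(cr x y r) / D) • l + (cr x y l / D) • r with hm
    have hsum : -(cr x y r) / D + cr x y l / D = 1 := by
      rw [← add_div, div_eq_one_iff_eq hDpos.ne']; rw [hD]; ring
    have hmP : m ∈ convexHull ℝ (P : Set Pt) :=
      (convex_convexHull ℝ (P : Set Pt)) hlP hrP (div_nonneg (by linarith) hDpos.le)
        (div_nonneg hcl hDpos.le) hsum
    have hmc : cr x y m = 0 := by
      rw [hm, cr_comb2 _ _ _ _ _ _ hsum]
      field_simp
      ring
    have hmL := h.seg_sub (h.line hmP hmc)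
    rcases hcl.lt_or_eq with h2 | h2
    · -- z = (1 - c) l + c m with c = b D / cr x y l
      have hc : b * D / cr x y l ≤ 1 := by
        rw [div_le_one h2, hD]
        nlinarith
      have e : a • l + b • r = (1 - b * D / cr x y l) • l + (b * D / cr x y l) • m := by
        have e1 : a = 1 - b := by linarith
        rw [hm, e1]
        have e2 : (b * D / cr x y l) • ((-(cr x y r) / D) • l + (cr x y l / D) • r) =
            (b * (-(cr x y r)) / cr x y l) • l + b • r := by
          rw [smul_add, smul_smul, smul_smul]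
          congr 2
          · field_simp
          · field_simp
        rw [e2, ← add_assoc, ← add_smul]
        congr 2
        rw [hD]
        field_simp
        ring
      rw [e]
      exact hconv hl hmL (by linarith) (div_nonneg (mul_nonneg hb hDpos.le) hcl) (by ring)
    · -- `l` on the line: then `b = 0`
      rw [← h2] at h0
      have hb0 : b = 0 := by nlinarith
      have ha1 : a = 1 := by linarith
      rw [hb0, ha1, one_smul, zero_smul, add_zero]
      exact hl
  · exact hconv hl (h.seg_sub (h.line hrP h1)) ha hb hab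

theorem cover (h : Chord P x y) {z : Pt} (hz : z ∈ convexHull ℝ (P : Set Pt)) :
    z ∈ convexHull ℝ (lft P x y : Set Pt) ∨ z ∈ convexHull ℝ (lft P y x : Set Pt) := by
  rcases le_total 0 (cr x y z) with h1 | h1
  · exact Or.inl (h.cover_left hz h1)
  · exact Or.inr (h.symm.cover_left hz (by rw [cr_swap]; linarith))

theorem disj (h : Chord P x y) :
    Disjoint (interior (convexHull ℝ (lft P x y : Set Pt)))
      (interior (convexHull ℝ (lft P y x : Set Pt))) :=
  disj_of_line h.ne (fun _ hz => lft_nonneg hz)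
    (fun z hz => by have := lft_nonneg (P := P) hz; rw [cr_swap] at this; linarith)

/-- the hull edges of the left part are sides -/
theorem hull (h : Chord P x y) {T : Finset (Finset Pt)} (hT : IsTriangulation P T)
    (hs : Side T x y) : ∀ u ∈ lft P x y, ∀ v ∈ lft P x y, u ≠ v →
      (∀ w ∈ lft P x y, 0 ≤ cr u v w) → Side T u v := by
  intro u hu v hv huv hw
  by_cases hall : ∀ w ∈ P, 0 ≤ cr u v w
  · exact hull_side h.gp hT (lft_sub _ _ _ hu) (lft_sub _ _ _ hv) huv hall
  · push Not at hall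
    obtain ⟨r, hr, hr'⟩ := hall
    have hrx : cr x y r < 0 := by
      by_contra hcon
      push Not at hcon
      linarith [hw r (mem_lft.2 ⟨hr, hcon⟩)]
    have key : ∀ c ∈ lft P x y, cr u v c = 0 → c = x ∨ c = y := by
      intro c hc hc0
      obtain ⟨hcP, hcx⟩ := mem_lft.1 hc
      have h1 : cr x y c = 0 := by
        rcases hcx.lt_or_eq with h2 | h2
        · exfalso
          set D := cr x y c - cr x y r with hD
          have hDpos : 0 < D := by linarith
          set m : Pt := (-(cr x y r) / D) • c + (cr x y c / D) • r with hm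
          have hsum : -(cr x y r) / D + cr x y c / D = 1 := by
            rw [← add_div, div_eq_one_iff_eq hDpos.ne']; rw [hD]; ring
          have hmP : m ∈ convexHull ℝ (P : Set Pt) :=
            (convex_convexHull ℝ (P : Set Pt)) (subset_convexHull ℝ _ hcP)
              (subset_convexHull ℝ _ hr) (div_nonneg (by linarith) hDpos.le)
              (div_nonneg h2.le hDpos.le) hsum
          have hmc : cr x y m = 0 := by
            rw [hm, cr_comb2 _ _ _ _ _ _ hsum]
            field_simp
            ring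
          have h3 := cr_hull_nonneg hw (h.seg_sub (h.line hmP hmc))
          rw [hm, cr_comb2 _ _ _ _ _ _ hsum, hc0, mul_zero, zero_add] at h3
          have h4 : 0 < cr x y c / D := by positivity
          nlinarith
        · exact h2.symm
      by_contra hcon
      push Not at hcon
      exact h.gp x h.hx y h.hy c hcP h.ne hcon.1.symm hcon.2.symm h1
    rcases key u hu (cr_self u v) with rfl | rfl <;> rcases key v hv (cr_self' u v) with rfl | rfl
    · exact absurd rfl huv
    · exact hs
    · exact hs.symm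
    · exact absurd rfl huv

theorem restr (h : Chord P x y) {T : Finset (Finset Pt)} (hT : IsTriangulation P T)
    (hs : Side T x y) : IsTriangulation (lft P x y) (MP91a79a.restr T (lft P x y)) :=
  hT.restr (lft_sub _ _ _) (h.gp.mono (lft_sub _ _ _)) h.card_lft (fun _ hp hp' => lft_closed hp hp')
    (h.hull hT hs)

theorem reach (h : Chord P x y) {T T' : Finset (Finset Pt)} (hT : IsTriangulation P T)
    (hT' : IsTriangulation P T') (hs : Side T x y) (hs' : Side T' x y) (k : ℕ)
    (hL : Reach (lft P x y) k (MP91a79a.restr T (lft P x y)) (MP91a79a.restr T' (lft P x y)))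
    (hR : Reach (lft P y x) k (MP91a79a.restr T (lft P y x)) (MP91a79a.restr T' (lft P y x))) :
    Reach P k T T' := by
  refine Reach.of_restr hT hT' (Finset.univ : Finset Bool)
    (fun i => if i then lft P x y else lft P y x) ?_ h.gp ?_ ?_ ?_ ?_ ?_ ?_ k ?_
  · rintro (_ | _) _
    · exact lft_sub _ _ _
    · exact lft_sub _ _ _
  · rintro (_ | _) _
    · exact h.symm.card_lft
    · exact h.card_lft
  · rintro (_ | _) _ p hp hp'
    · exact lft_closed hp hp'
    · exact lft_closed hp hp'
  · rintro (_ | _) _ (_ | _) _ hij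
    · exact absurd rfl hij
    · exact h.disj.symm
    · exact h.disj
    · exact absurd rfl hij
  · intro z hz
    rcases h.cover hz with h1 | h1
    · exact ⟨true, Finset.mem_univ _, h1⟩
    · exact ⟨false, Finset.mem_univ _, h1⟩
  · rintro (_ | _) _
    · exact h.symm.hull hT hs.symm
    · exact h.hull hT hs
  · rintro (_ | _) _
    · exact h.symm.hull hT' hs'.symm
    · exact h.hull hT' hs'
  · rintro (_ | _) _
    · exact hR
    · exact hL

end Chord

end MP91a79a

end
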