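import Pool.Agent.Lib.MP_91a79a_co.InsBase

/-!
# MP_91a79a_co: a triangulation of `B` has at most `2 |B|` triangles (helper50)

Every triangle has a middle vertex with respect to a generic linear functional; a triangle with
middle vertex `v` contains one of the two germs at `v` of the level line of the functional.
-/

noncomputable section

namespace MP91a79a

open Set Filter Topology

/-- a generic linear functional -/
private theorem cnt_slope (B : Finset Pt) :
    ∃ s : ℝ, ∀ a ∈ B, ∀ b ∈ B, a ≠ b → a.1 + s * a.2 ≠ b.1 + s * b.2 := by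
  classical
  let bad : Finset ℝ := (B ×ˢ B).image fun p => (p.2.1 - p.1.1) / (p.1.2 - p.2.2)
  obtain ⟨s, hs⟩ := Set.Infinite.exists_notMem_finset (Set.infinite_univ (α := ℝ)) bad
  refine ⟨s, fun a ha b hb hab h => ?_⟩
  have hs' := hs.2
  by_cases h2 : a.2 = b.2
  · apply hab
    rw [h2] at h
    exact Prod.ext (by linarith) h2
  · apply hs'
    refine Finset.mem_image.mpr ⟨(a, b), Finset.mem_product.mpr ⟨ha, hb⟩, ?_⟩
    have h3 : a.2 - b.2 ≠ 0 := sub_ne_zero.mpr h2
    rw [div_eq_iff h3]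
    show b.1 - a.1 = s * (a.2 - b.2)
    linarith

/-- the middle vertex of a triangle -/
private theorem cnt_mid {t : Finset Pt} (hc : t.card = 3) (hn : ¬ Collinear ℝ (t : Set Pt)) (s : ℝ)
    (hs : ∀ a ∈ t, ∀ b ∈ t, a ≠ b → a.1 + s * a.2 ≠ b.1 + s * b.2) :
    ∃ a b v : Pt, t = {a, b, v} ∧ a.1 + s * a.2 < v.1 + s * v.2 ∧
      v.1 + s * v.2 < b.1 + s * b.2 ∧ cr a b v ≠ 0 := by
  obtain ⟨x, y, z, rfl, h0⟩ := repr_tri hc hn
  obtain ⟨e1, e2, e3⟩ := ne_of_cr h0.ne'
  have hx : x ∈ ({x, y, z} : Finset Pt) := by simp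
  have hy : y ∈ ({x, y, z} : Finset Pt) := by simp
  have hz : z ∈ ({x, y, z} : Finset Pt) := by simp
  have h1 := hs x hx y hy e1
  have h2 := hs x hx z hz e2
  have h3 := hs y hy z hz e3
  have c1 : cr x y z ≠ 0 := h0.ne'
  have c2 : cr y z x ≠ 0 := by rw [← cr_rot]; exact c1
  have c3 : cr z x y ≠ 0 := by rw [cr_rot]; exact c1
  have c4 : cr y x z ≠ 0 := by rw [cr_swap]; exact neg_ne_zero.mpr c1
  have c5 : cr z y x ≠ 0 := by rw [cr_swap]; exact neg_ne_zero.mpr c2
  have c6 : cr x z y ≠ 0 := by rw [cr_swap]; exact neg_ne_zero.mpr c3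
  have p1 : ({x, y, z} : Finset Pt) = {x, z, y} := by rw [Finset.pair_comm]
  have p2 : ({x, y, z} : Finset Pt) = {y, x, z} := by rw [Finset.insert_comm]
  have p3 : ({x, y, z} : Finset Pt) = {y, z, x} := by rw [p2, Finset.pair_comm]
  have p4 : ({x, y, z} : Finset Pt) = {z, x, y} := by rw [p1, Finset.insert_comm]
  have p5 : ({x, y, z} : Finset Pt) = {z, y, x} := by rw [p4, Finset.pair_comm]
  rcases lt_or_gt_of_ne h1 with h1 | h1 <;> rcases lt_or_gt_of_ne h2 with h2 | h2 <;>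
    rcases lt_or_gt_of_ne h3 with h3 | h3
  · exact ⟨x, z, y, p1, h1, h3, c6⟩
  · exact ⟨x, y, z, rfl, h2, h3, c1⟩
  · linarith
  · exact ⟨z, y, x, p5, h2, h1, c5⟩
  · exact ⟨y, z, x, p3, h1, h2, c2⟩
  · linarith
  · exact ⟨y, x, z, p2, h3, h2, c4⟩
  · exact ⟨z, x, y, p4, h3, h1, c3⟩

/-- the triangle contains a germ of the level line at its middle vertex -/
private theorem cnt_germ {a b v : Pt} {s k : ℝ} (h1 : a.1 + s * a.2 < v.1 + s * v.2)
    (h2 : v.1 + s * v.2 < b.1 + s * b.2) (hk : k * cr a b v < 0) :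
    ∀ᶠ t in 𝓝[>] (0 : ℝ), v + (t * k) • ((-s, 1) : Pt) ∈
      interior (convexHull ℝ ({a, b, v} : Set Pt)) := by
  have hne : cr a b v ≠ 0 := by
    intro h
    rw [h, mul_zero] at hk
    exact lt_irrefl _ hk
  have hsq : 0 < cr a b v * cr a b v := mul_self_pos.mpr hne
  have hc : ∀ᶠ t in 𝓝[>] (0 : ℝ), 0 < cr a b v * cr a b (v + (t * k) • ((-s, 1) : Pt)) := by
    have hcont : Continuous fun t : ℝ => cr a b v * cr a b (v + (t * k) • ((-s, 1) : Pt)) := by
      have h3 : Continuous fun t : ℝ => v + (t * k) • ((-s, 1) : Pt) := by fun_prop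
      exact continuous_const.mul ((continuous_cr a b).comp h3)
    have h4 : ∀ᶠ t in 𝓝 (0 : ℝ), 0 < cr a b v * cr a b (v + (t * k) • ((-s, 1) : Pt)) := by
      apply hcont.continuousAt.eventually_const_lt
      simpa using hsq
    exact h4.filter_mono nhdsWithin_le_nhds
  have hpos : ∀ᶠ t in 𝓝[>] (0 : ℝ), (0 : ℝ) < t := self_mem_nhdsWithin
  filter_upwards [hc, hpos] with t ht ht0
  refine mem_int_of_sign ht ?_ ?_
  · have e1 : cr b v (v + (t * k) • ((-s, 1) : Pt)) =
        t * k * ((v.1 + s * v.2) - (b.1 + s * b.2)) := by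
      unfold cr
      simp only [Prod.fst_add, Prod.snd_add, Prod.smul_fst, Prod.smul_snd, smul_eq_mul]
      ring
    rw [e1]
    have h5 : cr a b v * (t * k * ((v.1 + s * v.2) - (b.1 + s * b.2))) =
        t * ((-(k * cr a b v)) * ((b.1 + s * b.2) - (v.1 + s * v.2))) := by ring
    rw [h5]
    exact mul_pos ht0 (mul_pos (by linarith) (by linarith))
  · have e1 : cr v a (v + (t * k) • ((-s, 1) : Pt)) =
        t * k * ((a.1 + s * a.2) - (v.1 + s * v.2)) := by
      unfold cr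
      simp only [Prod.fst_add, Prod.snd_add, Prod.smul_fst, Prod.smul_snd, smul_eq_mul]
      ring
    rw [e1]
    have h5 : cr a b v * (t * k * ((a.1 + s * a.2) - (v.1 + s * v.2))) =
        t * ((-(k * cr a b v)) * ((v.1 + s * v.2) - (a.1 + s * a.2))) := by ring
    rw [h5]
    exact mul_pos ht0 (mul_pos (by linarith) (by linarith))

theorem card_le_two' {B : Finset Pt} {C : Finset (Finset Pt)} (hC : IsTriangulation B C) :
    C.card ≤ 2 * B.card := by
  classical
  obtain ⟨s, hs⟩ := cnt_slope B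
  have hex : ∀ t ∈ C, ∃ p : Pt × Bool, ∃ a b : Pt, t = {a, b, p.1} ∧
      a.1 + s * a.2 < p.1.1 + s * p.1.2 ∧ p.1.1 + s * p.1.2 < b.1 + s * b.2 ∧
      (if p.2 = true then (1 : ℝ) else -1) * cr a b p.1 < 0 := by
    intro t ht
    obtain ⟨a, b, v, htv, h1, h2, h3⟩ := cnt_mid (hC.card t ht) (hC.nondeg t ht) s
      (fun a ha b hb => hs a (hC.sub t ht ha) b (hC.sub t ht hb))
    rcases lt_or_gt_of_ne h3 with h | h
    · exact ⟨(v, true), a, b, htv, h1, h2, by simpa using h⟩
    · exact ⟨(v, false), a, b, htv, h1, h2, by simpa using h⟩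
  choose! f hf using hex
  have hcard : (B ×ˢ (Finset.univ : Finset Bool)).card = 2 * B.card := by
    rw [Finset.card_product, Finset.card_univ, Fintype.card_bool, mul_comm]
  rw [← hcard]
  refine Finset.card_le_card_of_injOn f (fun t ht => ?_) (fun t ht t' ht' hff => ?_)
  · obtain ⟨a, b, htv, -⟩ := hf t ht
    have hmem : (f t).1 ∈ t := by
      have h : ∀ q : Pt, t = {a, b, q} → q ∈ t := fun q hq => by rw [hq]; simp
      exact h _ htv
    exact Finset.mem_product.mpr ⟨hC.sub t ht hmem, Finset.mem_univ _⟩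
  · by_contra hne
    obtain ⟨a, b, htv, h1, h2, h3⟩ := hf t ht
    obtain ⟨a', b', htv', h1', h2', h3'⟩ := hf t' ht'
    rw [← hff] at htv' h1' h2' h3'
    obtain ⟨τ, hτ1, hτ2⟩ := ((cnt_germ h1 h2 h3).and (cnt_germ h1' h2' h3')).exists
    have hd := hC.disj t ht t' ht' hne
    rw [htv, htv', coe3, coe3] at hd
    exact Set.disjoint_left.1 hd hτ1 hτ2

theorem card_le_two {B : Finset Pt} {C : Finset (Finset Pt)} (_hG : GP B)
    (hC : IsTriangulation B C) : C.card ≤ 2 * B.card := card_le_two' hC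

end MP91a79a

end
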