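import Pool.Agent.Lib.MP_91a79a_co.Select

/-!
The coarsening theorem (MP_91a79a_co): coarsening, part 8.
-/

noncomputable section

namespace MP91a79a

open Set Classical

variable {B P : Finset Pt} {C T : Finset (Finset Pt)} {F : ℕ}

theorem CS.mono (h : CS P B C T F) {F' : ℕ} (hF : F ≤ F') : CS P B C T F' :=
  ⟨h.sub, h.tri, h.hv, h.ref, fun t ht => (h.fac t ht).trans hF,
    fun u w huw => (h.cap u w huw).trans hF⟩

theorem Good.mono {I J : Finset Pt} (h : Good P B C F I) (hJ : J ⊆ I) : Good P B C F J :=
  ⟨hJ.trans h.sub, fun t ht v hv v' hv' => h.ind t ht v (hJ hv) v' (hJ hv'),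
    fun v hv => h.ok v (hJ hv), fun v hv => h.zb v (hJ hv)⟩

/-- the coarse state we start with -/
theorem CS.start (hG : GP P) (hT : IsTriangulation P T) : CS P P T T 3 := by
  have hS := hT.strict hG
  refine ⟨Finset.Subset.refl _, hS, fun _ _ h => h, fun _ _ h => h, ?_, ?_⟩
  · intro t ht
    rw [← hS.card t ht]
    apply Finset.card_le_card
    intro x hx
    obtain ⟨hxP, hx⟩ := mem_pin.1 hx
    exact hS.strict t ht x hxP hx
  · intro u w huw
    have : capf P u w = ∅ := by
      apply Finset.eq_empty_of_forall_notMem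
      intro x hx
      obtain ⟨hxP, hx⟩ := mem_capf.1 hx
      have := huw.2.2.2 x hxP
      linarith
    rw [this]
    simp

theorem coarsen_aux (hG : GP P) (M : ℕ) (hM : 3 ≤ M) : ∀ (m : ℕ) (B : Finset Pt)
    (C T : Finset (Finset Pt)), B.card = m → M < m → IsTriangulation P T →
    CS P B C T (736 * P.card / m) →
    ∃ k B' C' T', Reach P k T T' ∧ CS P B' C' T' (736 * P.card / M) ∧ B'.card ≤ M ∧
      3 ≤ B'.card ∧
      (k : ℝ) ≤ 6160 * 282624 * P.card * (1 / M - 1 / m) + 282624 * P.card / M := by
  intro m
  induction m using Nat.strong_induction_on with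
  | _ m ih =>
    intro B C T hm hMm hT h
    obtain ⟨I0, hI0, hdeg0, hcard0⟩ := h.select hG (by omega) (by
      intro k hk
      rw [hm] at hk
      exact (Nat.le_div_iff_mul_le (by omega)).2 hk)
    rw [hm] at hcard0
    obtain ⟨I, hII, hIc⟩ := Finset.exists_subset_card_eq
      (show (m + 6159) / 6160 ≤ I0.card by omega)
    have hI := hI0.mono hII
    have hIm : I.card ≤ m := by rw [← hm]; exact Finset.card_le_card hI.sub
    obtain ⟨C1, T1, hR1, h1⟩ := h.step hG hT hI 384 (fun v hv => hdeg0 v (hII hv))
      (by omega)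
    have hm1 : (B \ I).card = m - I.card := by
      rw [Finset.card_sdiff_of_subset hI.sub, hm]
    set m1 := m - I.card with hm1def
    have hlt : m1 < m := by omega
    have h3 : 3 ≤ m1 := by omega
    -- real estimates
    have hMr : (0 : ℝ) < M := by
      have : 0 < M := by omega
      exact_mod_cast this
    have hmr : (0 : ℝ) < m := by
      have : 0 < m := by omega
      exact_mod_cast this
    have hm1r : (0 : ℝ) < m1 := by
      have : 0 < m1 := by omega
      exact_mod_cast this
    have hn : (0 : ℝ) ≤ P.card := Nat.cast_nonneg _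
    have hcost : ((384 * (736 * P.card / m) : ℕ) : ℝ) ≤ 282624 * P.card / m := by
      push_cast
      have h5 : ((736 * P.card / m : ℕ) : ℝ) ≤ ((736 * P.card : ℕ) : ℝ) / m := Nat.cast_div_le
      push_cast at h5
      calc (384 : ℝ) * ((736 * P.card / m : ℕ) : ℝ) ≤ 384 * (736 * P.card / m) := by gcongr
        _ = 282624 * P.card / m := by ring
    have hdrop : (1 : ℝ) / m ≤ 6160 * (1 / m1 - 1 / m) := by
      have h5 : (m : ℝ) ≤ 6160 * (m - m1) := by
        have h6 : m ≤ 6160 * I.card := by omega
        have h7 : (m1 : ℝ) = m - I.card := by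
          rw [hm1def, Nat.cast_sub hIm]
        have h8 : (m : ℝ) ≤ 6160 * I.card := by exact_mod_cast h6
        rw [h7]; linarith
      have h6 : (1 : ℝ) / m1 - 1 / m = (m - m1) / (m * m1) := by
        field_simp
      rw [h6]
      rw [← mul_div_assoc, div_le_div_iff₀ hmr (by positivity)]
      have h7 : (m1 : ℝ) ≤ m := by exact_mod_cast hlt.le
      have h8 : 0 ≤ 6160 * ((m : ℝ) - m1) := by linarith
      nlinarith
    by_cases hM1 : m1 ≤ M
    · refine ⟨_, B \ I, C1, T1, hR1, h1.mono ?_, by omega, by omega, hcost.trans ?_⟩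
      · exact Nat.div_le_div_left hMm.le (by omega)
      · have h5 : (1 : ℝ) / m ≤ 1 / M := one_div_le_one_div_of_le hMr (by exact_mod_cast hMm.le)
        have h6 : 282624 * (P.card : ℝ) / m ≤ 282624 * P.card / M := by
          rw [div_eq_mul_one_div, div_eq_mul_one_div (282624 * (P.card : ℝ))]
          exact mul_le_mul_of_nonneg_left h5 (by positivity)
        have h7 : 0 ≤ 6160 * 282624 * (P.card : ℝ) * (1 / M - 1 / m) :=
          mul_nonneg (by positivity) (by linarith)
        linarith
    · push Not at hM1
      obtain ⟨k, B', C', T', hR, hC', g1, g2, g3⟩ := ih m1 hlt (B \ I) C1 T1 hm1 hM1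
        hR1.tri_right (h1.mono (Nat.div_le_div_left hlt.le (by omega)))
      refine ⟨_, B', C', T', hR1.trans hR, hC', g1, g2, ?_⟩
      rw [Nat.cast_add]
      have h5 : 282624 * (P.card : ℝ) / m ≤ 6160 * 282624 * P.card * (1 / m1 - 1 / m) := by
        rw [div_eq_mul_one_div]
        calc 282624 * (P.card : ℝ) * (1 / m) ≤ 282624 * P.card * (6160 * (1 / m1 - 1 / m)) :=
              mul_le_mul_of_nonneg_left hdrop (by positivity)
          _ = _ := by ring
      have h6 : 6160 * 282624 * (P.card : ℝ) * (1 / M - 1 / m) =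
          6160 * 282624 * P.card * (1 / M - 1 / m1) +
            6160 * 282624 * P.card * (1 / m1 - 1 / m) := by ring
      rw [h6]
      linarith

/-- COARSENING THEOREM: every triangulation of `n` points in general position is within
`O(n / M)` simultaneous flips of a triangulation which refines a triangulation of a subset of at
most `M` points (with caps at the hull), all of whose faces and caps contain `O(n / M)` points. -/
theorem coarsen (hG : GP P) (hT : IsTriangulation P T) (M : ℕ) (hM : 3 ≤ M)
    (hMn : M ≤ P.card) :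
    ∃ k B C T', Reach P k T T' ∧ CS P B C T' (736 * P.card / M) ∧ B.card ≤ M ∧ 3 ≤ B.card ∧
      k * M ≤ 1741246464 * P.card := by
  have hMr : (0 : ℝ) < M := by
    have : 0 < M := by omega
    exact_mod_cast this
  have h0 := CS.start hG hT
  rcases Nat.eq_or_lt_of_le hMn with h | h
  · refine ⟨0, P, T, T, Reach.refl T hT, h0.mono ?_, h.symm.le, by omega, by omega⟩
    rw [Nat.le_div_iff_mul_le (by omega)]
    omega
  · obtain ⟨k, B, C, T', g1, g2, g3, g4, g5⟩ := coarsen_aux hG M hM P.card P T T rfl h hT
      (h0.mono (by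
        rw [Nat.le_div_iff_mul_le (by omega)]
        omega))
    refine ⟨k, B, C, T', g1, g2, g3, g4, ?_⟩
    have hnr : (0 : ℝ) < P.card := by
      have : 0 < P.card := by omega
      exact_mod_cast this
    have h5 : (k : ℝ) * M ≤ 1741246464 * P.card := by
      have h6 : (k : ℝ) ≤ 1741246464 * P.card / M := by
        have h7 : 0 ≤ (1 : ℝ) / P.card := by positivity
        have h8 : 6160 * 282624 * (P.card : ℝ) * (1 / M - 1 / P.card) ≤
            6160 * 282624 * P.card * (1 / M) :=
          mul_le_mul_of_nonneg_left (by linarith) (by positivity)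
        calc (k : ℝ) ≤ 6160 * 282624 * P.card * (1 / M) + 282624 * P.card / M := by linarith
          _ = 1741246464 * P.card / M := by ring
      rwa [le_div_iff₀ hMr] at h6
    exact_mod_cast h5

end MP91a79a

end
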