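import Pool.Agent.Lib.MP_91a79a_co.StripA

/-!
Section 5 of helper43's proof of `HypE` (strip theorem), positions: every vertex gets a mixed edge
`home v` at `v`, such that away from home the triangles of the strip at `v` are on one side of a
line through `v`.
-/

set_option autoImplicit false

noncomputable section

namespace MP91a79a

open Classical

variable {P : Finset Pt} {T : Finset (Finset Pt)} {col : Option Pt → Bool}

/-! ### geometry at a vertex -/

/-- three directions turning left in a closed halfplane -/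
theorem turn {p y q z : Pt} (h1 : 0 < cr p y q) (h2 : 0 < cr p q z) (h3 : cr p y z ≠ 0)
    (hF : ∃ α β : ℝ, (α ≠ 0 ∨ β ≠ 0) ∧ lf α β p ≤ lf α β y ∧ lf α β p ≤ lf α β q ∧
      lf α β p ≤ lf α β z) : 0 < cr p y z := by
  obtain ⟨α, β, h0, fy, fq, fz⟩ := hF
  by_contra hcon
  have h4 : cr p y z < 0 := lt_of_le_of_ne (not_lt.1 hcon) h3
  have e : cr p y z * (lf α β q - lf α β p) =
      cr p q z * (lf α β y - lf α β p) + cr p y q * (lf α β z - lf α β p) := by
    unfold cr lf; ring
  have k1 := mul_nonneg h2.le (sub_nonneg.2 fy)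
  have k2 := mul_nonneg h1.le (sub_nonneg.2 fz)
  have k3 := mul_nonneg (neg_pos.2 h4).le (sub_nonneg.2 fq)
  have k4 : cr p y z * (lf α β q - lf α β p) = 0 := by linarith
  have k5 : cr p q z * (lf α β y - lf α β p) = 0 := by linarith
  have hq : lf α β q - lf α β p = 0 := by
    rcases mul_eq_zero.1 k4 with h | h
    · exact absurd h h4.ne
    · exact h
  have hy : lf α β y - lf α β p = 0 := by
    rcases mul_eq_zero.1 k5 with h | h
    · exact absurd h h2.ne'
    · exact h
  have := lf_collinear h0 (a := p) (b := y) (c := q) (by linarith) (by linarith)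
  exact h1.ne' this

/-- a functional from the line through `s` and `v` -/
theorem fun_of_line {s v w y z : Pt} (hne : cr s v w ≠ 0) (hy : 0 ≤ cr s v w * cr s v y)
    (hz : 0 ≤ cr s v w * cr s v z) :
    ∃ α β : ℝ, (α ≠ 0 ∨ β ≠ 0) ∧ lf α β v ≤ lf α β y ∧ lf α β v ≤ lf α β w ∧
      lf α β v ≤ lf α β z := by
  have key : ∀ x, lf (cr s v w * (-(v.2 - s.2))) (cr s v w * (v.1 - s.1)) x -
      lf (cr s v w * (-(v.2 - s.2))) (cr s v w * (v.1 - s.1)) v = cr s v w * cr s v x := by
    intro x; unfold lf cr; ring
  refine ⟨cr s v w * (-(v.2 - s.2)), cr s v w * (v.1 - s.1), ?_, ?_, ?_, ?_⟩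
  · by_contra hcon
    push Not at hcon
    obtain ⟨c1, c2⟩ := hcon
    have := key w
    rw [c1, c2] at this
    unfold lf at this
    have h2 : cr s v w * cr s v w = 0 := by linarith
    exact hne (mul_self_eq_zero.1 h2)
  · have := key y; linarith
  · have := key w; nlinarith [mul_self_nonneg (cr s v w)]
  · have := key z; linarith

theorem fun_of_hv {v w y z : Pt} (hv : HV P v) (hw : w ∈ P) (hy : y ∈ P) (hz : z ∈ P) :
    ∃ α β : ℝ, (α ≠ 0 ∨ β ≠ 0) ∧ lf α β v ≤ lf α β y ∧ lf α β v ≤ lf α β w ∧
      lf α β v ≤ lf α β z := by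
  obtain ⟨α, β, h0, h⟩ := hv
  refine ⟨-α, -β, by simpa using h0, ?_, ?_, ?_⟩
  · have := h y hy; unfold lf at this ⊢; linarith
  · have := h w hw; unfold lf at this ⊢; linarith
  · have := h z hz; unfold lf at this ⊢; linarith

/-- no side strictly inside the sector of a triangle (for triangulations) -/
theorem no_side_in' (hT : STri P T) {v u p y : Pt} (ht : {v, u, p} ∈ T) (hy : Side T v y)
    (h1 : 0 < cr v u y) (h2 : 0 < cr v y p) (h0 : 0 < cr v u p) : False :=
  hT.no_side_in ht hy h1 h2 h0

/-- at most one triangle at `v` is crossed by the ray opposite to `s` -/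
theorem cross_unique (hP : GP P) (hT : STri P T) {s v a b a' b' : Pt}
    (h : {v, a, b} ∈ T) (h0 : 0 < cr v a b) (h1 : cr s v a < 0) (h2 : 0 < cr s v b)
    (h' : {v, a', b'} ∈ T) (h0' : 0 < cr v a' b') (h1' : cr s v a' < 0) (h2' : 0 < cr s v b') :
    a = a' := by
  by_contra hne
  have hv : v ∈ P := hT.sub _ h (by simp)
  have ha : a ∈ P := hT.sub _ h (by simp)
  have ha' : a' ∈ P := hT.sub _ h' (by simp)
  have nva := (ne_of_cr h0.ne').1
  have nva' := (ne_of_cr h0'.ne').1
  have hcr := hP v hv a ha a' ha' nva nva' hne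
  have sa : Side T v a := ⟨nva, _, h, by simp, by simp⟩
  have sa' : Side T v a' := ⟨nva', _, h', by simp, by simp⟩
  rcases lt_or_gt_of_ne hcr with hc | hc
  · -- `a` is inside the sector of `a' b'`
    have e : cr s v a' * cr v a b' - cr s v a * cr v a' b' + cr s v b' * cr v a' a = 0 := by
      unfold cr; ring
    have hc' : 0 < cr v a' a := by
      have : cr v a' a = - cr v a a' := by unfold cr; ring
      rw [this]; linarith
    have hab : 0 < cr v a b' := by
      by_contra hcon
      push Not at hcon
      nlinarith [mul_nonneg (neg_pos.2 h1').le (sub_nonneg.2 hcon), mul_pos (neg_pos.2 h1) h0',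
        mul_pos h2' hc']
    exact no_side_in' hT h' sa hc' hab h0'
  · have e : cr s v a * cr v a' b - cr s v a' * cr v a b + cr s v b * cr v a a' = 0 := by
      unfold cr; ring
    have hab : 0 < cr v a' b := by
      by_contra hcon
      push Not at hcon
      nlinarith [mul_nonneg (neg_pos.2 h1).le (sub_nonneg.2 hcon), mul_pos (neg_pos.2 h1') h0,
        mul_pos h2 hc]
    exact no_side_in' hT h sa' hc hab h0

/-- a triangle at `v` not crossed by the ray opposite to the side `v s` is on one side of the
line `s v` -/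
theorem one_side (hT : STri P T) {s v a b : Pt} (h : {v, a, b} ∈ T) (h0 : 0 < cr v a b)
    (hs : Side T v s) (hn : ¬ (cr s v a < 0 ∧ 0 < cr s v b)) : 0 ≤ cr s v a * cr s v b := by
  by_contra hcon
  push Not at hcon
  rcases mul_neg_iff.1 hcon with ⟨h1, h2⟩ | ⟨h1, h2⟩
  · refine no_side_in' hT h hs ?_ ?_ h0
    · have : cr v a s = cr s v a := by unfold cr; ring
      rw [this]; exact h1
    · have : cr v s b = - cr s v b := by unfold cr; ring
      rw [this]; linarith
  · exact hn ⟨h1, h2⟩

/-! ### homes -/

/-- the left triangle of `d` is `v a b`, crossed by the ray from `v` opposite to `s` -/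
def CrossT (P : Finset Pt) (T : Finset (Finset Pt)) (s v : Pt) (d : Option Pt × Option Pt) :
    Prop :=
  ∃ a b : Pt, {v, a, b} ∈ T ∧ 0 < cr v a b ∧ cr s v a < 0 ∧ 0 < cr s v b ∧
    Rot d.1 d.2 (apx (OT P T) d) (some v) (some a) (some b)

/-- `s` is a neighbour of `v` of the same colour -/
def Mono (T : Finset (Finset Pt)) (col : Option Pt → Bool) (v s : Pt) : Prop :=
  Side T v s ∧ col (some v) = col (some s)

theorem rot_en {α : Type*} {a b c x y z : α} (h : Rot a b c x y z) :
    (x = a ∨ x = b ∨ x = c) ∧ (y = a ∨ y = b ∨ y = c) ∧ (z = a ∨ z = b ∨ z = c) := by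
  rcases h with ⟨rfl, rfl, rfl⟩ | ⟨rfl, rfl, rfl⟩ | ⟨rfl, rfl, rfl⟩ <;> simp

/-- a coloured triangle has only one edge from `true` to `false` in the positive direction -/
theorem mx_eq_of_rot {d d' : Option Pt × Option Pt} {c c' x y z : Option Pt}
    (h1 : col d.1 = true) (h2 : col d.2 = false) (h1' : col d'.1 = true)
    (h2' : col d'.2 = false) (h : Rot d.1 d.2 c x y z) (h' : Rot d'.1 d'.2 c' x y z) :
    d = d' := by
  rcases h with ⟨rfl, rfl, rfl⟩ | ⟨rfl, rfl, rfl⟩ | ⟨rfl, rfl, rfl⟩ <;>
  rcases h' with ⟨e1, e2, e3⟩ | ⟨e1, e2, e3⟩ | ⟨e1, e2, e3⟩ <;>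
  first
    | exact Prod.ext e1 e2
    | exact Prod.ext e3 e1
    | exact Prod.ext e2 e3
    | (exfalso; simp_all)

theorem rot_at {O : Option Pt → Option Pt → Option Pt → Prop}
    (hr : ∀ x y z, O x y z → O y z x) {d : Option Pt × Option Pt}
    (h : O d.1 d.2 (apx O d)) {v : Option Pt} (hv : Tn O v d) :
    ∃ a b, Rot d.1 d.2 (apx O d) v a b ∧ O v a b ∧ ∀ x, Tn O x d → x = v ∨ x = a ∨ x = b := by
  rcases hv with rfl | rfl | rfl
  · exact ⟨_, _, Or.inl ⟨rfl, rfl, rfl⟩, h, fun x hx => hx⟩
  · refine ⟨_, _, Or.inr (Or.inl ⟨rfl, rfl, rfl⟩), hr _ _ _ h, fun x hx => ?_⟩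
    rcases hx with h1 | h1 | h1
    · exact Or.inr (Or.inr h1)
    · exact Or.inl h1
    · exact Or.inr (Or.inl h1)
  · refine ⟨_, _, Or.inr (Or.inr ⟨rfl, rfl, rfl⟩), hr _ _ _ (hr _ _ _ h), fun x hx => ?_⟩
    rcases hx with h1 | h1 | h1
    · exact Or.inr (Or.inl h1)
    · exact Or.inr (Or.inr h1)
    · exact Or.inl h1

/-- the triangles of the sphere at an inner vertex are finite -/
theorem OT_inner {v : Pt} (hv : ¬ HV P v) {a b : Option Pt} (h : OT P T (some v) a b) :
    ∃ a' b', a = some a' ∧ b = some b' ∧ {v, a', b'} ∈ T ∧ 0 < cr v a' b' := by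
  rcases a with _ | a <;> rcases b with _ | b <;> simp only [OT] at h
  · exact absurd h.hv_left hv
  · exact absurd h.hv_right hv
  · exact ⟨a, b, rfl, rfl, h.1, h.2⟩

theorem side_of_tri (hT : STri P T) {v w s : Pt} (hv : ¬ HV P v) {g : Option Pt × Option Pt}
    (hg : OT P T g.1 g.2 (apx (OT P T) g)) (hvg : Tn (OT P T) (some v) g)
    (hwg : Tn (OT P T) (some w) g) (hwv : w ≠ v) (hs : Side T v s)
    (hn : ¬ CrossT P T s v g) (x : Pt) (hx : Tn (OT P T) (some x) g) :
    0 ≤ cr s v w * cr s v x := by
  obtain ⟨a, b, hrot, hO, hall⟩ := rot_at (O := OT P T) OT_rot hg hvg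
  obtain ⟨a', b', rfl, rfl, hmem, hpos⟩ := OT_inner hv hO
  have h1 := one_side hT hmem hpos hs (fun h => hn ⟨a', b', hmem, hpos, h.1, h.2, hrot⟩)
  have h2 : 0 ≤ cr s v b' * cr s v a' := by rw [mul_comm]; exact h1
  have hvv : cr s v v = 0 := by unfold cr; ring
  have hx' := hall _ hx
  have hw' := hall _ hwg
  simp only [Option.some.injEq] at hx' hw'
  rcases hw' with rfl | rfl | rfl
  · exact absurd rfl hwv
  · rcases hx' with rfl | rfl | rfl
    · rw [hvv, mul_zero]
    · exact mul_self_nonneg _
    · exact h1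
  · rcases hx' with rfl | rfl | rfl
    · rw [hvv, mul_zero]
    · exact h2
    · exact mul_self_nonneg _

/-- the home edges of the vertices -/
structure Home (P : Finset Pt) (T : Finset (Finset Pt)) (col : Option Pt → Bool)
    (home : Pt → Option Pt × Option Pt) (s : Pt → Pt) : Prop where
  mx : ∀ v ∈ P, Mx (OT P T) col (home v)
  en : ∀ v ∈ P, En (some v) (home v)
  hull : ∀ v ∈ P, HV P v → col (some v) = true → home v = (some v, none)
  pos : ∀ v ∈ P, ¬ HV P v → ∀ d, Mx (OT P T) col d → En (some v) (nxt (OT P T) col d) →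
    (∀ u ∈ P, home u ≠ nxt (OT P T) col d) → ¬ (home v = d ∧ En (some v) d) →
    ∀ w, (nxt (OT P T) col d = (some v, some w) ∨ nxt (OT P T) col d = (some w, some v)) →
      cr (s v) v w ≠ 0 ∧ (∀ x, Tn (OT P T) (some x) d → 0 ≤ cr (s v) v w * cr (s v) v x) ∧
      (∀ x, Tn (OT P T) (some x) (nxt (OT P T) col d) → 0 ≤ cr (s v) v w * cr (s v) v x)

theorem crossT_unique (hP : GP P) (hT : STri P T) {s v : Pt} {d d' : Option Pt × Option Pt}
    (h1 : col d.1 = true) (h2 : col d.2 = false) (h1' : col d'.1 = true)
    (h2' : col d'.2 = false) (h : CrossT P T s v d) (h' : CrossT P T s v d') : d = d' := by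
  obtain ⟨a, b, m, p, c1, c2, r⟩ := h
  obtain ⟨a', b', m', p', c1', c2', r'⟩ := h'
  have e := cross_unique hP hT m p c1 c2 m' p' c1' c2'
  subst e
  have e2 : b = b' := hT.unique m m' (mul_pos p p')
  subst e2
  exact mx_eq_of_rot h1 h2 h1' h2' r r'

theorem OT_side (hP : GP P) (hT : STri P T) {x y : Pt} {z : Option Pt}
    (h : OT P T (some x) (some y) z) : Side T x y := by
  rcases z with _ | z
  · exact (HE.side hP hT h).symm
  · exact ⟨(ne_of_cr h.2.ne').1, _, h.1, by simp, by simp⟩

theorem exists_home (hP : GP P) (hT : STri P T) (hS : Sph (Wp P) (OT P T)) (h2 : 2 ≤ P.card)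
    (hcol : col none = false)
    (hone : ∀ d d', Mx (OT P T) col d → Mx (OT P T) col d' → Orb (OT P T) col d d')
    (hev : ∀ v ∈ P, ∃ d, Mx (OT P T) col d ∧ En (some v) d) :
    ∃ (home : Pt → Option Pt × Option Pt) (s : Pt → Pt), Home P T col home s := by
  choose! dflt hdflt using hev
  let s : Pt → Pt := fun v => if h : ∃ s, Mono T col v s then Classical.choose h else v
  have hs : ∀ v, (∃ s, Mono T col v s) → Mono T col v (s v) := by
    intro v h
    show Mono T col v (if h : ∃ s, Mono T col v s then Classical.choose h else v)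
    rw [dif_pos h]
    exact Classical.choose_spec h
  let home : Pt → Option Pt × Option Pt := fun v =>
    if HV P v ∧ col (some v) = true then (some v, none)
    else if h : ∃ d, Mx (OT P T) col d ∧ CrossT P T (s v) v d then
      (if En (some v) (Classical.choose h) then Classical.choose h
        else nxt (OT P T) col (Classical.choose h))
    else dflt v
  have home1 : ∀ v, HV P v → col (some v) = true → home v = (some v, none) := by
    intro v h1 h2
    show (if HV P v ∧ col (some v) = true then (some v, none) else _) = _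
    rw [if_pos ⟨h1, h2⟩]
  have home2 : ∀ v, ¬ (HV P v ∧ col (some v) = true) → ∀ d, Mx (OT P T) col d →
      CrossT P T (s v) v d → home v = if En (some v) d then d else nxt (OT P T) col d := by
    intro v hn d hd hc
    have hex : ∃ d, Mx (OT P T) col d ∧ CrossT P T (s v) v d := ⟨d, hd, hc⟩
    have hd' := Classical.choose_spec hex
    have he : Classical.choose hex = d :=
      crossT_unique hP hT hd'.1.2.1 hd'.1.2.2 hd.2.1 hd.2.2 hd'.2 hc
    show (if HV P v ∧ col (some v) = true then (some v, none)
      else if h : ∃ d, Mx (OT P T) col d ∧ CrossT P T (s v) v d then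
      (if En (some v) (Classical.choose h) then Classical.choose h
        else nxt (OT P T) col (Classical.choose h))
      else dflt v) = _
    rw [if_neg hn, dif_pos hex, he]
  have home3 : ∀ v, ¬ (HV P v ∧ col (some v) = true) →
      (¬ ∃ d, Mx (OT P T) col d ∧ CrossT P T (s v) v d) → home v = dflt v := by
    intro v hn hex
    show (if HV P v ∧ col (some v) = true then (some v, none)
      else if h : ∃ d, Mx (OT P T) col d ∧ CrossT P T (s v) v d then
      (if En (some v) (Classical.choose h) then Classical.choose h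
        else nxt (OT P T) col (Classical.choose h))
      else dflt v) = _
    rw [if_neg hn, dif_neg hex]
  have hmxen : ∀ v ∈ P, Mx (OT P T) col (home v) ∧ En (some v) (home v) := by
    intro v hv
    by_cases hn : HV P v ∧ col (some v) = true
    · rw [home1 v hn.1 hn.2]
      obtain ⟨b, hb⟩ := HV.succ hP hv hn.1 h2
      exact ⟨⟨⟨some b, hb⟩, hn.2, hcol⟩, Or.inl rfl⟩
    · by_cases hex : ∃ d, Mx (OT P T) col d ∧ CrossT P T (s v) v d
      · obtain ⟨d, hd, hc⟩ := hex
        rw [home2 v hn d hd hc]
        by_cases he : En (some v) d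
        · rw [if_pos he]; exact ⟨hd, he⟩
        · rw [if_neg he]
          refine ⟨hS.mx_nxt hd, ?_⟩
          obtain ⟨a, b, -, -, -, -, r⟩ := hc
          have h3 := (rot_en r).1
          rcases hS.tn_cases hd (x := some v) h3 with h4 | h4
          · exact absurd h4 he
          · exact h4
      · rw [home3 v hn hex]
        exact hdflt v hv
  refine ⟨home, s, fun v hv => (hmxen v hv).1, fun v hv => (hmxen v hv).2,
    fun v _ h1 h2 => home1 v h1 h2, ?_⟩
  intro v hv hin d hd hvf hnh hnd w hw
  set f := nxt (OT P T) col d with hf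
  have hfm : Mx (OT P T) col f := hS.mx_nxt hd
  have hn : ¬ (HV P v ∧ col (some v) = true) := fun h => hin h.1
  have hwv : w ≠ v := by
    rintro rfl
    rcases hw with hw | hw
    · have := hfm.2; rw [hw] at this; exact absurd (this.1.symm.trans this.2) (by decide)
    · have := hfm.2; rw [hw] at this; exact absurd (this.1.symm.trans this.2) (by decide)
  have hcolw : col (some w) ≠ col (some v) := by
    have h3 := hfm.2
    rcases hw with hw | hw
    · rw [hw] at h3
      simp only at h3
      rw [h3.1, h3.2]; decide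
    · rw [hw] at h3
      simp only at h3
      rw [h3.1, h3.2]; decide
  have hsvw : Side T v w := by
    rcases hw with hw | hw
    · have := hfm.tri; rw [hw] at this; exact OT_side hP hT this
    · have := hfm.tri; rw [hw] at this; exact (OT_side hP hT this).symm
  have hwP : w ∈ P := (Side.mem hT hsvw).2
  -- a neighbour of the same colour
  have hmono : ∃ s, Mono T col v s := by
    by_contra hno
    push Not at hno
    have hnb : ∀ x, Ed (OT P T) (some v) x → col x ≠ col (some v) := by
      rintro x ⟨y, hy⟩ hc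
      obtain ⟨a', b', rfl, -, -, -⟩ := OT_inner hin hy
      exact hno a' ⟨OT_side hP hT hy, hc.symm⟩
    have hcl : ∀ n : ℕ, En (some v) ((nxt (OT P T) col)^[n] f) := by
      intro n
      induction n with
      | zero => exact hvf
      | succ n ih =>
        rw [Function.iterate_succ_apply']
        set g := (nxt (OT P T) col)^[n] f with hg
        have hgm : Mx (OT P T) col g := hS.mx_iter hfm n
        rcases hS.nxt_cases hgm with ⟨hc, he⟩ | ⟨hc, he⟩
        · rw [he]
          rcases ih with h1 | h1
          · exfalso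
            apply hnb (apx (OT P T) g)
            · rw [h1]
              exact hS.ed_symm ⟨_, hS.rot2 hgm.tri⟩
            · rw [hc, h1]; exact hgm.2.1.symm
          · exact Or.inr h1
        · rw [he]
          rcases ih with h1 | h1
          · exact Or.inl h1
          · exfalso
            apply hnb (apx (OT P T) g)
            · rw [h1]
              exact ⟨_, hS.rot _ _ _ hgm.tri⟩
            · rw [hc, h1]; exact hgm.2.2.symm
    obtain ⟨m1, m2⟩ := hmxen w hwP
    obtain ⟨n, hn'⟩ := hone f (home w) hfm m1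
    have h3 := hcl n
    rw [hn'] at h3
    apply hnh w hwP
    have m3 := m1.2
    have f3 := hfm.2
    rcases hw with hw | hw
    · rw [hw] at f3
      simp only at f3
      rw [hw]
      apply Prod.ext
      · rcases h3 with h4 | h4
        · exact h4.symm
        · rw [← h4, f3.1] at m3; exact absurd m3.2 (by decide)
      · rcases m2 with h4 | h4
        · rw [← h4, f3.2] at m3; exact absurd m3.1 (by decide)
        · exact h4.symm
    · rw [hw] at f3
      simp only at f3
      rw [hw]
      apply Prod.ext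
      · rcases m2 with h4 | h4
        · exact h4.symm
        · rw [← h4, f3.1] at m3; exact absurd m3.2 (by decide)
      · rcases h3 with h4 | h4
        · rw [← h4, f3.2] at m3; exact absurd m3.1 (by decide)
        · exact h4.symm
  obtain ⟨hsv, hsc⟩ := hs v hmono
  have hsP : s v ∈ P := (Side.mem hT hsv).2
  have hws : s v ≠ w := by
    intro h; rw [h] at hsc; exact hcolw hsc.symm
  have hne : cr (s v) v w ≠ 0 := hP (s v) hsP v hv w hwP hsv.1.symm hws hwv.symm
  have hcf : ¬ CrossT P T (s v) v f := by
    intro hc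
    have h3 := home2 v hn f hfm hc
    rw [if_pos hvf] at h3
    exact hnh v hv h3
  have hcd : ¬ CrossT P T (s v) v d := by
    intro hc
    have h3 := home2 v hn d hd hc
    by_cases he : En (some v) d
    · rw [if_pos he] at h3
      exact hnd ⟨h3, he⟩
    · rw [if_neg he] at h3
      exact hnh v hv h3
  have hwf : En (some w) f := by
    rcases hw with hw | hw
    · rw [hw]; exact Or.inr rfl
    · rw [hw]; exact Or.inl rfl
  refine ⟨hne, ?_, ?_⟩
  · exact fun x hx => side_of_tri hT hin hd.tri (hS.tn_of_en_nxt hd hvf)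
      (hS.tn_of_en_nxt hd hwf) hwv hsv hcd x hx
  · exact fun x hx => side_of_tri hT hin hfm.tri (tn_of_en hvf) (tn_of_en hwf) hwv hsv hcf x hx

end MP91a79a

end
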