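import Pool.Agent.Lib.MP_91a79a_co.Deg
import Pool.Agent.Lib.MP_91a79a_co.StripB

/-!
Completion of noncrossing segments to a triangulation, triangles from sides, flip lemma
(MP_91a79a_co, existence half).
-/

set_option autoImplicit false

noncomputable section

namespace MP91a79a

open Classical Set

variable {P : Finset Pt} {T T' : Finset (Finset Pt)}

/-- (A) pairwise noncrossing segments extend to a triangulation -/
theorem complete (hG : GP P) (hT : IsTriangulation P T) (E : Pt → Pt → Prop)
    (hE : ∀ x y, E x y → x ∈ P ∧ y ∈ P ∧ x ≠ y)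
    (hn : ∀ x y u v, E x y → E u v → ¬ Cross x y u v) :
    ∃ T', IsTriangulation P T' ∧ ∀ x y, E x y → Side T' x y := by
  have key : ∀ F : Finset (Pt × Pt), (∀ e ∈ F, E e.1 e.2) →
      ∃ T', IsTriangulation P T' ∧ ∀ e ∈ F, Side T' e.1 e.2 := by
    intro F
    induction F using Finset.induction_on with
    | empty => intro _; exact ⟨T, hT, fun e he => absurd he (Finset.notMem_empty _)⟩
    | insert e F he ih =>
      intro hF
      obtain ⟨T1, hT1, h1⟩ := ih (fun e' he' => hF e' (Finset.mem_insert_of_mem he'))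
      have hee := hF e (Finset.mem_insert_self _ _)
      obtain ⟨hx, hy, hxy⟩ := hE _ _ hee
      obtain ⟨k, -, T2, hR, hs, hk⟩ := insertion hG hT1 hx hy hxy P (fun u v huv _ =>
        Side.mem (hT1.strict hG) huv)
      refine ⟨T2, hR.right, ?_⟩
      intro e' he'
      rcases Finset.mem_insert.1 he' with rfl | he''
      · exact hs
      · exact hk _ _ (h1 e' he'') (hn _ _ _ _ hee (hF e' (Finset.mem_insert_of_mem he'')))
  obtain ⟨T', hT', h⟩ := key ((P ×ˢ P).filter (fun e => E e.1 e.2))
    (fun e he => (Finset.mem_filter.1 he).2)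
  refine ⟨T', hT', ?_⟩
  intro x y hxy
  obtain ⟨hx, hy, -⟩ := hE x y hxy
  exact h (x, y) (Finset.mem_filter.2 ⟨Finset.mem_product.2 ⟨hx, hy⟩, hxy⟩)

/-- (A') an empty triangle with three sides is a triangle -/
theorem tri_mem_of_sides (hG : GP P) (hT : IsTriangulation P T) {a b c : Pt}
    (ha : a ∈ P) (hb : b ∈ P) (hc : c ∈ P) (h0 : 0 < cr a b c)
    (hab : Side T a b) (hbc : Side T b c) (hca : Side T c a)
    (hno : ∀ p ∈ P, 0 < cr a b p → 0 < cr b c p → 0 < cr c a p → False) :
    {a, b, c} ∈ T := by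
  have hQ : ({a, b, c} : Finset Pt) ⊆ P := by
    intro x hx
    simp only [Finset.mem_insert, Finset.mem_singleton] at hx
    rcases hx with rfl | rfl | rfl <;> assumption
  obtain ⟨nab, nac, nbc⟩ := ne_of_cr h0.ne'
  have hcard : ({a, b, c} : Finset Pt).card = 3 := Finset.card_eq_three.2 ⟨a, b, c, nab, nac, nbc, rfl⟩
  have hQP : ∀ p ∈ P, p ∈ convexHull ℝ (({a, b, c} : Finset Pt) : Set Pt) →
      p ∈ ({a, b, c} : Finset Pt) := by
    intro p hp hpc
    rw [coe3] at hpc
    obtain ⟨c1, c2, c3⟩ := cr_of_hull h0.le hpc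
    simp only [Finset.mem_insert, Finset.mem_singleton]
    by_contra hcon
    push Not at hcon
    obtain ⟨n1, n2, n3⟩ := hcon
    refine hno p hp (lt_of_le_of_ne c1 ?_) (lt_of_le_of_ne c2 ?_) (lt_of_le_of_ne c3 ?_)
    · exact (hG a ha b hb p hp nab n1.symm n2.symm).symm
    · exact (hG b hb c hc p hp nbc n2.symm n3.symm).symm
    · exact (hG c hc a ha p hp nac.symm n3.symm n1.symm).symm
  have hull : ∀ u ∈ ({a, b, c} : Finset Pt), ∀ v ∈ ({a, b, c} : Finset Pt), u ≠ v →
      (∀ w ∈ ({a, b, c} : Finset Pt), 0 ≤ cr u v w) → Side T u v := by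
    intro u hu v hv huv _
    simp only [Finset.mem_insert, Finset.mem_singleton] at hu hv
    rcases hu with rfl | rfl | rfl <;> rcases hv with rfl | rfl | rfl <;>
      first
        | exact absurd rfl huv
        | assumption
        | exact Side.symm (by assumption)
  have hR := hT.restr hQ (hG.mono hQ) hcard.ge hQP hull
  have hne : (restr T ({a, b, c} : Finset Pt)).Nonempty := by
    by_contra hemp
    rw [Finset.not_nonempty_iff_eq_empty] at hemp
    have hcov := hR.cover
    rw [hemp] at hcov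
    simp only [Finset.notMem_empty, iUnion_of_empty, iUnion_empty] at hcov
    have : a ∈ convexHull ℝ (({a, b, c} : Finset Pt) : Set Pt) :=
      subset_convexHull ℝ _ (by simp)
    rw [← hcov] at this
    exact this
  obtain ⟨t, ht⟩ := hne
  obtain ⟨ht1, ht2⟩ := mem_restr.1 ht
  have : t = {a, b, c} := Finset.eq_of_subset_of_card_le ht2 (by rw [hcard, hT.card t ht1])
  rw [← this]; exact ht1

/-- the sector at `x` of the two triangles at a side which is not in `E` is less than 180 degrees -/
theorem sector_lt (hG : GP P) (hT : STri P T) (E : Pt → Prop) {x y p q : Pt}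
    (hE : ∀ g, E g → Side T x g) (hp : {x, y, p} ∈ T) (hq : {x, y, q} ∈ T)
    (hp0 : 0 < cr x y p) (hq0 : cr x y q < 0) (hne : ¬ E y) (hx : HV P x ∨ Wide E x) :
    0 < cr x q p := by
  have hxP : x ∈ P := hT.sub _ hp (by simp)
  have hyP : y ∈ P := hT.sub _ hp (by simp)
  have hpP : p ∈ P := hT.sub _ hp (by simp)
  have hqP : q ∈ P := hT.sub _ hq (by simp)
  obtain ⟨nxy, nxp, nyp⟩ := ne_of_cr hp0.ne'
  obtain ⟨-, nxq, nyq⟩ := ne_of_cr hq0.ne
  have npq : q ≠ p := by rintro rfl; linarith
  have hcr := hG x hxP q hqP p hpP nxq nxp npq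
  have hxqy : 0 < cr x q y := by
    have : cr x q y = - cr x y q := by unfold cr; ring
    rw [this]; linarith
  rcases hx with hx | hx
  · refine turn hxqy hp0 hcr ?_
    exact fun_of_hv hx hyP hqP hpP
  · by_contra hcon
    have hneg : cr x q p < 0 := lt_of_le_of_ne (not_lt.1 hcon) hcr
    obtain ⟨g, hg, hlt⟩ := hx (-(q.2 - x.2)) (q.1 - x.1) (by
      by_contra h
      push Not at h
      apply nxq
      ext
      · linarith [h.2]
      · linarith [h.1])
    have hqg : 0 < cr x q g := by
      rw [cr_lf]; linarith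
    have hsg := hE g hg
    have hgP := (Side.mem hT hsg).2
    have hgy : y ≠ g := by rintro rfl; exact hne hg
    have hxyg := hG x hxP y hyP g hgP nxy hsg.1 hgy
    rcases lt_or_gt_of_ne hxyg with h1 | h1
    · have hq' : {x, q, y} ∈ T := by rw [perm_acb]; exact hq
      refine no_side_in' hT hq' hsg hqg ?_ hxqy
      have : cr x g y = - cr x y g := by unfold cr; ring
      rw [this]; linarith
    · refine no_side_in' hT hp hsg h1 ?_ hp0
      have e : cr x q y * cr x g p = cr x q g * cr x y p - cr x q p * cr x y g := by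
        unfold cr; ring
      have e2 : 0 < cr x q y * cr x g p := by
        rw [e]
        nlinarith [mul_pos hqg hp0, mul_pos (neg_pos.2 hneg) h1]
      exact (pos_iff_pos_of_mul_pos e2).1 hxqy

/-- (B) FLIP LEMMA -/
theorem flip_cross (hG : GP P) (hT : STri P T) (E : Pt → Pt → Prop)
    (hsym : ∀ x y, E x y → E y x) (hE : ∀ x y, E x y → Side T x y) {x y p q : Pt}
    (hp : {x, y, p} ∈ T) (hq : {x, y, q} ∈ T) (hpq : p ≠ q) (hne : ¬ E x y)
    (hx : HV P x ∨ Wide (E x) x) (hy : HV P y ∨ Wide (E y) y) : Cross x y p q := by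
  have key : ∀ p q : Pt, {x, y, p} ∈ T → {x, y, q} ∈ T → 0 < cr x y p → cr x y q < 0 →
      Cross x y p q := by
    intro p q hp hq hp0 hq0
    have h1 := sector_lt hG hT (E x) (hE x) hp hq hp0 hq0 hne hx
    have hp' : {y, x, p} ∈ T := by rw [perm_bac]; exact hp
    have hq' : {y, x, q} ∈ T := by rw [perm_bac]; exact hq
    have h2 := sector_lt hG hT (E y) (hE y) hq' hp' (by rw [cr_swap]; linarith)
      (by rw [cr_swap]; linarith) (fun h => hne (hsym _ _ h)) hy
    refine ⟨mul_neg_of_pos_of_neg hp0 hq0, ?_⟩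
    have e1 : cr p q x = - cr x q p := by unfold cr; ring
    have e2 : cr p q y = cr y p q := by unfold cr; ring
    rw [e1, e2]
    exact mul_neg_of_neg_of_pos (by linarith) h2
  have np := hT.nondeg _ hp
  have nq := hT.nondeg _ hq
  rw [coe3, collinear_iff] at np nq
  rcases lt_or_gt_of_ne np with h1 | h1 <;> rcases lt_or_gt_of_ne nq with h2 | h2
  · exact absurd (hT.unique hp hq (mul_pos_of_neg_of_neg h1 h2)) hpq
  · exact (key q p hq hp h2 h1).flip2
  · exact key p q hp hq h1 h2
  · exact absurd (hT.unique hp hq (mul_pos h1 h2)) hpq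

end MP91a79a

end
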