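import Pool.Agent.Lib.MP_91a79a_co.Core

/-!
Parity count: a triangulation which still has all the leg cores has no Hamiltonian cycle (not even
a spanning 2-regular subgraph).
-/

set_option linter.unusedSectionVars false

namespace MP91a79a

open Finset

variable {α : Type*} [DecidableEq α]

/-- a 2-regular relation on `V`, given by neighbour sets -/
structure TwoReg (V : Finset α) (nb : α → Finset α) : Prop where
  sym : ∀ u v, v ∈ nb u → u ∈ nb v
  irr : ∀ u, u ∉ nb u
  two : ∀ u ∈ V, (nb u).card = 2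

theorem TwoReg.even {V : Finset α} {nb : α → Finset α} (h : TwoReg V nb) (Z : Finset α)
    (hZ : Z ⊆ V) : Even (∑ u ∈ Z, ((nb u).filter (fun w => w ∉ Z)).card) := by
  classical
  have h1 : ∑ u ∈ Z, ((nb u).filter (fun w => w ∈ Z)).card +
      ∑ u ∈ Z, ((nb u).filter (fun w => w ∉ Z)).card = 2 * Z.card := by
    rw [← Finset.sum_add_distrib]
    have : ∀ u ∈ Z, ((nb u).filter (fun w => w ∈ Z)).card +
        ((nb u).filter (fun w => w ∉ Z)).card = 2 := by
      intro u hu
      rw [Finset.card_filter_add_card_filter_not]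
      exact h.two u (hZ hu)
    rw [Finset.sum_congr rfl this]
    simp [mul_comm]
  have h2 : Even (∑ u ∈ Z, ((nb u).filter (fun w => w ∈ Z)).card) := by
    have h3 : ∑ u ∈ Z, ((nb u).filter (fun w => w ∈ Z)).card =
        ((Z ×ˢ Z).filter (fun p => p.2 ∈ nb p.1)).card := by
      rw [Finset.card_filter, Finset.sum_product]
      refine Finset.sum_congr rfl fun u hu => ?_
      rw [← Finset.card_filter]
      congr 1
      ext w
      simp [and_comm]
    rw [h3, ← (ZMod.natCast_eq_zero_iff_even)]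
    have h4 : ((((Z ×ˢ Z).filter (fun p => p.2 ∈ nb p.1)).card : ℕ) : ZMod 2) =
        ∑ p ∈ (Z ×ˢ Z).filter (fun p => p.2 ∈ nb p.1), (1 : ZMod 2) := by simp
    rw [h4]
    refine Finset.sum_involution (fun p _ => (p.2, p.1)) ?_ ?_ ?_ ?_
    · intro p _; decide
    · rintro ⟨a, b⟩ hp _ he
      simp only [Finset.mem_filter, Finset.mem_product, Prod.mk.injEq] at hp he
      obtain ⟨he, -⟩ := he
      subst he
      exact h.irr _ hp.2
    · rintro ⟨a, b⟩ hp
      simp only [Finset.mem_filter, Finset.mem_product] at hp ⊢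
      exact ⟨⟨hp.1.2, hp.1.1⟩, h.sym _ _ hp.2⟩
    · rintro ⟨a, b⟩ _; rfl
  have h5 : Even (2 * Z.card) := even_two_mul _
  rw [← h1] at h5
  exact (Nat.even_add.1 h5).1 h2

variable {M : Frame α} {T : Set (Finset α)} {k : ℕ} {V : Finset α} {nb : α → Finset α}

/-- `w` is a hub -/
def isHub (M : Frame α) (w : α) : Prop := ∃ h, w = M.hub h

theorem nbX (hS : SInv M k T)
    (hadj : ∀ u, ∀ w ∈ nb u, u ≠ w ∧ ∃ τ ∈ T, u ∈ τ ∧ w ∈ τ)
    {f : Fin 5} {j : Fin 3} {i : ℕ} (hi : rig f j = true ∨ k ≤ i) (hi2 : i + 1 < M.N - k)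
    {w : α} (hw : w ∈ nb (M.X f j (i+1))) :
    isHub M w ∨ w = M.X f j i ∨ w = M.X f j (i+2) := by
  obtain ⟨hne, τ, hτ, h1, h2⟩ := hadj _ _ hw
  rcases hS.s f j i hi hi2 τ hτ h1 with rfl | rfl | rfl | rfl <;>
  · simp only [Finset.mem_insert, Finset.mem_singleton] at h2
    rcases h2 with rfl | rfl | rfl
    · exact Or.inl ⟨_, rfl⟩
    · first
      | exact Or.inr (Or.inl rfl)
      | exact absurd rfl hne
    · first
      | exact absurd rfl hne
      | exact Or.inr (Or.inr rfl)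

theorem nbX0 (hS : SInv M k T)
    (hadj : ∀ u, ∀ w ∈ nb u, u ≠ w ∧ ∃ τ ∈ T, u ∈ τ ∧ w ∈ τ)
    {f : Fin 5} {j : Fin 3} (hi : rig f j = true)
    {w : α} (hw : w ∈ nb (M.X f j 0)) :
    isHub M w ∨ w = M.X f j 1 := by
  obtain ⟨hne, τ, hτ, h1, h2⟩ := hadj _ _ hw
  rcases hS.z f j hi τ hτ h1 with rfl | rfl | rfl <;>
  · simp only [Finset.mem_insert, Finset.mem_singleton] at h2
    rcases h2 with rfl | rfl | rfl
    · exact Or.inl ⟨_, rfl⟩
    · first
      | exact Or.inl ⟨_, rfl⟩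
      | exact absurd rfl hne
    · first
      | exact absurd rfl hne
      | exact Or.inr rfl

theorem zoneA (hT : TwoReg V nb) (hk : k < M.K) (hS : SInv M k T)
    (hadj : ∀ u, ∀ w ∈ nb u, u ≠ w ∧ ∃ τ ∈ T, u ∈ τ ∧ w ∈ τ)
    (hV : ∀ f j i, i ≤ M.N → M.X f j i ∈ V)
    {f : Fin 5} {j : Fin 3} (hr : rig f j = true) {l : ℕ} (hl : M.K < l) (hl2 : l + 1 < M.N - M.K)
    (hcut : M.X f j (l+1) ∈ nb (M.X f j l)) :
    ∃ i ≤ l, ∃ h, M.hub h ∈ nb (M.X f j i) := by
  have hN := M.hN
  by_contra hcon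
  push Not at hcon
  have inj : ∀ a b, a ≤ l + 2 → b ≤ l + 2 → M.X f j a = M.X f j b → a = b := by
    intro a b ha hb hab
    obtain ⟨-, ⟨-, h⟩ | h⟩ := M.X_inj _ _ _ _ _ _ (by omega) (by omega) hab
    · exact h
    · omega
  set Z : Finset α := (Finset.range (l+1)).image (fun i => M.X f j i) with hZ
  have hmem : ∀ a ≤ l + 2, (M.X f j a ∈ Z ↔ a ≤ l) := by
    intro a ha
    rw [hZ, Finset.mem_image]
    constructor
    · rintro ⟨b, hb, hab⟩
      rw [Finset.mem_range] at hb
      have := inj _ _ (by omega) ha hab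
      omega
    · intro h
      exact ⟨a, Finset.mem_range.2 (by omega), rfl⟩
  have hZV : Z ⊆ V := by
    intro x hx
    rw [hZ, Finset.mem_image] at hx
    obtain ⟨b, hb, rfl⟩ := hx
    rw [Finset.mem_range] at hb
    exact hV _ _ _ (by omega)
  have heven := hT.even Z hZV
  have hsum : ∑ u ∈ Z, ((nb u).filter (fun w => w ∉ Z)).card = 1 := by
    rw [Finset.sum_eq_single (M.X f j l)]
    · rw [Finset.card_eq_one]
      refine ⟨M.X f j (l+1), ?_⟩
      ext w
      rw [Finset.mem_filter, Finset.mem_singleton]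
      constructor
      · rintro ⟨hw, hwZ⟩
        obtain ⟨l', rfl⟩ : ∃ l', l = l' + 1 := ⟨l - 1, by omega⟩
        rcases nbX hS hadj (Or.inl hr) (by omega) hw with ⟨h, rfl⟩ | rfl | rfl
        · exact absurd hw (hcon _ le_rfl h)
        · exact absurd ((hmem l' (by omega)).2 (by omega)) hwZ
        · rfl
      · rintro rfl
        exact ⟨hcut, fun h => by have := (hmem (l+1) (by omega)).1 h; omega⟩
    · intro u hu hne
      rw [hZ, Finset.mem_image] at hu
      obtain ⟨b, hb, rfl⟩ := hu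
      rw [Finset.mem_range] at hb
      have hbl : b < l := by
        rcases Nat.lt_or_ge b l with h | h
        · exact h
        · exfalso; apply hne; congr 1; omega
      rw [Finset.card_eq_zero, Finset.filter_eq_empty_iff]
      intro w hw
      rw [not_not]
      rcases Nat.eq_zero_or_pos b with rfl | hpos
      · rcases nbX0 hS hadj hr hw with ⟨h, rfl⟩ | rfl
        · exact absurd hw (hcon _ (by omega) h)
        · exact (hmem 1 (by omega)).2 (by omega)
      · obtain ⟨c, rfl⟩ : ∃ c, b = c + 1 := ⟨b - 1, by omega⟩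
        rcases nbX hS hadj (Or.inl hr) (by omega) hw with ⟨h, rfl⟩ | rfl | rfl
        · exact absurd hw (hcon _ (by omega) h)
        · exact (hmem _ (by omega)).2 (by omega)
        · exact (hmem _ (by omega)).2 (by omega)
    · intro h
      exact absurd ((hmem l (by omega)).2 le_rfl) h
  rw [hsum] at heven
  exact absurd heven (by decide)

theorem zoneB (hT : TwoReg V nb) (hk : k < M.K) (hS : SInv M k T) (hI : CInv M T)
    (hadj : ∀ u, ∀ w ∈ nb u, u ≠ w ∧ ∃ τ ∈ T, u ∈ τ ∧ w ∈ τ)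
    (hV : ∀ f j i, i ≤ M.N → M.X f j i ∈ V)
    {f : Fin 5} {l : Fin 3 → ℕ} (hl : ∀ j, M.K < l j) (hl2 : ∀ j, l j + 1 < M.N - M.K)
    (hcut : ∀ j, M.X f j (l j) ∈ nb (M.X f j (l j + 1))) :
    ∃ j i, l j < i ∧ i ≤ M.N ∧ ∃ h, M.hub h ∈ nb (M.X f j i) := by
  have hN := M.hN
  by_contra hcon
  push Not at hcon
  set Z : Finset α := (Finset.univ : Finset (Fin 3)).biUnion
    (fun j => (Finset.Icc (l j + 1) M.N).image (fun i => M.X f j i)) with hZ
  have hmem : ∀ j a, a ≤ M.N → (M.X f j a ∈ Z ↔ l j < a) := by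
    intro j a ha
    rw [hZ, Finset.mem_biUnion]
    constructor
    · rintro ⟨j', -, h⟩
      rw [Finset.mem_image] at h
      obtain ⟨b, hb, hab⟩ := h
      rw [Finset.mem_Icc] at hb
      obtain ⟨-, ⟨rfl, rfl⟩ | h⟩ := M.X_inj _ _ _ _ _ _ (by omega) (by omega) hab
      · omega
      · have := hl2 j; omega
    · intro h
      exact ⟨j, Finset.mem_univ _, Finset.mem_image.2 ⟨a, Finset.mem_Icc.2 ⟨h, ha⟩, rfl⟩⟩
  have hZV : Z ⊆ V := by
    intro x hx
    rw [hZ, Finset.mem_biUnion] at hx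
    obtain ⟨j, -, hx⟩ := hx
    rw [Finset.mem_image] at hx
    obtain ⟨b, hb, rfl⟩ := hx
    rw [Finset.mem_Icc] at hb
    exact hV _ _ _ (by omega)
  have heven := hT.even Z hZV
  set C : Finset α := (Finset.univ : Finset (Fin 3)).image (fun j => M.X f j (l j + 1)) with hC
  have hCcard : C.card = 3 := by
    rw [hC, Finset.card_image_of_injective]
    · simp
    · intro j j' h
      have := hl2 j
      have := hl2 j'
      obtain ⟨-, h | h⟩ := M.X_inj _ _ _ _ _ _ (by omega) (by omega) h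
      · exact h.1
      · omega
  have hCZ : C ⊆ Z := by
    intro x hx
    rw [hC, Finset.mem_image] at hx
    obtain ⟨j, -, rfl⟩ := hx
    have := hl2 j
    exact (hmem j _ (by omega)).2 (by omega)
  -- leaving neighbours
  have hleave : ∀ j i, l j < i → i ≤ M.N → ∀ w ∈ nb (M.X f j i), w ∉ Z → 
      i = l j + 1 ∧ w = M.X f j (l j) := by
    intro j i hi hi2 w hw hwZ
    have h3 := hl2 j
    have h3' := hl j
    rcases Nat.lt_or_ge i (M.N - k) with h4 | h4
    · obtain ⟨c, rfl⟩ : ∃ c, i = c + 1 := ⟨i - 1, by omega⟩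
      rcases nbX hS hadj (Or.inr (by omega)) h4 hw with ⟨h, rfl⟩ | rfl | rfl
      · exact absurd hw (hcon _ _ (by omega) hi2 h)
      · rcases Nat.lt_or_ge (l j) c with h5 | h5
        · exact absurd ((hmem j c (by omega)).2 h5) hwZ
        · have : c = l j := by omega
          subst this
          exact ⟨rfl, rfl⟩
      · exact absurd ((hmem j (c+2) (by omega)).2 (by omega)) hwZ
    · exfalso
      obtain ⟨hne, τ, hτ, h5, h6⟩ := hadj _ _ hw
      rcases hI.i4 f τ hτ _ h5 ⟨j, i, by omega, hi2, rfl⟩ w h6 with ⟨m, rfl⟩ | ⟨j', i', h7, h8, rfl⟩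
      · exact absurd hw (hcon _ _ (by omega) hi2 _)
      · have := hl2 j'
        exact hwZ ((hmem j' i' h8).2 (by omega))
  have hsum : ∑ u ∈ Z, ((nb u).filter (fun w => w ∉ Z)).card = 3 := by
    rw [← hCcard, Finset.card_eq_sum_ones, ← Finset.sum_subset hCZ]
    · refine Finset.sum_congr rfl fun u hu => ?_
      rw [hC, Finset.mem_image] at hu
      obtain ⟨j, -, rfl⟩ := hu
      have h3 := hl2 j
      rw [Finset.card_eq_one]
      refine ⟨M.X f j (l j), ?_⟩
      ext w
      rw [Finset.mem_filter, Finset.mem_singleton]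
      constructor
      · rintro ⟨hw, hwZ⟩
        exact (hleave j _ (by omega) (by omega) w hw hwZ).2
      · rintro rfl
        exact ⟨hcut j, fun h => by have := (hmem j (l j) (by omega)).1 h; omega⟩
    · intro u hu hne
      rw [hZ, Finset.mem_biUnion] at hu
      obtain ⟨j, -, hu⟩ := hu
      rw [Finset.mem_image] at hu
      obtain ⟨b, hb, rfl⟩ := hu
      rw [Finset.mem_Icc] at hb
      rw [Finset.card_eq_zero, Finset.filter_eq_empty_iff]
      intro w hw
      rw [not_not]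
      by_contra hwZ
      obtain ⟨h4, -⟩ := hleave j b (by omega) hb.2 w hw hwZ
      apply hne
      rw [hC, Finset.mem_image]
      exact ⟨j, Finset.mem_univ _, by rw [h4]⟩
  rw [hsum] at heven
  exact absurd heven (by decide)

theorem no_twoReg (hT : TwoReg V nb) (hk : k < M.K) (hS : SInv M k T) (hI : CInv M T)
    (hadj : ∀ u, ∀ w ∈ nb u, u ≠ w ∧ ∃ τ ∈ T, u ∈ τ ∧ w ∈ τ)
    (hV : ∀ f j i, i ≤ M.N → M.X f j i ∈ V) (hVh : ∀ h, M.hub h ∈ V) : False := by
  classical
  have hN := M.hN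
  set D : Finset α := (Finset.univ : Finset (Fin 5)).biUnion (fun h => nb (M.hub h)) with hD
  have hDcard : D.card ≤ 10 := by
    refine le_trans Finset.card_biUnion_le ?_
    rw [Finset.sum_congr rfl (fun h _ => hT.two _ (hVh h))]
    simp
  have hDmem : ∀ x h, M.hub h ∈ nb x → x ∈ D := by
    intro x h hx
    rw [hD, Finset.mem_biUnion]
    exact ⟨h, Finset.mem_univ _, hT.sym _ _ hx⟩
  -- a cut edge in every leg
  have hcut : ∀ f j, ∃ l, M.K < l ∧ l + 1 < M.N - M.K ∧ M.X f j (l+1) ∈ nb (M.X f j l) := by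
    intro f j
    have h1 : ∃ i ∈ Finset.Icc (M.K + 1) (M.K + 12), M.X f j i ∉ D := by
      by_contra hcon
      push Not at hcon
      have h2 : ((Finset.Icc (M.K + 1) (M.K + 12)).image (fun i => M.X f j i)).card ≤ D.card :=
        Finset.card_le_card (fun x hx => by
          rw [Finset.mem_image] at hx
          obtain ⟨i, hi, rfl⟩ := hx
          exact hcon i hi)
      rw [Finset.card_image_of_injOn] at h2
      · simp only [Nat.card_Icc] at h2; omega
      · intro a ha b hb hab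
        simp only [Finset.coe_Icc, Set.mem_Icc] at ha hb
        obtain ⟨-, h | h⟩ := M.X_inj _ _ _ _ _ _ (by omega) (by omega) hab
        · exact h.2
        · omega
    obtain ⟨i, hi, hiD⟩ := h1
    rw [Finset.mem_Icc] at hi
    refine ⟨i, by omega, by omega, ?_⟩
    obtain ⟨c, rfl⟩ : ∃ c, i = c + 1 := ⟨i - 1, by omega⟩
    have h3 : nb (M.X f j (c+1)) ⊆ {M.X f j c, M.X f j (c+2)} := by
      intro w hw
      rcases nbX hS hadj (Or.inr (by omega)) (by omega) hw with ⟨h, rfl⟩ | rfl | rfl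
      · exact absurd (hDmem _ _ hw) hiD
      · simp
      · simp
    have h4 := Finset.eq_of_subset_of_card_le h3 (by
      rw [hT.two _ (hV _ _ _ (by omega))]; exact Finset.card_le_two)
    rw [h4]; simp
  choose l hl1 hl2 hl3 using hcut
  have hA : ∀ p : {p : Fin 5 × Fin 3 // rig p.1 p.2 = true}, ∃ i ≤ l p.1.1 p.1.2, 
      M.X p.1.1 p.1.2 i ∈ D := by
    rintro ⟨⟨f, j⟩, hr⟩
    obtain ⟨i, hi, h, hh⟩ := zoneA hT hk hS hadj hV hr (hl1 f j) (hl2 f j) (hl3 f j)
    exact ⟨i, hi, hDmem _ _ hh⟩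
  have hB : ∀ f : Fin 5, ∃ j i, l f j < i ∧ i ≤ M.N ∧ M.X f j i ∈ D := by
    intro f
    obtain ⟨j, i, h1, h2, h, hh⟩ := zoneB hT hk hS hI hadj hV (hl1 f) (hl2 f)
      (fun j => hT.sym _ _ (hl3 f j))
    exact ⟨j, i, h1, h2, hDmem _ _ hh⟩
  choose a ha1 ha2 using hA
  choose b c hb1 hb2 hb3 using hB
  let φ : {p : Fin 5 × Fin 3 // rig p.1 p.2 = true} ⊕ Fin 5 → {x // x ∈ D} :=
    Sum.elim (fun p => ⟨_, ha2 p⟩) (fun f => ⟨_, hb3 f⟩)
  have hφ : Function.Injective φ := by
    rintro (p | f) (p' | f') h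
    · simp only [φ, Sum.elim_inl, Subtype.mk.injEq] at h
      have h1 := ha1 p
      have h2 := ha1 p'
      have h3 := hl2 p.1.1 p.1.2
      have h4 := hl2 p'.1.1 p'.1.2
      obtain ⟨h5, h6 | h6⟩ := M.X_inj _ _ _ _ _ _ (by omega) (by omega) h
      · congr 1
        apply Subtype.ext
        exact Prod.ext h5 h6.1
      · omega
    · simp only [φ, Sum.elim_inl, Sum.elim_inr, Subtype.mk.injEq] at h
      exfalso
      have h1 := ha1 p
      have h3 := hl2 p.1.1 p.1.2
      have h4 := hb1 f'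
      have h4' := hb2 f'
      obtain ⟨h5, h6 | h6⟩ := M.X_inj _ _ _ _ _ _ (by omega) (by omega) h
      · rw [h5, h6.1] at h1
        omega
      · omega
    · simp only [φ, Sum.elim_inl, Sum.elim_inr, Subtype.mk.injEq] at h
      exfalso
      have h1 := ha1 p'
      have h3 := hl2 p'.1.1 p'.1.2
      have h4 := hb1 f
      have h4' := hb2 f
      obtain ⟨h5, h6 | h6⟩ := M.X_inj _ _ _ _ _ _ (by omega) (by omega) h
      · rw [← h5, ← h6.1] at h1
        omega
      · omega
    · simp only [φ, Sum.elim_inr, Subtype.mk.injEq] at h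
      have h1 := hb2 f
      have h2 := hb2 f'
      obtain ⟨h5, -⟩ := M.X_inj _ _ _ _ _ _ (by omega) (by omega) h
      rw [h5]
  have h1 := Fintype.card_le_of_injective φ hφ
  rw [Fintype.card_coe, Fintype.card_sum] at h1
  have h2 : Fintype.card {p : Fin 5 × Fin 3 // rig p.1 p.2 = true} = 7 := by decide
  rw [h2, Fintype.card_fin] at h1
  omega

end MP91a79a
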