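import Pool.Agent.Lib.MP_91a79a_co.Leg
import Pool.Agent.Lib.MP_91a79a_co.Count

/-!
The concrete configuration.
-/

noncomputable section

namespace MP91a79a

open Set

def hubZ : Fin 5 → ℤ × ℤ := ![(0, 30), (-30, -30), (30, -30), (0, 0), (0, -15)]

def cenZ : Fin 5 → ℤ × ℤ := ![(-10, -4), (10, -4), (-2, -8), (5, -9), (15, -24)]

def toR (p : ℤ × ℤ) : Pt := ((p.1 : ℝ), (p.2 : ℝ))

/-- the five hubs -/
def hubs (h : Fin 5) : Pt := toR (hubZ h)

/-- the centres of the five faces -/
def cen (f : Fin 5) : Pt := toR (cenZ f)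

def crZ (a b p : ℤ × ℤ) : ℤ := (b.1 - a.1) * (p.2 - a.2) - (b.2 - a.2) * (p.1 - a.1)

theorem cr_toR (a b p : ℤ × ℤ) : cr (toR a) (toR b) (toR p) = (crZ a b p : ℝ) := by
  simp only [cr, toR, crZ]; push_cast; ring

theorem toR_inj : Function.Injective toR := by
  intro a b h
  have h1 := congrArg Prod.fst h
  have h2 := congrArg Prod.snd h
  simp only [toR] at h1 h2
  ext
  · exact_mod_cast h1
  · exact_mod_cast h2

def co (f : Fin 5) (m : Fin 3) : Pt := hubs (cor f m)

def uu (N : ℕ) (n : ℕ) : ℝ := (n : ℝ) / (n + 9 * N)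

theorem uu_good {N : ℕ} (hN : 0 < N) : GoodU (uu N) := by
  have hN' : (0:ℝ) < N := by exact_mod_cast hN
  refine ⟨by simp [uu], fun n => ?_, fun n => ?_⟩
  · unfold uu
    push_cast
    rw [div_lt_div_iff₀ (by positivity) (by positivity)]
    nlinarith
  · unfold uu
    rw [div_lt_one (by positivity)]
    linarith

theorem uu_N {N : ℕ} (hN : 0 < N) : uu N N = 1 / 10 := by
  have hN' : (0:ℝ) < N := by exact_mod_cast hN
  unfold uu
  field_simp
  norm_num

theorem hcZ : ∀ f j, 0 < crZ (hubZ (cor f (j+1))) (hubZ (cor f (j+2))) (cenZ f) := by decide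

theorem hc (f : Fin 5) (j : Fin 3) : 0 < cr (co f (j+1)) (co f (j+2)) (cen f) := by
  unfold co hubs cen
  rw [cr_toR]
  exact_mod_cast hcZ f j

theorem hubZ_inj : Function.Injective hubZ := by decide

theorem hubs_inj : Function.Injective hubs := toR_inj.comp hubZ_inj

theorem hub_cr {a b c : Fin 5} (h : 0 < crZ (hubZ a) (hubZ b) (hubZ c)) :
    0 < cr (hubs a) (hubs b) (hubs c) := by
  unfold hubs
  rw [cr_toR]
  exact_mod_cast h

def faceTri (f : Fin 5) : Finset Pt := Finset.univ.image fun m => hubs (cor f m)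

theorem faceTri_eq (f : Fin 5) : faceTri f = {co f 0, co f 1, co f 2} := by
  ext x
  simp only [faceTri, Finset.mem_image, Finset.mem_univ, true_and, Finset.mem_insert,
    Finset.mem_singleton]
  constructor
  · rintro ⟨m, rfl⟩
    fin_cases m
    · left; rfl
    · right; left; rfl
    · right; right; rfl
  · rintro (rfl | rfl | rfl)
    · exact ⟨0, rfl⟩
    · exact ⟨1, rfl⟩
    · exact ⟨2, rfl⟩

theorem cor_img_inj : Function.Injective fun f : Fin 5 => Finset.univ.image (cor f) := by decide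

theorem faceTri_inj : Function.Injective faceTri := by
  have h1 : ∀ f, faceTri f = (Finset.univ.image (cor f)).image hubs := by
    intro f
    unfold faceTri
    rw [Finset.image_image]
    rfl
  intro f g h
  rw [h1, h1] at h
  have h2 := Finset.image_injective hubs_inj h
  exact cor_img_inj h2

def hubP : Finset Pt := Finset.univ.image hubs

theorem hub_stri : STri hubP (Finset.univ.image faceTri) := by
  have H1 := STri.split (a := hubs 0) (b := hubs 1) (c := hubs 2) (p := hubs 3)
    (hub_cr (by decide)) (hub_cr (by decide)) (hub_cr (by decide))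
  have q1 : 0 < cr (hubs 1) (hubs 2) (hubs 4) := hub_cr (by decide)
  have q2 : 0 < cr (hubs 2) (hubs 3) (hubs 4) := hub_cr (by decide)
  have q3 : 0 < cr (hubs 3) (hubs 1) (hubs 4) := hub_cr (by decide)
  have H2 := STri.split q1 q2 q3
  have H3 := H1.replace (t := {hubs 1, hubs 2, hubs 3}) (by simp) _ _ (by
    intro x hx
    simp only [Finset.mem_insert, Finset.mem_singleton] at hx ⊢; tauto) H2 (by
    intro p hp
    simp only [Finset.mem_insert, Finset.mem_singleton] at hp
    rcases hp with rfl | rfl | rfl | rfl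
    · left; simp
    · left; simp
    · left; simp
    · right; rw [coe3]; exact mem_int_of_cr q1 q2 q3)
  have eP : ({hubs 0, hubs 1, hubs 2, hubs 3} ∪ {hubs 1, hubs 2, hubs 3, hubs 4} : Finset Pt) =
      hubP := by
    ext x
    simp only [hubP, Finset.mem_union, Finset.mem_insert, Finset.mem_singleton, Finset.mem_image,
      Finset.mem_univ, true_and]
    constructor
    · rintro ((rfl | rfl | rfl | rfl) | (rfl | rfl | rfl | rfl)) <;> exact ⟨_, rfl⟩
    · rintro ⟨i, rfl⟩
      fin_cases i <;> simp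
  have ne : ∀ i j, i ≠ j → hubs i ≠ hubs j := fun i j hij h => hij (hubs_inj h)
  have n1 : ({hubs 0, hubs 1, hubs 3} : Finset Pt) ≠ {hubs 1, hubs 2, hubs 3} := by
    intro h
    have : hubs 0 ∈ ({hubs 1, hubs 2, hubs 3} : Finset Pt) := by rw [← h]; simp
    simp only [Finset.mem_insert, Finset.mem_singleton] at this
    rcases this with h | h | h <;> exact ne _ _ (by decide) h
  have n2 : ({hubs 2, hubs 0, hubs 3} : Finset Pt) ≠ {hubs 1, hubs 2, hubs 3} := by
    intro h
    have : hubs 0 ∈ ({hubs 1, hubs 2, hubs 3} : Finset Pt) := by rw [← h]; simp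
    simp only [Finset.mem_insert, Finset.mem_singleton] at this
    rcases this with h | h | h <;> exact ne _ _ (by decide) h
  have f0 : faceTri 0 = {hubs 0, hubs 1, hubs 3} := by
    rw [faceTri_eq]
    show ({hubs 3, hubs 0, hubs 1} : Finset Pt) = _
    ext x; simp only [Finset.mem_insert, Finset.mem_singleton]; tauto
  have f1 : faceTri 1 = {hubs 2, hubs 0, hubs 3} := by
    rw [faceTri_eq]
    show ({hubs 3, hubs 2, hubs 0} : Finset Pt) = _
    ext x; simp only [Finset.mem_insert, Finset.mem_singleton]; tauto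
  have f2 : faceTri 2 = {hubs 3, hubs 1, hubs 4} := by
    rw [faceTri_eq]; rfl
  have f3 : faceTri 3 = {hubs 2, hubs 3, hubs 4} := by
    rw [faceTri_eq]
    show ({hubs 3, hubs 4, hubs 2} : Finset Pt) = _
    ext x; simp only [Finset.mem_insert, Finset.mem_singleton]; tauto
  have f4 : faceTri 4 = {hubs 1, hubs 2, hubs 4} := by
    rw [faceTri_eq]
    show ({hubs 4, hubs 1, hubs 2} : Finset Pt) = _
    ext x; simp only [Finset.mem_insert, Finset.mem_singleton]; tauto
  have eT : (({{hubs 0, hubs 1, hubs 3}, {hubs 1, hubs 2, hubs 3}, {hubs 2, hubs 0, hubs 3}} :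
      Finset (Finset Pt)).erase {hubs 1, hubs 2, hubs 3} ∪
      {{hubs 1, hubs 2, hubs 4}, {hubs 2, hubs 3, hubs 4}, {hubs 3, hubs 1, hubs 4}}) =
      Finset.univ.image faceTri := by
    ext s
    simp only [Finset.mem_union, Finset.mem_erase, Finset.mem_insert, Finset.mem_singleton,
      Finset.mem_image, Finset.mem_univ, true_and]
    constructor
    · rintro (⟨h, h1 | h1 | h1⟩ | h1 | h1 | h1)
      · exact ⟨0, f0.trans h1.symm⟩
      · exact absurd h1 h
      · exact ⟨1, f1.trans h1.symm⟩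
      · exact ⟨4, f4.trans h1.symm⟩
      · exact ⟨3, f3.trans h1.symm⟩
      · exact ⟨2, f2.trans h1.symm⟩
    · rintro ⟨f, rfl⟩
      fin_cases f
      · left; exact ⟨fun h => n1 (f0.symm.trans h), Or.inl f0⟩
      · left; exact ⟨fun h => n2 (f1.symm.trans h), Or.inr (Or.inr f1)⟩
      · right; right; right; exact f2
      · right; right; left; exact f3
      · right; left; exact f4
  rw [eP, eT] at H3
  exact H3

def XX (N : ℕ) (f : Fin 5) (j : Fin 3) (i : ℕ) : Pt :=
  yy (co f (j+1)) (co f (j+2)) (cen f) (uu N) (N - i)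

theorem XX_int {N : ℕ} (hN : 0 < N) (f : Fin 5) (j : Fin 3) (i : ℕ) :
    XX N f j i ∈ interior (convexHull ℝ (faceTri f : Set Pt)) := by
  rw [faceTri_eq, coe3]
  exact face_int_pt (hc f) (uu_good hN) j _

theorem faceTri_mem (f : Fin 5) : faceTri f ∈ Finset.univ.image faceTri :=
  Finset.mem_image_of_mem _ (Finset.mem_univ f)

theorem hub_ne_XX {N : ℕ} (hN : 0 < N) (h : Fin 5) (f : Fin 5) (j : Fin 3) (i : ℕ) :
    hubs h ≠ XX N f j i := by
  intro he
  have h1 := hub_stri.toIs.empty _ (faceTri_mem f) (hubs h)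
    (Finset.mem_image_of_mem _ (Finset.mem_univ h))
  apply h1
  rw [he]
  exact XX_int hN f j i

theorem XX_face {N : ℕ} (hN : 0 < N) {f f' : Fin 5} {j j' : Fin 3} {i i' : ℕ}
    (h : XX N f j i = XX N f' j' i') : f = f' := by
  by_contra hne
  have h1 := hub_stri.disj _ (faceTri_mem f) _ (faceTri_mem f') (fun h => hne (faceTri_inj h))
  exact Set.disjoint_left.1 h1 (XX_int hN f j i) (h ▸ XX_int hN f' j' i')

def dirZ (f : Fin 5) (j : Fin 3) : ℤ × ℤ :=
  hubZ (cor f (j+1)) + hubZ (cor f (j+2)) - (2 * (cenZ f).1, 2 * (cenZ f).2)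

theorem dirZ_ne : ∀ f j j', j ≠ j' → crZ (0,0) (dirZ f j) (dirZ f j') ≠ 0 := by decide

theorem toR_dirZ (f : Fin 5) (j : Fin 3) :
    toR (dirZ f j) = co f (j+1) + co f (j+2) - (2:ℝ) • cen f := by
  ext
  · simp only [toR, dirZ, co, hubs, cen, Prod.fst_add, Prod.fst_sub, Prod.smul_fst, smul_eq_mul]
    push_cast; ring
  · simp only [toR, dirZ, co, hubs, cen, Prod.snd_add, Prod.snd_sub, Prod.smul_snd, smul_eq_mul]
    push_cast; ring

theorem dirc_ne (f : Fin 5) (j j' : Fin 3) (h : j ≠ j') :
    cr (0,0) (co f (j+1) + co f (j+2) - (2:ℝ) • cen f) (co f (j'+1) + co f (j'+2) - (2:ℝ) • cen f) ≠ 0 := by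
  rw [← toR_dirZ, ← toR_dirZ]
  have : ((0:ℝ),(0:ℝ)) = toR (0,0) := by simp [toR]
  rw [this, cr_toR]
  exact_mod_cast dirZ_ne f j j' h

theorem uu_inj {N : ℕ} (hN : 0 < N) {a b : ℕ} (h : uu N a = uu N b) : a = b := by
  have hm : StrictMono (uu N) := strictMono_nat_of_lt_succ (uu_good hN).mono
  exact hm.injective h

theorem XX_sub (N : ℕ) (f : Fin 5) (j : Fin 3) (i : ℕ) :
    XX N f j i - cen f = (uu N (N - i) / 2) • (co f (j+1) + co f (j+2) - (2:ℝ) • cen f) := by
  unfold XX yy
  module

theorem XX_inj {N : ℕ} (hN : 0 < N) {f f' : Fin 5} {j j' : Fin 3} {i i' : ℕ} (hi : i ≤ N)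
    (hi' : i' ≤ N) (h : XX N f j i = XX N f' j' i') :
    f = f' ∧ (j = j' ∧ i = i' ∨ i = N ∧ i' = N) := by
  obtain rfl := XX_face hN h
  refine ⟨rfl, ?_⟩
  have h1 := XX_sub N f j i
  have h2 := XX_sub N f j' i'
  rw [h, h2] at h1
  set d := co f (j+1) + co f (j+2) - (2:ℝ) • cen f with hd
  set d' := co f (j'+1) + co f (j'+2) - (2:ℝ) • cen f with hd'
  have e1 := congrArg Prod.fst h1
  have e2 := congrArg Prod.snd h1
  simp only [Prod.smul_fst, Prod.smul_snd, smul_eq_mul] at e1 e2
  by_cases hj : j = j'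
  · subst hj
    left
    refine ⟨rfl, ?_⟩
    have hdne : d ≠ 0 := by
      intro h0
      have := dirc_ne f j (j+1) (by fin_cases j <;> decide)
      apply this
      rw [← hd, h0]
      simp [cr]
    have hu : uu N (N - i') = uu N (N - i) := by
      by_contra hne
      apply hdne
      ext
      · have : (uu N (N - i') - uu N (N - i)) * d.1 = 0 := by linarith
        rcases mul_eq_zero.1 this with h3 | h3
        · exact absurd (sub_eq_zero.1 h3) hne
        · exact h3
      · have : (uu N (N - i') - uu N (N - i)) * d.2 = 0 := by linarith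
        rcases mul_eq_zero.1 this with h3 | h3
        · exact absurd (sub_eq_zero.1 h3) hne
        · exact h3
    have := uu_inj hN hu
    omega
  · right
    have h3 := dirc_ne f j j' hj
    rw [← hd, ← hd'] at h3
    have h4 : cr (0,0) d d' = d.1 * d'.2 - d.2 * d'.1 := by simp only [cr]; ring
    rw [h4] at h3
    have h5 : uu N (N - i) = 0 := by
      have : uu N (N - i) * (d.1 * d'.2 - d.2 * d'.1) = 0 := by
        linear_combination (-2) * d'.2 * e1 + 2 * d'.1 * e2
      rcases mul_eq_zero.1 this with h6 | h6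
      · exact h6
      · exact absurd h6 h3
    have h6 : uu N (N - i') = 0 := by
      have : uu N (N - i') * (d.1 * d'.2 - d.2 * d'.1) = 0 := by
        linear_combination (-2) * d.2 * e1 + 2 * d.1 * e2
      rcases mul_eq_zero.1 this with h6 | h6
      · exact h6
      · exact absurd h6 h3
    have z := (uu_good hN).zero
    have h7 := uu_inj hN (h5.trans z.symm)
    have h8 := uu_inj hN (h6.trans z.symm)
    omega

def frame (K : ℕ) : Frame Pt where
  hub := hubs
  X := XX (2 * K + 14)
  N := 2 * K + 14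
  K := K
  hN := rfl
  hub_inj := fun _ _ h => hubs_inj h
  hub_ne := fun h f j i _ => hub_ne_XX (by omega) h f j i
  X_inj := fun _ _ _ _ _ _ h h' he => XX_inj (by omega) h h' he

end MP91a79a

end
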