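import Mathlib

/-!
Combinatorial core of the linear lower bound for MP_91a79a_co: five hubs, five faces, each face
carries three legs of collinear points.  Everything here is abstract: `T` is a set of
three-element sets over a type `α`, and `Ext` is the predicate these four points are in convex
position.
-/

set_option linter.unusedSectionVars false

namespace MP91a79a

/-- corner `m` of face `f`, as the index of a hub -/
def cor : Fin 5 → Fin 3 → Fin 5 :=
  ![![3, 0, 1], ![3, 2, 0], ![3, 1, 4], ![3, 4, 2], ![4, 1, 2]]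

/-- the outer end of leg `j` of face `f` is blocked for ever -/
def rig : Fin 5 → Fin 3 → Bool :=
  ![![true, false, true], ![true, true, false], ![true, false, false], ![false, false, false],
    ![true, false, true]]

/-- leg `j` of face `f` ends at a side of the convex hull -/
def hul : Fin 5 → Fin 3 → Bool :=
  ![![true, false, false], ![true, false, false], ![false, false, false], ![false, false, false],
    ![true, false, false]]

/-- for a leg blocked at an inner hub edge: the leg on the other side of that edge -/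
def par : Fin 5 → Fin 3 → Fin 5 × Fin 3 :=
  ![![(0,0), (0,0), (1,1)], ![(0,0), (0,2), (0,0)], ![(4,2), (0,0), (0,0)],
    ![(0,0), (0,0), (0,0)], ![(0,0), (0,0), (2,0)]]

structure Frame (α : Type*) where
  hub : Fin 5 → α
  X : Fin 5 → Fin 3 → ℕ → α
  N : ℕ
  K : ℕ
  hN : N = 2 * K + 14
  hub_inj : ∀ a b, hub a = hub b → a = b
  hub_ne : ∀ h f j i, i ≤ N → hub h ≠ X f j i
  X_inj : ∀ f j i f' j' i', i ≤ N → i' ≤ N → X f j i = X f' j' i' →
    f = f' ∧ (j = j' ∧ i = i' ∨ i = N ∧ i' = N)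

variable {α : Type*} [DecidableEq α]

namespace Frame

def P (M : Frame α) (f : Fin 5) (j : Fin 3) : α := M.hub (cor f (j + 1))
def Q (M : Frame α) (f : Fin 5) (j : Fin 3) : α := M.hub (cor f (j + 2))

end Frame

/-- set of faces of a triangulation: the properties which are used -/
structure Good (M : Frame α) (T : Set (Finset α)) : Prop where
  card : ∀ τ ∈ T, τ.card = 3
  e2 : ∀ u v, u ≠ v → ∀ r ∈ T, ∀ s ∈ T, ∀ t ∈ T, u ∈ r → v ∈ r → u ∈ s → v ∈ s → u ∈ t → v ∈ t →
    r = s ∨ r = t ∨ s = t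
  hull : ∀ f j, hul f j = true → ∀ s ∈ T, ∀ t ∈ T, M.P f j ∈ s → M.Q f j ∈ s →
    M.P f j ∈ t → M.Q f j ∈ t → s = t
  face : ∀ f, (Finset.univ.image fun m => M.hub (cor f m)) ∉ T

/-- `T'` arises from `T` by the flips in `F` -/
structure CStep (Ext : Finset α → Prop) (F : Set (α × α × α × α)) (T T' : Set (Finset α)) :
    Prop where
  cd : ∀ a b c d, (a, b, c, d) ∈ F → c ≠ d
  o1 : ∀ a b c d, (a, b, c, d) ∈ F → {a, b, c} ∈ T
  o2 : ∀ a b c d, (a, b, c, d) ∈ F → {a, b, d} ∈ T
  n1 : ∀ a b c d, (a, b, c, d) ∈ F → {a, c, d} ∈ T'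
  n2 : ∀ a b c d, (a, b, c, d) ∈ F → {b, c, d} ∈ T'
  ext : ∀ a b c d, (a, b, c, d) ∈ F → Ext {a, b, c, d}
  new : ∀ τ ∈ T', τ ∈ T ∨ ∃ a b c d, (a, b, c, d) ∈ F ∧ (τ = {a, c, d} ∨ τ = {b, c, d})
  old : ∀ τ ∈ T, τ ∈ T' ∨ ∃ a b c d, (a, b, c, d) ∈ F ∧ a ∈ τ ∧ b ∈ τ

/-- quadruples which are not in convex position -/
structure NoFlip (M : Frame α) (Ext : Finset α → Prop) : Prop where
  p : ∀ f j i, i + 1 < M.N →
    ¬ Ext ({M.P f j, M.X f j i, M.X f j (i+1)} ∪ {M.P f j, M.X f j (i+1), M.X f j (i+2)})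
  q : ∀ f j i, i + 1 < M.N →
    ¬ Ext ({M.Q f j, M.X f j i, M.X f j (i+1)} ∪ {M.Q f j, M.X f j (i+1), M.X f j (i+2)})
  x : ∀ f j i, i < M.N →
    ¬ Ext ({M.P f j, M.X f j i, M.X f j (i+1)} ∪ {M.Q f j, M.X f j i, M.X f j (i+1)})
  p0 : ∀ f j, ¬ Ext ({M.P f j, M.Q f j, M.X f j 0} ∪ {M.P f j, M.X f j 0, M.X f j 1})
  q0 : ∀ f j, ¬ Ext ({M.P f j, M.Q f j, M.X f j 0} ∪ {M.Q f j, M.X f j 0, M.X f j 1})
  b : ∀ f j, rig f j = true → hul f j = false →
    ¬ Ext ({M.P f j, M.Q f j, M.X f j 0} ∪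
      {M.P (par f j).1 (par f j).2, M.Q (par f j).1 (par f j).2, M.X (par f j).1 (par f j).2 0})

/-- persistence of the legs at time `t` -/
structure RInv (M : Frame α) (t : ℕ) (T : Set (Finset α)) : Prop where
  p : ∀ f j i, (rig f j = true ∨ t ≤ i) → i < M.N - t → {M.P f j, M.X f j i, M.X f j (i+1)} ∈ T
  q : ∀ f j i, (rig f j = true ∨ t ≤ i) → i < M.N - t → {M.Q f j, M.X f j i, M.X f j (i+1)} ∈ T
  z : ∀ f j, rig f j = true → {M.P f j, M.Q f j, M.X f j 0} ∈ T

/-- stars of the leg points at time `t` -/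
structure SInv (M : Frame α) (t : ℕ) (T : Set (Finset α)) : Prop where
  s : ∀ f j i, (rig f j = true ∨ t ≤ i) → i + 1 < M.N - t → ∀ τ ∈ T, M.X f j (i+1) ∈ τ →
    τ = {M.P f j, M.X f j i, M.X f j (i+1)} ∨ τ = {M.Q f j, M.X f j i, M.X f j (i+1)} ∨
    τ = {M.P f j, M.X f j (i+1), M.X f j (i+2)} ∨ τ = {M.Q f j, M.X f j (i+1), M.X f j (i+2)}
  z : ∀ f j, rig f j = true → ∀ τ ∈ T, M.X f j 0 ∈ τ →
    τ = {M.P f j, M.X f j 0, M.X f j 1} ∨ τ = {M.Q f j, M.X f j 0, M.X f j 1} ∨
    τ = {M.P f j, M.Q f j, M.X f j 0}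

def inW (M : Frame α) (f : Fin 5) (x : α) : Prop :=
  ∃ j i, M.N - M.K < i ∧ i ≤ M.N ∧ x = M.X f j i

def inV (M : Frame α) (f : Fin 5) (x : α) : Prop :=
  (∃ m, x = M.hub (cor f m)) ∨ ∃ j i, M.N - M.K ≤ i ∧ i ≤ M.N ∧ x = M.X f j i

/-- the centre of each face stays closed -/
structure CInv (M : Frame α) (T : Set (Finset α)) : Prop where
  i4 : ∀ f, ∀ τ ∈ T, ∀ x ∈ τ, inW M f x → ∀ y ∈ τ, inV M f y
  i5 : ∀ f, ∀ τ ∈ T, ∀ σ ∈ T, (∀ y ∈ τ, inV M f y) → (∃ y ∈ σ, ¬ inV M f y) →
    ∀ u v, u ≠ v → u ∈ τ → v ∈ τ → u ∈ σ → v ∈ σ →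
    ∃ j, ({u, v} : Finset α) = {M.P f j, M.X f j (M.N - M.K)} ∨
      ({u, v} : Finset α) = {M.Q f j, M.X f j (M.N - M.K)}

section basics

theorem card3 {a b c : α} (h : ({a, b, c} : Finset α).card = 3) : a ≠ b ∧ a ≠ c ∧ b ≠ c := by
  refine ⟨?_, ?_, ?_⟩
  · rintro rfl
    have : ({a, a, c} : Finset α) = {a, c} := by ext; simp
    rw [this] at h
    have := Finset.card_le_two (a := a) (b := c)
    omega
  · rintro rfl
    have : ({a, b, a} : Finset α) = {a, b} := by ext; simp; tauto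
    rw [this] at h
    have := Finset.card_le_two (a := a) (b := b)
    omega
  · rintro rfl
    have : ({a, b, b} : Finset α) = {a, b} := by ext; simp
    rw [this] at h
    have := Finset.card_le_two (a := a) (b := b)
    omega

theorem pair_of_mem {a b u v w : α} (hab : a ≠ b) (ha : a ∈ ({u, v, w} : Finset α))
    (hb : b ∈ ({u, v, w} : Finset α)) :
    ({a, b} : Finset α) = {u, v} ∨ ({a, b} : Finset α) = {v, w} ∨ ({a, b} : Finset α) = {u, w} := by
  simp only [Finset.mem_insert, Finset.mem_singleton] at ha hb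
  rcases ha with rfl | rfl | rfl <;> rcases hb with rfl | rfl | rfl <;>
    simp_all [Finset.pair_comm]

variable {M : Frame α} {T T' : Set (Finset α)} {Ext : Finset α → Prop}
  {F : Set (α × α × α × α)}

theorem Good.union_eq (hG : Good M T) {u v : α} (huv : u ≠ v) {s t s' t' : Finset α}
    (hs : s ∈ T) (ht : t ∈ T) (hs' : s' ∈ T) (ht' : t' ∈ T) (hst : s ≠ t) (hst' : s' ≠ t')
    (us : u ∈ s) (vs : v ∈ s) (ut : u ∈ t) (vt : v ∈ t)
    (us' : u ∈ s') (vs' : v ∈ s') (ut' : u ∈ t') (vt' : v ∈ t') : s ∪ t = s' ∪ t' := by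
  have h1 := hG.e2 u v huv s hs t ht s' hs' us vs ut vt us' vs'
  have h2 := hG.e2 u v huv s hs t ht t' ht' us vs ut vt ut' vt'
  rcases h1 with h1 | h1 | h1
  · exact absurd h1 hst
  · rcases h2 with h2 | h2 | h2
    · exact absurd h2 hst
    · exact absurd (h1.symm.trans h2) hst'
    · rw [h1, h2]
  · rcases h2 with h2 | h2 | h2
    · exact absurd h2 hst
    · rw [h1, h2, Finset.union_comm]
    · exact absurd (h1.symm.trans h2) hst'

theorem CStep.ab (hG : Good M T) (hC : CStep Ext F T T') {a b c d : α} (h : (a, b, c, d) ∈ F) :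
    a ≠ b := (card3 (hG.card _ (hC.o1 _ _ _ _ h))).1

theorem CStep.o12 (hG : Good M T) (hC : CStep Ext F T T') {a b c d : α} (h : (a, b, c, d) ∈ F) :
    ({a, b, c} : Finset α) ≠ {a, b, d} := by
  intro he
  have h1 := card3 (hG.card _ (hC.o1 _ _ _ _ h))
  have hcd := hC.cd _ _ _ _ h
  have : c ∈ ({a, b, d} : Finset α) := by rw [← he]; simp
  simp only [Finset.mem_insert, Finset.mem_singleton] at this
  rcases this with h2 | h2 | h2
  · exact h1.2.1 h2.symm
  · exact h1.2.2 h2.symm
  · exact hcd h2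

theorem pair_sub {a b u v : α} (h : ({a, b} : Finset α) = {u, v}) :
    u ∈ ({a, b} : Finset α) ∧ v ∈ ({a, b} : Finset α) := by
  rw [h]; simp

/-- an edge whose two triangles are not in convex position is not flipped -/
theorem frozen (hG : Good M T) (hC : CStep Ext F T T') {u v : α} (huv : u ≠ v)
    {s t : Finset α} (hs : s ∈ T) (ht : t ∈ T) (hst : s ≠ t) (us : u ∈ s) (vs : v ∈ s)
    (ut : u ∈ t) (vt : v ∈ t) (hE : ¬ Ext (s ∪ t)) {a b c d : α} (h : (a, b, c, d) ∈ F) :
    ({a, b} : Finset α) ≠ {u, v} := by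
  intro he
  obtain ⟨h1, h2⟩ := pair_sub he
  have h3 : u ∈ ({a, b, c} : Finset α) ∧ v ∈ ({a, b, c} : Finset α) := by
    simp only [Finset.mem_insert, Finset.mem_singleton] at h1 h2 ⊢; tauto
  have h4 : u ∈ ({a, b, d} : Finset α) ∧ v ∈ ({a, b, d} : Finset α) := by
    simp only [Finset.mem_insert, Finset.mem_singleton] at h1 h2 ⊢; tauto
  have h5 := hG.union_eq huv (hC.o1 _ _ _ _ h) (hC.o2 _ _ _ _ h) hs ht (hC.o12 hG h) hst
    h3.1 h3.2 h4.1 h4.2 us vs ut vt
  apply hE
  rw [← h5]
  have h6 : ({a, b, c} ∪ {a, b, d} : Finset α) = {a, b, c, d} := by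
    ext x; simp only [Finset.mem_union, Finset.mem_insert, Finset.mem_singleton]; tauto
  rw [h6]
  exact hC.ext _ _ _ _ h

theorem frozenHull (hG : Good M T) (hC : CStep Ext F T T') {f : Fin 5} {j : Fin 3}
    (hf : hul f j = true) {a b c d : α} (h : (a, b, c, d) ∈ F) :
    ({a, b} : Finset α) ≠ {M.P f j, M.Q f j} := by
  intro he
  obtain ⟨h1, h2⟩ := pair_sub he
  refine hC.o12 hG h (hG.hull f j hf _ (hC.o1 _ _ _ _ h) _ (hC.o2 _ _ _ _ h) ?_ ?_ ?_ ?_) <;>
  · simp only [Finset.mem_insert, Finset.mem_singleton] at h1 h2 ⊢; tauto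

end basics


section legs

variable {M : Frame α} {T T' : Set (Finset α)} {Ext : Finset α → Prop}
  {F : Set (α × α × α × α)} {t : ℕ}

theorem cor_ne : ∀ f j, cor f (j + 1) ≠ cor f (j + 2) := by decide

theorem Frame.P_ne_Q (M : Frame α) (f : Fin 5) (j : Fin 3) : M.P f j ≠ M.Q f j := by
  intro h
  exact cor_ne f j (M.hub_inj _ _ h)

theorem Frame.P_ne_X (M : Frame α) (f : Fin 5) (j : Fin 3) {f' : Fin 5} {j' : Fin 3} {i : ℕ}
    (hi : i ≤ M.N) : M.P f j ≠ M.X f' j' i := M.hub_ne _ _ _ _ hi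

theorem Frame.Q_ne_X (M : Frame α) (f : Fin 5) (j : Fin 3) {f' : Fin 5} {j' : Fin 3} {i : ℕ}
    (hi : i ≤ M.N) : M.Q f j ≠ M.X f' j' i := M.hub_ne _ _ _ _ hi

theorem Frame.X_ne (M : Frame α) (f : Fin 5) (j : Fin 3) {i i' : ℕ} (h : i < i')
    (hi' : i' ≤ M.N) : M.X f j i ≠ M.X f j i' := by
  intro he
  obtain ⟨-, h1 | h1⟩ := M.X_inj _ _ _ _ _ _ (by omega) hi' he <;> omega

theorem fzP (hG : Good M T) (hN : NoFlip M Ext) (hR : RInv M t T) (hC : CStep Ext F T T')
    {f : Fin 5} {j : Fin 3} {i : ℕ} (hi : rig f j = true ∨ t < i) (hi2 : i < M.N - t)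
    {a b c d : α} (h : (a, b, c, d) ∈ F) : ({a, b} : Finset α) ≠ {M.P f j, M.X f j i} := by
  have hNpos := M.hN
  rcases Nat.eq_zero_or_pos i with rfl | hpos
  · have hr : rig f j = true := by rcases hi with h | h; exact h; omega
    refine frozen hG hC (M.P_ne_X f j (by omega)) (hR.z f j hr) (hR.p f j 0 (Or.inl hr) hi2) ?_
      (by simp) (by simp) (by simp) (by simp) (hN.p0 f j) h
    intro he
    have : M.Q f j ∈ ({M.P f j, M.X f j 0, M.X f j (0+1)} : Finset α) := by rw [← he]; simp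
    simp only [Finset.mem_insert, Finset.mem_singleton] at this
    rcases this with h | h | h
    · exact M.P_ne_Q f j h.symm
    · exact M.Q_ne_X f j (by omega) h
    · exact M.Q_ne_X f j (by omega) h
  · obtain ⟨k, rfl⟩ : ∃ k, i = k + 1 := ⟨i - 1, by omega⟩
    have hk : rig f j = true ∨ t ≤ k := by rcases hi with h | h; exact Or.inl h; right; omega
    have hk' : rig f j = true ∨ t ≤ k + 1 := by rcases hi with h | h; exact Or.inl h; right; omega
    refine frozen hG hC (M.P_ne_X f j (by omega)) (hR.p f j k hk (by omega))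
      (hR.p f j (k+1) hk' (by omega)) ?_
      (by simp) (by simp) (by simp) (by simp) (hN.p f j k (by omega)) h
    intro he
    have : M.X f j k ∈ ({M.P f j, M.X f j (k+1), M.X f j (k+1+1)} : Finset α) := by
      rw [← he]; simp
    simp only [Finset.mem_insert, Finset.mem_singleton] at this
    rcases this with h | h | h
    · exact M.P_ne_X f j (by omega) h.symm
    · exact M.X_ne f j (by omega) (by omega) h
    · exact M.X_ne f j (by omega) (by omega) h

theorem fzQ (hG : Good M T) (hN : NoFlip M Ext) (hR : RInv M t T) (hC : CStep Ext F T T')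
    {f : Fin 5} {j : Fin 3} {i : ℕ} (hi : rig f j = true ∨ t < i) (hi2 : i < M.N - t)
    {a b c d : α} (h : (a, b, c, d) ∈ F) : ({a, b} : Finset α) ≠ {M.Q f j, M.X f j i} := by
  have hNpos := M.hN
  rcases Nat.eq_zero_or_pos i with rfl | hpos
  · have hr : rig f j = true := by rcases hi with h | h; exact h; omega
    refine frozen hG hC (M.Q_ne_X f j (by omega)) (hR.z f j hr) (hR.q f j 0 (Or.inl hr) hi2) ?_
      (by simp) (by simp) (by simp) (by simp) (hN.q0 f j) h
    intro he
    have : M.P f j ∈ ({M.Q f j, M.X f j 0, M.X f j (0+1)} : Finset α) := by rw [← he]; simp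
    simp only [Finset.mem_insert, Finset.mem_singleton] at this
    rcases this with h | h | h
    · exact M.P_ne_Q f j h
    · exact M.P_ne_X f j (by omega) h
    · exact M.P_ne_X f j (by omega) h
  · obtain ⟨k, rfl⟩ : ∃ k, i = k + 1 := ⟨i - 1, by omega⟩
    have hk : rig f j = true ∨ t ≤ k := by rcases hi with h | h; exact Or.inl h; right; omega
    have hk' : rig f j = true ∨ t ≤ k + 1 := by rcases hi with h | h; exact Or.inl h; right; omega
    refine frozen hG hC (M.Q_ne_X f j (by omega)) (hR.q f j k hk (by omega))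
      (hR.q f j (k+1) hk' (by omega)) ?_
      (by simp) (by simp) (by simp) (by simp) (hN.q f j k (by omega)) h
    intro he
    have : M.X f j k ∈ ({M.Q f j, M.X f j (k+1), M.X f j (k+1+1)} : Finset α) := by
      rw [← he]; simp
    simp only [Finset.mem_insert, Finset.mem_singleton] at this
    rcases this with h | h | h
    · exact M.Q_ne_X f j (by omega) h.symm
    · exact M.X_ne f j (by omega) (by omega) h
    · exact M.X_ne f j (by omega) (by omega) h

theorem fzX (hG : Good M T) (hN : NoFlip M Ext) (hR : RInv M t T) (hC : CStep Ext F T T')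
    {f : Fin 5} {j : Fin 3} {i : ℕ} (hi : rig f j = true ∨ t ≤ i) (hi2 : i < M.N - t)
    {a b c d : α} (h : (a, b, c, d) ∈ F) : ({a, b} : Finset α) ≠ {M.X f j i, M.X f j (i+1)} := by
  have hNpos := M.hN
  refine frozen hG hC (M.X_ne f j (Nat.lt_succ_self i) (by omega)) (hR.p f j i hi hi2)
      (hR.q f j i hi hi2) ?_
      (by simp) (by simp) (by simp) (by simp) (hN.x f j i (by omega)) h
  intro he
  have : M.P f j ∈ ({M.Q f j, M.X f j i, M.X f j (i+1)} : Finset α) := by rw [← he]; simp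
  simp only [Finset.mem_insert, Finset.mem_singleton] at this
  rcases this with h | h | h
  · exact M.P_ne_Q f j h
  · exact M.P_ne_X f j (by omega) h
  · exact M.P_ne_X f j (by omega) h

theorem par_rig : ∀ f j, rig f j = true → hul f j = false →
    rig (par f j).1 (par f j).2 = true ∧ (par f j).1 ≠ f ∧
    cor (par f j).1 ((par f j).2 + 1) = cor f (j + 2) ∧
    cor (par f j).1 ((par f j).2 + 2) = cor f (j + 1) := by
  decide

theorem fzPQ (hG : Good M T) (hN : NoFlip M Ext) (hR : RInv M t T) (hC : CStep Ext F T T')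
    {f : Fin 5} {j : Fin 3} (hi : rig f j = true)
    {a b c d : α} (h : (a, b, c, d) ∈ F) : ({a, b} : Finset α) ≠ {M.P f j, M.Q f j} := by
  rcases hh : hul f j with _ | _
  · obtain ⟨h1, h2, h3, h4⟩ := par_rig f j hi hh
    have hP : M.P (par f j).1 (par f j).2 = M.Q f j := by
      unfold Frame.P Frame.Q; rw [h3]
    have hQ : M.Q (par f j).1 (par f j).2 = M.P f j := by
      unfold Frame.P Frame.Q; rw [h4]
    refine frozen hG hC (M.P_ne_Q f j) (hR.z f j hi) (hR.z _ _ h1) ?_ (by simp) (by simp)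
      (by simp [hQ]) (by simp [hP]) (hN.b f j hi hh) h
    intro he
    have : M.X f j 0 ∈ ({M.P (par f j).1 (par f j).2, M.Q (par f j).1 (par f j).2,
      M.X (par f j).1 (par f j).2 0} : Finset α) := by rw [← he]; simp
    simp only [Finset.mem_insert, Finset.mem_singleton] at this
    rcases this with h | h | h
    · exact M.P_ne_X _ _ (Nat.zero_le _) h.symm
    · exact M.Q_ne_X _ _ (Nat.zero_le _) h.symm
    · exact h2 (M.X_inj _ _ _ _ _ _ (Nat.zero_le _) (Nat.zero_le _) h).1.symm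
  · exact frozenHull hG hC hh h

/-- the three edges of a leg triangle are frozen -/
theorem fzTriP (hG : Good M T) (hN : NoFlip M Ext) (hR : RInv M t T) (hC : CStep Ext F T T')
    {f : Fin 5} {j : Fin 3} {i : ℕ} (hi : rig f j = true ∨ t < i) (hi2 : i + 1 < M.N - t)
    {a b c d : α} (h : (a, b, c, d) ∈ F) :
    ¬ (a ∈ ({M.P f j, M.X f j i, M.X f j (i+1)} : Finset α) ∧
      b ∈ ({M.P f j, M.X f j i, M.X f j (i+1)} : Finset α)) := by
  rintro ⟨h1, h2⟩
  have hi' : rig f j = true ∨ t ≤ i := by rcases hi with h | h; exact Or.inl h; right; omega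
  have hi'' : rig f j = true ∨ t < i + 1 := by rcases hi with h | h; exact Or.inl h; right; omega
  rcases pair_of_mem (hC.ab hG h) h1 h2 with h3 | h3 | h3
  · exact fzP hG hN hR hC hi (by omega) h h3
  · exact fzX hG hN hR hC hi' (by omega) h h3
  · exact fzP hG hN hR hC hi'' (by omega) h h3

theorem fzTriQ (hG : Good M T) (hN : NoFlip M Ext) (hR : RInv M t T) (hC : CStep Ext F T T')
    {f : Fin 5} {j : Fin 3} {i : ℕ} (hi : rig f j = true ∨ t < i) (hi2 : i + 1 < M.N - t)
    {a b c d : α} (h : (a, b, c, d) ∈ F) :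
    ¬ (a ∈ ({M.Q f j, M.X f j i, M.X f j (i+1)} : Finset α) ∧
      b ∈ ({M.Q f j, M.X f j i, M.X f j (i+1)} : Finset α)) := by
  rintro ⟨h1, h2⟩
  have hi' : rig f j = true ∨ t ≤ i := by rcases hi with h | h; exact Or.inl h; right; omega
  have hi'' : rig f j = true ∨ t < i + 1 := by rcases hi with h | h; exact Or.inl h; right; omega
  rcases pair_of_mem (hC.ab hG h) h1 h2 with h3 | h3 | h3
  · exact fzQ hG hN hR hC hi (by omega) h h3
  · exact fzX hG hN hR hC hi' (by omega) h h3
  · exact fzQ hG hN hR hC hi'' (by omega) h h3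

theorem fzTriZ (hG : Good M T) (hN : NoFlip M Ext) (hR : RInv M t T) (hC : CStep Ext F T T')
    {f : Fin 5} {j : Fin 3} (hi : rig f j = true) (hi2 : 0 < M.N - t)
    {a b c d : α} (h : (a, b, c, d) ∈ F) :
    ¬ (a ∈ ({M.P f j, M.Q f j, M.X f j 0} : Finset α) ∧
      b ∈ ({M.P f j, M.Q f j, M.X f j 0} : Finset α)) := by
  rintro ⟨h1, h2⟩
  rcases pair_of_mem (hC.ab hG h) h1 h2 with h3 | h3 | h3
  · exact fzPQ hG hN hR hC hi h h3
  · exact fzQ hG hN hR hC (Or.inl hi) (by omega) h h3
  · exact fzP hG hN hR hC (Or.inl hi) (by omega) h h3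

theorem RInv.step (hG : Good M T) (hN : NoFlip M Ext) (hR : RInv M t T) (hC : CStep Ext F T T')
    (ht : t + 1 < M.N) : RInv M (t + 1) T' := by
  refine ⟨fun f j i hi hi2 => ?_, fun f j i hi hi2 => ?_, fun f j hi => ?_⟩
  · have hi' : rig f j = true ∨ t ≤ i := by rcases hi with h | h; exact Or.inl h; right; omega
    have hi'' : rig f j = true ∨ t < i := by rcases hi with h | h; exact Or.inl h; right; omega
    rcases hC.old _ (hR.p f j i hi' (by omega)) with h | ⟨a, b, c, d, h, ha, hb⟩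
    · exact h
    · exact absurd ⟨ha, hb⟩ (fzTriP hG hN hR hC hi'' (by omega) h)
  · have hi' : rig f j = true ∨ t ≤ i := by rcases hi with h | h; exact Or.inl h; right; omega
    have hi'' : rig f j = true ∨ t < i := by rcases hi with h | h; exact Or.inl h; right; omega
    rcases hC.old _ (hR.q f j i hi' (by omega)) with h | ⟨a, b, c, d, h, ha, hb⟩
    · exact h
    · exact absurd ⟨ha, hb⟩ (fzTriQ hG hN hR hC hi'' (by omega) h)
  · rcases hC.old _ (hR.z f j hi) with h | ⟨a, b, c, d, h, ha, hb⟩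
    · exact h
    · exact absurd ⟨ha, hb⟩ (fzTriZ hG hN hR hC hi (by omega) h)

/-- a flipped quadrilateral does not touch a leg point whose star is known -/
theorem noX (hG : Good M T) (hN : NoFlip M Ext) (hR : RInv M t T) (hS : SInv M t T)
    (hC : CStep Ext F T T')
    {f : Fin 5} {j : Fin 3} {i : ℕ} (hi : rig f j = true ∨ t < i) (hi2 : i + 2 < M.N - t)
    {a b c d : α} (h : (a, b, c, d) ∈ F) : M.X f j (i+1) ∉ ({a, b, c, d} : Finset α) := by
  intro hx
  have hi' : rig f j = true ∨ t ≤ i := by rcases hi with h | h; exact Or.inl h; right; omega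
  have hi'' : rig f j = true ∨ t < i + 1 := by rcases hi with h | h; exact Or.inl h; right; omega
  have key : ∀ τ ∈ T, a ∈ τ → b ∈ τ → M.X f j (i+1) ∈ τ → False := by
    intro τ hτ ha hb hxτ
    rcases hS.s f j i hi' (by omega) τ hτ hxτ with rfl | rfl | rfl | rfl
    · exact fzTriP hG hN hR hC hi (by omega) h ⟨ha, hb⟩
    · exact fzTriQ hG hN hR hC hi (by omega) h ⟨ha, hb⟩
    · exact fzTriP hG hN hR hC hi'' (by omega) h ⟨ha, hb⟩
    · exact fzTriQ hG hN hR hC hi'' (by omega) h ⟨ha, hb⟩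
  have hx' : M.X f j (i+1) ∈ ({a, b, c} : Finset α) ∨ M.X f j (i+1) ∈ ({a, b, d} : Finset α) := by
    simp only [Finset.mem_insert, Finset.mem_singleton] at hx ⊢; tauto
  rcases hx' with hx' | hx'
  · exact key _ (hC.o1 _ _ _ _ h) (by simp) (by simp) hx'
  · exact key _ (hC.o2 _ _ _ _ h) (by simp) (by simp) hx'

theorem noX0 (hG : Good M T) (hN : NoFlip M Ext) (hR : RInv M t T) (hS : SInv M t T)
    (hC : CStep Ext F T T')
    {f : Fin 5} {j : Fin 3} (hi : rig f j = true) (hi2 : 1 < M.N - t)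
    {a b c d : α} (h : (a, b, c, d) ∈ F) : M.X f j 0 ∉ ({a, b, c, d} : Finset α) := by
  intro hx
  have key : ∀ τ ∈ T, a ∈ τ → b ∈ τ → M.X f j 0 ∈ τ → False := by
    intro τ hτ ha hb hxτ
    rcases hS.z f j hi τ hτ hxτ with rfl | rfl | rfl
    · exact fzTriP hG hN hR hC (Or.inl hi) (by omega) h ⟨ha, hb⟩
    · exact fzTriQ hG hN hR hC (Or.inl hi) (by omega) h ⟨ha, hb⟩
    · exact fzTriZ hG hN hR hC hi (by omega) h ⟨ha, hb⟩
  have hx' : M.X f j 0 ∈ ({a, b, c} : Finset α) ∨ M.X f j 0 ∈ ({a, b, d} : Finset α) := by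
    simp only [Finset.mem_insert, Finset.mem_singleton] at hx ⊢; tauto
  rcases hx' with hx' | hx'
  · exact key _ (hC.o1 _ _ _ _ h) (by simp) (by simp) hx'
  · exact key _ (hC.o2 _ _ _ _ h) (by simp) (by simp) hx'

theorem SInv.step (hG : Good M T) (hN : NoFlip M Ext) (hR : RInv M t T) (hS : SInv M t T)
    (hC : CStep Ext F T T') (ht : t + 1 < M.N) : SInv M (t + 1) T' := by
  refine ⟨fun f j i hi hi2 τ hτ hx => ?_, fun f j hi τ hτ hx => ?_⟩
  · have hi' : rig f j = true ∨ t ≤ i := by rcases hi with h | h; exact Or.inl h; right; omega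
    have hi'' : rig f j = true ∨ t < i := by rcases hi with h | h; exact Or.inl h; right; omega
    rcases hC.new τ hτ with h | ⟨a, b, c, d, h, hτ'⟩
    · exact hS.s f j i hi' (by omega) τ h hx
    · exfalso
      apply noX hG hN hR hS hC hi'' (by omega) h
      rcases hτ' with rfl | rfl <;>
      · simp only [Finset.mem_insert, Finset.mem_singleton] at hx ⊢; tauto
  · rcases hC.new τ hτ with h | ⟨a, b, c, d, h, hτ'⟩
    · exact hS.z f j hi τ h hx
    · exfalso
      apply noX0 hG hN hR hS hC hi (by omega) h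
      rcases hτ' with rfl | rfl <;>
      · simp only [Finset.mem_insert, Finset.mem_singleton] at hx ⊢; tauto

end legs

section centre

variable {M : Frame α} {T T' : Set (Finset α)} {Ext : Finset α → Prop}
  {F : Set (α × α × α × α)} {t : ℕ}

/-- the boundary triangles between a centre and its legs -/
theorem fzβ (hG : Good M T) (hN : NoFlip M Ext) (hR : RInv M t T) (hC : CStep Ext F T T')
    (ht : t + 1 < M.K) {f : Fin 5} {a b c d : α} (h : (a, b, c, d) ∈ F) :
    ¬ ∃ j, ({a, b} : Finset α) = {M.P f j, M.X f j (M.N - M.K)} ∨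
      ({a, b} : Finset α) = {M.Q f j, M.X f j (M.N - M.K)} := by
  have := M.hN
  rintro ⟨j, h1 | h1⟩
  · exact fzP hG hN hR hC (Or.inr (by omega)) (by omega) h h1
  · exact fzQ hG hN hR hC (Or.inr (by omega)) (by omega) h h1

theorem inout (hG : Good M T) (hN : NoFlip M Ext) (hR : RInv M t T) (hI : CInv M T)
    (hC : CStep Ext F T T') (ht : t + 1 < M.K) (f : Fin 5) {a b c d : α} (h : (a, b, c, d) ∈ F) :
    ((∀ y ∈ ({a, b, c} : Finset α), inV M f y) ∧ (∀ y ∈ ({a, b, d} : Finset α), inV M f y)) ∨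
    ((∃ y ∈ ({a, b, c} : Finset α), ¬ inV M f y) ∧ (∃ y ∈ ({a, b, d} : Finset α), ¬ inV M f y)) := by
  have hab := hC.ab hG h
  by_cases h1 : ∀ y ∈ ({a, b, c} : Finset α), inV M f y
  · by_cases h2 : ∀ y ∈ ({a, b, d} : Finset α), inV M f y
    · exact Or.inl ⟨h1, h2⟩
    · push Not at h2
      exact absurd (hI.i5 f _ (hC.o1 _ _ _ _ h) _ (hC.o2 _ _ _ _ h) h1 h2 a b hab
        (by simp) (by simp) (by simp) (by simp)) (fzβ hG hN hR hC ht h)
  · by_cases h2 : ∀ y ∈ ({a, b, d} : Finset α), inV M f y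
    · push Not at h1
      exact absurd (hI.i5 f _ (hC.o2 _ _ _ _ h) _ (hC.o1 _ _ _ _ h) h2 h1 a b hab
        (by simp) (by simp) (by simp) (by simp)) (fzβ hG hN hR hC ht h)
    · push Not at h1 h2
      exact Or.inr ⟨h1, h2⟩

/-- vertices of a flip quadrilateral whose old triangles leave `V_f` are not in `W_f` -/
theorem out_notW (hI : CInv M T) (hC : CStep Ext F T T') {f : Fin 5} {a b c d : α}
    (h : (a, b, c, d) ∈ F) (h1 : ∃ y ∈ ({a, b, c} : Finset α), ¬ inV M f y)
    (h2 : ∃ y ∈ ({a, b, d} : Finset α), ¬ inV M f y) :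
    ∀ x ∈ ({a, b, c, d} : Finset α), ¬ inW M f x := by
  intro x hx hw
  have hx' : x ∈ ({a, b, c} : Finset α) ∨ x ∈ ({a, b, d} : Finset α) := by
    simp only [Finset.mem_insert, Finset.mem_singleton] at hx ⊢; tauto
  rcases hx' with hx' | hx'
  · obtain ⟨y, hy, hy'⟩ := h1
    exact hy' (hI.i4 f _ (hC.o1 _ _ _ _ h) x hx' hw y hy)
  · obtain ⟨y, hy, hy'⟩ := h2
    exact hy' (hI.i4 f _ (hC.o2 _ _ _ _ h) x hx' hw y hy)

theorem cor_of (hG : Good M T) (hN : NoFlip M Ext) (hR : RInv M t T) (hS : SInv M t T)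
    (hC : CStep Ext F T T') (ht : t + 1 < M.K) {f : Fin 5} {a b c d : α} (h : (a, b, c, d) ∈ F)
    {x : α} (hx : x ∈ ({a, b, c, d} : Finset α)) (hV : inV M f x) (hW : ¬ inW M f x) :
    ∃ m, x = M.hub (cor f m) := by
  have hNN := M.hN
  rcases hV with hV | ⟨j, i, hi, hi2, rfl⟩
  · exact hV
  · exfalso
    by_cases hi3 : M.N - M.K < i
    · exact hW ⟨j, i, hi3, hi2, rfl⟩
    · obtain ⟨k, rfl⟩ : ∃ k, i = k + 1 := ⟨i - 1, by omega⟩
      exact noX hG hN hR hS hC (Or.inr (by omega)) (by omega) h hx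

/-- a new triangle of an outer flip is not contained in `V_f` -/
theorem out_new (hG : Good M T) (hG' : Good M T') (hN : NoFlip M Ext) (hR : RInv M t T)
    (hS : SInv M t T) (hI : CInv M T)
    (hC : CStep Ext F T T') (ht : t + 1 < M.K) {f : Fin 5} {a b c d : α} (h : (a, b, c, d) ∈ F)
    (h1 : ∃ y ∈ ({a, b, c} : Finset α), ¬ inV M f y)
    (h2 : ∃ y ∈ ({a, b, d} : Finset α), ¬ inV M f y) {τ : Finset α} (hτ : τ ∈ T')
    (hsub : τ ⊆ ({a, b, c, d} : Finset α)) : ∃ y ∈ τ, ¬ inV M f y := by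
  by_contra hcon
  push Not at hcon
  have hW := out_notW hI hC h h1 h2
  have h3 : τ ⊆ Finset.univ.image fun m => M.hub (cor f m) := by
    intro y hy
    obtain ⟨m, hm⟩ := cor_of hG hN hR hS hC ht h (hsub hy) (hcon y hy) (hW y (hsub hy))
    exact Finset.mem_image.2 ⟨m, Finset.mem_univ _, hm.symm⟩
  have h4 : (Finset.univ.image fun m => M.hub (cor f m)).card ≤ τ.card := by
    rw [hG'.card τ hτ]
    exact le_trans Finset.card_image_le (by simp)
  have h5 := Finset.eq_of_subset_of_card_le h3 h4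
  exact hG'.face f (h5 ▸ hτ)

theorem CInv.step (hG : Good M T) (hG' : Good M T') (hN : NoFlip M Ext) (hR : RInv M t T)
    (hS : SInv M t T) (hI : CInv M T) (hC : CStep Ext F T T') (ht : t + 1 < M.K) : CInv M T' := by
  refine ⟨fun f τ hτ x hx hxW y hy => ?_, fun f τ hτ σ hσ hτV hσV u v huv hu hv hu' hv' => ?_⟩
  · rcases hC.new τ hτ with h | ⟨a, b, c, d, h, hτ'⟩
    · exact hI.i4 f τ h x hx hxW y hy
    · have hsub : τ ⊆ ({a, b, c, d} : Finset α) := by
        rcases hτ' with rfl | rfl <;> intro z hz <;>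
        · simp only [Finset.mem_insert, Finset.mem_singleton] at hz ⊢; tauto
      rcases inout hG hN hR hI hC ht f h with ⟨h1, h2⟩ | ⟨h1, h2⟩
      · have := hsub hy
        simp only [Finset.mem_insert, Finset.mem_singleton] at this
        rcases this with rfl | rfl | rfl | rfl
        · exact h1 _ (by simp)
        · exact h1 _ (by simp)
        · exact h1 _ (by simp)
        · exact h2 _ (by simp)
      · exact absurd hxW (out_notW hI hC h h1 h2 x (hsub hx))
  · -- I5
    have ab {a b c d : α} (h : (a, b, c, d) ∈ F) := hC.ab hG h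
    -- description of a new triangle
    have desc : ∀ {ρ : Finset α}, ρ ∈ T' → ρ ∉ T → u ∈ ρ → v ∈ ρ → ∃ a b c d, (a, b, c, d) ∈ F ∧
        ρ ⊆ ({a, b, c, d} : Finset α) ∧
        ((({u, v} : Finset α) = {c, d}) ∨
          (u ∈ ({a, b, c} : Finset α) ∧ v ∈ ({a, b, c} : Finset α)) ∨
          (u ∈ ({a, b, d} : Finset α) ∧ v ∈ ({a, b, d} : Finset α))) := by
      intro ρ hρ hρT huρ hvρ
      rcases hC.new ρ hρ with h | ⟨a, b, c, d, h, hρ'⟩
      · exact absurd h hρT
      · refine ⟨a, b, c, d, h, ?_, ?_⟩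
        · rcases hρ' with rfl | rfl <;> intro z hz <;>
          · simp only [Finset.mem_insert, Finset.mem_singleton] at hz ⊢; tauto
        · rcases hρ' with rfl | rfl
          · rcases pair_of_mem huv huρ hvρ with h3 | h3 | h3
            · obtain ⟨h4, h5⟩ := pair_sub h3.symm
              right; left
              have h4 : u ∈ ({a, c} : Finset α) := by rw [← h3]; simp
              have h5 : v ∈ ({a, c} : Finset α) := by rw [← h3]; simp
              simp only [Finset.mem_insert, Finset.mem_singleton] at h4 h5 ⊢; tauto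
            · left; exact h3
            · right; right
              have h4 : u ∈ ({a, d} : Finset α) := by rw [← h3]; simp
              have h5 : v ∈ ({a, d} : Finset α) := by rw [← h3]; simp
              simp only [Finset.mem_insert, Finset.mem_singleton] at h4 h5 ⊢; tauto
          · rcases pair_of_mem huv huρ hvρ with h3 | h3 | h3
            · right; left
              have h4 : u ∈ ({b, c} : Finset α) := by rw [← h3]; simp
              have h5 : v ∈ ({b, c} : Finset α) := by rw [← h3]; simp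
              simp only [Finset.mem_insert, Finset.mem_singleton] at h4 h5 ⊢; tauto
            · left; exact h3
            · right; right
              have h4 : u ∈ ({b, d} : Finset α) := by rw [← h3]; simp
              have h5 : v ∈ ({b, d} : Finset α) := by rw [← h3]; simp
              simp only [Finset.mem_insert, Finset.mem_singleton] at h4 h5 ⊢; tauto
    -- the new diagonal of a flip lies in the two new triangles only
    have diag : ∀ {a b c d : α}, (a, b, c, d) ∈ F → ({u, v} : Finset α) = {c, d} →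
        ∀ ρ ∈ T', u ∈ ρ → v ∈ ρ → ρ ⊆ ({a, b, c, d} : Finset α) := by
      intro a b c d h he ρ hρ huρ hvρ
      have hu1 : u ∈ ({c, d} : Finset α) := by rw [← he]; simp
      have hv1 : v ∈ ({c, d} : Finset α) := by rw [← he]; simp
      have hu2 : u ∈ ({a, c, d} : Finset α) := by
        simp only [Finset.mem_insert, Finset.mem_singleton] at hu1 ⊢; tauto
      have hv2 : v ∈ ({a, c, d} : Finset α) := by
        simp only [Finset.mem_insert, Finset.mem_singleton] at hv1 ⊢; tauto
      have hu3 : u ∈ ({b, c, d} : Finset α) := by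
        simp only [Finset.mem_insert, Finset.mem_singleton] at hu1 ⊢; tauto
      have hv3 : v ∈ ({b, c, d} : Finset α) := by
        simp only [Finset.mem_insert, Finset.mem_singleton] at hv1 ⊢; tauto
      have h12 := card3 (hG.card _ (hC.o1 _ _ _ _ h))
      have h13 := card3 (hG.card _ (hC.o2 _ _ _ _ h))
      rcases hG'.e2 u v huv _ (hC.n1 _ _ _ _ h) _ (hC.n2 _ _ _ _ h) ρ hρ hu2 hv2 hu3 hv3
        huρ hvρ with h6 | h6 | h6
      · exfalso
        have : a ∈ ({b, c, d} : Finset α) := by rw [← h6]; simp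
        simp only [Finset.mem_insert, Finset.mem_singleton] at this
        rcases this with h7 | h7 | h7
        · exact h12.1 h7
        · exact h12.2.1 h7
        · exact h13.2.1 h7
      · rw [← h6]; intro z hz
        simp only [Finset.mem_insert, Finset.mem_singleton] at hz ⊢; tauto
      · rw [← h6]; intro z hz
        simp only [Finset.mem_insert, Finset.mem_singleton] at hz ⊢; tauto
    -- a diagonal edge cannot be shared between inside and outside
    have nodiag : ∀ {a b c d : α}, (a, b, c, d) ∈ F → ({u, v} : Finset α) ≠ {c, d} := by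
      intro a b c d h he
      have hτs := diag h he τ hτ hu hv
      have hσs := diag h he σ hσ hu' hv'
      rcases inout hG hN hR hI hC ht f h with ⟨h1, h2⟩ | ⟨h1, h2⟩
      · obtain ⟨y, hy, hy'⟩ := hσV
        apply hy'
        have := hσs hy
        simp only [Finset.mem_insert, Finset.mem_singleton] at this
        rcases this with rfl | rfl | rfl | rfl
        · exact h1 _ (by simp)
        · exact h1 _ (by simp)
        · exact h1 _ (by simp)
        · exact h2 _ (by simp)
      · obtain ⟨y, hy, hy'⟩ := out_new hG hG' hN hR hS hI hC ht h h1 h2 hτ hτs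
        exact hy' (hτV y hy)
    -- replace τ by an old triangle inside V
    have stepτ : ∃ τ₀ ∈ T, (∀ y ∈ τ₀, inV M f y) ∧ u ∈ τ₀ ∧ v ∈ τ₀ := by
      by_cases hτT : τ ∈ T
      · exact ⟨τ, hτT, hτV, hu, hv⟩
      · obtain ⟨a, b, c, d, h, hsub, h3⟩ := desc hτ hτT hu hv
        rcases inout hG hN hR hI hC ht f h with ⟨h1, h2⟩ | ⟨h1, h2⟩
        · rcases h3 with h3 | ⟨h3, h4⟩ | ⟨h3, h4⟩
          · exact absurd h3 (nodiag h)
          · exact ⟨_, hC.o1 _ _ _ _ h, h1, h3, h4⟩
          · exact ⟨_, hC.o2 _ _ _ _ h, h2, h3, h4⟩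
        · obtain ⟨y, hy, hy'⟩ := out_new hG hG' hN hR hS hI hC ht h h1 h2 hτ hsub
          exact absurd (hτV y hy) hy'
    have stepσ : ∃ σ₀ ∈ T, (∃ y ∈ σ₀, ¬ inV M f y) ∧ u ∈ σ₀ ∧ v ∈ σ₀ := by
      by_cases hσT : σ ∈ T
      · exact ⟨σ, hσT, hσV, hu', hv'⟩
      · obtain ⟨a, b, c, d, h, hsub, h3⟩ := desc hσ hσT hu' hv'
        rcases inout hG hN hR hI hC ht f h with ⟨h1, h2⟩ | ⟨h1, h2⟩
        · exfalso
          obtain ⟨y, hy, hy'⟩ := hσV
          apply hy'
          have := hsub hy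
          simp only [Finset.mem_insert, Finset.mem_singleton] at this
          rcases this with rfl | rfl | rfl | rfl
          · exact h1 _ (by simp)
          · exact h1 _ (by simp)
          · exact h1 _ (by simp)
          · exact h2 _ (by simp)
        · rcases h3 with h3 | ⟨h3, h4⟩ | ⟨h3, h4⟩
          · exact absurd h3 (nodiag h)
          · exact ⟨_, hC.o1 _ _ _ _ h, h1, h3, h4⟩
          · exact ⟨_, hC.o2 _ _ _ _ h, h2, h3, h4⟩
    obtain ⟨τ₀, hτ₀, hτ₀V, h1, h2⟩ := stepτ
    obtain ⟨σ₀, hσ₀, hσ₀V, h3, h4⟩ := stepσ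
    exact hI.i5 f τ₀ hτ₀ σ₀ hσ₀ hτ₀V hσ₀V u v huv h1 h2 h3 h4

end centre

section start

variable (M : Frame α)

/-- the starting triangulation -/
def T0 : Set (Finset α) :=
  {τ | (∃ f j, τ = {M.P f j, M.Q f j, M.X f j 0}) ∨
    ∃ f j i, i < M.N ∧ (τ = {M.P f j, M.X f j i, M.X f j (i+1)} ∨
      τ = {M.Q f j, M.X f j i, M.X f j (i+1)})}

theorem RInv.start : RInv M 0 (T0 M) := by
  refine ⟨fun f j i _ hi => ?_, fun f j i _ hi => ?_, fun f j _ => ?_⟩
  · exact Or.inr ⟨f, j, i, by omega, Or.inl rfl⟩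
  · exact Or.inr ⟨f, j, i, by omega, Or.inr rfl⟩
  · exact Or.inl ⟨f, j, rfl⟩

theorem SInv.start : SInv M 0 (T0 M) := by
  have hN := M.hN
  refine ⟨fun f j i _ hi τ hτ hx => ?_, fun f j _ τ hτ hx => ?_⟩
  · rcases hτ with ⟨f', j', rfl⟩ | ⟨f', j', i', hi', rfl | rfl⟩
    · simp only [Finset.mem_insert, Finset.mem_singleton] at hx
      rcases hx with hx | hx | hx
      · exact absurd hx.symm (M.P_ne_X _ _ (by omega))
      · exact absurd hx.symm (M.Q_ne_X _ _ (by omega))
      · obtain ⟨-, h | h⟩ := M.X_inj _ _ _ _ _ _ (by omega) (by omega) hx <;> omega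
    · simp only [Finset.mem_insert, Finset.mem_singleton] at hx
      rcases hx with hx | hx | hx
      · exact absurd hx.symm (M.P_ne_X _ _ (by omega))
      · obtain ⟨rfl, ⟨rfl, rfl⟩ | h⟩ := M.X_inj _ _ _ _ _ _ (by omega) (by omega) hx
        · right; right; left; rfl
        · omega
      · obtain ⟨rfl, ⟨rfl, h⟩ | h⟩ := M.X_inj _ _ _ _ _ _ (by omega) (by omega) hx
        · obtain rfl : i = i' := by omega
          left; rfl
        · omega
    · simp only [Finset.mem_insert, Finset.mem_singleton] at hx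
      rcases hx with hx | hx | hx
      · exact absurd hx.symm (M.Q_ne_X _ _ (by omega))
      · obtain ⟨rfl, ⟨rfl, rfl⟩ | h⟩ := M.X_inj _ _ _ _ _ _ (by omega) (by omega) hx
        · right; right; right; rfl
        · omega
      · obtain ⟨rfl, ⟨rfl, h⟩ | h⟩ := M.X_inj _ _ _ _ _ _ (by omega) (by omega) hx
        · obtain rfl : i = i' := by omega
          right; left; rfl
        · omega
  · rcases hτ with ⟨f', j', rfl⟩ | ⟨f', j', i', hi', rfl | rfl⟩
    · simp only [Finset.mem_insert, Finset.mem_singleton] at hx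
      rcases hx with hx | hx | hx
      · exact absurd hx.symm (M.P_ne_X _ _ (by omega))
      · exact absurd hx.symm (M.Q_ne_X _ _ (by omega))
      · obtain ⟨rfl, ⟨rfl, -⟩ | h⟩ := M.X_inj _ _ _ _ _ _ (by omega) (by omega) hx
        · right; right; rfl
        · omega
    · simp only [Finset.mem_insert, Finset.mem_singleton] at hx
      rcases hx with hx | hx | hx
      · exact absurd hx.symm (M.P_ne_X _ _ (by omega))
      · obtain ⟨rfl, ⟨rfl, rfl⟩ | h⟩ := M.X_inj _ _ _ _ _ _ (by omega) (by omega) hx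
        · left; rfl
        · omega
      · obtain ⟨rfl, ⟨rfl, h⟩ | h⟩ := M.X_inj _ _ _ _ _ _ (by omega) (by omega) hx <;> omega
    · simp only [Finset.mem_insert, Finset.mem_singleton] at hx
      rcases hx with hx | hx | hx
      · exact absurd hx.symm (M.Q_ne_X _ _ (by omega))
      · obtain ⟨rfl, ⟨rfl, rfl⟩ | h⟩ := M.X_inj _ _ _ _ _ _ (by omega) (by omega) hx
        · right; left; rfl
        · omega
      · obtain ⟨rfl, ⟨rfl, h⟩ | h⟩ := M.X_inj _ _ _ _ _ _ (by omega) (by omega) hx <;> omega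

theorem cor_spec : ∀ f j, ∃ m m', cor f (j + 1) = cor f m ∧ cor f (j + 2) = cor f m' :=
  fun _ j => ⟨j + 1, j + 2, rfl, rfl⟩

theorem inV_P (f : Fin 5) (j : Fin 3) : inV M f (M.P f j) := Or.inl ⟨j + 1, rfl⟩
theorem inV_Q (f : Fin 5) (j : Fin 3) : inV M f (M.Q f j) := Or.inl ⟨j + 2, rfl⟩

theorem inV_X {f f' : Fin 5} {j : Fin 3} {i : ℕ} (hi : i ≤ M.N) (h : inV M f (M.X f' j i)) :
    f' = f ∧ M.N - M.K ≤ i := by
  have hN := M.hN
  rcases h with ⟨m, h⟩ | ⟨j', i', h1, h2, h⟩
  · exact absurd h.symm (M.hub_ne _ _ _ _ hi)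
  · obtain ⟨h3, h4 | h4⟩ := M.X_inj _ _ _ _ _ _ hi h2 h
    · exact ⟨h3, by omega⟩
    · exact ⟨h3, by omega⟩

theorem CInv.start : CInv M (T0 M) := by
  have hN := M.hN
  have i4 : ∀ f, ∀ τ ∈ T0 M, ∀ x ∈ τ, inW M f x → ∀ y ∈ τ, inV M f y := by
    intro f τ hτ x hx hxW y hy
    obtain ⟨j0, i0, hi0, hi0', rfl⟩ := hxW
    rcases hτ with ⟨f', j', rfl⟩ | ⟨f', j', i', hi', hτ⟩
    · exfalso
      simp only [Finset.mem_insert, Finset.mem_singleton] at hx
      rcases hx with hx | hx | hx
      · exact absurd hx.symm (M.P_ne_X _ _ (by omega))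
      · exact absurd hx.symm (M.Q_ne_X _ _ (by omega))
      · obtain ⟨-, h | h⟩ := M.X_inj _ _ _ _ _ _ (by omega) (by omega) hx <;> omega
    · have hff : f = f' ∧ M.N - M.K ≤ i' := by
        have hx' : M.X f j0 i0 = M.X f' j' i' ∨ M.X f j0 i0 = M.X f' j' (i'+1) := by
          rcases hτ with rfl | rfl <;>
          · simp only [Finset.mem_insert, Finset.mem_singleton] at hx
            rcases hx with hx | hx
            · exfalso
              first
              | exact M.P_ne_X _ _ (by omega) hx.symm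
              | exact M.Q_ne_X _ _ (by omega) hx.symm
            · exact hx
        rcases hx' with hx' | hx'
        · obtain ⟨h1, h | h⟩ := M.X_inj _ _ _ _ _ _ (by omega) (by omega) hx' <;>
            exact ⟨h1, by omega⟩
        · obtain ⟨h1, h | h⟩ := M.X_inj _ _ _ _ _ _ (by omega) (by omega) hx' <;>
            exact ⟨h1, by omega⟩
      obtain ⟨rfl, hi2⟩ := hff
      rcases hτ with rfl | rfl <;>
      · simp only [Finset.mem_insert, Finset.mem_singleton] at hy
        rcases hy with rfl | rfl | rfl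
        · first | exact inV_P M f j' | exact inV_Q M f j'
        · exact Or.inr ⟨j', i', hi2, by omega, rfl⟩
        · exact Or.inr ⟨j', i'+1, by omega, by omega, rfl⟩
  refine ⟨i4, ?_⟩
  intro f τ hτ σ hσ hτV hσV u v huv hu hv hu' hv'
  have noW : ∀ x ∈ σ, ¬ inW M f x := by
    intro x hx hw
    obtain ⟨y, hy, hy'⟩ := hσV
    exact hy' (i4 f σ hσ x hx hw y hy)
  rcases hτ with ⟨f', j', rfl⟩ | ⟨f', j', i', hi', hτ⟩
  · exfalso
    have := inV_X M (by omega) (hτV (M.X f' j' 0) (by simp))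
    omega
  · have h1 : f' = f ∧ M.N - M.K ≤ i' := by
      have : M.X f' j' i' ∈ τ := by rcases hτ with rfl | rfl <;> simp
      exact inV_X M (by omega) (hτV _ this)
    obtain ⟨rfl, h2⟩ := h1
    have h3 : ∀ w ∈ σ, w ≠ M.X f' j' (i'+1) := by
      rintro w hw rfl
      exact noW _ hw ⟨j', i'+1, by omega, by omega, rfl⟩
    have h4 : ∀ w ∈ σ, w = M.X f' j' i' → i' = M.N - M.K := by
      rintro w hw rfl
      by_contra hne
      exact noW _ hw ⟨j', i', by omega, by omega, rfl⟩
    refine ⟨j', ?_⟩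
    rcases hτ with rfl | rfl
    · left
      simp only [Finset.mem_insert, Finset.mem_singleton] at hu hv
      rcases hu with rfl | rfl | rfl
      · rcases hv with rfl | rfl | rfl
        · exact absurd rfl huv
        · rw [h4 _ hv' rfl]
        · exact absurd rfl (h3 _ hv')
      · rcases hv with rfl | rfl | rfl
        · rw [h4 _ hu' rfl, Finset.pair_comm]
        · exact absurd rfl huv
        · exact absurd rfl (h3 _ hv')
      · exact absurd rfl (h3 _ hu')
    · right
      simp only [Finset.mem_insert, Finset.mem_singleton] at hu hv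
      rcases hu with rfl | rfl | rfl
      · rcases hv with rfl | rfl | rfl
        · exact absurd rfl huv
        · rw [h4 _ hv' rfl]
        · exact absurd rfl (h3 _ hv')
      · rcases hv with rfl | rfl | rfl
        · rw [h4 _ hu' rfl, Finset.pair_comm]
        · exact absurd rfl huv
        · exact absurd rfl (h3 _ hv')
      · exact absurd rfl (h3 _ hu')

end start

end MP91a79a
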