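import Mathlib

/-!
Definitions for MP_91a79a_co: triangulations of finite point sets in the plane, flips of edges,
simultaneous flips, the graph of a triangulation.
-/

noncomputable section

namespace MP91a79a

/-- points of the plane -/
abbrev Pt : Type := ℝ × ℝ

/-- `T` is a triangulation of the finite point set `P`: a set of (nondegenerate) triangles with
vertices in `P`, with pairwise disjoint interiors, whose union is the convex hull of `P`, and none
of which contains a point of `P` in its interior.  A triangle is given by its set of vertices. -/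
structure IsTriangulation (P : Finset Pt) (T : Finset (Finset Pt)) : Prop where
  sub : ∀ t ∈ T, t ⊆ P
  card : ∀ t ∈ T, t.card = 3
  nondeg : ∀ t ∈ T, ¬ Collinear ℝ (t : Set Pt)
  disj : ∀ s ∈ T, ∀ t ∈ T, s ≠ t →
    Disjoint (interior (convexHull ℝ (s : Set Pt))) (interior (convexHull ℝ (t : Set Pt)))
  cover : (⋃ t ∈ T, convexHull ℝ (t : Set Pt)) = convexHull ℝ (P : Set Pt)
  empty : ∀ t ∈ T, ∀ p ∈ P, p ∉ interior (convexHull ℝ (t : Set Pt))

/-- the triangles `abc` and `abd` form a convex quadrilateral with diagonal `ab`: their union is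
convex and none of the four points lies in the convex hull of the others -/
def ConvQuad (a b c d : Pt) : Prop :=
  Convex ℝ (convexHull ℝ ({a, b, c} : Set Pt) ∪ convexHull ℝ ({a, b, d} : Set Pt)) ∧
    ∀ x ∈ ({a, b, c, d} : Set Pt), x ∉ convexHull ℝ (({a, b, c, d} : Set Pt) \ {x})

/-- an edge `ab` together with the opposite vertices `c`, `d` of the two triangles at it -/
structure FlipData where
  a : Pt
  b : Pt
  c : Pt
  d : Pt

/-- the edge `ab` of `T` lies in the two triangles `abc`, `abd` of `T`, whose union is a convex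
quadrilateral: it is flippable -/
def FlipData.Flippable (T : Finset (Finset Pt)) (q : FlipData) : Prop :=
  q.c ≠ q.d ∧ {q.a, q.b, q.c} ∈ T ∧ {q.a, q.b, q.d} ∈ T ∧ ConvQuad q.a q.b q.c q.d

/-- the two triangles which are removed by the flip -/
def FlipData.old (q : FlipData) : Finset (Finset Pt) := {{q.a, q.b, q.c}, {q.a, q.b, q.d}}

/-- the two triangles which are created by the flip: the edge `ab` is replaced by `cd` -/
def FlipData.new (q : FlipData) : Finset (Finset Pt) := {{q.a, q.c, q.d}, {q.b, q.c, q.d}}

/-- `T'` arises from `T` by one simultaneous flip: the edges of a set `F` of flippable edges, no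
two of which lie in a common triangle of `T`, are flipped at once -/
def SimFlip (T T' : Finset (Finset Pt)) : Prop :=
  ∃ F : Finset FlipData,
    (∀ q ∈ F, q.Flippable T) ∧
    (∀ q ∈ F, ∀ q' ∈ F, q ≠ q' → ∀ t ∈ T, ¬ (q.a ∈ t ∧ q.b ∈ t ∧ q'.a ∈ t ∧ q'.b ∈ t)) ∧
    T' = (T \ F.biUnion FlipData.old) ∪ F.biUnion FlipData.new

/-- `T'` is a triangulation of `P` which is reached from `T` by `k` simultaneous flips, via
triangulations of `P` -/
inductive Reach (P : Finset Pt) : ℕ → Finset (Finset Pt) → Finset (Finset Pt) → Prop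
  | refl (T : Finset (Finset Pt)) : IsTriangulation P T → Reach P 0 T T
  | step (k : ℕ) (T T' T'' : Finset (Finset Pt)) : Reach P k T T' → SimFlip T' T'' →
      IsTriangulation P T'' → Reach P (k + 1) T T''

/-- the graph of a triangulation: vertex set `P`, edges the sides of the triangles -/
def graph (P : Finset Pt) (T : Finset (Finset Pt)) : SimpleGraph {x // x ∈ P} where
  Adj u v := u ≠ v ∧ ∃ t ∈ T, (u : Pt) ∈ t ∧ (v : Pt) ∈ t
  symm := ⟨fun _ _ h => ⟨h.1.symm, by
    obtain ⟨t, ht, h1, h2⟩ := h.2
    exact ⟨t, ht, h2, h1⟩⟩⟩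
  loopless := ⟨fun _ h => h.1 rfl⟩

end MP91a79a

end
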