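import Pool.Agent.Lib.MP_91a79a_co.Sph

/-!
The flexible family (MP_91a79a_co), abstract part of section 4: among all triangulations of the
sphere which contain the fixed edges `X` there is one with a single strip of mixed triangles.
-/

noncomputable section

namespace MP91a79a

open Classical

/-- (AC) there is no nonempty set of monochromatic `R`-edges without a vertex of degree one -/
def AC {V : Type*} (R : V → V → Prop) (col : V → Bool) : Prop :=
  ∀ D : V → V → Prop, (∀ x y, D x y → D y x) → (∀ x y, D x y → R x y ∧ col x = col y) →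
    (∀ x y, D x y → ∃ y', y' ≠ y ∧ D x y') → ∀ x y, ¬ D x y

/-- the data of section 4. `X` fixed edges, `Gp` the skeleton, `O0` the starting triangulation,
`Fam` all triangulations which contain `X`, `K x = some F`: `x` is in the body of the cell `F`,
`U F p`: `p` is a corner of `F` of the majority colour -/
structure FlexData {V ι : Type*} (W : Finset V) (col : V → Bool) (X Gp : V → V → Prop)
    (O0 : V → V → V → Prop) (Fam : Set (V → V → V → Prop)) (K : V → Option ι)
    (U : ι → V → Prop) : Prop where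
  sph0 : Sph W O0
  sph : ∀ O ∈ Fam, Sph W O
  zero : O0 ∈ Fam
  Xs : ∀ x y, X x y → X y x
  Gs : ∀ x y, Gp x y → Gp y x
  sub : ∀ O ∈ Fam, ∀ x y, X x y → Ed O x y
  flip : ∀ O ∈ Fam, ∀ p q r s, O p q r → O q p s → ¬ X p q → Flip O p q r s ∈ Fam
  per : ∀ O ∈ Fam, ∀ x y z, O0 x y z → X x y → X y z → X z x → O x y z
  ac : AC Gp col
  /-- fixed mono edges are skeleton edges or have an end in a body -/
  inner : ∀ x y, X x y → col x = col y → ¬ Gp x y → K x ≠ none ∨ K y ≠ none
  K1 : ∀ x y z, K x ≠ none → O0 x y z → X x y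
  K2 : ∀ x y z, K x ≠ none → O0 x y z → col x = col y → X y z
  K2' : ∀ x y z, K x ≠ none → O0 y x z → col x = col y → X y z
  /-- triangles at a body point stay in the cell -/
  loc : ∀ x y z F, K x = some F → O0 x y z → (K y = some F ∨ K y = none) ∧ (K z = some F ∨ K z = none)
  colK : ∀ x y F, K x = some F → K y = some F → col x = col y
  colU : ∀ x p F, K x = some F → U F p → col x ≠ col p
  /-- mixed edges at body points go to `U` -/
  mixU : ∀ x p F, K x = some F → X x p → col x ≠ col p → U F p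
  fan : ∀ F p, U F p → ∃ r, Ed O0 p r ∧ K r ≠ some F ∧
    ∀ w w', O0 p w w' → K w' = some F → K w = some F ∨ w = r
  apex : ∀ F p q, U F p → U F q → p ≠ q → (∃ x, K x = some F) →
    ∃ z, K z = some F ∧ (O0 p q z ∨ O0 q p z)
  cone : ∀ O ∈ Fam, ∀ p q z, O0 p q z → K z ≠ none → ¬ X p q → ∃ S : V → Prop,
    ¬ S p ∧ ¬ S q ∧ (∀ w, S w → ¬ X z w) ∧
    (∀ w w', O z w w' → (S w' ∨ w' = q) → (S w ∨ w = p)) ∧
    (∀ w w', O z w w' → (S w ∨ w = p) → (S w' ∨ w' = q))
  K4 : ∀ x, K x ≠ none → ∃ p, X x p ∧ col p ≠ col x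
  K5 : ∀ v x y, O0 v x y → K v = none → (K x ≠ none ∨ K y ≠ none) → col v = col x →
    col v = col y → ∃ w, X v w ∧ col w ≠ col v

variable {V ι : Type*} {W : Finset V} {col : V → Bool} {X Gp : V → V → Prop}
  {O0 O : V → V → V → Prop} {Fam : Set (V → V → V → Prop)} {K : V → Option ι} {U : ι → V → Prop}

/-- the undirected mixed edge `xy` is in the orbit of `e` -/
def QE (O : V → V → V → Prop) (col : V → Bool) (e : V × V) (x y : V) : Prop :=
  (col x = true ∧ col y = false ∧ Orb O col e (x, y)) ∨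
    (col y = true ∧ col x = false ∧ Orb O col e (y, x))

/-- the triangle `xyz` is in the orbit of `e` -/
def TQ (O : V → V → V → Prop) (col : V → Bool) (e : V × V) (x y z : V) : Prop :=
  QE O col e x y ∨ QE O col e y z ∨ QE O col e z x

theorem QE.symm' {e : V × V} {x y : V} : QE O col e x y ↔ QE O col e y x := by
  unfold QE; exact Or.comm

theorem TQ.rot {e : V × V} {x y z : V} : TQ O col e x y z ↔ TQ O col e y z x := by
  unfold TQ; tauto

/-- the two mixed edges of a triangle are in the same orbit -/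
theorem Sph.qe_step (hO : Sph W O) {e : V × V} (he : Mx O col e) {x y z : V} (h : O x y z)
    (hxy : col x ≠ col y) : QE O col e x y ↔ (if col z = col x then QE O col e z y
      else QE O col e x z) := by
  rcases hx : col x with _ | _
  · have hy : col y = true := by
      rcases h' : col y with _ | _
      · rw [hx, h'] at hxy; exact absurd rfl hxy
      · rfl
    -- `y` is true, `x` is false: the triangle is on the right of `y → x`
    have hp := hO.prv_eq (col := col) h hy hx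
    have hmx : QE O col e x y ↔ Orb O col e (y, x) := by
      unfold QE; simp [hx, hy]
    have hstep : Orb O col e (prv O col (y, x)) ↔ Orb O col e (y, x) := by
      rw [← hO.orb_nxt he, hO.nxt_prv]
    rw [hmx, ← hstep, hp]
    rcases hz : col z with _ | _
    · simp [QE, hy, hz]
    · simp [QE, hx, hz]
  · have hy : col y = false := by
      rcases h' : col y with _ | _
      · rfl
      · rw [hx, h'] at hxy; exact absurd rfl hxy
    have hn := hO.nxt_eq (col := col) h hx hy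
    have hmx : QE O col e x y ↔ Orb O col e (x, y) := by
      unfold QE; simp [hx, hy]
    rw [hmx, ← hO.orb_nxt he, hn]
    rcases hz : col z with _ | _
    · simp [QE, hx, hz]
    · simp [QE, hy, hz]

/-- in a triangle, membership can be tested on any mixed edge -/
theorem Sph.tq_iff (hO : Sph W O) {e : V × V} (he : Mx O col e) {x y z : V} (h : O x y z)
    (hxy : col x ≠ col y) : TQ O col e x y z ↔ QE O col e x y := by
  have h1 := hO.qe_step he h hxy
  by_cases hz : col z = col x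
  · have h2 : ¬ QE O col e z x := by
      rintro (⟨a, b, -⟩ | ⟨a, b, -⟩) <;> rw [hz] at * <;> simp_all
    rw [if_pos hz] at h1
    unfold TQ
    rw [QE.symm' (x := y) (y := z)]
    constructor
    · rintro (h | h | h)
      · exact h
      · exact h1.2 h
      · exact absurd h h2
    · exact Or.inl
  · have hz' : col z = col y := by
      rcases hx : col x with _ | _ <;> rcases hy : col y with _ | _ <;>
        rcases hzz : col z with _ | _ <;> simp_all
    have h2 : ¬ QE O col e y z := by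
      rintro (⟨a, b, -⟩ | ⟨a, b, -⟩) <;> rw [hz'] at * <;> simp_all
    rw [if_neg hz] at h1
    unfold TQ
    rw [QE.symm' (x := z) (y := x)]
    constructor
    · rintro (h | h | h)
      · exact h
      · exact absurd h h2
      · exact h1.2 h
    · exact Or.inl

/-! ### flips -/

/-- distinctness at a flip -/
theorem Sph.flip_ne (hO : Sph W O) {p q r s : V} (h1 : O p q r) (h2 : O q p s) :
    p ≠ q ∧ p ≠ r ∧ p ≠ s ∧ q ≠ r ∧ q ≠ s ∧ r ≠ s :=
  ⟨hO.ne _ _ _ h1, (hO.ne _ _ _ (hO.rot2 h1)).symm, hO.ne _ _ _ (hO.rot _ _ _ h2),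
    hO.ne _ _ _ (hO.rot _ _ _ h1), (hO.ne _ _ _ (hO.rot2 h2)).symm, hO.opp_ne _ _ _ _ h1 h2⟩

theorem Sph.ed_flip (hO : Sph W O) {p q r s : V} (h1 : O p q r) (h2 : O q p s) {x y : V}
    (h : Ed (Flip O p q r s) x y) : Ed O x y ∨ (x = r ∧ y = s) ∨ (x = s ∧ y = r) := by
  obtain ⟨z, hz⟩ := h
  rcases hz with ⟨hz, -, -⟩ | hz | hz
  · exact Or.inl ⟨z, hz⟩
  · rcases hz with ⟨rfl, rfl, rfl⟩ | ⟨rfl, rfl, rfl⟩ | ⟨rfl, rfl, rfl⟩
    · exact Or.inl ⟨_, hO.rot _ _ _ h2⟩
    · exact Or.inr (Or.inr ⟨rfl, rfl⟩)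
    · exact Or.inl ⟨_, hO.rot2 h1⟩
  · rcases hz with ⟨rfl, rfl, rfl⟩ | ⟨rfl, rfl, rfl⟩ | ⟨rfl, rfl, rfl⟩
    · exact Or.inl ⟨_, hO.rot2 h2⟩
    · exact Or.inl ⟨_, hO.rot _ _ _ h1⟩
    · exact Or.inr (Or.inl ⟨rfl, rfl⟩)

theorem Sph.not_ed_flip (hO : Sph W O) {p q r s : V} (h1 : O p q r) (h2 : O q p s) :
    ¬ Ed (Flip O p q r s) p q := by
  obtain ⟨a1, a2, a3, a4, a5, a6⟩ := hO.flip_ne h1 h2
  rintro ⟨z, hz⟩
  rcases hz with ⟨hz, h3, -⟩ | hz | hz
  · exact h3 (Or.inl ⟨rfl, rfl, hO.fn _ _ _ _ hz h1⟩)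
  · rcases hz with ⟨h, h', -⟩ | ⟨h, h', -⟩ | ⟨h, h', -⟩
    · exact a5 h'
    · exact a3 h
    · exact a2 h
  · rcases hz with ⟨h, h', -⟩ | ⟨h, h', -⟩ | ⟨h, h', -⟩
    · exact a3 h
    · exact a1 h
    · exact a2 h

theorem Sph.not_ed_flip' (hO : Sph W O) {p q r s : V} (h1 : O p q r) (h2 : O q p s) :
    ¬ Ed (Flip O p q r s) q p := by
  obtain ⟨a1, a2, a3, a4, a5, a6⟩ := hO.flip_ne h1 h2
  rintro ⟨z, hz⟩
  rcases hz with ⟨hz, -, h3⟩ | hz | hz
  · exact h3 (Or.inl ⟨rfl, rfl, hO.fn _ _ _ _ hz h2⟩)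
  · rcases hz with ⟨h, h', -⟩ | ⟨h, h', -⟩ | ⟨h, h', -⟩
    · exact a1 h.symm
    · exact a5 h
    · exact a4 h
  · rcases hz with ⟨h, h', -⟩ | ⟨h, h', -⟩ | ⟨h, h', -⟩
    · exact a5 h
    · exact a2 h'
    · exact a4 h

/-- a flip of a mono edge between a mono and a mixed triangle lowers the number of mono edges -/
theorem Sph.monoc_lt (hO : Sph W O) {p q r s : V} (h1 : O p q r) (h2 : O q p s)
    (hpq : col p = col q) (hrs : col r ≠ col s) :
    monoc W (Flip O p q r s) col < monoc W O col := by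
  have hmem : (p, q) ∈ (W ×ˢ W).filter (fun d => Ed O d.1 d.2 ∧ col d.1 = col d.2) :=
    Finset.mem_filter.2 ⟨Finset.mem_product.2 ⟨hO.mem _ _ _ h1, hO.mem _ _ _ h2⟩, ⟨r, h1⟩, hpq⟩
  unfold monoc
  refine lt_of_le_of_lt (Finset.card_le_card ?_) (Finset.card_erase_lt_of_mem hmem)
  intro d hd
  obtain ⟨hdW, hd1, hd2⟩ := Finset.mem_filter.1 hd
  refine Finset.mem_erase.2 ⟨?_, Finset.mem_filter.2 ⟨hdW, ?_, hd2⟩⟩
  · rintro rfl
    exact hO.not_ed_flip h1 h2 hd1
  · rcases hO.ed_flip h1 h2 hd1 with h | ⟨h, h'⟩ | ⟨h, h'⟩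
    · exact h
    · rw [h, h'] at hd2; exact absurd hd2 hrs
    · rw [h, h'] at hd2; exact absurd hd2.symm hrs

/-- a flip never increases the number of mono edges if the flipped edge is mono -/
theorem Sph.monoc_le (hO : Sph W O) {p q r s : V} (h1 : O p q r) (h2 : O q p s)
    (hpq : col p = col q) :
    monoc W (Flip O p q r s) col ≤ monoc W O col := by
  obtain ⟨a1, a2, a3, a4, a5, a6⟩ := hO.flip_ne h1 h2
  set A := (W ×ˢ W).filter (fun d => Ed O d.1 d.2 ∧ col d.1 = col d.2) with hA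
  have hmem : (p, q) ∈ A :=
    Finset.mem_filter.2 ⟨Finset.mem_product.2 ⟨hO.mem _ _ _ h1, hO.mem _ _ _ h2⟩, ⟨r, h1⟩, hpq⟩
  have hmem' : (q, p) ∈ A.erase (p, q) := by
    refine Finset.mem_erase.2 ⟨?_, Finset.mem_filter.2
      ⟨Finset.mem_product.2 ⟨hO.mem _ _ _ h2, hO.mem _ _ _ h1⟩, ⟨s, h2⟩, hpq.symm⟩⟩
    intro h
    exact a1 (Prod.ext_iff.1 h).1.symm
  have hsub : (W ×ˢ W).filter (fun d => Ed (Flip O p q r s) d.1 d.2 ∧ col d.1 = col d.2) ⊆
      insert (r, s) (insert (s, r) ((A.erase (p, q)).erase (q, p))) := by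
    intro d hd
    obtain ⟨hdW, hd1, hd2⟩ := Finset.mem_filter.1 hd
    rcases hO.ed_flip h1 h2 hd1 with h | ⟨h, h'⟩ | ⟨h, h'⟩
    · refine Finset.mem_insert_of_mem (Finset.mem_insert_of_mem (Finset.mem_erase.2 ⟨?_,
        Finset.mem_erase.2 ⟨?_, Finset.mem_filter.2 ⟨hdW, h, hd2⟩⟩⟩))
      · rintro rfl
        exact hO.not_ed_flip' h1 h2 hd1
      · rintro rfl
        exact hO.not_ed_flip h1 h2 hd1
    · exact Finset.mem_insert.2 (Or.inl (Prod.ext h h'))
    · exact Finset.mem_insert_of_mem (Finset.mem_insert.2 (Or.inl (Prod.ext h h')))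
  have hc := Finset.card_le_card hsub
  have hc1 := Finset.card_insert_le (r, s) (insert (s, r) ((A.erase (p, q)).erase (q, p)))
  have hc2 := Finset.card_insert_le (s, r) ((A.erase (p, q)).erase (q, p))
  have hc3 := Finset.card_erase_of_mem hmem'
  have hc4 := Finset.card_erase_of_mem hmem
  have hpos1 : 0 < (A.erase (p, q)).card := Finset.card_pos.2 ⟨_, hmem'⟩
  have hpos2 : 0 < A.card := Finset.card_pos.2 ⟨_, hmem⟩
  show ((W ×ˢ W).filter (fun d => Ed (Flip O p q r s) d.1 d.2 ∧ col d.1 = col d.2)).card ≤ A.card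
  omega

theorem bool_ne {a b : Bool} (h : a ≠ b) : (a = true ∧ b = false) ∨ (a = false ∧ b = true) := by
  rcases a with _ | _ <;> rcases b with _ | _ <;> simp_all

/-- `nxt` after a flip, away from the two old triangles -/
theorem Sph.nxt_flip (hO : Sph W O) {p q r s : V} (h1 : O p q r) (h2 : O q p s)
    (hO' : Sph W (Flip O p q r s)) (hrs : col r = col s) {d : V × V}
    (hd : ∀ z, O d.1 d.2 z → col d.1 = true → col d.2 = false →
      ¬ Rot p q r d.1 d.2 z ∧ ¬ Rot q p s d.1 d.2 z) :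
    nxt (Flip O p q r s) col d = nxt O col d := by
  obtain ⟨x, y⟩ := d
  by_cases hm : Mx O col (x, y)
  · obtain ⟨⟨z, hz⟩, hx, hy⟩ := hm
    obtain ⟨n1, n2⟩ := hd z hz hx hy
    rw [hO.nxt_eq hz hx hy, hO'.nxt_eq (Or.inl ⟨hz, n1, n2⟩) hx hy]
  · rw [nxt_of_not hm, nxt_of_not]
    rintro ⟨he, hx, hy⟩
    rcases hO.ed_flip h1 h2 he with h | ⟨h, h'⟩ | ⟨h, h'⟩
    · exact hm ⟨h, hx, hy⟩
    · simp only at h h' hx hy
      rw [h] at hx; rw [h'] at hy; rw [hx, hy] at hrs; exact absurd hrs (by simp)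
    · simp only at h h' hx hy
      rw [h] at hx; rw [h'] at hy; rw [hx, hy] at hrs; exact absurd hrs (by simp)

/-- flipping a mono edge with two mixed triangles, exactly one of which is in the orbit of `e`,
makes the orbit bigger -/
theorem Sph.orbc_lt (hO : Sph W O) {p q r s : V} (h1 : O p q r) (h2 : O q p s)
    (hO' : Sph W (Flip O p q r s)) (hpq : col p = col q) (hrs : col r = col s)
    (hpr : col p ≠ col r) {e : V × V} (he : Mx O col e) (hin : TQ O col e p q r)
    (hout : ¬ TQ O col e q p s) : orbc W O col e < orbc W (Flip O p q r s) col e := by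
  obtain ⟨a1, a2, a3, a4, a5, a6⟩ := hO.flip_ne h1 h2
  -- the two special edges
  obtain ⟨a, b, hta, htb, hma, hna, hnb, hmb, h0⟩ : ∃ a b : V × V, (TQ O col e p q r ↔ Orb O col e a) ∧
      (TQ O col e q p s ↔ Orb O col e b) ∧ Mx O col a ∧
      nxt (Flip O p q r s) col a = nxt O col b ∧ nxt (Flip O p q r s) col b = nxt O col a ∧
      Mx O col b ∧
      ∀ d, d ≠ a → d ≠ b → nxt (Flip O p q r s) col d = nxt O col d := by
    rcases bool_ne hpr with ⟨cp, cr'⟩ | ⟨cp, cr'⟩
    · have cq : col q = true := hpq ▸ cp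
      have cs : col s = false := hrs ▸ cr'
      refine ⟨(q, r), (p, s), ?_, ?_, ⟨⟨p, hO.rot _ _ _ h1⟩, cq, cr'⟩, ?_, ?_,
        ⟨⟨q, hO.rot _ _ _ h2⟩, cp, cs⟩, ?_⟩
      · rw [TQ.rot, hO.tq_iff he (hO.rot _ _ _ h1) (by rw [cq, cr']; simp)]
        simp [QE, cq, cr']
      · rw [TQ.rot, hO.tq_iff he (hO.rot _ _ _ h2) (by rw [cp, cs]; simp)]
        simp [QE, cp, cs]
      · rw [hO'.nxt_eq (z := s) (Or.inr (Or.inr (Or.inr (Or.inl ⟨rfl, rfl, rfl⟩)))) cq cr',
          hO.nxt_eq (hO.rot _ _ _ h2) cp cs, if_neg (by rw [cs]; simp), if_pos cq]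
      · rw [hO'.nxt_eq (z := r) (Or.inr (Or.inl (Or.inl ⟨rfl, rfl, rfl⟩))) cp cs,
          hO.nxt_eq (hO.rot _ _ _ h1) cq cr', if_neg (by rw [cr']; simp), if_pos cp]
      · intro d hda hdb
        apply hO.nxt_flip h1 h2 hO' hrs
        intro z hz hx hy
        constructor
        · rintro (⟨e1, e2, -⟩ | ⟨e1, e2, -⟩ | ⟨e1, e2, -⟩)
          · rw [e2, cq] at hy; simp at hy
          · exact hda (Prod.ext e1 e2)
          · rw [e1, cr'] at hx; simp at hx
        · rintro (⟨e1, e2, -⟩ | ⟨e1, e2, -⟩ | ⟨e1, e2, -⟩)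
          · rw [e2, cp] at hy; simp at hy
          · exact hdb (Prod.ext e1 e2)
          · rw [e1, cs] at hx; simp at hx
    · have cq : col q = false := hpq ▸ cp
      have cs : col s = true := hrs ▸ cr'
      refine ⟨(r, p), (s, q), ?_, ?_, ⟨⟨q, hO.rot2 h1⟩, cr', cp⟩, ?_, ?_,
        ⟨⟨p, hO.rot2 h2⟩, cs, cq⟩, ?_⟩
      · rw [TQ.rot, TQ.rot, hO.tq_iff he (hO.rot2 h1) (by rw [cp, cr']; simp)]
        simp [QE, cp, cr']
      · rw [TQ.rot, TQ.rot, hO.tq_iff he (hO.rot2 h2) (by rw [cq, cs]; simp)]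
        simp [QE, cq, cs]
      · rw [hO'.nxt_eq (z := s) (Or.inr (Or.inl (Or.inr (Or.inr ⟨rfl, rfl, rfl⟩)))) cr' cp,
          hO.nxt_eq (hO.rot2 h2) cs cq, if_pos cs, if_neg (by rw [cp]; simp)]
      · rw [hO'.nxt_eq (z := r) (Or.inr (Or.inr (Or.inl ⟨rfl, rfl, rfl⟩))) cs cq,
          hO.nxt_eq (hO.rot2 h1) cr' cp, if_pos cr', if_neg (by rw [cq]; simp)]
      · intro d hda hdb
        apply hO.nxt_flip h1 h2 hO' hrs
        intro z hz hx hy
        constructor
        · rintro (⟨e1, e2, -⟩ | ⟨e1, e2, -⟩ | ⟨e1, e2, -⟩)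
          · rw [e1, cp] at hx; simp at hx
          · rw [e1, cq] at hx; simp at hx
          · exact hda (Prod.ext e1 e2)
        · rintro (⟨e1, e2, -⟩ | ⟨e1, e2, -⟩ | ⟨e1, e2, -⟩)
          · rw [e1, cq] at hx; simp at hx
          · rw [e1, cp] at hx; simp at hx
          · exact hdb (Prod.ext e1 e2)
  obtain ⟨k1, m, k2⟩ := cyc_merge (nxt O col) (nxt (Flip O p q r s) col) h0 hna hnb
    (hO.period hma) (hO.period hmb) (hta.1 hin) (fun n hn => hout (htb.2 ⟨n, hn⟩))
  apply Finset.card_lt_card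
  rw [Finset.ssubset_iff_of_subset]
  · exact ⟨b, Finset.mem_filter.2 ⟨hO.mx_mem hmb, m, k2⟩,
      fun hc => hout (htb.2 (Finset.mem_filter.1 hc).2)⟩
  · intro d hd
    obtain ⟨hd1, n, hd2⟩ := Finset.mem_filter.1 hd
    refine Finset.mem_filter.2 ⟨hd1, ?_⟩
    obtain ⟨m', hm'⟩ := k1 n
    exact ⟨m', by rw [hm', hd2]⟩

/-! ### the best member of the family -/

/-- `O` has the smallest number of mono edges, and then the largest orbit of `e` -/
structure Best (W : Finset V) (col : V → Bool) (e : V × V) (Fam : Set (V → V → V → Prop))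
    (O : V → V → V → Prop) : Prop where
  mem : O ∈ Fam
  m1 : ∀ O' ∈ Fam, monoc W O col ≤ monoc W O' col
  m2 : ∀ O' ∈ Fam, monoc W O' col = monoc W O col → orbc W O' col e ≤ orbc W O col e

theorem exists_best (W : Finset V) (col : V → Bool) (e : V × V) {Fam : Set (V → V → V → Prop)}
    (hne : Fam.Nonempty) : ∃ O, Best W col e Fam O := by
  set N := (W ×ˢ W).card with hN
  let f : (V → V → V → Prop) → ℕ := fun O => monoc W O col * (N + 1) + (N - orbc W O col e)
  obtain ⟨O, hO, hmin⟩ := (measure f).wf.has_min Fam hne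
  have hmin' : ∀ O' ∈ Fam, f O ≤ f O' := fun O' h => not_lt.1 (hmin O' h)
  have hle : ∀ O', orbc W O' col e ≤ N := fun O' => Finset.card_filter_le _ _
  refine ⟨O, hO, ?_, ?_⟩
  · intro O' h
    have h1 := hmin' O' h
    have h2 := hle O
    have h3 := hle O'
    simp only [f] at h1
    by_contra hlt
    push Not at hlt
    have : (monoc W O' col + 1) * (N + 1) ≤ monoc W O col * (N + 1) :=
      Nat.mul_le_mul_right _ hlt
    have h4 : (monoc W O' col + 1) * (N + 1) = monoc W O' col * (N + 1) + (N + 1) := by ring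
    omega
  · intro O' h he
    have h1 := hmin' O' h
    have h2 := hle O
    have h3 := hle O'
    simp only [f] at h1
    rw [he] at h1
    omega

namespace FlexData

variable (h : FlexData W col X Gp O0 Fam K U)

include h

theorem K1' {x y z : V} (hK : K x ≠ none) (ho : O0 y x z) : X x y := by
  obtain ⟨w, hw⟩ := h.sph0.opp _ _ _ ho
  exact h.K1 _ _ _ hK hw

/-- all three sides of an `O0`-triangle with a mono side at a body point are fixed -/
theorem coreX {x y z : V} (ho : O0 x y z) (hK : K x ≠ none ∨ K y ≠ none) (c1 : col x = col y) :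
    X x y ∧ X y z ∧ X z x := by
  rcases hK with hK | hK
  · exact ⟨h.K1 _ _ _ hK ho, h.K2 _ _ _ hK ho c1, h.Xs _ _ (h.K1' hK (h.sph0.rot2 ho))⟩
  · exact ⟨h.Xs _ _ (h.K1' hK ho), h.K1 _ _ _ hK (h.sph0.rot _ _ _ ho),
      h.Xs _ _ (h.K2' _ _ _ hK ho c1.symm)⟩

theorem core3 {x y z : V} (ho : O0 x y z) (hK : K x ≠ none ∨ K y ≠ none ∨ K z ≠ none)
    (c1 : col x = col y) (c2 : col x = col z) : X x y ∧ X y z ∧ X z x := by
  rcases hK with hK | hK | hK
  · exact h.coreX ho (Or.inl hK) c1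
  · exact h.coreX ho (Or.inr hK) c1
  · obtain ⟨a, b, c⟩ := h.coreX (h.sph0.rot _ _ _ ho) (Or.inr hK) (c1 ▸ c2)
    exact ⟨c, a, b⟩

/-- at a fixed mono edge with an end in a body nothing changes -/
theorem keep (hO : O ∈ Fam) {x y z : V} (ho : O x y z) (hX : X x y) (c1 : col x = col y)
    (hK : K x ≠ none ∨ K y ≠ none) : O0 x y z := by
  obtain ⟨z0, hz0⟩ := h.sub O0 h.zero x y hX
  obtain ⟨a, b, c⟩ := h.coreX hz0 hK c1
  have := h.per O hO x y z0 hz0 a b c
  rwa [(h.sph O hO).fn _ _ _ _ ho this]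

variable {e : V × V} (hb : Best W col e Fam O) (heX : X e.1 e.2) (he1 : col e.1 = true)
  (he2 : col e.2 = false)

include hb heX he1 he2

/-- (F3): mono triangles are core triangles -/
theorem noMono {x y z : V} (ho : O x y z) (c1 : col x = col y) (c2 : col x = col z) :
    O0 x y z ∧ (K x ≠ none ∨ K y ≠ none ∨ K z ≠ none) := by
  have hS := h.sph O hb.mem
  by_contra hcon
  let M : V → V → V → Prop := fun x y z => O x y z ∧ col x = col y ∧ col x = col z ∧
    ¬ (O0 x y z ∧ (K x ≠ none ∨ K y ≠ none ∨ K z ≠ none))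
  have hMO : ∀ x y z, M x y z → O x y z := fun x y z hm => hm.1
  have hMr : ∀ x y z, M x y z → M y z x := by
    rintro x y z ⟨m1, m2, m3, m4⟩
    refine ⟨hS.rot _ _ _ m1, by rw [← m2, m3], m2.symm, ?_⟩
    rintro ⟨n1, n2⟩
    exact m4 ⟨h.sph0.rot2 n1, by tauto⟩
  -- the boundary is in the skeleton
  have key : ∀ x y z, M x y z → (¬ ∃ w, M y x w) → Gp x y ∧ col x = col y := by
    intro x y z hm hno
    obtain ⟨m1, m2, m3, m4⟩ := hm
    refine ⟨?_, m2⟩
    by_contra hG
    obtain ⟨w, hw⟩ := hS.opp _ _ _ m1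
    by_cases hX : X x y
    · have hK := h.inner x y hX m2 hG
      have := h.keep hb.mem m1 hX m2 hK
      exact m4 ⟨this, by tauto⟩
    · have hcw : col w ≠ col x := by
        intro hc
        apply hno
        refine ⟨w, hw, m2.symm, by rw [hc, m2], ?_⟩
        rintro ⟨n1, n2⟩
        exact hX (h.Xs _ _ (h.core3 n1 n2 m2.symm (by rw [hc, m2])).1)
      have hf := h.flip O hb.mem x y z w m1 hw hX
      have := hS.monoc_lt m1 hw m2 (by rw [← m3]; exact fun hh => hcw hh.symm)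
      exact absurd (hb.m1 _ hf) (not_le.2 this)
  have hD := h.ac (fun x y => ¬ ((∃ z, M x y z) ↔ (∃ z, M y x z)))
    (fun x y hd hc => hd hc.symm) (by
      intro x y hd
      by_cases h1 : ∃ z, M x y z
      · obtain ⟨z, hz⟩ := h1
        exact key x y z hz (fun hc => hd ⟨fun _ => hc, fun _ => ⟨z, hz⟩⟩)
      · have h2 : ∃ z, M y x z := by
          by_contra hc; exact hd ⟨fun h' => absurd h' h1, fun h' => absurd h' hc⟩
        obtain ⟨z, hz⟩ := h2
        obtain ⟨g1, g2⟩ := key y x z hz h1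
        exact ⟨h.Gs _ _ g1, g2.symm⟩)
    (fun x y hd => hS.bdry M hMO hMr hd)
  obtain ⟨t, ht⟩ := h.sub O hb.mem _ _ heX
  have hall := hS.conn M hMO hMr (by
    intro x y z w hm hw
    have := hD x y
    push Not at this
    obtain ⟨w', hw'⟩ := (not_not.1 (hD x y)).1 ⟨z, hm⟩
    rwa [hS.fn _ _ _ _ hw (hMO _ _ _ hw')]) ⟨x, y, z, ho, c1, c2, hcon⟩ _ _ _ ht
  have := hall.2.1
  rw [he1, he2] at this
  simp at this

theorem mxe : Mx O col e := ⟨h.sub O hb.mem _ _ heX, he1, he2⟩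

/-- the triangles at a flexible edge are mixed -/
theorem flexMixed {p q r : V} (ho : O p q r) (hX : ¬ X p q) (hpq : col p = col q) :
    col r ≠ col p := by
  intro hc
  obtain ⟨a, b⟩ := h.noMono hb heX he1 he2 ho hpq hc.symm
  exact hX (h.core3 a b hpq hc.symm).1

/-- (4b) the two triangles at a flexible mono edge are in the same orbit -/
theorem flexSame {p q r s : V} (h1 : O p q r) (h2 : O q p s) (hX : ¬ X p q)
    (hpq : col p = col q) : TQ O col e p q r ↔ TQ O col e q p s := by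
  have hS := h.sph O hb.mem
  have c1 := h.flexMixed hb heX he1 he2 h1 hX hpq
  have c2 := h.flexMixed hb heX he1 he2 h2 (fun hc => hX (h.Xs _ _ hc)) hpq.symm
  have hrs : col r = col s := by
    rw [← hpq] at c2
    rcases hr : col r with _ | _ <;> rcases hs : col s with _ | _ <;>
      rcases hp : col p with _ | _ <;> simp_all
  have he := h.mxe hb heX he1 he2
  by_contra hcon
  by_cases hin : TQ O col e p q r
  · have hout : ¬ TQ O col e q p s := fun hc => hcon ⟨fun _ => hc, fun _ => hin⟩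
    have hf := h.flip O hb.mem p q r s h1 h2 hX
    have hlt := hS.orbc_lt h1 h2 (h.sph _ hf) hpq hrs c1.symm he hin hout
    have hm := hS.monoc_le (col := col) h1 h2 hpq
    exact absurd (hb.m2 _ hf (le_antisymm hm (hb.m1 _ hf))) (not_le.2 hlt)
  · have hin' : TQ O col e q p s := by
      by_contra hc; exact hcon ⟨fun h' => absurd h' hin, fun h' => absurd h' hc⟩
    have hf := h.flip O hb.mem q p s r h2 h1 (fun hc => hX (h.Xs _ _ hc))
    have hlt := hS.orbc_lt h2 h1 (h.sph _ hf) hpq.symm hrs.symm (by rw [← hpq, ← hrs]; exact c1.symm)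
      he hin' hin
    have hm := hS.monoc_le (col := col) h2 h1 hpq.symm
    exact absurd (hb.m2 _ hf (le_antisymm hm (hb.m1 _ hf))) (not_le.2 hlt)

end FlexData

/-- membership on the other mixed edge of a triangle, at `x` -/
theorem Sph.qe_two (hO : Sph W O) {e : V × V} (he : Mx O col e) {x y z : V} (ho : O x y z)
    (h1 : col x ≠ col y) (h2 : col x ≠ col z) : QE O col e x y ↔ QE O col e x z := by
  rw [← hO.tq_iff he ho h1, QE.symm', ← hO.tq_iff he (hO.rot2 ho) h2.symm, TQ.rot, TQ.rot]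

namespace FlexData

variable (h : FlexData W col X Gp O0 Fam K U) {e : V × V} (hb : Best W col e Fam O)
  (heX : X e.1 e.2) (he1 : col e.1 = true) (he2 : col e.2 = false)

include h hb heX he1 he2

/-- the fan of a corner `p` in the cell `F` -/
theorem fanQ {F : ι} {p x x' : V} (hU : U F p) (hx : K x = some F) (hx' : K x' = some F)
    (ex : Ed O0 p x) (ex' : Ed O0 p x') : QE O col e p x ↔ QE O col e p x' := by
  have hS := h.sph O hb.mem
  have he := h.mxe hb heX he1 he2
  obtain ⟨r, hr, hKr, hback⟩ := h.fan F p hU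
  refine h.sph0.fan hr (fun w => K w = some F) (fun w => QE O col e p w) hKr hback ?_ ex ex' hx hx'
  intro w w' ho hw hw'
  have hwn : K w ≠ none := by rw [hw]; simp
  have hwn' : K w' ≠ none := by rw [hw']; simp
  have a1 : X p w := h.Xs _ _ (h.K1' hwn ho)
  have a2 : X w w' := h.K1 _ _ _ hwn (h.sph0.rot _ _ _ ho)
  have a3 : X w' p := h.K1 _ _ _ hwn' (h.sph0.rot2 ho)
  have ho' := h.per O hb.mem _ _ _ ho a1 a2 a3
  exact hS.qe_two he ho' (h.colU _ _ _ hw hU).symm (h.colU _ _ _ hw' hU).symm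

/-- around the apex of a removed side -/
theorem coneQ {F : ι} {p q z : V} (hp : U F p) (hq : U F q) (hz : K z = some F)
    (ho : O0 p q z) : QE O col e z p ↔ QE O col e z q := by
  have hS := h.sph O hb.mem
  have he := h.mxe hb heX he1 he2
  have hzn : K z ≠ none := by rw [hz]; simp
  have cp : col z ≠ col p := h.colU _ _ _ hz hp
  have cq : col z ≠ col q := h.colU _ _ _ hz hq
  have cpq : col p = col q := by
    rcases hp' : col p with _ | _ <;> rcases hq' : col q with _ | _ <;>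
      rcases hz' : col z with _ | _ <;> simp_all
  have Xzp : X z p := h.K1 _ _ _ hzn (h.sph0.rot2 ho)
  have Xzq : X z q := h.K1' hzn (h.sph0.rot _ _ _ ho)
  by_cases hX : X p q
  · have ho' := h.per O hb.mem _ _ _ ho hX (h.Xs _ _ Xzq) Xzp
    exact hS.qe_two he (hS.rot2 ho') cp cq
  · obtain ⟨S, Sp, Sq, SX, back, forw⟩ := h.cone O hb.mem p q z ho hzn hX
    obtain ⟨z1, hz1⟩ := h.sub O hb.mem _ _ Xzp
    obtain ⟨zq, hzq⟩ := h.sub O hb.mem _ _ Xzq
    have hpq : p ≠ q := h.sph0.ne _ _ _ ho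
    have hK1 : S z1 ∨ z1 = q := forw p z1 hz1 (Or.inr rfl)
    -- membership of the triangle on the right of `z → w`
    have hfan := hS.fan ⟨z1, hz1⟩ (fun w => S w ∨ w = q)
      (fun w => ∃ u, O w z u ∧ TQ O col e w z u) (by
        rintro (h' | h')
        · exact Sp h'
        · exact hpq h') (fun w w' a b => (back w w' a b).imp Or.inl id) (by
        intro w w' hw hKw hKw'
        have hSw : S w := by
          rcases hKw with h' | h'
          · exact h'
          · exfalso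
            subst h'
            rcases back w w' hw hKw' with h'' | h''
            · exact Sq h''
            · exact hpq h''.symm
        -- the right triangle at `z w'` is the left triangle at `z w`
        obtain ⟨u, hu⟩ := hS.opp _ _ _ hw
        have e1 : (∃ u, O w z u ∧ TQ O col e w z u) ↔ TQ O col e w z u :=
          ⟨fun ⟨u', h1, h2⟩ => by rwa [hS.fn _ _ _ _ hu h1], fun h2 => ⟨u, hu, h2⟩⟩
        have e2 : (∃ u, O w' z u ∧ TQ O col e w' z u) ↔ TQ O col e z w w' := by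
          constructor
          · rintro ⟨u', h1, h2⟩
            rw [← hS.fn _ _ _ _ (hS.rot2 hw) h1] at h2
            rwa [TQ.rot] at h2
          · intro h2
            exact ⟨w, hS.rot2 hw, by rwa [TQ.rot]⟩
        rw [e1, e2]
        by_cases hc : col z = col w
        · exact (h.flexSame hb heX he1 he2 hw hu (SX w hSw) hc).symm
        · rw [hS.tq_iff he hw hc, hS.tq_iff he hu (fun hh => hc hh.symm), QE.symm']) (w := z1)
      (w' := q) (hS.ed_symm ⟨p, hS.rot2 hz1⟩) ⟨zq, hzq⟩ hK1 (Or.inr rfl)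
    have e1 : (∃ u, O z1 z u ∧ TQ O col e z1 z u) ↔ QE O col e z p := by
      rw [← hS.tq_iff he hz1 cp]
      constructor
      · rintro ⟨u', h1, h2⟩
        rw [← hS.fn _ _ _ _ (hS.rot2 hz1) h1] at h2
        rwa [TQ.rot] at h2
      · intro h2
        exact ⟨p, hS.rot2 hz1, by rwa [TQ.rot]⟩
    have e2 : (∃ u, O q z u ∧ TQ O col e q z u) ↔ QE O col e z q := by
      obtain ⟨u, hu⟩ := hS.opp _ _ _ hzq
      rw [QE.symm', ← hS.tq_iff he hu cq.symm]
      exact ⟨fun ⟨u', h1, h2⟩ => by rwa [hS.fn _ _ _ _ hu h1], fun h2 => ⟨u, hu, h2⟩⟩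
    exact e1.symm.trans (hfan.trans e2)

/-- (F4) all mixed fixed edges at the points of one body have the same membership -/
theorem bodyQ {F : ι} {x x' p p' : V} (hx : K x = some F) (hx' : K x' = some F) (hp : X x p)
    (hp' : X x' p') (c : col x ≠ col p) (c' : col x' ≠ col p') :
    QE O col e x p ↔ QE O col e x' p' := by
  have hU := h.mixU _ _ _ hx hp c
  have hU' := h.mixU _ _ _ hx' hp' c'
  have ep : Ed O0 p x := h.sub O0 h.zero _ _ (h.Xs _ _ hp)
  have ep' : Ed O0 p' x' := h.sub O0 h.zero _ _ (h.Xs _ _ hp')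
  by_cases hpp : p = p'
  · subst hpp
    rw [QE.symm', QE.symm' (x := x')]
    exact h.fanQ hb heX he1 he2 hU hx hx' ep ep'
  · obtain ⟨z, hz, hz'⟩ := h.apex F p p' hU hU' hpp ⟨x, hx⟩
    have hzz : QE O col e z p ↔ QE O col e z p' := by
      rcases hz' with hz' | hz'
      · exact h.coneQ hb heX he1 he2 hU hU' hz hz'
      · exact (h.coneQ hb heX he1 he2 hU' hU hz hz').symm
    have ezp : Ed O0 p z ∧ Ed O0 p' z := by
      rcases hz' with hz' | hz'
      · exact ⟨h.sph0.ed_symm ⟨_, h.sph0.rot2 hz'⟩, ⟨_, h.sph0.rot _ _ _ hz'⟩⟩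
      · exact ⟨⟨_, h.sph0.rot _ _ _ hz'⟩, h.sph0.ed_symm ⟨_, h.sph0.rot2 hz'⟩⟩
    have f1 := h.fanQ hb heX he1 he2 hU hx hz ep ezp.1
    have f2 := h.fanQ hb heX he1 he2 hU' hx' hz ep' ezp.2
    rw [QE.symm', f1, QE.symm', hzz, QE.symm', ← f2, QE.symm']

end FlexData

/-- the body of `F` belongs to the orbit -/
def QF (O : V → V → V → Prop) (col : V → Bool) (e : V × V) (X : V → V → Prop) (K : V → Option ι)
    (F : ι) : Prop := ∃ x p, K x = some F ∧ X x p ∧ col x ≠ col p ∧ QE O col e x p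

/-- the triangles of the orbit, with the mono triangles at its bodies -/
def NT (O : V → V → V → Prop) (col : V → Bool) (e : V × V) (X : V → V → Prop) (K : V → Option ι)
    (x y z : V) : Prop :=
  O x y z ∧ ((¬ (col x = col y ∧ col x = col z) ∧ TQ O col e x y z) ∨
    ((col x = col y ∧ col x = col z) ∧
      ∃ F, (K x = some F ∨ K y = some F ∨ K z = some F) ∧ QF O col e X K F))

namespace FlexData

variable (h : FlexData W col X Gp O0 Fam K U) {e : V × V} (hb : Best W col e Fam O)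
  (heX : X e.1 e.2) (he1 : col e.1 = true) (he2 : col e.2 = false)

include h hb heX he1 he2

theorem qf_iff {F : ι} {x p : V} (hx : K x = some F) (hp : X x p) (c : col x ≠ col p) :
    QE O col e x p ↔ QF O col e X K F := by
  constructor
  · intro hq
    exact ⟨x, p, hx, hp, c, hq⟩
  · rintro ⟨x', p', hx', hp', c', hq⟩
    exact (h.bodyQ hb heX he1 he2 hx hx' hp hp' c c').2 hq

theorem nt_core {F : ι} {x y z : V} (ho : O x y z) (ho0 : O0 x y z)
    (hK : K x = some F ∨ K y = some F) (c : col x = col y) :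
    NT O col e X K x y z ↔ QF O col e X K F := by
  have hS := h.sph O hb.mem
  have he := h.mxe hb heX he1 he2
  -- all bodies are `F`
  have hloc : ∀ F', (K x = some F' ∨ K y = some F' ∨ K z = some F') → F' = F := by
    intro F' hF'
    rcases hK with hK | hK
    · obtain ⟨a, b⟩ := h.loc x y z F hK ho0
      rcases hF' with h1 | h1 | h1
      · rw [hK] at h1; exact (Option.some.inj h1).symm
      · rcases a with a | a
        · rw [a] at h1; exact (Option.some.inj h1).symm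
        · rw [a] at h1; cases h1
      · rcases b with a | a
        · rw [a] at h1; exact (Option.some.inj h1).symm
        · rw [a] at h1; cases h1
    · obtain ⟨a, b⟩ := h.loc y z x F hK (h.sph0.rot _ _ _ ho0)
      rcases hF' with h1 | h1 | h1
      · rcases b with a | a
        · rw [a] at h1; exact (Option.some.inj h1).symm
        · rw [a] at h1; cases h1
      · rw [hK] at h1; exact (Option.some.inj h1).symm
      · rcases a with a | a
        · rw [a] at h1; exact (Option.some.inj h1).symm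
        · rw [a] at h1; cases h1
  by_cases cz : col x = col z
  · constructor
    · rintro ⟨-, ⟨h1, -⟩ | ⟨-, F', h1, h2⟩⟩
      · exact absurd ⟨c, cz⟩ h1
      · rwa [← hloc F' h1]
    · intro hq
      exact ⟨ho, Or.inr ⟨⟨c, cz⟩, F, by tauto, hq⟩⟩
  · have e1 : NT O col e X K x y z ↔ TQ O col e x y z := by
      constructor
      · rintro ⟨-, ⟨-, h1⟩ | ⟨h1, -⟩⟩
        · exact h1
        · exact absurd h1.2 cz
      · intro h1
        exact ⟨ho, Or.inl ⟨fun hc => cz hc.2, h1⟩⟩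
    rw [e1]
    rcases hK with hK | hK
    · have hX : X x z := h.K1' (by rw [hK]; simp) (h.sph0.rot2 ho0)
      rw [← h.qf_iff hb heX he1 he2 hK hX cz, TQ.rot, TQ.rot,
        hS.tq_iff he (hS.rot2 ho) (fun hh => cz hh.symm), QE.symm']
    · have hX : X y z := h.K1 _ _ _ (by rw [hK]; simp) (h.sph0.rot _ _ _ ho0)
      rw [← h.qf_iff hb heX he1 he2 hK hX (by rw [← c]; exact cz), TQ.rot,
        hS.tq_iff he (hS.rot _ _ _ ho) (by rw [← c]; exact cz)]

/-- (F5): there is only one orbit -/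
theorem oneOrbit {d : V × V} (hd : Mx O col d) : Orb O col e d := by
  have hS := h.sph O hb.mem
  have he := h.mxe hb heX he1 he2
  have hr : ∀ x y z, NT O col e X K x y z → NT O col e X K y z x := by
    rintro x y z ⟨h1, h2⟩
    refine ⟨hS.rot _ _ _ h1, ?_⟩
    rcases h2 with ⟨h2, h3⟩ | ⟨⟨h2, h3⟩, F, h4, h5⟩
    · exact Or.inl ⟨fun hc => h2 ⟨hc.2.symm, hc.2.symm.trans hc.1⟩, TQ.rot.1 h3⟩
    · exact Or.inr ⟨⟨h2.symm.trans h3, h2.symm⟩, F, by tauto, h5⟩
  have key : ∀ x y z w, O x y z → O y x w → ¬ (Gp x y ∧ col x = col y) →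
      (NT O col e X K x y z ↔ NT O col e X K y x w) := by
    intro x y z w h1 h2 h3
    by_cases c : col x = col y
    · have hG : ¬ Gp x y := fun hc => h3 ⟨hc, c⟩
      by_cases hX : X x y
      · have hK := h.inner x y hX c hG
        have k1 := h.keep hb.mem h1 hX c hK
        have k2 := h.keep hb.mem h2 (h.Xs _ _ hX) c.symm hK.symm
        obtain ⟨F, hF⟩ : ∃ F, K x = some F ∨ K y = some F := by
          rcases hK with hK | hK
          · obtain ⟨F, hF⟩ := Option.ne_none_iff_exists'.1 hK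
            exact ⟨F, Or.inl hF⟩
          · obtain ⟨F, hF⟩ := Option.ne_none_iff_exists'.1 hK
            exact ⟨F, Or.inr hF⟩
        rw [h.nt_core hb heX he1 he2 h1 k1 hF c, h.nt_core hb heX he1 he2 h2 k2 hF.symm c.symm]
      · have m1 := h.flexMixed hb heX he1 he2 h1 hX c
        have m2 := h.flexMixed hb heX he1 he2 h2 (fun hc => hX (h.Xs _ _ hc)) c.symm
        have m3 := h.flexSame hb heX he1 he2 h1 h2 hX c
        constructor
        · rintro ⟨-, ⟨-, a⟩ | ⟨a, -⟩⟩
          · exact ⟨h2, Or.inl ⟨fun hc => m2 hc.2.symm, m3.1 a⟩⟩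
          · exact absurd a.2.symm m1
        · rintro ⟨-, ⟨-, a⟩ | ⟨a, -⟩⟩
          · exact ⟨h1, Or.inl ⟨fun hc => m1 hc.2.symm, m3.2 a⟩⟩
          · exact absurd a.2.symm m2
    · have m3 : TQ O col e x y z ↔ TQ O col e y x w := by
        rw [hS.tq_iff he h1 c, hS.tq_iff he h2 (fun hc => c hc.symm), QE.symm']
      constructor
      · rintro ⟨-, ⟨-, a⟩ | ⟨a, -⟩⟩
        · exact ⟨h2, Or.inl ⟨fun hc => c hc.1.symm, m3.1 a⟩⟩
        · exact absurd a.1 c
      · rintro ⟨-, ⟨-, a⟩ | ⟨a, -⟩⟩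
        · exact ⟨h1, Or.inl ⟨fun hc => c hc.1, m3.2 a⟩⟩
        · exact absurd a.1.symm c
  have hD := h.ac (fun x y => ¬ ((∃ z, NT O col e X K x y z) ↔ (∃ z, NT O col e X K y x z)))
    (fun x y hd hc => hd hc.symm) (by
      intro x y hd
      by_contra hcon
      apply hd
      constructor
      · rintro ⟨z, hz⟩
        obtain ⟨w, hw⟩ := hS.opp _ _ _ hz.1
        exact ⟨w, (key x y z w hz.1 hw hcon).1 hz⟩
      · rintro ⟨w, hw⟩
        obtain ⟨z, hz⟩ := hS.opp _ _ _ hw.1
        exact ⟨z, (key x y z w hz hw.1 hcon).2 hw⟩)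
    (fun x y hd => hS.bdry _ (fun _ _ _ hm => hm.1) hr hd)
  have hce : col e.1 ≠ col e.2 := by rw [he1, he2]; simp
  obtain ⟨t, ht⟩ := h.sub O hb.mem _ _ heX
  have hNe : NT O col e X K e.1 e.2 t := by
    refine ⟨ht, Or.inl ⟨fun hc => hce hc.1, ?_⟩⟩
    rw [hS.tq_iff he ht hce]
    exact Or.inl ⟨he1, he2, Orb.refl _ _ _⟩
  obtain ⟨⟨z, hz⟩, hd1, hd2⟩ := hd
  have hcd : col d.1 ≠ col d.2 := by rw [hd1, hd2]; simp
  have hall := hS.conn (NT O col e X K) (fun _ _ _ hm => hm.1) hr (by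
    intro x y z w hm hw
    obtain ⟨w', hw'⟩ := (not_not.1 (hD x y)).1 ⟨z, hm⟩
    rwa [hS.fn _ _ _ _ hw hw'.1]) ⟨_, _, _, hNe⟩ _ _ _ hz
  obtain ⟨-, ⟨-, h1⟩ | ⟨h1, -⟩⟩ := hall
  · rw [hS.tq_iff he hz hcd] at h1
    rcases h1 with ⟨-, -, h1⟩ | ⟨h1, -, -⟩
    · exact h1
    · rw [hd2] at h1; cases h1
  · exact absurd h1.1 hcd

/-- (F6): every vertex is in a mixed edge -/
theorem everyMixed {v : V} (hv : v ∈ W) : ∃ y, Ed O v y ∧ col y ≠ col v := by
  have hS := h.sph O hb.mem
  obtain ⟨x, y, ho⟩ := hS.vert v hv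
  by_cases c1 : col v = col x
  · by_cases c2 : col v = col y
    · obtain ⟨k1, k2⟩ := h.noMono hb heX he1 he2 ho c1 c2
      by_cases hK : K v = none
      · obtain ⟨w, hw, cw⟩ := h.K5 v x y k1 hK (k2.resolve_left (fun hh => hh hK)) c1 c2
        exact ⟨w, h.sub O hb.mem _ _ hw, cw⟩
      · obtain ⟨w, hw, cw⟩ := h.K4 v hK
        exact ⟨w, h.sub O hb.mem _ _ hw, cw⟩
    · exact ⟨y, hS.ed_symm ⟨x, hS.rot2 ho⟩, fun hh => c2 hh.symm⟩
  · exact ⟨x, ⟨y, ho⟩, fun hh => c1 hh.symm⟩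

end FlexData

/-- SECTION 4 -/
theorem FlexData.main (h : FlexData W col X Gp O0 Fam K U) {e : V × V} (heX : X e.1 e.2)
    (he1 : col e.1 = true) (he2 : col e.2 = false) : ∃ O ∈ Fam,
    (∀ d, Mx O col d → Orb O col e d) ∧ ∀ v ∈ W, ∃ y, Ed O v y ∧ col y ≠ col v := by
  obtain ⟨O, hb⟩ := exists_best W col e ⟨O0, h.zero⟩
  exact ⟨O, hb.mem, fun d hd => h.oneOrbit hb heX he1 he2 hd,
    fun v hv => h.everyMixed hb heX he1 he2 hv⟩

end MP91a79a

end
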