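import Pool.Agent.Lib.MP_91a79a_co.HullE
import Pool.Agent.Lib.MP_91a79a_co.Flex

/-!
# Skeleton and colouring (steps (1) and (2) of helper43's proof of `HypE`)

`Wide N v`: the directions from `v` to the points of `N` positively span the plane.
`skeleton`: a minimal wide set `G` of sides (all hull sides kept); `G` together with the edges from
infinity to the hull vertices of `B` is 3-degenerate, hence there is a 2-colouring of `B` and
infinity such that every nonempty set of monochromatic edges has a vertex of degree one (`AC`).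
-/

set_option autoImplicit false

namespace MP91a79a
open Set

noncomputable section

/-- The directions from `v` to the points of `N` positively span the plane. -/
def Wide (N : Pt → Prop) (v : Pt) : Prop :=
  ∀ α β : ℝ, (α ≠ 0 ∨ β ≠ 0) → ∃ u, N u ∧ lf α β v < lf α β u

theorem Wide.mono {N N' : Pt → Prop} {v : Pt} (h : Wide N v) (hN : ∀ u, N u → N' u) :
    Wide N' v := by
  intro α β h0
  obtain ⟨u, hu, h1⟩ := h α β h0
  exact ⟨u, hN u hu, h1⟩

/-- `G` together with the edges from infinity (`none`) to the hull vertices of `B`. -/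
def Gp (B : Finset Pt) (G : Pt → Pt → Prop) : Option Pt → Option Pt → Prop
  | some u, some w => G u w
  | some u, none => u ∈ B ∧ HV B u
  | none, some w => w ∈ B ∧ HV B w
  | none, none => False

/-! ## Degenerate graphs -/

theorem colour_degenerate {V : Type} [DecidableEq V] (R : V → V → Prop)
    (hirr : ∀ v, ¬ R v v) (S0 : Finset V)
    (hdeg : ∀ S : Finset V, S ⊆ S0 → S.Nonempty →
      ∃ v ∈ S, ∀ A : Finset V, A ⊆ S → (∀ w ∈ A, R v w) → A.card ≤ 3) :
    ∃ col : V → Bool, ∀ D : V → V → Prop, (∀ v w, D v w → D w v) →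
      (∀ v w, D v w → v ∈ S0 ∧ w ∈ S0 ∧ R v w ∧ col v = col w) →
      (∀ v w, D v w → ∃ w', w' ≠ w ∧ D v w') → ∀ v w, ¬ D v w := by
  classical
  induction S0 using Finset.strongInduction with
  | H S0 ih =>
    by_cases hne : S0.Nonempty
    · obtain ⟨v, hv, hA⟩ := hdeg S0 (Finset.Subset.refl _) hne
      obtain ⟨col, hcol⟩ := ih (S0.erase v) (Finset.erase_ssubset hv)
        (fun S hS => hdeg S (hS.trans (Finset.erase_subset _ _)))
      have hcard := hA (S0.filter (fun w => R v w)) (Finset.filter_subset _ _)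
        (fun w hw => (Finset.mem_filter.1 hw).2)
      obtain ⟨c, hc⟩ : ∃ c : Bool, ((S0.filter (fun w => R v w)).filter
          (fun w => col w = c)).card ≤ 1 := by
        by_contra hcon
        push Not at hcon
        have h1 := hcon true
        have h2 := hcon false
        have hdis : Disjoint ((S0.filter (fun w => R v w)).filter (fun w => col w = true))
            ((S0.filter (fun w => R v w)).filter (fun w => col w = false)) := by
          rw [Finset.disjoint_left]
          intro w hw hw'
          have e1 := (Finset.mem_filter.1 hw).2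
          have e2 := (Finset.mem_filter.1 hw').2
          rw [e1] at e2
          exact absurd e2 (by decide)
        have h3 := Finset.card_union_of_disjoint hdis
        have h4 : (((S0.filter (fun w => R v w)).filter (fun w => col w = true)) ∪
            ((S0.filter (fun w => R v w)).filter (fun w => col w = false))).card ≤
            (S0.filter (fun w => R v w)).card := by
          apply Finset.card_le_card
          apply Finset.union_subset <;> exact Finset.filter_subset _ _
        omega
      refine ⟨Function.update col v c, ?_⟩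
      intro D hsym hD hdeg1
      have hno : ∀ w, ¬ D v w := by
        intro w hw
        obtain ⟨w', hw', hDw'⟩ := hdeg1 v w hw
        obtain ⟨_, hwS, hR, hcw⟩ := hD v w hw
        obtain ⟨_, hwS', hR', hcw'⟩ := hD v w' hDw'
        have hwv : w ≠ v := by rintro rfl; exact hirr _ hR
        have hwv' : w' ≠ v := by rintro rfl; exact hirr _ hR'
        rw [Function.update_self, Function.update_of_ne hwv] at hcw
        rw [Function.update_self, Function.update_of_ne hwv'] at hcw'
        rw [Finset.card_le_one] at hc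
        apply hw'
        apply hc
        · exact Finset.mem_filter.2 ⟨Finset.mem_filter.2 ⟨hwS', hR'⟩, hcw'.symm⟩
        · exact Finset.mem_filter.2 ⟨Finset.mem_filter.2 ⟨hwS, hR⟩, hcw.symm⟩
      refine hcol D hsym ?_ hdeg1
      intro x y hxy
      obtain ⟨hx, hy, hR, hcxy⟩ := hD x y hxy
      have hxv : x ≠ v := by rintro rfl; exact hno _ hxy
      have hyv : y ≠ v := by rintro rfl; exact hno _ (hsym _ _ hxy)
      rw [Function.update_of_ne hxv, Function.update_of_ne hyv] at hcxy
      exact ⟨Finset.mem_erase.2 ⟨hxv, hx⟩, Finset.mem_erase.2 ⟨hyv, hy⟩, hR, hcxy⟩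
    · refine ⟨fun _ => true, ?_⟩
      intro D _ hD _ v w hvw
      exact hne ⟨v, (hD v w hvw).1⟩

/-- A finite graph whose edges are owned by one of their ends, every vertex owning at most two
edges and one vertex at most one edge, has a vertex of degree at most three. -/
theorem deg_le_three {V : Type} [DecidableEq V] (R own : V → V → Prop) (S : Finset V)
    (ho : ∀ v ∈ S, ∀ w ∈ S, R v w → own v w ∨ own w v)
    (h2 : ∀ v ∈ S, ∀ A : Finset V, A ⊆ S → (∀ w ∈ A, own v w) → A.card ≤ 2)
    (h1 : ∃ v ∈ S, ∀ A : Finset V, A ⊆ S → (∀ w ∈ A, own v w) → A.card ≤ 1) :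
    ∃ v ∈ S, ∀ A : Finset V, A ⊆ S → (∀ w ∈ A, R v w) → A.card ≤ 3 := by
  classical
  by_contra hcon
  push Not at hcon
  choose! A hA using hcon
  have hdeg : ∀ v ∈ S, 4 ≤ (S.filter (fun w => own v w ∨ own w v)).card := by
    intro v hv
    obtain ⟨hAS, hAR, hc⟩ := hA v hv
    refine le_trans hc (Finset.card_le_card ?_)
    intro w hw
    exact Finset.mem_filter.2 ⟨hAS hw, ho v hv w (hAS hw) (hAR w hw)⟩
  have hle : ∀ v ∈ S, (S.filter (fun w => own v w ∨ own w v)).card ≤
      (S.filter (fun w => own v w)).card + (S.filter (fun w => own w v)).card := by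
    intro v _
    rw [Finset.filter_or]
    exact Finset.card_union_le _ _
  have hsw : ∑ v ∈ S, (S.filter (fun w => own w v)).card =
      ∑ v ∈ S, (S.filter (fun w => own v w)).card := by
    simp only [Finset.card_filter]
    exact Finset.sum_comm
  have hb : ∑ v ∈ S, (S.filter (fun w => own v w)).card < ∑ _v ∈ S, 2 := by
    obtain ⟨v0, hv0, hv1⟩ := h1
    apply Finset.sum_lt_sum
    · intro v hv
      exact h2 v hv _ (Finset.filter_subset _ _) (fun w hw => (Finset.mem_filter.1 hw).2)
    · refine ⟨v0, hv0, ?_⟩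
      have := hv1 _ (Finset.filter_subset (fun w => own v0 w) S)
        (fun w hw => (Finset.mem_filter.1 hw).2)
      omega
  have h4 : ∑ _v ∈ S, 4 ≤ ∑ v ∈ S, ((S.filter (fun w => own v w)).card +
      (S.filter (fun w => own w v)).card) :=
    Finset.sum_le_sum (fun v hv => le_trans (hdeg v hv) (hle v hv))
  rw [Finset.sum_add_distrib, hsw] at h4
  simp only [Finset.sum_const, smul_eq_mul] at h4 hb
  omega

/-! ## Planar vector lemmas -/

theorem cr_lf3 (α β : ℝ) (v x y z : Pt) :
    cr v y z * (lf α β x - lf α β v) =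
      cr v x z * (lf α β y - lf α β v) + cr v y x * (lf α β z - lf α β v) := by
  unfold cr lf; ring

/-- `y` and `z` critical: a third neighbour `x` has them on different sides. -/
theorem crit_mid {v x y z : Pt} {a b c d : ℝ}
    (hxy : cr v x y ≠ 0) (hxz : cr v x z ≠ 0) (hyz : cr v y z ≠ 0)
    (y1 : lf a b v < lf a b y) (y2 : lf a b x ≤ lf a b v) (y3 : lf a b z ≤ lf a b v)
    (z1 : lf c d v < lf c d z) (z2 : lf c d x ≤ lf c d v) (z3 : lf c d y ≤ lf c d v) :
    cr v x y * cr v x z < 0 := by
  have e1 := cr_lf3 a b v y x z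
  have e2 := cr_lf3 c d v z x y
  have n1 : cr v z y = - cr v y z := by unfold cr; ring
  have n2 : cr v y x = - cr v x y := by unfold cr; ring
  have n3 : cr v z x = - cr v x z := by unfold cr; ring
  rw [n1] at e2
  by_contra hcon
  push Not at hcon
  have hpos : 0 < cr v x y * cr v x z := lt_of_le_of_ne hcon (Ne.symm (mul_ne_zero hxy hxz))
  rcases pos_and_pos_or_neg_and_neg_of_mul_pos hpos with ⟨p, q⟩ | ⟨p, q⟩
  · rcases lt_or_gt_of_ne hyz with r | r
    · nlinarith [mul_pos p (sub_pos.2 z1), mul_nonneg q.le (sub_nonneg.2 z3),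
        mul_nonneg (neg_pos.2 r).le (sub_nonneg.2 z2)]
    · nlinarith [mul_pos q (sub_pos.2 y1), mul_nonneg p.le (sub_nonneg.2 y3),
        mul_nonneg r.le (sub_nonneg.2 y2)]
  · rcases lt_or_gt_of_ne hyz with r | r
    · nlinarith [mul_pos (neg_pos.2 q) (sub_pos.2 y1), mul_nonneg (neg_pos.2 p).le
        (sub_nonneg.2 y3), mul_nonneg (neg_pos.2 r).le (sub_nonneg.2 y2)]
    · nlinarith [mul_pos (neg_pos.2 p) (sub_pos.2 z1), mul_nonneg (neg_pos.2 q).le
        (sub_nonneg.2 z3), mul_nonneg r.le (sub_nonneg.2 z2)]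

/-- (1a) three critical neighbours exclude a fourth neighbour. -/
theorem crit_three {s1 s2 s3 : ℝ} (h12 : s1 * s2 < 0) (h13 : s1 * s3 < 0) (h23 : s2 * s3 < 0) :
    False := by
  nlinarith [mul_pos_of_neg_of_neg h12 h13, mul_self_nonneg s1, mul_self_nonneg (s1 * s2),
    mul_nonneg (mul_self_nonneg s1) (neg_pos.2 h23).le]

/-- (1b), ordered case. -/
theorem crit_two_aux {v w1 w2 w3 u : Pt} {a b c d m n : ℝ}
    (h31 : cr v w3 w1 < 0) (h32 : 0 < cr v w3 w2) (h3u : cr v w3 u ≠ 0)
    (h1u : cr v w1 u ≠ 0) (h2u : cr v w2 u ≠ 0)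
    (y1 : lf a b v < lf a b w1) (y3 : lf a b w3 ≤ lf a b v) (yu : lf a b u ≤ lf a b v)
    (z1 : lf c d v < lf c d w2) (z3 : lf c d w3 ≤ lf c d v) (zu : lf c d u ≤ lf c d v)
    (m1 : lf m n v < lf m n w1) (m2 : lf m n v < lf m n w2) (m3 : lf m n v < lf m n w3)
    (mu : lf m n u < lf m n v) : False := by
  have n13 : cr v w1 w3 = - cr v w3 w1 := by unfold cr; ring
  have nu2 : cr v u w2 = - cr v w2 u := by unfold cr; ring
  have nu1 : cr v u w1 = - cr v w1 u := by unfold cr; ring
  have nu3 : cr v u w3 = - cr v w3 u := by unfold cr; ring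
  rcases lt_or_gt_of_ne h3u with r | r
  · rcases lt_or_gt_of_ne h1u with t | t
    · have e := cr_lf3 a b v w1 u w3
      rw [n13, nu1, nu3] at e
      nlinarith [mul_pos (neg_pos.2 r) (sub_pos.2 y1), mul_nonneg (neg_pos.2 h31).le
        (sub_nonneg.2 yu), mul_nonneg (neg_pos.2 t).le (sub_nonneg.2 y3)]
    · have e := cr_lf3 m n v u w1 w3
      rw [n13, nu3] at e
      nlinarith [mul_pos (neg_pos.2 h31) (sub_pos.2 mu), mul_pos (neg_pos.2 r) (sub_pos.2 m1),
        mul_pos t (sub_pos.2 m3)]
  · rcases lt_or_gt_of_ne h2u with t | t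
    · have e := cr_lf3 m n v u w3 w2
      rw [nu2] at e
      nlinarith [mul_pos h32 (sub_pos.2 mu), mul_pos (neg_pos.2 t) (sub_pos.2 m3),
        mul_pos r (sub_pos.2 m2)]
    · have e := cr_lf3 c d v w2 w3 u
      nlinarith [mul_pos r (sub_pos.2 z1), mul_nonneg t.le (sub_nonneg.2 z3),
        mul_nonneg h32.le (sub_nonneg.2 zu)]

/-- (1b): two critical neighbours and a third one in an open halfplane: no neighbour outside. -/
theorem crit_two {v w1 w2 w3 u : Pt} {a b c d m n : ℝ}
    (h12 : cr v w1 w2 ≠ 0) (h31 : cr v w3 w1 ≠ 0) (h32 : cr v w3 w2 ≠ 0) (h3u : cr v w3 u ≠ 0)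
    (h1u : cr v w1 u ≠ 0) (h2u : cr v w2 u ≠ 0)
    (y1 : lf a b v < lf a b w1) (y2 : lf a b w2 ≤ lf a b v) (y3 : lf a b w3 ≤ lf a b v)
    (yu : lf a b u ≤ lf a b v)
    (z1 : lf c d v < lf c d w2) (z2 : lf c d w1 ≤ lf c d v) (z3 : lf c d w3 ≤ lf c d v)
    (zu : lf c d u ≤ lf c d v)
    (m1 : lf m n v < lf m n w1) (m2 : lf m n v < lf m n w2) (m3 : lf m n v < lf m n w3)
    (mu : lf m n u < lf m n v) : False := by
  have h := crit_mid h31 h32 h12 y1 y3 y2 z1 z3 z2
  rcases lt_or_gt_of_ne h31 with h1 | h1
  · have h2 : 0 < cr v w3 w2 := by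
      by_contra hcon
      push Not at hcon
      nlinarith [mul_nonneg (neg_pos.2 h1).le (sub_nonneg.2 hcon)]
    exact crit_two_aux h1 h2 h3u h1u h2u y1 y3 yu z1 z3 zu m1 m2 m3 mu
  · have h2 : cr v w3 w2 < 0 := by
      by_contra hcon
      push Not at hcon
      nlinarith [mul_nonneg h1.le hcon]
    exact crit_two_aux h2 h1 h3u h2u h1u z1 z3 zu y1 y3 yu m2 m1 m3 mu

/-- A nonempty finite set has a point which a linear functional separates strictly. -/
theorem exists_extreme (S : Finset Pt) (hS : S.Nonempty) :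
    ∃ v ∈ S, ∃ m n : ℝ, (m ≠ 0 ∨ n ≠ 0) ∧ ∀ s ∈ S, s ≠ v → lf m n v < lf m n s := by
  classical
  have hfin : (Set.range (fun p : S × S =>
      (p.2.1.1 - p.1.1.1) / (p.1.1.2 - p.2.1.2))).Finite := Set.finite_range _
  obtain ⟨t, ht⟩ := hfin.infinite_compl.nonempty
  have hinj : ∀ x ∈ S, ∀ y ∈ S, lf 1 t x = lf 1 t y → x = y := by
    intro x hx y hy hxy
    by_contra hne
    unfold lf at hxy
    by_cases h2 : x.2 = y.2
    · apply hne
      rw [h2] at hxy
      ext
      · linarith
      · exact h2
    · apply ht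
      refine ⟨(⟨x, hx⟩, ⟨y, hy⟩), ?_⟩
      have h3 : x.2 - y.2 ≠ 0 := sub_ne_zero.2 h2
      show (y.1 - x.1) / (x.2 - y.2) = t
      rw [div_eq_iff h3]
      linarith
  obtain ⟨v, hv, hmin⟩ := S.exists_min_image (lf 1 t) hS
  refine ⟨v, hv, 1, t, Or.inl one_ne_zero, ?_⟩
  intro s hs hsv
  exact lt_of_le_of_ne (hmin s hs) (fun h => hsv (hinj v hv s hs h).symm)

/-! ## The minimal skeleton -/

/-- `w` is a critical neighbour of the non-hull vertex `v`. -/
def Crit (B : Finset Pt) (N0 G : Pt → Pt → Prop) (v w : Pt) : Prop :=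
  v ∈ B ∧ ¬ HV B v ∧ G v w ∧ ∃ α β : ℝ, lf α β v < lf α β w ∧
    ∀ u, (N0 v u ∨ G v u) → u ≠ w → lf α β u ≤ lf α β v

theorem skeleton_min {B : Finset Pt} (S N0 : Pt → Pt → Prop)
    (hS : ∀ u w, S u w → S w u) (hS1 : ∀ u w, S u w → u ∈ B ∧ w ∈ B ∧ u ≠ w)
    (hHE : ∀ u w, HE B u w → S u w)
    (hw : ∀ v ∈ B, ¬ HV B v → Wide (fun u => N0 v u ∨ S v u) v) :
    ∃ G : Pt → Pt → Prop, (∀ u w, G u w → G w u) ∧ (∀ u w, G u w → S u w) ∧
      (∀ u w, HE B u w → G u w) ∧ (∀ v ∈ B, ¬ HV B v → Wide (fun u => N0 v u ∨ G v u) v) ∧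
      ∀ u w, G u w → HE B u w ∨ HE B w u ∨ Crit B N0 G u w ∨ Crit B N0 G w u := by
  classical
  let Good : Finset (Pt × Pt) → Prop := fun G =>
    (∀ u w, (u, w) ∈ G → (w, u) ∈ G) ∧ (∀ u w, (u, w) ∈ G → S u w) ∧
      (∀ u w, HE B u w → (u, w) ∈ G) ∧
      (∀ v ∈ B, ¬ HV B v → Wide (fun u => N0 v u ∨ (v, u) ∈ G) v)
  have hex : ∃ G : Finset (Pt × Pt), Good G := by
    refine ⟨(B ×ˢ B).filter (fun e => S e.1 e.2), ?_, ?_, ?_, ?_⟩
    · intro u w h
      have h1 := (Finset.mem_filter.1 h).2
      have h2 := hS1 u w h1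
      exact Finset.mem_filter.2 ⟨Finset.mem_product.2 ⟨h2.2.1, h2.1⟩, hS _ _ h1⟩
    · intro u w h
      exact (Finset.mem_filter.1 h).2
    · intro u w h
      have h1 := hHE u w h
      have h2 := hS1 u w h1
      exact Finset.mem_filter.2 ⟨Finset.mem_product.2 ⟨h2.1, h2.2.1⟩, h1⟩
    · intro v hv hv1
      refine (hw v hv hv1).mono ?_
      intro u hu
      rcases hu with hu | hu
      · exact Or.inl hu
      · have h2 := hS1 v u hu
        exact Or.inr (Finset.mem_filter.2 ⟨Finset.mem_product.2 ⟨h2.1, h2.2.1⟩, hu⟩)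
  obtain ⟨G, hG, hmin⟩ : ∃ G : Finset (Pt × Pt), Good G ∧ ∀ G', Good G' → G.card ≤ G'.card := by
    have hP : ∃ n, ∃ G : Finset (Pt × Pt), Good G ∧ G.card = n := by
      obtain ⟨G, hG⟩ := hex
      exact ⟨_, G, hG, rfl⟩
    obtain ⟨G, hG, hc⟩ := Nat.find_spec hP
    refine ⟨G, hG, ?_⟩
    intro G' hG'
    rw [hc]
    exact Nat.find_min' hP ⟨G', hG', rfl⟩
  obtain ⟨g1, g2, g3, g4⟩ := hG
  refine ⟨fun u w => (u, w) ∈ G, g1, g2, g3, g4, ?_⟩
  intro u w huw
  by_contra hcon
  push Not at hcon
  obtain ⟨c1, c2, c3, c4⟩ := hcon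
  have hne := (hS1 u w (g2 u w huw)).2.2
  have hlt : ((G.erase (u, w)).erase (w, u)).card < G.card :=
    lt_of_le_of_lt (Finset.card_le_card (Finset.erase_subset _ _)) (Finset.card_erase_lt_of_mem huw)
  have hng : ¬ Good ((G.erase (u, w)).erase (w, u)) := fun h => absurd (hmin _ h) (not_le.2 hlt)
  apply hng
  refine ⟨?_, ?_, ?_, ?_⟩
  · intro x y hxy
    simp only [Finset.mem_erase, ne_eq, Prod.mk.injEq, not_and] at hxy ⊢
    refine ⟨fun h1 h2 => hxy.2.1 h2 h1, fun h1 h2 => hxy.1 h2 h1, g1 _ _ hxy.2.2⟩
  · intro x y hxy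
    exact g2 x y (Finset.mem_of_mem_erase (Finset.mem_of_mem_erase hxy))
  · intro x y hxy
    refine Finset.mem_erase.2 ⟨?_, Finset.mem_erase.2 ⟨?_, g3 x y hxy⟩⟩
    · rintro h
      obtain ⟨rfl, rfl⟩ := Prod.mk.inj h
      exact c2 hxy
    · rintro h
      obtain ⟨rfl, rfl⟩ := Prod.mk.inj h
      exact c1 hxy
  · intro v hv hv1 α β h0
    by_contra hno
    push Not at hno
    obtain ⟨x, hx, hlx⟩ := g4 v hv hv1 α β h0
    have hmem : ∀ y, (N0 v y ∨ (v, y) ∈ G) → (v, y) ≠ (u, w) → (v, y) ≠ (w, u) →
        lf α β y ≤ lf α β v := by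
      intro y hy h1 h2
      apply hno
      rcases hy with hy | hy
      · exact Or.inl hy
      · exact Or.inr (Finset.mem_erase.2 ⟨h2, Finset.mem_erase.2 ⟨h1, hy⟩⟩)
    by_cases e1 : (v, x) = (u, w)
    · obtain ⟨rfl, rfl⟩ := Prod.mk.inj e1
      apply c3
      refine ⟨hv, hv1, huw, α, β, hlx, ?_⟩
      intro y hy hyw
      apply hmem y hy
      · intro h; exact hyw (Prod.mk.inj h).2
      · intro h; exact hne (Prod.mk.inj h).1
    · by_cases e2 : (v, x) = (w, u)
      · obtain ⟨rfl, rfl⟩ := Prod.mk.inj e2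
        apply c4
        refine ⟨hv, hv1, g1 _ _ huw, α, β, hlx, ?_⟩
        intro y hy hyw
        apply hmem y hy
        · intro h; exact hne (Prod.mk.inj h).1.symm
        · intro h; exact hyw (Prod.mk.inj h).2
      · exact absurd (hmem x hx e1 e2) (not_le.2 hlx)

theorem skeleton {P B : Finset Pt} (hP : GP P) (hB : B ⊆ P) (S N0 : Pt → Pt → Prop)
    (hS : ∀ u w, S u w → S w u) (hS1 : ∀ u w, S u w → u ∈ B ∧ w ∈ B ∧ u ≠ w)
    (hN0 : ∀ v u, N0 v u → u ∈ P ∧ u ≠ v)
    (hHE : ∀ u w, HE B u w → S u w)
    (hw : ∀ v ∈ B, ¬ HV B v → Wide (fun u => N0 v u ∨ S v u) v) :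
    ∃ (G : Pt → Pt → Prop) (col : Option Pt → Bool),
      (∀ u w, G u w → G w u) ∧ (∀ u w, G u w → S u w) ∧ (∀ u w, HE B u w → G u w) ∧
      (∀ v ∈ B, ¬ HV B v → Wide (fun u => N0 v u ∨ G v u) v) ∧ col none = false ∧
      AC (Gp B G) col := by
  classical
  obtain ⟨G, g1, g2, g3, g4, g5⟩ := skeleton_min S N0 hS hS1 hHE hw
  have hGB := hP.mono hB
  let own : Option Pt → Option Pt → Prop := fun a b =>
    match a, b with
    | some u, some w => HE B u w ∨ Crit B N0 G u w
    | some u, none => HV B u
    | none, _ => False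
  have hNP : ∀ v u, (N0 v u ∨ G v u) → u ∈ P ∧ u ≠ v := by
    intro v u h
    rcases h with h | h
    · exact hN0 v u h
    · have h2 := hS1 v u (g2 v u h)
      exact ⟨hB h2.2.1, h2.2.2.symm⟩
  have hcr : ∀ v x y, v ∈ B → (N0 v x ∨ G v x) → (N0 v y ∨ G v y) → x ≠ y → cr v x y ≠ 0 := by
    intro v x y hv hx hy hxy
    exact hP v (hB hv) x (hNP v x hx).1 y (hNP v y hy).1 (hNP v x hx).2.symm (hNP v y hy).2.symm hxy
  have hdeg : ∀ S' : Finset (Option Pt), S' ⊆ Finset.insertNone B → S'.Nonempty →
      ∃ v ∈ S', ∀ A : Finset (Option Pt), A ⊆ S' → (∀ w ∈ A, Gp B G v w) → A.card ≤ 3 := by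
    intro S' hS' hne
    by_contra hcon
    have hbig : ∀ v ∈ S', ∃ A : Finset (Option Pt), A ⊆ S' ∧ (∀ w ∈ A, Gp B G v w) ∧
        3 < A.card := by
      intro v hv
      by_contra h
      push Not at h
      exact hcon ⟨v, hv, h⟩
    apply hcon
    apply deg_le_three (Gp B G) own S'
    · intro v hv w hw h
      match v, w, h with
      | some u, some w, h =>
        rcases g5 u w h with h | h | h | h
        · exact Or.inl (Or.inl h)
        · exact Or.inr (Or.inl h)
        · exact Or.inl (Or.inr h)
        · exact Or.inr (Or.inr h)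
      | some u, none, h => exact Or.inl h.2
      | none, some w, h => exact Or.inr h.2
    · intro v hv A hA hown
      match v, hv, hown with
      | none, hv, hown =>
        have : A = ∅ := by
          rw [Finset.eq_empty_iff_forall_notMem]
          intro w hw
          exact hown w hw
        rw [this]; simp
      | some u, hv, hown =>
        by_cases hu : HV B u
        · have h1 : (A.erase none).card ≤ 1 := by
            rw [Finset.card_le_one]
            intro x hx y hy
            obtain ⟨hx1, hx2⟩ := Finset.mem_erase.1 hx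
            obtain ⟨hy1, hy2⟩ := Finset.mem_erase.1 hy
            have ox := hown x hx2
            have oy := hown y hy2
            match x, y, hx1, hy1, ox, oy with
            | some x, some y, _, _, ox, oy =>
              rcases ox with ox | ox
              · rcases oy with oy | oy
                · rw [HE.succ_unique hGB ox oy]
                · exact absurd hu oy.2.1
              · exact absurd hu ox.2.1
            | none, _, hx1, _, _, _ => exact absurd rfl hx1
            | some _, none, _, hy1, _, _ => exact absurd rfl hy1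
          have h2 := Finset.pred_card_le_card_erase (s := A) (a := none)
          omega
        · by_contra h3
          push Not at h3
          obtain ⟨a, ha, b, hb, c, hc, hab, hac, hbc⟩ := Finset.two_lt_card.1 h3
          obtain ⟨A', hA'S, hA'R, hA'c⟩ := hbig (some u) hv
          obtain ⟨d, hd, hdn⟩ : ∃ d ∈ A', d ∉ ({a, b, c} : Finset (Option Pt)) := by
            by_contra hsub
            push Not at hsub
            have := Finset.card_le_card (show A' ⊆ ({a, b, c} : Finset (Option Pt)) from hsub)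
            have h4 := Finset.card_le_three (a := a) (b := b) (c := c)
            omega
          simp only [Finset.mem_insert, Finset.mem_singleton, not_or] at hdn
          obtain ⟨hda, hdb, hdc⟩ := hdn
          have Rd := hA'R d hd
          have oa := hown a ha
          have ob := hown b hb
          have oc := hown c hc
          have cH : ∀ x, own (some u) x → ∃ x', x = some x' ∧ Crit B N0 G u x' := by
            intro x hx
            match x, hx with
            | some x, hx =>
              rcases hx with hx | hx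
              · exact absurd hx.hv_left hu
              · exact ⟨x, rfl, hx⟩
            | none, hx => exact absurd hx hu
          obtain ⟨a, rfl, hub, _, Ga, aα, aβ, a1, a2⟩ := cH a oa
          obtain ⟨b, rfl, _, _, Gb, bα, bβ, b1, b2⟩ := cH b ob
          obtain ⟨c, rfl, _, _, Gc, cα, cβ, c1, c2⟩ := cH c oc
          obtain ⟨d, rfl⟩ : ∃ d', d = some d' := by
            match d, Rd with
            | some d, _ => exact ⟨d, rfl⟩
            | none, Rd => exact absurd Rd.2 hu
          have Gd : G u d := Rd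
          have hab' : a ≠ b := fun h => hab (by rw [h])
          have hac' : a ≠ c := fun h => hac (by rw [h])
          have hbc' : b ≠ c := fun h => hbc (by rw [h])
          have hda' : d ≠ a := fun h => hda (by rw [h])
          have hdb' : d ≠ b := fun h => hdb (by rw [h])
          have hdc' : d ≠ c := fun h => hdc (by rw [h])
          have Na : N0 u a ∨ G u a := Or.inr Ga
          have Nb : N0 u b ∨ G u b := Or.inr Gb
          have Nc : N0 u c ∨ G u c := Or.inr Gc
          have Nd : N0 u d ∨ G u d := Or.inr Gd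
          refine crit_three
            (crit_mid (hcr u d a hub Nd Na hda') (hcr u d b hub Nd Nb hdb')
              (hcr u a b hub Na Nb hab') a1 (a2 d Nd hda') (a2 b Nb hab'.symm)
              b1 (b2 d Nd hdb') (b2 a Na hab'))
            (crit_mid (hcr u d a hub Nd Na hda') (hcr u d c hub Nd Nc hdc')
              (hcr u a c hub Na Nc hac') a1 (a2 d Nd hda') (a2 c Nc hac'.symm)
              c1 (c2 d Nd hdc') (c2 a Na hac'))
            (crit_mid (hcr u d b hub Nd Nb hdb') (hcr u d c hub Nd Nc hdc')
              (hcr u b c hub Nb Nc hbc') b1 (b2 d Nd hdb') (b2 c Nc hbc'.symm)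
              c1 (c2 d Nd hdc') (c2 b Nb hbc'))
    · by_cases hnone : none ∈ S'
      · refine ⟨none, hnone, ?_⟩
        intro A hA hown
        have : A = ∅ := by
          rw [Finset.eq_empty_iff_forall_notMem]
          intro w hw
          exact hown w hw
        rw [this]; simp
      · have hne' : (Finset.eraseNone S').Nonempty := by
          obtain ⟨x, hx⟩ := hne
          match x, hx with
          | some x, hx => exact ⟨x, Finset.mem_eraseNone.2 hx⟩
          | none, hx => exact absurd hx hnone
        obtain ⟨v, hv, m, n, h0, hext⟩ := exists_extreme _ hne'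
        have hv' := Finset.mem_eraseNone.1 hv
        have hvB : v ∈ B := by
          have := hS' hv'
          simpa using this
        refine ⟨some v, hv', ?_⟩
        intro A hA hown
        by_contra h2
        push Not at h2
        obtain ⟨a, ha, b, hb, hab⟩ := Finset.one_lt_card.1 h2
        have hsome : ∀ x ∈ S', ∃ x', x = some x' := by
          intro x hx
          match x, hx with
          | some x, hx => exact ⟨x, rfl⟩
          | none, hx => exact absurd hx hnone
        obtain ⟨a, rfl⟩ := hsome a (hA ha)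
        obtain ⟨b, rfl⟩ := hsome b (hA hb)
        have hab' : a ≠ b := fun h => hab (by rw [h])
        have oa : HE B v a ∨ Crit B N0 G v a := hown _ ha
        have ob : HE B v b ∨ Crit B N0 G v b := hown _ hb
        by_cases hu : HV B v
        · rcases oa with oa | oa
          · rcases ob with ob | ob
            · exact hab' (HE.succ_unique hGB oa ob)
            · exact ob.2.1 hu
          · exact oa.2.1 hu
        · have oa' : Crit B N0 G v a := by
            rcases oa with oa | oa
            · exact absurd oa.hv_left hu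
            · exact oa
          have ob' : Crit B N0 G v b := by
            rcases ob with ob | ob
            · exact absurd ob.hv_left hu
            · exact ob
          obtain ⟨A', hA'S, hA'R, hA'c⟩ := hbig (some v) hv'
          obtain ⟨d, hd, hdn⟩ : ∃ d ∈ A', d ∉ ({some a, some b} : Finset (Option Pt)) := by
            by_contra hsub
            push Not at hsub
            have := Finset.card_le_card (show A' ⊆ ({some a, some b} : Finset (Option Pt)) from hsub)
            have h4 := Finset.card_le_two (a := some a) (b := some b)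
            omega
          simp only [Finset.mem_insert, Finset.mem_singleton, not_or] at hdn
          obtain ⟨hda, hdb⟩ := hdn
          have Rd := hA'R d hd
          obtain ⟨d, rfl⟩ := hsome d (hA'S hd)
          have Gd : G v d := Rd
          have hda' : d ≠ a := fun h => hda (by rw [h])
          have hdb' : d ≠ b := fun h => hdb (by rw [h])
          obtain ⟨_, _, Ga, aα, aβ, a1, a2⟩ := oa'
          obtain ⟨_, _, Gb, bα, bβ, b1, b2⟩ := ob'
          have Na : N0 v a ∨ G v a := Or.inr Ga
          have Nb : N0 v b ∨ G v b := Or.inr Gb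
          have Nd : N0 v d ∨ G v d := Or.inr Gd
          have hma := hext a (Finset.mem_eraseNone.2 (hA ha)) (hNP v a Na).2
          have hmb := hext b (Finset.mem_eraseNone.2 (hA hb)) (hNP v b Nb).2
          have hmd := hext d (Finset.mem_eraseNone.2 (hA'S hd)) (hNP v d Nd).2
          obtain ⟨x, Nx, hx⟩ := g4 v hvB hu (-m) (-n) (by
            rcases h0 with h | h
            · exact Or.inl (neg_ne_zero.2 h)
            · exact Or.inr (neg_ne_zero.2 h))
          have hmx : lf m n x < lf m n v := by
            unfold lf at hx ⊢; linarith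
          have hxa : a ≠ x := by rintro rfl; exact absurd hma (not_lt.2 hmx.le)
          have hxb : b ≠ x := by rintro rfl; exact absurd hmb (not_lt.2 hmx.le)
          have hxd : d ≠ x := by rintro rfl; exact absurd hmd (not_lt.2 hmx.le)
          exact crit_two (hcr v a b hvB Na Nb hab') (hcr v d a hvB Nd Na hda')
            (hcr v d b hvB Nd Nb hdb') (hcr v d x hvB Nd Nx hxd) (hcr v a x hvB Na Nx hxa)
            (hcr v b x hvB Nb Nx hxb) a1 (a2 b Nb hab'.symm) (a2 d Nd hda') (a2 x Nx hxa.symm)
            b1 (b2 a Na hab') (b2 d Nd hdb') (b2 x Nx hxb.symm) hma hmb hmd hmx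
  obtain ⟨col0, hcol0⟩ := colour_degenerate (Gp B G) (by
    intro v
    match v with
    | none => exact id
    | some v => exact fun h => (hS1 v v (g2 v v h)).2.2 rfl) (Finset.insertNone B) hdeg
  have hin : ∀ v w, Gp B G v w → v ∈ Finset.insertNone B ∧ w ∈ Finset.insertNone B := by
    intro v w h
    match v, w, h with
    | some u, some w, h =>
      have := hS1 u w (g2 u w h)
      exact ⟨Finset.some_mem_insertNone.2 this.1, Finset.some_mem_insertNone.2 this.2.1⟩
    | some u, none, h => exact ⟨Finset.some_mem_insertNone.2 h.1, Finset.none_mem_insertNone⟩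
    | none, some w, h => exact ⟨Finset.none_mem_insertNone, Finset.some_mem_insertNone.2 h.1⟩
  refine ⟨G, fun x => xor (col0 x) (col0 none), g1, g2, g3, g4, by simp, ?_⟩
  intro D hsym hD hdeg1
  refine hcol0 D hsym ?_ hdeg1
  intro v w hvw
  obtain ⟨hR, hc⟩ := hD v w hvw
  refine ⟨(hin v w hR).1, (hin v w hR).2, hR, ?_⟩
  simpa using hc

end

end MP91a79a
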