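import Pool.Agent.Lib.MP_91a79a_co.Linear

/-!
Triangulations which differ in few triangles are few simultaneous flips apart (MP_91a79a_co).
-/

noncomputable section

namespace MP91a79a

open Set

variable {P : Finset Pt} {S T T' : Finset (Finset Pt)}

/-- an empty triangle all whose sides are sides of `S` is a triangle of `S` -/
theorem tri_of_sides (hG : GP P) (hS : IsTriangulation P S) (hT' : IsTriangulation P T')
    {t : Finset Pt} (ht : t ∈ T') (h : ∀ u ∈ t, ∀ v ∈ t, u ≠ v → Side S u v) : t ∈ S := by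
  have h1 : IsTriangulation t (MP91a79a.restr S t) :=
    hS.restr (hT'.sub t ht) (hG.mono (hT'.sub t ht)) (hT'.card t ht).ge
      (fun p hp hp' => (hT'.strict hG).strict t ht p hp hp')
      (fun u hu v hv huv _ => h u hu v hv huv)
  obtain ⟨p, hp⟩ : t.Nonempty := by rw [← Finset.card_pos, hT'.card t ht]; omega
  obtain ⟨s, hs, -⟩ := tri_mem_cover h1 (subset_convexHull ℝ _ hp)
  obtain ⟨hs1, hs2⟩ := mem_restr.1 hs
  have h2 : s = t := Finset.eq_of_subset_of_card_le hs2 (by rw [hT'.card t ht, hS.card s hs1])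
  rw [← h2]
  exact hs1

/-- a triangulation contained in another one is equal to it -/
theorem tri_eq_of_sub (hS : IsTriangulation P S) (hT : IsTriangulation P T) (h : T ⊆ S) :
    T = S := by
  apply Finset.Subset.antisymm h
  intro s hs
  by_contra hsT
  obtain ⟨z, hz⟩ := tri_int_nonempty hS hs
  obtain ⟨t, ht, hzt⟩ := tri_mem_cover hT (tri_hull_sub hS hs (interior_subset hz))
  have hne : t ≠ s := fun e => hsT (e ▸ ht)
  exact Set.disjoint_left.1 (tri_disj_of_int hS (h ht) isOpen_interior
    (hS.disj t (h ht) s hs hne)) hzt hz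

/-- near a point `p`, the hull is covered by the triangles at `p` -/
theorem near (hT : STri P T) {p : Pt} (hp : p ∈ P) :
    ∃ U : Set Pt, IsOpen U ∧ p ∈ U ∧ ∀ z ∈ U, z ∈ convexHull ℝ (P : Set Pt) →
      ∃ t ∈ T, p ∈ t ∧ z ∈ convexHull ℝ (t : Set Pt) := by
  refine ⟨(⋃ t ∈ T.filter (fun t => p ∉ t), convexHull ℝ (t : Set Pt))ᶜ, ?_, ?_, ?_⟩
  · rw [isOpen_compl_iff]
    apply isClosed_biUnion_finset
    intro t _
    exact (t.finite_toSet.isCompact_convexHull ℝ).isClosed
  · intro h
    simp only [Set.mem_iUnion, exists_prop] at h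
    obtain ⟨t, ht, hpt⟩ := h
    obtain ⟨ht1, ht2⟩ := Finset.mem_filter.1 ht
    exact ht2 (hT.strict t ht1 p hp hpt)
  · intro z hz hzP
    obtain ⟨t, ht, hzt⟩ := tri_mem_cover hT.toIs hzP
    refine ⟨t, ht, ?_, hzt⟩
    by_contra hpt
    apply hz
    simp only [Set.mem_iUnion, exists_prop]
    exact ⟨t, Finset.mem_filter.2 ⟨ht, hpt⟩, hzt⟩

/-- the vertices of the triangles of `S` outside `T` are vertices of triangles of `T` outside `S`,
even outside any `C ⊆ S` containing the common triangles of `T` at that vertex -/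
theorem vert_mem (hG : GP P) (hT : IsTriangulation P T) (hS : IsTriangulation P S)
    {C : Finset (Finset Pt)} (hC : C ⊆ S) {s : Finset Pt} (hs : s ∈ S) (hsC : s ∉ C)
    {p : Pt} (hp : p ∈ s) : ∃ t ∈ T, t ∉ C ∧ p ∈ t := by
  by_contra hcon
  push Not at hcon
  have hpP := hS.sub s hs hp
  obtain ⟨U, hU, hpU, hcov⟩ := near (hT.strict hG) hpP
  have hpc : p ∈ closure (interior (convexHull ℝ (s : Set Pt))) := by
    rw [(convex_convexHull ℝ _).closure_interior_eq_closure_of_nonempty_interior
      (tri_int_nonempty hS hs)]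
    exact subset_closure (subset_convexHull ℝ _ hp)
  obtain ⟨z, hzU, hzi⟩ := mem_closure_iff.1 hpc U hU hpU
  obtain ⟨t, ht, hpt, hzt⟩ := hcov z hzU (tri_hull_sub hS hs (interior_subset hzi))
  have htC : t ∈ C := by
    by_contra htC
    exact hcon t ht htC hpt
  have hne : t ≠ s := fun e => hsC (e ▸ htC)
  exact Set.disjoint_left.1 (tri_disj_of_int hS (hC htC) isOpen_interior
    (hS.disj t (hC htC) s hs hne)) hzt hzi

/-- **few different triangles** -/
theorem few_triangles (hG : GP P) (hT : IsTriangulation P T) (hT' : IsTriangulation P T') :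
    Reach P ((3 * (T \ T').card) ^ 3) T T' := by
  classical
  set C := T ∩ T' with hC
  set V := (T \ T').biUnion id with hV
  have hVc : V.card ≤ 3 * (T \ T').card := by
    rw [mul_comm]
    apply Finset.card_biUnion_le_card_mul
    intro t ht
    exact (hT.card t (Finset.mem_sdiff.1 ht).1).le
  have hCT : C ⊆ T := Finset.inter_subset_left
  have hCT' : C ⊆ T' := Finset.inter_subset_right
  have hvert : ∀ {S : Finset (Finset Pt)}, IsTriangulation P S → C ⊆ S → ∀ s ∈ S, s ∉ C →
      ∀ p ∈ s, p ∈ V := by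
    intro S hS hCS s hs hsC p hp
    obtain ⟨t, ht, htC, hpt⟩ := vert_mem hG hT hS hCS hs hsC hp
    rw [hV, Finset.mem_biUnion]
    refine ⟨t, Finset.mem_sdiff.2 ⟨ht, fun h => htC (Finset.mem_inter.2 ⟨ht, h⟩)⟩, hpt⟩
  set E := (V ×ˢ V).filter (fun e => Side T' e.1 e.2) with hE
  have hT's := hT'.strict hG
  have key : ∀ E' ⊆ E, ∃ S, Reach P (E'.card * V.card) T S ∧ C ⊆ S ∧
      ∀ e ∈ E', Side S e.1 e.2 := by
    intro E'
    induction E' using Finset.induction_on with
    | empty =>
      intro _
      exact ⟨T, by simpa using Reach.refl T hT, hCT, by simp⟩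
    | insert e E' he ih =>
      intro hsub
      obtain ⟨S, hr, hCS, hsides⟩ := ih ((Finset.subset_insert _ _).trans hsub)
      have heE := hsub (Finset.mem_insert_self _ _)
      obtain ⟨heV, heT'⟩ := Finset.mem_filter.1 heE
      have hS := hr.tri_right
      obtain ⟨hx, hy⟩ := side_mem hT' heT'
      obtain ⟨k, hk, S', hr', hs', hkeep⟩ := insertion hG hS hx hy heT'.1 V (by
        intro u v huv hcr
        obtain ⟨huv', s, hs, hus, hvs⟩ := huv
        have hsC : s ∉ C := by
          intro hsC
          exact hT's.noCross heT' ⟨huv', s, hCT' hsC, hus, hvs⟩ hcr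
        exact ⟨hvert hS hCS s hs hsC u hus, hvert hS hCS s hs hsC v hvs⟩)
      refine ⟨S', ?_, ?_, ?_⟩
      · rw [Finset.card_insert_of_notMem he, add_mul, one_mul]
        exact hr.trans (hr'.mono hk)
      · intro t ht
        refine tri_of_sides hG hr'.tri_right hT' (hCT' ht) fun u hu v hv huv => ?_
        refine hkeep u v ⟨huv, t, hCS ht, hu, hv⟩ fun hcr => ?_
        exact hT's.noCross heT' ⟨huv, t, hCT' ht, hu, hv⟩ hcr
      · intro e' he'
        rcases Finset.mem_insert.1 he' with rfl | he'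
        · exact hs'
        · refine hkeep _ _ (hsides e' he') fun hcr => ?_
          have h1 := (Finset.mem_filter.1 (hsub (Finset.mem_insert_of_mem he'))).2
          exact hT's.noCross heT' h1 hcr
  obtain ⟨S, hr, hCS, hsides⟩ := key E subset_rfl
  have hS := hr.tri_right
  have hT'S : T' ⊆ S := by
    intro t ht
    by_cases htC : t ∈ C
    · exact hCS htC
    · refine tri_of_sides hG hS hT' ht fun u hu v hv huv => ?_
      have hu' := hvert hT' hCT' t ht htC u hu
      have hv' := hvert hT' hCT' t ht htC v hv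
      exact hsides (u, v) (Finset.mem_filter.2 ⟨Finset.mem_product.2 ⟨hu', hv'⟩,
        huv, t, ht, hu, hv⟩)
  have heq := tri_eq_of_sub hS hT' hT'S
  rw [← heq] at hr
  refine hr.mono ?_
  have hEc : E.card ≤ V.card * V.card := by
    refine (Finset.card_filter_le _ _).trans ?_
    rw [Finset.card_product]
  calc E.card * V.card ≤ (V.card * V.card) * V.card := Nat.mul_le_mul_right _ hEc
    _ = V.card ^ 3 := by ring
    _ ≤ (3 * (T \ T').card) ^ 3 := Nat.pow_le_pow_left hVc 3

end MP91a79a

end
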