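import Pool.Agent.Lib.MP_91a79a_co.Coarsen
import Pool.Agent.Lib.MP_91a79a_co.Few

/-!
The reduction theorem (MP_91a79a_co): the existence half `HypE` implies that every triangulation
of `n` points in general position is `o(n)` simultaneous flips away from a Hamiltonian one.
-/

noncomputable section

namespace MP91a79a

open Set Classical

variable {B P : Finset Pt} {C T : Finset (Finset Pt)} {F : ℕ}

/-- `C` is a triangulation of `B ⊆ P`, the hull vertices of `B` are hull vertices of `P`, and all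
sides of `C` are sides of the triangulation `T` of `P` -/
structure Coarse (P B : Finset Pt) (C T : Finset (Finset Pt)) : Prop where
  sub : B ⊆ P
  card : 3 ≤ B.card
  tri : STri B C
  hv : ∀ b ∈ B, HV B b → HV P b
  big : IsTriangulation P T
  ref : ∀ u w, Side C u w → Side T u w

/-- THE EXISTENCE HALF -/
def HypE : Prop :=
  ∀ M : ℕ, ∃ g : ℕ, ∀ (P B : Finset Pt) (C T : Finset (Finset Pt)), GP P → B.card ≤ M →
    Coarse P B C T → ∃ T1 T2, Coarse P B C T1 ∧ IsTriangulation P T2 ∧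
      (graph P T2).IsHamiltonian ∧ (T2 \ T1).card ≤ g

/-- a point outside the hull is separated from it by a hull edge -/
theorem hull_sep (hB : GP B) (h3 : 3 ≤ B.card) {z : Pt} (hz : z ∉ convexHull ℝ (B : Set Pt)) :
    ∃ u w, HE B u w ∧ cr u w z < 0 := by
  have hint := int_nonempty_of_GP hB h3
  obtain ⟨o, ho⟩ := hint
  have hcl : IsClosed (convexHull ℝ (B : Set Pt)) :=
    (B.finite_toSet.isCompact_convexHull ℝ).isClosed
  obtain ⟨z', hz'seg, hz'c, hz'i⟩ : ∃ z' ∈ segment ℝ o z, z' ∈ convexHull ℝ (B : Set Pt) ∧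
      z' ∉ interior (convexHull ℝ (B : Set Pt)) := by
    by_contra hno
    push Not at hno
    have hpre : IsPreconnected (segment ℝ o z) := (convex_segment o z).isPreconnected
    have hsub : segment ℝ o z ⊆
        interior (convexHull ℝ (B : Set Pt)) ∪ (convexHull ℝ (B : Set Pt))ᶜ := by
      intro x hx
      by_cases hxB : x ∈ convexHull ℝ (B : Set Pt)
      · exact Or.inl (hno x hx hxB)
      · exact Or.inr hxB
    obtain ⟨x, -, hx1, hx2⟩ := hpre _ _ isOpen_interior hcl.isOpen_compl hsub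
      ⟨o, left_mem_segment ℝ o z, ho⟩ ⟨z, right_mem_segment ℝ o z, hz⟩
    exact hx2 (interior_subset hx1)
  obtain ⟨u, w, huw, h0⟩ : ∃ u w, HE B u w ∧ cr u w z' = 0 := by
    rcases frontier_hull hB ⟨o, ho⟩ hz'c hz'i with h4 | ⟨u, hu, v, hv, huv, h4, h5⟩
    · have hHV : HV B z' := support_line ⟨o, ho⟩ hz'i
      obtain ⟨b, hb⟩ := hHV.succ hB h4 (by omega)
      exact ⟨z', b, hb, cr_self _ _⟩
    · refine ⟨u, v, ⟨hu, hv, huv, h4⟩, ?_⟩
      obtain ⟨x, y, hx, hy, hxy, rfl⟩ := h5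
      rw [cr_comb2 _ _ _ _ _ _ hxy, cr_self, cr_self']; ring
  refine ⟨u, w, huw, ?_⟩
  have ho' : 0 < cr u w o := pos_of_open huw.2.2.1 isOpen_interior
    (fun x hx => cr_hull_nonneg huw.2.2.2 (interior_subset hx)) ho
  obtain ⟨x, y, hx, hy, hxy, hxyz⟩ := hz'seg
  rw [← hxyz, cr_comb2 _ _ _ _ _ _ hxy] at h0
  have hy0 : 0 < y := by
    rcases hy.lt_or_eq with h | h
    · exact h
    · exfalso
      rw [← h, zero_mul, add_zero] at h0
      have : x = 1 := by linarith
      rw [this] at h0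
      linarith
  have hx0 : 0 < x := by
    rcases hx.lt_or_eq with h | h
    · exact h
    · exfalso
      have : y = 1 := by linarith
      rw [← h, this, zero_smul, one_smul, zero_add] at hxyz
      exact hz (hxyz ▸ hz'c)
  by_contra hcon
  push Not at hcon
  nlinarith [mul_pos hx0 ho', mul_nonneg hy hcon]

/-- faces have their hull edges in every refinement -/
theorem face_hull (hG : GP P) (hBP : B ⊆ P) (hC : STri B C) (href : ∀ u w, Side C u w → Side T u w)
    {t : Finset Pt} (ht : t ∈ C) : ∀ u ∈ pin P t, ∀ v ∈ pin P t, u ≠ v →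
    (∀ w ∈ pin P t, 0 ≤ cr u v w) → Side T u v := by
  intro u hu v hv huv hall
  have htP := (hC.sub t ht).trans hBP
  obtain ⟨huP, hu'⟩ := mem_pin.1 hu
  obtain ⟨hvP, hv'⟩ := mem_pin.1 hv
  have hall' : ∀ x ∈ t, 0 ≤ cr u v x := fun x hx => hall x (sub_pin htP hx)
  have h1 := corner hG htP huP hvP huv hall' hu' (Or.inl rfl)
  have h2 := corner hG htP huP hvP huv hall' hv' (Or.inr rfl)
  exact href u v ⟨huv, t, ht, h1, h2⟩

/-- two triangulations which refine the same coarse triangulation are joined quickly -/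
theorem Coarse.reach (hG : GP P) {T' : Finset (Finset Pt)} (h : Coarse P B C T)
    (h' : Coarse P B C T') (hf : ∀ t ∈ C, (pin P t).card ≤ F)
    (hc : ∀ u w, HE B u w → (capf P u w).card ≤ F) : Reach P (88 * (F + 2)) T T' := by
  have hB := hG.mono h.sub
  have hC := h.tri
  set H := (hes B).filter (fun e => (capf P e.1 e.2).Nonempty) with hH
  set I : Finset (Finset Pt) := C.image (pin P) ∪ H.image (fun e => lft P e.2 e.1) with hI
  have hIm : ∀ Q ∈ I, (∃ t ∈ C, Q = pin P t) ∨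
      ∃ u w, HE B u w ∧ (capf P u w).Nonempty ∧ Q = lft P w u := by
    intro Q hQ
    rcases Finset.mem_union.1 hQ with hQ | hQ
    · obtain ⟨t, ht, rfl⟩ := Finset.mem_image.1 hQ
      exact Or.inl ⟨t, ht, rfl⟩
    · obtain ⟨e, he, rfl⟩ := Finset.mem_image.1 hQ
      obtain ⟨he1, he2⟩ := Finset.mem_filter.1 he
      exact Or.inr ⟨e.1, e.2, mem_hes.1 he1, he2, rfl⟩
  have hchord : ∀ u w, HE B u w → (capf P u w).Nonempty → Chord P w u := by
    intro u w huw ⟨x, hx⟩
    obtain ⟨hxP, hx⟩ := mem_capf.1 hx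
    obtain ⟨y, hy, hyu, hyw⟩ : ∃ y ∈ B, y ≠ u ∧ y ≠ w := by
      by_contra hcon
      push Not at hcon
      have hsub : B ⊆ {u, w} := by
        intro x hx
        by_cases hxa : x = u
        · simp [hxa]
        · simp [hcon x hx hxa]
      have h1 := Finset.card_le_card hsub
      have h2 : ({u, w} : Finset Pt).card ≤ 2 := Finset.card_le_two
      have h3 := h.card
      omega
    refine ⟨hG, h.sub huw.2.1, h.sub huw.1, h.hv _ huw.2.1 huw.hv_right,
      h.hv _ huw.1 huw.hv_left, ⟨x, hxP, by rw [cr_swap]; linarith⟩, ⟨y, h.sub hy, ?_⟩⟩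
    have := huw.pos hB hy hyu hyw
    rw [cr_swap]; linarith
  have hcp : ∀ t ∈ C, convexHull ℝ (pin P t : Set Pt) = convexHull ℝ (t : Set Pt) :=
    fun t ht => conv_pin ((hC.sub t ht).trans h.sub)
  have hhull : ∀ T0, Coarse P B C T0 → ∀ Q ∈ I, ∀ u ∈ Q, ∀ v ∈ Q, u ≠ v →
      (∀ w ∈ Q, 0 ≤ cr u v w) → Side T0 u v := by
    intro T0 h0 Q hQ
    rcases hIm Q hQ with ⟨t, ht, rfl⟩ | ⟨u, w, huw, hne, rfl⟩
    · exact face_hull hG h0.sub h0.tri h0.ref ht
    · exact (hchord u w huw hne).hull h0.big (h0.ref _ _ (huw.side hB hC)).symm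
  have hQP : ∀ Q ∈ I, Q ⊆ P := by
    intro Q hQ
    rcases hIm Q hQ with ⟨t, ht, rfl⟩ | ⟨u, w, huw, hne, rfl⟩
    · exact pin_sub _ _
    · exact lft_sub _ _ _
  have hcard : ∀ Q ∈ I, Q.card ≤ F + 2 := by
    intro Q hQ
    rcases hIm Q hQ with ⟨t, ht, rfl⟩ | ⟨u, w, huw, hne, rfl⟩
    · have := hf t ht
      omega
    · have hsub : lft P w u ⊆ insert u (insert w (capf P u w)) := by
        intro x hx
        obtain ⟨hxP, hx⟩ := mem_lft.1 hx
        by_cases hxu : x = u
        · rw [hxu]; exact Finset.mem_insert_self _ _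
        by_cases hxw : x = w
        · rw [hxw]; exact Finset.mem_insert_of_mem (Finset.mem_insert_self _ _)
        refine Finset.mem_insert_of_mem (Finset.mem_insert_of_mem (mem_capf.2 ⟨hxP, ?_⟩))
        have hne := hG w (h.sub huw.2.1) u (h.sub huw.1) x hxP huw.2.2.1.symm (Ne.symm hxw)
          (Ne.symm hxu)
        have : 0 < cr w u x := lt_of_le_of_ne hx (Ne.symm hne)
        rw [cr_swap]; linarith
      have h1 := Finset.card_le_card hsub
      have h2 := Finset.card_insert_le u (insert w (capf P u w))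
      have h3 := Finset.card_insert_le w (capf P u w)
      have h4 := hc u w huw
      omega
  have hcl : ∀ Q ∈ I, ∀ p ∈ P, p ∈ convexHull ℝ (Q : Set Pt) → p ∈ Q := by
    intro Q hQ p hp hpQ
    rcases hIm Q hQ with ⟨t, ht, rfl⟩ | ⟨u, w, huw, hne, rfl⟩
    · rw [hcp t ht] at hpQ
      exact mem_pin.2 ⟨hp, hpQ⟩
    · exact Chord.lft_closed hp hpQ
  have h3 : ∀ Q ∈ I, 3 ≤ Q.card := by
    intro Q hQ
    rcases hIm Q hQ with ⟨t, ht, rfl⟩ | ⟨u, w, huw, hne, rfl⟩
    · rw [← hC.card t ht]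
      exact Finset.card_le_card (sub_pin ((hC.sub t ht).trans h.sub))
    · exact (hchord u w huw hne).card_lft
  have hd : ∀ Q ∈ I, ∀ Q' ∈ I, Q ≠ Q' → Disjoint (interior (convexHull ℝ (Q : Set Pt)))
      (interior (convexHull ℝ (Q' : Set Pt))) := by
    have hfc : ∀ t ∈ C, ∀ u w, HE B u w →
        Disjoint (interior (convexHull ℝ (pin P t : Set Pt)))
          (interior (convexHull ℝ (lft P w u : Set Pt))) := by
      intro t ht u w huw
      apply disj_of_line huw.2.2.1
      · intro x hx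
        rw [hcp t ht] at hx
        exact cr_hull_nonneg (fun y hy => huw.2.2.2 y (hC.sub t ht hy)) hx
      · intro x hx
        have := Chord.lft_nonneg hx
        rw [cr_swap] at this
        linarith
    intro Q hQ Q' hQ' hne
    rcases hIm Q hQ with ⟨t, ht, rfl⟩ | ⟨u, w, huw, hn, rfl⟩ <;>
      rcases hIm Q' hQ' with ⟨t', ht', rfl⟩ | ⟨u', w', huw', hn', rfl⟩
    · rw [hcp t ht, hcp t' ht']
      exact hC.disj t ht t' ht' (by rintro rfl; exact hne rfl)
    · exact hfc t ht u' w' huw'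
    · exact (hfc t' ht' u w huw).symm
    · rw [Set.disjoint_left]
      intro z hz hz'
      have key : ∀ u w, HE B u w → z ∈ interior (convexHull ℝ (lft P w u : Set Pt)) →
          cr u w z < 0 := by
        intro u w huw hz
        have := pos_of_open huw.2.2.1.symm isOpen_interior
          (fun x hx => Chord.lft_nonneg (interior_subset hx)) hz
        rw [cr_swap]; linarith
      obtain ⟨k1, k2⟩ := cap_disj hG h.sub h.hv huw huw'
        (convexHull_mono (Finset.coe_subset.2 (lft_sub _ _ _)) (interior_subset hz))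
        (key u w huw hz) (key u' w' huw' hz')
      subst k1; subst k2
      exact hne rfl
  have hcov : ∀ z ∈ convexHull ℝ (P : Set Pt), ∃ Q ∈ I, z ∈ convexHull ℝ (Q : Set Pt) := by
    intro z hz
    by_cases hzB : z ∈ convexHull ℝ (B : Set Pt)
    · obtain ⟨t, ht, hzt⟩ := tri_mem_cover hC.toIs hzB
      refine ⟨pin P t, Finset.mem_union_left _ (Finset.mem_image_of_mem _ ht), ?_⟩
      rw [hcp t ht]; exact hzt
    · obtain ⟨u, w, huw, hneg⟩ := hull_sep hB h.card hzB
      have hne : (capf P u w).Nonempty := by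
        by_contra hcon
        rw [Finset.not_nonempty_iff_eq_empty] at hcon
        have hall : ∀ p ∈ P, 0 ≤ cr u w p := by
          intro p hp
          by_contra hc'
          push Not at hc'
          have : p ∈ capf P u w := mem_capf.2 ⟨hp, hc'⟩
          rw [hcon] at this
          exact absurd this (Finset.notMem_empty _)
        have := cr_hull_nonneg hall hz
        linarith
      refine ⟨lft P w u, Finset.mem_union_right _ (Finset.mem_image.2
        ⟨(u, w), Finset.mem_filter.2 ⟨mem_hes.2 huw, hne⟩, rfl⟩), ?_⟩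
      apply (hchord u w huw hne).cover_left hz
      rw [cr_swap]; linarith
  refine Reach.of_restr h.big h'.big I id hQP hG h3 hcl hd hcov (hhull T h) (hhull T' h') _ ?_
  intro Q hQ
  have hrT := h.big.restr (hQP Q hQ) (hG.mono (hQP Q hQ)) (h3 Q hQ) (hcl Q hQ) (hhull T h Q hQ)
  have hrT' := h'.big.restr (hQP Q hQ) (hG.mono (hQP Q hQ)) (h3 Q hQ) (hcl Q hQ) (hhull T' h' Q hQ)
  exact (linear Q (hG.mono (hQP Q hQ)) _ _ hrT hrT').mono
    (Nat.mul_le_mul_left _ (hcard Q hQ))

/-- REDUCTION THEOREM, first form -/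
theorem reduction (hE : HypE) (ε : ℝ) (hε : 0 < ε) : ∃ N : ℕ, ∀ (P : Finset Pt)
    (T : Finset (Finset Pt)), GP P → N ≤ P.card → IsTriangulation P T →
    ∃ k T', Reach P k T T' ∧ (graph P T').IsHamiltonian ∧ (k : ℝ) ≤ ε * P.card := by
  -- choice of M
  obtain ⟨M, hM⟩ := exists_nat_gt (4 * 1741246464 / ε)
  set M' := max M 3 with hM'
  obtain ⟨g, hg⟩ := hE M'
  obtain ⟨N, hN⟩ := exists_nat_gt (((176 + (3 * g) ^ 3 : ℕ) : ℝ) * (2 / ε))
  refine ⟨max N M', ?_⟩
  intro P T hG hPN hT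
  obtain ⟨k, B, C, T', hR, hCS, hB1, hB2, hk⟩ := coarsen hG hT M' (le_max_right _ _)
    ((le_max_right _ _).trans hPN)
  have hco : Coarse P B C T' := ⟨hCS.sub, hB2, hCS.tri, hCS.hv, hR.tri_right, hCS.ref⟩
  obtain ⟨T1, T2, h1, h2, h3, h4⟩ := hg P B C T' hG hB1 hco
  have hR1 := hco.reach hG h1 hCS.fac hCS.cap
  have hR2 := Reach.symm hG (few_triangles hG h2 h1.big)
  refine ⟨_, T2, (hR.trans hR1).trans hR2, h3, ?_⟩
  have hMr : (0 : ℝ) < M' := by
    have : 0 < M' := lt_of_lt_of_le (by norm_num) (le_max_right M 3)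
    exact_mod_cast this
  have hM1 : 4 * 1741246464 < ε * M' := by
    have h5 : (M : ℝ) ≤ M' := by exact_mod_cast le_max_left M 3
    have h6 : 4 * 1741246464 / ε < M' := lt_of_lt_of_le hM h5
    rw [div_lt_iff₀ hε] at h6
    linarith
  have hn0 : (0 : ℝ) ≤ P.card := Nat.cast_nonneg _
  have hk' : (k : ℝ) ≤ ε / 4 * P.card := by
    have h5 : (k : ℝ) * M' ≤ 1741246464 * P.card := by exact_mod_cast hk
    have h6 : (k : ℝ) * M' ≤ (ε / 4 * P.card) * M' := by
      refine h5.trans ?_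
      nlinarith
    exact le_of_mul_le_mul_right h6 hMr
  have hF : (88 * ((736 * P.card / M' : ℕ) : ℝ)) ≤ ε / 4 * P.card := by
    have h5 : ((736 * P.card / M' : ℕ) : ℝ) ≤ ((736 * P.card : ℕ) : ℝ) / M' := Nat.cast_div_le
    push_cast at h5
    have h6 : 88 * (736 * (P.card : ℝ) / M') ≤ ε / 4 * P.card := by
      rw [← mul_div_assoc, div_le_iff₀ hMr]
      nlinarith
    linarith [mul_le_mul_of_nonneg_left h5 (by norm_num : (0 : ℝ) ≤ 88)]
  have hg3 : (((3 * (T2 \ T1).card) ^ 3 : ℕ) : ℝ) ≤ ((3 * g) ^ 3 : ℕ) := by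
    exact_mod_cast Nat.pow_le_pow_left (Nat.mul_le_mul_left 3 h4) 3
  have hNr : (((176 + (3 * g) ^ 3 : ℕ) : ℝ) * (2 / ε)) ≤ P.card := by
    refine hN.le.trans ?_
    exact_mod_cast (le_max_left _ _).trans hPN
  have hNr' : ((176 + (3 * g) ^ 3 : ℕ) : ℝ) ≤ ε / 2 * P.card := by
    have h5 : ((176 + (3 * g) ^ 3 : ℕ) : ℝ) = (((176 + (3 * g) ^ 3 : ℕ) : ℝ) * (2 / ε)) * (ε / 2) := by
      field_simp
    rw [h5]
    nlinarith
  push_cast at hg3 hNr' ⊢
  linarith

/-- any two triangulations are close, so `HypE` gives a Hamiltonian triangulation -/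
theorem exists_ham (hE : HypE) (hG : GP P) (h3 : 3 ≤ P.card) (hT : IsTriangulation P T) :
    ∃ T', Reach P (88 * P.card) T T' ∧ (graph P T').IsHamiltonian := by
  obtain ⟨g, hg⟩ := hE P.card
  have hco : Coarse P P T T := ⟨Finset.Subset.refl _, h3, hT.strict hG, fun _ _ h => h, hT,
    fun _ _ h => h⟩
  obtain ⟨T1, T2, -, h2, h4, -⟩ := hg P P T T hG le_rfl hco
  exact ⟨T2, linear P hG _ _ hT h2, h4⟩

/-- REDUCTION THEOREM, second form: a uniform `o(n)` bound -/
theorem reduction' (hE : HypE) : ∃ f : ℕ → ℕ,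
    (fun n => (f n : ℝ)) =o[Filter.atTop] (fun n => (n : ℝ)) ∧
    ∀ (P : Finset Pt) (T : Finset (Finset Pt)), GP P → 3 ≤ P.card → IsTriangulation P T →
      ∃ k ≤ f P.card, ∃ T', Reach P k T T' ∧ (graph P T').IsHamiltonian := by
  -- the least bound
  have hex : ∀ n : ℕ, ∃ k : ℕ, ∀ (P : Finset Pt) (T : Finset (Finset Pt)), GP P → P.card = n →
      3 ≤ P.card → IsTriangulation P T → ∃ T', Reach P k T T' ∧ (graph P T').IsHamiltonian := by
    intro n
    refine ⟨88 * n, fun P T hG hn h3 hT => ?_⟩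
    rw [← hn]
    exact exists_ham hE hG h3 hT
  refine ⟨fun n => Nat.find (hex n), ?_, ?_⟩
  · rw [Asymptotics.isLittleO_iff]
    intro c hc
    obtain ⟨N, hN⟩ := reduction hE c hc
    rw [Filter.eventually_atTop]
    refine ⟨N, fun n hn => ?_⟩
    have h1 : Nat.find (hex n) ≤ ⌊c * n⌋₊ := by
      apply Nat.find_min'
      intro P T hG hPn h3 hT
      obtain ⟨k, T', hR, hH, hk⟩ := hN P T hG (by omega) hT
      refine ⟨T', hR.mono (Nat.le_floor ?_), hH⟩
      rw [← hPn]; exact hk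
    have h2 : ((Nat.find (hex n) : ℕ) : ℝ) ≤ c * n :=
      le_trans (by exact_mod_cast h1) (Nat.floor_le (by positivity))
    simpa using h2
  · intro P T hG h3 hT
    obtain ⟨T', h1, h2⟩ := Nat.find_spec (hex P.card) P T hG rfl h3 hT
    exact ⟨_, le_rfl, T', h1, h2⟩

end MP91a79a

end
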