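import Pool.Agent.Lib.MP_91a79a_co.StripD

/-!
STRIP THEOREM (section 5 of helper43's proof of `HypE`): if the mixed edges of a coloured
triangulation form one strip and every point is an end of a mixed edge, then boundedly many flips
give a Hamiltonian triangulation.
-/

set_option autoImplicit false

noncomputable section

namespace MP91a79a

open Classical

variable {P : Finset Pt} {T : Finset (Finset Pt)} {col : Option Pt → Bool}

theorem Ctx.card_D {home : Pt → Option Pt × Option Pt} {s : Pt → Pt}
    {e : ℕ → Option Pt × Option Pt} {N : ℕ} (h : Ctx P T col home s e N)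
    (D : Finset (Option Pt × Option Pt))
    (hD : ∀ d, Mx (OT P T) col d → (∀ v ∈ P, En (some v) d →
      ∃ d', d' ≠ d ∧ Mx (OT P T) col d' ∧ En (some v) d') → d ∈ D) :
    ((Finset.range N).filter (fun l => Np P home (e l))).card ≤ D.card := by
  refine Finset.card_le_card_of_injOn e ?_ ?_
  · intro l hl
    obtain ⟨-, hn⟩ := Finset.mem_filter.1 (Finset.mem_coe.1 hl)
    apply hD _ (h.hE.mx l)
    intro v hv _
    exact ⟨home v, hn v hv, h.hH.mx v hv, h.hH.en v hv⟩
  · intro a ha b hb hab
    have ha' := Finset.mem_range.1 (Finset.mem_filter.1 (Finset.mem_coe.1 ha)).1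
    have hb' := Finset.mem_range.1 (Finset.mem_filter.1 (Finset.mem_coe.1 hb)).1
    exact h.hE.lt_inj ha' hb' hab

theorem Ctx.ham {home : Pt → Option Pt × Option Pt} {s : Pt → Pt}
    {e : ℕ → Option Pt × Option Pt} {N : ℕ} (h : Ctx P T col home s e N) (h3 : 3 ≤ P.card)
    (h0 : ¬ Np P home (e 0)) {T' : Finset (Finset Pt)} {y : Pt} (st : St P T col home s e N N T' y) :
    (graph P T').IsHamiltonian := by
  have hmem : ∀ x ∈ Al P T col home e N, x ∈ P := fun x hx => (h.mem_Al.1 hx).1
  obtain ⟨l, hl⟩ : ∃ l : List {x // x ∈ P}, l.map Subtype.val = Al P T col home e N :=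
    CanLift.prf _ hmem
  have hall : ∀ v : {x // x ∈ P}, v ∈ l := by
    intro v
    obtain ⟨k, hk, hke⟩ := h.hE.all (home v) (h.hH.mx v v.2)
    have h1 : (v : Pt) ∈ Al P T col home e N := h.mem_Al.2 ⟨v.2, k, hk, hke.symm⟩
    rw [← hl, List.mem_map] at h1
    obtain ⟨w, hw, hwv⟩ := h1
    rwa [← Subtype.ext hwv]
  have hnd : l.Nodup := by
    apply List.Nodup.of_map (f := Subtype.val)
    rw [hl]; exact h.nodup_Al le_rfl
  have hlen : 3 ≤ l.length := by
    have h1 : l.toFinset = Finset.univ := by ext v; simp [hall v]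
    have h2 := List.toFinset_card_of_nodup hnd
    rw [h1, Finset.card_univ, Fintype.card_coe] at h2
    omega
  refine ham_of_list' l hlen hnd hall ?_ ?_
  · have h1 := st.chain
    rw [← hl, List.isChain_map] at h1
    refine h1.imp ?_
    intro a b hab
    obtain ⟨⟨hne, t, ht, ha, hb⟩, -⟩ := hab
    exact ⟨fun hc => hne (by rw [hc]), t, ht, ha, hb⟩
  · intro x hx x1 hx1
    have hlast := st.last
    rw [← hl, List.getLast?_map, hx] at hlast
    have hxy : (x : Pt) = y := by simpa using hlast
    -- the first vertex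
    have hx1m : x1 ∈ l := List.mem_of_mem_head? hx1
    have hne : x ≠ x1 := by
      rintro rfl
      rcases l with _ | ⟨a, l⟩
      · simp at hx
      · simp only [List.head?_cons, Option.mem_def, Option.some.injEq] at hx1
        subst hx1
        rcases l with _ | ⟨b, l⟩
        · simp at hlen
        · rw [Option.mem_def, List.getLast?_cons_cons] at hx
          have := List.mem_of_mem_getLast? hx
          exact (List.nodup_cons.1 hnd).1 this
    have hhead : (Al P T col home e N).head? = some (x1 : Pt) := by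
      rw [← hl, List.head?_map, hx1]; rfl
    have hx1e : home x1 = e 0 := by
      obtain ⟨M, rfl⟩ : ∃ M, N = M + 1 := ⟨N - 1, by have := h.hE.pos; omega⟩
      -- the list starts with `Ll (e 0)`
      have hst : ∀ k, ∃ r, Al P T col home e (k + 1) = Ll P T col home (e 0) ++ r := by
        intro k
        induction k with
        | zero => exact ⟨[], by simp [Al]⟩
        | succ k ih =>
          obtain ⟨r, hr⟩ := ih
          refine ⟨r ++ Ll P T col home (e (k + 1)), ?_⟩
          rw [← List.append_assoc, ← hr]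
          rfl
      obtain ⟨r, hr⟩ := hst M
      rw [hr] at hhead
      rcases hL : Ll P T col home (e 0) with _ | ⟨a, L⟩
      · exfalso
        apply h0
        intro v hv hve
        have := h.mem_Ll.2 ⟨hv, hve⟩
        rw [hL] at this
        simp at this
      · rw [hL] at hhead
        simp only [List.cons_append, List.head?_cons, Option.some.injEq] at hhead
        have : a ∈ Ll P T col home (e 0) := by rw [hL]; simp
        rw [hhead] at this
        exact (h.mem_Ll.1 this).2
    have hx1n : En (some (x1 : Pt)) (e 0) := by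
      rw [← hx1e]; exact h.hH.en x1 x1.2
    have hxx1 : (x : Pt) ≠ x1 := fun hc => hne (Subtype.ext hc)
    have hside : Side T' (x : Pt) x1 := by
      rcases st.cur with hc | ⟨p, q, hek, hyp, hyq, hmem, hneg, -⟩ | ⟨p, hek, hside, -⟩
      · rw [← hxy, h.hE.per] at hc
        rcases h.en_pair hc hx1n hxx1 with h4 | h4
        · exact st.first _ _ h4
        · exact (st.first _ _ h4).symm
      · rw [h.hE.per] at hek
        rw [hek] at hx1n
        rw [← hxy] at hmem
        refine ⟨hxx1, _, hmem, by simp, ?_⟩
        rcases hx1n with h4 | h4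
        · rw [Option.some.inj h4]; simp
        · rw [Option.some.inj h4]; simp
      · rw [h.hE.per] at hek
        rw [hek] at hx1n
        rw [← hxy] at hside
        rcases hx1n with h4 | h4
        · rw [Option.some.inj h4]; exact hside
        · exact absurd h4 (by simp)
    obtain ⟨-, t, ht, h4, h5⟩ := hside
    exact ⟨hne, t, ht, h4, h5⟩

/-- **Strip theorem.** -/
theorem strip (hP : GP P) (hT : IsTriangulation P T) (h3 : 3 ≤ P.card)
    (hS : ∀ T', STri P T' → Sph (Wp P) (OT P T')) (hcol : col none = false)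
    (hone : ∀ d d', Mx (OT P T) col d → Mx (OT P T) col d' → Orb (OT P T) col d d')
    (hev : ∀ v ∈ P, ∃ d, Mx (OT P T) col d ∧ En (some v) d)
    (D : Finset (Option Pt × Option Pt))
    (hD : ∀ d, Mx (OT P T) col d → (∀ v ∈ P, En (some v) d →
      ∃ d', d' ≠ d ∧ Mx (OT P T) col d' ∧ En (some v) d') → d ∈ D) :
    ∃ T2, IsTriangulation P T2 ∧ (graph P T2).IsHamiltonian ∧ (T2 \ T).card ≤ 2 * D.card := by
  have hT' : STri P T := hT.strict hP
  obtain ⟨home, s, hH⟩ := exists_home hP hT' (hS T hT') (by omega) hcol hone hev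
  obtain ⟨v0, hv0⟩ : P.Nonempty := Finset.card_pos.1 (by omega)
  obtain ⟨e, N, hE, he0⟩ := exists_seq (hS T hT') (hH.mx v0 hv0)
    (fun d hd => hone _ _ (hH.mx v0 hv0) hd)
  have h : Ctx P T col home s e N := ⟨hP, hT', hS, hcol, hH, hE⟩
  have h0 : ¬ Np P home (e 0) := fun hc => hc v0 hv0 he0.symm
  obtain ⟨T2, y, st⟩ := h.all h0
  exact ⟨T2, st.tri.toIs, h.ham h3 h0 st, st.card.trans (Nat.mul_le_mul le_rfl (h.card_D D hD))⟩

end MP91a79a

end
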