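import Pool.Agent.Lib.MP_91a79a_co.Inst
import Pool.Agent.Lib.MP_91a79a_co.Strip

/-!
From a coloured refinement (`Sec3`) to a Hamiltonian triangulation with few new triangles
(MP_91a79a_co).
-/

noncomputable section

namespace MP91a79a

open Set Classical

variable {P B : Finset Pt} {G : Pt → Pt → Prop} {col : Option Pt → Bool}
  {Tc T' : Finset (Finset Pt)} {Kr : Option Pt → Option Pt → Prop}

theorem exists_HE (hG : GP B) (h3 : 2 ≤ B.card) : ∃ u w, HE B u w := by
  obtain ⟨v, hv, α, β, h0, hmin⟩ := exists_extreme B (Finset.card_pos.1 (by omega))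
  have hv' : HV B v := by
    refine ⟨-α, -β, by rcases h0 with h | h; exacts [Or.inl (neg_ne_zero.2 h), Or.inr (neg_ne_zero.2 h)],
      fun w hw => ?_⟩
    by_cases hwv : w = v
    · rw [hwv]
    · have := hmin w hw hwv
      unfold lf at this ⊢
      linarith
  obtain ⟨b, hb⟩ := hv'.succ hG hv h3
  exact ⟨v, b, hb⟩

/-- orbits are symmetric -/
theorem Sph.orb_both {V : Type*} {W : Finset V} {O : V → V → V → Prop} (hO : Sph W O)
    {col : V → Bool} {e d d' : V × V} (he : Mx O col e) (h1 : Orb O col e d)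
    (h2 : Orb O col e d') : Orb O col d d' := by
  obtain ⟨n, hn⟩ := h1
  obtain ⟨m, hm⟩ := h2
  obtain ⟨N, hN0, hN⟩ := hO.period he
  have hper : ∀ k, (nxt O col)^[k * N] e = e := by
    intro k
    induction k with
    | zero => simp
    | succ k ih => rw [Nat.succ_mul, Function.iterate_add_apply, hN, ih]
  refine ⟨m + n * N - n, ?_⟩
  have hle : n ≤ m + n * N := by nlinarith
  rw [← hn, ← Function.iterate_add_apply, Nat.sub_add_cancel hle, Function.iterate_add_apply,
    hper, hm]

namespace Sec3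

variable (h : Sec3 P B G col Tc Kr)

include h

/-- a mixed fixed edge -/
theorem exists_mixed (hB3 : 2 ≤ B.card) : ∃ e : Option Pt × Option Pt,
    XE P B G col Tc e.1 e.2 ∧ col e.1 = true ∧ col e.2 = false := by
  obtain ⟨u, w, huw⟩ := exists_HE (h.gp.mono h.sub) hB3
  have huP : HV P u := h.hv u huw.1 huw.hv_left
  have hwP : HV P w := h.hv w huw.2.1 huw.hv_right
  have x1 : XE P B G col Tc none (some u) :=
    h.xe_none ((ed_none h.gp h.tri h.card u).2 ⟨h.sub huw.1, huP⟩)
  have x2 : XE P B G col Tc none (some w) :=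
    h.xe_none ((ed_none h.gp h.tri h.card w).2 ⟨h.sub huw.2.1, hwP⟩)
  have x3 : XE P B G col Tc (some u) (some w) :=
    ⟨(ed_iff_side h.gp h.tri h.card u w).2 (h.GT _ _ (h.hHE _ _ huw)), fun _ _ _ => h.hHE _ _ huw⟩
  have pick : ∀ a b : Option Pt, XE P B G col Tc a b → col a ≠ col b →
      ∃ e : Option Pt × Option Pt, XE P B G col Tc e.1 e.2 ∧ col e.1 = true ∧ col e.2 = false := by
    intro a b hab hne
    rcases bool_ne hne with ⟨h1, h2⟩ | ⟨h1, h2⟩
    · exact ⟨(a, b), hab, h1, h2⟩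
    · exact ⟨(b, a), h.xe_symm _ _ hab, h2, h1⟩
  by_cases c1 : col none = col (some u)
  · by_cases c2 : col none = col (some w)
    · exfalso
      have c3 : col (some u) = col (some w) := c1.symm.trans c2
      have hne : (some u : Option Pt) ≠ some w := fun hc => huw.2.2.1 (Option.some.inj hc)
      let D : Option Pt → Option Pt → Prop := fun x y => x ≠ y ∧
        (x = none ∨ x = some u ∨ x = some w) ∧ (y = none ∨ y = some u ∨ y = some w)
      refine h.ac D ?_ ?_ ?_ none (some u) ⟨by simp, Or.inl rfl, Or.inr (Or.inl rfl)⟩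
      · rintro x y ⟨a, b, c⟩
        exact ⟨a.symm, c, b⟩
      · rintro x y ⟨a, b, c⟩
        rcases b with rfl | rfl | rfl <;> rcases c with rfl | rfl | rfl
        · exact absurd rfl a
        · exact ⟨⟨huw.1, huw.hv_left⟩, c1⟩
        · exact ⟨⟨huw.2.1, huw.hv_right⟩, c2⟩
        · exact ⟨⟨huw.1, huw.hv_left⟩, c1.symm⟩
        · exact absurd rfl a
        · exact ⟨h.hHE _ _ huw, c3⟩
        · exact ⟨⟨huw.2.1, huw.hv_right⟩, c2.symm⟩
        · exact ⟨h.Gs _ _ (h.hHE _ _ huw), c3.symm⟩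
        · exact absurd rfl a
      · rintro x y ⟨a, b, c⟩
        -- the third vertex
        rcases b with rfl | rfl | rfl <;> rcases c with rfl | rfl | rfl
        · exact absurd rfl a
        · exact ⟨some w, hne.symm, by simp, Or.inl rfl, Or.inr (Or.inr rfl)⟩
        · exact ⟨some u, hne, by simp, Or.inl rfl, Or.inr (Or.inl rfl)⟩
        · exact ⟨some w, by simp, hne, Or.inr (Or.inl rfl), Or.inr (Or.inr rfl)⟩
        · exact absurd rfl a
        · exact ⟨none, by simp, by simp, Or.inr (Or.inl rfl), Or.inl rfl⟩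
        · exact ⟨some u, by simp, hne.symm, Or.inr (Or.inr rfl), Or.inr (Or.inl rfl)⟩
        · exact ⟨none, by simp, by simp, Or.inr (Or.inr rfl), Or.inl rfl⟩
        · exact absurd rfl a
    · exact pick _ _ x2 c2
  · exact pick _ _ x1 c1

/-- the star of a point outside `Ds` never changes -/
theorem star_keep (hT' : STri P T') (hX : ∀ a b, XE P B G col Tc a b → Ed (OT P T') a b)
    {x : Pt} (hx : x ∈ P) (hxB : x ∉ B)
    (h2 : ∀ d d', OT P Tc (some x) d d' → ¬ (d ∈ Wp B ∧ d' ∈ Wp B)) {y z : Option Pt}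
    (ho : OT P T' (some x) y z) : OT P Tc (some x) y z := by
  have hS' := OT_sph h.gp hT' h.card
  have hxW : (some x : Option Pt) ∉ Wp B := fun hc => hxB (mem_Wp_some.1 hc)
  have step : ∀ y w w0, OT P T' (some x) y w → OT P Tc (some x) y w0 → w = w0 := by
    intro y w w0 h1 h3
    have k1 : XE P B G col Tc (some x) y := xe_body (Or.inl hxW) ⟨_, h3⟩
    have k2 : XE P B G col Tc y w0 := by
      refine xe_body ?_ ⟨_, h.sph.rot _ _ _ h3⟩
      by_contra hc
      push Not at hc
      exact h2 _ _ h3 hc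
    have k3 : XE P B G col Tc w0 (some x) := xe_body (Or.inr hxW) ⟨_, h.sph.rot2 h3⟩
    exact hS'.fn _ _ _ _ h1 (h.keep_tri hT' hX h3 k1 k2 k3)
  have key := hS'.link (some x) (fun y => Ed (OT P Tc) (some x) y) (by
    obtain ⟨y0, z0, h0⟩ := h.sph.vert (some x) (mem_Wp_some.2 hx)
    obtain ⟨w, hw⟩ := hX _ _ (xe_body (B := B) (G := G) (col := col) (Or.inl hxW) ⟨_, h0⟩)
    exact ⟨y0, w, ⟨z0, h0⟩, hw⟩) (by
    rintro y w ⟨w0, h0⟩ h1
    rw [step y w w0 h1 h0]
    exact h.sph.ed_symm ⟨y, h.sph.rot2 h0⟩)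
  obtain ⟨w0, hw0⟩ := key y z ho
  rw [step y z w0 ho hw0]
  exact hw0

/-- the final theorem of sections 4 and 5 -/
theorem ham (hcn : col none = false) (hB3 : 2 ≤ B.card) (Ds : Finset Pt) (hBD : B ⊆ Ds)
    (h1 : ∀ x ∈ P, x ∉ Ds → ∀ d d', Ed (OT P Tc) (some x) d → Ed (OT P Tc) (some x) d' →
      col d ≠ col (some x) → col d' ≠ col (some x) → d = d')
    (h2 : ∀ x ∈ P, x ∉ Ds → ∀ d d', OT P Tc (some x) d d' → ¬ (d ∈ Wp B ∧ d' ∈ Wp B)) :
    ∃ T2, IsTriangulation P T2 ∧ (graph P T2).IsHamiltonian ∧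
      (T2 \ Tc).card ≤ 2 * (Ds.card + 1) ^ 2 + 2 ^ Ds.card := by
  obtain ⟨e, heX, he1, he2⟩ := h.exists_mixed hB3
  obtain ⟨O, ⟨T', hT', hX, rfl⟩, hone, hev⟩ := h.flex.main heX he1 he2
  have hS' := OT_sph h.gp hT' h.card
  have he : Mx (OT P T') col e := ⟨hX _ _ heX, he1, he2⟩
  have star : ∀ x ∈ P, x ∉ Ds → ∀ y z, OT P T' (some x) y z → OT P Tc (some x) y z :=
    fun x hx hxD y z ho => h.star_keep hT' hX hx (fun hc => hxD (hBD hc)) (h2 x hx hxD) ho
  have fin1 : ∀ a b : Option Pt, Mx (OT P T') col (a, b) → ∀ x, a = some x → x ∉ Ds →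
      ∀ b', Mx (OT P T') col (a, b') → b = b' := by
    rintro a b hab x rfl hxD b' hab'
    have hx : x ∈ P := by
      have := hS'.ed_mem hab.1
      exact mem_Wp_some.1 this
    obtain ⟨⟨z, hz⟩, c1, c2⟩ := hab
    obtain ⟨⟨z', hz'⟩, c1', c2'⟩ := hab'
    simp only at c1 c2 c1' c2' hz hz'
    exact h1 x hx hxD b b' ⟨z, star x hx hxD _ _ hz⟩ ⟨z', star x hx hxD _ _ hz'⟩
      (by rw [c1, c2]; simp) (by rw [c1, c2']; simp)
  have fin2 : ∀ a b : Option Pt, Mx (OT P T') col (a, b) → ∀ x, b = some x → x ∉ Ds →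
      ∀ a', Mx (OT P T') col (a', b) → a = a' := by
    rintro a b hab x rfl hxD a' hab'
    have hx : x ∈ P := by
      have := hS'.ed_mem (hS'.ed_symm hab.1)
      exact mem_Wp_some.1 this
    obtain ⟨z, hz⟩ := hS'.ed_symm hab.1
    obtain ⟨z', hz'⟩ := hS'.ed_symm hab'.1
    obtain ⟨-, c1, c2⟩ := hab
    obtain ⟨-, c1', c2'⟩ := hab'
    simp only at c1 c2 c1' c2' hz hz'
    exact h1 x hx hxD a a' ⟨z, star x hx hxD _ _ hz⟩ ⟨z', star x hx hxD _ _ hz'⟩
      (by rw [c1, c2]; simp) (by rw [c1', c2]; simp)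
  obtain ⟨T2, t1, t2, t3⟩ := strip h.gp hT'.toIs h.card (fun T'' h'' => OT_sph h.gp h'' h.card) hcn
    (fun d d' hd hd' => hS'.orb_both he (hone d hd) (hone d' hd')) (by
      intro v hv
      obtain ⟨y, hy, hc⟩ := hev (some v) (mem_Wp_some.2 hv)
      rcases bool_ne hc with ⟨c1, c2⟩ | ⟨c1, c2⟩
      · exact ⟨(y, some v), ⟨hS'.ed_symm hy, c1, c2⟩, Or.inr rfl⟩
      · exact ⟨(some v, y), ⟨hy, c2, c1⟩, Or.inl rfl⟩) (Wp Ds ×ˢ Wp Ds) (by
      rintro ⟨a, b⟩ hd hall
      refine Finset.mem_product.2 ⟨?_, ?_⟩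
      · rcases a with _ | x
        · exact none_mem_Wp
        · by_contra hxD
          have hxD' : x ∉ Ds := fun hc => hxD (mem_Wp_some.2 hc)
          have hx : x ∈ P := mem_Wp_some.1 (hS'.ed_mem hd.1)
          obtain ⟨⟨a', b'⟩, hne, hm, hen⟩ := hall x hx (Or.inl rfl)
          have ha : a' = some x := by
            rcases hen with hen | hen
            · exact hen.symm
            · exfalso
              have c1 := hd.2.1
              have c2 := hm.2.2
              simp only at c1 c2 hen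
              rw [← hen, c1] at c2
              cases c2
          subst ha
          apply hne
          rw [fin1 _ _ hd x rfl hxD' b' hm]
      · rcases b with _ | x
        · exact none_mem_Wp
        · by_contra hxD
          have hxD' : x ∉ Ds := fun hc => hxD (mem_Wp_some.2 hc)
          have hx : x ∈ P := mem_Wp_some.1 (hS'.ed_mem (hS'.ed_symm hd.1))
          obtain ⟨⟨a', b'⟩, hne, hm, hen⟩ := hall x hx (Or.inr rfl)
          have hb : b' = some x := by
            rcases hen with hen | hen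
            · exfalso
              have c1 := hd.2.2
              have c2 := hm.2.1
              simp only at c1 c2 hen
              rw [← hen, c1] at c2
              cases c2
            · exact hen.symm
          subst hb
          apply hne
          rw [fin2 _ _ hd x rfl hxD' a' hm])
  refine ⟨T2, t1, t2, ?_⟩
  have hsub : T2 \ Tc ⊆ (T2 \ T') ∪ Ds.powerset := by
    intro t ht
    obtain ⟨ht2, htc⟩ := Finset.mem_sdiff.1 ht
    by_cases htT' : t ∈ T'
    · refine Finset.mem_union_right _ (Finset.mem_powerset.2 ?_)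
      intro x hx
      by_contra hxD
      have hxP : x ∈ P := hT'.sub _ htT' hx
      obtain ⟨a, b, c, rfl, h0⟩ := repr_tri (hT'.card t htT') (hT'.nondeg t htT')
      have key : ∀ a b c : Pt, {a, b, c} ∈ T' → 0 < cr a b c → x = a → {a, b, c} ∈ Tc := by
        rintro a b c hm h0 rfl
        exact (star x hxP hxD (some b) (some c) ⟨hm, h0⟩).1
      simp only [Finset.mem_insert, Finset.mem_singleton] at hx
      rcases hx with hx | hx | hx
      · exact htc (key a b c htT' h0 hx)
      · apply htc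
        rw [← perm_bca]
        exact key b c a (by rw [perm_bca]; exact htT') (by rw [← cr_rot]; exact h0) hx
      · apply htc
        rw [← perm_cab]
        exact key c a b (by rw [perm_cab]; exact htT') (by rw [cr_rot]; exact h0) hx
    · exact Finset.mem_union_left _ (Finset.mem_sdiff.2 ⟨ht2, htT'⟩)
  have hW : (Wp Ds).card ≤ Ds.card + 1 := by
    unfold Wp
    refine (Finset.card_insert_le _ _).trans ?_
    exact Nat.add_le_add_right Finset.card_image_le 1
  calc (T2 \ Tc).card ≤ ((T2 \ T') ∪ Ds.powerset).card := Finset.card_le_card hsub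
    _ ≤ (T2 \ T').card + Ds.powerset.card := Finset.card_union_le _ _
    _ ≤ 2 * (Wp Ds ×ˢ Wp Ds).card + 2 ^ Ds.card := by
        rw [Finset.card_powerset]
        exact Nat.add_le_add_right t3 _
    _ ≤ 2 * (Ds.card + 1) ^ 2 + 2 ^ Ds.card := by
        rw [Finset.card_product, sq]
        exact Nat.add_le_add_right (Nat.mul_le_mul_left 2 (Nat.mul_le_mul hW hW)) _

end Sec3

end MP91a79a

end
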