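import Pool.Agent.Lib.MP_91a79a_co.Fin3
import Pool.Agent.Lib.MP_91a79a_co.E.Def

/-!
The existence half `HypE` from section 3 (MP_91a79a_co).
-/

noncomputable section

namespace MP91a79a

open Set Classical

/-- the output of section 3 -/
def Section3 : Prop := ∀ (P B : Finset Pt) (C T0 : Finset (Finset Pt)), GP P → Coarse P B C T0 →
  ∃ (G : Pt → Pt → Prop) (col : Option Pt → Bool) (Tc : Finset (Finset Pt))
    (Kr : Option Pt → Option Pt → Prop), Coarse P B C Tc ∧ Sec3 P B G col Tc Kr ∧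
      col none = false ∧ Qone P B Tc col

theorem hypE_of (hs : Section3) (hcard : ∀ (P B : Finset Pt) (T : Finset (Finset Pt)),
    (Dst P B T).card ≤ B.card + (B.card + 1) ^ 2) : HypE := by
  intro M
  refine ⟨2 * (M + (M + 1) ^ 2 + 1) ^ 2 + 2 ^ (M + (M + 1) ^ 2), ?_⟩
  intro P B C T hG hM hco
  obtain ⟨G, col, Tc, Kr, hcoc, hsec, hcn, hq⟩ := hs P B C T hG hco
  obtain ⟨T2, t1, t2, t3⟩ := hsec.ham hcn (by have := hco.card; omega) (Dst P B Tc)
    Finset.subset_union_left (fun x hx hxD d d' h1 h2 c1 c2 => hq x hx hxD d d' h1 h2 c1 c2)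
    (by
      intro x hx hxD d d' ho hdd
      apply hxD
      refine Finset.mem_union_right _ (Finset.mem_filter.2 ⟨hx, d, hdd.1, d', hdd.2, ?_⟩)
      exact OT_rot _ _ _ ho)
  refine ⟨Tc, T2, hcoc, t1, t2, t3.trans ?_⟩
  have hD : (Dst P B Tc).card ≤ M + (M + 1) ^ 2 :=
    (hcard P B Tc).trans (Nat.add_le_add hM (Nat.pow_le_pow_left (Nat.add_le_add_right hM 1) 2))
  exact Nat.add_le_add (Nat.mul_le_mul_left 2 (Nat.pow_le_pow_left (Nat.add_le_add_right hD 1) 2))
    (Nat.pow_le_pow_right (by norm_num) hD)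

end MP91a79a

end
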