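import Pool.Agent.Lib.MP_91a79a_co.Linear

/-!
Existence of flippable edges at a vertex (MP_91a79a_co): coarsening, part 1.
-/

noncomputable section

namespace MP91a79a

open Set

/-- the Pluecker relation for four vectors at `v` -/
theorem cr_pl (v x p u y : Pt) :
    cr v x p * cr v u y = cr v x u * cr v p y + cr v u p * cr v x y := by
  unfold cr; ring

theorem cr_neg (v x y : Pt) : cr v x y = - cr v y x := by unfold cr; ring

variable {B : Finset Pt} {C : Finset (Finset Pt)}

/-- no side at `v` enters a triangle at `v` -/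
theorem STri.no_side_in (hC : STri B C) {v u p y : Pt} (ht : {v, u, p} ∈ C)
    (hy : Side C v y) (h1 : 0 < cr v u y) (h2 : 0 < cr v y p) (h0 : 0 < cr v u p) : False := by
  have hyB : y ∈ B := (Side.mem hC hy).2
  have hup : u ≠ p := (ne_of_cr h0.ne').2.2
  rcases lt_or_ge (cr u p y) 0 with h | h
  · have hs : Side C u p := ⟨hup, _, ht, by simp, by simp⟩
    apply hC.noCross hy hs
    refine ⟨?_, ?_⟩
    · have : cr v y u = - cr v u y := cr_neg _ _ _
      rw [this]; nlinarith
    · have : cr u p v = cr v u p := by unfold cr; ring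
      rw [this]; nlinarith
  · have hmem : y ∈ ({v, u, p} : Finset Pt) := by
      apply hC.strict _ ht y hyB
      rw [coe3]
      refine mem_hull_of_cr h0 h1.le h ?_
      have : cr p v y = cr v y p := by unfold cr; ring
      rw [this]; exact h2.le
    simp only [Finset.mem_insert, Finset.mem_singleton] at hmem
    rcases hmem with rfl | rfl | rfl
    · exact hy.1 rfl
    · rw [cr_self'] at h1; exact lt_irrefl _ h1
    · rw [cr_self'] at h2; exact lt_irrefl _ h2

/-- a flippable edge at `v` -/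
def FlipAt (C : Finset (Finset Pt)) (v : Pt) : Prop :=
  ∃ u p q, {v, u, p} ∈ C ∧ {v, u, q} ∈ C ∧ Cross v u p q

/-- the criterion used to flip: `u` is between `q` and `p` seen from `v` and beyond the line `qp` -/
theorem cross_of_cr {v u p q : Pt} (h1 : 0 < cr v u p) (h2 : cr v u q < 0) (h3 : 0 < cr v q p)
    (h4 : cr q p u < 0) : Cross v u p q := by
  refine ⟨by nlinarith, ?_⟩
  have e1 : cr p q v = - cr v q p := by unfold cr; ring
  have e2 : cr p q u = - cr q p u := by unfold cr; ring
  rw [e1, e2]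
  nlinarith

/-- LEMMA 1: a vertex of the link beyond a chord gives a flippable edge -/
theorem STri.fan_flip (hB : GP B) (hC : STri B C) {v x y u : Pt} (hx : Side C v x)
    (hy : Side C v y) (hxy : 0 < cr v x y) (hu : Side C v u) (h1 : 0 < cr v x u)
    (h2 : 0 < cr v u y) (h3 : cr x y u < 0) : FlipAt C v := by
  classical
  have hvB := (Side.mem hC hx).1
  have hxB := (Side.mem hC hx).2
  have hyB := (Side.mem hC hy).2
  set S := B.filter (fun u => Side C v u ∧ 0 < cr v x u ∧ 0 < cr v u y) with hS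
  have hSne : S.Nonempty := ⟨u, Finset.mem_filter.2 ⟨(Side.mem hC hu).2, hu, h1, h2⟩⟩
  obtain ⟨w, hwS, hwmin⟩ := Finset.exists_min_image S (fun w => cr x y w) hSne
  obtain ⟨hwB, hw, w1, w2⟩ := Finset.mem_filter.1 hwS
  have hwu := hwmin u (Finset.mem_filter.2 ⟨(Side.mem hC hu).2, hu, h1, h2⟩)
  have w3 : cr x y w < 0 := lt_of_le_of_lt hwu h3
  have w1' : cr v w x < 0 := by rw [cr_neg]; linarith
  obtain ⟨p, hp, hp'⟩ := hC.other hB hw hyB w2.ne'
  obtain ⟨q, hq, hq'⟩ := hC.other hB hw hxB w1'.ne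
  have p0 : 0 < cr v w p := by nlinarith
  have q0 : cr v w q < 0 := by nlinarith
  have hpB : p ∈ B := hC.sub _ hp (by simp)
  have hqB : q ∈ B := hC.sub _ hq (by simp)
  have hqw : 0 < cr v q w := by rw [cr_neg]; linarith
  -- p is before y
  have hpy : 0 ≤ cr v p y := by
    by_contra hcon
    push Not at hcon
    exact hC.no_side_in hp hy w2 (by rw [cr_neg]; linarith) p0
  have hq2 : ({v, q, w} : Finset Pt) ∈ C := by
    have : ({v, q, w} : Finset Pt) = {v, w, q} := by
      ext z; simp only [Finset.mem_insert, Finset.mem_singleton]; tauto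
    rw [this]; exact hq
  have hxq : 0 ≤ cr v x q := by
    by_contra hcon
    push Not at hcon
    exact hC.no_side_in hq2 hx (by rw [cr_neg]; linarith) w1 hqw
  -- p, q in the cone
  have hxp : 0 < cr v x p := by
    have := cr_pl v x p w y
    have h5 : 0 < cr v x w * cr v p y + cr v w p * cr v x y := by positivity
    rw [← this] at h5
    exact (pos_iff_pos_of_mul_pos h5).2 w2
  have hqy : 0 < cr v q y := by
    have := cr_pl v x w q y
    have h5 : 0 < cr v x q * cr v w y + cr v q w * cr v x y := by positivity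
    rw [← this] at h5
    exact (pos_iff_pos_of_mul_pos h5).1 w1
  have hqp : 0 < cr v q p := by
    have := cr_pl v q p w y
    have h5 : 0 < cr v q w * cr v p y + cr v w p * cr v q y := by positivity
    rw [← this] at h5
    exact (pos_iff_pos_of_mul_pos h5).2 w2
  have hSp : Side C v p := ⟨(ne_of_cr p0.ne').2.1, _, hp, by simp, by simp⟩
  have hSq : Side C v q := ⟨(ne_of_cr q0.ne).2.1, _, hq, by simp, by simp⟩
  have fp : cr x y w ≤ cr x y p := by
    by_cases hpe : cr v p y = 0
    · rcases hB.mem_of_cr hvB hyB hpB hy.1 (by rw [cr_neg, hpe]; simp) with h | h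
      · exact absurd h.symm hSp.1
      · rw [h, cr_self']; exact w3.le
    · exact hwmin p (Finset.mem_filter.2 ⟨hpB, hSp, hxp, lt_of_le_of_ne hpy (Ne.symm hpe)⟩)
  have fq : cr x y w ≤ cr x y q := by
    by_cases hqe : cr v x q = 0
    · rcases hB.mem_of_cr hvB hxB hqB hx.1 hqe with h | h
      · exact absurd h.symm hSq.1
      · rw [h, cr_self]; exact w3.le
    · exact hwmin q (Finset.mem_filter.2 ⟨hqB, hSq, lt_of_le_of_ne hxq (Ne.symm hqe), hqy⟩)
  have hne : cr q p w ≠ 0 := by
    apply hB q hqB p hpB w hwB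
    · rintro rfl; rw [cr_self'] at hqp; exact lt_irrefl _ hqp
    · rintro rfl; rw [cr_self'] at q0; exact lt_irrefl _ q0
    · rintro rfl; rw [cr_self'] at p0; exact lt_irrefl _ p0
  refine ⟨w, p, q, hp, hq, cross_of_cr p0 q0 hqp ?_⟩
  by_contra hcon
  have hpos : 0 < cr q p w := lt_of_le_of_ne (not_lt.1 hcon) (Ne.symm hne)
  have hb := cr_bary v q p x y w
  have hs := cr_sum v q p w
  have e1 : cr p v w = cr v w p := by unfold cr; ring
  have e2 : cr x y v = cr v x y := by unfold cr; ring
  rw [e1] at hb hs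
  rw [e2] at hb
  nlinarith [mul_nonneg p0.le (sub_nonneg.2 fq), mul_nonneg hqw.le (sub_nonneg.2 fp),
    mul_pos hpos (by linarith : 0 < cr v x y - cr x y w)]

/-- LEMMA 1': an extreme vertex of the link with angle `< 180` at `v` -/
theorem STri.extreme_flip (hB : GP B) (hC : STri B C) {v u p q : Pt} (hp : {v, u, p} ∈ C)
    (hq : {v, u, q} ∈ C) (p0 : 0 < cr v u p) (q0 : cr v u q < 0) (hqp : 0 < cr v q p)
    {f : Pt → ℝ} (hf : ∀ a b c x : Pt, cr a b c * f x = cr b c x * f a + cr c a x * f b +
      cr a b x * f c) (fv : f v < f u) (fp : f p ≤ f u) (fq : f q ≤ f u) : FlipAt C v := by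
  have hpB : p ∈ B := hC.sub _ hp (by simp)
  have hqB : q ∈ B := hC.sub _ hq (by simp)
  have huB : u ∈ B := hC.sub _ hq (by simp)
  have hne : cr q p u ≠ 0 := by
    apply hB q hqB p hpB u huB
    · rintro rfl; rw [cr_self'] at hqp; exact lt_irrefl _ hqp
    · rintro rfl; rw [cr_self'] at q0; exact lt_irrefl _ q0
    · rintro rfl; rw [cr_self'] at p0; exact lt_irrefl _ p0
  refine ⟨u, p, q, hp, hq, cross_of_cr p0 q0 hqp ?_⟩
  by_contra hcon
  have hpos : 0 < cr q p u := lt_of_le_of_ne (not_lt.1 hcon) (Ne.symm hne)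
  have hb := hf v q p u
  have hs := cr_sum v q p u
  have e1 : cr p v u = cr v u p := by unfold cr; ring
  have e3 : cr v q u = - cr v u q := by unfold cr; ring
  rw [e1, e3] at hb hs
  rw [← hs] at hb
  have k1 := mul_nonneg p0.le (sub_nonneg.2 fq)
  have k2 := mul_nonneg (neg_pos.2 q0).le (sub_nonneg.2 fp)
  have k3 := mul_pos hpos (sub_pos.2 fv)
  ring_nf at hb k1 k2 k3
  linarith

theorem lf_bary (α β : ℝ) (a b c x : Pt) : cr a b c * lf α β x = cr b c x * lf α β a +
    cr c a x * lf α β b + cr a b x * lf α β c := by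
  unfold cr lf; ring

/-- both apexes exist at a vertex which is not on the hull -/
theorem STri.apex (hB : GP B) (hC : STri B C) {v u : Pt} (hv : ¬ HV B v) (hu : Side C v u) :
    (∃ p, {v, u, p} ∈ C ∧ 0 < cr v u p ∧ Side C v p) ∧
    (∃ q, {v, u, q} ∈ C ∧ cr v u q < 0 ∧ Side C v q) := by
  constructor
  · have : ∃ x ∈ B, 0 < cr v u x := by
      by_contra hcon
      push Not at hcon
      exact hv (HV.of_cr' hu.1 fun w hw => by rw [cr_swap]; linarith [hcon w hw])
    obtain ⟨x, hx, hx0⟩ := this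
    obtain ⟨p, hp, hp0⟩ := hC.other hB hu hx hx0.ne'
    have h0 : 0 < cr v u p := (pos_iff_pos_of_mul_pos hp0).2 hx0
    exact ⟨p, hp, h0, (ne_of_cr h0.ne').2.1, _, hp, by simp, by simp⟩
  · have : ∃ x ∈ B, cr v u x < 0 := by
      by_contra hcon
      push Not at hcon
      exact hv (HV.of_cr hu.1 fun w hw => hcon w hw)
    obtain ⟨x, hx, hx0⟩ := this
    obtain ⟨p, hp, hp0⟩ := hC.other hB hu hx hx0.ne
    have h0 : cr v u p < 0 := (neg_iff_neg_of_mul_pos hp0).2 hx0
    exact ⟨p, hp, h0, (ne_of_cr h0.ne).2.1, _, hp, by simp, by simp⟩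

/-- the link of an interior vertex surrounds it -/
theorem STri.surround (hC : STri B C) {v : Pt} (hvB : v ∈ B) (hv : ¬ HV B v)
    {α β : ℝ} (h0 : α ≠ 0 ∨ β ≠ 0) : ∃ u, Side C v u ∧ lf α β v < lf α β u := by
  by_contra hcon
  push Not at hcon
  obtain ⟨w, hw, hwv⟩ : ∃ w ∈ B, lf α β v < lf α β w := by
    by_contra hc
    push Not at hc
    exact hv ⟨α, β, h0, hc⟩
  obtain ⟨t, ht, hvt, s, hs, hst⟩ := hC.germ (m := v) (w := w - v) (by
    intro s hs0 hs1
    have e : v + s • (w - v) = (1 - s) • v + s • w := by module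
    rw [e]
    exact (convex_convexHull ℝ _) (subset_convexHull _ _ hvB) (subset_convexHull _ _ hw)
      (by linarith) hs0.le (by ring))
  have hvt' := hC.strict t ht v hvB hvt
  have hle : ∀ x ∈ t, lf α β x ≤ lf α β v := by
    intro x hx
    by_cases hxv : x = v
    · rw [hxv]
    · exact hcon x ⟨fun h => hxv h.symm, t, ht, hvt', hx⟩
  have h1 := lf_hull_le hle hst
  rw [lf_add, lf_smul, sub_eq_add_neg, lf_add] at h1
  have h2 : lf α β (-v) = - lf α β v := by unfold lf; simp; ring
  rw [h2] at h1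
  nlinarith

/-- LEMMA 2: an interior vertex with at least four neighbours has a flippable edge -/
theorem STri.int_flip (hB : GP B) (hC : STri B C) {v : Pt} (hvB : v ∈ B) (hv : ¬ HV B v)
    (h4 : ∀ a b c : Pt, ∃ x, Side C v x ∧ x ≠ a ∧ x ≠ b ∧ x ≠ c) : FlipAt C v := by
  classical
  set L := B.filter (fun u => Side C v u) with hL
  have hmL : ∀ x, x ∈ L ↔ Side C v x := by
    intro x
    rw [hL, Finset.mem_filter]
    exact ⟨fun h => h.2, fun h => ⟨(Side.mem hC h).2, h⟩⟩
  obtain ⟨u0, hu0, hu0'⟩ := hC.surround hvB hv (α := 1) (β := 0) (Or.inl one_ne_zero)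
  obtain ⟨u, huL, humax⟩ := Finset.exists_max_image L (fun w => lf 1 0 w) ⟨u0, (hmL _).2 hu0⟩
  have hu := (hmL _).1 huL
  have fvu : lf 1 0 v < lf 1 0 u := lt_of_lt_of_le hu0' (humax u0 ((hmL _).2 hu0))
  obtain ⟨⟨p, hp, p0, sp⟩, q, hq, q0, sq⟩ := hC.apex hB hv hu
  have huB := (Side.mem hC hu).2
  have hpB := (Side.mem hC sp).2
  have hqB := (Side.mem hC sq).2
  have hpq : p ≠ q := by rintro rfl; linarith
  have hne : cr v q p ≠ 0 := hB v hvB q hqB p hpB sq.1 sp.1 hpq.symm
  rcases lt_or_gt_of_ne hne with hneg | hpos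
  swap
  · exact hC.extreme_flip hB hp hq p0 q0 hpos (lf_bary 1 0) fvu (humax p ((hmL _).2 sp))
      (humax q ((hmL _).2 sq))
  -- now the cone from p to q is convex and contains all other vertices of the link
  have hpq0 : 0 < cr v p q := by rw [cr_neg]; linarith
  have q0' : 0 < cr v q u := by rw [cr_neg]; linarith
  have hrel : ∀ x, cr v p q * cr v u x + cr v q u * cr v p x + cr v u p * cr v q x = 0 := by
    intro x; unfold cr; ring
  have hq2 : ({v, q, u} : Finset Pt) ∈ C := by
    have : ({v, q, u} : Finset Pt) = {v, u, q} := by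
      ext z; simp only [Finset.mem_insert, Finset.mem_singleton]; tauto
    rw [this]; exact hq
  have cone : ∀ x, Side C v x → x ≠ u → x ≠ p → x ≠ q → 0 < cr v p x ∧ 0 < cr v x q := by
    intro x hx xu xp xq
    have hxB := (Side.mem hC hx).2
    have n1 : cr v u x ≠ 0 := hB v hvB u huB x hxB hu.1 hx.1 xu.symm
    have n2 : cr v p x ≠ 0 := hB v hvB p hpB x hxB sp.1 hx.1 xp.symm
    have n3 : cr v q x ≠ 0 := hB v hvB q hqB x hxB sq.1 hx.1 xq.symm
    have m1 : ¬ (0 < cr v u x ∧ 0 < cr v x p) := fun h => hC.no_side_in hp hx h.1 h.2 p0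
    have m2 : ¬ (0 < cr v q x ∧ 0 < cr v x u) := fun h => hC.no_side_in hq2 hx h.1 h.2 q0'
    have hr := hrel x
    have e1 : cr v x p = - cr v p x := cr_neg _ _ _
    have e2 : cr v x u = - cr v u x := cr_neg _ _ _
    have e3 : cr v x q = - cr v q x := cr_neg _ _ _
    rw [e1] at m1
    rw [e2] at m2
    rw [e3]
    rcases lt_or_gt_of_ne n1 with k1 | k1
    · have k3 : cr v q x < 0 := by
        by_contra hc
        exact m2 ⟨lt_of_le_of_ne (not_lt.1 hc) (Ne.symm n3), by linarith⟩
      refine ⟨?_, by linarith⟩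
      by_contra hc
      push Not at hc
      nlinarith [mul_pos hpq0 (neg_pos.2 k1), mul_pos p0 (neg_pos.2 k3),
        mul_nonneg q0'.le (neg_nonneg.2 hc)]
    · have k2 : 0 < cr v p x := by
        by_contra hc
        exact m1 ⟨k1, by linarith [lt_of_le_of_ne (not_lt.1 hc) n2]⟩
      refine ⟨k2, ?_⟩
      by_contra hc
      push Not at hc
      nlinarith [mul_pos hpq0 k1, mul_pos q0' k2, mul_nonneg p0.le (by linarith : 0 ≤ cr v q x)]
  by_cases hbey : ∃ x, Side C v x ∧ x ≠ u ∧ x ≠ p ∧ x ≠ q ∧ cr p q x < 0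
  · obtain ⟨x, hx, xu, xp, xq, hneg'⟩ := hbey
    obtain ⟨c1, c2⟩ := cone x hx xu xp xq
    exact hC.fan_flip hB sp sq hpq0 hx c1 c2 hneg'
  push Not at hbey
  -- orientation of u, p, q
  have hvupq : 0 < cr u p q := by
    have := cr_sum v u p q
    have h1 := hrel v
    -- v is in the triangle u p q
    have e : cr u p q = cr v u p + cr v p q + cr v q u := by unfold cr; ring
    rw [e]; positivity
  obtain ⟨x, hx, xu, xp, xq⟩ := h4 u p q
  obtain ⟨c1, c2⟩ := cone x hx xu xp xq
  obtain ⟨⟨p', hp', p'0, sp'⟩, -⟩ := hC.apex hB hv sp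
  obtain ⟨-, ⟨q', hq', q'0, sq'⟩⟩ := hC.apex hB hv sq
  have pu : ({v, p, u} : Finset Pt) ∈ C := by
    have : ({v, p, u} : Finset Pt) = {v, u, p} := by
      ext z; simp only [Finset.mem_insert, Finset.mem_singleton]; tauto
    rw [this]; exact hp
  have hp'u : p' ≠ u := by
    rintro rfl
    rw [cr_neg] at p'0
    linarith
  have hp'p : p' ≠ p := by
    rintro rfl
    rw [cr_self'] at p'0
    exact lt_irrefl _ p'0
  have hq'u : q' ≠ u := by
    rintro rfl
    linarith
  have hq'q : q' ≠ q := by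
    rintro rfl
    rw [cr_self'] at q'0
    exact lt_irrefl _ q'0
  have o1 : 0 ≤ cr v p' x := by
    by_contra hc
    push Not at hc
    exact hC.no_side_in hp' hx c1 (by rw [cr_neg]; linarith) p'0
  have hq'2 : ({v, q', q} : Finset Pt) ∈ C := by
    have : ({v, q', q} : Finset Pt) = {v, q, q'} := by
      ext z; simp only [Finset.mem_insert, Finset.mem_singleton]; tauto
    rw [this]; exact hq'
  have q'0' : 0 < cr v q' q := by rw [cr_neg]; linarith
  have o2 : 0 ≤ cr v x q' := by
    by_contra hc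
    push Not at hc
    exact hC.no_side_in hq'2 hx (by rw [cr_neg]; linarith) c2 q'0'
  have hp'q : p' ≠ q := by
    rintro rfl
    rw [cr_neg] at o1
    linarith
  have hq'p : q' ≠ p := by
    rintro rfl
    rw [cr_neg] at o2
    linarith
  obtain ⟨d1, d2⟩ := cone p' sp' hp'u hp'p hp'q
  obtain ⟨e1, e2⟩ := cone q' sq' hq'u hq'p hq'q
  have up' : cr v u p' ≠ 0 := hB v hvB u huB p' (Side.mem hC sp').2 hu.1 sp'.1 hp'u.symm
  have uq' : cr v u q' ≠ 0 := hB v hvB u huB q' (Side.mem hC sq').2 hu.1 sq'.1 hq'u.symm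
  have hle : ∀ z, Side C v z → cr q u z ≤ cr q u p ∧ cr u p z ≤ cr u p q := by
    intro z hz
    have hs := cr_sum u p q z
    have e4 : cr q u p = cr u p q := by unfold cr; ring
    rw [e4]
    by_cases zu : z = u
    · subst zu; rw [cr_self', cr_self]; exact ⟨hvupq.le, hvupq.le⟩
    by_cases zp : z = p
    · subst zp; rw [cr_self', e4]; exact ⟨le_refl _, hvupq.le⟩
    by_cases zq : z = q
    · subst zq; rw [cr_self]; exact ⟨hvupq.le, le_refl _⟩
    obtain ⟨z1, z2⟩ := cone z hz zu zp zq
    have z3 := hbey z hz zu zp zq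
    -- z is in the triangle v p q, hence in u p q
    have g1 : 0 ≤ cr u p z := by
      have hb := cr_bary v p q u p z
      have e5 : cr q v z = cr v z q := by unfold cr; ring
      have e6 : cr u p v = cr v u p := by unfold cr; ring
      rw [e5, e6, cr_self'] at hb
      nlinarith [mul_nonneg z3 p0.le, mul_pos z1 hvupq]
    have g2 : 0 ≤ cr q u z := by
      have hb := cr_bary v p q q u z
      have e5 : cr q v z = cr v z q := by unfold cr; ring
      have e6 : cr q u v = cr v q u := by unfold cr; ring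
      have e7 : cr q u p = cr u p q := by unfold cr; ring
      rw [e5, e6, e7, cr_self] at hb
      nlinarith [mul_nonneg z3 q0'.le, mul_pos z2 hvupq]
    constructor <;> linarith
  have hvlt : cr q u v < cr q u p ∧ cr u p v < cr u p q := by
    have e4 : cr q u p = cr v u p + cr v p q + cr v q u := by unfold cr; ring
    have e5 : cr u p q = cr v u p + cr v p q + cr v q u := by unfold cr; ring
    have e6 : cr u p v = cr v u p := by unfold cr; ring
    have e7 : cr q u v = cr v q u := by unfold cr; ring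
    rw [e4, e5, e6, e7]
    constructor <;> linarith
  rcases lt_or_gt_of_ne up' with a1 | a1
  · rcases lt_or_gt_of_ne uq' with a2 | a2
    · -- flip at q
      have hqc : 0 < cr v q' u := by rw [cr_neg]; linarith
      refine hC.extreme_flip hB (v := v) (u := q) (p := u) (q := q') hq2 hq' q0' q'0 ?_
        (f := fun z => cr u p z) (fun a b c z => cr_bary a b c u p z) hvlt.2 (hle u hu).2
        (hle q' sq').2
      exact hqc
    · exfalso
      have h5 : 0 ≤ cr v p' q' := by
        have := cr_pl v p' q' x q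
        have h6 : 0 ≤ cr v p' x * cr v q' q + cr v x q' * cr v p' q := by positivity
        rw [← this] at h6
        by_contra hc
        push Not at hc
        nlinarith
      have h6 := cr_pl v p' q' u q
      have h7 : cr v p' u = - cr v u p' := cr_neg _ _ _
      have h8 : cr v u q < 0 := q0
      rw [h7] at h6
      nlinarith [mul_nonneg h5 (neg_pos.2 q0).le, mul_pos (neg_pos.2 a1) q'0', mul_pos a2 d2]
  · -- flip at p
    refine hC.extreme_flip hB (v := v) (u := p) (p := p') (q := u) hp' pu p'0 ?_ a1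
      (f := fun z => cr q u z) (fun a b c z => cr_bary a b c q u z) hvlt.1 (hle p' sp').1
      (hle u hu).1
    rw [cr_neg]; linarith

end MP91a79a

end
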