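import Pool.Agent.Lib.MP_91a79a_co.Refine

/-!
General position, sides, crossings; elementary facts on triangulations (MP_91a79a_co).
-/

noncomputable section

namespace MP91a79a

open Set

/-- general position: no three distinct points of `P` are collinear -/
def GP (P : Finset Pt) : Prop :=
  ∀ a ∈ P, ∀ b ∈ P, ∀ c ∈ P, a ≠ b → a ≠ c → b ≠ c → cr a b c ≠ 0

/-- `xy` is a side of a triangle of `T` -/
def Side (T : Finset (Finset Pt)) (x y : Pt) : Prop := x ≠ y ∧ ∃ t ∈ T, x ∈ t ∧ y ∈ t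

/-- the open segments `xy` and `uv` cross -/
def Cross (x y u v : Pt) : Prop := cr x y u * cr x y v < 0 ∧ cr u v x * cr u v y < 0

theorem Side.symm {T : Finset (Finset Pt)} {x y : Pt} (h : Side T x y) : Side T y x := by
  obtain ⟨h1, t, ht, h2, h3⟩ := h
  exact ⟨h1.symm, t, ht, h3, h2⟩

theorem Side.mono {T T' : Finset (Finset Pt)} {x y : Pt} (h : Side T x y) (hT : T ⊆ T') :
    Side T' x y := by
  obtain ⟨h1, t, ht, h2, h3⟩ := h
  exact ⟨h1, t, hT ht, h2, h3⟩

theorem Cross.swap {x y u v : Pt} (h : Cross x y u v) : Cross u v x y := ⟨h.2, h.1⟩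

theorem Cross.flip1 {x y u v : Pt} (h : Cross x y u v) : Cross y x u v := by
  obtain ⟨h1, h2⟩ := h
  refine ⟨?_, by linarith [mul_comm (cr u v x) (cr u v y)]⟩
  rw [cr_swap x y u, cr_swap x y v]
  linarith

theorem Cross.flip2 {x y u v : Pt} (h : Cross x y u v) : Cross x y v u :=
  (h.swap.flip1).swap

theorem GP.mono {P Q : Finset Pt} (h : GP P) (hQ : Q ⊆ P) : GP Q :=
  fun a ha b hb c hc => h a (hQ ha) b (hQ hb) c (hQ hc)

theorem tri_same_side {P : Finset Pt} {T : Finset (Finset Pt)} (hT : IsTriangulation P T)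
    {u v c d : Pt} (hc : ({u, v, c} : Finset Pt) ∈ T) (hd : ({u, v, d} : Finset Pt) ∈ T)
    (h : 0 < cr u v c * cr u v d) : ({u, v, c} : Finset Pt) = {u, v, d} := by
  by_contra hne
  have h1 := hT.disj _ hc _ hd hne
  rw [coe3, coe3] at h1
  rcases pos_and_pos_or_neg_and_neg_of_mul_pos h with ⟨h2, h3⟩ | ⟨h2, h3⟩
  · obtain ⟨p, hp, hp'⟩ := overlap h2 h3
    exact Set.disjoint_left.1 h1 hp hp'
  · have h4 : 0 < cr v u c := by rw [cr_swap]; linarith
    have h5 : 0 < cr v u d := by rw [cr_swap]; linarith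
    obtain ⟨p, hp, hp'⟩ := overlap h4 h5
    rw [Set.insert_comm] at hp hp'
    exact Set.disjoint_left.1 h1 hp hp'

theorem tri_edge_two {P : Finset Pt} {T : Finset (Finset Pt)} (hT : IsTriangulation P T)
    (u v : Pt) (huv : u ≠ v) (r : Finset Pt) (hr : r ∈ T) (s : Finset Pt) (hs : s ∈ T)
    (t : Finset Pt) (ht : t ∈ T) (ur : u ∈ r) (vr : v ∈ r) (us : u ∈ s) (vs : v ∈ s)
    (ut : u ∈ t) (vt : v ∈ t) : r = s ∨ r = t ∨ s = t := by
  obtain ⟨a, rfl, ha⟩ := repr_edge (hT.card r hr) (hT.nondeg r hr) huv ur vr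
  obtain ⟨b, rfl, hb⟩ := repr_edge (hT.card s hs) (hT.nondeg s hs) huv us vs
  obtain ⟨c, rfl, hc⟩ := repr_edge (hT.card t ht) (hT.nondeg t ht) huv ut vt
  rcases lt_or_gt_of_ne ha with h1 | h1 <;> rcases lt_or_gt_of_ne hb with h2 | h2 <;>
    rcases lt_or_gt_of_ne hc with h3 | h3
  · exact Or.inl (tri_same_side hT hr hs (mul_pos_of_neg_of_neg h1 h2))
  · exact Or.inl (tri_same_side hT hr hs (mul_pos_of_neg_of_neg h1 h2))
  · exact Or.inr (Or.inl (tri_same_side hT hr ht (mul_pos_of_neg_of_neg h1 h3)))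
  · exact Or.inr (Or.inr (tri_same_side hT hs ht (mul_pos h2 h3)))
  · exact Or.inr (Or.inr (tri_same_side hT hs ht (mul_pos_of_neg_of_neg h2 h3)))
  · exact Or.inr (Or.inl (tri_same_side hT hr ht (mul_pos h1 h3)))
  · exact Or.inl (tri_same_side hT hr hs (mul_pos h1 h2))
  · exact Or.inl (tri_same_side hT hr hs (mul_pos h1 h2))

/-- the interior of a triangle of a triangulation is nonempty -/
theorem tri_int_nonempty {P : Finset Pt} {T : Finset (Finset Pt)} (hT : IsTriangulation P T)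
    {t : Finset Pt} (ht : t ∈ T) : (interior (convexHull ℝ (t : Set Pt))).Nonempty := by
  obtain ⟨a, b, c, rfl, h⟩ := repr_tri (hT.card t ht) (hT.nondeg t ht)
  rw [coe3]
  exact int_nonempty h.ne'

/-- an open set disjoint from the interior of a triangle is disjoint from the triangle -/
theorem tri_disj_of_int {P : Finset Pt} {T : Finset (Finset Pt)} (hT : IsTriangulation P T)
    {t : Finset Pt} (ht : t ∈ T) {U : Set Pt} (hU : IsOpen U)
    (hd : Disjoint (interior (convexHull ℝ (t : Set Pt))) U) :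
    Disjoint (convexHull ℝ (t : Set Pt)) U := by
  obtain ⟨a, b, c, rfl, h⟩ := repr_tri (hT.card t ht) (hT.nondeg t ht)
  rw [coe3] at hd ⊢
  exact disj_hull_of_disj h.ne' hU hd

theorem tri_hull_sub {P : Finset Pt} {T : Finset (Finset Pt)} (hT : IsTriangulation P T)
    {t : Finset Pt} (ht : t ∈ T) : convexHull ℝ (t : Set Pt) ⊆ convexHull ℝ (P : Set Pt) :=
  convexHull_mono (Finset.coe_subset.2 (hT.sub t ht))

theorem tri_mem_cover {P : Finset Pt} {T : Finset (Finset Pt)} (hT : IsTriangulation P T)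
    {z : Pt} (hz : z ∈ convexHull ℝ (P : Set Pt)) : ∃ t ∈ T, z ∈ convexHull ℝ (t : Set Pt) := by
  rw [← hT.cover] at hz
  simpa using hz

end MP91a79a

end
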