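import Pool.Agent.Lib.MP_91a79a_co.Defs

/-!
Elementary plane geometry for MP_91a79a_co: triangles, refinement of triangulations.
-/

noncomputable section

namespace MP91a79a

open Set

/-- twice the signed area of `abp` -/
def cr (a b p : Pt) : ℝ := (b.1 - a.1) * (p.2 - a.2) - (b.2 - a.2) * (p.1 - a.1)

theorem cr_rot (a b c : Pt) : cr a b c = cr b c a := by unfold cr; ring
theorem cr_swap (a b c : Pt) : cr b a c = - cr a b c := by unfold cr; ring
theorem cr_self (a b : Pt) : cr a b a = 0 := by unfold cr; ring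
theorem cr_self' (a b : Pt) : cr a b b = 0 := by unfold cr; ring

theorem cr_comb (a b x y z : Pt) (u v w : ℝ) (h : u + v + w = 1) :
    cr a b (u • x + v • y + w • z) = u * cr a b x + v * cr a b y + w * cr a b z := by
  obtain rfl : w = 1 - u - v := by linarith
  simp only [cr, Prod.fst_add, Prod.snd_add, Prod.smul_fst, Prod.smul_snd, smul_eq_mul]
  ring

theorem cr_comb2 (a b x y : Pt) (u v : ℝ) (h : u + v = 1) :
    cr a b (u • x + v • y) = u * cr a b x + v * cr a b y := by
  obtain rfl : v = 1 - u := by linarith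
  simp only [cr, Prod.fst_add, Prod.snd_add, Prod.smul_fst, Prod.smul_snd, smul_eq_mul]
  ring

theorem cr_sum (a b c p : Pt) : cr a b p + cr b c p + cr c a p = cr a b c := by
  unfold cr; ring

theorem cr_expand (a b c p : Pt) :
    (cr a b c) • p = (cr b c p) • a + (cr c a p) • b + (cr a b p) • c := by
  ext
  · simp only [cr, Prod.fst_add, Prod.smul_fst, smul_eq_mul]; ring
  · simp only [cr, Prod.snd_add, Prod.smul_snd, smul_eq_mul]; ring

theorem continuous_cr (a b : Pt) : Continuous (cr a b) := by unfold cr; fun_prop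

theorem mem_hull3 {a b c x : Pt} : x ∈ convexHull ℝ ({a, b, c} : Set Pt) ↔
    ∃ u v w : ℝ, 0 ≤ u ∧ 0 ≤ v ∧ 0 ≤ w ∧ u + v + w = 1 ∧ x = u • a + v • b + w • c := by
  constructor
  · intro h
    have h1 : ({a, b, c} : Set Pt) ⊆ {x | ∃ u v w : ℝ, 0 ≤ u ∧ 0 ≤ v ∧ 0 ≤ w ∧ u + v + w = 1 ∧
        x = u • a + v • b + w • c} := by
      rintro y (rfl | rfl | rfl)
      · exact ⟨1, 0, 0, by simp⟩
      · exact ⟨0, 1, 0, by simp⟩
      · exact ⟨0, 0, 1, by simp⟩
    refine convexHull_min h1 ?_ h
    rintro _ ⟨u, v, w, hu, hv, hw, hs, rfl⟩ _ ⟨u', v', w', hu', hv', hw', hs', rfl⟩ s t hs0 ht0 hst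
    refine ⟨s * u + t * u', s * v + t * v', s * w + t * w', by positivity, by positivity,
      by positivity, ?_, ?_⟩
    · have : s * (u + v + w) + t * (u' + v' + w') = 1 := by rw [hs, hs']; linarith
      linarith
    · module
  · rintro ⟨u, v, w, hu, hv, hw, hs, rfl⟩
    have h := (convex_convexHull ℝ ({a, b, c} : Set Pt)).sum_mem (t := Finset.univ)
      (w := ![u, v, w]) (z := ![a, b, c]) (by
        intro i _; fin_cases i <;> simp [hu, hv, hw]) (by simp [Fin.sum_univ_three, hs]) (by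
        intro i _
        apply subset_convexHull
        fin_cases i <;> simp)
    simpa [Fin.sum_univ_three] using h

theorem mem_hull_of_cr {a b c p : Pt} (hD : 0 < cr a b c) (h1 : 0 ≤ cr a b p) (h2 : 0 ≤ cr b c p)
    (h3 : 0 ≤ cr c a p) : p ∈ convexHull ℝ ({a, b, c} : Set Pt) := by
  rw [mem_hull3]
  refine ⟨cr b c p / cr a b c, cr c a p / cr a b c, cr a b p / cr a b c, by positivity,
    by positivity, by positivity, ?_, ?_⟩
  · rw [← add_div, ← add_div, div_eq_one_iff_eq hD.ne']
    have := cr_sum a b c p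
    linarith
  · have h := cr_expand a b c p
    calc p = (cr a b c)⁻¹ • ((cr a b c) • p) := by rw [inv_smul_smul₀ hD.ne']
      _ = (cr a b c)⁻¹ • ((cr b c p) • a + (cr c a p) • b + (cr a b p) • c) :=
        congrArg _ h
      _ = _ := by simp only [div_eq_inv_mul]; module

theorem cr_of_hull {a b c p : Pt} (hD : 0 ≤ cr a b c)
    (hp : p ∈ convexHull ℝ ({a, b, c} : Set Pt)) :
    0 ≤ cr a b p ∧ 0 ≤ cr b c p ∧ 0 ≤ cr c a p := by
  rw [mem_hull3] at hp
  obtain ⟨u, v, w, hu, hv, hw, hs, rfl⟩ := hp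
  rw [cr_comb _ _ _ _ _ _ _ _ hs, cr_comb _ _ _ _ _ _ _ _ hs, cr_comb _ _ _ _ _ _ _ _ hs,
    cr_self, cr_self', cr_self, cr_self', cr_self, cr_self']
  have e1 : cr b c a = cr a b c := by unfold cr; ring
  have e2 : cr c a b = cr a b c := by unfold cr; ring
  rw [e1, e2]
  refine ⟨?_, ?_, ?_⟩ <;> nlinarith [mul_nonneg hu hD, mul_nonneg hv hD, mul_nonneg hw hD]

theorem mem_int_of_cr {a b c p : Pt} (h1 : 0 < cr a b p) (h2 : 0 < cr b c p)
    (h3 : 0 < cr c a p) : p ∈ interior (convexHull ℝ ({a, b, c} : Set Pt)) := by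
  have hD : 0 < cr a b c := by rw [← cr_sum a b c p]; positivity
  have hsub : {q | 0 < cr a b q ∧ 0 < cr b c q ∧ 0 < cr c a q} ⊆
      convexHull ℝ ({a, b, c} : Set Pt) :=
    fun q hq => mem_hull_of_cr hD hq.1.le hq.2.1.le hq.2.2.le
  have hopen : IsOpen {q | 0 < cr a b q ∧ 0 < cr b c q ∧ 0 < cr c a q} :=
    (isOpen_lt continuous_const (continuous_cr a b)).inter
      ((isOpen_lt continuous_const (continuous_cr b c)).inter
        (isOpen_lt continuous_const (continuous_cr c a)))
  exact interior_maximal hsub hopen ⟨h1, h2, h3⟩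

/-- an open set in a closed half plane is in the open half plane -/
theorem pos_of_open {a b : Pt} (hab : a ≠ b) {U : Set Pt} (hU : IsOpen U)
    (h : ∀ x ∈ U, 0 ≤ cr a b x) {p : Pt} (hp : p ∈ U) : 0 < cr a b p := by
  rcases (h p hp).lt_or_eq with h0 | h0
  · exact h0
  · exfalso
    -- move in the direction (b.2 - a.2, a.1 - b.1)
    let g : ℝ → Pt := fun s => (p.1 + s * (b.2 - a.2), p.2 - s * (b.1 - a.1))
    have hg : Continuous g := by fun_prop
    have hg0 : g 0 = p := by simp [g]
    have h1 : ∀ᶠ s in nhds (0:ℝ), g s ∈ U := by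
      apply hg.continuousAt.eventually_mem
      rw [hg0]; exact hU.mem_nhds hp
    have h2 : ∀ᶠ s in nhdsWithin (0:ℝ) (Ioi 0), g s ∈ U := h1.filter_mono nhdsWithin_le_nhds
    have h3 : ∀ᶠ s in nhdsWithin (0:ℝ) (Ioi 0), (0:ℝ) < s := self_mem_nhdsWithin
    obtain ⟨s, hs1, hs2⟩ := (h2.and h3).exists
    have h4 := h _ hs1
    have h5 : cr a b (g s) = cr a b p - s * ((b.1 - a.1)^2 + (b.2 - a.2)^2) := by
      simp only [cr, g]; ring
    have h6 : 0 < (b.1 - a.1)^2 + (b.2 - a.2)^2 := by
      by_contra hcon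
      push Not at hcon
      apply hab
      have e1 : b.1 - a.1 = 0 := by nlinarith [sq_nonneg (b.1 - a.1), sq_nonneg (b.2 - a.2)]
      have e2 : b.2 - a.2 = 0 := by nlinarith [sq_nonneg (b.1 - a.1), sq_nonneg (b.2 - a.2)]
      ext
      · linarith
      · linarith
    rw [h5, ← h0] at h4
    nlinarith [mul_pos hs2 h6]

theorem ne_of_cr {a b c : Pt} (h : cr a b c ≠ 0) : a ≠ b ∧ a ≠ c ∧ b ≠ c := by
  refine ⟨?_, ?_, ?_⟩ <;> rintro rfl <;> apply h <;> unfold cr <;> ring

theorem cr_of_int {a b c p : Pt} (hD : 0 < cr a b c)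
    (hp : p ∈ interior (convexHull ℝ ({a, b, c} : Set Pt))) :
    0 < cr a b p ∧ 0 < cr b c p ∧ 0 < cr c a p := by
  obtain ⟨h1, h2, h3⟩ := ne_of_cr hD.ne'
  refine ⟨pos_of_open h1 isOpen_interior (fun x hx => ?_) hp,
    pos_of_open h3 isOpen_interior (fun x hx => ?_) hp,
    pos_of_open h2.symm isOpen_interior (fun x hx => ?_) hp⟩
  · exact (cr_of_hull hD.le (interior_subset hx)).1
  · exact (cr_of_hull hD.le (interior_subset hx)).2.1
  · exact (cr_of_hull hD.le (interior_subset hx)).2.2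

theorem disj_of_line {a b : Pt} (hab : a ≠ b) {A B : Set Pt} (hA : ∀ x ∈ A, 0 ≤ cr a b x)
    (hB : ∀ x ∈ B, cr a b x ≤ 0) : Disjoint (interior A) (interior B) := by
  rw [Set.disjoint_left]
  intro p hpA hpB
  have h1 := pos_of_open hab (U := interior A ∩ interior B) (isOpen_interior.inter isOpen_interior)
    (fun x hx => hA x (interior_subset hx.1)) (p := p) ⟨hpA, hpB⟩
  have h2 := hB p (interior_subset hpB)
  linarith

theorem collinear_iff {a b c : Pt} : Collinear ℝ ({a, b, c} : Set Pt) ↔ cr a b c = 0 := by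
  rw [collinear_iff_of_mem (p₀ := a) (by simp)]
  constructor
  · rintro ⟨v, hv⟩
    obtain ⟨r, hr⟩ := hv b (by simp)
    obtain ⟨s, hs⟩ := hv c (by simp)
    rw [hr, hs]
    simp only [cr, vadd_eq_add, Prod.fst_add, Prod.snd_add, Prod.smul_fst, Prod.smul_snd,
      smul_eq_mul]
    ring
  · intro h
    by_cases hab : a = b
    · subst hab
      refine ⟨c - a, ?_⟩
      rintro p (rfl | rfl | rfl)
      · exact ⟨0, by simp⟩
      · exact ⟨0, by simp⟩
      · exact ⟨1, by simp⟩
    · refine ⟨b - a, ?_⟩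
      rintro p (rfl | rfl | rfl)
      · exact ⟨0, by simp⟩
      · exact ⟨1, by simp⟩
      · by_cases h1 : b.1 - a.1 = 0
        · have h2 : b.2 - a.2 ≠ 0 := by
            intro h2; apply hab; ext
            · linarith
            · linarith
          have h3 : p.1 - a.1 = 0 := by
            unfold cr at h; rw [h1] at h
            have : (b.2 - a.2) * (p.1 - a.1) = 0 := by linarith
            rcases mul_eq_zero.1 this with h4 | h4
            · exact absurd h4 h2
            · exact h4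
          refine ⟨(p.2 - a.2) / (b.2 - a.2), ?_⟩
          ext
          · simp only [vadd_eq_add, Prod.fst_add, Prod.smul_fst, smul_eq_mul, Prod.fst_sub]
            rw [h1]; linarith
          · simp only [vadd_eq_add, Prod.snd_add, Prod.smul_snd, smul_eq_mul, Prod.snd_sub]
            rw [div_mul_cancel₀ _ h2]; ring
        · refine ⟨(p.1 - a.1) / (b.1 - a.1), ?_⟩
          ext
          · simp only [vadd_eq_add, Prod.fst_add, Prod.smul_fst, smul_eq_mul, Prod.fst_sub]
            rw [div_mul_cancel₀ _ h1]; ring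
          · simp only [vadd_eq_add, Prod.snd_add, Prod.smul_snd, smul_eq_mul, Prod.snd_sub]
            unfold cr at h
            field_simp
            linarith

/-- interior of a nondegenerate triangle is nonempty -/
theorem int_nonempty {a b c : Pt} (h : cr a b c ≠ 0) :
    (interior (convexHull ℝ ({a, b, c} : Set Pt))).Nonempty := by
  have key : ∀ a b c : Pt, 0 < cr a b c →
      (interior (convexHull ℝ ({a, b, c} : Set Pt))).Nonempty := by
    intro a b c hD
    refine ⟨(1/3:ℝ) • a + (1/3:ℝ) • b + (1/3:ℝ) • c, mem_int_of_cr ?_ ?_ ?_⟩ <;>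
      rw [cr_comb _ _ _ _ _ _ _ _ (by norm_num)] <;>
      simp only [cr_self, cr_self'] <;>
      [skip; rw [← cr_rot a b c]; rw [← cr_rot b c a, ← cr_rot a b c]] <;> linarith
  rcases lt_or_gt_of_ne h with h | h
  · have h' : 0 < cr b a c := by rw [cr_swap]; linarith
    have := key b a c h'
    rwa [Set.insert_comm] at this
  · exact key a b c h

/-- a triangle is in the closure of its interior -/
theorem hull_sub_closure {a b c : Pt} (h : cr a b c ≠ 0) :
    convexHull ℝ ({a, b, c} : Set Pt) ⊆ closure (interior (convexHull ℝ ({a, b, c} : Set Pt))) := by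
  rw [(convex_convexHull ℝ _).closure_interior_eq_closure_of_nonempty_interior (int_nonempty h)]
  exact subset_closure

theorem disj_hull_of_disj {a b c : Pt} (h : cr a b c ≠ 0) {U : Set Pt} (hU : IsOpen U)
    (hd : Disjoint (interior (convexHull ℝ ({a, b, c} : Set Pt))) U) :
    Disjoint (convexHull ℝ ({a, b, c} : Set Pt)) U :=
  Disjoint.mono_left (hull_sub_closure h) (hd.closure_left hU)

/-- two triangles on the same side of a common edge overlap -/
theorem overlap {a b c d : Pt} (h1 : 0 < cr a b c) (h2 : 0 < cr a b d) :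
    ∃ p, p ∈ interior (convexHull ℝ ({a, b, c} : Set Pt)) ∧
      p ∈ interior (convexHull ℝ ({a, b, d} : Set Pt)) := by
  set m : Pt := (1/2:ℝ) • a + (1/2:ℝ) • b with hm
  let g : ℝ → Pt := fun s => m + s • (c - m)
  have hg : Continuous g := by fun_prop
  have hg0 : g 0 = m := by simp [g]
  have e1 : cr b d m > 0 := by
    rw [hm, cr_comb2 _ _ _ _ _ _ (by norm_num), cr_self, ← cr_rot a b d]; linarith
  have e2 : cr d a m > 0 := by
    rw [hm, cr_comb2 _ _ _ _ _ _ (by norm_num), cr_self', ← cr_rot b d a, ← cr_rot a b d]; linarith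
  have h3 : ∀ᶠ s in nhds (0:ℝ), 0 < cr b d (g s) := by
    have : ContinuousAt (fun s => cr b d (g s)) 0 := ((continuous_cr b d).comp hg).continuousAt
    apply this.eventually_const_lt
    simpa [hg0] using e1
  have h4 : ∀ᶠ s in nhds (0:ℝ), 0 < cr d a (g s) := by
    have : ContinuousAt (fun s => cr d a (g s)) 0 := ((continuous_cr d a).comp hg).continuousAt
    apply this.eventually_const_lt
    simpa [hg0] using e2
  have h5 : ∀ᶠ s in nhds (0:ℝ), s < 1 := gt_mem_nhds (by norm_num)
  have h6 : ∀ᶠ s in nhdsWithin (0:ℝ) (Ioi 0), (0:ℝ) < s := self_mem_nhdsWithin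
  obtain ⟨s, ⟨⟨hs3, hs4⟩, hs5⟩, hs6⟩ :=
    ((((h3.and h4).and h5).filter_mono nhdsWithin_le_nhds).and h6).exists
  have hgs : g s = ((1 - s)/2) • a + ((1 - s)/2) • b + s • c := by
    simp only [g, hm]; module
  have h7 : 0 < cr a b (g s) := by
    rw [hgs, cr_comb _ _ _ _ _ _ _ _ (by ring), cr_self, cr_self']
    nlinarith
  have h7' : cr a b d = cr a b d := rfl
  refine ⟨g s, mem_int_of_cr h7 ?_ ?_, mem_int_of_cr h7 hs3 hs4⟩
  · rw [hgs, cr_comb _ _ _ _ _ _ _ _ (by ring), cr_self, cr_self', ← cr_rot a b c]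
    nlinarith
  · rw [hgs, cr_comb _ _ _ _ _ _ _ _ (by ring), cr_self, cr_self', ← cr_rot b c a, ← cr_rot a b c]
    nlinarith

end MP91a79a

end
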