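import Pool.Agent.Lib.MP_91a79a_co.FlipEx

/-!
Hull edges, ears, removable vertices (MP_91a79a_co): coarsening, part 2.
-/

noncomputable section

namespace MP91a79a

open Set

/-- `uw` is an edge of the hull of `B`, with `B` on its left -/
def HE (B : Finset Pt) (u w : Pt) : Prop := u ∈ B ∧ w ∈ B ∧ u ≠ w ∧ ∀ x ∈ B, 0 ≤ cr u w x

/-- `v` is a vertex of the hull and the triangle cut off at `v` contains no other point of `B` -/
def Ear (B : Finset Pt) (v : Pt) : Prop :=
  ∃ a b, HE B a v ∧ HE B v b ∧ a ≠ b ∧ ∀ x ∈ B, x ≠ a → x ≠ v → x ≠ b → 0 < cr a b x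

/-- `v` is in exactly three triangles, which form a triangle -/
def Rem3 (C : Finset (Finset Pt)) (v : Pt) : Prop :=
  ∃ a b c, 0 < cr v a b ∧ 0 < cr v b c ∧ 0 < cr v c a ∧ {v, a, b} ∈ C ∧ {v, b, c} ∈ C ∧
    {v, c, a} ∈ C

/-- `v` is a hull vertex in one triangle only -/
def Rem2 (B : Finset Pt) (C : Finset (Finset Pt)) (v : Pt) : Prop :=
  ∃ a b, HE B a v ∧ HE B v b ∧ {v, a, b} ∈ C

variable {B P : Finset Pt} {C : Finset (Finset Pt)}

theorem HE.hv_left {u w : Pt} (h : HE B u w) : HV B u := HV.of_cr h.2.2.1 h.2.2.2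

theorem HE.hv_right {u w : Pt} (h : HE B u w) : HV B w := HV.of_cr' h.2.2.1.symm h.2.2.2

theorem HE.side (hB : GP B) (hC : STri B C) {u w : Pt} (h : HE B u w) : Side C u w :=
  hull_side hB hC.toIs h.1 h.2.1 h.2.2.1 h.2.2.2

theorem HE.pos (hB : GP B) {u w x : Pt} (h : HE B u w) (hx : x ∈ B) (h1 : x ≠ u) (h2 : x ≠ w) :
    0 < cr u w x :=
  lt_of_le_of_ne (h.2.2.2 x hx) (Ne.symm (hB u h.1 w h.2.1 x hx h.2.2.1 h1.symm h2.symm))

theorem HE.succ_unique (hB : GP B) {v b b' : Pt} (h : HE B v b) (h' : HE B v b') : b = b' := by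
  by_contra hne
  have h1 := h.pos hB h'.2.1 h'.2.2.1.symm (Ne.symm hne)
  have h2 := h'.pos hB h.2.1 h.2.2.1.symm hne
  rw [cr_neg] at h2
  linarith

theorem HE.pred_unique (hB : GP B) {v a a' : Pt} (h : HE B a v) (h' : HE B a' v) : a = a' := by
  by_contra hne
  have h1 := h.pos hB h'.1 (Ne.symm hne) h'.2.2.1
  have h2 := h'.pos hB h.1 hne h.2.2.1
  have e : cr a' v a = - cr a v a' := by unfold cr; ring
  rw [e] at h2
  linarith

/-- the angular order at a hull vertex has a first element -/
theorem HV.first (hB : GP B) {v : Pt} (hvB : v ∈ B) (hv : HV B v) (κ : ℝ) :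
    ∀ S : Finset Pt, S ⊆ B → v ∉ S → S.Nonempty → ∃ b ∈ S, ∀ w ∈ S, 0 ≤ κ * cr v b w := by
  classical
  obtain ⟨α, β, h0, h1⟩ := hv
  intro S
  induction S using Finset.induction_on with
  | empty => intro _ _ h; exact absurd h Finset.not_nonempty_empty
  | insert w S hw ih =>
    intro hS hvS _
    have hwB : w ∈ B := hS (Finset.mem_insert_self _ _)
    have hSB : S ⊆ B := fun x hx => hS (Finset.mem_insert_of_mem hx)
    have hvS' : v ∉ S := fun h => hvS (Finset.mem_insert_of_mem h)
    have hvw : v ≠ w := fun h => hvS (h ▸ Finset.mem_insert_self _ _)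
    by_cases hne : S.Nonempty
    swap
    · rw [Finset.not_nonempty_iff_eq_empty] at hne
      subst hne
      refine ⟨w, Finset.mem_insert_self _ _, fun x hx => ?_⟩
      have : x = w := by simpa using hx
      rw [this, cr_self', mul_zero]
    obtain ⟨b, hb, hbmin⟩ := ih hSB hvS' hne
    by_cases hbw : 0 ≤ κ * cr v b w
    · refine ⟨b, Finset.mem_insert_of_mem hb, fun x hx => ?_⟩
      rcases Finset.mem_insert.1 hx with rfl | hx
      · exact hbw
      · exact hbmin x hx
    · push Not at hbw
      refine ⟨w, Finset.mem_insert_self _ _, fun x hx => ?_⟩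
      rcases Finset.mem_insert.1 hx with rfl | hx
      · rw [cr_self', mul_zero]
      · have hbx := hbmin x hx
        have hid : (κ * cr v w x) * (lf α β v - lf α β b) =
            - (κ * cr v b w) * (lf α β v - lf α β x) + (κ * cr v b x) * (lf α β v - lf α β w) := by
          unfold cr lf; ring
        have hbB := hSB hb
        have hxB := hSB hx
        have hb1 := h1 b hbB
        have hx1 := h1 x hxB
        have hw1 := h1 w hwB
        rcases hb1.lt_or_eq with hb2 | hb2
        · by_contra hcon
          push Not at hcon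
          nlinarith [mul_nonneg (neg_pos.2 hbw).le (sub_nonneg.2 hx1),
            mul_nonneg hbx (sub_nonneg.2 hw1), mul_pos (neg_pos.2 hcon) (sub_pos.2 hb2)]
        · -- b on the supporting line
          by_cases hbx' : x = b
          · rw [hbx']
            rw [cr_neg]
            linarith
          · exfalso
            have hx2 : lf α β x = lf α β v := by
              by_contra hcon
              have hx3 : lf α β x < lf α β v := lt_of_le_of_ne hx1 hcon
              rw [hb2, sub_self, mul_zero] at hid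
              nlinarith [mul_pos (neg_pos.2 hbw) (sub_pos.2 hx3),
                mul_nonneg hbx (sub_nonneg.2 hw1)]
            have := lf_collinear h0 (a := v) (b := b) (c := x) hb2.symm hx2.symm
            refine hB v hvB b hbB x hxB ?_ ?_ (Ne.symm hbx') this
            · rintro rfl; exact hvS' hb
            · rintro rfl; exact hvS' hx

theorem HV.succ (hB : GP B) {v : Pt} (hvB : v ∈ B) (hv : HV B v) (h2 : 2 ≤ B.card) :
    ∃ b, HE B v b := by
  classical
  have hne : (B.erase v).Nonempty := by
    rw [← Finset.card_pos, Finset.card_erase_of_mem hvB]; omega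
  obtain ⟨b, hb, hmin⟩ := HV.first hB hvB hv 1 (B.erase v) (Finset.erase_subset _ _)
    (Finset.notMem_erase _ _) hne
  obtain ⟨hb1, hb2⟩ := Finset.mem_erase.1 hb
  refine ⟨b, hvB, hb2, hb1.symm, fun x hx => ?_⟩
  by_cases hxv : x = v
  · rw [hxv, cr_self]
  · have := hmin x (Finset.mem_erase.2 ⟨hxv, hx⟩)
    rwa [one_mul] at this

theorem HV.pred (hB : GP B) {v : Pt} (hvB : v ∈ B) (hv : HV B v) (h2 : 2 ≤ B.card) :
    ∃ a, HE B a v := by
  classical
  have hne : (B.erase v).Nonempty := by
    rw [← Finset.card_pos, Finset.card_erase_of_mem hvB]; omega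
  obtain ⟨b, hb, hmin⟩ := HV.first hB hvB hv (-1) (B.erase v)
    (Finset.erase_subset _ _) (Finset.notMem_erase _ _) hne
  obtain ⟨hb1, hb2⟩ := Finset.mem_erase.1 hb
  refine ⟨b, hb2, hvB, hb1, fun x hx => ?_⟩
  by_cases hxv : x = v
  · rw [hxv, cr_self']
  · have := hmin x (Finset.mem_erase.2 ⟨hxv, hx⟩)
    have e : cr b v x = -1 * cr v b x := by unfold cr; ring
    rw [e]; exact this

/-- a hull vertex is not in the interior of a triangle -/
theorem HV.not_in_tri {v : Pt} (hv : HV P v) {a b c : Pt} (ha : a ∈ P) (hb : b ∈ P) (hc : c ∈ P)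
    (h1 : 0 < cr a b v) (h2 : 0 < cr b c v) (h3 : 0 < cr c a v) : False := by
  obtain ⟨α, β, h0, hle⟩ := hv
  have hb' := lf_bary α β a b c v
  rw [← cr_sum a b c v] at hb'
  have k1 := mul_nonneg h1.le (sub_nonneg.2 (hle c hc))
  have k2 := mul_nonneg h2.le (sub_nonneg.2 (hle a ha))
  have k3 := mul_nonneg h3.le (sub_nonneg.2 (hle b hb))
  have z1 : cr a b v * (lf α β v - lf α β c) = 0 := by
    apply le_antisymm _ k1
    linarith
  have z2 : cr b c v * (lf α β v - lf α β a) = 0 := by
    apply le_antisymm _ k2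
    linarith
  have z3 : cr c a v * (lf α β v - lf α β b) = 0 := by
    apply le_antisymm _ k3
    linarith
  have y1 : lf α β c = lf α β v := by
    rcases mul_eq_zero.1 z1 with h | h
    · exact absurd h h1.ne'
    · linarith
  have y2 : lf α β a = lf α β v := by
    rcases mul_eq_zero.1 z2 with h | h
    · exact absurd h h2.ne'
    · linarith
  have y3 : lf α β b = lf α β v := by
    rcases mul_eq_zero.1 z3 with h | h
    · exact absurd h h3.ne'
    · linarith
  have := lf_collinear h0 (y2.trans y3.symm) (y2.trans y1.symm)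
  have hs := cr_sum a b c v
  linarith

/-- a vertex which is allowed to be removed has a flippable edge or is removable at once -/
theorem STri.flip_ex (hB : GP B) (hC : STri B C) {v : Pt} (hvB : v ∈ B)
    (hv : ¬ HV B v ∨ Ear B v) : FlipAt C v ∨ Rem3 C v ∨ Rem2 B C v := by
  rcases hv with hv | ⟨a, b, ha, hb, hab, hear⟩
  · by_cases h4 : ∀ a b c : Pt, ∃ x, Side C v x ∧ x ≠ a ∧ x ≠ b ∧ x ≠ c
    · exact Or.inl (hC.int_flip hB hvB hv h4)
    · right; left
      push Not at h4
      obtain ⟨a, b, c, h4⟩ := h4
      have habc : ∀ x, Side C v x → x = a ∨ x = b ∨ x = c := by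
        intro x hx
        by_contra hcon
        push Not at hcon
        exact hcon.2.2 (h4 x hx hcon.1 hcon.2.1)
      obtain ⟨u, hu, -⟩ := hC.surround hvB hv (α := 1) (β := 0) (Or.inl one_ne_zero)
      obtain ⟨⟨p, hp, p0, sp⟩, q, hq, q0, sq⟩ := hC.apex hB hv hu
      obtain ⟨⟨p', hp', p'0, sp'⟩, -⟩ := hC.apex hB hv sp
      have n1 : u ≠ p := (ne_of_cr p0.ne').2.2
      have n2 : u ≠ q := (ne_of_cr q0.ne).2.2
      have n3 : p ≠ q := by rintro rfl; linarith
      have all : ∀ x, Side C v x → x = u ∨ x = p ∨ x = q := by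
        intro x hx
        have hsub : ({u, p, q} : Finset Pt) ⊆ {a, b, c} := by
          intro z hz
          simp only [Finset.mem_insert, Finset.mem_singleton] at hz ⊢
          rcases hz with rfl | rfl | rfl
          · exact habc _ hu
          · exact habc _ sp
          · exact habc _ sq
        have heq := Finset.eq_of_subset_of_card_le hsub (by
          rw [Finset.card_eq_three.2 ⟨u, p, q, n1, n2, n3, rfl⟩]
          exact Finset.card_le_three)
        have : x ∈ ({u, p, q} : Finset Pt) := by
          rw [heq]; simpa using habc x hx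
        simpa using this
      have hp'q : p' = q := by
        rcases all p' sp' with h | h | h
        · exfalso; rw [h, cr_neg] at p'0; linarith
        · exfalso; rw [h, cr_self'] at p'0; exact lt_irrefl _ p'0
        · exact h
      subst hp'q
      refine ⟨u, p, p', p0, p'0, by rw [cr_neg]; linarith, hp, hp', ?_⟩
      have : ({v, p', u} : Finset Pt) = {v, u, p'} := by
        ext z; simp only [Finset.mem_insert, Finset.mem_singleton]; tauto
      rw [this]; exact hq
  · have sa : Side C v a := (ha.side hB hC).symm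
    have sb : Side C v b := hb.side hB hC
    have hab0 : 0 < cr v b a := hb.pos hB ha.1 ha.2.2.1 hab
    by_cases hex : ∃ u, Side C v u ∧ u ≠ a ∧ u ≠ b
    · left
      obtain ⟨u, hu, h1, h2⟩ := hex
      have huB := (Side.mem hC hu).2
      refine hC.fan_flip hB sb sa hab0 hu (hb.pos hB huB hu.1.symm h2) ?_ ?_
      · have := ha.pos hB huB h1 hu.1.symm
        have e : cr v u a = cr a v u := by unfold cr; ring
        rw [e]; exact this
      · have := hear u huB h1 hu.1.symm h2
        have e : cr b a u = - cr a b u := by unfold cr; ring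
        rw [e]; linarith
    · right; right
      push Not at hex
      obtain ⟨c, hc, hc0⟩ := hC.other hB sb ha.1 hab0.ne'
      have hc1 : 0 < cr v b c := (pos_iff_pos_of_mul_pos hc0).2 hab0
      have hca : c = a := by
        by_contra hne
        have h1 := hex c ⟨(ne_of_cr hc1.ne').2.1, _, hc, by simp, by simp⟩ hne
        exact (ne_of_cr hc1.ne').2.2 h1.symm
      subst hca
      refine ⟨c, b, ha, hb, ?_⟩
      have : ({v, c, b} : Finset Pt) = {v, b, c} := by
        ext z; simp only [Finset.mem_insert, Finset.mem_singleton]; tauto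
      rw [this]; exact hc

end MP91a79a

end
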