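import Pool.Agent.Lib.MP_91a79a_co.InsFlip
import Mathlib.Data.Prod.Lex

/-!
# MP_91a79a_co, time half: the insertion lemma (helper50)

An edge `xy` can be inserted by at most `#W` simultaneous flips, if `W` contains the end points of
all sides crossing `xy`.  Round `t` flips all crossing sides `ul` with `rkU u + rkL l = t`.
-/

noncomputable section

namespace MP91a79a

open Set Filter Topology

/-- coordinate along `xy` -/
def along (x y v : Pt) : ℝ := (y.1 - x.1) * (v.1 - x.1) + (y.2 - x.2) * (v.2 - x.2)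

theorem eq_of_cr_along {x y v w : Pt} (hxy : x ≠ y) (h1 : cr x y v = cr x y w)
    (h2 : along x y v = along x y w) : v = w := by
  have h6 : 0 < (y.1 - x.1)^2 + (y.2 - x.2)^2 := by
    by_contra hcon
    push Not at hcon
    apply hxy
    have e1 : y.1 - x.1 = 0 := by nlinarith [sq_nonneg (y.1 - x.1), sq_nonneg (y.2 - x.2)]
    have e2 : y.2 - x.2 = 0 := by nlinarith [sq_nonneg (y.1 - x.1), sq_nonneg (y.2 - x.2)]
    ext
    · linarith
    · linarith
  unfold cr at h1
  unfold along at h2
  ext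
  · have : ((y.1 - x.1)^2 + (y.2 - x.2)^2) * v.1 = ((y.1 - x.1)^2 + (y.2 - x.2)^2) * w.1 := by
      linear_combination (y.1 - x.1) * h2 - (y.2 - x.2) * h1
    exact mul_left_cancel₀ h6.ne' this
  · have : ((y.1 - x.1)^2 + (y.2 - x.2)^2) * v.2 = ((y.1 - x.1)^2 + (y.2 - x.2)^2) * w.2 := by
      linear_combination (y.2 - x.2) * h2 + (y.1 - x.1) * h1
    exact mul_left_cancel₀ h6.ne' this

/-- lexicographic key: larger distance to the line first -/
def ky (x y v : Pt) : ℝ ×ₗ ℝ := toLex (-|cr x y v|, along x y v)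

open Classical in
/-- rank above the line -/
def rkU (W : Finset Pt) (x y v : Pt) : ℕ := (W.filter fun w => 0 < cr x y w ∧ ky x y w < ky x y v).card

open Classical in
/-- rank below the line -/
def rkL (W : Finset Pt) (x y v : Pt) : ℕ := (W.filter fun w => cr x y w < 0 ∧ ky x y w < ky x y v).card

theorem ky_inj_U {x y v w : Pt} (hxy : x ≠ y) (hv : 0 < cr x y v) (hw : 0 < cr x y w)
    (h : ky x y v = ky x y w) : v = w := by
  have h1 := Prod.ext_iff.1 (toLex.injective h)
  simp only at h1
  obtain ⟨h1, h2⟩ := h1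
  rw [abs_of_pos hv, abs_of_pos hw] at h1
  exact eq_of_cr_along hxy (by linarith) h2

theorem ky_inj_L {x y v w : Pt} (hxy : x ≠ y) (hv : cr x y v < 0) (hw : cr x y w < 0)
    (h : ky x y v = ky x y w) : v = w := by
  have h1 := Prod.ext_iff.1 (toLex.injective h)
  simp only at h1
  obtain ⟨h1, h2⟩ := h1
  rw [abs_of_neg hv, abs_of_neg hw] at h1
  exact eq_of_cr_along hxy (by linarith) h2

theorem ky_le {x y v w : Pt} (h : ky x y v < ky x y w) : |cr x y w| ≤ |cr x y v| := by
  rw [ky, ky, Prod.Lex.toLex_lt_toLex] at h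
  rcases h with h | ⟨h, -⟩
  · simp only at h; linarith
  · simp only at h; linarith

theorem rkU_lt {W : Finset Pt} {x y v w : Pt} (hv : v ∈ W) (hv0 : 0 < cr x y v)
    (h : ky x y v < ky x y w) : rkU W x y v < rkU W x y w := by
  classical
  unfold rkU
  apply Finset.card_lt_card
  refine ⟨?_, ?_⟩
  · intro z hz
    rw [Finset.mem_filter] at hz ⊢
    exact ⟨hz.1, hz.2.1, hz.2.2.trans h⟩
  · intro hcon
    have : v ∈ W.filter fun z => 0 < cr x y z ∧ ky x y z < ky x y v :=
      hcon (Finset.mem_filter.2 ⟨hv, hv0, h⟩)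
    exact lt_irrefl _ (Finset.mem_filter.1 this).2.2

theorem rkL_lt {W : Finset Pt} {x y v w : Pt} (hv : v ∈ W) (hv0 : cr x y v < 0)
    (h : ky x y v < ky x y w) : rkL W x y v < rkL W x y w := by
  classical
  unfold rkL
  apply Finset.card_lt_card
  refine ⟨?_, ?_⟩
  · intro z hz
    rw [Finset.mem_filter] at hz ⊢
    exact ⟨hz.1, hz.2.1, hz.2.2.trans h⟩
  · intro hcon
    have : v ∈ W.filter fun z => cr x y z < 0 ∧ ky x y z < ky x y v :=
      hcon (Finset.mem_filter.2 ⟨hv, hv0, h⟩)
    exact lt_irrefl _ (Finset.mem_filter.1 this).2.2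

theorem rkU_cmp {W : Finset Pt} {x y u p : Pt} (hxy : x ≠ y) (hu : u ∈ W) (hp : p ∈ W)
    (hu0 : 0 < cr x y u) (hp0 : 0 < cr x y p) (hup : p ≠ u)
    (h : rkU W x y u ≤ rkU W x y p) : rkU W x y u < rkU W x y p ∧ cr x y p ≤ cr x y u := by
  rcases lt_trichotomy (ky x y u) (ky x y p) with g | g | g
  · refine ⟨rkU_lt hu hu0 g, ?_⟩
    have := ky_le g
    rwa [abs_of_pos hu0, abs_of_pos hp0] at this
  · exact absurd (ky_inj_U hxy hu0 hp0 g).symm hup
  · have := rkU_lt hp hp0 g
    omega

theorem rkL_cmp {W : Finset Pt} {x y u p : Pt} (hxy : x ≠ y) (hu : u ∈ W) (hp : p ∈ W)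
    (hu0 : cr x y u < 0) (hp0 : cr x y p < 0) (hup : p ≠ u)
    (h : rkL W x y u ≤ rkL W x y p) : rkL W x y u < rkL W x y p ∧ cr x y u ≤ cr x y p := by
  rcases lt_trichotomy (ky x y u) (ky x y p) with g | g | g
  · refine ⟨rkL_lt hu hu0 g, ?_⟩
    have := ky_le g
    rw [abs_of_neg hu0, abs_of_neg hp0] at this
    linarith
  · exact absurd (ky_inj_L hxy hu0 hp0 g).symm hup
  · have := rkL_lt hp hp0 g
    omega

theorem rk_bound {W : Finset Pt} {x y u l : Pt} (hu : u ∈ W) (_hl : l ∈ W) (hu0 : 0 < cr x y u)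
    (_hl0 : cr x y l < 0) : rkU W x y u + rkL W x y l < W.card := by
  classical
  unfold rkU rkL
  rw [← Finset.card_union_of_disjoint]
  · apply Finset.card_lt_card
    refine ⟨?_, ?_⟩
    · intro z hz
      rw [Finset.mem_union, Finset.mem_filter, Finset.mem_filter] at hz
      rcases hz with hz | hz <;> exact hz.1
    · intro hcon
      have := hcon hu
      rw [Finset.mem_union, Finset.mem_filter, Finset.mem_filter] at this
      rcases this with h | h
      · exact lt_irrefl _ h.2.2
      · linarith [h.2.1]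
  · rw [Finset.disjoint_left]
    intro z hz hz2
    rw [Finset.mem_filter] at hz hz2
    linarith [hz.2.1, hz2.2.1]

/-- if `xy` enters the triangle `ulp` through `ul` and `p` is on the side of `u`, then it
leaves through `pl` -/
theorem exit_aux {x y u l p : Pt} (k : ℝ) (hu : 0 < k * cr x y u) (hl : k * cr x y l < 0)
    (hp : 0 < k * cr x y p) (hx : 0 < cr u l p * cr u l x) (hy : cr u l p * cr u l y < 0)
    (hxn : x ∉ convexHull ℝ ({u, l, p} : Set Pt)) : cr p l x * cr p l y < 0 := by
  -- work with the sign normalised barycentric coordinates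
  set σ := cr u l p with hσ
  have hσ0 : σ ≠ 0 := by intro h0; rw [h0] at hx; linarith
  -- affine relation
  have rel : ∀ w : Pt, σ * (k * cr x y w) = cr l p w * (k * cr x y u) + cr p u w * (k * cr x y l) +
      cr u l w * (k * cr x y p) := by
    intro w; rw [hσ]; unfold cr; ring
  have sum : ∀ w : Pt, cr l p w + cr p u w + cr u l w = σ := by
    intro w; rw [hσ]; unfold cr; ring
  have hxx : cr x y x = 0 := cr_self x y
  have hyy : cr x y y = 0 := cr_self' x y
  have rx := rel x
  have ry := rel y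
  have sx := sum x
  have sy := sum y
  rw [hxx, mul_zero, mul_zero] at rx
  rw [hyy, mul_zero, mul_zero] at ry
  set U := k * cr x y u
  set L := k * cr x y l
  set Q := k * cr x y p
  -- multiply by σ
  have ax : σ * cr l p x < 0 := by
    by_contra hcon
    push Not at hcon
    have hb : 0 < σ * cr p u x := by
      by_contra hb
      push Not at hb
      have h1 : 0 ≤ (σ * cr l p x) * U := mul_nonneg hcon hu.le
      have h2 : 0 ≤ (σ * cr p u x) * L := mul_nonneg_of_nonpos_of_nonpos hb hl.le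
      have h3 : 0 < (σ * cr u l x) * Q := mul_pos hx hp
      have h4 : (σ * cr l p x) * U + (σ * cr p u x) * L + (σ * cr u l x) * Q = 0 := by
        calc _ = σ * (cr l p x * U + cr p u x * L + cr u l x * Q) := by ring
          _ = 0 := by rw [← rx]; ring
      linarith
    apply hxn
    rcases lt_or_gt_of_ne hσ0 with g | g
    · rw [← sperm_bac]
      apply mem_hull_of_cr
      · rw [cr_swap]; linarith
      · rw [cr_swap]; nlinarith
      · rw [cr_swap]; nlinarith
      · rw [cr_swap]; nlinarith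
    · exact mem_hull_of_cr g (by nlinarith) (by nlinarith) (by nlinarith)
  have ay : 0 < σ * cr l p y := by
    by_contra hcon
    push Not at hcon
    have hb : σ * cr p u y < 0 := by
      by_contra hb
      push Not at hb
      have h1 : (σ * cr l p y) * U ≤ 0 := mul_nonpos_of_nonpos_of_nonneg hcon hu.le
      have h2 : (σ * cr p u y) * L ≤ 0 := mul_nonpos_of_nonneg_of_nonpos hb hl.le
      have h3 : (σ * cr u l y) * Q < 0 := mul_neg_of_neg_of_pos hy hp
      have h4 : (σ * cr l p y) * U + (σ * cr p u y) * L + (σ * cr u l y) * Q = 0 := by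
        calc _ = σ * (cr l p y * U + cr p u y * L + cr u l y * Q) := by ring
          _ = 0 := by rw [← ry]; ring
      linarith
    have h5 : σ * cr l p y + σ * cr p u y + σ * cr u l y = σ * σ := by
      rw [← sy]; ring
    have h6 : 0 < σ * σ := mul_self_pos.2 hσ0
    linarith
  have e1 : cr p l x = - cr l p x := cr_swap l p x
  have e2 : cr p l y = - cr l p y := cr_swap l p y
  rw [e1, e2]
  have h7 : (σ * cr l p x) * (σ * cr l p y) < 0 := mul_neg_of_neg_of_pos ax ay
  have h8 : (σ * cr l p x) * (σ * cr l p y) = (σ * σ) * (- cr l p x * - cr l p y) := by ring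
  rw [h8] at h7
  have h6 : 0 < σ * σ := mul_self_pos.2 hσ0
  by_contra hcon
  push Not at hcon
  have := mul_nonneg h6.le hcon
  linarith

/-- crossing criterion by heights -/
theorem cross_of_heights {x y u l p q : Pt} (hul : cr x y l < cr x y u)
    (hp1 : cr x y l ≤ cr x y p) (hp2 : cr x y p ≤ cr x y u)
    (hq1 : cr x y l ≤ cr x y q) (hq2 : cr x y q ≤ cr x y u)
    (hopp : cr u l p * cr u l q < 0) (h1 : cr p q u ≠ 0) (h2 : cr p q l ≠ 0) :
    Cross u l p q := by
  refine ⟨hopp, ?_⟩
  have hD : cr u l q - cr u l p = cr p q u - cr p q l := by unfold cr; ring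
  have rel : (-cr p q l) * cr x y u + (cr p q u) * cr x y l =
      (cr u l q) * cr x y p + (-cr u l p) * cr x y q := by unfold cr; ring
  set A := cr p q u
  set B := cr p q l
  set α := cr u l q
  set β := cr u l p
  set Hu := cr x y u
  set Hl := cr x y l
  rcases mul_neg_iff.1 hopp with ⟨g1, g2⟩ | ⟨g1, g2⟩
  · -- β > 0 > α
    have hA : A * (Hu - Hl) ≤ 0 := by
      have e : A * (Hu - Hl) = (α - β) * Hu - (α * cr x y p + -β * cr x y q) := by
        rw [← rel, hD]; ring
      rw [e]
      nlinarith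
    have hB : 0 ≤ B * (Hu - Hl) := by
      have e : B * (Hu - Hl) = (α - β) * Hl - (α * cr x y p + -β * cr x y q) := by
        rw [← rel, hD]; ring
      rw [e]
      nlinarith
    have hA' : A < 0 := by
      rcases lt_or_gt_of_ne h1 with h | h
      · exact h
      · nlinarith
    have hB' : 0 < B := by
      rcases lt_or_gt_of_ne h2 with h | h
      · nlinarith
      · exact h
    nlinarith
  · have hA : 0 ≤ A * (Hu - Hl) := by
      have e : A * (Hu - Hl) = (α - β) * Hu - (α * cr x y p + -β * cr x y q) := by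
        rw [← rel, hD]; ring
      rw [e]
      nlinarith
    have hB : B * (Hu - Hl) ≤ 0 := by
      have e : B * (Hu - Hl) = (α - β) * Hl - (α * cr x y p + -β * cr x y q) := by
        rw [← rel, hD]; ring
      rw [e]
      nlinarith
    have hA' : 0 < A := by
      rcases lt_or_gt_of_ne h1 with h | h
      · nlinarith
      · exact h
    have hB' : B < 0 := by
      rcases lt_or_gt_of_ne h2 with h | h
      · exact h
      · nlinarith
    nlinarith

theorem old_side {u l p q a b : Pt} {s : Finset Pt} (hab : a ≠ b)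
    (h : s = {u, l, p} ∨ s = {u, l, q}) (ha : a ∈ s) (hb : b ∈ s) (n1 : ¬ (a = u ∧ b = l))
    (n2 : ¬ (a = l ∧ b = u)) :
    (a ∈ ({u, p, q} : Finset Pt) ∧ b ∈ ({u, p, q} : Finset Pt)) ∨
      (a ∈ ({l, p, q} : Finset Pt) ∧ b ∈ ({l, p, q} : Finset Pt)) := by
  rcases h with rfl | rfl
  · simp only [Finset.mem_insert, Finset.mem_singleton] at ha hb
    rcases ha with rfl | rfl | rfl <;> rcases hb with rfl | rfl | rfl <;>
    first
      | exact absurd rfl hab
      | exact absurd ⟨rfl, rfl⟩ n1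
      | exact absurd ⟨rfl, rfl⟩ n2
      | (left; constructor <;> simp; done)
      | (right; constructor <;> simp)
  · simp only [Finset.mem_insert, Finset.mem_singleton] at ha hb
    rcases ha with rfl | rfl | rfl <;> rcases hb with rfl | rfl | rfl <;>
    first
      | exact absurd rfl hab
      | exact absurd ⟨rfl, rfl⟩ n1
      | exact absurd ⟨rfl, rfl⟩ n2
      | (left; constructor <;> simp; done)
      | (right; constructor <;> simp)

variable {P : Finset Pt} {T : Finset (Finset Pt)}

/-- invariant of the rounds -/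
def Inv (W : Finset Pt) (x y : Pt) (t : ℕ) (T : Finset (Finset Pt)) : Prop :=
  ∀ u l, Side T u l → 0 < cr x y u → cr x y l < 0 → Cross x y u l →
    u ∈ W ∧ l ∈ W ∧ t ≤ rkU W x y u + rkL W x y l

/-- what we know on an apex of a crossing side with minimal rank sum -/
theorem apex_aux (_hP : GP P) (hT : STri P T) {W : Finset Pt} {x y : Pt} (hx : x ∈ P) (hy : y ∈ P)
    (hxy : x ≠ y) {t : ℕ} (hI : Inv W x y t T) {u l : Pt} (hu : u ∈ W) (hl : l ∈ W)
    (hu0 : 0 < cr x y u) (hl0 : cr x y l < 0)
    (ht : rkU W x y u + rkL W x y l = t) {x' y' : Pt}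
    (hxy' : (x' = x ∧ y' = y) ∨ (x' = y ∧ y' = x)) {p : Pt} (hp : {u, l, p} ∈ T)
    (hpx : 0 < cr u l p * cr u l x') (hopp : cr u l x' * cr u l y' < 0) :
    (0 < cr x y p → p ∈ W ∧ rkU W x y u < rkU W x y p) ∧
    (cr x y p < 0 → p ∈ W ∧ rkL W x y l < rkL W x y p) ∧
    cr x y l ≤ cr x y p ∧ cr x y p ≤ cr x y u := by
  have hσ0 : cr u l p ≠ 0 := by intro h0; rw [h0] at hpx; linarith
  obtain ⟨hul, hup, hlp⟩ := ne_of_cr hσ0
  have hpP : p ∈ P := hT.sub _ hp (by simp)
  have hpy : cr u l p * cr u l y' < 0 := by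
    by_contra hcon
    push Not at hcon
    have h1 : cr u l x' * cr u l x' > 0 := by
      apply mul_self_pos.2
      intro h0; rw [h0] at hopp; linarith
    have h2 : cr u l p * cr u l p > 0 := mul_self_pos.2 hσ0
    have h3 : (cr u l p * cr u l x') * (cr u l p * cr u l y') =
        (cr u l p * cr u l p) * (cr u l x' * cr u l y') := by ring
    have h4 := mul_nonneg hpx.le hcon
    rw [h3] at h4
    have h5 := mul_neg_of_pos_of_neg h2 hopp
    linarith
  have hxn : x' ∉ convexHull ℝ ({u, l, p} : Set Pt) ∨ x' = p := by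
    by_cases hxp : x' = p
    · exact Or.inr hxp
    · left
      intro hcon
      have hx'P : x' ∈ P := by rcases hxy' with h | h <;> rw [h.1] <;> assumption
      have h1 := hT.strict _ hp x' hx'P (by rw [coe3]; exact hcon)
      simp only [Finset.mem_insert, Finset.mem_singleton] at h1
      have hxx : cr x y x' = 0 := by
        rcases hxy' with h | h <;> rw [h.1]
        · exact cr_self x y
        · exact cr_self' x y
      rcases h1 with h1 | h1 | h1
      · rw [h1] at hxx; linarith
      · rw [h1] at hxx; linarith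
      · exact hxp h1
  -- the exit statements
  have hU : 0 < cr x y p → Cross x y p l := by
    intro hp0
    refine ⟨mul_neg_of_pos_of_neg hp0 hl0, ?_⟩
    rcases hxn with hxn | hxp
    · rcases hxy' with ⟨rfl, rfl⟩ | ⟨rfl, rfl⟩
      · exact exit_aux 1 (by linarith) (by linarith) (by linarith) hpx hpy hxn
      · have := exit_aux (x := x') (y := y') (-1) (by rw [cr_swap]; linarith)
          (by rw [cr_swap]; linarith) (by rw [cr_swap]; linarith) hpx hpy hxn
        linarith
    · exfalso
      have hxx : cr x y x' = 0 := by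
        rcases hxy' with h | h <;> rw [h.1]
        · exact cr_self x y
        · exact cr_self' x y
      rw [hxp] at hxx; linarith
  have hL : cr x y p < 0 → Cross x y u p := by
    intro hp0
    refine ⟨mul_neg_of_pos_of_neg hu0 hp0, ?_⟩
    rcases hxn with hxn | hxp
    · have hpx' : 0 < cr l u p * cr l u x' := by
        rw [cr_swap u l p, cr_swap u l x']; linarith
      have hpy' : cr l u p * cr l u y' < 0 := by
        rw [cr_swap u l p, cr_swap u l y']; linarith
      rw [← sperm_bac] at hxn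
      rcases hxy' with ⟨rfl, rfl⟩ | ⟨rfl, rfl⟩
      · have := exit_aux (x := x') (y := y') (u := l) (l := u) (p := p) (-1) (by linarith)
          (by linarith) (by linarith) hpx' hpy' hxn
        rw [cr_swap u p x', cr_swap u p y'] at this
        linarith
      · have := exit_aux (x := x') (y := y') (u := l) (l := u) (p := p) 1
          (by rw [cr_swap]; linarith)
          (by rw [cr_swap]; linarith) (by rw [cr_swap]; linarith) hpx' hpy' hxn
        rw [cr_swap u p x', cr_swap u p y'] at this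
        linarith
    · exfalso
      have hxx : cr x y x' = 0 := by
        rcases hxy' with h | h <;> rw [h.1]
        · exact cr_self x y
        · exact cr_self' x y
      rw [hxp] at hxx; linarith
  rcases lt_trichotomy (cr x y p) 0 with g | g | g
  · have hC := hL g
    have hS : Side T u p := ⟨hup, _, hp, by simp, by simp⟩
    obtain ⟨-, hpW, hle⟩ := hI u p hS hu0 g hC
    have h1 := rkL_cmp hxy hl hpW hl0 g hlp.symm (by omega)
    refine ⟨fun h => by linarith, fun _ => ⟨hpW, h1.1⟩, h1.2, by linarith⟩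
  · exact ⟨fun h => by linarith, fun h => by linarith, by linarith, by linarith⟩
  · have hC := hU g
    have hS : Side T p l := ⟨hlp.symm, _, hp, by simp, by simp⟩
    obtain ⟨hpW, -, hle⟩ := hI p l hS g hl0 hC
    have h1 := rkU_cmp hxy hu hpW hu0 g hup.symm (by omega)
    refine ⟨fun _ => ⟨hpW, h1.1⟩, fun h => by linarith, by linarith, h1.2⟩

/-- one round -/
theorem round (hP : GP P) (hT : STri P T) {W : Finset Pt} {x y : Pt} (hx : x ∈ P) (hy : y ∈ P)
    (hxy : x ≠ y) {t : ℕ} (hI : Inv W x y t T) :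
    ∃ T', STri P T' ∧ SimFlip T T' ∧ Inv W x y (t + 1) T' ∧
      ∀ a b, Side T a b → ¬ Cross x y a b → Side T' a b := by
  classical
  -- the set of sides to be flipped
  let E : Finset (Pt × Pt) := (W ×ˢ W).filter fun e => Side T e.1 e.2 ∧ 0 < cr x y e.1 ∧
    cr x y e.2 < 0 ∧ Cross x y e.1 e.2 ∧ rkU W x y e.1 + rkL W x y e.2 = t
  have hE : ∀ e ∈ E, e.1 ∈ W ∧ e.2 ∈ W ∧ Side T e.1 e.2 ∧ 0 < cr x y e.1 ∧
    cr x y e.2 < 0 ∧ Cross x y e.1 e.2 ∧ rkU W x y e.1 + rkL W x y e.2 = t := by
    intro e he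
    rw [Finset.mem_filter, Finset.mem_product] at he
    exact ⟨he.1.1, he.1.2, he.2⟩
  have hex : ∀ e : Pt × Pt, ∃ pq : Pt × Pt, e ∈ E → {e.1, e.2, pq.1} ∈ T ∧ {e.1, e.2, pq.2} ∈ T ∧
      0 < cr e.1 e.2 pq.1 * cr e.1 e.2 x ∧ 0 < cr e.1 e.2 pq.2 * cr e.1 e.2 y := by
    intro e
    by_cases he : e ∈ E
    · obtain ⟨-, -, h3, -, -, h6, -⟩ := hE e he
      obtain ⟨p, hp1, hp2⟩ := hT.other hP h3 hx h6.ne.2.2.1
      obtain ⟨q, hq1, hq2⟩ := hT.other hP h3 hy h6.ne.2.2.2
      exact ⟨(p, q), fun _ => ⟨hp1, hq1, hp2, hq2⟩⟩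
    · exact ⟨(0, 0), fun h => absurd h he⟩
  choose ap hap using hex
  let mk : Pt × Pt → FlipData := fun e => ⟨e.1, e.2, (ap e).1, (ap e).2⟩
  let F : Finset FlipData := E.image mk
  -- facts for the elements
  have hfacts : ∀ e ∈ E, ({e.1, e.2, (ap e).1} : Finset Pt) ∈ T ∧ ({e.1, e.2, (ap e).2} : Finset Pt) ∈ T ∧
      Cross e.1 e.2 (ap e).1 (ap e).2 ∧
      (∀ p, p = (ap e).1 ∨ p = (ap e).2 →
        (0 < cr x y p → p ∈ W ∧ rkU W x y e.1 < rkU W x y p) ∧
        (cr x y p < 0 → p ∈ W ∧ rkL W x y e.2 < rkL W x y p)) := by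
    intro e he
    obtain ⟨h1, h2, h3, h4⟩ := hap e he
    obtain ⟨g1, g2, g3, g4, g5, g6, g7⟩ := hE e he
    have a1 := apex_aux hP hT hx hy hxy hI g1 g2 g4 g5 g7 (x' := x) (y' := y) (Or.inl ⟨rfl, rfl⟩)
      h1 h3 g6.2
    have a2 := apex_aux hP hT hx hy hxy hI g1 g2 g4 g5 g7 (x' := y) (y' := x) (Or.inr ⟨rfl, rfl⟩)
      h2 h4 (by have := g6.2; linarith)
    have hopp : cr e.1 e.2 (ap e).1 * cr e.1 e.2 (ap e).2 < 0 := by
      have h5 : (cr e.1 e.2 (ap e).1 * cr e.1 e.2 x) * (cr e.1 e.2 (ap e).2 * cr e.1 e.2 y) > 0 :=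
        mul_pos h3 h4
      have h6 : (cr e.1 e.2 (ap e).1 * cr e.1 e.2 x) * (cr e.1 e.2 (ap e).2 * cr e.1 e.2 y) =
          (cr e.1 e.2 (ap e).1 * cr e.1 e.2 (ap e).2) * (cr e.1 e.2 x * cr e.1 e.2 y) := by ring
      rw [h6] at h5
      by_contra hcon
      push Not at hcon
      have := mul_nonpos_of_nonneg_of_nonpos hcon g6.2.le
      linarith
    have hpP : (ap e).1 ∈ P := hT.sub _ h1 (by simp)
    have hqP : (ap e).2 ∈ P := hT.sub _ h2 (by simp)
    have huP : e.1 ∈ P := hT.sub _ h1 (by simp)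
    have hlP : e.2 ∈ P := hT.sub _ h1 (by simp)
    have n1 : cr e.1 e.2 (ap e).1 ≠ 0 := by intro h0; rw [h0] at h3; linarith
    have n2 : cr e.1 e.2 (ap e).2 ≠ 0 := by intro h0; rw [h0] at h4; linarith
    obtain ⟨d1, d2, d3⟩ := ne_of_cr n1
    obtain ⟨_, d4, d5⟩ := ne_of_cr n2
    have d6 : (ap e).1 ≠ (ap e).2 := by
      intro h0; rw [h0] at hopp
      linarith [mul_self_nonneg (cr e.1 e.2 (ap e).2)]
    refine ⟨h1, h2, ?_, ?_⟩
    · exact cross_of_heights (x := x) (y := y) (by linarith) a1.2.2.1 a1.2.2.2 a2.2.2.1 a2.2.2.2 hopp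
        (hP _ hpP _ hqP _ huP d6 d2.symm d4.symm) (hP _ hpP _ hqP _ hlP d6 d3.symm d5.symm)
    · rintro p (rfl | rfl)
      · exact ⟨a1.1, a1.2.1⟩
      · exact ⟨a2.1, a2.2.1⟩
  have hF : ∀ q ∈ F, {q.a, q.b, q.c} ∈ T ∧ {q.a, q.b, q.d} ∈ T ∧ Cross q.a q.b q.c q.d := by
    intro q hq
    rw [Finset.mem_image] at hq
    obtain ⟨e, he, rfl⟩ := hq
    obtain ⟨h1, h2, h3, -⟩ := hfacts e he
    exact ⟨h1, h2, h3⟩
  have hd : ∀ q ∈ F, ∀ q' ∈ F, q ≠ q' → ∀ t ∈ T, ¬ (q.a ∈ t ∧ q.b ∈ t ∧ q'.a ∈ t ∧ q'.b ∈ t) := by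
    intro q hq q' hq' hqq s hs hcon
    rw [Finset.mem_image] at hq hq'
    obtain ⟨e, he, rfl⟩ := hq
    obtain ⟨e', he', rfl⟩ := hq'
    apply hqq
    obtain ⟨g1, g2, g3, g4, g5, g6, g7⟩ := hE e he
    obtain ⟨k1, k2, k3, k4, k5, k6, k7⟩ := hE e' he'
    obtain ⟨c1, c2, c3, c4⟩ := hcon
    change e.1 ∈ s at c1
    change e.2 ∈ s at c2
    change e'.1 ∈ s at c3
    change e'.2 ∈ s at c4
    have hne1 : e.1 ≠ e.2 := g3.1
    obtain ⟨z, hz, -⟩ := hT.side_cr hs hne1 c1 c2
    rw [hz] at c3 c4
    simp only [Finset.mem_insert, Finset.mem_singleton] at c3 c4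
    have hee : e = e' := by
      have hor : e.1 = e'.1 ∨ e.2 = e'.2 := by
        rcases c3 with c3 | c3 | c3
        · exact Or.inl c3.symm
        · exfalso; rw [c3] at k4; linarith
        · rcases c4 with c4 | c4 | c4
          · exfalso; rw [c4] at k5; linarith
          · exact Or.inr c4.symm
          · exfalso; rw [c3] at k4; rw [c4] at k5; linarith
      rcases hor with h | h
      · by_contra hcon
        have h2 : e'.2 ≠ e.2 := fun h2 => hcon (Prod.ext h h2.symm)
        have := rkL_cmp hxy g2 k2 g5 k5 h2 (by rw [← h] at k7; omega)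
        rw [← h] at k7; omega
      · by_contra hcon
        have h2 : e'.1 ≠ e.1 := fun h2 => hcon (Prod.ext h2.symm h)
        have := rkU_cmp hxy g1 k1 g4 k4 h2 (by rw [← h] at k7; omega)
        rw [← h] at k7; omega
    rw [hee]
  obtain ⟨hT', hSF⟩ := hT.simFlip F hF hd
  refine ⟨_, hT', hSF, ?_, ?_⟩
  · -- the invariant
    rintro u l ⟨hul, s, hs, hus, hls⟩ hu0 hl0 hC
    rw [Finset.mem_union] at hs
    rcases hs with hs | hs
    · rw [Finset.mem_sdiff] at hs
      have hS : Side T u l := ⟨hul, s, hs.1, hus, hls⟩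
      obtain ⟨h1, h2, h3⟩ := hI u l hS hu0 hl0 hC
      refine ⟨h1, h2, ?_⟩
      by_contra hcon
      have h4 : rkU W x y u + rkL W x y l = t := by omega
      have he : (u, l) ∈ E := by
        rw [Finset.mem_filter, Finset.mem_product]
        exact ⟨⟨h1, h2⟩, hS, hu0, hl0, hC, h4⟩
      apply hs.2
      rw [Finset.mem_biUnion]
      refine ⟨mk (u, l), Finset.mem_image_of_mem _ he, ?_⟩
      obtain ⟨g1, g2, g3, -⟩ := hfacts _ he
      obtain ⟨z, hz, hzc⟩ := hT.side_cr hs.1 hul hus hls
      have hzT : ({u, l, z} : Finset Pt) ∈ T := hz ▸ hs.1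
      have h5 : z = (ap (u, l)).1 ∨ z = (ap (u, l)).2 := by
        rcases lt_or_gt_of_ne hzc with h | h
        · rcases lt_or_gt_of_ne g3.ne.1 with h' | h'
          · exact Or.inl (hT.unique hzT g1 (mul_pos_of_neg_of_neg h h'))
          · right
            have h'' : cr u l (ap (u, l)).2 < 0 := by
              have := g3.1
              by_contra hcon
              push Not at hcon
              have := mul_nonneg (show (0:ℝ) ≤ cr (u, l).1 (u, l).2 (ap (u, l)).1 from h'.le) hcon
              linarith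
            exact hT.unique hzT g2 (mul_pos_of_neg_of_neg h h'')
        · rcases lt_or_gt_of_ne g3.ne.1 with h' | h'
          · right
            have h'' : 0 < cr u l (ap (u, l)).2 := by
              have := g3.1
              by_contra hcon
              push Not at hcon
              have := mul_nonneg_of_nonpos_of_nonpos
                (show cr (u, l).1 (u, l).2 (ap (u, l)).1 ≤ (0:ℝ) from h'.le) hcon
              linarith
            exact hT.unique hzT g2 (mul_pos h h'')
          · exact Or.inl (hT.unique hzT g1 (mul_pos h h'))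
      rw [FlipData.old, Finset.mem_insert, Finset.mem_singleton, hz]
      rcases h5 with h5 | h5
      · left; rw [h5]
      · right; rw [h5]
    · rw [Finset.mem_biUnion] at hs
      obtain ⟨q, hq, hs⟩ := hs
      rw [Finset.mem_image] at hq
      obtain ⟨e, he, rfl⟩ := hq
      obtain ⟨f1, f2, f3, f4⟩ := hfacts e he
      obtain ⟨g1, g2, g3, g4, g5, g6, g7⟩ := hE e he
      have hn : s = {e.1, (ap e).1, (ap e).2} ∨ s = {e.2, (ap e).1, (ap e).2} := by
        rw [FlipData.new, Finset.mem_insert, Finset.mem_singleton] at hs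
        exact hs
      have hU : u = e.1 ∨ (u ∈ W ∧ rkU W x y e.1 < rkU W x y u) := by
        have h1 : u = e.1 ∨ u = e.2 ∨ u = (ap e).1 ∨ u = (ap e).2 := by
          rcases hn with hn | hn
          · rw [hn] at hus
            simp only [Finset.mem_insert, Finset.mem_singleton] at hus
            tauto
          · rw [hn] at hus
            simp only [Finset.mem_insert, Finset.mem_singleton] at hus
            tauto
        rcases h1 with h1 | h1 | h1
        · exact Or.inl h1
        · rw [h1] at hu0; linarith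
        · exact Or.inr ((f4 u h1).1 hu0)
      have hL : l = e.2 ∨ (l ∈ W ∧ rkL W x y e.2 < rkL W x y l) := by
        have h1 : l = e.2 ∨ l = e.1 ∨ l = (ap e).1 ∨ l = (ap e).2 := by
          rcases hn with hn | hn
          · rw [hn] at hls
            simp only [Finset.mem_insert, Finset.mem_singleton] at hls
            tauto
          · rw [hn] at hls
            simp only [Finset.mem_insert, Finset.mem_singleton] at hls
            tauto
        rcases h1 with h1 | h1 | h1
        · exact Or.inl h1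
        · rw [h1] at hl0; linarith
        · exact Or.inr ((f4 l h1).2 hl0)
      have hnot : ¬ (u = e.1 ∧ l = e.2) := by
        rintro ⟨rfl, rfl⟩
        obtain ⟨d1, d2, d3, d4, d5, d6⟩ := f3.distinct
        rcases hn with hn | hn
        · rw [hn] at hls
          simp only [Finset.mem_insert, Finset.mem_singleton] at hls
          tauto
        · rw [hn] at hus
          simp only [Finset.mem_insert, Finset.mem_singleton] at hus
          tauto
      rcases hU with hU | ⟨hU1, hU2⟩
      · rcases hL with hL | ⟨hL1, hL2⟩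
        · exact absurd ⟨hU, hL⟩ hnot
        · refine ⟨hU ▸ g1, hL1, ?_⟩
          rw [hU]; omega
      · rcases hL with hL | ⟨hL1, hL2⟩
        · refine ⟨hU1, hL ▸ g2, ?_⟩
          rw [hL]; omega
        · exact ⟨hU1, hL1, by omega⟩
  · -- other sides are preserved
    rintro a b ⟨hab, s, hs, has, hbs⟩ hC
    by_cases hso : s ∈ F.biUnion FlipData.old
    · rw [Finset.mem_biUnion] at hso
      obtain ⟨q, hq, hso⟩ := hso
      have hqF := hq
      rw [Finset.mem_image] at hq
      obtain ⟨e, he, rfl⟩ := hq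
      obtain ⟨f1, f2, f3, f4⟩ := hfacts e he
      obtain ⟨g1, g2, g3, g4, g5, g6, g7⟩ := hE e he
      have hn1 : ({e.1, (ap e).1, (ap e).2} : Finset Pt) ∈
          (T \ F.biUnion FlipData.old) ∪ F.biUnion FlipData.new := by
        rw [Finset.mem_union, Finset.mem_biUnion]
        exact Or.inr ⟨_, hqF, by simp [FlipData.new, mk]⟩
      have hn2 : ({e.2, (ap e).1, (ap e).2} : Finset Pt) ∈
          (T \ F.biUnion FlipData.old) ∪ F.biUnion FlipData.new := by
        rw [Finset.mem_union, Finset.mem_biUnion]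
        exact Or.inr ⟨_, hqF, by simp [FlipData.new, mk]⟩
      have hcases : s = {e.1, e.2, (ap e).1} ∨ s = {e.1, e.2, (ap e).2} := by
        rw [FlipData.old, Finset.mem_insert, Finset.mem_singleton] at hso
        exact hso
      have hnot1 : ¬ (a = e.1 ∧ b = e.2) := by rintro ⟨rfl, rfl⟩; exact hC g6
      have hnot2 : ¬ (a = e.2 ∧ b = e.1) := by rintro ⟨rfl, rfl⟩; exact hC g6.flip2
      have hmemab := old_side hab hcases has hbs hnot1 hnot2
      rcases hmemab with h | h
      · exact ⟨hab, _, hn1, h.1, h.2⟩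
      · exact ⟨hab, _, hn2, h.1, h.2⟩
    · exact ⟨hab, s, Finset.mem_union_left _ (Finset.mem_sdiff.2 ⟨hs, hso⟩), has, hbs⟩

/-- INSERTION LEMMA: one segment is inserted by at most `#W` simultaneous flips, all of them of
sides crossing the segment. -/
theorem insertion (hP : GP P) (hT : IsTriangulation P T) {x y : Pt} (hx : x ∈ P) (hy : y ∈ P)
    (hxy : x ≠ y) (W : Finset Pt)
    (hW : ∀ u v, Side T u v → Cross x y u v → u ∈ W ∧ v ∈ W) :
    ∃ k ≤ W.card, ∃ T', Reach P k T T' ∧ Side T' x y ∧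
      ∀ u v, Side T u v → ¬ Cross x y u v → Side T' u v := by
  have hS := hT.strict hP
  have h0 : Inv W x y 0 T := by
    intro u l hs _ _ hC
    exact ⟨(hW u l hs hC).1, (hW u l hs hC).2, Nat.zero_le _⟩
  have key : ∀ n : ℕ, ∃ T', Reach P n T T' ∧ STri P T' ∧ Inv W x y n T' ∧
      ∀ u v, Side T u v → ¬ Cross x y u v → Side T' u v := by
    intro n
    induction n with
    | zero => exact ⟨T, Reach.refl T hT, hS, h0, fun u v h _ => h⟩
    | succ n ih =>
      obtain ⟨T₁, h1, h2, h3, h4⟩ := ih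
      obtain ⟨T₂, g1, g2, g3, g4⟩ := round hP h2 hx hy hxy h3
      exact ⟨T₂, Reach.step n T T₁ T₂ h1 g2 g1.toIs, g1, g3, fun u v h h' => g4 u v (h4 u v h h') h'⟩
  obtain ⟨T', h1, h2, h3, h4⟩ := key W.card
  refine ⟨W.card, le_rfl, T', h1, ?_, h4⟩
  apply h2.side_of_noCross hP hx hy hxy
  intro a b hab hC
  have hC' := hC.swap
  rcases mul_neg_iff.1 hC'.1 with ⟨g1, g2⟩ | ⟨g1, g2⟩
  · obtain ⟨k1, k2, k3⟩ := h3 a b hab g1 g2 hC'
    have := rk_bound k1 k2 g1 g2
    omega
  · obtain ⟨k1, k2, k3⟩ := h3 b a hab.symm g2 g1 hC'.flip2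
    have := rk_bound k1 k2 g2 g1
    omega

end MP91a79a

end
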