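import Pool.Agent.Lib.MP_91a79a_co.GPDefs

/-!
# MP_91a79a_co, time half, base layer (helper50)

General position, sides of a triangulation, crossing segments:
* `STri.noCross` : sides of a triangulation do not cross;
* `STri.other` : on the other side of a side there is a triangle;
* `STri.side_of_noCross` : a segment which is not crossed by a side is a side.
-/

noncomputable section

namespace MP91a79a

open Set Filter Topology

theorem Cross.ne {a b c d : Pt} (h : Cross a b c d) :
    cr a b c ≠ 0 ∧ cr a b d ≠ 0 ∧ cr c d a ≠ 0 ∧ cr c d b ≠ 0 := by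
  refine ⟨?_, ?_, ?_, ?_⟩ <;> intro h0
  · have := h.1; rw [h0] at this; linarith
  · have := h.1; rw [h0] at this; linarith
  · have := h.2; rw [h0] at this; linarith
  · have := h.2; rw [h0] at this; linarith

theorem Cross.distinct {a b c d : Pt} (h : Cross a b c d) :
    a ≠ b ∧ a ≠ c ∧ a ≠ d ∧ b ≠ c ∧ b ≠ d ∧ c ≠ d := by
  obtain ⟨h1, h2, h3, h4⟩ := h.ne
  have e1 := ne_of_cr h1
  have e2 := ne_of_cr h2
  have e3 := ne_of_cr h3
  exact ⟨e1.1, e1.2.1, e2.2.1, e1.2.2, e2.2.2, e3.1⟩

theorem cr_add_smul (a b m w : Pt) (s : ℝ) :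
    cr a b (m + s • w) = cr a b m + s * (cr a b (a + w)) := by
  unfold cr
  simp only [Prod.fst_add, Prod.snd_add, Prod.smul_fst, Prod.smul_snd, smul_eq_mul]
  ring

/-- sign free version of `mem_int_of_cr` -/
theorem mem_int_of_sign {a b e z : Pt} (h1 : 0 < cr a b e * cr a b z)
    (h2 : 0 < cr a b e * cr b e z) (h3 : 0 < cr a b e * cr e a z) :
    z ∈ interior (convexHull ℝ ({a, b, e} : Set Pt)) := by
  rcases lt_trichotomy (cr a b e) 0 with h | h | h
  · have e1 : 0 < cr b a z := by rw [cr_swap]; nlinarith
    have e2 : 0 < cr a e z := by rw [cr_swap e a z]; nlinarith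
    have e3 : 0 < cr e b z := by rw [cr_swap b e z]; nlinarith
    have := mem_int_of_cr e1 e2 e3
    rwa [Set.insert_comm] at this
  · rw [h] at h1; linarith
  · exact mem_int_of_cr (by nlinarith) (by nlinarith) (by nlinarith)

/-- the crossing point -/
theorem Cross.point {a b c d : Pt} (h : Cross a b c d) :
    ∃ u v u' v' : ℝ, 0 < u ∧ 0 < v ∧ u + v = 1 ∧ 0 < u' ∧ 0 < v' ∧ u' + v' = 1 ∧
      u • a + v • b = u' • c + v' • d := by
  obtain ⟨h1, h2⟩ := h
  set D : ℝ := cr a b d - cr a b c with hD
  have hD2 : cr c d a - cr c d b = D := by rw [hD]; unfold cr; ring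
  have hDne : D ≠ 0 := by
    intro h0
    have : cr a b d = cr a b c := by linarith
    rw [this] at h1
    nlinarith [mul_self_nonneg (cr a b c)]
  have e1 : 0 < -cr c d b / D := by
    rcases lt_or_gt_of_ne hDne with h | h
    · apply div_pos_of_neg_of_neg _ h
      by_contra hcon
      push Not at hcon
      have : cr c d b ≤ 0 := by linarith
      nlinarith
    · apply div_pos _ h
      by_contra hcon
      push Not at hcon
      have : 0 ≤ cr c d b := by linarith
      nlinarith
  have e2 : 0 < cr c d a / D := by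
    rcases lt_or_gt_of_ne hDne with h | h
    · apply div_pos_of_neg_of_neg _ h
      by_contra hcon
      push Not at hcon
      nlinarith
    · apply div_pos _ h
      by_contra hcon
      push Not at hcon
      nlinarith
  have e3 : 0 < cr a b d / D := by
    rcases lt_or_gt_of_ne hDne with h | h
    · apply div_pos_of_neg_of_neg _ h
      by_contra hcon
      push Not at hcon
      nlinarith
    · apply div_pos _ h
      by_contra hcon
      push Not at hcon
      nlinarith
  have e4 : 0 < -cr a b c / D := by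
    rcases lt_or_gt_of_ne hDne with h | h
    · apply div_pos_of_neg_of_neg _ h
      by_contra hcon
      push Not at hcon
      nlinarith
    · apply div_pos _ h
      by_contra hcon
      push Not at hcon
      nlinarith
  refine ⟨-cr c d b / D, cr c d a / D, cr a b d / D, -cr a b c / D, e1, e2, ?_, e3, e4, ?_, ?_⟩
  · rw [← add_div, div_eq_one_iff_eq hDne]; linarith
  · rw [← add_div, div_eq_one_iff_eq hDne]; linarith
  · have key : (-cr c d b) • a + (cr c d a) • b = (cr a b d) • c + (-cr a b c) • d := by
      ext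
      · simp only [cr, Prod.fst_add, Prod.smul_fst, smul_eq_mul]; ring
      · simp only [cr, Prod.snd_add, Prod.smul_snd, smul_eq_mul]; ring
    have h5 := congrArg (fun z => D⁻¹ • z) key
    simp only [smul_add, smul_smul] at h5
    simp only [div_eq_inv_mul]
    exact h5

/-- two triangles at crossing sides have common interior points -/
theorem Cross.overlap {a b c d e f : Pt} (h : Cross a b c d) (he : cr a b e ≠ 0) (hf : cr c d f ≠ 0) :
    ∃ z, z ∈ interior (convexHull ℝ ({a, b, e} : Set Pt)) ∧
      z ∈ interior (convexHull ℝ ({c, d, f} : Set Pt)) := by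
  obtain ⟨u, v, u', v', hu, hv, huv, hu', hv', huv', hm⟩ := h.point
  set m : Pt := u • a + v • b with hmdef
  set D : ℝ := cr a b d - cr a b c with hD
  have hDne : D ≠ 0 := by
    intro h0
    have : cr a b d = cr a b c := by linarith
    have h1 := h.1
    rw [this] at h1
    nlinarith [mul_self_nonneg (cr a b c)]
  -- direction
  let w : Pt := (cr a b e / D) • (d - c) - (cr c d f / D) • (b - a)
  have hab : ∀ s : ℝ, cr a b (m + s • w) = s * cr a b e := by
    intro s
    have h1 : cr a b m = 0 := by
      rw [hmdef, cr_comb2 _ _ _ _ _ _ huv, cr_self, cr_self']; ring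
    rw [cr_add_smul, h1]
    have h2 : cr a b (a + w) = cr a b e := by
      have h3 : D * cr a b (a + w) = D * cr a b e := by
        have : cr a b (a + w) = (cr a b e / D) * D := by
          simp only [w, hD]
          unfold cr
          simp only [Prod.fst_add, Prod.snd_add, Prod.smul_fst, Prod.smul_snd, smul_eq_mul,
            Prod.fst_sub, Prod.snd_sub]
          ring
        rw [this]; field_simp
      exact mul_left_cancel₀ hDne h3
    rw [h2]; ring
  have hcd : ∀ s : ℝ, cr c d (m + s • w) = s * cr c d f := by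
    intro s
    have h1 : cr c d m = 0 := by
      rw [hm, cr_comb2 _ _ _ _ _ _ huv', cr_self, cr_self']; ring
    rw [cr_add_smul, h1]
    have h2 : cr c d (c + w) = cr c d f := by
      have h3 : D * cr c d (c + w) = D * cr c d f := by
        have : cr c d (c + w) = (cr c d f / D) * D := by
          simp only [w, hD]
          unfold cr
          simp only [Prod.fst_add, Prod.snd_add, Prod.smul_fst, Prod.smul_snd, smul_eq_mul,
            Prod.fst_sub, Prod.snd_sub]
          ring
        rw [this]; field_simp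
      exact mul_left_cancel₀ hDne h3
    rw [h2]; ring
  have hcont : Continuous (fun s : ℝ => m + s • w) := by fun_prop
  have hpos : ∀ (p q : Pt) (k : ℝ), 0 < k * cr p q m → ∀ᶠ s in 𝓝[>] (0 : ℝ),
      0 < k * cr p q (m + s • w) := by
    intro p q k hk
    have h1 : ContinuousAt (fun s : ℝ => k * cr p q (m + s • w)) 0 := by
      have := ((continuous_cr p q).comp hcont).continuousAt (x := (0 : ℝ))
      exact continuousAt_const.mul this
    have h2 : ∀ᶠ s in 𝓝 (0 : ℝ), 0 < k * cr p q (m + s • w) := by
      apply h1.eventually_const_lt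
      simpa using hk
    exact h2.filter_mono nhdsWithin_le_nhds
  have e1 := hpos b e (cr a b e) (by
    rw [hmdef, cr_comb2 _ _ _ _ _ _ huv, cr_self, ← cr_rot a b e]
    have : 0 < cr a b e * cr a b e := mul_self_pos.2 he
    nlinarith)
  have e2 := hpos e a (cr a b e) (by
    rw [hmdef, cr_comb2 _ _ _ _ _ _ huv, cr_self', ← cr_rot b e a, ← cr_rot a b e]
    have : 0 < cr a b e * cr a b e := mul_self_pos.2 he
    nlinarith)
  have e3 := hpos d f (cr c d f) (by
    rw [hm, cr_comb2 _ _ _ _ _ _ huv', cr_self, ← cr_rot c d f]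
    have : 0 < cr c d f * cr c d f := mul_self_pos.2 hf
    nlinarith)
  have e4 := hpos f c (cr c d f) (by
    rw [hm, cr_comb2 _ _ _ _ _ _ huv', cr_self', ← cr_rot d f c, ← cr_rot c d f]
    have : 0 < cr c d f * cr c d f := mul_self_pos.2 hf
    nlinarith)
  have e5 : ∀ᶠ s in 𝓝[>] (0 : ℝ), (0 : ℝ) < s := self_mem_nhdsWithin
  obtain ⟨s, ⟨⟨⟨h1, h2⟩, h3⟩, h4⟩, hs⟩ := ((((e1.and e2).and e3).and e4).and e5).exists
  refine ⟨m + s • w, mem_int_of_sign ?_ h1 h2, mem_int_of_sign ?_ h3 h4⟩
  · rw [hab]
    have : 0 < cr a b e * cr a b e := mul_self_pos.2 he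
    nlinarith
  · rw [hcd]
    have : 0 < cr c d f * cr c d f := mul_self_pos.2 hf
    nlinarith

/-- an interior point of a triangle is not on the line of a side -/
theorem pos_of_open_ne {a b c p : Pt} (_hab : a ≠ b) (hc : cr a b c ≠ 0)
    (hp : p ∈ interior (convexHull ℝ ({a, b, c} : Set Pt))) : cr a b p ≠ 0 := by
  rcases lt_or_gt_of_ne hc with h | h
  · have h1 : 0 < cr b a c := by rw [cr_swap]; linarith
    rw [Set.insert_comm] at hp
    have := (cr_of_int h1 hp).1
    rw [cr_swap] at this
    linarith
  · exact (cr_of_int h hp).1.ne'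

variable {P : Finset Pt} {T : Finset (Finset Pt)}

theorem STri.side_cr (hT : STri P T) {t : Finset Pt} (ht : t ∈ T) {a b : Pt} (hab : a ≠ b)
    (ha : a ∈ t) (hb : b ∈ t) : ∃ c, t = {a, b, c} ∧ cr a b c ≠ 0 :=
  repr_edge (hT.card t ht) (hT.nondeg t ht) hab ha hb

theorem STri.mem_of_mem (hT : STri P T) {t : Finset Pt} (ht : t ∈ T) {a : Pt} (ha : a ∈ t) :
    a ∈ P := hT.sub t ht ha

theorem Side.mem (hT : STri P T) {a b : Pt} (h : Side T a b) : a ∈ P ∧ b ∈ P := by
  obtain ⟨-, t, ht, ha, hb⟩ := h
  exact ⟨hT.sub t ht ha, hT.sub t ht hb⟩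

/-- sides of a triangulation do not cross -/
theorem STri.noCross (hT : STri P T) {a b c d : Pt} (h1 : Side T a b) (h2 : Side T c d) :
    ¬ Cross a b c d := by
  intro h
  obtain ⟨hab, s, hs, has, hbs⟩ := h1
  obtain ⟨hcd, t, ht, hct, hdt⟩ := h2
  obtain ⟨e, hse, he⟩ := hT.side_cr hs hab has hbs
  obtain ⟨f, htf, hf⟩ := hT.side_cr ht hcd hct hdt
  by_cases hst : s = t
  · subst hst
    obtain ⟨_, h1, h2, h3, h4, _⟩ := h.distinct
    rw [hse] at hct hdt
    simp only [Finset.mem_insert, Finset.mem_singleton] at hct hdt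
    rcases hct with h5 | h5 | h5
    · exact h1 h5.symm
    · exact h3 h5.symm
    · rcases hdt with h6 | h6 | h6
      · exact h2 h6.symm
      · exact h4 h6.symm
      · exact hcd (h5.trans h6.symm)
  · obtain ⟨z, hz1, hz2⟩ := h.overlap he hf
    have h3 := hT.disj s hs t ht hst
    rw [hse, htf, coe3, coe3] at h3
    exact Set.disjoint_left.1 h3 hz1 hz2

/-- the germ of a segment starting at a point and staying in the convex hull is in a triangle -/
theorem STri.germ (hT : STri P T) {m w : Pt}
    (h : ∀ s : ℝ, 0 < s → s ≤ 1 → m + s • w ∈ convexHull ℝ (P : Set Pt)) :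
    ∃ t ∈ T, m ∈ convexHull ℝ (t : Set Pt) ∧ ∃ s : ℝ, 0 < s ∧
      m + s • w ∈ convexHull ℝ (t : Set Pt) := by
  have hfreq : ∃ t ∈ T, ∃ᶠ s in 𝓝[>] (0 : ℝ), m + s • w ∈ convexHull ℝ (t : Set Pt) := by
    by_contra hcon
    push Not at hcon
    have h1 : ∀ t ∈ T, ∀ᶠ s in 𝓝[>] (0 : ℝ), m + s • w ∉ convexHull ℝ (t : Set Pt) := by
      intro t ht
      have := hcon t ht
      simpa [Filter.not_frequently] using this
    have h2 : ∀ᶠ s in 𝓝[>] (0 : ℝ), ∀ t ∈ T, m + s • w ∉ convexHull ℝ (t : Set Pt) :=
      (Filter.eventually_all_finset T).2 h1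
    have h3 : ∀ᶠ s in 𝓝[>] (0 : ℝ), (0 : ℝ) < s := self_mem_nhdsWithin
    have h4 : ∀ᶠ s in 𝓝[>] (0 : ℝ), s < 1 :=
      (gt_mem_nhds (by norm_num : (0 : ℝ) < 1)).filter_mono nhdsWithin_le_nhds
    obtain ⟨s, ⟨hs2, hs3⟩, hs4⟩ := ((h2.and h3).and h4).exists
    have h5 := h s hs3 hs4.le
    rw [← hT.cover] at h5
    simp only [Set.mem_iUnion, exists_prop] at h5
    obtain ⟨t, ht, h6⟩ := h5
    exact hs2 t ht h6
  obtain ⟨t, ht, hf⟩ := hfreq
  refine ⟨t, ht, ?_, ?_⟩
  · have hcl : IsClosed (convexHull ℝ (t : Set Pt)) :=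
      (t.finite_toSet.isCompact_convexHull ℝ).isClosed
    have hlim : Tendsto (fun s : ℝ => m + s • w) (𝓝[>] (0 : ℝ)) (𝓝 m) := by
      have hc : Continuous (fun s : ℝ => m + s • w) := by fun_prop
      have := hc.tendsto (0 : ℝ)
      simp only [zero_smul, add_zero] at this
      exact this.mono_left nhdsWithin_le_nhds
    exact hcl.mem_of_frequently_of_tendsto hf hlim
  · have h3 : ∀ᶠ s in 𝓝[>] (0 : ℝ), (0 : ℝ) < s := self_mem_nhdsWithin
    obtain ⟨s, hs1, hs2⟩ := (hf.and_eventually h3).exists
    exact ⟨s, hs2, hs1⟩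

theorem cr_side_sign {a b c z : Pt} (hz : z ∈ convexHull ℝ ({a, b, c} : Set Pt)) :
    ∃ k : ℝ, 0 ≤ k ∧ cr a b z = k * cr a b c := by
  rw [mem_hull3] at hz
  obtain ⟨u, v, w, hu, hv, hw, hs, rfl⟩ := hz
  refine ⟨w, hw, ?_⟩
  rw [cr_comb _ _ _ _ _ _ _ _ hs, cr_self, cr_self']
  ring

theorem GP.mem_of_cr (hP : GP P) {a b x : Pt} (ha : a ∈ P) (hb : b ∈ P) (hx : x ∈ P)
    (hab : a ≠ b) (h : cr a b x = 0) : x = a ∨ x = b := by
  by_contra hcon
  push Not at hcon
  exact hP a ha b hb x hx hab (fun h => hcon.1 h.symm) (fun h => hcon.2 h.symm) h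

/-- on the other side of a side there is a triangle -/
theorem STri.other (hP : GP P) (hT : STri P T) {a b x : Pt} (hab : Side T a b) (hx : x ∈ P)
    (h : cr a b x ≠ 0) : ∃ c, {a, b, c} ∈ T ∧ 0 < cr a b c * cr a b x := by
  obtain ⟨haP, hbP⟩ := Side.mem hT hab
  set m : Pt := (1/2 : ℝ) • a + (1/2 : ℝ) • b with hm
  have hmhull : m ∈ convexHull ℝ (P : Set Pt) :=
    (convex_convexHull ℝ _) (subset_convexHull _ _ haP) (subset_convexHull _ _ hbP)
      (by norm_num) (by norm_num) (by norm_num)
  obtain ⟨t', ht', hm', s, hs, hms⟩ := hT.germ (m := m) (w := x - m) (by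
    intro s hs0 hs1
    have e : m + s • (x - m) = (1 - s) • m + s • x := by module
    rw [e]
    exact (convex_convexHull ℝ _) hmhull (subset_convexHull _ _ hx) (by linarith) hs0.le
      (by ring))
  have hcrm : cr a b m = 0 := by
    rw [hm, cr_comb2 _ _ _ _ _ _ (by norm_num), cr_self, cr_self']; ring
  have hcrs : cr a b (m + s • (x - m)) = s * cr a b x := by
    have e : m + s • (x - m) = (1 - s) • m + s • x := by module
    rw [e, cr_comb2 _ _ _ _ _ _ (by ring), hcrm]; ring
  -- claim: a, b are vertices of t'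
  have hclaim : a ∈ t' ∧ b ∈ t' := by
    -- key step for one side of t'
    have key : ∀ u v z : Pt, t' = {u, v, z} → 0 < cr u v z → cr u v m = 0 → a ∈ t' ∧ b ∈ t' := by
      intro u v z htz hD h0
      have huP : u ∈ P := hT.sub t' ht' (by rw [htz]; simp)
      have hvP : v ∈ P := hT.sub t' ht' (by rw [htz]; simp)
      obtain ⟨huv, huz, hvz⟩ := ne_of_cr hD.ne'
      have hsum : cr u v a + cr u v b = 0 := by
        rw [hm, cr_comb2 _ _ _ _ _ _ (by norm_num)] at h0; linarith
      by_cases hua : cr u v a = 0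
      · have hub : cr u v b = 0 := by linarith
        have h1 := hP.mem_of_cr huP hvP haP huv hua
        have h2 := hP.mem_of_cr huP hvP hbP huv hub
        rw [htz]
        simp only [Finset.mem_insert, Finset.mem_singleton]
        tauto
      · exfalso
        have hne1 : cr a b u ≠ 0 := by
          intro h1
          rcases hP.mem_of_cr haP hbP huP hab.1 h1 with h2 | h2
          · apply hua; rw [← h2, cr_self]
          · apply hua
            have : cr u v b = 0 := by rw [← h2, cr_self]
            linarith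
        have hne2 : cr a b v ≠ 0 := by
          intro h1
          rcases hP.mem_of_cr haP hbP hvP hab.1 h1 with h2 | h2
          · apply hua; rw [← h2, cr_self']
          · apply hua
            have : cr u v b = 0 := by rw [← h2, cr_self']
            linarith
        have hm2 := hm'
        rw [htz, coe3] at hm2
        obtain ⟨h3, h4, h5⟩ := cr_of_hull hD.le hm2
        have h6 := cr_expand u v z m
        have h7 : cr u v z * cr a b m = cr v z m * cr a b u + cr z u m * cr a b v := by
          have hcomb : ∀ (p q r : ℝ), cr a b (p • u + q • v + r • z) =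
              p * cr a b u + q * cr a b v + r * cr a b z +
              (1 - (p + q + r)) * cr a b 0 := by
            intro p q r
            unfold cr
            simp only [Prod.fst_add, Prod.snd_add, Prod.smul_fst, Prod.smul_snd, smul_eq_mul,
              Prod.fst_zero, Prod.snd_zero]
            ring
          have hD' : (cr u v z)⁻¹ * cr u v z = 1 := inv_mul_cancel₀ hD.ne'
          have h8 : m = ((cr u v z)⁻¹ * cr v z m) • u + ((cr u v z)⁻¹ * cr z u m) • v +
              ((cr u v z)⁻¹ * cr u v m) • z := by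
            calc m = (cr u v z)⁻¹ • ((cr u v z) • m) := by rw [inv_smul_smul₀ hD.ne']
              _ = (cr u v z)⁻¹ • ((cr v z m) • u + (cr z u m) • v + (cr u v m) • z) :=
                congrArg _ h6
              _ = _ := by module
          have hs1 : (cr u v z)⁻¹ * cr v z m + (cr u v z)⁻¹ * cr z u m +
              (cr u v z)⁻¹ * cr u v m = 1 := by
            have := cr_sum u v z m
            rw [← mul_add, ← mul_add]
            rw [show cr v z m + cr z u m + cr u v m = cr u v z by linarith]
            exact hD'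
          have h9 := cr_comb a b u v z _ _ _ hs1
          rw [← h8] at h9
          rw [h9, h0]
          field_simp
          ring
        rw [hcrm, mul_zero] at h7
        have hsum2 := cr_sum u v z m
        have hp1 : 0 < cr v z m := by
          rcases h4.lt_or_eq with h | h
          · exact h
          · exfalso
            rw [← h, zero_mul, zero_add] at h7
            have : cr z u m = cr u v z := by linarith
            rw [this] at h7
            rcases mul_eq_zero.1 h7.symm with h' | h'
            · exact hD.ne' h'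
            · exact hne2 h'
        have hp2 : 0 < cr z u m := by
          rcases h5.lt_or_eq with h | h
          · exact h
          · exfalso
            rw [← h, zero_mul, add_zero] at h7
            rcases mul_eq_zero.1 h7.symm with h' | h'
            · exact hp1.ne' h'
            · exact hne1 h'
        apply hT.noCross hab (c := u) (d := v) ⟨huv, t', ht', by rw [htz]; simp, by rw [htz]; simp⟩
        refine ⟨?_, ?_⟩
        · have h8 : cr z u m * (cr a b u * cr a b v) = - (cr v z m * (cr a b u) ^ 2) := by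
            have : cr z u m * cr a b v = - (cr v z m * cr a b u) := by linarith
            calc cr z u m * (cr a b u * cr a b v) = cr a b u * (cr z u m * cr a b v) := by ring
              _ = _ := by rw [this]; ring
          have h9 : 0 < (cr a b u) ^ 2 := by positivity
          have h10 : cr z u m * (cr a b u * cr a b v) < 0 := by rw [h8]; nlinarith
          by_contra hcon
          push Not at hcon
          have := mul_nonneg hp2.le hcon
          linarith
        · have h8 : cr u v b = - cr u v a := by linarith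
          rw [h8]
          have : 0 < cr u v a * cr u v a := mul_self_pos.2 hua
          linarith
    obtain ⟨u, v, z, htz, hD⟩ := repr_tri (hT.card t' ht') (hT.nondeg t' ht')
    have hm2 := hm'
    rw [htz, coe3] at hm2
    obtain ⟨h3, h4, h5⟩ := cr_of_hull hD.le hm2
    by_cases g1 : cr u v m = 0
    · exact key u v z htz hD g1
    by_cases g2 : cr v z m = 0
    · refine key v z u ?_ (by rwa [← cr_rot u v z]) g2
      rw [htz]; ext p; simp only [Finset.mem_insert, Finset.mem_singleton]; tauto
    by_cases g3 : cr z u m = 0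
    · refine key z u v ?_ (by rwa [cr_rot z u v]) g3
      rw [htz]; ext p; simp only [Finset.mem_insert, Finset.mem_singleton]; tauto
    exfalso
    have hint : m ∈ interior (convexHull ℝ ((t' : Finset Pt) : Set Pt)) := by
      rw [htz, coe3]
      exact mem_int_of_cr (lt_of_le_of_ne h3 (Ne.symm g1)) (lt_of_le_of_ne h4 (Ne.symm g2))
        (lt_of_le_of_ne h5 (Ne.symm g3))
    obtain ⟨hne, t, ht, hat, hbt⟩ := hab
    obtain ⟨c, htc, hc⟩ := hT.side_cr ht hne hat hbt
    by_cases htt : t = t'
    · rw [← htt, htc, coe3] at hint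
      -- m is on the boundary of t
      have hm3 := pos_of_open_ne hne hc hint
      exact hm3 hcrm
    · have h6 := hT.disj t ht t' ht' htt
      rw [htc, coe3] at h6
      have h7 := disj_hull_of_disj hc isOpen_interior h6
      refine Set.disjoint_left.1 h7 ?_ hint
      rw [mem_hull3]
      exact ⟨1/2, 1/2, 0, by norm_num, by norm_num, le_rfl, by norm_num, by rw [hm]; module⟩
  obtain ⟨c, htc, hc⟩ := hT.side_cr ht' hab.1 hclaim.1 hclaim.2
  refine ⟨c, htc ▸ ht', ?_⟩
  rw [htc, coe3] at hms
  obtain ⟨k, hk, hk2⟩ := cr_side_sign hms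
  rw [hcrs] at hk2
  have h8 : s * (cr a b x) ^ 2 = k * (cr a b c * cr a b x) := by
    calc s * (cr a b x) ^ 2 = (s * cr a b x) * cr a b x := by ring
      _ = _ := by rw [hk2]; ring
  have h9 : 0 < s * (cr a b x) ^ 2 := by positivity
  rw [h8] at h9
  by_contra hcon
  push Not at hcon
  nlinarith

/-- in general position a triangulation is strict -/
theorem IsTriangulation.strict (hP : GP P) (hT : IsTriangulation P T) : STri P T := by
  refine ⟨hT.sub, hT.card, hT.nondeg, hT.disj, hT.cover, ?_⟩
  intro t ht p hp hpt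
  by_contra hcon
  obtain ⟨a, b, c, rfl, hD⟩ := repr_tri (hT.card t ht) (hT.nondeg t ht)
  simp only [Finset.mem_insert, Finset.mem_singleton, not_or] at hcon
  have ha : a ∈ P := hT.sub _ ht (by simp)
  have hb : b ∈ P := hT.sub _ ht (by simp)
  have hc : c ∈ P := hT.sub _ ht (by simp)
  obtain ⟨hab, hac, hbc⟩ := ne_of_cr hD.ne'
  rw [coe3] at hpt
  obtain ⟨h1, h2, h3⟩ := cr_of_hull hD.le hpt
  have h4 := hP a ha b hb p hp hab (Ne.symm hcon.1) (Ne.symm hcon.2.1)
  have h5 := hP b hb c hc p hp hbc (Ne.symm hcon.2.1) (Ne.symm hcon.2.2)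
  have h6 := hP c hc a ha p hp hac.symm (Ne.symm hcon.2.2) (Ne.symm hcon.1)
  apply hT.empty _ ht p hp
  rw [coe3]
  exact mem_int_of_cr (lt_of_le_of_ne h1 h4.symm) (lt_of_le_of_ne h2 h5.symm)
    (lt_of_le_of_ne h3 h6.symm)

/-- a segment which is not crossed by any side is a side -/
theorem STri.side_of_noCross (hP : GP P) (hT : STri P T) {x y : Pt} (hx : x ∈ P) (hy : y ∈ P)
    (hxy : x ≠ y) (h : ∀ a b, Side T a b → ¬ Cross a b x y) : Side T x y := by
  obtain ⟨t, ht, hxt, s, hs, hst⟩ := hT.germ (m := x) (w := y - x) (by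
    intro s hs0 hs1
    have e : x + s • (y - x) = (1 - s) • x + s • y := by module
    rw [e]
    exact (convex_convexHull ℝ _) (subset_convexHull _ _ hx) (subset_convexHull _ _ hy)
      (by linarith) hs0.le (by ring))
  have hxmem := hT.strict t ht x hx hxt
  -- t = {x, b, c} with positive orientation
  obtain ⟨b, c, htc, hD⟩ : ∃ b c, t = {x, b, c} ∧ 0 < cr x b c := by
    obtain ⟨u, v, z, htz, hD⟩ := repr_tri (hT.card t ht) (hT.nondeg t ht)
    rw [htz] at hxmem
    simp only [Finset.mem_insert, Finset.mem_singleton] at hxmem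
    rcases hxmem with rfl | rfl | rfl
    · exact ⟨v, z, htz, hD⟩
    · refine ⟨z, u, ?_, by rwa [← cr_rot u x z]⟩
      rw [htz]; ext p; simp only [Finset.mem_insert, Finset.mem_singleton]; tauto
    · refine ⟨u, v, ?_, by rwa [cr_rot x u v]⟩
      rw [htz]; ext p; simp only [Finset.mem_insert, Finset.mem_singleton]; tauto
  have hbP : b ∈ P := hT.sub t ht (by rw [htc]; simp)
  have hcP : c ∈ P := hT.sub t ht (by rw [htc]; simp)
  obtain ⟨hxb, hxc, hbc⟩ := ne_of_cr hD.ne'
  have e : x + s • (y - x) = (1 - s) • x + s • y := by module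
  rw [htc, coe3, e] at hst
  obtain ⟨h1, h2, h3⟩ := cr_of_hull hD.le hst
  rw [cr_comb2 _ _ _ _ _ _ (by ring), cr_self] at h1
  rw [cr_comb2 _ _ _ _ _ _ (by ring), cr_self'] at h3
  have h1' : 0 ≤ cr x b y := by
    by_contra hcon; push Not at hcon; nlinarith
  have h3' : 0 ≤ cr c x y := by
    by_contra hcon; push Not at hcon; nlinarith
  rcases h1'.lt_or_eq with g1 | g1
  · rcases h3'.lt_or_eq with g3 | g3
    · rcases le_or_gt 0 (cr b c y) with g2 | g2
      · have hyt : y ∈ t := by
          apply hT.strict t ht y hy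
          rw [htc, coe3]
          exact mem_hull_of_cr hD h1' g2 h3'
        exact ⟨hxy, t, ht, hxmem, hyt⟩
      · exfalso
        apply h b c ⟨hbc, t, ht, by rw [htc]; simp, by rw [htc]; simp⟩
        refine ⟨?_, ?_⟩
        · have : 0 < cr b c x := by rwa [← cr_rot x b c]
          nlinarith
        · have e1 : cr x y b = - cr x b y := by unfold cr; ring
          have e2 : cr x y c = cr c x y := by unfold cr; ring
          rw [e1, e2]
          nlinarith
    · rcases hP.mem_of_cr hcP hx hy hxc.symm g3.symm with h4 | h4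
      · exact ⟨hxy, t, ht, hxmem, by rw [htc, h4]; simp⟩
      · exact absurd h4.symm hxy
  · rcases hP.mem_of_cr hx hbP hy hxb g1.symm with h4 | h4
    · exact absurd h4.symm hxy
    · exact ⟨hxy, t, ht, hxmem, by rw [htc, h4]; simp⟩

/-- the triangle on one side of a side is unique -/
theorem STri.unique (hT : STri P T) {a b c d : Pt} (hc : {a, b, c} ∈ T) (hd : {a, b, d} ∈ T)
    (h : 0 < cr a b c * cr a b d) : c = d := by
  by_contra hcd
  have hne : ({a, b, c} : Finset Pt) ≠ {a, b, d} := by
    intro he
    have hcr : cr a b c ≠ 0 := by intro h0; rw [h0] at h; linarith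
    have h1 := ne_of_cr hcr
    have h2 : c ∈ ({a, b, d} : Finset Pt) := by rw [← he]; simp
    simp only [Finset.mem_insert, Finset.mem_singleton] at h2
    rcases h2 with h2 | h2 | h2
    · exact h1.2.1 h2.symm
    · exact h1.2.2 h2.symm
    · exact hcd h2
  have h1 := hT.disj _ hc _ hd hne
  rw [coe3, coe3] at h1
  rcases lt_trichotomy (cr a b c) 0 with g | g | g
  · have g1 : 0 < cr b a c := by rw [cr_swap]; linarith
    have g2 : 0 < cr b a d := by rw [cr_swap]; nlinarith
    obtain ⟨p, hp1, hp2⟩ := overlap g1 g2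
    rw [Set.insert_comm] at hp1 hp2
    exact Set.disjoint_left.1 h1 hp1 hp2
  · rw [g] at h; linarith
  · have g2 : 0 < cr a b d := by nlinarith
    obtain ⟨p, hp1, hp2⟩ := overlap g g2
    exact Set.disjoint_left.1 h1 hp1 hp2

end MP91a79a

end
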