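import Pool.Agent.Lib.MP_91a79a_co.InsBase

/-!
# MP_91a79a_co, time half: flips of crossing pairs (helper50)

* `Cross.quad` , `Cross.convQuad`;
* `STri.simFlip` : flipping a set of crossing pairs at once gives a triangulation and is a
  simultaneous flip;
* `SimFlip.symm`, `Reach.symm` : simultaneous flips are reversible (general position).
-/

noncomputable section

namespace MP91a79a

open Set Filter Topology

theorem perm_bac (a b c : Pt) : ({b, a, c} : Finset Pt) = {a, b, c} := by
  ext p; simp only [Finset.mem_insert, Finset.mem_singleton]; tauto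
theorem perm_acb (a b c : Pt) : ({a, c, b} : Finset Pt) = {a, b, c} := by
  ext p; simp only [Finset.mem_insert, Finset.mem_singleton]; tauto
theorem perm_bca (a b c : Pt) : ({b, c, a} : Finset Pt) = {a, b, c} := by
  ext p; simp only [Finset.mem_insert, Finset.mem_singleton]; tauto
theorem perm_cab (a b c : Pt) : ({c, a, b} : Finset Pt) = {a, b, c} := by
  ext p; simp only [Finset.mem_insert, Finset.mem_singleton]; tauto

theorem sperm_bac (a b c : Pt) : ({b, a, c} : Set Pt) = {a, b, c} := by
  ext p; simp only [Set.mem_insert_iff, Set.mem_singleton_iff]; tauto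
theorem sperm_acb (a b c : Pt) : ({a, c, b} : Set Pt) = {a, b, c} := by
  ext p; simp only [Set.mem_insert_iff, Set.mem_singleton_iff]; tauto
theorem sperm_bca (a b c : Pt) : ({b, c, a} : Set Pt) = {a, b, c} := by
  ext p; simp only [Set.mem_insert_iff, Set.mem_singleton_iff]; tauto
theorem sperm_cab (a b c : Pt) : ({c, a, b} : Set Pt) = {a, b, c} := by
  ext p; simp only [Set.mem_insert_iff, Set.mem_singleton_iff]; tauto

/-- the quadrilateral with vertices `a, c, b, d` in counterclockwise order -/
def quadset (a c b d : Pt) : Set Pt :=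
  {z | 0 ≤ cr a c z ∧ 0 ≤ cr c b z ∧ 0 ≤ cr b d z ∧ 0 ≤ cr d a z}

theorem quadset_rot (a c b d : Pt) : quadset c b d a = quadset a c b d := by
  ext z; simp only [quadset, Set.mem_ofPred_eq]; tauto

theorem convex_halfplane (a b : Pt) : Convex ℝ {z | 0 ≤ cr a b z} := by
  intro x hx y hy u v hu hv huv
  simp only [Set.mem_ofPred_eq] at *
  rw [cr_comb2 _ _ _ _ _ _ huv]
  positivity

theorem convex_quadset (a c b d : Pt) : Convex ℝ (quadset a c b d) :=
  (convex_halfplane a c).inter ((convex_halfplane c b).inter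
    ((convex_halfplane b d).inter (convex_halfplane d a)))

theorem quad_eq {a b c d : Pt} (h1 : cr a b c < 0) (h2 : 0 < cr a b d) (h3 : 0 < cr c d a)
    (h4 : cr c d b < 0) :
    convexHull ℝ ({a, b, c} : Set Pt) ∪ convexHull ℝ ({a, b, d} : Set Pt) = quadset a c b d := by
  have e1 : 0 < cr a c b := by have : cr a c b = - cr a b c := by unfold cr; ring
                               linarith
  have e2 : 0 < cr c b d := by have : cr c b d = - cr c d b := by unfold cr; ring
                               linarith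
  have e3 : 0 < cr b d a := by rwa [← cr_rot a b d]
  have e4 : 0 < cr b d c := by rwa [← cr_rot c b d]
  have e5 : 0 < cr d a c := by rwa [← cr_rot c d a]
  have e6 : 0 < cr d a b := by rwa [cr_rot d a b]
  have e7 : 0 < cr a c d := by rwa [cr_rot a c d]
  have e8 : 0 < cr c b a := by rwa [← cr_rot a c b]
  apply Subset.antisymm
  · rintro z (hz | hz)
    · rw [← sperm_acb] at hz
      rw [mem_hull3] at hz
      obtain ⟨u, v, w, hu, hv, hw, hs, rfl⟩ := hz
      refine ⟨?_, ?_, ?_, ?_⟩ <;> rw [cr_comb _ _ _ _ _ _ _ _ hs] <;>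
        simp only [cr_self, cr_self', mul_zero, zero_add, add_zero] <;> positivity
    · rw [mem_hull3] at hz
      obtain ⟨u, v, w, hu, hv, hw, hs, rfl⟩ := hz
      refine ⟨?_, ?_, ?_, ?_⟩ <;> rw [cr_comb _ _ _ _ _ _ _ _ hs] <;>
        simp only [cr_self, cr_self', mul_zero, zero_add, add_zero] <;> positivity
  · rintro z ⟨g1, g2, g3, g4⟩
    rcases le_or_gt 0 (cr a b z) with g | g
    · right
      exact mem_hull_of_cr h2 g g3 g4
    · left
      rw [← sperm_acb]
      exact mem_hull_of_cr e1 g1 g2 (by rw [cr_swap]; linarith)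

theorem Cross.signs {a b c d : Pt} (h : Cross a b c d) :
    (cr a b c < 0 ∧ 0 < cr a b d ∧ 0 < cr c d a ∧ cr c d b < 0) ∨
    (cr a b d < 0 ∧ 0 < cr a b c ∧ 0 < cr d c a ∧ cr d c b < 0) := by
  obtain ⟨h1, h2⟩ := h
  have hD : cr c d a - cr c d b = cr a b d - cr a b c := by unfold cr; ring
  have e1 : cr d c a = - cr c d a := cr_swap c d a
  have e2 : cr d c b = - cr c d b := cr_swap c d b
  rcases mul_neg_iff.1 h1 with ⟨g1, g2⟩ | ⟨g1, g2⟩
  · right
    rcases mul_neg_iff.1 h2 with ⟨g3, g4⟩ | ⟨g3, g4⟩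
    · exfalso; linarith
    · refine ⟨g2, g1, ?_, ?_⟩ <;> linarith
  · left
    rcases mul_neg_iff.1 h2 with ⟨g3, g4⟩ | ⟨g3, g4⟩
    · exact ⟨g1, g2, g3, g4⟩
    · exfalso; linarith

/-- union of the two triangles on both diagonals -/
theorem Cross.quad {a b c d : Pt} (h : Cross a b c d) :
    convexHull ℝ ({a, b, c} : Set Pt) ∪ convexHull ℝ ({a, b, d} : Set Pt) =
      convexHull ℝ ({a, c, d} : Set Pt) ∪ convexHull ℝ ({b, c, d} : Set Pt) ∧
    Convex ℝ (convexHull ℝ ({a, b, c} : Set Pt) ∪ convexHull ℝ ({a, b, d} : Set Pt)) := by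
  rcases h.signs with ⟨h1, h2, h3, h4⟩ | ⟨h1, h2, h3, h4⟩
  · have e1 := quad_eq h1 h2 h3 h4
    have e2 := quad_eq (a := c) (b := d) (c := b) (d := a) h4 h3 (by rw [cr_swap]; linarith)
      (by rw [cr_swap]; linarith)
    rw [quadset_rot, Set.union_comm] at e2
    rw [e1]
    refine ⟨?_, convex_quadset _ _ _ _⟩
    rw [← e2, ← sperm_bca a c d, ← sperm_bca b c d]
  · have e1 := quad_eq (a := a) (b := b) (c := d) (d := c) h1 h2 h3 h4
    have e2 := quad_eq (a := d) (b := c) (c := b) (d := a) h4 h3 (by rw [cr_swap]; linarith)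
      (by rw [cr_swap]; linarith)
    rw [quadset_rot, Set.union_comm] at e2
    rw [Set.union_comm] at e1
    rw [e1]
    refine ⟨?_, convex_quadset _ _ _ _⟩
    rw [← e2]
    congr 2
    · ext p; simp only [Set.mem_insert_iff, Set.mem_singleton_iff]; tauto
    · ext p; simp only [Set.mem_insert_iff, Set.mem_singleton_iff]; tauto

/-- `b` is not in the triangle `acd` if `ab` and `cd` cross -/
theorem not_mem_of_cross {a b c d : Pt} (h : cr c d a * cr c d b < 0) :
    b ∉ convexHull ℝ ({a, c, d} : Set Pt) := by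
  intro hb
  rw [← sperm_bca] at hb
  obtain ⟨k, hk, hk2⟩ := cr_side_sign hb
  rw [hk2] at h
  have : 0 ≤ k * (cr c d a * cr c d a) := mul_nonneg hk (mul_self_nonneg _)
  nlinarith

theorem Cross.convQuad {a b c d : Pt} (h : Cross a b c d) : ConvQuad a b c d := by
  refine ⟨h.quad.2, ?_⟩
  obtain ⟨hab, hac, had, hbc, hbd, hcd⟩ := h.distinct
  intro x hx
  simp only [Set.mem_insert_iff, Set.mem_singleton_iff] at hx
  have key : ∀ x y z w : Pt, cr y z w * cr y z x < 0 →
      ({a, b, c, d} : Set Pt) \ {x} ⊆ {w, y, z} → x ∉ convexHull ℝ (({a, b, c, d} : Set Pt) \ {x}) := by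
    intro x y z w h1 h2 hx
    exact not_mem_of_cross h1 (convexHull_mono h2 hx)
  rcases hx with rfl | rfl | rfl | rfl
  · apply key x c d b (by have := h.2; linarith)
    intro p hp
    simp only [Set.mem_sdiff, Set.mem_insert_iff, Set.mem_singleton_iff] at hp ⊢
    tauto
  · apply key x c d a (by have := h.2; linarith)
    intro p hp
    simp only [Set.mem_sdiff, Set.mem_insert_iff, Set.mem_singleton_iff] at hp ⊢
    tauto
  · apply key x a b d (by have := h.1; linarith)
    intro p hp
    simp only [Set.mem_sdiff, Set.mem_insert_iff, Set.mem_singleton_iff] at hp ⊢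
    tauto
  · apply key x a b c (by have := h.1; linarith)
    intro p hp
    simp only [Set.mem_sdiff, Set.mem_insert_iff, Set.mem_singleton_iff] at hp ⊢
    tauto

variable {P : Finset Pt} {T : Finset (Finset Pt)}

theorem STri.disj_hull (hT : STri P T) {s t : Finset Pt} (hs : s ∈ T) (ht : t ∈ T) (hst : s ≠ t) :
    Disjoint (convexHull ℝ (s : Set Pt)) (interior (convexHull ℝ (t : Set Pt))) := by
  obtain ⟨a, b, c, rfl, h⟩ := repr_tri (hT.card s hs) (hT.nondeg s hs)
  have h1 := hT.disj _ hs _ ht hst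
  rw [coe3] at h1 ⊢
  exact disj_hull_of_disj h.ne' isOpen_interior h1

theorem STri.nonempty_int (hT : STri P T) {s : Finset Pt} (hs : s ∈ T) :
    (interior (convexHull ℝ (s : Set Pt))).Nonempty := by
  obtain ⟨a, b, c, rfl, h⟩ := repr_tri (hT.card s hs) (hT.nondeg s hs)
  rw [coe3]
  exact int_nonempty h.ne'

/-- a single flip -/
theorem STri.flip (hT : STri P T) {a b c d : Pt} (h1 : {a, b, c} ∈ T) (h2 : {a, b, d} ∈ T)
    (h : Cross a b c d) :
    STri P ((T \ {{a, b, c}, {a, b, d}}) ∪ {{a, c, d}, {b, c, d}}) := by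
  obtain ⟨hab, hac, had, hbc, hbd, hcd⟩ := h.distinct
  obtain ⟨hq, hconv⟩ := h.quad
  obtain ⟨n1, n2, n3, n4⟩ := h.ne
  have haP : a ∈ P := hT.sub _ h1 (by simp)
  have hbP : b ∈ P := hT.sub _ h1 (by simp)
  have hcP : c ∈ P := hT.sub _ h1 (by simp)
  have hdP : d ∈ P := hT.sub _ h2 (by simp)
  have hnew : ∀ n ∈ ({{a, c, d}, {b, c, d}} : Finset (Finset Pt)),
      convexHull ℝ (n : Set Pt) ⊆
        convexHull ℝ ({a, b, c} : Set Pt) ∪ convexHull ℝ ({a, b, d} : Set Pt) := by
    intro n hn
    rw [hq]
    simp only [Finset.mem_insert, Finset.mem_singleton] at hn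
    rcases hn with rfl | rfl
    · rw [coe3]; exact Set.subset_union_left
    · rw [coe3]; exact Set.subset_union_right
  have hmix : ∀ s ∈ T \ {{a, b, c}, {a, b, d}}, ∀ n ∈ ({{a, c, d}, {b, c, d}} : Finset (Finset Pt)),
      Disjoint (interior (convexHull ℝ (s : Set Pt))) (interior (convexHull ℝ (n : Set Pt))) := by
    intro s hs n hn
    rw [Finset.mem_sdiff, Finset.mem_insert, Finset.mem_singleton, not_or] at hs
    rw [Set.disjoint_left]
    intro z hz hzn
    have hz2 := hnew n hn (interior_subset hzn)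
    rcases hz2 with hz2 | hz2
    · have h3 := hT.disj_hull h1 hs.1 (Ne.symm hs.2.1)
      rw [coe3] at h3
      exact Set.disjoint_left.1 h3 hz2 hz
    · have h3 := hT.disj_hull h2 hs.1 (Ne.symm hs.2.2)
      rw [coe3] at h3
      exact Set.disjoint_left.1 h3 hz2 hz
  have hmem : ∀ s, s ∈ (T \ {{a, b, c}, {a, b, d}}) ∪ {{a, c, d}, {b, c, d}} ↔
      s ∈ T \ {{a, b, c}, {a, b, d}} ∨ s ∈ ({{a, c, d}, {b, c, d}} : Finset (Finset Pt)) :=
    fun s => Finset.mem_union
  refine ⟨?_, ?_, ?_, ?_, ?_, ?_⟩
  · intro s hs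
    rcases (hmem s).1 hs with hs | hs
    · exact hT.sub s (Finset.mem_sdiff.1 hs).1
    · simp only [Finset.mem_insert, Finset.mem_singleton] at hs
      rcases hs with rfl | rfl
      · intro p hp
        simp only [Finset.mem_insert, Finset.mem_singleton] at hp
        rcases hp with rfl | rfl | rfl <;> assumption
      · intro p hp
        simp only [Finset.mem_insert, Finset.mem_singleton] at hp
        rcases hp with rfl | rfl | rfl <;> assumption
  · intro s hs
    rcases (hmem s).1 hs with hs | hs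
    · exact hT.card s (Finset.mem_sdiff.1 hs).1
    · simp only [Finset.mem_insert, Finset.mem_singleton] at hs
      rcases hs with rfl | rfl
      · exact Finset.card_eq_three.2 ⟨a, c, d, hac, had, hcd, rfl⟩
      · exact Finset.card_eq_three.2 ⟨b, c, d, hbc, hbd, hcd, rfl⟩
  · intro s hs
    rcases (hmem s).1 hs with hs | hs
    · exact hT.nondeg s (Finset.mem_sdiff.1 hs).1
    · simp only [Finset.mem_insert, Finset.mem_singleton] at hs
      rcases hs with rfl | rfl
      · rw [coe3, collinear_iff, cr_rot]; exact n3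
      · rw [coe3, collinear_iff, cr_rot]; exact n4
  · intro s hs t ht hst
    rcases (hmem s).1 hs with hs | hs
    · rcases (hmem t).1 ht with ht | ht
      · exact hT.disj s (Finset.mem_sdiff.1 hs).1 t (Finset.mem_sdiff.1 ht).1 hst
      · exact hmix s hs t ht
    · rcases (hmem t).1 ht with ht | ht
      · exact (hmix t ht s hs).symm
      · have key : ∀ A B : Set Pt, (∀ x ∈ A, 0 ≤ cr c d a * cr c d x) →
            (∀ x ∈ B, cr c d a * cr c d x ≤ 0) → Disjoint (interior A) (interior B) := by
          intro A B hA hB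
          rcases lt_or_gt_of_ne n3 with g | g
          · apply disj_of_line hcd.symm
            · intro x hx
              have := hA x hx
              rw [cr_swap]; nlinarith
            · intro x hx
              have := hB x hx
              rw [cr_swap]; nlinarith
          · apply disj_of_line hcd
            · intro x hx
              have := hA x hx
              nlinarith
            · intro x hx
              have := hB x hx
              nlinarith
        have k1 : ∀ x ∈ convexHull ℝ ({a, c, d} : Set Pt), 0 ≤ cr c d a * cr c d x := by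
          intro x hx
          rw [← sperm_bca] at hx
          obtain ⟨k, hk, hk2⟩ := cr_side_sign hx
          rw [hk2]
          have : 0 ≤ k * (cr c d a * cr c d a) := mul_nonneg hk (mul_self_nonneg _)
          linarith
        have k2 : ∀ x ∈ convexHull ℝ ({b, c, d} : Set Pt), cr c d a * cr c d x ≤ 0 := by
          intro x hx
          rw [← sperm_bca] at hx
          obtain ⟨k, hk, hk2⟩ := cr_side_sign hx
          rw [hk2]
          have := mul_nonneg hk (neg_nonneg.2 h.2.le)
          linarith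
        simp only [Finset.mem_insert, Finset.mem_singleton] at hs ht
        rcases hs with rfl | rfl <;> rcases ht with rfl | rfl
        · exact absurd rfl hst
        · rw [coe3, coe3]; exact key _ _ k1 k2
        · rw [coe3, coe3]; exact (key _ _ k1 k2).symm
        · exact absurd rfl hst
  · rw [← hT.cover]
    apply Subset.antisymm
    · intro z hz
      simp only [Set.mem_iUnion, exists_prop] at hz ⊢
      obtain ⟨s, hs, hz⟩ := hz
      rcases (hmem s).1 hs with hs | hs
      · exact ⟨s, (Finset.mem_sdiff.1 hs).1, hz⟩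
      · rcases hnew s hs hz with h3 | h3
        · exact ⟨_, h1, by rw [coe3]; exact h3⟩
        · exact ⟨_, h2, by rw [coe3]; exact h3⟩
    · intro z hz
      simp only [Set.mem_iUnion, exists_prop] at hz ⊢
      obtain ⟨s, hs, hz⟩ := hz
      by_cases hs2 : s ∈ ({{a, b, c}, {a, b, d}} : Finset (Finset Pt))
      · have h3 : z ∈ convexHull ℝ ({a, b, c} : Set Pt) ∪ convexHull ℝ ({a, b, d} : Set Pt) := by
          simp only [Finset.mem_insert, Finset.mem_singleton] at hs2
          rcases hs2 with rfl | rfl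
          · rw [coe3] at hz; exact Or.inl hz
          · rw [coe3] at hz; exact Or.inr hz
        rw [hq] at h3
        rcases h3 with h3 | h3
        · exact ⟨{a, c, d}, (hmem _).2 (Or.inr (by simp)), by rw [coe3]; exact h3⟩
        · exact ⟨{b, c, d}, (hmem _).2 (Or.inr (by simp)), by rw [coe3]; exact h3⟩
      · exact ⟨s, (hmem _).2 (Or.inl (Finset.mem_sdiff.2 ⟨hs, hs2⟩)), hz⟩
  · intro s hs p hp hps
    rcases (hmem s).1 hs with hs | hs
    · exact hT.strict s (Finset.mem_sdiff.1 hs).1 p hp hps
    · have h3 : p = a ∨ p = b ∨ p = c ∨ p = d := by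
        rcases hnew s hs hps with h4 | h4
        · have := hT.strict _ h1 p hp (by rw [coe3]; exact h4)
          simp only [Finset.mem_insert, Finset.mem_singleton] at this
          tauto
        · have := hT.strict _ h2 p hp (by rw [coe3]; exact h4)
          simp only [Finset.mem_insert, Finset.mem_singleton] at this
          tauto
      simp only [Finset.mem_insert, Finset.mem_singleton] at hs
      rcases hs with rfl | rfl
      · rcases h3 with rfl | rfl | rfl | rfl
        · simp
        · exfalso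
          rw [coe3] at hps
          exact not_mem_of_cross h.2 hps
        · simp
        · simp
      · rcases h3 with rfl | rfl | rfl | rfl
        · exfalso
          rw [coe3] at hps
          exact not_mem_of_cross (by have := h.2; linarith) hps
        · simp
        · simp
        · simp

/-- new triangles are not in the old triangulation -/
theorem STri.new_not_mem (hT : STri P T) {a b c d : Pt} (h1 : {a, b, c} ∈ T)
    (h : Cross a b c d) {n : Finset Pt} (hn : n ∈ ({{a, c, d}, {b, c, d}} : Finset (Finset Pt))) :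
    n ∉ T := by
  intro hnT
  obtain ⟨hab, hac, had, hbc, hbd, hcd⟩ := h.distinct
  have hcn : c ∈ n ∧ d ∈ n := by
    simp only [Finset.mem_insert, Finset.mem_singleton] at hn
    rcases hn with rfl | rfl <;> simp
  exact hT.noCross ⟨hab, _, h1, by simp, by simp⟩ ⟨hcd, n, hnT, hcn.1, hcn.2⟩ h

/-- flipping a set of crossing pairs, no two in a common triangle -/
theorem STri.simFlip_aux (hT : STri P T) (F : Finset FlipData)
    (hF : ∀ q ∈ F, {q.a, q.b, q.c} ∈ T ∧ {q.a, q.b, q.d} ∈ T ∧ Cross q.a q.b q.c q.d)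
    (hd : ∀ q ∈ F, ∀ q' ∈ F, q ≠ q' → ∀ t ∈ T, ¬ (q.a ∈ t ∧ q.b ∈ t ∧ q'.a ∈ t ∧ q'.b ∈ t)) :
    STri P ((T \ F.biUnion FlipData.old) ∪ F.biUnion FlipData.new) := by
  classical
  induction F using Finset.induction_on with
  | empty => simpa using hT
  | insert q F hq ih =>
    have ih' := ih (fun q' hq' => hF q' (Finset.mem_insert_of_mem hq'))
      (fun q' hq' q'' hq'' => hd q' (Finset.mem_insert_of_mem hq') q'' (Finset.mem_insert_of_mem hq''))
    obtain ⟨g1, g2, g3⟩ := hF q (Finset.mem_insert_self _ _)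
    have hnot : ∀ s ∈ q.old, s ∉ F.biUnion FlipData.old := by
      intro s hs hs2
      rw [Finset.mem_biUnion] at hs2
      obtain ⟨q', hq', hs2⟩ := hs2
      have hne : q ≠ q' := by rintro rfl; exact hq hq'
      have hsT : s ∈ T := by
        simp only [FlipData.old, Finset.mem_insert, Finset.mem_singleton] at hs
        rcases hs with rfl | rfl <;> assumption
      apply hd q (Finset.mem_insert_self _ _) q' (Finset.mem_insert_of_mem hq') hne s hsT
      simp only [FlipData.old, Finset.mem_insert, Finset.mem_singleton] at hs hs2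
      refine ⟨?_, ?_, ?_, ?_⟩
      · rcases hs with rfl | rfl <;> simp
      · rcases hs with rfl | rfl <;> simp
      · rcases hs2 with rfl | rfl <;> simp
      · rcases hs2 with rfl | rfl <;> simp
    have hnew : ∀ s ∈ F.biUnion FlipData.new, s ∉ T := by
      intro s hs
      rw [Finset.mem_biUnion] at hs
      obtain ⟨q', hq', hs⟩ := hs
      obtain ⟨g1', g2', g3'⟩ := hF q' (Finset.mem_insert_of_mem hq')
      exact hT.new_not_mem g1' g3' hs
    have m1 : ({q.a, q.b, q.c} : Finset Pt) ∈ (T \ F.biUnion FlipData.old) ∪ F.biUnion FlipData.new :=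
      Finset.mem_union_left _ (Finset.mem_sdiff.2 ⟨g1, hnot _ (by simp [FlipData.old])⟩)
    have m2 : ({q.a, q.b, q.d} : Finset Pt) ∈ (T \ F.biUnion FlipData.old) ∪ F.biUnion FlipData.new :=
      Finset.mem_union_left _ (Finset.mem_sdiff.2 ⟨g2, hnot _ (by simp [FlipData.old])⟩)
    have h := ih'.flip m1 m2 g3
    convert h using 1
    rw [Finset.biUnion_insert, Finset.biUnion_insert]
    have hold : q.old ⊆ T := by
      intro s hs
      simp only [FlipData.old, Finset.mem_insert, Finset.mem_singleton] at hs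
      rcases hs with rfl | rfl <;> assumption
    change (T \ (q.old ∪ F.biUnion FlipData.old)) ∪ (q.new ∪ F.biUnion FlipData.new) =
      ((T \ F.biUnion FlipData.old) ∪ F.biUnion FlipData.new) \ q.old ∪ q.new
    ext s
    simp only [Finset.mem_union, Finset.mem_sdiff]
    constructor
    · rintro (⟨k1, k2⟩ | (k1 | k1))
      · push Not at k2
        exact Or.inl ⟨Or.inl ⟨k1, k2.2⟩, k2.1⟩
      · exact Or.inr k1
      · exact Or.inl ⟨Or.inr k1, fun k2 => hnew s k1 (hold k2)⟩
    · rintro (⟨(⟨k1, k2⟩ | k1), k3⟩ | k1)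
      · exact Or.inl ⟨k1, by push Not; exact ⟨k3, k2⟩⟩
      · exact Or.inr (Or.inr k1)
      · exact Or.inr (Or.inl k1)

theorem simFlip_of {T : Finset (Finset Pt)} (F : Finset FlipData)
    (hF : ∀ q ∈ F, {q.a, q.b, q.c} ∈ T ∧ {q.a, q.b, q.d} ∈ T ∧ Cross q.a q.b q.c q.d)
    (hd : ∀ q ∈ F, ∀ q' ∈ F, q ≠ q' → ∀ t ∈ T, ¬ (q.a ∈ t ∧ q.b ∈ t ∧ q'.a ∈ t ∧ q'.b ∈ t)) :
    SimFlip T ((T \ F.biUnion FlipData.old) ∪ F.biUnion FlipData.new) := by
  refine ⟨F, ?_, hd, rfl⟩
  intro q hq
  obtain ⟨h1, h2, h3⟩ := hF q hq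
  exact ⟨h3.distinct.2.2.2.2.2, h1, h2, h3.convQuad⟩

/-- flipping a set of crossing pairs, no two in a common triangle -/
theorem STri.simFlip (hT : STri P T) (F : Finset FlipData)
    (hF : ∀ q ∈ F, {q.a, q.b, q.c} ∈ T ∧ {q.a, q.b, q.d} ∈ T ∧ Cross q.a q.b q.c q.d)
    (hd : ∀ q ∈ F, ∀ q' ∈ F, q ≠ q' → ∀ t ∈ T, ¬ (q.a ∈ t ∧ q.b ∈ t ∧ q'.a ∈ t ∧ q'.b ∈ t)) :
    STri P ((T \ F.biUnion FlipData.old) ∪ F.biUnion FlipData.new) ∧
      SimFlip T ((T \ F.biUnion FlipData.old) ∪ F.biUnion FlipData.new) :=
  ⟨hT.simFlip_aux F hF hd, simFlip_of F hF hd⟩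

end MP91a79a

end
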