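import Pool.Agent.Lib.MP_91a79a_co.InsFlip

/-!
# MP_91a79a_co, time half: simultaneous flips are reversible (helper50)
-/

noncomputable section

namespace MP91a79a

open Set Filter Topology

variable {P : Finset Pt} {T T' : Finset (Finset Pt)}

theorem ConvQuad.cross {a b c d : Pt} (h : ConvQuad a b c d) (hopp : cr a b c * cr a b d < 0) :
    Cross a b c d := by
  refine ⟨hopp, ?_⟩
  have n1 : cr a b c ≠ 0 := by intro h0; rw [h0] at hopp; linarith
  have n2 : cr a b d ≠ 0 := by intro h0; rw [h0] at hopp; linarith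
  obtain ⟨hab, hac, hbc⟩ := ne_of_cr n1
  obtain ⟨-, had, hbd⟩ := ne_of_cr n2
  set D : ℝ := cr a b d - cr a b c with hD
  have hD2 : cr c d a - cr c d b = D := by rw [hD]; unfold cr; ring
  have hDne : D ≠ 0 := by
    intro h0
    have : cr a b d = cr a b c := by linarith
    rw [this] at hopp
    nlinarith [mul_self_nonneg (cr a b c)]
  have e3 : 0 < cr a b d / D := by
    rcases lt_or_gt_of_ne hDne with h | h
    · apply div_pos_of_neg_of_neg _ h
      by_contra hcon
      push Not at hcon
      nlinarith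
    · apply div_pos _ h
      by_contra hcon
      push Not at hcon
      nlinarith
  have e4 : 0 < -cr a b c / D := by
    rcases lt_or_gt_of_ne hDne with h | h
    · apply div_pos_of_neg_of_neg _ h
      by_contra hcon
      push Not at hcon
      nlinarith
    · apply div_pos _ h
      by_contra hcon
      push Not at hcon
      nlinarith
  have e5 : cr a b d / D + -cr a b c / D = 1 := by
    rw [← add_div, div_eq_one_iff_eq hDne]; linarith
  set z : Pt := (cr a b d / D) • c + (-cr a b c / D) • d with hz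
  have hzab : cr a b z = 0 := by
    rw [hz, cr_comb2 _ _ _ _ _ _ e5]; field_simp; ring
  have hzcd : cr c d z = 0 := by
    rw [hz, cr_comb2 _ _ _ _ _ _ e5, cr_self, cr_self']; ring
  have hzU : z ∈ convexHull ℝ ({a, b, c} : Set Pt) ∪ convexHull ℝ ({a, b, d} : Set Pt) := by
    apply h.1 _ _ e3.le e4.le e5
    · exact Or.inl (subset_convexHull _ _ (by simp))
    · exact Or.inr (subset_convexHull _ _ (by simp))
  obtain ⟨u, v, hu, hv, huv, hzuv⟩ : ∃ u v : ℝ, 0 ≤ u ∧ 0 ≤ v ∧ u + v = 1 ∧ z = u • a + v • b := by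
    rcases hzU with hzU | hzU
    · rw [mem_hull3] at hzU
      obtain ⟨u, v, w, hu, hv, hw, hs, hzz⟩ := hzU
      rw [hzz, cr_comb _ _ _ _ _ _ _ _ hs, cr_self, cr_self'] at hzab
      have hw0 : w = 0 := by
        have : w * cr a b c = 0 := by linarith
        rcases mul_eq_zero.1 this with h | h
        · exact h
        · exact absurd h n1
      refine ⟨u, v, hu, hv, by linarith, ?_⟩
      rw [hzz, hw0]; simp
    · rw [mem_hull3] at hzU
      obtain ⟨u, v, w, hu, hv, hw, hs, hzz⟩ := hzU
      rw [hzz, cr_comb _ _ _ _ _ _ _ _ hs, cr_self, cr_self'] at hzab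
      have hw0 : w = 0 := by
        have : w * cr a b d = 0 := by linarith
        rcases mul_eq_zero.1 this with h | h
        · exact h
        · exact absurd h n2
      refine ⟨u, v, hu, hv, by linarith, ?_⟩
      rw [hzz, hw0]; simp
  have hzseg : ∀ S : Set Pt, c ∈ S → d ∈ S → z ∈ convexHull ℝ S := by
    intro S hc hd
    exact (convex_convexHull ℝ S) (subset_convexHull _ _ hc) (subset_convexHull _ _ hd) e3.le e4.le e5
  have hu0 : 0 < u := by
    rcases hu.lt_or_eq with h' | h'
    · exact h'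
    · exfalso
      have hzb : z = b := by
        rw [hzuv, ← h']; rw [← h', zero_add] at huv; rw [huv]; simp
      apply h.2 b (by simp)
      have := hzseg (({a, b, c, d} : Set Pt) \ {b}) ⟨by simp, by simpa using hbc.symm⟩
        ⟨by simp, by simpa using hbd.symm⟩
      rwa [hzb] at this
  have hv0 : 0 < v := by
    rcases hv.lt_or_eq with h' | h'
    · exact h'
    · exfalso
      have hza : z = a := by
        rw [hzuv, ← h']; rw [← h', add_zero] at huv; rw [huv]; simp
      apply h.2 a (by simp)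
      have := hzseg (({a, b, c, d} : Set Pt) \ {a}) ⟨by simp, by simpa using hac.symm⟩
        ⟨by simp, by simpa using had.symm⟩
      rwa [hza] at this
  rw [hzuv, cr_comb2 _ _ _ _ _ _ huv] at hzcd
  have hna : cr c d a ≠ 0 := by
    intro h0
    rw [h0, mul_zero, zero_add] at hzcd
    rcases mul_eq_zero.1 hzcd with h' | h'
    · exact hv0.ne' h'
    · rw [h0, h'] at hD2; exact hDne (by linarith)
  have e6 : u * (cr c d a * cr c d b) = - (v * (cr c d b * cr c d b)) := by
    have : u * cr c d a = - (v * cr c d b) := by linarith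
    calc u * (cr c d a * cr c d b) = (u * cr c d a) * cr c d b := by ring
      _ = _ := by rw [this]; ring
  have hnb : cr c d b ≠ 0 := by
    intro h0
    rw [h0, mul_zero, add_zero] at hzcd
    rcases mul_eq_zero.1 hzcd with h' | h'
    · exact hu0.ne' h'
    · exact hna h'
  have e7 : 0 < v * (cr c d b * cr c d b) := mul_pos hv0 (mul_self_pos.2 hnb)
  by_contra hcon
  push Not at hcon
  have := mul_nonneg hu0.le hcon
  linarith

theorem FlipData.Flippable.cross (hT : STri P T) {q : FlipData} (hq : q.Flippable T) :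
    Cross q.a q.b q.c q.d := by
  obtain ⟨hcd, h1, h2, h3⟩ := hq
  have n1 : cr q.a q.b q.c ≠ 0 := by
    have := hT.nondeg _ h1
    rwa [coe3, collinear_iff] at this
  have n2 : cr q.a q.b q.d ≠ 0 := by
    have := hT.nondeg _ h2
    rwa [coe3, collinear_iff] at this
  apply h3.cross
  rcases lt_trichotomy (cr q.a q.b q.c * cr q.a q.b q.d) 0 with h | h | h
  · exact h
  · rcases mul_eq_zero.1 h with h | h
    · exact absurd h n1
    · exact absurd h n2
  · exact absurd (hT.unique h1 h2 h) hcd

/-- the reversed flip -/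
def FlipData.rev (q : FlipData) : FlipData := ⟨q.c, q.d, q.a, q.b⟩

theorem FlipData.old_rev (q : FlipData) : q.rev.old = q.new := by
  unfold FlipData.rev FlipData.old FlipData.new
  simp only
  rw [perm_bca q.a q.c q.d, perm_bca q.b q.c q.d]

theorem FlipData.new_rev (q : FlipData) : q.rev.new = q.old := by
  unfold FlipData.rev FlipData.old FlipData.new
  simp only
  rw [perm_cab q.a q.b q.c, perm_cab q.a q.b q.d]

theorem FlipData.rev_inj {q q' : FlipData} (h : q.rev = q'.rev) : q = q' := by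
  cases q; cases q'
  simp only [FlipData.rev, FlipData.mk.injEq] at h ⊢
  tauto

/-- a triangle at the new edge is one of the two new triangles -/
theorem new_of_mem (hT' : STri P T') {a b c d : Pt} (h : Cross a b c d) (h1 : {a, c, d} ∈ T')
    (h2 : {b, c, d} ∈ T') {t : Finset Pt} (ht : t ∈ T') (hc : c ∈ t) (hd : d ∈ t) :
    t = {a, c, d} ∨ t = {b, c, d} := by
  obtain ⟨hab, hac, had, hbc, hbd, hcd⟩ := h.distinct
  obtain ⟨e, he, hce⟩ := hT'.side_cr ht hcd hc hd
  rw [← perm_bca] at h1 h2
  have hn := h.ne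
  have het : ({c, d, e} : Finset Pt) ∈ T' := he ▸ ht
  rw [← perm_bca a c d, ← perm_bca b c d]
  rcases lt_or_gt_of_ne hce with g | g
  · rcases mul_neg_iff.1 h.2 with ⟨g1, g2⟩ | ⟨g1, g2⟩
    · right; rw [he, hT'.unique het h2 (mul_pos_of_neg_of_neg g g2)]
    · left; rw [he, hT'.unique het h1 (mul_pos_of_neg_of_neg g g1)]
  · rcases mul_neg_iff.1 h.2 with ⟨g1, g2⟩ | ⟨g1, g2⟩
    · left; rw [he, hT'.unique het h1 (mul_pos g g1)]
    · right; rw [he, hT'.unique het h2 (mul_pos g g2)]

theorem simFlip_facts (hT : STri P T) (h : SimFlip T T') : ∃ F : Finset FlipData,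
    (∀ q ∈ F, {q.a, q.b, q.c} ∈ T ∧ {q.a, q.b, q.d} ∈ T ∧ Cross q.a q.b q.c q.d) ∧
    (∀ q ∈ F, ∀ q' ∈ F, q ≠ q' → ∀ t ∈ T, ¬ (q.a ∈ t ∧ q.b ∈ t ∧ q'.a ∈ t ∧ q'.b ∈ t)) ∧
    T' = (T \ F.biUnion FlipData.old) ∪ F.biUnion FlipData.new := by
  obtain ⟨F, h1, h2, h3⟩ := h
  refine ⟨F, ?_, h2, h3⟩
  intro q hq
  have := h1 q hq
  exact ⟨this.2.1, this.2.2.1, this.cross hT⟩

theorem SimFlip.strict (hT : STri P T) (h : SimFlip T T') : STri P T' := by
  obtain ⟨F, h1, h2, rfl⟩ := simFlip_facts hT h
  exact hT.simFlip_aux F h1 h2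

theorem SimFlip.symm (hT : STri P T) (h : SimFlip T T') : SimFlip T' T := by
  classical
  have hT' := h.strict hT
  obtain ⟨F, hF, hd, hTe⟩ := simFlip_facts hT h
  have hold : F.biUnion FlipData.old ⊆ T := by
    intro s hs
    rw [Finset.mem_biUnion] at hs
    obtain ⟨q, hq, hs⟩ := hs
    obtain ⟨g1, g2, -⟩ := hF q hq
    rw [FlipData.old, Finset.mem_insert, Finset.mem_singleton] at hs
    rcases hs with rfl | rfl <;> assumption
  have hnew : ∀ s ∈ F.biUnion FlipData.new, s ∉ T := by
    intro s hs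
    rw [Finset.mem_biUnion] at hs
    obtain ⟨q, hq, hs⟩ := hs
    obtain ⟨g1, g2, g3⟩ := hF q hq
    exact hT.new_not_mem g1 g3 hs
  have hnewT' : ∀ q ∈ F, ({q.a, q.c, q.d} : Finset Pt) ∈ T' ∧ ({q.b, q.c, q.d} : Finset Pt) ∈ T' := by
    intro q hq
    rw [hTe]
    constructor
    · exact Finset.mem_union_right _ (Finset.mem_biUnion.2 ⟨q, hq, by simp [FlipData.new]⟩)
    · exact Finset.mem_union_right _ (Finset.mem_biUnion.2 ⟨q, hq, by simp [FlipData.new]⟩)
  have e1 : (F.image FlipData.rev).biUnion FlipData.old = F.biUnion FlipData.new := by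
    rw [Finset.image_biUnion]
    exact Finset.biUnion_congr rfl (fun q _ => q.old_rev)
  have e2 : (F.image FlipData.rev).biUnion FlipData.new = F.biUnion FlipData.old := by
    rw [Finset.image_biUnion]
    exact Finset.biUnion_congr rfl (fun q _ => q.new_rev)
  refine ⟨F.image FlipData.rev, ?_, ?_, ?_⟩
  · intro q' hq'
    rw [Finset.mem_image] at hq'
    obtain ⟨q, hq, rfl⟩ := hq'
    obtain ⟨g1, g2, g3⟩ := hF q hq
    obtain ⟨k1, k2⟩ := hnewT' q hq
    refine ⟨g3.distinct.1, ?_, ?_, g3.swap.convQuad⟩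
    · change ({q.c, q.d, q.a} : Finset Pt) ∈ T'
      rwa [perm_bca]
    · change ({q.c, q.d, q.b} : Finset Pt) ∈ T'
      rwa [perm_bca]
  · intro r hr r' hr' hrr t ht hcon
    rw [Finset.mem_image] at hr hr'
    obtain ⟨q, hq, rfl⟩ := hr
    obtain ⟨q', hq', rfl⟩ := hr'
    have hqq : q ≠ q' := by rintro rfl; exact hrr rfl
    obtain ⟨c1, c2, c3, c4⟩ := hcon
    change q.c ∈ t at c1
    change q.d ∈ t at c2
    change q'.c ∈ t at c3
    change q'.d ∈ t at c4
    obtain ⟨g1, g2, g3⟩ := hF q hq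
    obtain ⟨k1, k2, k3⟩ := hF q' hq'
    have m := new_of_mem hT' g3 (hnewT' q hq).1 (hnewT' q hq).2 ht c1 c2
    have m' := new_of_mem hT' k3 (hnewT' q' hq').1 (hnewT' q' hq').2 ht c3 c4
    -- the interior of t is covered by both quadrilaterals
    have key : ∀ (q : FlipData), ({q.a, q.b, q.c} : Finset Pt) ∈ T → ({q.a, q.b, q.d} : Finset Pt) ∈ T →
        Cross q.a q.b q.c q.d → (t = {q.a, q.c, q.d} ∨ t = {q.b, q.c, q.d}) →
        ∀ U : Set Pt, IsOpen U → U.Nonempty → U ⊆ interior (convexHull ℝ (t : Set Pt)) →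
        ∃ s ∈ T, q.a ∈ s ∧ q.b ∈ s ∧ (U ∩ interior (convexHull ℝ (s : Set Pt))).Nonempty := by
      intro q g1 g2 g3 m U hU hUne hUt
      obtain ⟨z, hz⟩ := hUne
      have hzt := interior_subset (hUt hz)
      have hz2 : z ∈ convexHull ℝ ({q.a, q.b, q.c} : Set Pt) ∪
          convexHull ℝ ({q.a, q.b, q.d} : Set Pt) := by
        rw [g3.quad.1]
        rcases m with m | m
        · rw [m, coe3] at hzt; exact Or.inl hzt
        · rw [m, coe3] at hzt; exact Or.inr hzt
      rcases hz2 with hz2 | hz2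
      · refine ⟨_, g1, by simp, by simp, ?_⟩
        by_contra hcon
        rw [Set.not_nonempty_iff_eq_empty, ← Set.disjoint_iff_inter_eq_empty, coe3] at hcon
        exact Set.disjoint_left.1 (disj_hull_of_disj g3.ne.1 hU hcon.symm) hz2 hz
      · refine ⟨_, g2, by simp, by simp, ?_⟩
        by_contra hcon
        rw [Set.not_nonempty_iff_eq_empty, ← Set.disjoint_iff_inter_eq_empty, coe3] at hcon
        exact Set.disjoint_left.1 (disj_hull_of_disj g3.ne.2.1 hU hcon.symm) hz2 hz
    obtain ⟨s, hs, has, hbs, hne⟩ := key q g1 g2 g3 m _ isOpen_interior (hT'.nonempty_int ht)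
      subset_rfl
    obtain ⟨s', hs', has', hbs', hne'⟩ := key q' k1 k2 k3 m' _
      (isOpen_interior.inter isOpen_interior) hne Set.inter_subset_left
    have hss : s = s' := by
      by_contra hcon
      obtain ⟨z, ⟨-, hz1⟩, hz2⟩ := hne'
      exact Set.disjoint_left.1 (hT.disj s hs s' hs' hcon) hz1 hz2
    rw [← hss] at has' hbs'
    exact hd q hq q' hq' hqq s hs ⟨has, hbs, has', hbs'⟩
  · rw [e1, e2, hTe]
    ext s
    simp only [Finset.mem_union, Finset.mem_sdiff]
    constructor
    · intro hs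
      by_cases h : s ∈ F.biUnion FlipData.old
      · exact Or.inr h
      · exact Or.inl ⟨Or.inl ⟨hs, h⟩, fun h' => hnew s h' hs⟩
    · rintro (⟨(⟨h1, -⟩ | h1), h2⟩ | h1)
      · exact h1
      · exact absurd h1 h2
      · exact hold h1

theorem Reach.right {k : ℕ} (h : Reach P k T T') : IsTriangulation P T' := by
  induction h with
  | refl T h => exact h
  | step k T T' T'' _ _ h _ => exact h

theorem Reach.left {k : ℕ} (h : Reach P k T T') : IsTriangulation P T := by
  induction h with
  | refl T h => exact h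
  | step k T T' T'' _ _ _ ih => exact ih

theorem Reach.cons {k : ℕ} {T₀ : Finset (Finset Pt)} (h0 : IsTriangulation P T₀)
    (h1 : SimFlip T₀ T) (h : Reach P k T T') : Reach P (k + 1) T₀ T' := by
  induction h with
  | refl T h => exact Reach.step 0 T₀ T₀ T (Reach.refl T₀ h0) h1 h
  | step k T T' T'' _ h2 h3 ih => exact Reach.step (k + 1) T₀ T' T'' (ih h1) h2 h3

/-- simultaneous flips are reversible -/
theorem Reach.symm (hP : GP P) {k : ℕ} (h : Reach P k T T') : Reach P k T' T := by
  induction h with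
  | refl T h => exact Reach.refl T h
  | step k T T' T'' h1 h2 h3 ih =>
    exact Reach.cons h3 (h2.symm (h1.right.strict hP)) ih

end MP91a79a

end
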