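import Pool.Agent.Lib.MP_91a79a_co.SphGeo
import Pool.Agent.Lib.MP_91a79a_co.Flex
import Pool.Agent.Lib.MP_91a79a_co.Deg
import Pool.Agent.Lib.MP_91a79a_co.Compl

/-!
The flexible family of a coloured refinement (MP_91a79a_co): instance of `FlexData`.
-/

noncomputable section

namespace MP91a79a

open Set Classical

/-- the fixed edges: all edges of `Tc` except the mono hub-hub edges outside the skeleton -/
def XE (P B : Finset Pt) (G : Pt → Pt → Prop) (col : Option Pt → Bool) (Tc : Finset (Finset Pt))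
    (a b : Option Pt) : Prop :=
  Ed (OT P Tc) a b ∧ (a ∈ Wp B → b ∈ Wp B → col a = col b → Gp B G a b)

/-- what section 3 delivers. `Kr x y`: `x` and `y` are in the same body -/
structure Sec3 (P B : Finset Pt) (G : Pt → Pt → Prop) (col : Option Pt → Bool)
    (Tc : Finset (Finset Pt)) (Kr : Option Pt → Option Pt → Prop) : Prop where
  gp : GP P
  tri : STri P Tc
  card : 3 ≤ P.card
  sub : B ⊆ P
  hv : ∀ b ∈ B, HV B b → HV P b
  Gs : ∀ u w, G u w → G w u
  GT : ∀ u w, G u w → Side Tc u w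
  hHE : ∀ u w, HE B u w → G u w
  ac : AC (Gp B G) col
  KH : ∀ x y, Kr x y → x ∈ Wp P ∧ x ∉ Wp B
  Krefl : ∀ x, x ∈ Wp P → x ∉ Wp B → Kr x x
  Ksymm : ∀ x y, Kr x y → Kr y x
  Ktrans : ∀ x y z, Kr x y → Kr y z → Kr x z
  Kcol : ∀ x y, Kr x y → col x = col y
  dom : ∀ x ∈ Wp P, x ∉ Wp B → ∃ d ∈ Wp B, col d ≠ col x ∧ Ed (OT P Tc) x d
  body : ∀ x y, x ∉ Wp B → y ∉ Wp B → Ed (OT P Tc) x y → Kr x y
  fan : ∀ x d, x ∉ Wp B → d ∈ Wp B → Ed (OT P Tc) d x → ∃ r, Ed (OT P Tc) d r ∧ ¬ Kr x r ∧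
    ∀ w w', OT P Tc d w w' → Kr x w' → Kr x w ∨ w = r
  apex : ∀ x x' d d', Kr x x' → d ∈ Wp B → d' ∈ Wp B → d ≠ d' → Ed (OT P Tc) x d →
    Ed (OT P Tc) x' d' → col d ≠ col x → col d' ≠ col x →
    ∃ z, Kr x z ∧ (OT P Tc z d d' ∨ OT P Tc z d' d)
  tri3 : ∀ x d d', OT P Tc x d d' → x ∉ Wp B → d ∈ Wp B → d' ∈ Wp B →
    ¬ (col d = col x ∧ col d' = col x)
  minor : ∀ v y, v ∈ Wp B → y ∉ Wp B → Ed (OT P Tc) v y → col v = col y →
    ∃ b ∈ Wp B, Ed (OT P Tc) v b ∧ col b ≠ col v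
  wide : ∀ v ∈ P, ¬ HV P v → Wide (fun u => XE P B G col Tc (some v) (some u)) v

/-- an edge which is not flipped stays -/
theorem ed_flip_of {V : Type*} {O : V → V → V → Prop} {p q r s : V} {x y : V} (h : Ed O x y)
    (hpq : ¬ (x = p ∧ y = q)) (hqp : ¬ (x = q ∧ y = p)) : Ed (Flip O p q r s) x y := by
  obtain ⟨z, hz⟩ := h
  by_cases r1 : Rot p q r x y z
  · rcases r1 with ⟨rfl, rfl, rfl⟩ | ⟨rfl, rfl, rfl⟩ | ⟨rfl, rfl, rfl⟩
    · exact absurd ⟨rfl, rfl⟩ hpq
    · exact ⟨s, Or.inr (Or.inr (Or.inr (Or.inl ⟨rfl, rfl, rfl⟩)))⟩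
    · exact ⟨s, Or.inr (Or.inl (Or.inr (Or.inr ⟨rfl, rfl, rfl⟩)))⟩
  by_cases r2 : Rot q p s x y z
  · rcases r2 with ⟨rfl, rfl, rfl⟩ | ⟨rfl, rfl, rfl⟩ | ⟨rfl, rfl, rfl⟩
    · exact absurd ⟨rfl, rfl⟩ hqp
    · exact ⟨r, Or.inr (Or.inl (Or.inl ⟨rfl, rfl, rfl⟩))⟩
    · exact ⟨r, Or.inr (Or.inr (Or.inl ⟨rfl, rfl, rfl⟩))⟩
  exact ⟨z, Or.inl ⟨hz, r1, r2⟩⟩

variable {P B : Finset Pt} {G : Pt → Pt → Prop} {col : Option Pt → Bool}
  {Tc T' : Finset (Finset Pt)} {Kr : Option Pt → Option Pt → Prop}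

/-- finite edges of the sphere are the sides -/
theorem ed_iff_side (hG : GP P) (hT : STri P Tc) (h3 : 3 ≤ P.card) (x y : Pt) :
    Ed (OT P Tc) (some x) (some y) ↔ Side Tc x y := by
  constructor
  · rintro ⟨z, hz⟩
    rcases z with _ | z
    · have h1 : HE P y x := hz
      exact (h1.side hG hT).symm
    · exact ⟨(ne_of_cr hz.2.ne').1, _, hz.1, by simp, by simp⟩
  · rintro ⟨hxy, t, ht, hx, hy⟩
    obtain ⟨z, rfl, hz⟩ := hT.side_cr ht hxy hx hy
    rcases lt_or_gt_of_ne hz with h | h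
    · refine (OT_sph hG hT h3).ed_symm ⟨some z, ?_, ?_⟩
      · rw [perm_bac]; exact ht
      · rw [cr_swap]; linarith
    · exact ⟨some z, ht, h⟩

/-- edges to infinity are the hull vertices -/
theorem ed_none (hG : GP P) (_hT : STri P Tc) (h3 : 3 ≤ P.card) (x : Pt) :
    Ed (OT P Tc) none (some x) ↔ x ∈ P ∧ HV P x := by
  constructor
  · rintro ⟨z, hz⟩
    rcases z with _ | z
    · exact absurd hz id
    · have h1 : HE P z x := hz
      exact ⟨h1.2.1, h1.hv_right⟩
  · rintro ⟨hx, hv⟩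
    obtain ⟨a, ha⟩ := hv.pred hG hx (by omega)
    exact ⟨some a, ha⟩

theorem mem_Wp_some {x : Pt} : some x ∈ Wp B ↔ x ∈ B := by
  rw [mem_Wp]
  constructor
  · rintro (h | ⟨y, hy, h⟩)
    · cases h
    · rw [Option.some.inj h]; exact hy
  · intro h
    exact Or.inr ⟨x, h, rfl⟩

theorem none_mem_Wp : (none : Option Pt) ∈ Wp B := mem_Wp.2 (Or.inl rfl)

theorem Gp_symm (hGs : ∀ u w, G u w → G w u) (a b : Option Pt) (h : Gp B G a b) : Gp B G b a := by
  rcases a with _ | a <;> rcases b with _ | b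
  · exact h
  · exact h
  · exact h
  · exact hGs _ _ h

namespace Sec3

variable (h : Sec3 P B G col Tc Kr)

include h

theorem sph : Sph (Wp P) (OT P Tc) := OT_sph h.gp h.tri h.card

theorem xe_symm (a b : Option Pt) (hx : XE P B G col Tc a b) : XE P B G col Tc b a :=
  ⟨h.sph.ed_symm hx.1, fun hb ha hc => Gp_symm h.Gs _ _ (hx.2 ha hb hc.symm)⟩

/-- edges to infinity are fixed -/
theorem xe_none {x : Pt} (hx : Ed (OT P Tc) none (some x)) : XE P B G col Tc none (some x) := by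
  refine ⟨hx, fun _ hb _ => ?_⟩
  obtain ⟨h1, h2⟩ := (ed_none h.gp h.tri h.card x).1 hx
  exact ⟨mem_Wp_some.1 hb, h2.mono h.sub⟩

/-- hull edges are fixed -/
theorem xe_hull {x y : Pt} (hx : HE P x y) : XE P B G col Tc (some x) (some y) := by
  refine ⟨(ed_iff_side h.gp h.tri h.card x y).2 (hx.side h.gp h.tri), fun ha hb _ => ?_⟩
  exact h.hHE _ _ ⟨mem_Wp_some.1 ha, mem_Wp_some.1 hb, hx.2.2.1, fun z hz => hx.2.2.2 z (h.sub hz)⟩

end Sec3

/-! ### geometry at an apex -/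

theorem cr_four (z p q w w' : Pt) :
    cr z w q * cr z p w' = cr z w w' * cr z p q + cr z w' q * cr z p w := by
  unfold cr; ring

/-- strictly inside the cone at `z` between `p` and `q` -/
def InC (z p q : Pt) (w : Option Pt) : Prop := ∃ w0, w = some w0 ∧ 0 < cr z p w0 ∧ 0 < cr z w0 q

theorem cone_back (hG : GP P) (hT' : STri P T') {z p q : Pt} (h0 : 0 < cr z p q)
    (hzp : Side T' z p) (w w' : Option Pt) (ho : OT P T' (some z) w w')
    (hw : InC z p q w' ∨ w' = some q) : InC z p q w ∨ w = some p := by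
  -- `w'` is finite
  obtain ⟨u', rfl, hpu, huq⟩ : ∃ u', w' = some u' ∧ 0 < cr z p u' ∧ (0 < cr z u' q ∨ u' = q) := by
    rcases hw with ⟨u, hu, h1, h2⟩ | hw
    · exact ⟨u, hu, h1, Or.inl h2⟩
    · exact ⟨q, hw, h0, Or.inr rfl⟩
  rcases w with _ | u
  · exfalso
    have h1 : HE P z u' := ho
    have h2 := h1.2.2.2 p (Side.mem hT' hzp).2
    rw [cr_neg] at h2
    linarith
  · obtain ⟨ht, hc⟩ := ho
    by_cases hup : u = p
    · right; rw [hup]
    · left
      have hu1 : u ∈ P := hT'.sub _ ht (by simp)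
      have hz1 : z ∈ P := hT'.sub _ ht (by simp)
      have hzu : z ≠ u := (ne_of_cr hc.ne').1
      have h3 : ¬ 0 < cr z u p := fun h3 => hT'.no_side_in ht hzp h3 hpu hc
      have h4 : cr z u p ≠ 0 := hG z hz1 u hu1 p (Side.mem hT' hzp).2 hzu hzp.1 hup
      have h5 : 0 < cr z p u := by
        rw [cr_neg]
        rcases lt_or_gt_of_ne h4 with h | h
        · linarith
        · exact absurd h h3
      refine ⟨u, rfl, h5, ?_⟩
      rcases huq with huq | rfl
      · have h6 := cr_four z p q u u'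
        by_contra h7
        push Not at h7
        have h8 : 0 < cr z u u' * cr z p q := mul_pos hc h0
        have h9 : 0 < cr z u' q * cr z p u := mul_pos huq h5
        nlinarith [mul_nonneg (sub_nonneg.2 h7) hpu.le]
      · exact hc

theorem cone_forw (hG : GP P) (hT' : STri P T') {z p q : Pt} (h0 : 0 < cr z p q)
    (hzq : Side T' z q) (w w' : Option Pt) (ho : OT P T' (some z) w w')
    (hw : InC z p q w ∨ w = some p) : InC z p q w' ∨ w' = some q := by
  obtain ⟨u, rfl, huq, hpu⟩ : ∃ u, w = some u ∧ 0 < cr z u q ∧ (0 < cr z p u ∨ u = p) := by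
    rcases hw with ⟨u, hu, h1, h2⟩ | hw
    · exact ⟨u, hu, h2, Or.inl h1⟩
    · exact ⟨p, hw, h0, Or.inr rfl⟩
  rcases w' with _ | u'
  · exfalso
    have h1 : HE P u z := ho
    have h2 := h1.2.2.2 q (Side.mem hT' hzq).2
    rw [cr_swap] at h2
    linarith
  · obtain ⟨ht, hc⟩ := ho
    by_cases huq' : u' = q
    · right; rw [huq']
    · left
      have hu1 : u' ∈ P := hT'.sub _ ht (by simp)
      have hz1 : z ∈ P := hT'.sub _ ht (by simp)
      have hzu : z ≠ u' := (ne_of_cr hc.ne').2.1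
      have h3 : ¬ 0 < cr z q u' := fun h3 => hT'.no_side_in ht hzq huq h3 hc
      have h4 : cr z u' q ≠ 0 := hG z hz1 u' hu1 q (Side.mem hT' hzq).2 hzu hzq.1 huq'
      have h5 : 0 < cr z u' q := by
        rcases lt_or_gt_of_ne h4 with h | h
        · exact absurd (by rw [cr_neg]; linarith) h3
        · exact h
      refine ⟨u', rfl, ?_, h5⟩
      rcases hpu with hpu | rfl
      · have h6 := cr_four z p q u u'
        by_contra h7
        push Not at h7
        have h8 : 0 < cr z u u' * cr z p q := mul_pos hc h0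
        have h9 : 0 < cr z u' q * cr z p u := mul_pos h5 hpu
        nlinarith [mul_nonneg (sub_nonneg.2 h7) huq.le]
      · exact hc

/-- all triangulations which contain the fixed edges -/
def FamE (P B : Finset Pt) (G : Pt → Pt → Prop) (col : Option Pt → Bool)
    (Tc : Finset (Finset Pt)) : Set (Option Pt → Option Pt → Option Pt → Prop) :=
  {O | ∃ T', STri P T' ∧ (∀ a b, XE P B G col Tc a b → Ed (OT P T') a b) ∧ O = OT P T'}

/-- the body of a point -/
def Kf (P B : Finset Pt) (Kr : Option Pt → Option Pt → Prop) (x : Option Pt) :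
    Option (Set (Option Pt)) :=
  if x ∈ Wp P ∧ x ∉ Wp B then some {y | Kr x y} else none

/-- the corners of the majority colour -/
def Uf (P B : Finset Pt) (col : Option Pt → Bool) (Tc : Finset (Finset Pt))
    (Kr : Option Pt → Option Pt → Prop) (F : Set (Option Pt)) (p : Option Pt) : Prop :=
  p ∈ Wp B ∧ ∃ x, Kf P B Kr x = some F ∧ Ed (OT P Tc) x p ∧ col x ≠ col p

theorem kf_some {x : Option Pt} {F : Set (Option Pt)} :
    Kf P B Kr x = some F ↔ (x ∈ Wp P ∧ x ∉ Wp B) ∧ {y | Kr x y} = F := by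
  unfold Kf
  by_cases h : x ∈ Wp P ∧ x ∉ Wp B
  · rw [if_pos h]
    simp [h]
  · rw [if_neg h]
    simp only [reduceCtorEq, false_iff, not_and]
    intro h'; exact absurd h' h

theorem kf_ne {x : Option Pt} : Kf P B Kr x ≠ none ↔ (x ∈ Wp P ∧ x ∉ Wp B) := by
  unfold Kf
  by_cases h : x ∈ Wp P ∧ x ∉ Wp B
  · rw [if_pos h]; simp [h]
  · rw [if_neg h]; simp only [ne_eq, not_true_eq_false, false_iff]; exact h

namespace Sec3

variable (h : Sec3 P B G col Tc Kr)

include h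

theorem kr_of_kf {x y : Option Pt} {F : Set (Option Pt)} (hx : Kf P B Kr x = some F)
    (hy : Kf P B Kr y = some F) : Kr x y := by
  obtain ⟨-, h1⟩ := kf_some.1 hx
  obtain ⟨h2, h3⟩ := kf_some.1 hy
  have h4 : y ∈ {z | Kr y z} := h.Krefl y h2.1 h2.2
  rw [h3, ← h1] at h4
  exact h4

theorem kf_of_kr {x y : Option Pt} {F : Set (Option Pt)} (hx : Kf P B Kr x = some F)
    (hxy : Kr x y) : Kf P B Kr y = some F := by
  obtain ⟨-, h1⟩ := kf_some.1 hx
  refine kf_some.2 ⟨h.KH y x (h.Ksymm _ _ hxy), ?_⟩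
  rw [← h1]
  ext z
  exact ⟨fun hz => h.Ktrans _ _ _ hxy hz, fun hz => h.Ktrans _ _ _ (h.Ksymm _ _ hxy) hz⟩

omit h in
theorem xe_body {x y : Option Pt} (hx : x ∉ Wp B ∨ y ∉ Wp B) (he : Ed (OT P Tc) x y) :
    XE P B G col Tc x y :=
  ⟨he, fun h1 h2 => absurd h1 (by rcases hx with hx | hx; exacts [hx, absurd h2 hx])⟩

theorem keep_tri {T' : Finset (Finset Pt)} (hT' : STri P T')
    (hX : ∀ a b, XE P B G col Tc a b → Ed (OT P T') a b) {x y z : Option Pt}
    (ho : OT P Tc x y z) (h1 : XE P B G col Tc x y) (h2 : XE P B G col Tc y z)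
    (h3 : XE P B G col Tc z x) : OT P T' x y z := by
  rcases x with _ | x
  · rcases y with _ | y
    · exact absurd ho id
    · rcases z with _ | z
      · exact absurd ho id
      · exact ho
  · rcases y with _ | y
    · rcases z with _ | z
      · exact absurd ho id
      · exact ho
    · rcases z with _ | z
      · exact ho
      · obtain ⟨ht, hc⟩ := ho
        refine ⟨?_, hc⟩
        have s1 := (ed_iff_side h.gp hT' h.card x y).1 (hX _ _ h1)
        have s2 := (ed_iff_side h.gp hT' h.card y z).1 (hX _ _ h2)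
        have s3 := (ed_iff_side h.gp hT' h.card z x).1 (hX _ _ h3)
        refine tri_of_sides h.gp hT'.toIs h.tri.toIs ht ?_
        intro u hu v hv huv
        simp only [Finset.mem_insert, Finset.mem_singleton] at hu hv
        rcases hu with rfl | rfl | rfl <;> rcases hv with rfl | rfl | rfl
        · exact absurd rfl huv
        · exact s1
        · exact s3.symm
        · exact s1.symm
        · exact absurd rfl huv
        · exact s2
        · exact s3
        · exact s2.symm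
        · exact absurd rfl huv

theorem fam_flip {O : Option Pt → Option Pt → Option Pt → Prop} (hO : O ∈ FamE P B G col Tc)
    {p q r s : Option Pt} (h1 : O p q r) (h2 : O q p s) (hX : ¬ XE P B G col Tc p q) :
    Flip O p q r s ∈ FamE P B G col Tc := by
  obtain ⟨T', hT', hXE, rfl⟩ := hO
  have hS' := OT_sph h.gp hT' h.card
  have hnone : ∀ {y : Option Pt}, Ed (OT P T') none y → XE P B G col Tc none y := by
    intro y hy
    rcases y with _ | y
    · obtain ⟨z, hz⟩ := hy; exact absurd hz id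
    · exact h.xe_none ((ed_none h.gp h.tri h.card y).2 ((ed_none h.gp hT' h.card y).1 hy))
  rcases p with _ | p
  · exact absurd (hnone ⟨r, h1⟩) hX
  rcases q with _ | q
  · exact absurd (h.xe_symm _ _ (hnone ⟨s, h2⟩)) hX
  rcases r with _ | r
  · exact absurd (h.xe_symm _ _ (h.xe_hull h1)) hX
  rcases s with _ | s
  · exact absurd (h.xe_hull h2) hX
  have hrs : r ≠ s := by
    intro hc
    exact hS'.opp_ne _ _ _ _ h1 h2 (by rw [hc])
  have hc : Cross p q r s := by
    refine flip_cross h.gp hT' (fun x y => XE P B G col Tc (some x) (some y))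
      (fun x y hxy => h.xe_symm _ _ hxy)
      (fun x y hxy => (ed_iff_side h.gp hT' h.card x y).1 (hXE _ _ hxy)) h1.1
      (by rw [perm_bac]; exact h2.1) hrs hX ?_ ?_
    · by_cases hv : HV P p
      · exact Or.inl hv
      · exact Or.inr (h.wide p (hT'.sub _ h1.1 (by simp)) hv)
    · by_cases hv : HV P q
      · exact Or.inl hv
      · exact Or.inr (h.wide q (hT'.sub _ h1.1 (by simp)) hv)
  obtain ⟨T'', hT'', hO'', -⟩ := OT_flip h.gp hT' h1 h2 hc
  refine ⟨T'', hT'', ?_, hO''.symm⟩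
  intro a b hab
  rw [hO'']
  refine ed_flip_of (hXE _ _ hab) ?_ ?_
  · rintro ⟨rfl, rfl⟩; exact hX hab
  · rintro ⟨rfl, rfl⟩; exact hX (h.xe_symm _ _ hab)

theorem flex : FlexData (Wp P) col (XE P B G col Tc) (Gp B G) (OT P Tc) (FamE P B G col Tc)
    (Kf P B Kr) (Uf P B col Tc Kr) where
  sph0 := h.sph
  sph := by
    rintro O ⟨T', hT', -, rfl⟩
    exact OT_sph h.gp hT' h.card
  zero := ⟨Tc, h.tri, fun a b hab => hab.1, rfl⟩
  Xs := h.xe_symm
  Gs := Gp_symm h.Gs
  sub := by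
    rintro O ⟨T', hT', hX, rfl⟩ x y hxy
    exact hX _ _ hxy
  flip := fun O hO p q r s h1 h2 hX => h.fam_flip hO h1 h2 hX
  per := by
    rintro O ⟨T', hT', hX, rfl⟩ x y z h1 h2 h3 h4
    exact h.keep_tri hT' hX h1 h2 h3 h4
  ac := h.ac
  inner := by
    intro x y hX hc hG
    by_contra hcon
    push Not at hcon
    have hx : x ∈ Wp B := by
      by_contra hx
      exact kf_ne.2 ⟨h.sph.ed_mem hX.1, hx⟩ hcon.1
    have hy : y ∈ Wp B := by
      by_contra hy
      exact kf_ne.2 ⟨h.sph.ed_mem (h.sph.ed_symm hX.1), hy⟩ hcon.2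
    exact hG (hX.2 hx hy hc)
  K1 := by
    intro x y z hK ho
    exact xe_body (Or.inl (kf_ne.1 hK).2) ⟨z, ho⟩
  K2 := by
    intro x y z hK ho hc
    have hx := (kf_ne.1 hK).2
    refine ⟨⟨x, h.sph.rot _ _ _ ho⟩, fun hy hz hyz => ?_⟩
    exact absurd ⟨hc.symm, by rw [hc, hyz]⟩ (h.tri3 x y z ho hx hy hz)
  K2' := by
    intro x y z hK ho hc
    have hx := (kf_ne.1 hK).2
    refine ⟨h.sph.ed_symm ⟨x, h.sph.rot2 ho⟩, fun hy hz hyz => ?_⟩
    exact absurd ⟨by rw [hc, hyz], hc.symm⟩ (h.tri3 x z y (h.sph.rot _ _ _ ho) hx hz hy)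
  loc := by
    intro x y z F hK ho
    have hx := (kf_some.1 hK).1
    constructor
    · by_cases hy : y ∈ Wp B
      · right
        by_contra hc
        exact (kf_ne.1 hc).2 hy
      · left
        exact h.kf_of_kr hK (h.body x y hx.2 hy ⟨z, ho⟩)
    · by_cases hz : z ∈ Wp B
      · right
        by_contra hc
        exact (kf_ne.1 hc).2 hz
      · left
        exact h.kf_of_kr hK (h.body x z hx.2 hz (h.sph.ed_symm ⟨y, h.sph.rot2 ho⟩))
  colK := fun x y F hx hy => h.Kcol _ _ (h.kr_of_kf hx hy)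
  colU := by
    rintro x p F hx ⟨hp, x', hx', he, hc⟩
    rw [h.Kcol _ _ (h.kr_of_kf hx hx')]
    exact hc
  mixU := by
    intro x p F hx hX hc
    have hx1 := (kf_some.1 hx).1
    refine ⟨?_, x, hx, hX.1, hc⟩
    by_contra hp
    exact hc (h.Kcol _ _ (h.body x p hx1.2 hp hX.1))
  fan := by
    rintro F p ⟨hp, x, hx, he, hc⟩
    have hx1 := (kf_some.1 hx).1
    obtain ⟨r, hr, hKr, hback⟩ := h.fan x p hx1.2 hp (h.sph.ed_symm he)
    refine ⟨r, hr, fun hc => hKr (h.kr_of_kf hx hc), ?_⟩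
    intro w w' ho hw'
    rcases hback w w' ho (h.kr_of_kf hx hw') with h1 | h1
    · exact Or.inl (h.kf_of_kr hx h1)
    · exact Or.inr h1
  apex := by
    rintro F p q ⟨hp, x, hx, he, hc⟩ ⟨hq, x', hx', he', hc'⟩ hpq -
    have hk := h.kr_of_kf hx hx'
    have hcol := h.Kcol _ _ hk
    obtain ⟨z, hz, hzz⟩ := h.apex x x' p q hk hp hq hpq he he' (fun hh => hc hh.symm)
      (fun hh => hc' (by rw [← hcol, hh]))
    refine ⟨z, h.kf_of_kr hx hz, ?_⟩
    rcases hzz with hzz | hzz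
    · exact Or.inl (h.sph.rot _ _ _ hzz)
    · exact Or.inr (h.sph.rot _ _ _ hzz)
  cone := by
    rintro O ⟨T', hT', hXE, rfl⟩ p q z ho hK hX
    have hz := kf_ne.1 hK
    rcases z with _ | z
    · exact absurd none_mem_Wp hz.2
    rcases p with _ | p
    · exfalso
      rcases q with _ | q
      · exact absurd ho id
      · exact hX (h.xe_none ⟨_, ho⟩)
    rcases q with _ | q
    · exfalso
      exact hX (h.xe_symm _ _ (h.xe_none (h.sph.ed_symm ⟨_, ho⟩)))
    have h0 : 0 < cr z p q := by rw [cr_rot]; exact ho.2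
    have Xzp : XE P B G col Tc (some z) (some p) :=
      xe_body (Or.inl hz.2) ⟨_, h.sph.rot2 ho⟩
    have Xzq : XE P B G col Tc (some z) (some q) :=
      xe_body (Or.inl hz.2) (h.sph.ed_symm ⟨_, h.sph.rot _ _ _ ho⟩)
    have s1 := (ed_iff_side h.gp hT' h.card z p).1 (hXE _ _ Xzp)
    have s2 := (ed_iff_side h.gp hT' h.card z q).1 (hXE _ _ Xzq)
    refine ⟨InC z p q, ?_, ?_, ?_, ?_, ?_⟩
    · rintro ⟨w, hw, h1, -⟩
      rw [← Option.some.inj hw, cr_self'] at h1
      exact lt_irrefl _ h1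
    · rintro ⟨w, hw, -, h1⟩
      rw [← Option.some.inj hw, cr_self'] at h1
      exact lt_irrefl _ h1
    · rintro _ ⟨w, rfl, h1, h2⟩ hc
      have hs := (ed_iff_side h.gp h.tri h.card z w).1 hc.1
      have ht : {z, p, q} ∈ Tc := by rw [← perm_bca]; exact ho.1
      exact h.tri.no_side_in ht hs h1 h2 h0
    · intro w w' hw hw'
      exact cone_back h.gp hT' h0 s1 w w' hw hw'
    · intro w w' hw hw'
      exact cone_forw h.gp hT' h0 s2 w w' hw hw'
  K4 := by
    intro x hK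
    have hx := kf_ne.1 hK
    obtain ⟨d, hd, hc, he⟩ := h.dom x hx.1 hx.2
    exact ⟨d, xe_body (Or.inl hx.2) he, hc⟩
  K5 := by
    intro v x y ho hK hK' c1 c2
    have hvP : v ∈ Wp P := h.sph.mem _ _ _ ho
    have hv : v ∈ Wp B := by
      by_contra hv
      exact kf_ne.2 ⟨hvP, hv⟩ hK
    rcases hK' with hK' | hK'
    · have hx := kf_ne.1 hK'
      obtain ⟨b, hb, he, hc⟩ := h.minor v x hv hx.2 ⟨y, ho⟩ c1
      exact ⟨b, ⟨he, fun _ _ hc' => absurd hc'.symm hc⟩, hc⟩
    · have hy := kf_ne.1 hK'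
      obtain ⟨b, hb, he, hc⟩ := h.minor v y hv hy.2 (h.sph.ed_symm ⟨x, h.sph.rot2 ho⟩) c2
      exact ⟨b, ⟨he, fun _ _ hc' => absurd hc'.symm hc⟩, hc⟩

end Sec3

end MP91a79a

end
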