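import Pool.Agent.Lib.MP_91a79a_co.Refine

/-!
The triangulation of a triangle with three legs of collinear points.
-/

noncomputable section

namespace MP91a79a

open Set

/-- points on the segment from `c` to the midpoint of `PQ` -/
def yy (P Q c : Pt) (u : ℕ → ℝ) (n : ℕ) : Pt :=
  (u n / 2) • P + (u n / 2) • Q + (1 - u n) • c

theorem cr_yy (a b P Q c : Pt) (u : ℕ → ℝ) (n : ℕ) :
    cr a b (yy P Q c u n) = u n / 2 * cr a b P + u n / 2 * cr a b Q + (1 - u n) * cr a b c :=
  cr_comb _ _ _ _ _ _ _ _ (by ring)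

theorem cr_yy1 (P Q c : Pt) (u : ℕ → ℝ) (n k : ℕ) :
    cr Q (yy P Q c u n) (yy P Q c u k) = (u k - u n) / 2 * cr P Q c := by
  simp only [cr, yy, Prod.fst_add, Prod.snd_add, Prod.smul_fst, Prod.smul_snd, smul_eq_mul]
  ring

theorem cr_yy2 (P Q c : Pt) (u : ℕ → ℝ) (n k : ℕ) :
    cr (yy P Q c u n) P (yy P Q c u k) = (u k - u n) / 2 * cr P Q c := by
  simp only [cr, yy, Prod.fst_add, Prod.snd_add, Prod.smul_fst, Prod.smul_snd, smul_eq_mul]
  ring

def legT (P Q : Pt) (y : ℕ → Pt) : ℕ → Finset (Finset Pt)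
  | 0 => {{P, Q, y 0}}
  | n + 1 => (legT P Q y n).erase {P, Q, y n} ∪
      {{P, Q, y (n+1)}, {Q, y n, y (n+1)}, {y n, P, y (n+1)}}

def legP (P Q : Pt) (y : ℕ → Pt) (n : ℕ) : Finset Pt := {P, Q} ∪ (Finset.range (n+1)).image y

theorem mem_legT {P Q : Pt} {y : ℕ → Pt} (hPQ : P ≠ Q) (hP : ∀ n, P ≠ y n) (hQ : ∀ n, Q ≠ y n)
    (n : ℕ) (s : Finset Pt) : s ∈ legT P Q y n ↔ s = {P, Q, y n} ∨
      ∃ k < n, s = {P, y k, y (k+1)} ∨ s = {Q, y k, y (k+1)} := by
  induction n with
  | zero => simp [legT]
  | succ n ih =>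
    simp only [legT, Finset.mem_union, Finset.mem_erase, Finset.mem_insert, Finset.mem_singleton, ih]
    have e1 : ({y n, P, y (n+1)} : Finset Pt) = {P, y n, y (n+1)} := by
      ext x; simp only [Finset.mem_insert, Finset.mem_singleton]; tauto
    rw [e1]
    constructor
    · rintro (⟨h1, h2 | ⟨k, hk, h2⟩⟩ | h | h | h)
      · exact absurd h2 h1
      · exact Or.inr ⟨k, by omega, h2⟩
      · exact Or.inl h
      · exact Or.inr ⟨n, by omega, Or.inr h⟩
      · exact Or.inr ⟨n, by omega, Or.inl h⟩
    · rintro (h | ⟨k, hk, h2⟩)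
      · exact Or.inr (Or.inl h)
      · rcases Nat.lt_or_ge k n with hk' | hk'
        · refine Or.inl ⟨?_, Or.inr ⟨k, hk', h2⟩⟩
          intro he
          rcases h2 with h2 | h2
          · have : Q ∈ s := by rw [he]; simp
            rw [h2] at this
            simp only [Finset.mem_insert, Finset.mem_singleton] at this
            rcases this with h | h | h
            · exact hPQ h.symm
            · exact hQ _ h
            · exact hQ _ h
          · have : P ∈ s := by rw [he]; simp
            rw [h2] at this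
            simp only [Finset.mem_insert, Finset.mem_singleton] at this
            rcases this with h | h | h
            · exact hPQ h
            · exact hP _ h
            · exact hP _ h
        · obtain rfl : k = n := by omega
          rcases h2 with h2 | h2
          · exact Or.inr (Or.inr (Or.inr h2))
          · exact Or.inr (Or.inr (Or.inl h2))

structure GoodU (u : ℕ → ℝ) : Prop where
  zero : u 0 = 0
  mono : ∀ n, u n < u (n+1)
  lt : ∀ n, u n < 1

theorem GoodU.nonneg {u : ℕ → ℝ} (h : GoodU u) (n : ℕ) : 0 ≤ u n := by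
  induction n with
  | zero => rw [h.zero]
  | succ n ih => exact ih.trans (h.mono n).le

theorem GoodU.pos {u : ℕ → ℝ} (h : GoodU u) (n : ℕ) : 0 < u (n+1) :=
  lt_of_le_of_lt (h.nonneg n) (h.mono n)

section leg

variable {P Q c : Pt} {u : ℕ → ℝ}

theorem leg_pos (hD : 0 < cr P Q c) (hu : GoodU u) (n : ℕ) : 0 < cr P Q (yy P Q c u n) := by
  rw [cr_yy, cr_self, cr_self']
  have := hu.lt n
  nlinarith

theorem leg_ne (hD : 0 < cr P Q c) (hu : GoodU u) (n : ℕ) :
    P ≠ Q ∧ P ≠ yy P Q c u n ∧ Q ≠ yy P Q c u n := ne_of_cr (leg_pos hD hu n).ne'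

theorem mem_legT' (hD : 0 < cr P Q c) (hu : GoodU u) (n : ℕ) (s : Finset Pt) :
    s ∈ legT P Q (yy P Q c u) n ↔ s = {P, Q, yy P Q c u n} ∨
      ∃ k < n, s = {P, yy P Q c u k, yy P Q c u (k+1)} ∨ s = {Q, yy P Q c u k, yy P Q c u (k+1)} :=
  mem_legT (leg_ne hD hu 0).1 (fun n => (leg_ne hD hu n).2.1) (fun n => (leg_ne hD hu n).2.2) n s

theorem leg_stri (hD : 0 < cr P Q c) (hu : GoodU u) (n : ℕ) :
    STri (legP P Q (yy P Q c u) n) (legT P Q (yy P Q c u) n) := by
  induction n with
  | zero =>
    have h1 := leg_pos hD hu 0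
    obtain ⟨n1, n2, n3⟩ := ne_of_cr h1.ne'
    have e1 : legP P Q (yy P Q c u) 0 = {P, Q, yy P Q c u 0} := by
      ext x; simp [legP]
    rw [e1]
    exact STri.single (Finset.card_eq_three.2 ⟨_, _, _, n1, n2, n3, rfl⟩)
      (by rw [coe3, collinear_iff]; exact h1.ne')
  | succ n ih =>
    have hmem : {P, Q, yy P Q c u n} ∈ legT P Q (yy P Q c u) n := (mem_legT' hD hu n _).2 (Or.inl rfl)
    have p1 := leg_pos hD hu (n+1)
    have p2 : 0 < cr Q (yy P Q c u n) (yy P Q c u (n+1)) := by
      rw [cr_yy1]; have := hu.mono n; nlinarith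
    have p3 : 0 < cr (yy P Q c u n) P (yy P Q c u (n+1)) := by
      rw [cr_yy2]; have := hu.mono n; nlinarith
    have h2 := STri.split p1 p2 p3
    have h3 := ih.replace hmem _ _ (by
      intro x hx
      simp only [Finset.mem_insert, Finset.mem_singleton] at hx ⊢; tauto) h2 (by
      intro x hx
      simp only [Finset.mem_insert, Finset.mem_singleton] at hx
      rcases hx with rfl | rfl | rfl | rfl
      · left; simp
      · left; simp
      · left; simp
      · right; rw [coe3]; exact mem_int_of_cr p1 p2 p3)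
    have e1 : legP P Q (yy P Q c u) (n+1) =
        legP P Q (yy P Q c u) n ∪ {P, Q, yy P Q c u n, yy P Q c u (n+1)} := by
      ext x
      simp only [legP, Finset.mem_union, Finset.mem_insert, Finset.mem_singleton,
        Finset.mem_image, Finset.mem_range]
      constructor
      · rintro (h | ⟨k, hk, rfl⟩)
        · tauto
        · rcases Nat.lt_or_ge k (n+1) with hk' | hk'
          · exact Or.inl (Or.inr ⟨k, hk', rfl⟩)
          · obtain rfl : k = n + 1 := by omega
            tauto
      · rintro ((h | ⟨k, hk, rfl⟩) | h)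
        · exact Or.inl h
        · exact Or.inr ⟨k, by omega, rfl⟩
        · rcases h with h | h | h | h
          · tauto
          · tauto
          · exact Or.inr ⟨n, by omega, h.symm⟩
          · exact Or.inr ⟨n+1, by omega, h.symm⟩
    rw [e1]
    exact h3

theorem leg_int (hD : 0 < cr P Q c) (hu : GoodU u) (n : ℕ) :
    ∀ p ∈ legP P Q (yy P Q c u) n, p ∈ ({P, Q, c} : Finset Pt) ∨
      p ∈ interior (convexHull ℝ ((({P, Q, c} : Finset Pt)) : Set Pt)) := by
  intro p hp
  simp only [legP, Finset.mem_union, Finset.mem_insert, Finset.mem_singleton,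
    Finset.mem_image, Finset.mem_range] at hp
  rcases hp with (rfl | rfl) | ⟨k, hk, rfl⟩
  · left; simp
  · left; simp
  · rcases Nat.eq_zero_or_pos k with rfl | hk'
    · left
      have : yy P Q c u 0 = c := by simp [yy, hu.zero]
      rw [this]; simp
    · right
      obtain ⟨k, rfl⟩ : ∃ k', k = k' + 1 := ⟨k - 1, by omega⟩
      rw [coe3]
      have hpos := hu.pos k
      refine mem_int_of_cr (leg_pos hD hu _) ?_ ?_
      · rw [cr_yy, cr_self, cr_self']
        have : cr Q c P = cr P Q c := by unfold cr; ring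
        rw [this]; nlinarith
      · rw [cr_yy, cr_self, cr_self']
        have : cr c P Q = cr P Q c := by unfold cr; ring
        rw [this]; nlinarith

end leg

section face

variable {co : Fin 3 → Pt} {c : Pt} {u : ℕ → ℝ}

def faceP (co : Fin 3 → Pt) (c : Pt) (u : ℕ → ℝ) (N : ℕ) : Finset Pt :=
  {co 0, co 1, co 2, c} ∪ Finset.univ.biUnion
    (fun j : Fin 3 => legP (co (j+1)) (co (j+2)) (yy (co (j+1)) (co (j+2)) c u) N)

def faceT (co : Fin 3 → Pt) (c : Pt) (u : ℕ → ℝ) (N : ℕ) : Finset (Finset Pt) :=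
  Finset.univ.biUnion
    (fun j : Fin 3 => legT (co (j+1)) (co (j+2)) (yy (co (j+1)) (co (j+2)) c u) N)

theorem face_stri (hc : ∀ j, 0 < cr (co (j+1)) (co (j+2)) c) (hu : GoodU u) (N : ℕ) :
    STri (faceP co c u N) (faceT co c u N) := by
  have h0 : 0 < cr (co 1) (co 2) c := hc 0
  have h1 : 0 < cr (co 2) (co 0) c := hc 1
  have h2 : 0 < cr (co 0) (co 1) c := hc 2
  have hs := STri.split h2 h0 h1
  let τ : Fin 3 → Finset Pt := fun j => {co (j+1), co (j+2), c}
  have him : Finset.univ.image τ = {{co 0, co 1, c}, {co 1, co 2, c}, {co 2, co 0, c}} := by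
    ext s
    simp only [Finset.mem_image, Finset.mem_univ, true_and, Finset.mem_insert,
      Finset.mem_singleton, τ]
    constructor
    · rintro ⟨j, rfl⟩
      fin_cases j
      · right; left; rfl
      · right; right; rfl
      · left; rfl
    · rintro (rfl | rfl | rfl)
      · exact ⟨2, rfl⟩
      · exact ⟨0, rfl⟩
      · exact ⟨1, rfl⟩
  have n2 := ne_of_cr h2.ne'
  have n0 := ne_of_cr h0.ne'
  have n1 := ne_of_cr h1.ne'
  have hinj : Function.Injective τ := by
    have key : ∀ i j : Fin 3, i ≠ j → co i ∈ τ j := by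
      intro i j hij
      fin_cases i <;> fin_cases j <;> simp_all [τ]
    have key2 : ∀ i : Fin 3, co i ∉ τ i := by
      intro i
      fin_cases i
      · show co 0 ∉ ({co 1, co 2, c} : Finset Pt)
        simp only [Finset.mem_insert, Finset.mem_singleton]
        rintro (h | h | h)
        · exact n2.1 h
        · exact n1.1 h.symm
        · exact n2.2.1 h
      · show co 1 ∉ ({co 2, co 0, c} : Finset Pt)
        simp only [Finset.mem_insert, Finset.mem_singleton]
        rintro (h | h | h)
        · exact n0.1 h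
        · exact n2.1 h.symm
        · exact n0.2.1 h
      · show co 2 ∉ ({co 0, co 1, c} : Finset Pt)
        simp only [Finset.mem_insert, Finset.mem_singleton]
        rintro (h | h | h)
        · exact n1.1 h
        · exact n0.1 h.symm
        · exact n1.2.1 h
    intro i j hij
    by_contra hne
    exact key2 i (hij ▸ key i j hne)
  rw [← him] at hs
  refine hs.refine τ hinj _ _ (fun j => ?_) (fun j => leg_stri (hc j) hu N)
    (fun j p hp => leg_int (hc j) hu N p hp)
  intro x hx
  simp only [τ, Finset.mem_insert, Finset.mem_singleton] at hx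
  simp only [legP, Finset.mem_union, Finset.mem_insert, Finset.mem_singleton,
    Finset.mem_image, Finset.mem_range]
  rcases hx with rfl | rfl | rfl
  · tauto
  · tauto
  · right; exact ⟨0, by omega, by simp [yy, hu.zero]⟩

theorem face_corner (hc : ∀ j, 0 < cr (co (j+1)) (co (j+2)) c) (j k : Fin 3) :
    0 ≤ cr (co (j+1)) (co (j+2)) (co k) := by
  have h0 : 0 < cr (co 1) (co 2) c := hc 0
  have h1 : 0 < cr (co 2) (co 0) c := hc 1
  have h2 : 0 < cr (co 0) (co 1) c := hc 2
  have hD : 0 < cr (co 0) (co 1) (co 2) := by rw [← cr_sum _ _ _ c]; positivity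
  have hD1 : 0 < cr (co 1) (co 2) (co 0) := by rwa [← cr_rot]
  have hD2 : 0 < cr (co 2) (co 0) (co 1) := by rwa [← cr_rot]
  fin_cases j <;> fin_cases k
  · exact hD1.le
  · exact (cr_self _ _).ge
  · exact (cr_self' _ _).ge
  · exact (cr_self' _ _).ge
  · exact hD2.le
  · exact (cr_self _ _).ge
  · exact (cr_self _ _).ge
  · exact (cr_self' _ _).ge
  · exact hD.le

theorem face_int_pt (hc : ∀ j, 0 < cr (co (j+1)) (co (j+2)) c) (hu : GoodU u) (j : Fin 3) (n : ℕ) :
    yy (co (j+1)) (co (j+2)) c u n ∈ interior (convexHull ℝ ({co 0, co 1, co 2} : Set Pt)) := by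
  have key : ∀ i, 0 < cr (co (i+1)) (co (i+2)) (yy (co (j+1)) (co (j+2)) c u n) := by
    intro i
    rw [cr_yy]
    have e1 := face_corner hc i (j+1)
    have e2 := face_corner hc i (j+2)
    have e3 := hc i
    have e4 := hu.nonneg n
    have e5 := hu.lt n
    have : 0 < (1 - u n) * cr (co (i+1)) (co (i+2)) c := by
      apply mul_pos _ e3; linarith
    have : 0 ≤ u n / 2 * cr (co (i+1)) (co (i+2)) (co (j+1)) := by positivity
    have : 0 ≤ u n / 2 * cr (co (i+1)) (co (i+2)) (co (j+2)) := by positivity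
    linarith
  exact mem_int_of_cr (key 2) (key 0) (key 1)

theorem face_int (hc : ∀ j, 0 < cr (co (j+1)) (co (j+2)) c) (hu : GoodU u) (N : ℕ) :
    ∀ p ∈ faceP co c u N, p ∈ ({co 0, co 1, co 2} : Finset Pt) ∨
      p ∈ interior (convexHull ℝ ((({co 0, co 1, co 2} : Finset Pt)) : Set Pt)) := by
  intro p hp
  rw [coe3]
  have hcor : ∀ k, co k ∈ ({co 0, co 1, co 2} : Finset Pt) := by
    intro k; fin_cases k <;> simp
  simp only [faceP, Finset.mem_union, Finset.mem_biUnion, Finset.mem_univ, true_and] at hp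
  rcases hp with hp | ⟨j, hp⟩
  · simp only [Finset.mem_insert, Finset.mem_singleton] at hp
    rcases hp with rfl | rfl | rfl | rfl
    · left; simp
    · left; simp
    · left; simp
    · right
      exact mem_int_of_cr (hc 2) (hc 0) (hc 1)
  · simp only [legP, Finset.mem_union, Finset.mem_insert, Finset.mem_singleton,
      Finset.mem_image, Finset.mem_range] at hp
    rcases hp with (rfl | rfl) | ⟨k, hk, rfl⟩
    · left; exact hcor _
    · left; exact hcor _
    · right; exact face_int_pt hc hu j k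

end face

end MP91a79a

end
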