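import Pool.Agent.Lib.MP_91a79a_co.Phase

/-!
Lifting a simultaneous flip of the coarse triangulation (MP_91a79a_co): coarsening, part 5.
-/

noncomputable section

namespace MP91a79a

open Set Classical

variable {B P : Finset Pt} {C T : Finset (Finset Pt)} {F : ℕ}

theorem conv_pin {t : Finset Pt} (ht : t ⊆ P) :
    convexHull ℝ (pin P t : Set Pt) = convexHull ℝ (t : Set Pt) := by
  apply Subset.antisymm
  · apply convexHull_min _ (convex_convexHull ℝ _)
    intro x hx
    exact (mem_pin.1 (Finset.mem_coe.1 hx)).2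
  · apply convexHull_mono
    intro x hx
    exact Finset.mem_coe.2 (mem_pin.2 ⟨ht hx, subset_convexHull ℝ _ hx⟩)

theorem sub_pin {t : Finset Pt} (ht : t ⊆ P) : t ⊆ pin P t := fun _ hx =>
  mem_pin.2 ⟨ht hx, subset_convexHull ℝ _ (Finset.mem_coe.2 hx)⟩

theorem pin_sub (P t : Finset Pt) : pin P t ⊆ P := Finset.filter_subset _ _

/-- the ends of a hull edge of `pin P t` are in `t` -/
theorem corner (hG : GP P) {t : Finset Pt} (ht : t ⊆ P) {u w : Pt} (hu : u ∈ P) (hw : w ∈ P)
    (huw : u ≠ w) (hall : ∀ x ∈ t, 0 ≤ cr u w x) {z : Pt} (hz : z ∈ convexHull ℝ (t : Set Pt))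
    (hzu : z = u ∨ z = w) : z ∈ t := by
  set α := (w.2 - u.2) with hα
  set β := -(w.1 - u.1) with hβ
  have hlf : ∀ p, lf α β p = lf α β u - cr u w p := by
    intro p; unfold lf cr; rw [hα, hβ]; ring
  have hz0 : cr u w z = 0 := by
    rcases hzu with rfl | rfl
    · exact cr_self _ _
    · exact cr_self' _ _
  have h1 := hull_max hz α β (lf α β u)
    (fun x hx => by rw [hlf x]; linarith [hall x hx]) (by rw [hlf z, hz0]; linarith)
  set W := t.filter (fun x => lf α β x = lf α β u) with hW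
  have hW' : ∀ x ∈ W, x ∈ t ∧ (x = u ∨ x = w) := by
    intro x hx
    obtain ⟨h2, h3⟩ := Finset.mem_filter.1 hx
    refine ⟨h2, ?_⟩
    rw [hlf x] at h3
    exact hG.mem_of_cr hu hw (ht h2) huw (by linarith)
  by_contra hzt
  have hne : ∃ z', (z' = u ∨ z' = w) ∧ z' ≠ z ∧ ∀ x ∈ W, x = z' := by
    rcases hzu with rfl | rfl
    · refine ⟨w, Or.inr rfl, huw.symm, fun x hx => ?_⟩
      rcases (hW' x hx).2 with h | h
      · exact absurd (h ▸ (hW' x hx).1) hzt
      · exact h
    · refine ⟨u, Or.inl rfl, huw, fun x hx => ?_⟩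
      rcases (hW' x hx).2 with h | h
      · exact h
      · exact absurd (h ▸ (hW' x hx).1) hzt
  obtain ⟨z', -, hne', hall'⟩ := hne
  have h3 : (W : Set Pt) ⊆ {z'} := fun x hx => hall' x hx
  have h4 := convexHull_mono h3 h1
  rw [convexHull_singleton] at h4
  exact hne' h4.symm

/-- the quadrilateral of a crossing pair is the union of two triangles -/
theorem Cross.conv4 {a b c d : Pt} (h : Cross a b c d) :
    convexHull ℝ (({a, b, c, d} : Finset Pt) : Set Pt) =
      convexHull ℝ (({a, b, c} : Finset Pt) : Set Pt) ∪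
      convexHull ℝ (({a, b, d} : Finset Pt) : Set Pt) := by
  have e4 : (({a, b, c, d} : Finset Pt) : Set Pt) = {a, b, c, d} := by simp
  rw [e4, coe3, coe3]
  apply Subset.antisymm
  · apply convexHull_min _ h.quad.2
    intro x hx
    simp only [Set.mem_insert_iff, Set.mem_singleton_iff] at hx
    rcases hx with rfl | rfl | rfl | rfl
    · exact Or.inl (subset_convexHull ℝ _ (by simp))
    · exact Or.inl (subset_convexHull ℝ _ (by simp))
    · exact Or.inl (subset_convexHull ℝ _ (by simp))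
    · exact Or.inr (subset_convexHull ℝ _ (by simp))
  · apply Set.union_subset
    · apply convexHull_mono
      intro x hx
      simp only [Set.mem_insert_iff, Set.mem_singleton_iff] at hx ⊢
      tauto
    · apply convexHull_mono
      intro x hx
      simp only [Set.mem_insert_iff, Set.mem_singleton_iff] at hx ⊢
      tauto

/-- hull edges of the quadrilateral of a flip are sides of the coarse triangulation -/
theorem quad_hull (hG : GP P) (hBP : B ⊆ P) (hC : STri B C) {a b c d : Pt} (t1 : {a, b, c} ∈ C)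
    (t2 : {a, b, d} ∈ C) (hx : Cross a b c d) {u w : Pt}
    (hu : u ∈ pin P {a, b, c, d}) (hw : w ∈ pin P {a, b, c, d}) (huw : u ≠ w)
    (hall : ∀ x ∈ pin P {a, b, c, d}, 0 ≤ cr u w x) : Side C u w := by
  have haB : a ∈ B := hC.sub _ t1 (by simp)
  have hbB : b ∈ B := hC.sub _ t1 (by simp)
  have hcB : c ∈ B := hC.sub _ t1 (by simp)
  have hdB : d ∈ B := hC.sub _ t2 (by simp)
  have ht : ({a, b, c, d} : Finset Pt) ⊆ P := by
    intro x hx
    simp only [Finset.mem_insert, Finset.mem_singleton] at hx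
    rcases hx with rfl | rfl | rfl | rfl
    · exact hBP haB
    · exact hBP hbB
    · exact hBP hcB
    · exact hBP hdB
  obtain ⟨huP, hu'⟩ := mem_pin.1 hu
  obtain ⟨hwP, hw'⟩ := mem_pin.1 hw
  have hall' : ∀ x ∈ ({a, b, c, d} : Finset Pt), 0 ≤ cr u w x := fun x hx => hall x (sub_pin ht hx)
  have hu2 := corner hG ht huP hwP huw hall' hu' (Or.inl rfl)
  have hw2 := corner hG ht huP hwP huw hall' hw' (Or.inr rfl)
  have ha := hall' a (by simp)
  have hb := hall' b (by simp)
  have hc := hall' c (by simp)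
  have hd := hall' d (by simp)
  obtain ⟨n1, n2, n3, n4, n5, n6⟩ := hx.distinct
  have sac : Side C a c := ⟨n2, _, t1, by simp, by simp⟩
  have sbc : Side C b c := ⟨n4, _, t1, by simp, by simp⟩
  have sad : Side C a d := ⟨n3, _, t2, by simp, by simp⟩
  have sbd : Side C b d := ⟨n5, _, t2, by simp, by simp⟩
  obtain ⟨x1, x2⟩ := hx
  simp only [Finset.mem_insert, Finset.mem_singleton] at hu2 hw2
  rcases hu2 with rfl | rfl | rfl | rfl <;> rcases hw2 with rfl | rfl | rfl | rfl
  · exact absurd rfl huw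
  · exfalso; nlinarith
  · exact sac
  · exact sad
  · exfalso; rw [cr_swap] at hc hd; nlinarith
  · exact absurd rfl huw
  · exact sbc
  · exact sbd
  · exact sac.symm
  · exact sbc.symm
  · exact absurd rfl huw
  · exfalso; nlinarith
  · exact sad.symm
  · exact sbd.symm
  · exfalso; rw [cr_swap] at ha hb; nlinarith
  · exact absurd rfl huw

theorem quad_sides {a b c d u w : Pt} (S : Pt → Pt → Prop) (hs : ∀ x y, S x y → S y x)
    (hac : S a c) (had : S a d) (hbc : S b c) (hbd : S b d) (hcd : S c d) (hne : u ≠ w)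
    (h : (u ∈ ({a, c, d} : Finset Pt) ∧ w ∈ ({a, c, d} : Finset Pt)) ∨
      (u ∈ ({b, c, d} : Finset Pt) ∧ w ∈ ({b, c, d} : Finset Pt))) : S u w := by
  simp only [Finset.mem_insert, Finset.mem_singleton] at h
  rcases h with ⟨h1, h2⟩ | ⟨h1, h2⟩
  · rcases h1 with rfl | rfl | rfl <;> rcases h2 with rfl | rfl | rfl <;>
      first | exact absurd rfl hne | assumption | exact hs _ _ ‹_›
  · rcases h1 with rfl | rfl | rfl <;> rcases h2 with rfl | rfl | rfl <;>
      first | exact absurd rfl hne | assumption | exact hs _ _ ‹_›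

/-- LIFTING LEMMA: a simultaneous flip of the coarse triangulation is realised by `K` simultaneous
flips, if all quadrilaterals contain at most `K` points -/
theorem CS.lift (hG : GP P) (hT : IsTriangulation P T) (h : CS P B C T F) (Fl : Finset FlipData)
    (hF : ∀ q ∈ Fl, {q.a, q.b, q.c} ∈ C ∧ {q.a, q.b, q.d} ∈ C ∧ Cross q.a q.b q.c q.d)
    (hd : ∀ q ∈ Fl, ∀ q' ∈ Fl, q ≠ q' → ∀ t ∈ C, ¬ (q.a ∈ t ∧ q.b ∈ t ∧ q'.a ∈ t ∧ q'.b ∈ t))
    (hK : ∀ q ∈ Fl, (pin P {q.a, q.b, q.c, q.d}).card ≤ F) :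
    ∃ T', Reach P F T T' ∧
      CS P B ((C \ Fl.biUnion FlipData.old) ∪ Fl.biUnion FlipData.new) T' F := by
  have hC := h.tri
  have hC' := (hC.simFlip Fl hF hd).1
  set C' := (C \ Fl.biUnion FlipData.old) ∪ Fl.biUnion FlipData.new with hC'def
  set Q : FlipData → Finset Pt := fun q => pin P {q.a, q.b, q.c, q.d} with hQdef
  have hsub4 : ∀ q ∈ Fl, ({q.a, q.b, q.c, q.d} : Finset Pt) ⊆ P := by
    intro q hq x hx
    obtain ⟨t1, t2, -⟩ := hF q hq
    simp only [Finset.mem_insert, Finset.mem_singleton] at hx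
    rcases hx with rfl | rfl | rfl | rfl
    · exact h.sub (hC.sub _ t1 (by simp))
    · exact h.sub (hC.sub _ t1 (by simp))
    · exact h.sub (hC.sub _ t1 (by simp))
    · exact h.sub (hC.sub _ t2 (by simp))
  have hQP : ∀ q, Q q ⊆ P := fun q => pin_sub _ _
  have hconv : ∀ q ∈ Fl, convexHull ℝ (Q q : Set Pt) =
      convexHull ℝ (({q.a, q.b, q.c, q.d} : Finset Pt) : Set Pt) :=
    fun q hq => conv_pin (hsub4 q hq)
  have hQcl : ∀ q ∈ Fl, ∀ p ∈ P, p ∈ convexHull ℝ (Q q : Set Pt) → p ∈ Q q := by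
    intro q hq p hp hpc
    rw [hconv q hq] at hpc
    exact mem_pin.2 ⟨hp, hpc⟩
  have hcard : ∀ q ∈ Fl, 3 ≤ (Q q).card := by
    intro q hq
    obtain ⟨t1, t2, -⟩ := hF q hq
    rw [← hC.card _ t1]
    have h5 : ({q.a, q.b, q.c} : Finset Pt) ⊆ {q.a, q.b, q.c, q.d} := by
      intro x hx
      rw [Finset.mem_insert, Finset.mem_insert, Finset.mem_singleton] at hx
      rw [Finset.mem_insert, Finset.mem_insert, Finset.mem_insert, Finset.mem_singleton]
      tauto
    exact Finset.card_le_card (h5.trans (sub_pin (hsub4 q hq)))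
  have hhull : ∀ q ∈ Fl, ∀ u ∈ Q q, ∀ v ∈ Q q, u ≠ v → (∀ w ∈ Q q, 0 ≤ cr u v w) →
      Side T u v := by
    intro q hq u hu v hv huv hall
    obtain ⟨t1, t2, t3⟩ := hF q hq
    exact h.ref _ _ (quad_hull hG h.sub hC t1 t2 t3 hu hv huv hall)
  have hS : ∀ q ∈ Fl, IsTriangulation (Q q) (restr T (Q q)) := fun q hq =>
    hT.restr (hQP q) (hG.mono (hQP q)) (hcard q hq) (hQcl q hq) (hhull q hq)
  -- insertion in every quadrilateral
  have hins : ∀ q, ∃ S', q ∈ Fl → Reach (Q q) F (restr T (Q q)) S' ∧ Side S' q.c q.d ∧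
      ∀ u v, Side (restr T (Q q)) u v → ¬ Cross q.c q.d u v → Side S' u v := by
    intro q
    by_cases hq : q ∈ Fl
    · obtain ⟨t1, t2, t3⟩ := hF q hq
      have hcd := t3.distinct.2.2.2.2.2
      obtain ⟨k, hk, S', h1, h2, h3⟩ := insertion (hG.mono (hQP q)) (hS q hq)
        (x := q.c) (y := q.d) (sub_pin (hsub4 q hq) (by simp)) (sub_pin (hsub4 q hq) (by simp))
        hcd (Q q) (fun u v hs _ => side_mem (hS q hq) hs)
      exact ⟨S', fun _ => ⟨h1.mono (hk.trans (hK q hq)), h2, h3⟩⟩
    · exact ⟨∅, fun h => absurd h hq⟩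
  choose S' hS' using hins
  -- disjointness of the regions
  have hdis : ∀ q ∈ Fl, ∀ q' ∈ Fl, q ≠ q' → Disjoint (interior (convexHull ℝ (Q q : Set Pt)))
      (interior (convexHull ℝ (Q q' : Set Pt))) := by
    intro q hq q' hq' hne
    obtain ⟨t1, t2, t3⟩ := hF q hq
    obtain ⟨s1, s2, s3⟩ := hF q' hq'
    rw [Set.disjoint_left]
    intro z hz hz'
    have hzq := interior_subset hz
    rw [hconv q hq, t3.conv4] at hzq
    have key : ∀ s ∈ C, q.a ∈ s → q.b ∈ s → z ∈ convexHull ℝ (s : Set Pt) → False := by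
      intro s hs has hbs hzs
      have hcl : z ∈ closure (interior (convexHull ℝ (s : Set Pt))) := by
        rw [(convex_convexHull ℝ _).closure_interior_eq_closure_of_nonempty_interior
          (hC.nonempty_int hs)]
        exact subset_closure hzs
      obtain ⟨y, hy1, hy2⟩ := mem_closure_iff.1 hcl _ isOpen_interior hz'
      have hy3 := interior_subset hy1
      rw [hconv q' hq', s3.conv4] at hy3
      rcases hy3 with hy3 | hy3
      · have hne2 : ({q'.a, q'.b, q'.c} : Finset Pt) ≠ s := by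
          intro he
          exact hd q hq q' hq' hne s hs ⟨has, hbs, by rw [← he]; simp, by rw [← he]; simp⟩
        exact Set.disjoint_left.1 (hC.disj_hull s1 hs hne2) hy3 hy2
      · have hne2 : ({q'.a, q'.b, q'.d} : Finset Pt) ≠ s := by
          intro he
          exact hd q hq q' hq' hne s hs ⟨has, hbs, by rw [← he]; simp, by rw [← he]; simp⟩
        exact Set.disjoint_left.1 (hC.disj_hull s2 hs hne2) hy3 hy2
    rcases hzq with hzq | hzq
    · exact key _ t1 (by simp) (by simp) hzq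
    · exact key _ t2 (by simp) (by simp) hzq
  have hpar := Reach.parallel Fl hT Q (fun q => restr T (Q q)) S' F (fun q _ => hQP q) hQcl
    (fun q _ => restr_sub _ _) hdis (fun q hq => (hS' q hq).1)
  refine ⟨_, hpar, h.sub, hC', h.hv, ?_, ?_, h.cap⟩
  · -- refinement
    have hold : ∀ t ∈ C, ∀ {u w : Pt}, u ∈ t → w ∈ t → u ≠ w → Side C' u w →
        Side ((T \ Fl.biUnion fun q => restr T (Q q)) ∪ Fl.biUnion S') u w := by
      intro t ht u w hut hwt huw hs'
      obtain ⟨-, s, hs, hus, hws⟩ := h.ref u w ⟨huw, t, ht, hut, hwt⟩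
      by_cases hsF : s ∈ Fl.biUnion fun q => restr T (Q q)
      · obtain ⟨q, hq, hsq⟩ := Finset.mem_biUnion.1 hsF
        have hcd' : Side C' q.c q.d := by
          obtain ⟨t1, t2, t3⟩ := hF q hq
          refine ⟨t3.distinct.2.2.2.2.2, {q.a, q.c, q.d}, ?_, by simp, by simp⟩
          apply Finset.mem_union_right
          exact Finset.mem_biUnion.2 ⟨q, hq, by unfold FlipData.new; simp⟩
        have hnc := hC'.noCross hcd' hs'
        exact ((hS' q hq).2.2 u w ⟨huw, s, hsq, hus, hws⟩ hnc).mono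
          (fun x hx => Finset.mem_union_right _ (Finset.mem_biUnion.2 ⟨q, hq, hx⟩))
      · exact ⟨huw, s, Finset.mem_union_left _ (Finset.mem_sdiff.2 ⟨hs, hsF⟩), hus, hws⟩
    intro u w huw
    obtain ⟨hne, t, ht, hut, hwt⟩ := huw
    have huw' : Side C' u w := ⟨hne, t, ht, hut, hwt⟩
    rcases Finset.mem_union.1 ht with ht | ht
    · exact hold t (Finset.mem_sdiff.1 ht).1 hut hwt hne huw'
    · obtain ⟨q, hq, htq⟩ := Finset.mem_biUnion.1 ht
      obtain ⟨t1, t2, t3⟩ := hF q hq
      have hcd : Side ((T \ Fl.biUnion fun q => restr T (Q q)) ∪ Fl.biUnion S') q.c q.d :=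
        ((hS' q hq).2.1).mono
          (fun x hx => Finset.mem_union_right _ (Finset.mem_biUnion.2 ⟨q, hq, hx⟩))
      obtain ⟨d1, d2, d3, d4, d5, d6⟩ := t3.distinct
      have m1 : ({q.a, q.c, q.d} : Finset Pt) ∈ C' := Finset.mem_union_right _
        (Finset.mem_biUnion.2 ⟨q, hq, by unfold FlipData.new; simp⟩)
      have m2 : ({q.b, q.c, q.d} : Finset Pt) ∈ C' := Finset.mem_union_right _
        (Finset.mem_biUnion.2 ⟨q, hq, by unfold FlipData.new; simp⟩)
      refine quad_sides (a := q.a) (b := q.b) (c := q.c) (d := q.d)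
        (fun x y => Side ((T \ Fl.biUnion fun q => restr T (Q q)) ∪ Fl.biUnion S') x y)
        (fun _ _ h => h.symm)
        (hold _ t1 (by simp) (by simp) d2 ⟨d2, _, m1, by simp, by simp⟩)
        (hold _ t2 (by simp) (by simp) d3 ⟨d3, _, m1, by simp, by simp⟩)
        (hold _ t1 (by simp) (by simp) d4 ⟨d4, _, m2, by simp, by simp⟩)
        (hold _ t2 (by simp) (by simp) d5 ⟨d5, _, m2, by simp, by simp⟩) hcd hne ?_
      unfold FlipData.new at htq
      rw [Finset.mem_insert, Finset.mem_singleton] at htq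
      rcases htq with h' | h'
      · left; rw [← h']; exact ⟨hut, hwt⟩
      · right; rw [← h']; exact ⟨hut, hwt⟩
  · -- faces
    intro t ht
    rcases Finset.mem_union.1 ht with ht | ht
    · exact h.fac t (Finset.mem_sdiff.1 ht).1
    · obtain ⟨q, hq, htq⟩ := Finset.mem_biUnion.1 ht
      refine le_trans (Finset.card_le_card ?_) (hK q hq)
      intro x hx
      obtain ⟨hxP, hx⟩ := mem_pin.1 hx
      refine mem_pin.2 ⟨hxP, convexHull_mono ?_ hx⟩
      unfold FlipData.new at htq
      simp only [Finset.mem_insert, Finset.mem_singleton] at htq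
      intro y hy
      rcases htq with rfl | rfl
      · simp only [Finset.coe_insert, Finset.coe_singleton, Set.mem_insert_iff,
          Set.mem_singleton_iff] at hy ⊢
        tauto
      · simp only [Finset.coe_insert, Finset.coe_singleton, Set.mem_insert_iff,
          Set.mem_singleton_iff] at hy ⊢
        tauto

end MP91a79a

end
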