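import Pool.Agent.Lib.MP_91a79a_co.Rank

/-!
The linear theorem: any two triangulations of a set of `n` points in general position are at most
`88 n` simultaneous flips apart (MP_91a79a_co).
-/

noncomputable section

namespace MP91a79a

open Set

/-! ### triangular hull -/

namespace TriHull

variable {P : Finset Pt} {a b c q : Pt}

theorem card_eq (h : TriHull P a b c) : P.card = 3 + (P \ {a, b, c}).card := by
  obtain ⟨n1, n2, n3⟩ := h.nes
  have hsub : ({a, b, c} : Finset Pt) ⊆ P := by
    intro w hw
    simp only [Finset.mem_insert, Finset.mem_singleton] at hw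
    rcases hw with rfl | rfl | rfl
    · exact h.ha
    · exact h.hb
    · exact h.hc
  have hc : ({a, b, c} : Finset Pt).card = 3 := Finset.card_eq_three.2 ⟨_, _, _, n1, n2, n3, rfl⟩
  have := Finset.card_sdiff_add_card_eq_card hsub
  omega

theorem mem_int {w : Pt} : w ∈ P \ {a, b, c} ↔ w ∈ P ∧ w ≠ a ∧ w ≠ b ∧ w ≠ c := by
  rw [Finset.mem_sdiff, Finset.mem_insert, Finset.mem_insert, Finset.mem_singleton]
  tauto

theorem balanced (h : TriHull P a b c) (h4 : 4 ≤ P.card) :
    ∃ q ∈ P, q ≠ a ∧ q ≠ b ∧ q ≠ c ∧ 3 * ((trg P a b q).card - 3) ≤ 2 * (P.card - 3) ∧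
      3 * ((trg P b c q).card - 3) ≤ 2 * (P.card - 3) ∧
      3 * ((trg P c a q).card - 3) ≤ 2 * (P.card - 3) := by
  set X := P \ {a, b, c} with hX
  have hcard := h.card_eq
  rw [← hX] at hcard
  have hang : Ang X a b := by
    refine ⟨fun w hw => ?_, fun w hw w' hw' hne => ?_⟩
    · obtain ⟨h1, h2, h3, h5⟩ := mem_int.1 hw
      exact (h.ins w h1 h2 h3 h5).1
    · obtain ⟨h1, h2, -, -⟩ := mem_int.1 hw
      obtain ⟨h1', h2', -, -⟩ := mem_int.1 hw'
      exact h.gp a h.ha w h1 w' h1' h2.symm h2'.symm hne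
  have hmid := hang.card_mid (by omega)
  set M := X.filter fun w => X.card ≤ 3 * (rk X a w + 1) ∧ 3 * rk X a w ≤ 2 * X.card with hM
  have hMne : M.Nonempty := by rw [← Finset.card_pos]; omega
  obtain ⟨q, hqM, hqmin⟩ := Finset.exists_min_image M (fun w => cr b c w) hMne
  obtain ⟨hqX, hq1, hq2⟩ := Finset.mem_filter.1 hqM
  obtain ⟨hq, ha, hb, hc⟩ := mem_int.1 hqX
  obtain ⟨i1, i2, i3⟩ := h.ins q hq ha hb hc
  have hh1 := h.sub hq ha hb hc
  have hh2 := h.rot.sub hq hb hc ha
  have hh3 := h.rot.rot.sub hq hc ha hb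
  have hadd := hang.rk_add hqX
  refine ⟨q, hq, ha, hb, hc, ?_, ?_, ?_⟩
  · have hsub : trg P a b q \ {a, b, q} ⊆ X.filter (fun w' => 0 < cr a w' q) := by
      intro p hp
      obtain ⟨hp1, hp2, hp3, hp4⟩ := mem_int.1 hp
      obtain ⟨j1, j2, j3⟩ := hh1.ins p hp1 hp2 hp3 hp4
      refine Finset.mem_filter.2 ⟨mem_int.2 ⟨trg_sub _ _ _ _ hp1, hp2, hp3, ?_⟩, ?_⟩
      · rintro rfl
        have : cr b q p = - cr b p q := cr_anti b p q
        linarith
      · rw [← cr_rot]; exact j3
    have h1 := Finset.card_le_card hsub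
    have h2 := hh1.card_eq
    have h3 : (X.filter (fun w' => 0 < cr a w' q)).card = rk X a q := rfl
    omega
  · have hsub : trg P b c q \ {b, c, q} ⊆ X \ M := by
      intro p hp
      obtain ⟨hp1, hp2, hp3, hp4⟩ := mem_int.1 hp
      obtain ⟨j1, j2, j3⟩ := hh2.ins p hp1 hp2 hp3 hp4
      rw [Finset.mem_sdiff]
      refine ⟨mem_int.2 ⟨trg_sub _ _ _ _ hp1, ?_, hp2, hp3⟩, fun hpM => ?_⟩
      · rintro rfl
        have : cr c q p = - cr c p q := cr_anti c p q
        linarith
      · have h5 := hqmin p hpM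
        have h6 := cr_sum b c q p
        linarith
    have h1 := Finset.card_le_card hsub
    have h2 := hh2.card_eq
    have h3 := Finset.card_sdiff_add_card_eq_card (Finset.filter_subset
      (fun w => X.card ≤ 3 * (rk X a w + 1) ∧ 3 * rk X a w ≤ 2 * X.card) X)
    rw [← hM] at h3
    omega
  · have hsub : trg P c a q \ {c, a, q} ⊆ X.filter (fun w' => 0 < cr a q w') := by
      intro p hp
      obtain ⟨hp1, hp2, hp3, hp4⟩ := mem_int.1 hp
      obtain ⟨j1, j2, j3⟩ := hh3.ins p hp1 hp2 hp3 hp4
      refine Finset.mem_filter.2 ⟨mem_int.2 ⟨trg_sub _ _ _ _ hp1, hp3, ?_, hp2⟩, j2⟩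
      rintro rfl
      have : cr a q p = - cr a p q := cr_anti a p q
      linarith
    have h1 := Finset.card_le_card hsub
    have h2 := hh3.card_eq
    have h3 : (X.filter (fun w' => 0 < cr a q w')).card = rk' X a q := rfl
    omega

theorem lin (hins : InsHyp) (hrev : RevHyp) : ∀ n : ℕ, ∀ (P : Finset Pt) (a b c : Pt),
    TriHull P a b c → P.card = n → Dia P (72 * (n - 3)) := by
  intro n
  induction n using Nat.strong_induction_on with
  | _ n ih =>
    intro P a b c h hn
    have h3 := h.card
    by_cases h4 : P.card = 3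
    · exact (dia_three h4).mono (Nat.zero_le _)
    obtain ⟨q, hq, ha, hb, hc, b1, b2, b3⟩ := h.balanced (by omega)
    have hh1 := h.sub hq ha hb hc
    have hh2 := h.rot.sub hq hb hc ha
    have hh3 := h.rot.rot.sub hq hc ha hb
    have c1 := hh1.card
    have c2 := hh2.card
    have c3 := hh3.card
    have d1 := (ih _ (by omega) _ _ _ _ hh1 rfl).mono
      (by omega : 72 * ((trg P a b q).card - 3) ≤ 48 * (n - 3))
    have d2 := (ih _ (by omega) _ _ _ _ hh2 rfl).mono
      (by omega : 72 * ((trg P b c q).card - 3) ≤ 48 * (n - 3))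
    have d3 := (ih _ (by omega) _ _ _ _ hh3 rfl).mono
      (by omega : 72 * ((trg P c a q).card - 3) ≤ 48 * (n - 3))
    exact (h.dia_star hins hrev hq ha hb hc d1 d2 d3).mono (by omega)

end TriHull

/-! ### general hulls -/

/-- a hull vertex and a supporting line through it only -/
theorem exists_far {P : Finset Pt} (hne : P.Nonempty) :
    ∃ o ∈ P, ∃ e : Pt, ∀ w ∈ P, w ≠ o → 0 < cr o e w := by
  obtain ⟨c, hc⟩ := hne
  obtain ⟨o, ho, hmax⟩ := Finset.exists_max_image P
    (fun w => (w.1 - c.1) ^ 2 + (w.2 - c.2) ^ 2) ⟨c, hc⟩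
  refine ⟨o, ho, (o.1 - (o.2 - c.2), o.2 + (o.1 - c.1)), fun w hw hwo => ?_⟩
  have h1 := hmax w hw
  have h2 : 0 < (o.1 - w.1) ^ 2 + (o.2 - w.2) ^ 2 := by
    by_contra hcon
    push Not at hcon
    apply hwo
    have e1 : o.1 - w.1 = 0 := by nlinarith [sq_nonneg (o.1 - w.1), sq_nonneg (o.2 - w.2)]
    have e2 : o.2 - w.2 = 0 := by nlinarith [sq_nonneg (o.1 - w.1), sq_nonneg (o.2 - w.2)]
    ext
    · linarith
    · linarith
  unfold cr
  nlinarith

theorem HV_of_far {P : Finset Pt} {o e : Pt} (h : ∀ w ∈ P, w ≠ o → 0 < cr o e w)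
    (h2 : ∃ w ∈ P, w ≠ o) : HV P o := by
  obtain ⟨w, hw, hwo⟩ := h2
  have hne := (ne_of_cr (h w hw hwo).ne').1
  refine HV.of_cr hne fun w hw => ?_
  by_cases h1 : w = o
  · rw [h1, cr_self]
  · exact (h w hw h1).le

/-- the ray from `o` through `p` leaves the hull at `p` or through a hull edge -/
theorem exit_edge {P : Finset Pt} (hG : GP P) (h3 : 3 ≤ P.card) {o p e : Pt} (ho : o ∈ P)
    (hp : p ∈ P) (hop : o ≠ p) (he : ∀ w ∈ P, w ≠ o → 0 < cr o e w) :
    HV P p ∨ ∃ u ∈ P, ∃ v ∈ P, u ≠ v ∧ u ≠ o ∧ v ≠ o ∧ (∀ w ∈ P, 0 ≤ cr u v w) ∧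
      0 < cr o u p ∧ 0 < cr o p v := by
  have hint := int_nonempty_of_GP hG h3
  have hcomp : IsCompact (convexHull ℝ (P : Set Pt)) := P.finite_toSet.isCompact_convexHull ℝ
  set K : Set Pt := convexHull ℝ (P : Set Pt) ∩ {z | cr o p z = 0} with hK
  have hKc : IsCompact K := hcomp.inter_right (isClosed_eq (continuous_cr o p) continuous_const)
  have hpK : p ∈ K := ⟨subset_convexHull ℝ _ hp, cr_self' _ _⟩
  set φ : Pt → ℝ := fun z => lf (p.1 - o.1) (p.2 - o.2) z with hφ
  have hφc : Continuous φ := by rw [hφ]; unfold lf; fun_prop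
  obtain ⟨z, hz, hzmax⟩ := hKc.exists_isMaxOn ⟨p, hpK⟩ hφc.continuousOn
  have hd : 0 < (p.1 - o.1) ^ 2 + (p.2 - o.2) ^ 2 := by
    by_contra hcon
    push Not at hcon
    apply hop
    have e1 : p.1 - o.1 = 0 := by nlinarith [sq_nonneg (p.1 - o.1), sq_nonneg (p.2 - o.2)]
    have e2 : p.2 - o.2 = 0 := by nlinarith [sq_nonneg (p.1 - o.1), sq_nonneg (p.2 - o.2)]
    ext
    · linarith
    · linarith
  have hzint : z ∉ interior (convexHull ℝ (P : Set Pt)) := by
    intro hzi
    let g : ℝ → Pt := fun s => (z.1 + s * (p.1 - o.1), z.2 + s * (p.2 - o.2))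
    have hg : Continuous g := by fun_prop
    have hg0 : g 0 = z := by simp [g]
    have h1 : ∀ᶠ s in nhds (0:ℝ), g s ∈ interior (convexHull ℝ (P : Set Pt)) := by
      apply hg.continuousAt.eventually_mem
      rw [hg0]; exact isOpen_interior.mem_nhds hzi
    have h2 : ∀ᶠ s in nhdsWithin (0:ℝ) (Ioi 0), g s ∈ interior (convexHull ℝ (P : Set Pt)) :=
      h1.filter_mono nhdsWithin_le_nhds
    have h4 : ∀ᶠ s in nhdsWithin (0:ℝ) (Ioi 0), (0:ℝ) < s := self_mem_nhdsWithin
    obtain ⟨s, hs1, hs2⟩ := (h2.and h4).exists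
    have h5 : cr o p (g s) = 0 := by
      have h6 : cr o p z = 0 := hz.2
      have h7 : cr o p (g s) = cr o p z := by
        simp only [cr, g]; ring
      rw [h7, h6]
    have h8 := hzmax (⟨interior_subset hs1, h5⟩ : g s ∈ K)
    have h9 : φ (g s) = φ z + s * ((p.1 - o.1) ^ 2 + (p.2 - o.2) ^ 2) := by
      simp only [hφ, lf, g]; ring
    have h10 : φ (g s) ≤ φ z := h8
    rw [h9] at h10
    nlinarith [mul_pos hs2 hd]
  -- a point of `P` on the ray is `p`
  have onray : ∀ w ∈ P, z = w → HV P w → HV P p := by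
    intro w hw hzw hHV
    have h1 : cr o p w = 0 := by rw [← hzw]; exact hz.2
    by_cases h2 : w = p
    · rwa [h2] at hHV
    · by_cases h5 : w = o
      · exfalso
        have h6 : φ p ≤ φ z := hzmax hpK
        rw [hzw, h5] at h6
        have h7 : φ p = φ o + ((p.1 - o.1) ^ 2 + (p.2 - o.2) ^ 2) := by
          simp only [hφ, lf]; ring
        linarith
      · exact absurd h1 (hG o ho p hp w hw hop (Ne.symm h5) (Ne.symm h2))
  rcases frontier_hull hG hint hz.1 hzint with h1 | ⟨u, hu, v, hv, huv, hle, hseg⟩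
  · left
    obtain ⟨α, β, h0, hsup⟩ := support_line hint hzint
    exact onray z h1 rfl ⟨α, β, h0, hsup⟩
  · have hvu : HV P u := HV.of_cr huv hle
    have hvv : HV P v := HV.of_cr' huv.symm hle
    obtain ⟨s, t, hs, ht, hst, hzz⟩ := hseg
    have hzc : cr o p z = 0 := hz.2
    rw [← hzz, cr_comb2 _ _ _ _ _ _ hst] at hzc
    rcases hs.eq_or_lt with hs0 | hs0
    · left
      apply onray v hv _ hvv
      rw [← hzz, ← hs0, zero_smul, zero_add]
      have : t = 1 := by linarith
      rw [this, one_smul]
    rcases ht.eq_or_lt with ht0 | ht0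
    · left
      apply onray u hu _ hvu
      rw [← hzz, ← ht0, zero_smul, add_zero]
      have : s = 1 := by linarith
      rw [this, one_smul]
    have key : ∀ w ∈ P, cr o p w = 0 → w = o ∨ w = p := by
      intro w hw hw0
      by_contra hcon
      push Not at hcon
      exact hG o ho p hp w hw hop hcon.1.symm hcon.2.symm hw0
    by_cases hu0 : cr o p u = 0
    · have hv0 : cr o p v = 0 := by
        rw [hu0, mul_zero, zero_add] at hzc
        exact (mul_eq_zero.1 hzc).resolve_left ht0.ne'
      left
      rcases key u hu hu0 with rfl | rfl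
      · rcases key v hv hv0 with rfl | rfl
        · exact absurd rfl huv
        · exact hvv
      · exact hvu
    · have hv0 : cr o p v ≠ 0 := by
        intro hv0
        rw [hv0, mul_zero, add_zero] at hzc
        exact hu0 ((mul_eq_zero.1 hzc).resolve_left hs0.ne')
      right
      have huo : u ≠ o := by rintro rfl; exact hu0 (cr_self _ _)
      have hvo : v ≠ o := by rintro rfl; exact hv0 (cr_self _ _)
      have hpo : p ≠ o := hop.symm
      have hpos : 0 < cr o u v := by
        have h1 := hle o ho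
        rw [← cr_rot] at h1
        exact h1.lt_of_ne (hG o ho u hu v hv huo.symm hvo.symm huv).symm
      rcases lt_or_gt_of_ne hu0 with h1 | h1
      · have h2 : 0 < cr o p v := by
          by_contra hcon
          push Not at hcon
          have h5 := hcon.lt_of_ne hv0
          nlinarith [mul_pos hs0 (neg_pos.2 h1), mul_pos ht0 (neg_pos.2 h5)]
        refine ⟨u, hu, v, hv, huv, huo, hvo, hle, ?_, h2⟩
        rw [cr_anti o p u]
        linarith
      · exfalso
        have h2 : cr o p v < 0 := by
          by_contra hcon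
          push Not at hcon
          have h5 := hcon.lt_of_ne hv0.symm
          nlinarith [mul_pos hs0 h1, mul_pos ht0 h5]
        have h5 : 0 < cr o v p := by rw [cr_anti o p v]; linarith
        have h6 := ang_trans (he v hv hvo) (he p hp hpo) (he u hu huo) h5 h1
        rw [cr_anti o u v] at h6
        linarith

theorem lin_aux (hins : InsHyp) (hrev : RevHyp) : ∀ n : ℕ, ∀ P : Finset Pt, GP P →
    P.card = n → 3 ≤ n → Dia P (88 * (n - 3)) := by
  intro n
  induction n using Nat.strong_induction_on with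
  | _ n ih =>
    intro P hG hn h3
    by_cases h4 : P.card = 3
    · exact (dia_three h4).mono (Nat.zero_le _)
    obtain ⟨o, ho, e, he⟩ := exists_far (P := P) (by rw [← Finset.card_pos]; omega)
    set X := P.erase o with hX
    have hXc : X.card + 1 = n := by
      rw [hX, Finset.card_erase_of_mem ho]; omega
    have hang : Ang X o e := by
      refine ⟨fun w hw => ?_, fun w hw w' hw' hne => ?_⟩
      · exact he w (Finset.mem_of_mem_erase hw) (Finset.ne_of_mem_erase hw)
      · exact hG o ho w (Finset.mem_of_mem_erase hw) w' (Finset.mem_of_mem_erase hw')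
          (Finset.ne_of_mem_erase hw).symm (Finset.ne_of_mem_erase hw').symm hne
    obtain ⟨p, hpX, hrk⟩ := hang.exists_rk (j := X.card / 2) (by omega)
    have hp : p ∈ P := Finset.mem_of_mem_erase hpX
    have hpo : p ≠ o := Finset.ne_of_mem_erase hpX
    have hrk' := hang.rk_add hpX
    have hHVo : HV P o := HV_of_far he ⟨p, hp, hpo⟩
    rcases exit_edge hG (by omega) ho hp hpo.symm he with hHV | ⟨u, hu, v, hv, huv, huo, hvo,
      hle, hup, hpv⟩
    · -- one chord
      have hL : (lft P o p).card ≤ 2 + rk' X o p := by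
        have hsub : lft P o p ⊆ insert o (insert p (X.filter fun w' => 0 < cr o p w')) := by
          intro w hw
          obtain ⟨hw1, hw2⟩ := mem_lft.1 hw
          rw [Finset.mem_insert, Finset.mem_insert, Finset.mem_filter]
          by_cases h5 : w = o
          · exact Or.inl h5
          by_cases h6 : w = p
          · exact Or.inr (Or.inl h6)
          refine Or.inr (Or.inr ⟨Finset.mem_erase.2 ⟨h5, hw1⟩, hw2.lt_of_ne ?_⟩)
          exact (hG o ho p hp w hw1 hpo.symm (Ne.symm h5) (Ne.symm h6)).symm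
        refine (Finset.card_le_card hsub).trans ((Finset.card_insert_le _ _).trans ?_)
        have := Finset.card_insert_le p (X.filter fun w' => 0 < cr o p w')
        unfold rk'
        omega
      have hR : (lft P p o).card ≤ 2 + rk X o p := by
        have hsub : lft P p o ⊆ insert o (insert p (X.filter fun w' => 0 < cr o w' p)) := by
          intro w hw
          obtain ⟨hw1, hw2⟩ := mem_lft.1 hw
          rw [Finset.mem_insert, Finset.mem_insert, Finset.mem_filter]
          by_cases h5 : w = o
          · exact Or.inl h5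
          by_cases h6 : w = p
          · exact Or.inr (Or.inl h6)
          refine Or.inr (Or.inr ⟨Finset.mem_erase.2 ⟨h5, hw1⟩, ?_⟩)
          have h7 : 0 < cr p o w := hw2.lt_of_ne
            (hG p hp o ho w hw1 hpo (Ne.symm h6) (Ne.symm h5)).symm
          have h8 : cr o w p = cr p o w := cr_rot o w p |>.trans (cr_rot w p o)
          rw [h8]; exact h7
        refine (Finset.card_le_card hsub).trans ((Finset.card_insert_le _ _).trans ?_)
        have := Finset.card_insert_le p (X.filter fun w' => 0 < cr o w' p)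
        unfold rk
        omega
      have h5 := Dia.cut hins hrev hG (by omega) ho hp hpo.symm hHVo hHV
        (k := 88 * (X.card / 2 - 1))
        (fun h6 => (ih _ (by omega) _ (hG.mono (lft_sub _ _ _)) rfl h6).mono (by omega))
        (fun h6 => (ih _ (by omega) _ (hG.mono (lft_sub _ _ _)) rfl h6).mono (by omega))
      exact h5.mono (by omega)
    · -- two chords and a triangle
      have huX : u ∈ X := Finset.mem_erase.2 ⟨huo, hu⟩
      have hvX : v ∈ X := Finset.mem_erase.2 ⟨hvo, hv⟩
      have huv' : 0 < cr o u v := hang.trans huX hpX hvX hup hpv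
      have hHVu : HV P u := HV.of_cr huv hle
      have hHVv : HV P v := HV.of_cr' huv.symm hle
      have hL : (lft P o v).card ≤ 1 + rk' X o p := by
        have hsub : lft P o v ⊆ insert o (X.filter fun w' => 0 < cr o p w') := by
          intro w hw
          obtain ⟨hw1, hw2⟩ := mem_lft.1 hw
          rw [Finset.mem_insert, Finset.mem_filter]
          by_cases h5 : w = o
          · exact Or.inl h5
          have hwX : w ∈ X := Finset.mem_erase.2 ⟨h5, hw1⟩
          right
          refine ⟨hwX, ?_⟩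
          by_cases h6 : w = v
          · rw [h6]; exact hpv
          have h7 : 0 < cr o v w := hw2.lt_of_ne
            (hG o ho v hv w hw1 hvo.symm (Ne.symm h5) (Ne.symm h6)).symm
          exact hang.trans hpX hvX hwX hpv h7
        refine (Finset.card_le_card hsub).trans ((Finset.card_insert_le _ _).trans ?_)
        unfold rk'
        omega
      set P' := lft P v o with hP'
      have hP'sub : P' ⊆ P := lft_sub _ _ _
      have hP'c : P'.card ≤ n := by rw [← hn]; exact Finset.card_le_card hP'sub
      have hoP' : o ∈ P' := mem_lft.2 ⟨ho, (cr_self' _ _).ge⟩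
      have huP' : u ∈ P' := mem_lft.2 ⟨hu, by
        have : cr v o u = cr o u v := by rw [← cr_rot u v o, ← cr_rot o u v]
        rw [this]; exact huv'.le⟩
      have hvP' : v ∈ P' := mem_lft.2 ⟨hv, (cr_self _ _).ge⟩
      have hR : (lft P' u o).card ≤ 1 + rk X o p := by
        have hsub : lft P' u o ⊆ insert o (X.filter fun w' => 0 < cr o w' p) := by
          intro w hw
          obtain ⟨hw1, hw2⟩ := mem_lft.1 hw
          have hw1' := hP'sub hw1
          rw [Finset.mem_insert, Finset.mem_filter]
          by_cases h5 : w = o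
          · exact Or.inl h5
          have hwX : w ∈ X := Finset.mem_erase.2 ⟨h5, hw1'⟩
          right
          refine ⟨hwX, ?_⟩
          by_cases h6 : w = u
          · rw [h6]; exact hup
          have h7 : 0 < cr u o w := hw2.lt_of_ne
            (hG u hu o ho w hw1' huo (Ne.symm h6) (Ne.symm h5)).symm
          have h8 : cr o w u = cr u o w := (cr_rot o w u).trans (cr_rot w u o)
          rw [← h8] at h7
          exact hang.trans hwX huX hpX h7 hup
        refine (Finset.card_le_card hsub).trans ((Finset.card_insert_le _ _).trans ?_)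
        unfold rk
        omega
      have htri : TriHull (lft P' o u) o u v := by
        have hm : ∀ w, w ∈ lft P' o u ↔ w ∈ P ∧ 0 ≤ cr v o w ∧ 0 ≤ cr o u w := by
          intro w
          rw [mem_lft, hP', mem_lft, and_assoc]
        refine ⟨hG.mono ((lft_sub _ _ _).trans hP'sub), (hm _).2 ⟨ho, (cr_self' _ _).ge,
          (cr_self _ _).ge⟩, (hm _).2 ⟨hu, (mem_lft.1 huP').2, (cr_self' _ _).ge⟩,
          (hm _).2 ⟨hv, (cr_self _ _).ge, huv'.le⟩, huv', fun w hw h5 h6 h7 => ?_⟩
        obtain ⟨hw1, hw2, hw3⟩ := (hm w).1 hw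
        refine ⟨hw3.lt_of_ne ?_, (hle w hw1).lt_of_ne ?_, hw2.lt_of_ne ?_⟩
        · exact (hG o ho u hu w hw1 huo.symm (Ne.symm h5) (Ne.symm h6)).symm
        · exact (hG u hu v hv w hw1 huv (Ne.symm h6) (Ne.symm h7)).symm
        · exact (hG v hv o ho w hw1 hvo (Ne.symm h7) (Ne.symm h5)).symm
      have hP'3 : 3 ≤ P'.card := htri.card.trans (Finset.card_le_card (lft_sub _ _ _))
      have htc : (lft P' o u).card ≤ n := (Finset.card_le_card (lft_sub _ _ _)).trans hP'c
      have h5 : Dia P' (2 * P'.card + 72 * (n - 3)) :=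
        Dia.cut hins hrev (hG.mono hP'sub) hP'3 hoP' huP' huo.symm (hHVo.mono hP'sub)
          (hHVu.mono hP'sub)
          (fun _ => (TriHull.lin hins hrev _ _ _ _ _ htri rfl).mono (by omega))
          (fun h6 => (ih _ (by omega) _ ((hG.mono hP'sub).mono (lft_sub _ _ _)) rfl h6).mono
            (by omega))
      have h6 : Dia P (2 * P.card + (2 * P'.card + 72 * (n - 3))) :=
        Dia.cut hins hrev hG (by omega) ho hv hvo.symm hHVo hHVv
          (fun h7 => (ih _ (by omega) _ (hG.mono (lft_sub _ _ _)) rfl h7).mono (by omega))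
          (fun _ => h5)
      exact h6.mono (by omega)

/-- **linear theorem**, from the insertion lemma and reversibility -/
theorem linear_of (hins : InsHyp) (hrev : RevHyp) (P : Finset Pt) (hG : GP P) :
    Dia P (88 * P.card) := by
  by_cases h3 : 3 ≤ P.card
  · exact (lin_aux hins hrev _ P hG rfl h3).mono (by omega)
  · intro T T' hT hT'
    have key : ∀ {T : Finset (Finset Pt)}, IsTriangulation P T → T = ∅ := by
      intro T hT
      rw [Finset.eq_empty_iff_forall_notMem]
      intro t ht
      have h1 := Finset.card_le_card (hT.sub t ht)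
      rw [hT.card t ht] at h1
      exact h3 h1
    rw [key hT, key hT']
    rw [key hT] at hT
    exact (Reach.refl _ hT).mono (Nat.zero_le _)

end MP91a79a

end
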