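import Pool.Agent.Lib.MP_91a79a_co.Lin
import Pool.Agent.Lib.MP_91a79a_co.Ins
import Pool.Agent.Lib.MP_91a79a_co.InsRev

/-!
The linear theorem for simultaneous flips, unconditional (MP_91a79a_co).
-/

noncomputable section

namespace MP91a79a

theorem insHyp : InsHyp := fun _ _ hP hT _ hx _ hy hxy W hW => insertion hP hT hx hy hxy W hW

theorem revHyp : RevHyp := fun _ _ _ _ hP h => Reach.symm hP h

/-- **linear theorem**: any two triangulations of a set of `n` points in general position are at
most `88 n` simultaneous flips apart -/
theorem linear (P : Finset Pt) (hG : GP P) : Dia P (88 * P.card) :=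
  linear_of insHyp revHyp P hG

end MP91a79a

end
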