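import Pool.Agent.Lib.MP_91a79a_co.Config

/-!
Assembly: the linear lower bound.
-/

noncomputable section

namespace MP91a79a

open Set

/-- the point set -/
def totP (N : ℕ) : Finset Pt :=
  hubP ∪ Finset.univ.biUnion fun f => faceP (co f) (cen f) (uu N) N

/-- the triangulation -/
def totT (N : ℕ) : Finset (Finset Pt) :=
  Finset.univ.biUnion fun f => faceT (co f) (cen f) (uu N) N

theorem tot_stri {N : ℕ} (hN : 0 < N) : STri (totP N) (totT N) := by
  refine hub_stri.refine faceTri faceTri_inj _ _ (fun f => ?_)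
    (fun f => face_stri (hc f) (uu_good hN) N) (fun f p hp => ?_)
  · rw [faceTri_eq]
    intro x hx
    simp only [Finset.mem_insert, Finset.mem_singleton] at hx
    simp only [faceP, Finset.mem_union, Finset.mem_insert, Finset.mem_singleton]
    left; tauto
  · rw [faceTri_eq]
    exact face_int (hc f) (uu_good hN) N p hp

theorem mem_totP {N : ℕ} (hN : 0 < N) (x : Pt) : x ∈ totP N ↔
    (∃ h, x = hubs h) ∨ ∃ f j i, i ≤ N ∧ x = XX N f j i := by
  simp only [totP, hubP, faceP, legP, Finset.mem_union, Finset.mem_image, Finset.mem_univ, true_and,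
    Finset.mem_biUnion, Finset.mem_insert, Finset.mem_singleton, Finset.mem_range]
  constructor
  · rintro (⟨h, rfl⟩ | ⟨f, (rfl | rfl | rfl | rfl) | ⟨j, (rfl | rfl) | ⟨k, hk, rfl⟩⟩⟩)
    · exact Or.inl ⟨h, rfl⟩
    · exact Or.inl ⟨_, rfl⟩
    · exact Or.inl ⟨_, rfl⟩
    · exact Or.inl ⟨_, rfl⟩
    · right
      refine ⟨f, 0, N, le_rfl, ?_⟩
      simp [XX, yy, (uu_good hN).zero]
    · exact Or.inl ⟨_, rfl⟩
    · exact Or.inl ⟨_, rfl⟩
    · right
      refine ⟨f, j, N - k, by omega, ?_⟩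
      unfold XX
      congr 1
      omega
  · rintro (⟨h, rfl⟩ | ⟨f, j, i, hi, rfl⟩)
    · exact Or.inl ⟨h, rfl⟩
    · exact Or.inr ⟨f, Or.inr ⟨j, Or.inr ⟨N - i, by omega, rfl⟩⟩⟩

theorem totT_eq (K : ℕ) : ((totT (2 * K + 14) : Finset (Finset Pt)) : Set (Finset Pt)) =
    T0 (frame K) := by
  set N := 2 * K + 14 with hN
  have hNpos : 0 < N := by omega
  ext s
  simp only [totT, faceT, Finset.mem_coe, Finset.mem_biUnion, Finset.mem_univ, true_and]
  simp only [mem_legT' (hc _ _) (uu_good hNpos)]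
  constructor
  · rintro ⟨f, j, h | ⟨k, hk, h⟩⟩
    · left
      exact ⟨f, j, h⟩
    · right
      refine ⟨f, j, N - k - 1, ?_, ?_⟩
      · show N - k - 1 < N; omega
      · have e1 : (frame K).X f j (N - k - 1) = yy (co f (j+1)) (co f (j+2)) (cen f) (uu N) (k+1) := by
          show yy _ _ _ _ _ = _
          congr 1; omega
        have e2 : (frame K).X f j (N - k - 1 + 1) = yy (co f (j+1)) (co f (j+2)) (cen f) (uu N) k := by
          show yy _ _ _ _ _ = _
          congr 1; omega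
        rw [e1, e2]
        rcases h with h | h
        · left; rw [h]
          show ({co f (j+1), _, _} : Finset Pt) = {co f (j+1), _, _}
          ext x; simp only [Finset.mem_insert, Finset.mem_singleton]; tauto
        · right; rw [h]
          show ({co f (j+2), _, _} : Finset Pt) = {co f (j+2), _, _}
          ext x; simp only [Finset.mem_insert, Finset.mem_singleton]; tauto
  · rintro (⟨f, j, h⟩ | ⟨f, j, i, hi, h⟩)
    · exact ⟨f, j, Or.inl h⟩
    · refine ⟨f, j, Or.inr ⟨N - i - 1, ?_, ?_⟩⟩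
      · have : i < N := hi
        omega
      · have hi' : i < N := hi
        have e1 : (frame K).X f j i = yy (co f (j+1)) (co f (j+2)) (cen f) (uu N) (N - i - 1 + 1) := by
          show yy _ _ _ _ _ = _
          congr 1; omega
        have e2 : (frame K).X f j (i + 1) = yy (co f (j+1)) (co f (j+2)) (cen f) (uu N) (N - i - 1) := by
          show yy _ _ _ _ _ = _
          congr 1
        rw [e1, e2] at h
        rcases h with h | h
        · left; rw [h]
          show ({co f (j+1), _, _} : Finset Pt) = {co f (j+1), _, _}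
          ext x; simp only [Finset.mem_insert, Finset.mem_singleton]; tauto
        · right; rw [h]
          show ({co f (j+2), _, _} : Finset Pt) = {co f (j+2), _, _}
          ext x; simp only [Finset.mem_insert, Finset.mem_singleton]; tauto

/-! ### consequences of being a triangulation -/

theorem same_side {P : Finset Pt} {T : Finset (Finset Pt)} (hT : IsTriangulation P T)
    {u v c d : Pt} (hc : ({u, v, c} : Finset Pt) ∈ T) (hd : ({u, v, d} : Finset Pt) ∈ T)
    (h : 0 < cr u v c * cr u v d) : ({u, v, c} : Finset Pt) = {u, v, d} := by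
  by_contra hne
  have h1 := hT.disj _ hc _ hd hne
  rw [coe3, coe3] at h1
  rcases pos_and_pos_or_neg_and_neg_of_mul_pos h with ⟨h2, h3⟩ | ⟨h2, h3⟩
  · obtain ⟨p, hp, hp'⟩ := overlap h2 h3
    exact Set.disjoint_left.1 h1 hp hp'
  · have h4 : 0 < cr v u c := by rw [cr_swap]; linarith
    have h5 : 0 < cr v u d := by rw [cr_swap]; linarith
    obtain ⟨p, hp, hp'⟩ := overlap h4 h5
    rw [Set.insert_comm] at hp hp'
    exact Set.disjoint_left.1 h1 hp hp'

theorem edge_two {P : Finset Pt} {T : Finset (Finset Pt)} (hT : IsTriangulation P T)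
    (u v : Pt) (huv : u ≠ v) (r : Finset Pt) (hr : r ∈ T) (s : Finset Pt) (hs : s ∈ T)
    (t : Finset Pt) (ht : t ∈ T) (ur : u ∈ r) (vr : v ∈ r) (us : u ∈ s) (vs : v ∈ s)
    (ut : u ∈ t) (vt : v ∈ t) : r = s ∨ r = t ∨ s = t := by
  obtain ⟨a, rfl, ha⟩ := repr_edge (hT.card r hr) (hT.nondeg r hr) huv ur vr
  obtain ⟨b, rfl, hb⟩ := repr_edge (hT.card s hs) (hT.nondeg s hs) huv us vs
  obtain ⟨c, rfl, hc⟩ := repr_edge (hT.card t ht) (hT.nondeg t ht) huv ut vt
  rcases lt_or_gt_of_ne ha with h1 | h1 <;> rcases lt_or_gt_of_ne hb with h2 | h2 <;>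
    rcases lt_or_gt_of_ne hc with h3 | h3
  · exact Or.inl (same_side hT hr hs (mul_pos_of_neg_of_neg h1 h2))
  · exact Or.inl (same_side hT hr hs (mul_pos_of_neg_of_neg h1 h2))
  · exact Or.inr (Or.inl (same_side hT hr ht (mul_pos_of_neg_of_neg h1 h3)))
  · exact Or.inr (Or.inr (same_side hT hs ht (mul_pos h2 h3)))
  · exact Or.inr (Or.inr (same_side hT hs ht (mul_pos_of_neg_of_neg h2 h3)))
  · exact Or.inr (Or.inl (same_side hT hr ht (mul_pos h1 h3)))
  · exact Or.inl (same_side hT hr hs (mul_pos h1 h2))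
  · exact Or.inl (same_side hT hr hs (mul_pos h1 h2))

theorem hul_hubZ : ∀ f j, hul f j = true → ∀ h,
    0 ≤ crZ (hubZ (cor f (j+1))) (hubZ (cor f (j+2))) (hubZ h) := by decide

theorem hul_cenZ : ∀ f j, hul f j = true → ∀ h,
    0 ≤ crZ (hubZ (cor f (j+1))) (hubZ (cor f (j+2))) (cenZ h) := by decide

theorem hul_pos {N : ℕ} (hN : 0 < N) {f : Fin 5} {j : Fin 3} (h : hul f j = true) {x : Pt}
    (hx : x ∈ totP N) : 0 ≤ cr (co f (j+1)) (co f (j+2)) x := by
  have e1 : ∀ g, 0 ≤ cr (co f (j+1)) (co f (j+2)) (hubs g) := by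
    intro g
    unfold co hubs
    rw [cr_toR]
    exact_mod_cast hul_hubZ f j h g
  have e2 : ∀ g, 0 ≤ cr (co f (j+1)) (co f (j+2)) (cen g) := by
    intro g
    unfold co hubs cen
    rw [cr_toR]
    exact_mod_cast hul_cenZ f j h g
  rw [mem_totP hN] at hx
  rcases hx with ⟨g, rfl⟩ | ⟨f', j', i, -, rfl⟩
  · exact e1 g
  · unfold XX
    rw [cr_yy]
    have h1 := (uu_good hN).nonneg (N - i)
    have h2 := (uu_good hN).lt (N - i)
    have h3 := e1 (cor f' (j'+1))
    have h4 := e1 (cor f' (j'+2))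
    have h5 := e2 f'
    have h6 : 0 ≤ 1 - uu N (N - i) := by linarith
    have h7 : co f' (j'+1) = hubs (cor f' (j'+1)) := rfl
    have h8 : co f' (j'+2) = hubs (cor f' (j'+2)) := rfl
    rw [h7, h8]
    positivity

theorem good_of {K : ℕ} {T : Finset (Finset Pt)} (hT : IsTriangulation (totP (2 * K + 14)) T) :
    Good (frame K) (T : Set (Finset Pt)) := by
  have hN : 0 < 2 * K + 14 := by omega
  refine ⟨hT.card, fun u v huv r hr s hs t ht => edge_two hT u v huv r hr s hs t ht,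
    fun f j hf s hs t ht h1 h2 h3 h4 => ?_, fun f hf => ?_⟩
  · have hne := (frame K).P_ne_Q f j
    obtain ⟨c, rfl, hc⟩ := repr_edge (hT.card s hs) (hT.nondeg s hs) hne h1 h2
    obtain ⟨d, rfl, hd⟩ := repr_edge (hT.card t ht) (hT.nondeg t ht) hne h3 h4
    have h5 : 0 ≤ cr ((frame K).P f j) ((frame K).Q f j) c :=
      hul_pos hN hf (hT.sub _ hs (by simp))
    have h6 : 0 ≤ cr ((frame K).P f j) ((frame K).Q f j) d :=
      hul_pos hN hf (hT.sub _ ht (by simp))
    exact same_side hT hs ht (mul_pos (lt_of_le_of_ne h5 hc.symm) (lt_of_le_of_ne h6 hd.symm))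
  · have h1 : XX (2 * K + 14) f 0 0 ∈ totP (2 * K + 14) :=
      (mem_totP hN _).2 (Or.inr ⟨f, 0, 0, by omega, rfl⟩)
    exact hT.empty _ hf _ h1 (XX_int hN f 0 0)

/-! ### quadruples which are not in convex position -/

/-- the points of `U` are in convex position -/
def ExtP (U : Finset Pt) : Prop := ∀ x ∈ U, x ∉ convexHull ℝ ((U : Set Pt) \ {x})

theorem not_ext {U : Finset Pt} {x a b c : Pt} (hx : x ∈ U) (ha : a ∈ U) (hb : b ∈ U) (hc : c ∈ U)
    (hax : a ≠ x) (hbx : b ≠ x) (hcx : c ≠ x) (h : x ∈ convexHull ℝ ({a, b, c} : Set Pt)) :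
    ¬ ExtP U := by
  intro hE
  apply hE x hx
  refine convexHull_mono ?_ h
  rintro y (rfl | rfl | rfl)
  · exact ⟨ha, hax⟩
  · exact ⟨hb, hbx⟩
  · exact ⟨hc, hcx⟩

theorem yy_between (P Q c R : Pt) {u : ℕ → ℝ} (hu : GoodU u) (n : ℕ) :
    yy P Q c u (n+1) ∈ convexHull ℝ ({R, yy P Q c u n, yy P Q c u (n+2)} : Set Pt) := by
  rw [mem_hull3]
  have h1 := hu.mono n
  have h2 := hu.mono (n+1)
  have h3 : 0 < u (n+2) - u n := by
    have : n + 1 + 1 = n + 2 := rfl
    rw [this] at h2; linarith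
  refine ⟨0, (u (n+2) - u (n+1)) / (u (n+2) - u n), (u (n+1) - u n) / (u (n+2) - u n), le_rfl,
    ?_, ?_, ?_, ?_⟩
  · apply div_nonneg _ h3.le
    have : n + 1 + 1 = n + 2 := rfl
    rw [this] at h2; linarith
  · apply div_nonneg _ h3.le; linarith
  · field_simp; ring
  · have h4 : u (n+1) = (u (n+2) - u (n+1)) / (u (n+2) - u n) * u n +
        (u (n+1) - u n) / (u (n+2) - u n) * u (n+2) := by
      field_simp; ring
    have h5 : (1:ℝ) = (u (n+2) - u (n+1)) / (u (n+2) - u n) +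
        (u (n+1) - u n) / (u (n+2) - u n) := by
      field_simp; ring
    set s := (u (n+2) - u (n+1)) / (u (n+2) - u n) with hs
    set t := (u (n+1) - u n) / (u (n+2) - u n) with ht
    unfold yy
    have h6 : t = 1 - s := by linarith
    rw [h4, h6]
    module

theorem yy_base (P Q c : Pt) {u : ℕ → ℝ} (hu : GoodU u) (n : ℕ) :
    yy P Q c u (n+1) ∈ convexHull ℝ ({P, Q, yy P Q c u n} : Set Pt) := by
  rw [mem_hull3]
  have h1 := hu.mono n
  have h2 := hu.lt n
  have h3 := hu.lt (n+1)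
  have h4 : 0 < 1 - u n := by linarith
  refine ⟨(u (n+1) - u n) / (1 - u n) / 2, (u (n+1) - u n) / (1 - u n) / 2,
    (1 - u (n+1)) / (1 - u n), ?_, ?_, ?_, ?_, ?_⟩
  · apply div_nonneg (div_nonneg _ h4.le) (by norm_num); linarith
  · apply div_nonneg (div_nonneg _ h4.le) (by norm_num); linarith
  · apply div_nonneg _ h4.le; linarith
  · field_simp; ring
  · set s := (u (n+1) - u n) / (1 - u n) with hs
    have e1 : u (n+1) = (1 - s) * u n + s := by rw [hs]; field_simp; ring
    have e2 : (1 - u (n+1)) / (1 - u n) = 1 - s := by rw [hs]; field_simp; ring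
    rw [e2]
    unfold yy
    rw [e1]
    module

theorem X0_eq {N : ℕ} (hN : 0 < N) (f : Fin 5) (j : Fin 3) :
    XX N f j 0 = (1 / 20 : ℝ) • co f (j+1) + (1 / 20 : ℝ) • co f (j+2) + (9 / 10 : ℝ) • cen f := by
  unfold XX yy
  rw [Nat.sub_zero, uu_N hN]
  norm_num

theorem X02 {N : ℕ} (hN : 0 < N) : XX N 0 2 0 = (-9, -21 / 10) := by
  rw [X0_eq hN]
  show (1 / 20 : ℝ) • toR (0, 0) + (1 / 20 : ℝ) • toR (0, 30) + (9 / 10 : ℝ) • toR (-10, -4) = _
  ext
  · simp [toR] <;> norm_num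
  · simp [toR] <;> norm_num

theorem X11 {N : ℕ} (hN : 0 < N) : XX N 1 1 0 = (9, -21 / 10) := by
  rw [X0_eq hN]
  show (1 / 20 : ℝ) • toR (0, 30) + (1 / 20 : ℝ) • toR (0, 0) + (9 / 10 : ℝ) • toR (10, -4) = _
  ext
  · simp [toR] <;> norm_num
  · simp [toR] <;> norm_num

theorem X20 {N : ℕ} (hN : 0 < N) : XX N 2 0 0 = (-33 / 10, -189 / 20) := by
  rw [X0_eq hN]
  show (1 / 20 : ℝ) • toR (-30, -30) + (1 / 20 : ℝ) • toR (0, -15) + (9 / 10 : ℝ) • toR (-2, -8) = _
  ext
  · simp [toR] <;> norm_num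
  · simp [toR] <;> norm_num

theorem X42 {N : ℕ} (hN : 0 < N) : XX N 4 2 0 = (12, -477 / 20) := by
  rw [X0_eq hN]
  show (1 / 20 : ℝ) • toR (0, -15) + (1 / 20 : ℝ) • toR (-30, -30) + (9 / 10 : ℝ) • toR (15, -24) = _
  ext
  · simp [toR] <;> norm_num
  · simp [toR] <;> norm_num

theorem hub0 : hubs 0 = (0, 30) := by show toR (0, 30) = _; simp [toR]
theorem hub1 : hubs 1 = (-30, -30) := by show toR (-30, -30) = _; simp [toR]
theorem hub3 : hubs 3 = (0, 0) := by show toR (0, 0) = _; simp [toR]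
theorem hub4 : hubs 4 = (0, -15) := by show toR (0, -15) = _; simp [toR]

theorem blocked1 {N : ℕ} (hN : 0 < N) :
    hubs 3 ∈ convexHull ℝ ({hubs 0, XX N 0 2 0, XX N 1 1 0} : Set Pt) := by
  rw [X02 hN, X11 hN, hub0, hub3]
  apply mem_hull_of_cr <;> norm_num [cr]

theorem blocked2 {N : ℕ} (hN : 0 < N) :
    hubs 4 ∈ convexHull ℝ ({hubs 1, XX N 4 2 0, XX N 2 0 0} : Set Pt) := by
  rw [X42 hN, X20 hN, hub1, hub4]
  apply mem_hull_of_cr <;> norm_num [cr]

theorem noFlip (K : ℕ) : NoFlip (frame K) ExtP := by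
  set N := 2 * K + 14 with hNdef
  have hN : 0 < N := by omega
  have hu := uu_good hN
  have XY : ∀ f j i n, N - i = n → (frame K).X f j i =
      yy (co f (j+1)) (co f (j+2)) (cen f) (uu N) n := by
    rintro f j i n rfl; rfl
  have NN : (frame K).N = N := rfl
  refine ⟨fun f j i hi => ?_, fun f j i hi => ?_, fun f j i hi => ?_, fun f j => ?_,
    fun f j => ?_, fun f j h1 h2 => ?_⟩
  · rw [NN] at hi
    refine not_ext (x := (frame K).X f j (i+1)) (a := (frame K).P f j) (b := (frame K).X f j (i+2))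
      (c := (frame K).X f j i) (by simp) (by simp) (by simp) (by simp)
      ((frame K).P_ne_X f j (by rw [NN]; omega)) 
      ((frame K).X_ne f j (by omega) (by rw [NN]; omega)).symm
      ((frame K).X_ne f j (by omega) (by rw [NN]; omega)) ?_
    rw [XY f j (i+1) (N - i - 2 + 1) (by omega), XY f j (i+2) (N - i - 2) (by omega),
      XY f j i (N - i - 2 + 2) (by omega)]
    exact yy_between _ _ _ _ hu _
  · rw [NN] at hi
    refine not_ext (x := (frame K).X f j (i+1)) (a := (frame K).Q f j) (b := (frame K).X f j (i+2))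
      (c := (frame K).X f j i) (by simp) (by simp) (by simp) (by simp)
      ((frame K).Q_ne_X f j (by rw [NN]; omega)) 
      ((frame K).X_ne f j (by omega) (by rw [NN]; omega)).symm
      ((frame K).X_ne f j (by omega) (by rw [NN]; omega)) ?_
    rw [XY f j (i+1) (N - i - 2 + 1) (by omega), XY f j (i+2) (N - i - 2) (by omega),
      XY f j i (N - i - 2 + 2) (by omega)]
    exact yy_between _ _ _ _ hu _
  · rw [NN] at hi
    refine not_ext (x := (frame K).X f j i) (a := (frame K).P f j) (b := (frame K).Q f j)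
      (c := (frame K).X f j (i+1)) (by simp) (by simp) (by simp) (by simp)
      ((frame K).P_ne_X f j (by rw [NN]; omega)) ((frame K).Q_ne_X f j (by rw [NN]; omega)) 
      ((frame K).X_ne f j (by omega) (by rw [NN]; omega)).symm ?_
    rw [XY f j i (N - i - 1 + 1) (by omega), XY f j (i+1) (N - i - 1) (by omega)]
    exact yy_base _ _ _ hu _
  · refine not_ext (x := (frame K).X f j 0) (a := (frame K).P f j) (b := (frame K).Q f j)
      (c := (frame K).X f j 1) (by simp) (by simp) (by simp) (by simp)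
      ((frame K).P_ne_X f j (by rw [NN]; omega)) ((frame K).Q_ne_X f j (by rw [NN]; omega)) 
      ((frame K).X_ne f j (by omega) (by rw [NN]; omega)).symm ?_
    rw [XY f j 0 (N - 1 + 1) (by omega), XY f j 1 (N - 1) (by omega)]
    exact yy_base _ _ _ hu _
  · refine not_ext (x := (frame K).X f j 0) (a := (frame K).P f j) (b := (frame K).Q f j)
      (c := (frame K).X f j 1) (by simp) (by simp) (by simp) (by simp)
      ((frame K).P_ne_X f j (by rw [NN]; omega)) ((frame K).Q_ne_X f j (by rw [NN]; omega)) 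
      ((frame K).X_ne f j (by omega) (by rw [NN]; omega)).symm ?_
    rw [XY f j 0 (N - 1 + 1) (by omega), XY f j 1 (N - 1) (by omega)]
    exact yy_base _ _ _ hu _
  · have b1 : ¬ ExtP ({(frame K).P 0 2, (frame K).Q 0 2, (frame K).X 0 2 0} ∪
        {(frame K).P 1 1, (frame K).Q 1 1, (frame K).X 1 1 0}) := by
      refine not_ext (x := hubs 3) (a := hubs 0) (b := XX N 0 2 0) (c := XX N 1 1 0) ?_ ?_ ?_ ?_
        (hubs_inj.ne (by decide)) (hub_ne_XX hN _ _ _ _).symm (hub_ne_XX hN _ _ _ _).symm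
        (blocked1 hN)
      · rw [Finset.mem_union]; left; rw [Finset.mem_insert]; left; rfl
      · rw [Finset.mem_union]; left; rw [Finset.mem_insert, Finset.mem_insert]; right; left; rfl
      · rw [Finset.mem_union]; left; simp only [Finset.mem_insert, Finset.mem_singleton]
        right; right; rfl
      · rw [Finset.mem_union]; right; simp only [Finset.mem_insert, Finset.mem_singleton]
        right; right; rfl
    have b2 : ¬ ExtP ({(frame K).P 4 2, (frame K).Q 4 2, (frame K).X 4 2 0} ∪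
        {(frame K).P 2 0, (frame K).Q 2 0, (frame K).X 2 0 0}) := by
      refine not_ext (x := hubs 4) (a := hubs 1) (b := XX N 4 2 0) (c := XX N 2 0 0) ?_ ?_ ?_ ?_
        (hubs_inj.ne (by decide)) (hub_ne_XX hN _ _ _ _).symm (hub_ne_XX hN _ _ _ _).symm
        (blocked2 hN)
      · rw [Finset.mem_union]; left; rw [Finset.mem_insert]; left; rfl
      · rw [Finset.mem_union]; left; rw [Finset.mem_insert, Finset.mem_insert]; right; left; rfl
      · rw [Finset.mem_union]; left; simp only [Finset.mem_insert, Finset.mem_singleton]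
        right; right; rfl
      · rw [Finset.mem_union]; right; simp only [Finset.mem_insert, Finset.mem_singleton]
        right; right; rfl
    have hcases : ∀ f j, rig f j = true → hul f j = false →
        (f = 0 ∧ j = 2) ∨ (f = 1 ∧ j = 1) ∨ (f = 2 ∧ j = 0) ∨ (f = 4 ∧ j = 2) := by decide
    rcases hcases f j h1 h2 with ⟨rfl, rfl⟩ | ⟨rfl, rfl⟩ | ⟨rfl, rfl⟩ | ⟨rfl, rfl⟩
    · exact b1
    · show ¬ ExtP ({(frame K).P 1 1, (frame K).Q 1 1, (frame K).X 1 1 0} ∪
        {(frame K).P 0 2, (frame K).Q 0 2, (frame K).X 0 2 0})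
      rw [Finset.union_comm]; exact b1
    · show ¬ ExtP ({(frame K).P 2 0, (frame K).Q 2 0, (frame K).X 2 0 0} ∪
        {(frame K).P 4 2, (frame K).Q 4 2, (frame K).X 4 2 0})
      rw [Finset.union_comm]; exact b2
    · exact b2

/-! ### simultaneous flips -/

theorem coe4 (a b c d : Pt) : ((({a, b, c, d} : Finset Pt)) : Set Pt) = {a, b, c, d} := by
  simp

theorem cstep_of {T T' : Finset (Finset Pt)} (h : SimFlip T T') :
    ∃ F : Set (Pt × Pt × Pt × Pt), CStep ExtP F (T : Set (Finset Pt)) (T' : Set (Finset Pt)) := by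
  obtain ⟨F, hF, -, rfl⟩ := h
  refine ⟨{q | ∃ r ∈ F, q = (r.a, r.b, r.c, r.d)}, ?_, ?_, ?_, ?_, ?_, ?_, ?_, ?_⟩
  · rintro a b c d ⟨r, hr, he⟩
    obtain ⟨rfl, rfl, rfl, rfl⟩ : a = r.a ∧ b = r.b ∧ c = r.c ∧ d = r.d := by simpa using he
    exact (hF r hr).1
  · rintro a b c d ⟨r, hr, he⟩
    obtain ⟨rfl, rfl, rfl, rfl⟩ : a = r.a ∧ b = r.b ∧ c = r.c ∧ d = r.d := by simpa using he
    exact (hF r hr).2.1
  · rintro a b c d ⟨r, hr, he⟩
    obtain ⟨rfl, rfl, rfl, rfl⟩ : a = r.a ∧ b = r.b ∧ c = r.c ∧ d = r.d := by simpa using he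
    exact (hF r hr).2.2.1
  · rintro a b c d ⟨r, hr, he⟩
    obtain ⟨rfl, rfl, rfl, rfl⟩ : a = r.a ∧ b = r.b ∧ c = r.c ∧ d = r.d := by simpa using he
    rw [Finset.mem_coe, Finset.mem_union, Finset.mem_biUnion]
    right
    exact ⟨r, hr, by simp [FlipData.new]⟩
  · rintro a b c d ⟨r, hr, he⟩
    obtain ⟨rfl, rfl, rfl, rfl⟩ : a = r.a ∧ b = r.b ∧ c = r.c ∧ d = r.d := by simpa using he
    rw [Finset.mem_coe, Finset.mem_union, Finset.mem_biUnion]
    right
    exact ⟨r, hr, by simp [FlipData.new]⟩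
  · rintro a b c d ⟨r, hr, he⟩
    obtain ⟨rfl, rfl, rfl, rfl⟩ : a = r.a ∧ b = r.b ∧ c = r.c ∧ d = r.d := by simpa using he
    intro x hx
    rw [coe4]
    exact (hF r hr).2.2.2.2 x (by rw [← coe4]; exact hx)
  · intro τ hτ
    rw [Finset.mem_coe, Finset.mem_union, Finset.mem_sdiff, Finset.mem_biUnion,
      Finset.mem_biUnion] at hτ
    rcases hτ with hτ | ⟨r, hr, hτ⟩
    · exact Or.inl hτ.1
    · right
      refine ⟨r.a, r.b, r.c, r.d, ⟨r, hr, rfl⟩, ?_⟩
      simpa [FlipData.new] using hτ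
  · intro τ hτ
    by_cases h : τ ∈ F.biUnion FlipData.old
    · right
      rw [Finset.mem_biUnion] at h
      obtain ⟨r, hr, h⟩ := h
      refine ⟨r.a, r.b, r.c, r.d, ⟨r, hr, rfl⟩, ?_⟩
      simp only [FlipData.old, Finset.mem_insert, Finset.mem_singleton] at h
      rcases h with rfl | rfl <;> simp
    · left
      rw [Finset.mem_coe, Finset.mem_union, Finset.mem_sdiff]
      exact Or.inl ⟨hτ, h⟩

theorem inv_of_reach {K : ℕ} {k : ℕ} {T : Finset (Finset Pt)}
    (h : Reach (totP (2 * K + 14)) k (totT (2 * K + 14)) T) (hk : k < K) :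
    IsTriangulation (totP (2 * K + 14)) T ∧ RInv (frame K) k (T : Set (Finset Pt)) ∧
      SInv (frame K) k (T : Set (Finset Pt)) ∧ CInv (frame K) (T : Set (Finset Pt)) := by
  generalize hS : totT (2 * K + 14) = S at h
  induction h with
  | refl T hT =>
    subst hS
    rw [totT_eq]
    exact ⟨hT, RInv.start _, SInv.start _, CInv.start _⟩
  | step k T T' T'' h1 h2 h3 ih =>
    obtain ⟨i1, i2, i3, i4⟩ := ih (by omega) hS
    obtain ⟨F, hF⟩ := cstep_of h2
    have hG := good_of i1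
    have hG' := good_of h3
    have NN : (frame K).N = 2 * K + 14 := rfl
    have KK : (frame K).K = K := rfl
    refine ⟨h3, RInv.step hG (noFlip K) i2 hF (by rw [NN]; omega),
      SInv.step hG (noFlip K) i2 i3 hF (by rw [NN]; omega),
      CInv.step hG hG' (noFlip K) i2 i3 i4 hF (by rw [KK]; omega)⟩

/-! ### Hamiltonian cycles -/

theorem twoReg_of_ham {P : Finset Pt} {T : Finset (Finset Pt)} (hP : P.card ≠ 1)
    (h : (graph P T).IsHamiltonian) : ∃ nb : Pt → Finset Pt, TwoReg P nb ∧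
      ∀ u, ∀ w ∈ nb u, u ≠ w ∧ ∃ τ ∈ (T : Set (Finset Pt)), u ∈ τ ∧ w ∈ τ := by
  classical
  obtain ⟨a, p, hp⟩ := h (by rwa [Fintype.card_coe])
  let H := p.toSubgraph
  let nb : Pt → Finset Pt := fun x =>
    if hx : x ∈ P then (Finset.univ.filter fun w => H.Adj ⟨x, hx⟩ w).image Subtype.val else ∅
  have mem : ∀ u w, w ∈ nb u ↔ ∃ (hu : u ∈ P) (hw : w ∈ P), H.Adj ⟨u, hu⟩ ⟨w, hw⟩ := by
    intro u w
    by_cases hu : u ∈ P
    · simp only [nb, dif_pos hu, Finset.mem_image, Finset.mem_filter, Finset.mem_univ, true_and]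
      constructor
      · rintro ⟨⟨w, hw⟩, h1, rfl⟩
        exact ⟨hu, hw, h1⟩
      · rintro ⟨hu', hw, h1⟩
        exact ⟨⟨w, hw⟩, h1, rfl⟩
    · simp only [nb, dif_neg hu, Finset.notMem_empty, false_iff]
      rintro ⟨hu', -⟩
      exact hu hu'
  refine ⟨nb, ⟨?_, ?_, ?_⟩, ?_⟩
  · intro u v h1
    rw [mem] at h1 ⊢
    obtain ⟨hu, hv, h2⟩ := h1
    exact ⟨hv, hu, h2.symm⟩
  · intro u h1
    rw [mem] at h1
    obtain ⟨hu, hv, h2⟩ := h1
    exact (graph P T).irrefl h2.adj_sub
  · intro u hu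
    have h1 := hp.isCycle.ncard_neighborSet_toSubgraph_eq_two (hp.mem_support ⟨u, hu⟩)
    have h2 : (nb u).card = (Finset.univ.filter fun w => H.Adj ⟨u, hu⟩ w).card := by
      simp only [nb, dif_pos hu]
      exact Finset.card_image_of_injective _ Subtype.val_injective
    rw [h2, ← h1, ← Set.ncard_coe_finset]
    congr 1
    ext w
    simp [H, SimpleGraph.Subgraph.mem_neighborSet]
  · intro u w h1
    rw [mem] at h1
    obtain ⟨hu, hv, h2⟩ := h1
    have h3 := h2.adj_sub
    obtain ⟨h4, t, ht, h5, h6⟩ := h3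
    refine ⟨?_, t, ht, h5, h6⟩
    intro he
    apply h4
    exact Subtype.ext he

/-! ### the number of points -/

theorem totP_eq {N : ℕ} (hN : 0 < N) : totP N = Finset.univ.image hubs ∪
    (Finset.univ.image cen ∪
      ((Finset.univ : Finset (Fin 5)) ×ˢ (Finset.univ : Finset (Fin 3)) ×ˢ Finset.range N).image
        fun q => XX N q.1 q.2.1 q.2.2) := by
  ext x
  rw [mem_totP hN]
  simp only [Finset.mem_union, Finset.mem_image, Finset.mem_univ, true_and, Finset.mem_product,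
    Finset.mem_range]
  have hXN : ∀ f j, XX N f j N = cen f := by
    intro f j
    simp [XX, yy, (uu_good hN).zero]
  constructor
  · rintro (⟨h, rfl⟩ | ⟨f, j, i, hi, rfl⟩)
    · exact Or.inl ⟨h, rfl⟩
    · rcases Nat.lt_or_ge i N with h | h
      · exact Or.inr (Or.inr ⟨(f, j, i), h, rfl⟩)
      · obtain rfl : i = N := by omega
        exact Or.inr (Or.inl ⟨f, (hXN f j).symm⟩)
  · rintro (⟨h, rfl⟩ | ⟨f, rfl⟩ | ⟨⟨f, j, i⟩, hi, rfl⟩)
    · exact Or.inl ⟨h, rfl⟩
    · exact Or.inr ⟨f, 0, N, le_rfl, (hXN f 0).symm⟩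
    · exact Or.inr ⟨f, j, i, hi.le, rfl⟩

theorem totP_card {N : ℕ} (hN : 0 < N) : (totP N).card = 15 * N + 10 := by
  have hXN : ∀ f j, XX N f j N = cen f := by
    intro f j
    simp [XX, yy, (uu_good hN).zero]
  rw [totP_eq hN, Finset.card_union_of_disjoint, Finset.card_union_of_disjoint,
    Finset.card_image_of_injective _ hubs_inj, Finset.card_image_of_injective,
    Finset.card_image_of_injOn]
  · simp only [Finset.card_univ, Fintype.card_fin, Finset.card_product, Finset.card_range]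
    ring
  · rintro ⟨f, j, i⟩ h ⟨f', j', i'⟩ h' he
    simp only [Finset.coe_product, Finset.coe_univ, Finset.coe_range, Set.mem_prod, Set.mem_univ,
      Set.mem_Iio, true_and] at h h'
    obtain ⟨rfl, ⟨rfl, rfl⟩ | h1⟩ := XX_inj hN h.le h'.le he
    · rfl
    · omega
  · intro f f' he
    rw [← hXN f 0, ← hXN f' 0] at he
    exact XX_face hN he
  · rw [Finset.disjoint_left]
    intro x hx hx'
    rw [Finset.mem_image] at hx hx'
    obtain ⟨f, -, rfl⟩ := hx
    obtain ⟨⟨f', j', i'⟩, h, he⟩ := hx'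
    simp only [Finset.mem_product, Finset.mem_univ, Finset.mem_range, true_and] at h
    rw [← hXN f 0] at he
    obtain ⟨-, ⟨-, h1⟩ | h1⟩ := XX_inj hN h.le le_rfl he
    · omega
    · omega
  · rw [Finset.disjoint_left]
    intro x hx hx'
    rw [Finset.mem_image] at hx
    obtain ⟨h, -, rfl⟩ := hx
    rw [Finset.mem_union, Finset.mem_image, Finset.mem_image] at hx'
    rcases hx' with ⟨f, -, he⟩ | ⟨⟨f', j', i'⟩, h, he⟩
    · rw [← hXN f 0] at he
      exact hub_ne_XX hN _ _ _ _ he.symm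
    · exact hub_ne_XX hN _ _ _ _ he.symm

theorem lower_bound (K : ℕ) {k : ℕ} {T : Finset (Finset Pt)}
    (h : Reach (totP (2 * K + 14)) k (totT (2 * K + 14)) T) (hk : k < K) :
    ¬ (graph (totP (2 * K + 14)) T).IsHamiltonian := by
  intro hH
  have hN : 0 < 2 * K + 14 := by omega
  obtain ⟨-, -, hS, hC⟩ := inv_of_reach h hk
  obtain ⟨nb, h1, h2⟩ := twoReg_of_ham (by rw [totP_card hN]; omega) hH
  exact no_twoReg h1 hk hS hC h2
    (fun f j i hi => (mem_totP hN _).2 (Or.inr ⟨f, j, i, hi, rfl⟩))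
    (fun h => (mem_totP hN _).2 (Or.inl ⟨h, rfl⟩))

end MP91a79a

end
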