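import Pool.Agent.Lib.MP_91a79a_co.GPDefs

/-!
Sequences of simultaneous flips; parallel composition in disjoint convex regions
(MP_91a79a_co).
-/

noncomputable section

namespace MP91a79a

open Set

/-! ### elementary facts on `Reach` -/

theorem SimFlip.refl (T : Finset (Finset Pt)) : SimFlip T T :=
  ⟨∅, by simp, by simp, by simp⟩

theorem Reach.tri_left {P : Finset Pt} {k : ℕ} {T T' : Finset (Finset Pt)}
    (h : Reach P k T T') : IsTriangulation P T := by
  induction h with
  | refl T hT => exact hT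
  | step k T T' T'' _ _ _ ih => exact ih

theorem Reach.tri_right {P : Finset Pt} {k : ℕ} {T T' : Finset (Finset Pt)}
    (h : Reach P k T T') : IsTriangulation P T' := by
  cases h with
  | refl T hT => exact hT
  | step k T T' T'' _ _ h => exact h

theorem Reach.mono {P : Finset Pt} {k k' : ℕ} {T T' : Finset (Finset Pt)}
    (h : Reach P k T T') (hk : k ≤ k') : Reach P k' T T' := by
  induction hk with
  | refl => exact h
  | step _ ih => exact Reach.step _ _ _ _ ih (SimFlip.refl _) ih.tri_right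

theorem Reach.trans {P : Finset Pt} {k k' : ℕ} {T T' T'' : Finset (Finset Pt)}
    (h : Reach P k T T') (h' : Reach P k' T' T'') : Reach P (k + k') T T'' := by
  induction h' with
  | refl => exact h
  | step k' T1 T2 T3 _ h2 h3 ih => exact Reach.step _ _ _ _ (ih h) h2 h3

theorem Reach.one {P : Finset Pt} {T T' : Finset (Finset Pt)} (hT : IsTriangulation P T)
    (hT' : IsTriangulation P T') (h : SimFlip T T') : Reach P 1 T T' :=
  Reach.step 0 T T T' (Reach.refl T hT) h hT'

theorem Reach.zero_eq {P : Finset Pt} {T T' : Finset (Finset Pt)} (h : Reach P 0 T T') :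
    T = T' := by
  cases h with
  | refl => rfl

/-- a sequence of simultaneous flips as a function -/
theorem Reach.seq {P : Finset Pt} {k : ℕ} {T T' : Finset (Finset Pt)} (h : Reach P k T T') :
    ∃ f : ℕ → Finset (Finset Pt), f 0 = T ∧ f k = T' ∧
      (∀ j < k, SimFlip (f j) (f (j + 1))) ∧ ∀ j ≤ k, IsTriangulation P (f j) := by
  induction h with
  | refl T hT => exact ⟨fun _ => T, rfl, rfl, by simp, fun _ _ => hT⟩
  | step k T T' T'' h1 h2 h3 ih =>
    obtain ⟨f, f0, fk, hf, hf'⟩ := ih
    refine ⟨fun j => if j ≤ k then f j else T'', ?_, ?_, ?_, ?_⟩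
    · simp [f0]
    · simp
    · intro j hj
      by_cases hjk : j < k
      · have e1 : j ≤ k := hjk.le
        have e2 : j + 1 ≤ k := hjk
        simp only [e1, e2, if_true]
        exact hf j hjk
      · have e1 : j = k := by omega
        subst e1
        have e2 : ¬ (j + 1 ≤ j) := by omega
        simp only [le_refl, if_true, e2, if_false]
        rw [fk]; exact h2
    · intro j hj
      by_cases hjk : j ≤ k
      · simp only [hjk, if_true]; exact hf' j hjk
      · simp only [hjk, if_false]; exact h3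

theorem Reach.of_seq {P : Finset Pt} (k : ℕ) (f : ℕ → Finset (Finset Pt))
    (hf : ∀ j < k, SimFlip (f j) (f (j + 1))) (hf' : ∀ j ≤ k, IsTriangulation P (f j)) :
    Reach P k (f 0) (f k) := by
  induction k with
  | zero => exact Reach.refl _ (hf' 0 le_rfl)
  | succ k ih =>
    exact Reach.step _ _ _ _ (ih (fun j hj => hf j (by omega)) (fun j hj => hf' j (by omega)))
      (hf k (by omega)) (hf' (k + 1) le_rfl)

/-! ### replacing the triangulations of disjoint convex regions -/

section par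

variable {ι : Type*} [DecidableEq ι] {P : Finset Pt} {T : Finset (Finset Pt)} {I : Finset ι}
  {Q : ι → Finset Pt} {S S' : ι → Finset (Finset Pt)}

/-- a triangle of `T` which is not a triangle of `S i` is disjoint from the region -/
theorem par_disj {Q : Finset Pt} {S : Finset (Finset Pt)} (hT : IsTriangulation P T)
    (hS : S ⊆ T) (hSQ : IsTriangulation Q S) {s : Finset Pt} (hs : s ∈ T) (hsS : s ∉ S) :
    Disjoint (convexHull ℝ (Q : Set Pt)) (interior (convexHull ℝ (s : Set Pt))) := by
  rw [Set.disjoint_left]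
  intro z hz hz'
  obtain ⟨r, hr, hzr⟩ := tri_mem_cover hSQ hz
  have hne : r ≠ s := fun h => hsS (h ▸ hr)
  exact Set.disjoint_left.1 (tri_disj_of_int hT (hS hr) isOpen_interior
    (hT.disj r (hS hr) s hs hne)) hzr hz'

theorem par_tri (hT : IsTriangulation P T)
    (hQP : ∀ i ∈ I, ∀ p ∈ P, p ∈ convexHull ℝ (Q i : Set Pt) → p ∈ Q i)
    (hQ : ∀ i ∈ I, Q i ⊆ P) (hS : ∀ i ∈ I, S i ⊆ T)
    (hd : ∀ i ∈ I, ∀ j ∈ I, i ≠ j → Disjoint (interior (convexHull ℝ (Q i : Set Pt)))
      (interior (convexHull ℝ (Q j : Set Pt))))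
    (hSQ : ∀ i ∈ I, IsTriangulation (Q i) (S i))
    (hS' : ∀ i ∈ I, IsTriangulation (Q i) (S' i)) :
    IsTriangulation P ((T \ I.biUnion S) ∪ I.biUnion S') := by
  have hm : ∀ s ∈ (T \ I.biUnion S) ∪ I.biUnion S', (s ∈ T ∧ ∀ i ∈ I, s ∉ S i) ∨
      ∃ i ∈ I, s ∈ S' i := by
    intro s hs
    rw [Finset.mem_union, Finset.mem_sdiff, Finset.mem_biUnion, Finset.mem_biUnion] at hs
    rcases hs with ⟨h1, h2⟩ | ⟨i, hi, h⟩
    · left
      refine ⟨h1, fun i hi h3 => h2 ⟨i, hi, h3⟩⟩
    · exact Or.inr ⟨i, hi, h⟩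
  refine ⟨?_, ?_, ?_, ?_, ?_, ?_⟩
  · intro s hs
    rcases hm s hs with ⟨h, -⟩ | ⟨i, hi, h⟩
    · exact hT.sub s h
    · exact ((hS' i hi).sub s h).trans (hQ i hi)
  · intro s hs
    rcases hm s hs with ⟨h, -⟩ | ⟨i, hi, h⟩
    · exact hT.card s h
    · exact (hS' i hi).card s h
  · intro s hs
    rcases hm s hs with ⟨h, -⟩ | ⟨i, hi, h⟩
    · exact hT.nondeg s h
    · exact (hS' i hi).nondeg s h
  · intro s hs t ht hst
    rcases hm s hs with ⟨h, h0⟩ | ⟨i, hi, h⟩ <;> rcases hm t ht with ⟨h', h0'⟩ | ⟨j, hj, h'⟩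
    · exact hT.disj s h t h' hst
    · have h1 := par_disj hT (hS j hj) (hSQ j hj) h (h0 j hj)
      exact (h1.mono_left (interior_subset.trans (tri_hull_sub (hS' j hj) h'))).symm
    · have h1 := par_disj hT (hS i hi) (hSQ i hi) h' (h0' i hi)
      exact (h1.mono_left (interior_subset.trans (tri_hull_sub (hS' i hi) h)))
    · by_cases hij : i = j
      · subst hij
        exact (hS' i hi).disj s h t h' hst
      · exact (hd i hi j hj hij).mono (interior_mono (tri_hull_sub (hS' i hi) h))
          (interior_mono (tri_hull_sub (hS' j hj) h'))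
  · apply Subset.antisymm
    · intro z hz
      simp only [Set.mem_iUnion, exists_prop] at hz
      obtain ⟨s, hs, hz⟩ := hz
      rcases hm s hs with ⟨h, -⟩ | ⟨i, hi, h⟩
      · exact tri_hull_sub hT h hz
      · exact convexHull_mono (Finset.coe_subset.2 (hQ i hi)) (tri_hull_sub (hS' i hi) h hz)
    · intro z hz
      obtain ⟨t, ht, hzt⟩ := tri_mem_cover hT hz
      simp only [Set.mem_iUnion, exists_prop]
      by_cases h : t ∈ I.biUnion S
      · rw [Finset.mem_biUnion] at h
        obtain ⟨i, hi, h⟩ := h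
        have h1 := tri_hull_sub (hSQ i hi) h hzt
        obtain ⟨s, hs, hzs⟩ := tri_mem_cover (hS' i hi) h1
        exact ⟨s, Finset.mem_union_right _ (Finset.mem_biUnion.2 ⟨i, hi, hs⟩), hzs⟩
      · exact ⟨t, Finset.mem_union_left _ (Finset.mem_sdiff.2 ⟨ht, h⟩), hzt⟩
  · intro s hs p hp
    rcases hm s hs with ⟨h, -⟩ | ⟨i, hi, h⟩
    · exact hT.empty s h p hp
    · intro h1
      have h2 := hQP i hi p hp (tri_hull_sub (hS' i hi) h (interior_subset h1))
      exact (hS' i hi).empty s h p h2 h1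

/-- two triangulations of regions with disjoint interiors have no common triangle -/
theorem par_no_common {Q Q' : Finset Pt} {S S' : Finset (Finset Pt)}
    (hd : Disjoint (interior (convexHull ℝ (Q : Set Pt))) (interior (convexHull ℝ (Q' : Set Pt))))
    (h : IsTriangulation Q S) (h' : IsTriangulation Q' S') {s : Finset Pt} (hs : s ∈ S) :
    s ∉ S' := by
  intro hs'
  obtain ⟨z, hz⟩ := tri_int_nonempty h hs
  exact Set.disjoint_left.1 hd (interior_mono (tri_hull_sub h hs) hz)
    (interior_mono (tri_hull_sub h' hs') hz)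

theorem FlipData.old_sub {q : FlipData} {T : Finset (Finset Pt)} (h : q.Flippable T) :
    q.old ⊆ T := by
  intro t ht
  simp only [FlipData.old, Finset.mem_insert, Finset.mem_singleton] at ht
  rcases ht with rfl | rfl
  · exact h.2.1
  · exact h.2.2.1

theorem FlipData.Flippable.mono {q : FlipData} {T T' : Finset (Finset Pt)} (h : q.Flippable T)
    (hT : T ⊆ T') : q.Flippable T' := ⟨h.1, hT h.2.1, hT h.2.2.1, h.2.2.2⟩

theorem FlipData.old_ne {q : FlipData} {P : Finset Pt} {T : Finset (Finset Pt)}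
    (hT : IsTriangulation P T) (h : q.Flippable T) :
    ({q.a, q.b, q.c} : Finset Pt) ≠ {q.a, q.b, q.d} ∧ q.a ≠ q.b := by
  have h1 := hT.card _ h.2.1
  have h2 := hT.card _ h.2.2.1
  have c3 : ∀ {a b c : Pt}, ({a, b, c} : Finset Pt).card = 3 → a ≠ b ∧ a ≠ c ∧ b ≠ c := by
    intro a b c hc
    refine ⟨?_, ?_, ?_⟩
    · rintro rfl
      have : ({a, a, c} : Finset Pt) = {a, c} := by ext; simp
      rw [this] at hc
      have := Finset.card_le_two (a := a) (b := c)
      omega
    · rintro rfl
      have : ({a, b, a} : Finset Pt) = {a, b} := by ext; simp; tauto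
      rw [this] at hc
      have := Finset.card_le_two (a := a) (b := b)
      omega
    · rintro rfl
      have : ({a, b, b} : Finset Pt) = {a, b} := by ext; simp
      rw [this] at hc
      have := Finset.card_le_two (a := a) (b := b)
      omega
  obtain ⟨n1, n2, n3⟩ := c3 h1
  refine ⟨fun he => ?_, n1⟩
  have : q.c ∈ ({q.a, q.b, q.d} : Finset Pt) := by rw [← he]; simp
  simp only [Finset.mem_insert, Finset.mem_singleton] at this
  rcases this with h3 | h3 | h3
  · exact n2 h3.symm
  · exact n3 h3.symm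
  · exact h.1 h3

/-- parallel simultaneous flips are a simultaneous flip -/
theorem par_simFlip {R : Finset (Finset Pt)}
    (hT : IsTriangulation P (R ∪ I.biUnion S))
    (hR : ∀ i ∈ I, Disjoint R (S i)) (hd : ∀ i ∈ I, ∀ j ∈ I, i ≠ j → Disjoint (S i) (S j))
    (hF : ∀ i ∈ I, SimFlip (S i) (S' i)) :
    SimFlip (R ∪ I.biUnion S) (R ∪ I.biUnion S') := by
  classical
  choose! F hF1 hF2 hF3 using hF
  have hsub : ∀ i ∈ I, S i ⊆ R ∪ I.biUnion S := fun i hi =>
    (Finset.subset_biUnion_of_mem S hi).trans Finset.subset_union_right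
  have hold : ∀ i ∈ I, (F i).biUnion FlipData.old ⊆ S i := by
    intro i hi
    rw [Finset.biUnion_subset]
    exact fun q hq => FlipData.old_sub (hF1 i hi q hq)
  refine ⟨I.biUnion F, ?_, ?_, ?_⟩
  · intro q hq
    rw [Finset.mem_biUnion] at hq
    obtain ⟨i, hi, hq⟩ := hq
    exact (hF1 i hi q hq).mono (hsub i hi)
  · intro q hq q' hq' hqq t ht hcon
    rw [Finset.mem_biUnion] at hq hq'
    obtain ⟨i, hi, hq⟩ := hq
    obtain ⟨j, hj, hq'⟩ := hq'
    have key : ∀ i ∈ I, ∀ q ∈ F i, q.a ∈ t → q.b ∈ t → t ∈ S i := by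
      intro i hi q hq ha hb
      have h1 := hF1 i hi q hq
      have h2 := h1.mono (hsub i hi)
      obtain ⟨h3, h4⟩ := FlipData.old_ne hT h2
      rcases tri_edge_two hT q.a q.b h4 _ h2.2.1 _ h2.2.2.1 t ht (by simp) (by simp) (by simp)
        (by simp) ha hb with h5 | h5 | h5
      · exact absurd h5 h3
      · rw [← h5]; exact h1.2.1
      · rw [← h5]; exact h1.2.2.1
    have h1 := key i hi q hq hcon.1 hcon.2.1
    have h2 := key j hj q' hq' hcon.2.2.1 hcon.2.2.2
    by_cases hij : i = j
    · subst hij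
      exact hF2 i hi q hq q' hq' hqq t h1 hcon
    · exact Finset.disjoint_left.1 (hd i hi j hj hij) h1 h2
  · ext t
    have e1 : ∀ i ∈ I, (t ∈ S' i ↔ (t ∈ S i ∧ t ∉ (F i).biUnion FlipData.old) ∨
        t ∈ (F i).biUnion FlipData.new) := by
      intro i hi
      rw [hF3 i hi, Finset.mem_union, Finset.mem_sdiff]
    constructor
    · intro ht
      rw [Finset.mem_union, Finset.mem_biUnion] at ht
      rw [Finset.mem_union, Finset.mem_sdiff, Finset.mem_union]
      rcases ht with ht | ⟨i, hi, ht⟩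
      · left
        refine ⟨Or.inl ht, fun hcon => ?_⟩
        rw [Finset.mem_biUnion] at hcon
        obtain ⟨q, hq, hqt⟩ := hcon
        rw [Finset.mem_biUnion] at hq
        obtain ⟨i, hi, hq⟩ := hq
        exact Finset.disjoint_left.1 (hR i hi) ht
          (hold i hi (Finset.mem_biUnion.2 ⟨q, hq, hqt⟩))
      · rcases (e1 i hi).1 ht with ⟨h1, h2⟩ | h1
        · left
          refine ⟨Or.inr (Finset.mem_biUnion.2 ⟨i, hi, h1⟩), fun hcon => ?_⟩
          rw [Finset.mem_biUnion] at hcon
          obtain ⟨q, hq, hqt⟩ := hcon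
          rw [Finset.mem_biUnion] at hq
          obtain ⟨j, hj, hq⟩ := hq
          by_cases hij : i = j
          · subst hij
            exact h2 (Finset.mem_biUnion.2 ⟨q, hq, hqt⟩)
          · exact Finset.disjoint_left.1 (hd i hi j hj hij) h1
              (hold j hj (Finset.mem_biUnion.2 ⟨q, hq, hqt⟩))
        · right
          rw [Finset.mem_biUnion] at h1
          obtain ⟨q, hq, hqt⟩ := h1
          exact Finset.mem_biUnion.2 ⟨q, Finset.mem_biUnion.2 ⟨i, hi, hq⟩, hqt⟩
    · intro ht
      rw [Finset.mem_union, Finset.mem_sdiff, Finset.mem_union] at ht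
      rw [Finset.mem_union, Finset.mem_biUnion]
      rcases ht with ⟨h1 | h1, h2⟩ | h1
      · exact Or.inl h1
      · rw [Finset.mem_biUnion] at h1
        obtain ⟨i, hi, h1⟩ := h1
        right
        refine ⟨i, hi, (e1 i hi).2 (Or.inl ⟨h1, fun hcon => h2 ?_⟩)⟩
        rw [Finset.mem_biUnion] at hcon ⊢
        obtain ⟨q, hq, hqt⟩ := hcon
        exact ⟨q, Finset.mem_biUnion.2 ⟨i, hi, hq⟩, hqt⟩
      · rw [Finset.mem_biUnion] at h1
        obtain ⟨q, hq, hqt⟩ := h1
        rw [Finset.mem_biUnion] at hq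
        obtain ⟨i, hi, hq⟩ := hq
        right
        exact ⟨i, hi, (e1 i hi).2 (Or.inr (Finset.mem_biUnion.2 ⟨q, hq, hqt⟩))⟩

/-- parallel composition of sequences of simultaneous flips in convex regions with disjoint
interiors -/
theorem Reach.parallel (I : Finset ι) (hT : IsTriangulation P T) (Q : ι → Finset Pt)
    (S S' : ι → Finset (Finset Pt)) (k : ℕ) (hQ : ∀ i ∈ I, Q i ⊆ P)
    (hQP : ∀ i ∈ I, ∀ p ∈ P, p ∈ convexHull ℝ (Q i : Set Pt) → p ∈ Q i)
    (hS : ∀ i ∈ I, S i ⊆ T)
    (hd : ∀ i ∈ I, ∀ j ∈ I, i ≠ j → Disjoint (interior (convexHull ℝ (Q i : Set Pt)))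
      (interior (convexHull ℝ (Q j : Set Pt))))
    (hR : ∀ i ∈ I, Reach (Q i) k (S i) (S' i)) :
    Reach P k T ((T \ I.biUnion S) ∪ I.biUnion S') := by
  classical
  have hseq : ∀ i, ∃ f : ℕ → Finset (Finset Pt), i ∈ I → (f 0 = S i ∧ f k = S' i ∧
      (∀ j < k, SimFlip (f j) (f (j + 1))) ∧ ∀ j ≤ k, IsTriangulation (Q i) (f j)) := by
    intro i
    by_cases hi : i ∈ I
    · obtain ⟨f, hf⟩ := (hR i hi).seq
      exact ⟨f, fun _ => hf⟩
    · exact ⟨fun _ => ∅, fun h => absurd h hi⟩
  choose f hf using hseq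
  have htri : ∀ j ≤ k, IsTriangulation P ((T \ I.biUnion S) ∪ I.biUnion fun i => f i j) := by
    intro j hj
    exact par_tri hT hQP hQ hS hd (fun i hi => (hR i hi).tri_left)
      (fun i hi => (hf i hi).2.2.2 j hj)
  have h := Reach.of_seq (P := P) k (fun j => (T \ I.biUnion S) ∪ I.biUnion fun i => f i j)
    (by
      intro j hj
      refine par_simFlip (htri j hj.le) ?_ ?_ ?_
      · intro i hi
        rw [Finset.disjoint_left]
        intro t ht ht'
        rw [Finset.mem_sdiff, Finset.mem_biUnion] at ht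
        have h1 := par_disj hT (hS i hi) (hR i hi).tri_left ht.1 (fun h => ht.2 ⟨i, hi, h⟩)
        have h2 := (hf i hi).2.2.2 j hj.le
        obtain ⟨z, hz⟩ := tri_int_nonempty h2 ht'
        exact Set.disjoint_left.1 h1 (tri_hull_sub h2 ht' (interior_subset hz)) hz
      · intro i hi i' hi' hii
        rw [Finset.disjoint_left]
        intro t ht
        exact par_no_common (hd i hi i' hi' hii) ((hf i hi).2.2.2 j hj.le)
          ((hf i' hi').2.2.2 j hj.le) ht
      · intro i hi
        exact (hf i hi).2.2.1 j hj)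
    htri
  have e0 : ((T \ I.biUnion S) ∪ I.biUnion fun i => f i 0) = T := by
    have : (I.biUnion fun i => f i 0) = I.biUnion S :=
      Finset.biUnion_congr rfl fun i hi => (hf i hi).1
    rw [this, Finset.sdiff_union_of_subset]
    rw [Finset.biUnion_subset]
    exact hS
  have ek : (I.biUnion fun i => f i k) = I.biUnion S' :=
    Finset.biUnion_congr rfl fun i hi => (hf i hi).2.1
  simp only [e0, ek] at h
  exact h

end par

end MP91a79a

end
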