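import Pool.Agent.Lib.MP_91a79a_co.Remove

/-!
Removal phase of the coarsening (MP_91a79a_co): part 4.
-/

noncomputable section

namespace MP91a79a

open Set Classical

variable {B P : Finset Pt} {C T : Finset (Finset Pt)} {F : ℕ}

theorem mem_pin {P t : Finset Pt} {x : Pt} :
    x ∈ pin P t ↔ x ∈ P ∧ x ∈ convexHull ℝ (t : Set Pt) := Finset.mem_filter

theorem mem_capf {P : Finset Pt} {u w x : Pt} : x ∈ capf P u w ↔ x ∈ P ∧ cr u w x < 0 :=
  Finset.mem_filter

theorem mem_Zs {P B : Finset Pt} {C : Finset (Finset Pt)} {v x : Pt} : x ∈ Zs P B C v ↔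
    x ∈ P ∧ ((∃ t ∈ C, v ∈ t ∧ x ∈ convexHull ℝ (t : Set Pt)) ∨
      ∃ u w, HE B u w ∧ (u = v ∨ w = v) ∧ cr u w x < 0) := Finset.mem_filter

/-- what is needed from the removal of `v` -/
structure Rmv (P B : Finset Pt) (C C' T : Finset (Finset Pt)) (F : ℕ) (v : Pt) : Prop where
  cs : CS P (B.erase v) C' T F
  keep : ∀ t ∈ C, v ∉ t → t ∈ C'
  new : ∀ t ∈ C', (t ∈ C ∧ v ∉ t) ∨ ∀ x ∈ t, Side C v x
  he : ∀ u w, HE (B.erase v) u w → HE B u w ∨ (Side C v u ∧ Side C v w)

theorem side_of_mem {v x : Pt} {t : Finset Pt} (ht : t ∈ C) (hv : v ∈ t) (hx : x ∈ t)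
    (hne : v ≠ x) : Side C v x := ⟨hne, t, ht, hv, hx⟩

theorem CS.rem3 (hG : GP P) (h : CS P B C T F) {v : Pt} (h3 : Rem3 C v)
    (hz : (Zs P B C v).card ≤ F) (h4 : 4 ≤ B.card) : ∃ C', Rmv P B C C' T F v := by
  obtain ⟨a, b, c, h1, h2, h3, t1, t2, t3⟩ := h3
  have hB := hG.mono h.sub
  have hC := h.tri
  obtain ⟨m4, m5, m1⟩ := ne_of_cr h1.ne'
  obtain ⟨-, m6, m3⟩ := ne_of_cr h2.ne'
  obtain ⟨-, -, m2⟩ := ne_of_cr h3.ne'
  have hvB : v ∈ B := hC.sub _ t1 (by simp)
  have hvm := Rem3.v_mem h1 h2 h3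
  have hne : ∀ u w, HE (B.erase v) u w → HE B u w := by
    intro u w ⟨hu, hw, huw, hall⟩
    refine ⟨Finset.mem_of_mem_erase hu, Finset.mem_of_mem_erase hw, huw, fun x hx => ?_⟩
    by_cases hxv : x = v
    · subst hxv
      have h5 : convexHull ℝ ({a, b, c} : Set Pt) ⊆ {z | 0 ≤ cr u w z} := by
        apply convexHull_min _ (convex_halfplane u w)
        intro z hz
        simp only [Set.mem_insert_iff, Set.mem_singleton_iff] at hz
        rcases hz with rfl | rfl | rfl
        · exact hall _ (Finset.mem_erase.2 ⟨m4.symm, hC.sub _ t1 (by simp)⟩)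
        · exact hall _ (Finset.mem_erase.2 ⟨m5.symm, hC.sub _ t1 (by simp)⟩)
        · exact hall _ (Finset.mem_erase.2 ⟨m6.symm, hC.sub _ t2 (by simp)⟩)
      exact h5 hvm
    · exact hall x (Finset.mem_erase.2 ⟨hxv, hx⟩)
  have htri := Rem3.remove hC h1 h2 h3 t1 t2 t3
  have hm : ∀ t ∈ insert ({a, b, c} : Finset Pt) (C.filter (fun t => v ∉ t)),
      t = {a, b, c} ∨ (t ∈ C ∧ v ∉ t) := by
    intro t ht
    rcases Finset.mem_insert.1 ht with h | h
    · exact Or.inl h
    · exact Or.inr (Finset.mem_filter.1 h)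
  refine ⟨insert {a, b, c} (C.filter (fun t => v ∉ t)), ⟨⟨?_, htri, ?_, ?_, ?_, ?_⟩, ?_, ?_, ?_⟩⟩
  · exact (Finset.erase_subset _ _).trans h.sub
  · intro x hx hxv
    obtain ⟨y, hy⟩ := HV.succ (hB.mono (Finset.erase_subset v B)) hx hxv
      (by rw [Finset.card_erase_of_mem hvB]; omega)
    exact h.hv x (Finset.mem_of_mem_erase hx) (hne _ _ hy).hv_left
  · intro u w ⟨huw, t, ht, hu, hw⟩
    rcases hm t ht with rfl | ⟨htC, -⟩
    · apply h.ref
      simp only [Finset.mem_insert, Finset.mem_singleton] at hu hw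
      have sab : Side C a b := ⟨m1, _, t1, by simp, by simp⟩
      have sbc : Side C b c := ⟨m3, _, t2, by simp, by simp⟩
      have sca : Side C c a := ⟨m2, _, t3, by simp, by simp⟩
      rcases hu with rfl | rfl | rfl <;> rcases hw with rfl | rfl | rfl
      · exact absurd rfl huw
      · exact sab
      · exact sca.symm
      · exact sab.symm
      · exact absurd rfl huw
      · exact sbc
      · exact sca
      · exact sbc.symm
      · exact absurd rfl huw
    · exact h.ref u w ⟨huw, t, htC, hu, hw⟩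
  · intro t ht
    rcases hm t ht with rfl | ⟨htC, -⟩
    · refine le_trans (Finset.card_le_card ?_) hz
      intro x hx
      obtain ⟨hxP, hx⟩ := mem_pin.1 hx
      rw [coe3] at hx
      refine mem_Zs.2 ⟨hxP, Or.inl ?_⟩
      rcases Rem3.cov h1 h2 h3 hx with h' | h' | h'
      · exact ⟨_, t1, by simp, h'⟩
      · exact ⟨_, t2, by simp, h'⟩
      · exact ⟨_, t3, by simp, h'⟩
    · exact h.fac t htC
  · intro u w huw
    exact h.cap u w (hne u w huw)
  · intro t ht hvt
    exact Finset.mem_insert_of_mem (Finset.mem_filter.2 ⟨ht, hvt⟩)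
  · intro t ht
    rcases hm t ht with rfl | h'
    · right
      intro x hx
      simp only [Finset.mem_insert, Finset.mem_singleton] at hx
      rcases hx with rfl | rfl | rfl
      · exact ⟨m4, _, t1, by simp, by simp⟩
      · exact ⟨m5, _, t1, by simp, by simp⟩
      · exact ⟨m6, _, t2, by simp, by simp⟩
    · exact Or.inl h'
  · intro u w huw
    exact Or.inl (hne u w huw)

theorem CS.rem2 (hG : GP P) (h : CS P B C T F) {v : Pt} (h3 : Rem2 B C v)
    (hz : (Zs P B C v).card ≤ F) (h4 : 4 ≤ B.card) : ∃ C', Rmv P B C C' T F v := by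
  obtain ⟨a, b, ha, hb, t1⟩ := h3
  have hB := hG.mono h.sub
  have hC := h.tri
  have hvB : v ∈ B := ha.2.1
  have sa : Side C v a := ⟨ha.2.2.1.symm, _, t1, by simp, by simp⟩
  have sb : Side C v b := ⟨hb.2.2.1, _, t1, by simp, by simp⟩
  have hne : ∀ u w, HE (B.erase v) u w → HE B u w ∨ (u = a ∧ w = b) :=
    fun u w h => Rem2.he hB hC ha hb t1 h
  have htri := Rem2.remove hB hC h4 ha hb t1
  refine ⟨C.filter (fun t => v ∉ t), ⟨⟨?_, htri, ?_, ?_, ?_, ?_⟩, ?_, ?_, ?_⟩⟩
  · exact (Finset.erase_subset _ _).trans h.sub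
  · intro x hx hxv
    obtain ⟨y, hy⟩ := HV.succ (hB.mono (Finset.erase_subset v B)) hx hxv
      (by rw [Finset.card_erase_of_mem hvB]; omega)
    refine h.hv x (Finset.mem_of_mem_erase hx) ?_
    rcases hne _ _ hy with h' | ⟨rfl, -⟩
    · exact h'.hv_left
    · exact ha.hv_left
  · intro u w ⟨huw, t, ht, hu, hw⟩
    exact h.ref u w ⟨huw, t, (Finset.mem_filter.1 ht).1, hu, hw⟩
  · intro t ht
    exact h.fac t (Finset.mem_filter.1 ht).1
  · intro u w huw
    rcases hne u w huw with h' | ⟨rfl, rfl⟩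
    · exact h.cap u w h'
    · refine le_trans (Finset.card_le_card ?_) hz
      intro x hx
      obtain ⟨hxP, hx⟩ := mem_capf.1 hx
      refine mem_Zs.2 ⟨hxP, ?_⟩
      rcases lt_or_ge (cr u v x) 0 with k1 | k1
      · exact Or.inr ⟨u, v, ha, Or.inr rfl, k1⟩
      rcases lt_or_ge (cr v w x) 0 with k2 | k2
      · exact Or.inr ⟨v, w, hb, Or.inl rfl, k2⟩
      left
      refine ⟨_, t1, by simp, ?_⟩
      have hl := (Rem2.line hB hC ha hb t1).1
      have e : ({v, w, u} : Set Pt) = (({v, u, w} : Finset Pt) : Set Pt) := by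
        rw [coe3]; ext z; simp only [Set.mem_insert_iff, Set.mem_singleton_iff]; tauto
      rw [← e]
      refine mem_hull_of_cr ?_ k2 ?_ k1
      · rw [show cr v w u = - cr u w v by unfold cr; ring]; linarith
      · rw [show cr w u x = - cr u w x by unfold cr; ring]; linarith
  · intro t ht hvt
    exact Finset.mem_filter.2 ⟨ht, hvt⟩
  · intro t ht
    exact Or.inl (Finset.mem_filter.1 ht)
  · intro u w huw
    rcases hne u w huw with h' | ⟨rfl, rfl⟩
    · exact Or.inl h'
    · exact Or.inr ⟨sa, sb⟩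

/-- the removal phase: an independent set of removable vertices is removed at no cost -/
theorem CS.remove_all (hG : GP P) (I : Finset Pt) : ∀ (B : Finset Pt) (C : Finset (Finset Pt)),
    CS P B C T F → I ⊆ B → (∀ t ∈ C, ∀ v ∈ I, ∀ v' ∈ I, v ∈ t → v' ∈ t → v = v') →
    (∀ v ∈ I, Rem3 C v ∨ Rem2 B C v) → (∀ v ∈ I, (Zs P B C v).card ≤ F) →
    I.card + 3 ≤ B.card → ∃ C', CS P (B \ I) C' T F := by
  induction I using Finset.induction_on with
  | empty =>
    intro B C h _ _ _ _ _
    exact ⟨C, by rw [Finset.sdiff_empty]; exact h⟩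
  | insert v I hvI ih =>
    intro B C h hIB hind hrem hz hcard
    rw [Finset.card_insert_of_notMem hvI] at hcard
    have hvm := Finset.mem_insert_self v I
    have hvB := hIB hvm
    obtain ⟨C', hR⟩ : ∃ C', Rmv P B C C' T F v := by
      rcases hrem v hvm with h3 | h3
      · exact h.rem3 hG h3 (hz v hvm) (by omega)
      · exact h.rem2 hG h3 (hz v hvm) (by omega)
    -- members of I are not adjacent to v
    have hnadj : ∀ x ∈ I, ¬ Side C v x := by
      rintro x hx ⟨hne, t, ht, h1, h2⟩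
      exact hne (hind t ht v hvm x (Finset.mem_insert_of_mem hx) h1 h2)
    have hxv : ∀ x ∈ I, x ≠ v := fun x hx h => hvI (h ▸ hx)
    obtain ⟨C'', hC''⟩ := ih (B.erase v) C' hR.cs
      (fun x hx => Finset.mem_erase.2 ⟨hxv x hx, hIB (Finset.mem_insert_of_mem hx)⟩)
      (by
        intro t ht x hx y hy hxt hyt
        rcases hR.new t ht with ⟨htC, -⟩ | hall
        · exact hind t htC x (Finset.mem_insert_of_mem hx) y (Finset.mem_insert_of_mem hy) hxt hyt
        · exact absurd (hall x hxt) (hnadj x hx))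
      (by
        intro x hx
        have hnot : ∀ t ∈ C, x ∈ t → v ∉ t := by
          intro t ht hxt hvt
          exact hxv x hx (hind t ht x (Finset.mem_insert_of_mem hx) v hvm hxt hvt)
        rcases hrem x (Finset.mem_insert_of_mem hx) with ⟨a, b, c, h1, h2, h3, t1, t2, t3⟩ |
          ⟨a, b, ha, hb, t1⟩
        · left
          exact ⟨a, b, c, h1, h2, h3, hR.keep _ t1 (hnot _ t1 (by simp)),
            hR.keep _ t2 (hnot _ t2 (by simp)), hR.keep _ t3 (hnot _ t3 (by simp))⟩
        · right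
          have hvt := hnot _ t1 (by simp)
          have hav : a ≠ v := by rintro rfl; exact hvt (by simp)
          have hbv : b ≠ v := by rintro rfl; exact hvt (by simp)
          exact ⟨a, b, ⟨Finset.mem_erase.2 ⟨hav, ha.1⟩, Finset.mem_erase.2 ⟨hxv x hx, ha.2.1⟩,
            ha.2.2.1, fun w hw => ha.2.2.2 w (Finset.mem_of_mem_erase hw)⟩,
            ⟨Finset.mem_erase.2 ⟨hxv x hx, hb.1⟩, Finset.mem_erase.2 ⟨hbv, hb.2.1⟩,
            hb.2.2.1, fun w hw => hb.2.2.2 w (Finset.mem_of_mem_erase hw)⟩,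
            hR.keep _ t1 hvt⟩)
      (by
        intro x hx
        refine le_trans (Finset.card_le_card ?_) (hz x (Finset.mem_insert_of_mem hx))
        intro y hy
        obtain ⟨hyP, hy⟩ := mem_Zs.1 hy
        refine mem_Zs.2 ⟨hyP, ?_⟩
        rcases hy with ⟨t, ht, hxt, hyt⟩ | ⟨u, w, huw, hor, hcr⟩
        · rcases hR.new t ht with ⟨htC, -⟩ | hall
          · exact Or.inl ⟨t, htC, hxt, hyt⟩
          · exact absurd (hall x hxt) (hnadj x hx)
        · rcases hR.he u w huw with h' | ⟨k1, k2⟩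
          · exact Or.inr ⟨u, w, h', hor, hcr⟩
          · rcases hor with rfl | rfl
            · exact absurd k1 (hnadj _ hx)
            · exact absurd k2 (hnadj _ hx))
      (by rw [Finset.card_erase_of_mem hvB]; omega)
    refine ⟨C'', ?_⟩
    have : (B.erase v) \ I = B \ insert v I := by
      ext x; simp only [Finset.mem_sdiff, Finset.mem_erase, Finset.mem_insert]; tauto
    rw [← this]; exact hC''

end MP91a79a

end
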