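import Pool.Agent.Lib.MP_91a79a_co.Star

/-!
Angular ranks (MP_91a79a_co).
-/

noncomputable section

namespace MP91a79a

open Set

theorem cr_anti (o a b : Pt) : cr o b a = - cr o a b := by unfold cr; ring

/-- transitivity of the angular order in an open half plane -/
theorem ang_trans {o e a b c : Pt} (ha : 0 < cr o e a) (hb : 0 < cr o e b) (hc : 0 < cr o e c)
    (h1 : 0 < cr o a b) (h2 : 0 < cr o b c) : 0 < cr o a c := by
  have key : cr o e b * cr o a c = cr o e a * cr o b c + cr o e c * cr o a b := by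
    unfold cr; ring
  have h3 : 0 < cr o e b * cr o a c := by rw [key]; positivity
  exact pos_of_mul_pos_right h3 hb.le

/-- the points of `X` seen from `o`: in an open half plane, no two on a line with `o` -/
structure Ang (X : Finset Pt) (o e : Pt) : Prop where
  pos : ∀ w ∈ X, 0 < cr o e w
  gp : ∀ w ∈ X, ∀ w' ∈ X, w ≠ w' → cr o w w' ≠ 0

/-- number of points before `w` -/
def rk (X : Finset Pt) (o w : Pt) : ℕ := (X.filter fun w' => 0 < cr o w' w).card

/-- number of points after `w` -/
def rk' (X : Finset Pt) (o w : Pt) : ℕ := (X.filter fun w' => 0 < cr o w w').card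

namespace Ang

variable {X : Finset Pt} {o e a b : Pt}

theorem trans (h : Ang X o e) {c : Pt} (ha : a ∈ X) (hb : b ∈ X) (hc : c ∈ X)
    (h1 : 0 < cr o a b) (h2 : 0 < cr o b c) : 0 < cr o a c :=
  ang_trans (h.pos a ha) (h.pos b hb) (h.pos c hc) h1 h2

theorem rk_lt (h : Ang X o e) (ha : a ∈ X) (hb : b ∈ X) (hab : 0 < cr o a b) :
    rk X o a < rk X o b := by
  unfold rk
  apply Finset.card_lt_card
  rw [Finset.ssubset_iff_of_subset]
  · refine ⟨a, Finset.mem_filter.2 ⟨ha, hab⟩, fun h1 => ?_⟩
    have := (Finset.mem_filter.1 h1).2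
    rw [cr_self'] at this
    exact lt_irrefl _ this
  · intro w hw
    obtain ⟨h1, h2⟩ := Finset.mem_filter.1 hw
    exact Finset.mem_filter.2 ⟨h1, h.trans h1 ha hb h2 hab⟩

theorem rk_lt_card (ha : a ∈ X) : rk X o a < X.card := by
  unfold rk
  apply Finset.card_lt_card
  rw [Finset.ssubset_iff_of_subset (Finset.filter_subset _ _)]
  refine ⟨a, ha, fun h1 => ?_⟩
  have := (Finset.mem_filter.1 h1).2
  rw [cr_self'] at this
  exact lt_irrefl _ this

theorem rk_add (h : Ang X o e) (ha : a ∈ X) : rk X o a + rk' X o a + 1 = X.card := by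
  have h1 := Finset.card_filter_add_card_filter_not (s := X) (fun w' => 0 < cr o w' a)
  have h2 : (X.filter fun w' => ¬ 0 < cr o w' a) = insert a (X.filter fun w' => 0 < cr o a w') := by
    ext w
    rw [Finset.mem_filter, Finset.mem_insert, Finset.mem_filter]
    constructor
    · rintro ⟨hw, hw'⟩
      by_cases hwa : w = a
      · exact Or.inl hwa
      · right
        refine ⟨hw, ?_⟩
        have h3 := h.gp w hw a ha hwa
        rw [cr_anti o w a]
        rcases lt_or_gt_of_ne h3 with h4 | h4
        · linarith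
        · exact absurd h4 hw'
    · rintro (rfl | ⟨hw, hw'⟩)
      · exact ⟨ha, by rw [cr_self']; exact lt_irrefl _⟩
      · refine ⟨hw, ?_⟩
        rw [cr_anti o a w]
        linarith
  rw [h2, Finset.card_insert_of_notMem] at h1
  · unfold rk rk'
    omega
  · intro h3
    have := (Finset.mem_filter.1 h3).2
    rw [cr_self'] at this
    exact lt_irrefl _ this

theorem rk_inj (h : Ang X o e) : Set.InjOn (rk X o) (X : Set Pt) := by
  intro a ha b hb hab
  by_contra hne
  rcases lt_or_gt_of_ne (h.gp a ha b hb hne) with h1 | h1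
  · have h2 : 0 < cr o b a := by rw [cr_anti o a b]; linarith
    have := h.rk_lt hb ha h2
    omega
  · have := h.rk_lt ha hb h1
    omega

theorem image_rk (h : Ang X o e) : X.image (rk X o) = Finset.range X.card := by
  apply Finset.eq_of_subset_of_card_le
  · intro j hj
    rw [Finset.mem_image] at hj
    obtain ⟨a, ha, rfl⟩ := hj
    exact Finset.mem_range.2 (rk_lt_card ha)
  · rw [Finset.card_image_of_injOn h.rk_inj, Finset.card_range]

theorem exists_rk (h : Ang X o e) {j : ℕ} (hj : j < X.card) : ∃ a ∈ X, rk X o a = j := by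
  have : j ∈ X.image (rk X o) := by rw [h.image_rk]; exact Finset.mem_range.2 hj
  exact Finset.mem_image.1 this

/-- the middle third -/
theorem card_mid (h : Ang X o e) (h1 : 1 ≤ X.card) :
    X.card ≤ 3 * (X.filter fun w => X.card ≤ 3 * (rk X o w + 1) ∧
      3 * rk X o w ≤ 2 * X.card).card := by
  set M := X.filter fun w => X.card ≤ 3 * (rk X o w + 1) ∧ 3 * rk X o w ≤ 2 * X.card with hM
  have hsub : Finset.Icc ((X.card + 2) / 3 - 1) (2 * X.card / 3) ⊆ M.image (rk X o) := by
    intro j hj
    rw [Finset.mem_Icc] at hj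
    obtain ⟨a, ha, haj⟩ := h.exists_rk (j := j) (by omega)
    refine Finset.mem_image.2 ⟨a, Finset.mem_filter.2 ⟨ha, ?_, ?_⟩, haj⟩
    · rw [haj]; omega
    · rw [haj]; omega
  have h2 := (Finset.card_le_card hsub).trans Finset.card_image_le
  rw [Nat.card_Icc] at h2
  omega

end Ang

end MP91a79a

end
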