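import Pool.Agent.Lib.MP_91a79a_co.Geom

/-!
Strict triangulations (every point of `P` in a closed triangle is a vertex of it) and their
refinements.
-/

noncomputable section

namespace MP91a79a

open Set

structure STri (P : Finset Pt) (T : Finset (Finset Pt)) : Prop where
  sub : ∀ t ∈ T, t ⊆ P
  card : ∀ t ∈ T, t.card = 3
  nondeg : ∀ t ∈ T, ¬ Collinear ℝ (t : Set Pt)
  disj : ∀ s ∈ T, ∀ t ∈ T, s ≠ t →
    Disjoint (interior (convexHull ℝ (s : Set Pt))) (interior (convexHull ℝ (t : Set Pt)))
  cover : (⋃ t ∈ T, convexHull ℝ (t : Set Pt)) = convexHull ℝ (P : Set Pt)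
  strict : ∀ t ∈ T, ∀ p ∈ P, p ∈ convexHull ℝ (t : Set Pt) → p ∈ t

theorem coe3 (a b c : Pt) : ((({a, b, c} : Finset Pt)) : Set Pt) = {a, b, c} := by
  simp

theorem repr_tri {t : Finset Pt} (hc : t.card = 3) (hn : ¬ Collinear ℝ (t : Set Pt)) :
    ∃ a b c : Pt, t = {a, b, c} ∧ 0 < cr a b c := by
  obtain ⟨a, b, c, h1, h2, h3, rfl⟩ := Finset.card_eq_three.1 hc
  rw [coe3, collinear_iff] at hn
  rcases lt_or_gt_of_ne hn with h | h
  · refine ⟨b, a, c, ?_, by rw [cr_swap]; linarith⟩
    ext x; simp only [Finset.mem_insert, Finset.mem_singleton]; tauto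
  · exact ⟨a, b, c, rfl, h⟩

/-- given one edge of a triangle -/
theorem repr_edge {t : Finset Pt} (hc : t.card = 3) (hn : ¬ Collinear ℝ (t : Set Pt))
    {a b : Pt} (hab : a ≠ b) (ha : a ∈ t) (hb : b ∈ t) :
    ∃ c, t = {a, b, c} ∧ cr a b c ≠ 0 := by
  have h1 : ((t.erase a).erase b).card = 1 := by
    rw [Finset.card_erase_of_mem (Finset.mem_erase.2 ⟨hab.symm, hb⟩), Finset.card_erase_of_mem ha,
      hc]
  obtain ⟨c, hc'⟩ := Finset.card_eq_one.1 h1
  have h2 : t = {a, b, c} := by
    ext x
    simp only [Finset.mem_insert, Finset.mem_singleton]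
    constructor
    · intro hx
      by_cases h3 : x = a
      · exact Or.inl h3
      · by_cases h4 : x = b
        · exact Or.inr (Or.inl h4)
        · right; right
          have : x ∈ ((t.erase a).erase b) := by simp [hx, h3, h4]
          rw [hc'] at this
          simpa using this
    · rintro (rfl | rfl | rfl)
      · exact ha
      · exact hb
      · have : x ∈ ((t.erase a).erase b) := by rw [hc']; simp
        exact Finset.mem_of_mem_erase (Finset.mem_of_mem_erase this)
  refine ⟨c, h2, ?_⟩
  rw [h2, coe3, collinear_iff] at hn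
  exact hn

theorem vertex_not_int {a b c p : Pt} (h : 0 < cr a b c) (hp : p ∈ ({a, b, c} : Finset Pt)) :
    p ∉ interior (convexHull ℝ ({a, b, c} : Set Pt)) := by
  intro hi
  obtain ⟨h1, h2, h3⟩ := cr_of_int h hi
  simp only [Finset.mem_insert, Finset.mem_singleton] at hp
  rcases hp with rfl | rfl | rfl
  · rw [cr_self] at h1; exact lt_irrefl _ h1
  · rw [cr_self] at h2; exact lt_irrefl _ h2
  · rw [cr_self] at h3; exact lt_irrefl _ h3

theorem STri.toIs {P : Finset Pt} {T : Finset (Finset Pt)} (h : STri P T) :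
    IsTriangulation P T := by
  refine ⟨h.sub, h.card, h.nondeg, h.disj, h.cover, ?_⟩
  intro t ht p hp hi
  have h1 := h.strict t ht p hp (interior_subset hi)
  obtain ⟨a, b, c, rfl, h2⟩ := repr_tri (h.card t ht) (h.nondeg t ht)
  rw [coe3] at hi
  exact vertex_not_int h2 h1 hi

theorem STri.single {t : Finset Pt} (hc : t.card = 3) (hn : ¬ Collinear ℝ (t : Set Pt)) :
    STri t {t} := by
  refine ⟨by simp, by simpa, by simpa, ?_, by simp, ?_⟩
  · intro s hs u hu hsu
    simp only [Finset.mem_singleton] at hs hu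
    exact absurd (hs.trans hu.symm) hsu
  · intro s hs p hp _
    simp only [Finset.mem_singleton] at hs
    rwa [hs]

theorem STri.refine {ι : Type*} [Fintype ι] [DecidableEq ι] {P : Finset Pt} (τ : ι → Finset Pt)
    (hτ : Function.Injective τ) (h : STri P (Finset.univ.image τ)) (Q : ι → Finset Pt)
    (S : ι → Finset (Finset Pt)) (hQ : ∀ i, τ i ⊆ Q i) (hS : ∀ i, STri (Q i) (S i))
    (hin : ∀ i, ∀ p ∈ Q i, p ∈ τ i ∨ p ∈ interior (convexHull ℝ (τ i : Set Pt))) :
    STri (P ∪ Finset.univ.biUnion Q) (Finset.univ.biUnion S) := by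
  have hτmem : ∀ i, τ i ∈ Finset.univ.image τ := fun i => Finset.mem_image_of_mem _ (Finset.mem_univ i)
  have hQh : ∀ i, ((Q i : Finset Pt) : Set Pt) ⊆ convexHull ℝ (τ i : Set Pt) := by
    intro i p hp
    rcases hin i p hp with h1 | h1
    · exact subset_convexHull _ _ h1
    · exact interior_subset h1
  have hQe : ∀ i, convexHull ℝ (Q i : Set Pt) = convexHull ℝ (τ i : Set Pt) := by
    intro i
    apply Subset.antisymm
    · exact convexHull_min (hQh i) (convex_convexHull _ _)
    · exact convexHull_mono (Finset.coe_subset.2 (hQ i))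
  have hSsub : ∀ i, ∀ s ∈ S i, convexHull ℝ (s : Set Pt) ⊆ convexHull ℝ (τ i : Set Pt) := by
    intro i s hs
    rw [← hQe i]
    exact convexHull_mono (Finset.coe_subset.2 ((hS i).sub s hs))
  refine ⟨?_, ?_, ?_, ?_, ?_, ?_⟩
  · intro s hs
    rw [Finset.mem_biUnion] at hs
    obtain ⟨i, -, hs⟩ := hs
    intro p hp
    rw [Finset.mem_union, Finset.mem_biUnion]
    exact Or.inr ⟨i, Finset.mem_univ _, (hS i).sub s hs hp⟩
  · intro s hs
    rw [Finset.mem_biUnion] at hs
    obtain ⟨i, -, hs⟩ := hs
    exact (hS i).card s hs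
  · intro s hs
    rw [Finset.mem_biUnion] at hs
    obtain ⟨i, -, hs⟩ := hs
    exact (hS i).nondeg s hs
  · intro s hs t ht hst
    rw [Finset.mem_biUnion] at hs ht
    obtain ⟨i, -, hs⟩ := hs
    obtain ⟨j, -, ht⟩ := ht
    by_cases hij : i = j
    · subst hij
      exact (hS i).disj s hs t ht hst
    · exact (h.disj _ (hτmem i) _ (hτmem j) (fun h => hij (hτ h))).mono
        (interior_mono (hSsub i s hs)) (interior_mono (hSsub j t ht))
  · have h1 : convexHull ℝ ((P ∪ Finset.univ.biUnion Q : Finset Pt) : Set Pt) =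
        convexHull ℝ (P : Set Pt) := by
      apply Subset.antisymm
      · apply convexHull_min _ (convex_convexHull _ _)
        intro p hp
        rw [Finset.mem_coe, Finset.mem_union, Finset.mem_biUnion] at hp
        rcases hp with hp | ⟨i, -, hp⟩
        · exact subset_convexHull _ _ hp
        · have := hQh i hp
          exact convexHull_mono (Finset.coe_subset.2 (h.sub _ (hτmem i))) this
      · exact convexHull_mono (Finset.coe_subset.2 Finset.subset_union_left)
    rw [h1, ← h.cover]
    ext x
    simp only [Set.mem_iUnion, exists_prop]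
    constructor
    · rintro ⟨s, hs, hx⟩
      rw [Finset.mem_biUnion] at hs
      obtain ⟨i, -, hs⟩ := hs
      exact ⟨τ i, hτmem i, hSsub i s hs hx⟩
    · rintro ⟨t, ht, hx⟩
      rw [Finset.mem_image] at ht
      obtain ⟨i, -, rfl⟩ := ht
      rw [← hQe i, ← (hS i).cover] at hx
      simp only [Set.mem_iUnion, exists_prop] at hx
      obtain ⟨s, hs, hx⟩ := hx
      exact ⟨s, Finset.mem_biUnion.2 ⟨i, Finset.mem_univ _, hs⟩, hx⟩
  · intro s hs p hp hx
    rw [Finset.mem_biUnion] at hs
    obtain ⟨i, -, hs⟩ := hs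
    apply (hS i).strict s hs p _ hx
    have hxi := hSsub i s hs hx
    have hPcase : p ∈ P → p ∈ Q i := fun hp => hQ i (h.strict _ (hτmem i) p hp hxi)
    rw [Finset.mem_union, Finset.mem_biUnion] at hp
    rcases hp with hp | ⟨j, -, hp⟩
    · exact hPcase hp
    · by_cases hij : i = j
      · subst hij; exact hp
      · rcases hin j p hp with h2 | h2
        · exact hPcase (h.sub _ (hτmem j) h2)
        · exfalso
          obtain ⟨a, b, c, habc, hcr⟩ := repr_tri (h.card _ (hτmem i)) (h.nondeg _ (hτmem i))
          have h3 := h.disj _ (hτmem i) _ (hτmem j) (fun h => hij (hτ h))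
          rw [habc, coe3] at h3 hxi
          exact Set.disjoint_left.1 (disj_hull_of_disj hcr.ne' isOpen_interior h3) hxi h2

theorem STri.replace {P : Finset Pt} {T : Finset (Finset Pt)} (h : STri P T) {t : Finset Pt}
    (ht : t ∈ T) (Q : Finset Pt) (S : Finset (Finset Pt)) (hQ : t ⊆ Q) (hS : STri Q S)
    (hin : ∀ p ∈ Q, p ∈ t ∨ p ∈ interior (convexHull ℝ (t : Set Pt))) :
    STri (P ∪ Q) (T.erase t ∪ S) := by
  classical
  have h1 := STri.refine (P := P) (ι := {x // x ∈ T}) (fun x => x.1) Subtype.val_injective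
    (by
      have : (Finset.univ.image fun x : {x // x ∈ T} => x.1) = T := by
        ext x; simp
      rw [this]; exact h)
    (fun x => if x.1 = t then Q else x.1) (fun x => if x.1 = t then S else {x.1})
    (by
      intro x
      show x.1 ⊆ (if x.1 = t then Q else x.1)
      split_ifs with hx
      · rw [hx]; exact hQ
      · exact subset_rfl)
    (by
      intro x
      show STri (if x.1 = t then Q else x.1) (if x.1 = t then S else {x.1})
      split_ifs with hx
      · exact hS
      · exact STri.single (h.card _ x.2) (h.nondeg _ x.2))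
    (by
      intro x p hp
      by_cases hx : x.1 = t
      · have hp' : p ∈ Q := by simpa [hx] using hp
        simpa [hx] using hin p hp'
      · left; simpa [hx] using hp)
  have e1 : P ∪ (Finset.univ.biUnion fun x : {x // x ∈ T} => if x.1 = t then Q else x.1) = P ∪ Q := by
    ext p
    simp only [Finset.mem_union, Finset.mem_biUnion, Finset.mem_univ, true_and]
    constructor
    · rintro (hp | ⟨x, hp⟩)
      · exact Or.inl hp
      · by_cases hx : x.1 = t
        · right; simpa [hx] using hp
        · left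
          have hp' : p ∈ x.1 := by simpa [hx] using hp
          exact h.sub _ x.2 hp'
    · rintro (hp | hp)
      · exact Or.inl hp
      · right
        exact ⟨⟨t, ht⟩, by simpa using hp⟩
  have e2 : (Finset.univ.biUnion fun x : {x // x ∈ T} => if x.1 = t then S else {x.1}) =
      T.erase t ∪ S := by
    ext s
    simp only [Finset.mem_union, Finset.mem_biUnion, Finset.mem_univ, true_and, Finset.mem_erase]
    constructor
    · rintro ⟨x, hp⟩
      by_cases hx : x.1 = t
      · right; simpa [hx] using hp
      · left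
        have hp' : s = x.1 := by simpa [hx] using hp
        rw [hp']; exact ⟨hx, x.2⟩
    · rintro (⟨hp, hp2⟩ | hp)
      · exact ⟨⟨s, hp2⟩, by simp [hp]⟩
      · exact ⟨⟨t, ht⟩, by simpa using hp⟩
  rw [e1, e2] at h1
  exact h1

theorem cover3_aux {a b c x p : Pt} {α β γ l m n : ℝ} (hx : x = α • a + β • b + γ • c)
    (hp : p = l • a + m • b + n • c) (h1 : α + β + γ = 1) (h2 : l + m + n = 1) (hγ : 0 ≤ γ)
    (hn : 0 < n) (h3 : γ * l ≤ α * n) (h4 : γ * m ≤ β * n) :
    x ∈ convexHull ℝ ({a, b, p} : Set Pt) := by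
  rw [mem_hull3]
  refine ⟨α - γ / n * l, β - γ / n * m, γ / n, ?_, ?_, by positivity, ?_, ?_⟩
  · rw [sub_nonneg, div_mul_eq_mul_div, div_le_iff₀ hn]; exact h3
  · rw [sub_nonneg, div_mul_eq_mul_div, div_le_iff₀ hn]; exact h4
  · have : n = 1 - l - m := by linarith
    field_simp
    rw [this]
    have h5 : α = 1 - β - γ := by linarith
    rw [h5]; ring
  · have h6 : (γ / n) • (n • c) = γ • c := by
      rw [smul_smul, div_mul_cancel₀ _ hn.ne']
    rw [hx, hp, smul_add, smul_add, h6]
    module

theorem cover3 {a b c p x : Pt} (h1 : 0 < cr a b p) (h2 : 0 < cr b c p) (h3 : 0 < cr c a p)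
    (hx : x ∈ convexHull ℝ ({a, b, c} : Set Pt)) :
    x ∈ convexHull ℝ ({a, b, p} : Set Pt) ∨ x ∈ convexHull ℝ ({b, c, p} : Set Pt) ∨
      x ∈ convexHull ℝ ({c, a, p} : Set Pt) := by
  have hD : 0 < cr a b c := by rw [← cr_sum a b c p]; positivity
  obtain ⟨l, m, n, hl, hm, hn, hlmn, hp⟩ : ∃ l m n : ℝ, 0 < l ∧ 0 < m ∧ 0 < n ∧ l + m + n = 1 ∧
      p = l • a + m • b + n • c := by
    refine ⟨cr b c p / cr a b c, cr c a p / cr a b c, cr a b p / cr a b c, by positivity,
      by positivity, by positivity, ?_, ?_⟩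
    · rw [← add_div, ← add_div, div_eq_one_iff_eq hD.ne']
      have := cr_sum a b c p
      linarith
    · have h := cr_expand a b c p
      calc p = (cr a b c)⁻¹ • ((cr a b c) • p) := by rw [inv_smul_smul₀ hD.ne']
        _ = (cr a b c)⁻¹ • ((cr b c p) • a + (cr c a p) • b + (cr a b p) • c) :=
          congrArg _ h
        _ = _ := by simp only [div_eq_inv_mul]; module
  rw [mem_hull3] at hx
  obtain ⟨α, β, γ, hα, hβ, hγ, hs, hx⟩ := hx
  have C1 : γ * l ≤ α * n → γ * m ≤ β * n → x ∈ convexHull ℝ ({a, b, p} : Set Pt) := fun q1 q2 =>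
    cover3_aux hx hp hs hlmn hγ hn q1 q2
  have C2 : α * m ≤ β * l → α * n ≤ γ * l → x ∈ convexHull ℝ ({b, c, p} : Set Pt) := fun q1 q2 =>
    cover3_aux (a := b) (b := c) (c := a) (by rw [hx]; abel) (by rw [hp]; abel)
      (by linarith) (by linarith) hα hl q1 q2
  have C3 : β * n ≤ γ * m → β * l ≤ α * m → x ∈ convexHull ℝ ({c, a, p} : Set Pt) := fun q1 q2 =>
    cover3_aux (a := c) (b := a) (c := b) (by rw [hx]; abel) (by rw [hp]; abel)
      (by linarith) (by linarith) hβ hm q1 q2
  rcases le_total (γ * l) (α * n) with q | q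
  · rcases le_total (γ * m) (β * n) with r | r
    · exact Or.inl (C1 q r)
    · refine Or.inr (Or.inr (C3 r ?_))
      have e1 := mul_le_mul_of_nonneg_right r hl.le
      have e2 := mul_le_mul_of_nonneg_right q hm.le
      exact le_of_mul_le_mul_right (by nlinarith : β * l * n ≤ α * m * n) hn
  · rcases le_total (α * m) (β * l) with r | r
    · exact Or.inr (Or.inl (C2 r q))
    · refine Or.inr (Or.inr (C3 ?_ r))
      have e1 := mul_le_mul_of_nonneg_right r hn.le
      have e2 := mul_le_mul_of_nonneg_right q hm.le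
      exact le_of_mul_le_mul_right (by nlinarith : β * n * l ≤ γ * m * l) hl

/-- inserting a point in the interior of a triangle -/
theorem STri.split {a b c p : Pt} (h1 : 0 < cr a b p) (h2 : 0 < cr b c p) (h3 : 0 < cr c a p) :
    STri {a, b, c, p} {{a, b, p}, {b, c, p}, {c, a, p}} := by
  have hD : 0 < cr a b c := by rw [← cr_sum a b c p]; positivity
  have hpint := mem_int_of_cr h1 h2 h3
  have hab := (ne_of_cr h1.ne').1
  obtain ⟨-, n1, n2⟩ := ne_of_cr h1.ne'
  obtain ⟨n3, -, n4⟩ := ne_of_cr h2.ne'
  obtain ⟨n5, -, -⟩ := ne_of_cr h3.ne'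
  have sides : ∀ {a b c p : Pt}, 0 < cr a b p → 0 < cr b c p → ∀ x ∈ convexHull ℝ ({a, b, p} : Set Pt),
      0 ≤ cr b p x ∧ 0 ≤ cr a b x ∧ 0 ≤ cr p a x := by
    intro a b c p h1 _ x hx
    obtain ⟨e1, e2, e3⟩ := cr_of_hull h1.le hx
    exact ⟨e2, e1, e3⟩
  have d12 : Disjoint (interior (convexHull ℝ ({a, b, p} : Set Pt)))
      (interior (convexHull ℝ ({b, c, p} : Set Pt))) := by
    apply disj_of_line (a := b) (b := p) n2
    · intro x hx; exact (cr_of_hull h1.le hx).2.1
    · intro x hx
      have := (cr_of_hull h2.le hx).2.2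
      rw [cr_swap] at this; linarith
  have d23 : Disjoint (interior (convexHull ℝ ({b, c, p} : Set Pt)))
      (interior (convexHull ℝ ({c, a, p} : Set Pt))) := by
    apply disj_of_line (a := c) (b := p) n4
    · intro x hx; exact (cr_of_hull h2.le hx).2.1
    · intro x hx
      have := (cr_of_hull h3.le hx).2.2
      rw [cr_swap] at this; linarith
  have d31 : Disjoint (interior (convexHull ℝ ({c, a, p} : Set Pt)))
      (interior (convexHull ℝ ({a, b, p} : Set Pt))) := by
    apply disj_of_line (a := a) (b := p) n1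
    · intro x hx; exact (cr_of_hull h3.le hx).2.1
    · intro x hx
      have := (cr_of_hull h1.le hx).2.2
      rw [cr_swap] at this; linarith
  -- strictness of one triangle
  have str : ∀ {a b c p : Pt}, 0 < cr a b p → 0 < cr b c p → 
      c ∉ convexHull ℝ ({a, b, p} : Set Pt) := by
    intro a b c p h1 h2 hc
    have := (cr_of_hull h1.le hc).2.1
    have e : cr b p c = - cr b c p := by unfold cr; ring
    rw [e] at this; linarith
  have hsub : ∀ {a b c p : Pt}, p ∈ convexHull ℝ ({a, b, c} : Set Pt) →
      convexHull ℝ ({a, b, p} : Set Pt) ⊆ convexHull ℝ ({a, b, c} : Set Pt) := by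
    intro a b c p hp
    apply convexHull_min _ (convex_convexHull _ _)
    rintro x (rfl | rfl | rfl)
    · exact subset_convexHull _ _ (by simp)
    · exact subset_convexHull _ _ (by simp)
    · exact hp
  refine ⟨?_, ?_, ?_, ?_, ?_, ?_⟩
  · intro t ht
    simp only [Finset.mem_insert, Finset.mem_singleton] at ht
    rcases ht with rfl | rfl | rfl <;> intro x hx <;>
    · simp only [Finset.mem_insert, Finset.mem_singleton] at hx ⊢; tauto
  · intro t ht
    simp only [Finset.mem_insert, Finset.mem_singleton] at ht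
    rcases ht with rfl | rfl | rfl
    · exact Finset.card_eq_three.2 ⟨_, _, _, hab, n1, n2, rfl⟩
    · exact Finset.card_eq_three.2 ⟨_, _, _, n3, n2, n4, rfl⟩
    · exact Finset.card_eq_three.2 ⟨_, _, _, n5, n4, n1, rfl⟩
  · intro t ht
    simp only [Finset.mem_insert, Finset.mem_singleton] at ht
    rcases ht with rfl | rfl | rfl <;> rw [coe3, collinear_iff]
    · exact h1.ne'
    · exact h2.ne'
    · exact h3.ne'
  · intro s hs t ht hst
    simp only [Finset.mem_insert, Finset.mem_singleton] at hs ht
    rcases hs with rfl | rfl | rfl <;> rcases ht with rfl | rfl | rfl <;> simp only [coe3]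
    · exact absurd rfl hst
    · exact d12
    · exact d31.symm
    · exact d12.symm
    · exact absurd rfl hst
    · exact d23
    · exact d31
    · exact d23.symm
    · exact absurd rfl hst
  · have e1 : convexHull ℝ ((({a, b, c, p} : Finset Pt)) : Set Pt) =
        convexHull ℝ ({a, b, c} : Set Pt) := by
      apply Subset.antisymm
      · apply convexHull_min _ (convex_convexHull _ _)
        intro x hx
        simp only [Finset.coe_insert, Finset.coe_singleton, Set.mem_insert_iff,
          Set.mem_singleton_iff] at hx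
        rcases hx with rfl | rfl | rfl | rfl
        · exact subset_convexHull _ _ (by simp)
        · exact subset_convexHull _ _ (by simp)
        · exact subset_convexHull _ _ (by simp)
        · exact interior_subset hpint
      · apply convexHull_mono
        rintro x (rfl | rfl | rfl) <;> simp
    rw [e1]
    ext x
    simp only [Finset.mem_insert, Finset.mem_singleton, Set.iUnion_iUnion_eq_or_left,
      Set.iUnion_iUnion_eq_left, Set.mem_union, coe3]
    constructor
    · rintro (hx | hx | hx)
      · exact hsub (interior_subset hpint) hx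
      · have e : ({a, b, c} : Set Pt) = {b, c, a} := by ext; simp; tauto
        rw [e] at hpint ⊢
        exact hsub (interior_subset hpint) hx
      · have e : ({a, b, c} : Set Pt) = {c, a, b} := by ext; simp; tauto
        rw [e] at hpint ⊢
        exact hsub (interior_subset hpint) hx
    · intro hx
      exact cover3 h1 h2 h3 hx
  · intro t ht q hq hx
    simp only [Finset.mem_insert, Finset.mem_singleton] at ht hq
    rcases ht with rfl | rfl | rfl <;> rw [coe3] at hx
    · rcases hq with rfl | rfl | rfl | rfl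
      · simp
      · simp
      · exact absurd hx (str h1 h2)
      · simp
    · rcases hq with rfl | rfl | rfl | rfl
      · exact absurd hx (str h2 h3)
      · simp
      · simp
      · simp
    · rcases hq with rfl | rfl | rfl | rfl
      · simp
      · exact absurd hx (str h3 h1)
      · simp
      · simp

end MP91a79a

end
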