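import Pool.Agent.Lib.MP_91a79a_co.HullE

/-!
Removal of vertices from a coarse triangulation (MP_91a79a_co): coarsening, part 3.
-/

noncomputable section

namespace MP91a79a

open Set Classical

variable {B P : Finset Pt} {C T : Finset (Finset Pt)}

/-- points of `P` in the closed triangle `t` -/
def pin (P t : Finset Pt) : Finset Pt := P.filter (fun x => x ∈ convexHull ℝ (t : Set Pt))

/-- points of `P` on the right of `uw` -/
def capf (P : Finset Pt) (u w : Pt) : Finset Pt := P.filter (fun x => cr u w x < 0)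

/-- points of `P` in the star of `v`, with the caps at `v` -/
def Zs (P B : Finset Pt) (C : Finset (Finset Pt)) (v : Pt) : Finset Pt :=
  P.filter (fun x => (∃ t ∈ C, v ∈ t ∧ x ∈ convexHull ℝ (t : Set Pt)) ∨
    ∃ u w, HE B u w ∧ (u = v ∨ w = v) ∧ cr u w x < 0)

/-- a coarse state: `C` is a triangulation of `B ⊆ P`, all of whose sides are sides of `T`, and
all faces and caps contain at most `F` points -/
structure CS (P B : Finset Pt) (C T : Finset (Finset Pt)) (F : ℕ) : Prop where
  sub : B ⊆ P
  tri : STri B C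
  hv : ∀ b ∈ B, HV B b → HV P b
  ref : ∀ u w, Side C u w → Side T u w
  fac : ∀ t ∈ C, (pin P t).card ≤ F
  cap : ∀ u w, HE B u w → (capf P u w).card ≤ F

theorem Rem3.only (hC : STri B C) {v a b c : Pt} (h1 : 0 < cr v a b) (h2 : 0 < cr v b c)
    (h3 : 0 < cr v c a) (t1 : {v, a, b} ∈ C) (t2 : {v, b, c} ∈ C) (t3 : {v, c, a} ∈ C) :
    ∀ t ∈ C, v ∈ t → t = {v, a, b} ∨ t = {v, b, c} ∨ t = {v, c, a} := by
  intro t ht hvt
  by_contra hcon
  push Not at hcon
  obtain ⟨n1, n2, n3⟩ := hcon
  have e1 : 0 < cr a b v := by rwa [show cr a b v = cr v a b by unfold cr; ring]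
  have e2 : 0 < cr b c v := by rwa [show cr b c v = cr v b c by unfold cr; ring]
  have e3 : 0 < cr c a v := by rwa [show cr c a v = cr v c a by unfold cr; ring]
  have hvint := mem_int_of_cr e1 e2 e3
  have hvc : v ∈ closure (interior (convexHull ℝ (t : Set Pt))) := by
    rw [(convex_convexHull ℝ _).closure_interior_eq_closure_of_nonempty_interior
      (hC.nonempty_int ht)]
    exact subset_closure (subset_convexHull ℝ _ hvt)
  obtain ⟨z, hz1, hz2⟩ := mem_closure_iff.1 hvc _ isOpen_interior hvint
  rcases cover3 e1 e2 e3 (interior_subset hz1) with h | h | h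
  · have e : ({a, b, v} : Set Pt) = (({v, a, b} : Finset Pt) : Set Pt) := by
      rw [coe3]; ext z; simp only [Set.mem_insert_iff, Set.mem_singleton_iff]; tauto
    rw [e] at h
    exact Set.disjoint_left.1 (hC.disj_hull t1 ht (Ne.symm n1)) h hz2
  · have e : ({b, c, v} : Set Pt) = (({v, b, c} : Finset Pt) : Set Pt) := by
      rw [coe3]; ext z; simp only [Set.mem_insert_iff, Set.mem_singleton_iff]; tauto
    rw [e] at h
    exact Set.disjoint_left.1 (hC.disj_hull t2 ht (Ne.symm n2)) h hz2
  · have e : ({c, a, v} : Set Pt) = (({v, c, a} : Finset Pt) : Set Pt) := by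
      rw [coe3]; ext z; simp only [Set.mem_insert_iff, Set.mem_singleton_iff]; tauto
    rw [e] at h
    exact Set.disjoint_left.1 (hC.disj_hull t3 ht (Ne.symm n3)) h hz2

theorem Rem3.cov {v a b c x : Pt} (h1 : 0 < cr v a b) (h2 : 0 < cr v b c)
    (h3 : 0 < cr v c a) (hx : x ∈ convexHull ℝ ({a, b, c} : Set Pt)) :
    x ∈ convexHull ℝ (({v, a, b} : Finset Pt) : Set Pt) ∨
    x ∈ convexHull ℝ (({v, b, c} : Finset Pt) : Set Pt) ∨
    x ∈ convexHull ℝ (({v, c, a} : Finset Pt) : Set Pt) := by
  have e1 : 0 < cr a b v := by rwa [show cr a b v = cr v a b by unfold cr; ring]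
  have e2 : 0 < cr b c v := by rwa [show cr b c v = cr v b c by unfold cr; ring]
  have e3 : 0 < cr c a v := by rwa [show cr c a v = cr v c a by unfold cr; ring]
  have f1 : ({a, b, v} : Set Pt) = (({v, a, b} : Finset Pt) : Set Pt) := by
    rw [coe3]; ext z; simp only [Set.mem_insert_iff, Set.mem_singleton_iff]; tauto
  have f2 : ({b, c, v} : Set Pt) = (({v, b, c} : Finset Pt) : Set Pt) := by
    rw [coe3]; ext z; simp only [Set.mem_insert_iff, Set.mem_singleton_iff]; tauto
  have f3 : ({c, a, v} : Set Pt) = (({v, c, a} : Finset Pt) : Set Pt) := by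
    rw [coe3]; ext z; simp only [Set.mem_insert_iff, Set.mem_singleton_iff]; tauto
  rw [← f1, ← f2, ← f3]
  exact cover3 e1 e2 e3 hx

theorem Rem3.v_mem {v a b c : Pt} (h1 : 0 < cr v a b) (h2 : 0 < cr v b c)
    (h3 : 0 < cr v c a) : v ∈ convexHull ℝ ({a, b, c} : Set Pt) := by
  have e1 : 0 < cr a b v := by rwa [show cr a b v = cr v a b by unfold cr; ring]
  have e2 : 0 < cr b c v := by rwa [show cr b c v = cr v b c by unfold cr; ring]
  have e3 : 0 < cr c a v := by rwa [show cr c a v = cr v c a by unfold cr; ring]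
  exact interior_subset (mem_int_of_cr e1 e2 e3)

/-- removing an interior vertex of degree three -/
theorem Rem3.remove (hC : STri B C) {v a b c : Pt} (h1 : 0 < cr v a b) (h2 : 0 < cr v b c)
    (h3 : 0 < cr v c a) (t1 : {v, a, b} ∈ C) (t2 : {v, b, c} ∈ C) (t3 : {v, c, a} ∈ C) :
    STri (B.erase v) (insert {a, b, c} (C.filter (fun t => v ∉ t))) := by
  have hD : 0 < cr a b c := by
    have : cr a b c = cr v a b + cr v b c + cr v c a := by unfold cr; ring
    rw [this]; positivity
  have honly := Rem3.only hC h1 h2 h3 t1 t2 t3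
  have hvm := Rem3.v_mem h1 h2 h3
  obtain ⟨m1, m2, m3⟩ := ne_of_cr hD.ne'
  obtain ⟨m4, m5, -⟩ := ne_of_cr h1.ne'
  obtain ⟨-, m6, -⟩ := ne_of_cr h2.ne'
  have haB : a ∈ B := hC.sub _ t1 (by simp)
  have hbB : b ∈ B := hC.sub _ t1 (by simp)
  have hcB : c ∈ B := hC.sub _ t2 (by simp)
  have hm : ∀ t ∈ insert ({a, b, c} : Finset Pt) (C.filter (fun t => v ∉ t)),
      t = {a, b, c} ∨ (t ∈ C ∧ v ∉ t) := by
    intro t ht
    rcases Finset.mem_insert.1 ht with h | h
    · exact Or.inl h
    · exact Or.inr (Finset.mem_filter.1 h)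
  have hdis : ∀ t ∈ C, v ∉ t → Disjoint (interior (convexHull ℝ (({a, b, c} : Finset Pt) : Set Pt)))
      (interior (convexHull ℝ (t : Set Pt))) := by
    intro t ht hvt
    rw [Set.disjoint_left]
    intro z hz hz'
    rw [coe3] at hz
    rcases Rem3.cov h1 h2 h3 (interior_subset hz) with h | h | h
    · exact Set.disjoint_left.1 (hC.disj_hull t1 ht (by rintro rfl; exact hvt (by simp))) h hz'
    · exact Set.disjoint_left.1 (hC.disj_hull t2 ht (by rintro rfl; exact hvt (by simp))) h hz'
    · exact Set.disjoint_left.1 (hC.disj_hull t3 ht (by rintro rfl; exact hvt (by simp))) h hz'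
  have habc : ({a, b, c} : Finset Pt) ⊆ B.erase v := by
    intro x hx
    simp only [Finset.mem_insert, Finset.mem_singleton] at hx
    rcases hx with rfl | rfl | rfl
    · exact Finset.mem_erase.2 ⟨m4.symm, haB⟩
    · exact Finset.mem_erase.2 ⟨m5.symm, hbB⟩
    · exact Finset.mem_erase.2 ⟨m6.symm, hcB⟩
  refine ⟨?_, ?_, ?_, ?_, ?_, ?_⟩
  · intro t ht
    rcases hm t ht with rfl | ⟨h, hvt⟩
    · exact habc
    · intro x hx
      exact Finset.mem_erase.2 ⟨fun h' => hvt (h' ▸ hx), hC.sub t h hx⟩
  · intro t ht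
    rcases hm t ht with rfl | ⟨h, hvt⟩
    · exact Finset.card_eq_three.2 ⟨a, b, c, m1, m2, m3, rfl⟩
    · exact hC.card t h
  · intro t ht
    rcases hm t ht with rfl | ⟨h, hvt⟩
    · rw [coe3, collinear_iff]; exact hD.ne'
    · exact hC.nondeg t h
  · intro s hs t ht hst
    rcases hm s hs with rfl | ⟨h, hvt⟩ <;> rcases hm t ht with rfl | ⟨h', hvt'⟩
    · exact absurd rfl hst
    · exact hdis t h' hvt'
    · exact (hdis s h hvt).symm
    · exact hC.disj s h t h' hst
  · apply Subset.antisymm
    · intro z hz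
      simp only [Set.mem_iUnion, exists_prop] at hz
      obtain ⟨t, ht, hz⟩ := hz
      rcases hm t ht with rfl | ⟨h, hvt⟩
      · exact convexHull_mono (Finset.coe_subset.2 habc) hz
      · refine convexHull_mono ?_ hz
        intro x hx
        exact Finset.mem_coe.2 (Finset.mem_erase.2
          ⟨fun h' => hvt (h' ▸ hx), hC.sub t h hx⟩)
    · intro z hz
      have hz' : z ∈ convexHull ℝ (B : Set Pt) :=
        convexHull_mono (Finset.coe_subset.2 (Finset.erase_subset _ _)) hz
      obtain ⟨t, ht, hzt⟩ := tri_mem_cover hC.toIs hz'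
      simp only [Set.mem_iUnion, exists_prop]
      by_cases hvt : v ∈ t
      · refine ⟨{a, b, c}, Finset.mem_insert_self _ _, ?_⟩
        rw [coe3]
        have hsub : ∀ s : Finset Pt, (∀ x ∈ s, x = v ∨ x = a ∨ x = b ∨ x = c) →
            convexHull ℝ (s : Set Pt) ⊆ convexHull ℝ ({a, b, c} : Set Pt) := by
          intro s hs
          apply convexHull_min _ (convex_convexHull ℝ _)
          intro x hx
          rcases hs x hx with rfl | rfl | rfl | rfl
          · exact hvm
          · exact subset_convexHull ℝ _ (by simp)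
          · exact subset_convexHull ℝ _ (by simp)
          · exact subset_convexHull ℝ _ (by simp)
        refine hsub t (fun x hx => ?_) hzt
        rcases honly t ht hvt with rfl | rfl | rfl <;>
          simp only [Finset.mem_insert, Finset.mem_singleton] at hx <;> tauto
      · exact ⟨t, Finset.mem_insert_of_mem (Finset.mem_filter.2 ⟨ht, hvt⟩), hzt⟩
  · intro t ht p hp hpt
    obtain ⟨hpv, hpB⟩ := Finset.mem_erase.1 hp
    rcases hm t ht with rfl | ⟨h, hvt⟩
    · rw [coe3] at hpt
      rcases Rem3.cov h1 h2 h3 hpt with h | h | h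
      · have := hC.strict _ t1 p hpB h
        simp only [Finset.mem_insert, Finset.mem_singleton] at this ⊢
        tauto
      · have := hC.strict _ t2 p hpB h
        simp only [Finset.mem_insert, Finset.mem_singleton] at this ⊢
        tauto
      · have := hC.strict _ t3 p hpB h
        simp only [Finset.mem_insert, Finset.mem_singleton] at this ⊢
        tauto
    · exact hC.strict t h p hpB hpt

/-! ### hull vertices -/

theorem Rem2.nbr (hB : GP B) (hC : STri B C) {v a b : Pt} (ha : HE B a v) (hb : HE B v b)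
    (t1 : {v, a, b} ∈ C) {x : Pt} (hx : Side C v x) : x = a ∨ x = b := by
  by_contra hcon
  push Not at hcon
  have hxB := (Side.mem hC hx).2
  have h1 := ha.pos hB hxB hcon.1 hx.1.symm
  have h2 := hb.pos hB hxB hx.1.symm hcon.2
  have hab : a ≠ b := by
    rintro rfl
    have := hC.card _ t1
    have h3 : ({v, a, a} : Finset Pt).card ≤ 2 := by
      have : ({v, a, a} : Finset Pt) = {v, a} := by ext z; simp
      rw [this]; exact Finset.card_le_two
    omega
  have h3 := hb.pos hB ha.1 ha.2.2.1 hab
  have e : ({v, b, a} : Finset Pt) = {v, a, b} := by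
    ext z; simp only [Finset.mem_insert, Finset.mem_singleton]; tauto
  exact hC.no_side_in (u := b) (p := a) (by rw [e]; exact t1) hx h2
    (by rw [show cr v x a = cr a v x by unfold cr; ring]; exact h1) h3

theorem Rem2.only (hB : GP B) (hC : STri B C) {v a b : Pt} (ha : HE B a v) (hb : HE B v b)
    (t1 : {v, a, b} ∈ C) : ∀ t ∈ C, v ∈ t → t = {v, a, b} := by
  intro t ht hvt
  have hsub : t ⊆ {v, a, b} := by
    intro x hx
    by_cases hxv : x = v
    · simp [hxv]
    · rcases Rem2.nbr hB hC ha hb t1 ⟨fun h => hxv h.symm, t, ht, hvt, hx⟩ with h | h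
      · simp [h]
      · simp [h]
  exact Finset.eq_of_subset_of_card_le hsub (by rw [hC.card t ht, hC.card _ t1])

theorem Rem2.line (hB : GP B) (hC : STri B C) {v a b : Pt} (ha : HE B a v) (hb : HE B v b)
    (t1 : {v, a, b} ∈ C) : cr a b v < 0 ∧ ∀ x ∈ B, x ≠ v → 0 ≤ cr a b x := by
  have hab : a ≠ b := by
    rintro rfl
    have := hC.card _ t1
    have h3 : ({v, a, a} : Finset Pt).card ≤ 2 := by
      have : ({v, a, a} : Finset Pt) = {v, a} := by ext z; simp
      rw [this]; exact Finset.card_le_two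
    omega
  have h0 : 0 < cr v b a := hb.pos hB ha.1 ha.2.2.1 hab
  refine ⟨by rw [show cr a b v = - cr v b a by unfold cr; ring]; linarith, ?_⟩
  intro x hx hxv
  by_cases hxa : x = a
  · rw [hxa, cr_self]
  by_cases hxb : x = b
  · rw [hxb, cr_self']
  have h1 := ha.pos hB hx hxa hxv
  have h2 := hb.pos hB hx hxv hxb
  by_contra hcon
  push Not at hcon
  have hm : x ∈ convexHull ℝ ({v, b, a} : Set Pt) := by
    apply mem_hull_of_cr h0 h2.le
    · rw [show cr b a x = - cr a b x by unfold cr; ring]; linarith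
    · exact h1.le
  have e : ({v, b, a} : Set Pt) = (({v, a, b} : Finset Pt) : Set Pt) := by
    rw [coe3]; ext z; simp only [Set.mem_insert_iff, Set.mem_singleton_iff]; tauto
  rw [e] at hm
  have := hC.strict _ t1 x hx hm
  simp only [Finset.mem_insert, Finset.mem_singleton] at this
  tauto

theorem Rem2.side (hB : GP B) (hC : STri B C) {v a b : Pt} (ha : HE B a v) (hb : HE B v b)
    (t1 : {v, a, b} ∈ C) {u w : Pt} (h : HE (B.erase v) u w) : Side C u w := by
  obtain ⟨hu, hw, huw, hall⟩ := h
  have huB := Finset.mem_of_mem_erase hu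
  have hwB := Finset.mem_of_mem_erase hw
  apply hC.side_of_noCross hB huB hwB huw
  intro s t hst hcr
  -- key: one of s, t is v
  have key : ∀ t, Side C v t → cr v t u * cr v t w < 0 → False := by
    intro t ht hneg
    rcases Rem2.nbr hB hC ha hb t1 ht with rfl | rfl
    · have h1 := ha.2.2.2 u huB
      have h2 := ha.2.2.2 w hwB
      have e1 : cr v t u = - cr t v u := by unfold cr; ring
      have e2 : cr v t w = - cr t v w := by unfold cr; ring
      rw [e1, e2] at hneg
      nlinarith
    · have h1 := hb.2.2.2 u huB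
      have h2 := hb.2.2.2 w hwB
      nlinarith
  obtain ⟨hsB, htB⟩ := Side.mem hC hst
  obtain ⟨k1, k2⟩ := hcr
  by_cases hsv : s = v
  · subst hsv
    exact key t hst k1
  by_cases htv : t = v
  · subst htv
    refine key s hst.symm ?_
    have e1 : cr t s u = - cr s t u := by unfold cr; ring
    have e2 : cr t s w = - cr s t w := by unfold cr; ring
    rw [e1, e2]; linarith
  have g1 := hall s (Finset.mem_erase.2 ⟨hsv, hsB⟩)
  have g2 := hall t (Finset.mem_erase.2 ⟨htv, htB⟩)
  nlinarith

/-- removing a hull vertex which is in one triangle only -/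
theorem Rem2.remove (hB : GP B) (hC : STri B C) (h3 : 4 ≤ B.card) {v a b : Pt} (ha : HE B a v)
    (hb : HE B v b) (t1 : {v, a, b} ∈ C) : STri (B.erase v) (C.filter (fun t => v ∉ t)) := by
  have hvB : v ∈ B := ha.2.1
  obtain ⟨l1, l2⟩ := Rem2.line hB hC ha hb t1
  have h := hC.toIs.restr (Q := B.erase v) (Finset.erase_subset _ _)
    (hB.mono (Finset.erase_subset _ _)) (by rw [Finset.card_erase_of_mem hvB]; omega)
    (by
      intro p hp hpc
      refine Finset.mem_erase.2 ⟨?_, hp⟩
      rintro rfl
      have : 0 ≤ cr a b p := cr_hull_nonneg (P := B.erase p)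
        (fun w hw => l2 w (Finset.mem_of_mem_erase hw) (Finset.ne_of_mem_erase hw)) hpc
      linarith)
    (by
      intro u hu w hw huw hall
      exact Rem2.side hB hC ha hb t1 ⟨hu, hw, huw, hall⟩)
  have e : restr C (B.erase v) = C.filter (fun t => v ∉ t) := by
    ext t
    rw [mem_restr, Finset.mem_filter]
    constructor
    · rintro ⟨h1, h2⟩
      exact ⟨h1, fun h => (Finset.notMem_erase v B) (h2 h)⟩
    · rintro ⟨h1, h2⟩
      refine ⟨h1, fun x hx => Finset.mem_erase.2 ⟨fun h' => h2 (h' ▸ hx), hC.sub t h1 hx⟩⟩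
  rw [e] at h
  exact h.strict (hB.mono (Finset.erase_subset _ _))

theorem Rem2.he (hB : GP B) (hC : STri B C) {v a b : Pt} (ha : HE B a v) (hb : HE B v b)
    (t1 : {v, a, b} ∈ C) {u w : Pt} (h : HE (B.erase v) u w) :
    HE B u w ∨ (u = a ∧ w = b) := by
  have hs := Rem2.side hB hC ha hb t1 h
  obtain ⟨hu, hw, huw, hall⟩ := h
  have huB := Finset.mem_of_mem_erase hu
  have hwB := Finset.mem_of_mem_erase hw
  rcases le_or_gt 0 (cr u w v) with h0 | h0
  · left
    refine ⟨huB, hwB, huw, fun x hx => ?_⟩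
    by_cases hxv : x = v
    · rw [hxv]; exact h0
    · exact hall x (Finset.mem_erase.2 ⟨hxv, hx⟩)
  · right
    obtain ⟨z, hz, hz0⟩ := hC.other hB hs ha.2.1 h0.ne
    have hz1 : cr u w z < 0 := (neg_iff_neg_of_mul_pos hz0).2 h0
    have hzv : z = v := by
      by_contra hne
      have := hall z (Finset.mem_erase.2 ⟨hne, hC.sub _ hz (by simp)⟩)
      linarith
    subst hzv
    have h1 := Rem2.only hB hC ha hb t1 _ hz (by simp)
    have hua : u ∈ ({z, a, b} : Finset Pt) := by rw [← h1]; simp
    have hwa : w ∈ ({z, a, b} : Finset Pt) := by rw [← h1]; simp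
    simp only [Finset.mem_insert, Finset.mem_singleton] at hua hwa
    have hl := (Rem2.line hB hC ha hb t1).1
    rcases hua with rfl | rfl | rfl
    · exact absurd rfl (Finset.ne_of_mem_erase hu)
    · rcases hwa with rfl | rfl | rfl
      · exact absurd rfl (Finset.ne_of_mem_erase hw)
      · exact absurd rfl huw
      · exact ⟨rfl, rfl⟩
    · rcases hwa with rfl | rfl | rfl
      · exact absurd rfl (Finset.ne_of_mem_erase hw)
      · rw [cr_swap] at hz1; linarith
      · exact absurd rfl huw

end MP91a79a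

end
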