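import Pool.Agent.Lib.MP_91a79a_co.Par

/-!
Restriction of a triangulation to a convex sub-region; hull edges (MP_91a79a_co).
-/

noncomputable section

namespace MP91a79a

open Set

/-! ### linear functionals -/

/-- a linear functional on the plane -/
def lf (α β : ℝ) (p : Pt) : ℝ := α * p.1 + β * p.2

theorem cr_lf (a b p : Pt) :
    cr a b p = lf (-(b.2 - a.2)) (b.1 - a.1) p - lf (-(b.2 - a.2)) (b.1 - a.1) a := by
  unfold cr lf; ring

theorem lf_sum (α β : ℝ) (Q : Finset Pt) (w : Pt → ℝ) :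
    lf α β (∑ y ∈ Q, w y • y) = ∑ y ∈ Q, w y * lf α β y := by
  unfold lf
  rw [Prod.fst_sum, Prod.snd_sum, Finset.mul_sum, Finset.mul_sum, ← Finset.sum_add_distrib]
  refine Finset.sum_congr rfl fun y _ => ?_
  simp only [Prod.smul_fst, Prod.smul_snd, smul_eq_mul]
  ring

theorem lf_add (α β : ℝ) (p q : Pt) : lf α β (p + q) = lf α β p + lf α β q := by
  unfold lf; simp only [Prod.fst_add, Prod.snd_add]; ring

theorem lf_smul (α β c : ℝ) (p : Pt) : lf α β (c • p) = c * lf α β p := by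
  unfold lf; simp only [Prod.smul_fst, Prod.smul_snd, smul_eq_mul]; ring

/-- a point of a convex hull where a functional is maximal is in the hull of the maximisers -/
theorem hull_max {Q : Finset Pt} {z : Pt} (hz : z ∈ convexHull ℝ (Q : Set Pt)) (α β c : ℝ)
    (hle : ∀ w ∈ Q, lf α β w ≤ c) (hzc : c ≤ lf α β z) :
    z ∈ convexHull ℝ ((Q.filter fun w => lf α β w = c : Finset Pt) : Set Pt) := by
  rw [Finset.mem_convexHull'] at hz
  obtain ⟨w, hw0, hw1, rfl⟩ := hz
  rw [lf_sum] at hzc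
  have h1 : ∑ y ∈ Q, w y * (c - lf α β y) = 0 := by
    apply le_antisymm
    · have : ∑ y ∈ Q, w y * (c - lf α β y) = c * ∑ y ∈ Q, w y - ∑ y ∈ Q, w y * lf α β y := by
        rw [Finset.mul_sum, ← Finset.sum_sub_distrib]
        exact Finset.sum_congr rfl fun y _ => by ring
      rw [this, hw1]; linarith
    · exact Finset.sum_nonneg fun y hy => mul_nonneg (hw0 y hy) (by linarith [hle y hy])
  have h2 : ∀ y ∈ Q, w y * (c - lf α β y) = 0 :=
    (Finset.sum_eq_zero_iff_of_nonneg fun y hy => mul_nonneg (hw0 y hy)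
      (by linarith [hle y hy])).1 h1
  have h3 : ∀ y ∈ Q, y ∉ Q.filter (fun w => lf α β w = c) → w y = 0 := by
    intro y hy hy'
    rw [Finset.mem_filter] at hy'
    rcases mul_eq_zero.1 (h2 y hy) with h | h
    · exact h
    · exact absurd ⟨hy, by linarith⟩ hy'
  rw [Finset.mem_convexHull']
  refine ⟨w, fun y hy => hw0 y (Finset.mem_filter.1 hy).1, ?_, ?_⟩
  · rw [← hw1]
    exact Finset.sum_subset (Finset.filter_subset _ _) h3
  · exact Finset.sum_subset (Finset.filter_subset _ _) fun y hy hy' => by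
      rw [h3 y hy hy', zero_smul]

theorem lf_collinear {α β : ℝ} (h0 : α ≠ 0 ∨ β ≠ 0) {a b c : Pt} (h1 : lf α β a = lf α β b)
    (h2 : lf α β a = lf α β c) : cr a b c = 0 := by
  unfold lf at h1 h2
  have e1 : α * (b.1 - a.1) = -(β * (b.2 - a.2)) := by linarith
  have e2 : α * (c.1 - a.1) = -(β * (c.2 - a.2)) := by linarith
  rcases h0 with h | h
  · have : α * cr a b c = 0 := by
      unfold cr
      linear_combination (c.2 - a.2) * e1 - (b.2 - a.2) * e2
    rcases mul_eq_zero.1 this with h3 | h3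
    · exact absurd h3 h
    · exact h3
  · have : β * cr a b c = 0 := by
      unfold cr
      linear_combination (b.1 - a.1) * e2 - (c.1 - a.1) * e1
    rcases mul_eq_zero.1 this with h3 | h3
    · exact absurd h3 h
    · exact h3

/-- two maximisers span a hull edge -/
theorem lf_edge {Q : Finset Pt} {α β : ℝ} (h0 : α ≠ 0 ∨ β ≠ 0) {u v : Pt}
    (huv : lf α β u = lf α β v) (hle : ∀ w ∈ Q, lf α β w ≤ lf α β u) :
    (∀ w ∈ Q, 0 ≤ cr u v w) ∨ (∀ w ∈ Q, 0 ≤ cr v u w) := by
  have hpos : 0 < α ^ 2 + β ^ 2 := by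
    rcases h0 with h | h
    · have := pow_pos (abs_pos.2 h) 2
      rw [sq_abs] at this
      nlinarith [sq_nonneg β]
    · have := pow_pos (abs_pos.2 h) 2
      rw [sq_abs] at this
      nlinarith [sq_nonneg α]
  have key : ∀ w, (α ^ 2 + β ^ 2) * cr u v w =
      ((v.1 - u.1) * β - (v.2 - u.2) * α) * (lf α β w - lf α β u) := by
    intro w
    unfold lf at huv
    have e1 : α * (v.1 - u.1) + β * (v.2 - u.2) = 0 := by linarith
    unfold cr lf
    linear_combination (α * (w.2 - u.2) - β * (w.1 - u.1)) * e1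
  rcases le_total ((v.1 - u.1) * β - (v.2 - u.2) * α) 0 with h | h
  · left
    intro w hw
    have h1 := mul_nonneg_of_nonpos_of_nonpos h (by linarith [hle w hw] :
      lf α β w - lf α β u ≤ 0)
    rw [← key w] at h1
    exact nonneg_of_mul_nonneg_right h1 hpos
  · right
    intro w hw
    have h1 := mul_nonpos_of_nonneg_of_nonpos h (by linarith [hle w hw] :
      lf α β w - lf α β u ≤ 0)
    rw [← key w] at h1
    rw [cr_swap]
    by_contra hcon
    push Not at hcon
    nlinarith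

/-! ### supporting lines -/

theorem int_nonempty_of_GP {Q : Finset Pt} (hQ : GP Q) (h3 : 3 ≤ Q.card) :
    (interior (convexHull ℝ (Q : Set Pt))).Nonempty := by
  obtain ⟨t, ht, htc⟩ := Finset.exists_subset_card_eq h3
  obtain ⟨a, b, c, hab, hac, hbc, rfl⟩ := Finset.card_eq_three.1 htc
  have h1 := hQ a (ht (by simp)) b (ht (by simp)) c (ht (by simp)) hab hac hbc
  refine (int_nonempty h1).mono (interior_mono (convexHull_mono ?_))
  rw [← coe3]
  exact Finset.coe_subset.2 ht

theorem support_line {Q : Finset Pt} (hint : (interior (convexHull ℝ (Q : Set Pt))).Nonempty)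
    {z : Pt} (hz : z ∉ interior (convexHull ℝ (Q : Set Pt))) :
    ∃ α β : ℝ, (α ≠ 0 ∨ β ≠ 0) ∧ ∀ w ∈ Q, lf α β w ≤ lf α β z := by
  obtain ⟨f, hf⟩ := geometric_hahn_banach_open_point
    (convex_convexHull ℝ (Q : Set Pt)).interior isOpen_interior hz
  have hfl : ∀ p : Pt, f p = lf (f (1, 0)) (f (0, 1)) p := by
    intro p
    have : p = p.1 • ((1, 0) : Pt) + p.2 • ((0, 1) : Pt) := by
      ext <;> simp
    conv_lhs => rw [this, map_add, map_smul, map_smul]
    unfold lf
    simp only [smul_eq_mul]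
    ring
  refine ⟨f (1, 0), f (0, 1), ?_, ?_⟩
  · by_contra hcon
    push Not at hcon
    obtain ⟨a, ha⟩ := hint
    have h1 := hf a ha
    rw [hfl a, hfl z, hcon.1, hcon.2] at h1
    simp [lf] at h1
  · intro w hw
    rw [← hfl, ← hfl]
    have h1 : w ∈ closure (interior (convexHull ℝ (Q : Set Pt))) := by
      rw [(convex_convexHull ℝ _).closure_interior_eq_closure_of_nonempty_interior hint]
      exact subset_closure (subset_convexHull ℝ _ hw)
    have h2 : IsClosed {a : Pt | f a ≤ f z} := isClosed_le f.continuous continuous_const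
    exact closure_minimal (fun a ha => (hf a ha).le) h2 h1

/-- a boundary point of the hull is a point of the set or on a hull edge -/
theorem frontier_hull {Q : Finset Pt} (hQ : GP Q)
    (hint : (interior (convexHull ℝ (Q : Set Pt))).Nonempty) {z : Pt}
    (hz : z ∈ convexHull ℝ (Q : Set Pt)) (hz' : z ∉ interior (convexHull ℝ (Q : Set Pt))) :
    z ∈ Q ∨ ∃ u ∈ Q, ∃ v ∈ Q, u ≠ v ∧ (∀ w ∈ Q, 0 ≤ cr u v w) ∧ z ∈ segment ℝ u v := by
  obtain ⟨α, β, h0, hle⟩ := support_line hint hz'
  have h1 := hull_max hz α β (lf α β z) hle le_rfl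
  set W := Q.filter (fun w => lf α β w = lf α β z) with hW
  have hWQ : ∀ w ∈ W, w ∈ Q ∧ lf α β w = lf α β z := fun w hw => Finset.mem_filter.1 hw
  have hne : W.Nonempty := by
    rw [Finset.nonempty_iff_ne_empty]
    rintro h
    rw [h] at h1
    simp at h1
  obtain ⟨u, hu⟩ := hne
  by_cases hall : ∀ w ∈ W, w = u
  · have : W = {u} := by
      ext w
      rw [Finset.mem_singleton]
      exact ⟨hall w, fun h => h ▸ hu⟩
    rw [this] at h1
    simp at h1
    left
    rw [h1]
    exact (hWQ u hu).1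
  · push Not at hall
    obtain ⟨v, hv, hvu⟩ := hall
    obtain ⟨huQ, hu1⟩ := hWQ u hu
    obtain ⟨hvQ, hv1⟩ := hWQ v hv
    have hsub : (W : Set Pt) ⊆ {u, v} := by
      intro w hw
      obtain ⟨hwQ, hw1⟩ := hWQ w hw
      by_contra hcon
      simp only [Set.mem_insert_iff, Set.mem_singleton_iff, not_or] at hcon
      exact hQ u huQ v hvQ w hwQ hvu.symm (fun h => hcon.1 h.symm) (fun h => hcon.2 h.symm)
        (lf_collinear h0 (hu1.trans hv1.symm) (hu1.trans hw1.symm))
    have h2 := convexHull_mono hsub h1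
    rw [convexHull_pair] at h2
    right
    rcases lf_edge (Q := Q) h0 (hu1.trans hv1.symm) (fun w hw => (hle w hw).trans hu1.ge)
      with h3 | h3
    · exact ⟨u, huQ, v, hvQ, hvu.symm, h3, h2⟩
    · exact ⟨v, hvQ, u, huQ, hvu, h3, by rwa [segment_symm]⟩

/-- a hull edge of `P` is a side of every triangulation -/
theorem hull_side {P : Finset Pt} {T : Finset (Finset Pt)} (hP : GP P)
    (hT : IsTriangulation P T) {u v : Pt} (hu : u ∈ P) (hv : v ∈ P) (huv : u ≠ v)
    (h : ∀ w ∈ P, 0 ≤ cr u v w) : Side T u v := by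
  set m : Pt := (1/2:ℝ) • u + (1/2:ℝ) • v with hm
  have hmP : m ∈ convexHull ℝ (P : Set Pt) := by
    have h1 := (convex_convexHull ℝ (P : Set Pt)) (subset_convexHull ℝ _ hu)
      (subset_convexHull ℝ _ hv) (a := 1/2) (b := 1/2) (by norm_num) (by norm_num) (by norm_num)
    exact h1
  obtain ⟨t, ht, hmt⟩ := tri_mem_cover hT hmP
  have hcm : cr u v m = 0 := by
    rw [hm, cr_comb2 _ _ _ _ _ _ (by norm_num), cr_self, cr_self']; ring
  set α := (v.2 - u.2) with hα
  set β := -(v.1 - u.1) with hβ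
  have hlf : ∀ p, lf α β p = lf α β u - cr u v p := by
    intro p; unfold lf cr; rw [hα, hβ]; ring
  have h1 := hull_max hmt α β (lf α β u)
    (fun w hw => by rw [hlf w]; linarith [h w (hT.sub t ht hw)]) (by rw [hlf m, hcm]; linarith)
  set W := t.filter (fun w => lf α β w = lf α β u) with hW
  have hW' : ∀ w ∈ W, w ∈ t ∧ (w = u ∨ w = v) := by
    intro w hw
    obtain ⟨h2, h3⟩ := Finset.mem_filter.1 hw
    refine ⟨h2, ?_⟩
    rw [hlf w] at h3
    by_contra hcon
    push Not at hcon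
    exact hP u hu v hv w (hT.sub t ht h2) huv hcon.1.symm hcon.2.symm (by linarith)
  have hne1 : m ≠ v := by
    intro h2
    apply huv
    have h3 : (1/2:ℝ) • u + (1/2:ℝ) • v = v := by rw [← hm]; exact h2
    have h4 : (1/2:ℝ) • u = (1/2:ℝ) • v := by
      have h5 : (1/2:ℝ) • u = v - (1/2:ℝ) • v := eq_sub_of_add_eq h3
      rw [h5]; module
    exact smul_right_injective Pt (by norm_num : (1/2:ℝ) ≠ 0) h4
  have hne2 : m ≠ u := by
    intro h2
    apply huv
    have h3 : (1/2:ℝ) • u + (1/2:ℝ) • v = u := by rw [← hm]; exact h2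
    have h4 : (1/2:ℝ) • u = (1/2:ℝ) • v := by
      have h5 : (1/2:ℝ) • v = u - (1/2:ℝ) • u := eq_sub_of_add_eq' h3
      rw [h5]; module
    exact smul_right_injective Pt (by norm_num : (1/2:ℝ) ≠ 0) h4
  refine ⟨huv, t, ht, ?_, ?_⟩
  · by_contra hut
    have : (W : Set Pt) ⊆ {v} := by
      intro w hw
      obtain ⟨h2, h3 | h3⟩ := hW' w hw
      · exact absurd (h3 ▸ h2) hut
      · exact h3
    have h2 := convexHull_mono this h1
    rw [convexHull_singleton] at h2
    exact hne1 h2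
  · by_contra hvt
    have : (W : Set Pt) ⊆ {u} := by
      intro w hw
      obtain ⟨h2, h3 | h3⟩ := hW' w hw
      · exact h3
      · exact absurd (h3 ▸ h2) hvt
    have h2 := convexHull_mono this h1
    rw [convexHull_singleton] at h2
    exact hne2 h2

/-! ### restriction -/

/-- the triangles of `T` with all vertices in `Q` -/
def restr (T : Finset (Finset Pt)) (Q : Finset Pt) : Finset (Finset Pt) := T.filter (· ⊆ Q)

theorem mem_restr {T : Finset (Finset Pt)} {Q t : Finset Pt} : t ∈ restr T Q ↔ t ∈ T ∧ t ⊆ Q :=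
  Finset.mem_filter

theorem restr_sub (T : Finset (Finset Pt)) (Q : Finset Pt) : restr T Q ⊆ T :=
  Finset.filter_subset _ _

/-- a side of `T` is disjoint from the interior of every triangle of `T` -/
theorem side_disj_int {P : Finset Pt} {T : Finset (Finset Pt)} (hT : IsTriangulation P T)
    {u v : Pt} (h : Side T u v) {t : Finset Pt} (ht : t ∈ T) {z : Pt} (hz : z ∈ segment ℝ u v) :
    z ∉ interior (convexHull ℝ (t : Set Pt)) := by
  intro hzi
  obtain ⟨huv, s, hs, hus, hvs⟩ := h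
  have hzs : z ∈ convexHull ℝ (s : Set Pt) := by
    rw [← convexHull_pair] at hz
    refine convexHull_mono ?_ hz
    rintro x (rfl | rfl)
    · exact hus
    · exact hvs
  by_cases hst : s = t
  · subst hst
    obtain ⟨c, hc, hcr⟩ := repr_edge (hT.card s hs) (hT.nondeg s hs) huv hus hvs
    obtain ⟨x, y, hx, hy, hxy, rfl⟩ := hz
    rw [hc, coe3] at hzi
    have h0 : cr u v (x • u + y • v) = 0 := by
      rw [cr_comb2 _ _ _ _ _ _ hxy, cr_self, cr_self']; ring
    rcases lt_or_gt_of_ne hcr with h1 | h1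
    · have h2 : 0 < cr v u c := by rw [cr_swap]; linarith
      have e : ({u, v, c} : Set Pt) = {v, u, c} := Set.insert_comm _ _ _
      rw [e] at hzi
      have := (cr_of_int h2 hzi).1
      rw [cr_swap, h0] at this
      linarith
    · have := (cr_of_int h1 hzi).1
      rw [h0] at this
      linarith
  · exact Set.disjoint_left.1 (tri_disj_of_int hT hs isOpen_interior (hT.disj s hs t ht hst))
      hzs hzi

/-- dichotomy: a triangle is in the region or outside -/
theorem restr_dich {P : Finset Pt} {T : Finset (Finset Pt)} (hT : IsTriangulation P T)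
    {Q : Finset Pt} (hQ : Q ⊆ P) (hG : GP Q) (h3 : 3 ≤ Q.card)
    (hQP : ∀ p ∈ P, p ∈ convexHull ℝ (Q : Set Pt) → p ∈ Q)
    (hull : ∀ u ∈ Q, ∀ v ∈ Q, u ≠ v → (∀ w ∈ Q, 0 ≤ cr u v w) → Side T u v)
    {t : Finset Pt} (ht : t ∈ T) :
    t ⊆ Q ∨ Disjoint (interior (convexHull ℝ (t : Set Pt))) (convexHull ℝ (Q : Set Pt)) := by
  by_contra hcon
  push Not at hcon
  obtain ⟨h1, h2⟩ := hcon
  rw [Set.not_disjoint_iff] at h2
  obtain ⟨z0, hz0, hz0'⟩ := h2
  obtain ⟨p, hpt, hpQ⟩ := Finset.not_subset.1 h1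
  have hpP := hT.sub t ht hpt
  have hp' : p ∉ convexHull ℝ (Q : Set Pt) := fun h => hpQ (hQP p hpP h)
  have hcl : IsClosed (convexHull ℝ (Q : Set Pt)) :=
    (Q.finite_toSet.isCompact_convexHull ℝ).isClosed
  have hpc : p ∈ closure (interior (convexHull ℝ (t : Set Pt))) := by
    rw [(convex_convexHull ℝ _).closure_interior_eq_closure_of_nonempty_interior
      (tri_int_nonempty hT ht)]
    exact subset_closure (subset_convexHull ℝ _ hpt)
  obtain ⟨z1, hz1, hz1'⟩ := mem_closure_iff.1 hpc _ hcl.isOpen_compl hp'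
  have hpre : IsPreconnected (interior (convexHull ℝ (t : Set Pt))) :=
    (convex_convexHull ℝ (t : Set Pt)).interior.isPreconnected
  obtain ⟨z, hz, hz'⟩ : ∃ z ∈ interior (convexHull ℝ (t : Set Pt)),
      z ∈ convexHull ℝ (Q : Set Pt) ∧ z ∉ interior (convexHull ℝ (Q : Set Pt)) := by
    by_contra hno
    push Not at hno
    have hsub : interior (convexHull ℝ (t : Set Pt)) ⊆
        interior (convexHull ℝ (Q : Set Pt)) ∪ (convexHull ℝ (Q : Set Pt))ᶜ := by
      intro z hz
      by_cases hzQ : z ∈ convexHull ℝ (Q : Set Pt)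
      · exact Or.inl (hno z hz hzQ)
      · exact Or.inr hzQ
    obtain ⟨z, -, hz2, hz3⟩ := hpre _ _ isOpen_interior hcl.isOpen_compl hsub
      ⟨z0, hz0, hno z0 hz0 hz0'⟩ ⟨z1, hz1', hz1⟩
    exact hz3 (interior_subset hz2)
  rcases frontier_hull hG (int_nonempty_of_GP hG h3) hz'.1 hz'.2 with h4 | ⟨u, hu, v, hv, huv, h4, h5⟩
  · exact hT.empty t ht z (hQ h4) hz
  · exact side_disj_int hT (hull u hu v hv huv h4) ht h5 hz

theorem IsTriangulation.restr {P : Finset Pt} {T : Finset (Finset Pt)}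
    (hT : IsTriangulation P T) {Q : Finset Pt} (hQ : Q ⊆ P) (hG : GP Q) (h3 : 3 ≤ Q.card)
    (hQP : ∀ p ∈ P, p ∈ convexHull ℝ (Q : Set Pt) → p ∈ Q)
    (hull : ∀ u ∈ Q, ∀ v ∈ Q, u ≠ v → (∀ w ∈ Q, 0 ≤ cr u v w) → Side T u v) :
    IsTriangulation Q (restr T Q) := by
  refine ⟨?_, ?_, ?_, ?_, ?_, ?_⟩
  · exact fun t ht => (mem_restr.1 ht).2
  · exact fun t ht => hT.card t (mem_restr.1 ht).1
  · exact fun t ht => hT.nondeg t (mem_restr.1 ht).1
  · exact fun s hs t ht => hT.disj s (mem_restr.1 hs).1 t (mem_restr.1 ht).1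
  · apply Subset.antisymm
    · intro z hz
      simp only [Set.mem_iUnion, exists_prop] at hz
      obtain ⟨t, ht, hz⟩ := hz
      exact convexHull_mono (Finset.coe_subset.2 (mem_restr.1 ht).2) hz
    · set K := ⋃ t ∈ MP91a79a.restr T Q, convexHull ℝ (t : Set Pt) with hK
      have hKc : IsClosed K := by
        apply isClosed_biUnion_finset
        intro t _
        exact (t.finite_toSet.isCompact_convexHull ℝ).isClosed
      have hint := int_nonempty_of_GP hG h3
      have h1 : interior (convexHull ℝ (Q : Set Pt)) ⊆ K := by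
        intro z hz
        by_contra hzK
        have hzP : z ∈ convexHull ℝ (P : Set Pt) :=
          convexHull_mono (Finset.coe_subset.2 hQ) (interior_subset hz)
        obtain ⟨t, ht, hzt⟩ := tri_mem_cover hT hzP
        rcases restr_dich hT hQ hG h3 hQP hull ht with h2 | h2
        · apply hzK
          rw [hK]
          simp only [Set.mem_iUnion, exists_prop]
          exact ⟨t, mem_restr.2 ⟨ht, h2⟩, hzt⟩
        · exact Set.disjoint_left.1 (tri_disj_of_int hT ht isOpen_interior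
            (h2.mono_right interior_subset)) hzt hz
      have h2 : closure (interior (convexHull ℝ (Q : Set Pt))) ⊆ K := closure_minimal h1 hKc
      rw [(convex_convexHull ℝ _).closure_interior_eq_closure_of_nonempty_interior hint] at h2
      exact subset_closure.trans h2
  · exact fun t ht p hp => hT.empty t (mem_restr.1 ht).1 p (hQ hp)

/-- a triangle whose interior meets one of the regions is in the region -/
theorem restr_cover {P : Finset Pt} {T : Finset (Finset Pt)} (hT : IsTriangulation P T)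
    {ι : Type*} [DecidableEq ι] (I : Finset ι) (Q : ι → Finset Pt) (hQ : ∀ i ∈ I, Q i ⊆ P)
    (hG : GP P) (h3 : ∀ i ∈ I, 3 ≤ (Q i).card)
    (hQP : ∀ i ∈ I, ∀ p ∈ P, p ∈ convexHull ℝ (Q i : Set Pt) → p ∈ Q i)
    (hull : ∀ i ∈ I, ∀ u ∈ Q i, ∀ v ∈ Q i, u ≠ v → (∀ w ∈ Q i, 0 ≤ cr u v w) → Side T u v)
    (hcov : ∀ z ∈ convexHull ℝ (P : Set Pt), ∃ i ∈ I, z ∈ convexHull ℝ (Q i : Set Pt)) :
    I.biUnion (fun i => MP91a79a.restr T (Q i)) = T := by
  ext t
  rw [Finset.mem_biUnion]
  constructor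
  · rintro ⟨i, -, ht⟩
    exact (mem_restr.1 ht).1
  · intro ht
    obtain ⟨z, hz⟩ := tri_int_nonempty hT ht
    obtain ⟨i, hi, hzi⟩ := hcov z (tri_hull_sub hT ht (interior_subset hz))
    rcases restr_dich hT (hQ i hi) (hG.mono (hQ i hi)) (h3 i hi) (hQP i hi) (hull i hi) ht
      with h2 | h2
    · exact ⟨i, hi, mem_restr.2 ⟨ht, h2⟩⟩
    · exact absurd hzi (Set.disjoint_left.1 h2 hz)

/-- two triangulations containing all boundary edges of the regions of a subdivision are joined
region by region -/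
theorem Reach.of_restr {P : Finset Pt} {T T' : Finset (Finset Pt)} (hT : IsTriangulation P T)
    (hT' : IsTriangulation P T')
    {ι : Type*} [DecidableEq ι] (I : Finset ι) (Q : ι → Finset Pt) (hQ : ∀ i ∈ I, Q i ⊆ P)
    (hG : GP P) (h3 : ∀ i ∈ I, 3 ≤ (Q i).card)
    (hQP : ∀ i ∈ I, ∀ p ∈ P, p ∈ convexHull ℝ (Q i : Set Pt) → p ∈ Q i)
    (hd : ∀ i ∈ I, ∀ j ∈ I, i ≠ j → Disjoint (interior (convexHull ℝ (Q i : Set Pt)))
      (interior (convexHull ℝ (Q j : Set Pt))))
    (hcov : ∀ z ∈ convexHull ℝ (P : Set Pt), ∃ i ∈ I, z ∈ convexHull ℝ (Q i : Set Pt))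
    (hull : ∀ i ∈ I, ∀ u ∈ Q i, ∀ v ∈ Q i, u ≠ v → (∀ w ∈ Q i, 0 ≤ cr u v w) → Side T u v)
    (hull' : ∀ i ∈ I, ∀ u ∈ Q i, ∀ v ∈ Q i, u ≠ v → (∀ w ∈ Q i, 0 ≤ cr u v w) → Side T' u v)
    (k : ℕ)
    (hR : ∀ i ∈ I, Reach (Q i) k (MP91a79a.restr T (Q i)) (MP91a79a.restr T' (Q i))) :
    Reach P k T T' := by
  have h := Reach.parallel I hT Q (fun i => MP91a79a.restr T (Q i))
    (fun i => MP91a79a.restr T' (Q i)) k hQ hQP (fun i _ => restr_sub _ _) hd hR
  have e1 := restr_cover hT I Q hQ hG h3 hQP hull hcov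
  have e2 := restr_cover hT' I Q hQ hG h3 hQP hull' hcov
  rw [e1, e2, Finset.sdiff_self, Finset.empty_union] at h
  exact h

end MP91a79a

end
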