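import Pool.Agent.Lib.MP_91a79a_co.Lift

/-!
Rounds of coarse flips at an independent set of vertices (MP_91a79a_co): coarsening, part 6.
-/

noncomputable section

namespace MP91a79a

open Set Classical

variable {B P : Finset Pt} {C T : Finset (Finset Pt)} {F : ℕ}

/-- the neighbours of `v` -/
def lk (B : Finset Pt) (C : Finset (Finset Pt)) (v : Pt) : Finset Pt := B.filter (Side C v)

theorem mem_lk (hC : STri B C) {v x : Pt} : x ∈ lk B C v ↔ Side C v x := by
  unfold lk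
  rw [Finset.mem_filter]
  exact ⟨fun h => h.2, fun h => ⟨(Side.mem hC h).2, h⟩⟩

/-- an independent set of vertices with small stars, all of which may be removed -/
structure Good (P B : Finset Pt) (C : Finset (Finset Pt)) (F : ℕ) (I : Finset Pt) : Prop where
  sub : I ⊆ B
  ind : ∀ t ∈ C, ∀ v ∈ I, ∀ v' ∈ I, v ∈ t → v' ∈ t → v = v'
  ok : ∀ v ∈ I, ¬ HV B v ∨ Ear B v
  zb : ∀ v ∈ I, (Zs P B C v).card ≤ F

theorem CS.round (hG : GP P) (hT : IsTriangulation P T) (h : CS P B C T F) {I : Finset Pt}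
    (hI : Good P B C F I) (d : ℕ)
    (hdeg : ∀ v ∈ I, (Rem3 C v ∨ Rem2 B C v) ∨ (lk B C v).card ≤ d + 1) :
    ∃ C' T', Reach P F T T' ∧ CS P B C' T' F ∧ Good P B C' F I ∧
      ∀ v ∈ I, (Rem3 C' v ∨ Rem2 B C' v) ∨ (lk B C' v).card ≤ d := by
  have hB := hG.mono h.sub
  have hC := h.tri
  set J := I.filter (fun v => ¬ (Rem3 C v ∨ Rem2 B C v)) with hJ
  have hJm : ∀ v ∈ J, v ∈ I ∧ ¬ (Rem3 C v ∨ Rem2 B C v) := fun v hv => Finset.mem_filter.1 hv
  have hex : ∀ v, ∃ q : FlipData, v ∈ J → q.a = v ∧ {q.a, q.b, q.c} ∈ C ∧ {q.a, q.b, q.d} ∈ C ∧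
      Cross q.a q.b q.c q.d := by
    intro v
    by_cases hv : v ∈ J
    · obtain ⟨hvI, hvR⟩ := hJm v hv
      rcases hC.flip_ex hB (hI.sub hvI) (hI.ok v hvI) with ⟨u, p, q, h1, h2, h3⟩ | h'
      · exact ⟨⟨v, u, p, q⟩, fun _ => ⟨rfl, h1, h2, h3⟩⟩
      · exact absurd h' hvR
    · exact ⟨⟨v, v, v, v⟩, fun h => absurd h hv⟩
  choose dat hdat using hex
  set Fl := J.image dat with hFl
  have hFlm : ∀ q ∈ Fl, ∃ v ∈ J, dat v = q := fun q hq => Finset.mem_image.1 hq
  have hF : ∀ q ∈ Fl, {q.a, q.b, q.c} ∈ C ∧ {q.a, q.b, q.d} ∈ C ∧ Cross q.a q.b q.c q.d := by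
    intro q hq
    obtain ⟨v, hv, rfl⟩ := hFlm q hq
    exact (hdat v hv).2
  have hd : ∀ q ∈ Fl, ∀ q' ∈ Fl, q ≠ q' → ∀ t ∈ C,
      ¬ (q.a ∈ t ∧ q.b ∈ t ∧ q'.a ∈ t ∧ q'.b ∈ t) := by
    intro q hq q' hq' hne t ht ⟨k1, k2, k3, k4⟩
    obtain ⟨v, hv, rfl⟩ := hFlm q hq
    obtain ⟨v', hv', rfl⟩ := hFlm q' hq'
    rw [(hdat v hv).1] at k1
    rw [(hdat v' hv').1] at k3
    exact hne (by rw [hI.ind t ht v (hJm v hv).1 v' (hJm v' hv').1 k1 k3])
  -- the vertices of the flips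
  have hvtx : ∀ v ∈ J, (dat v).a = v ∧ (dat v).b ∉ I ∧ (dat v).c ∉ I ∧ (dat v).d ∉ I := by
    intro v hv
    obtain ⟨e, t1, t2, hx⟩ := hdat v hv
    obtain ⟨n1, n2, n3, -, -, -⟩ := hx.distinct
    have hvI := (hJm v hv).1
    refine ⟨e, ?_, ?_, ?_⟩
    · intro hm
      exact n1 (by rw [e]; exact hI.ind _ t1 v hvI _ hm (by rw [e]; simp) (by simp))
    · intro hm
      exact n2 (by rw [e]; exact hI.ind _ t1 v hvI _ hm (by rw [e]; simp) (by simp))
    · intro hm
      exact n3 (by rw [e]; exact hI.ind _ t2 v hvI _ hm (by rw [e]; simp) (by simp))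
  have hquad : ∀ v ∈ J, ∀ y ∈ P, y ∈ convexHull ℝ
      (({(dat v).a, (dat v).b, (dat v).c, (dat v).d} : Finset Pt) : Set Pt) →
      ∃ t ∈ C, v ∈ t ∧ y ∈ convexHull ℝ (t : Set Pt) := by
    intro v hv y hy hy'
    obtain ⟨e, t1, t2, hx⟩ := hdat v hv
    rw [hx.conv4] at hy'
    rcases hy' with hy' | hy'
    · exact ⟨_, t1, by rw [e]; simp, hy'⟩
    · exact ⟨_, t2, by rw [e]; simp, hy'⟩
  have hK : ∀ q ∈ Fl, (pin P {q.a, q.b, q.c, q.d}).card ≤ F := by
    intro q hq
    obtain ⟨v, hv, rfl⟩ := hFlm q hq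
    refine le_trans (Finset.card_le_card ?_) (hI.zb v (hJm v hv).1)
    intro y hy
    obtain ⟨hyP, hy⟩ := mem_pin.1 hy
    exact mem_Zs.2 ⟨hyP, Or.inl (hquad v hv y hyP hy)⟩
  obtain ⟨T', hR, hCS⟩ := h.lift hG hT Fl hF hd hK
  set C' := (C \ Fl.biUnion FlipData.old) ∪ Fl.biUnion FlipData.new with hC'def
  -- triangles of C'
  have hm : ∀ t ∈ C', (t ∈ C ∧ t ∉ Fl.biUnion FlipData.old) ∨
      ∃ v ∈ J, t = {v, (dat v).c, (dat v).d} ∨ t = {(dat v).b, (dat v).c, (dat v).d} := by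
    intro t ht
    rcases Finset.mem_union.1 ht with ht | ht
    · exact Or.inl (Finset.mem_sdiff.1 ht)
    · obtain ⟨q, hq, htq⟩ := Finset.mem_biUnion.1 ht
      obtain ⟨v, hv, rfl⟩ := hFlm q hq
      unfold FlipData.new at htq
      rw [Finset.mem_insert, Finset.mem_singleton] at htq
      rw [(hdat v hv).1] at htq
      exact Or.inr ⟨v, hv, htq⟩
  have hnewI : ∀ v ∈ J, ∀ t : Finset Pt, (t = {v, (dat v).c, (dat v).d} ∨ t = {(dat v).b, (dat v).c, (dat v).d}) →
      ∀ x ∈ I, x ∈ t → x = v ∧ t = {v, (dat v).c, (dat v).d} := by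
    intro v hv t ht x hx hxt
    obtain ⟨-, m1, m2, m3⟩ := hvtx v hv
    rcases ht with rfl | rfl
    · refine ⟨?_, rfl⟩
      rw [Finset.mem_insert, Finset.mem_insert, Finset.mem_singleton] at hxt
      rcases hxt with h' | h' | h'
      · exact h'
      · exact absurd (h' ▸ hx) m2
      · exact absurd (h' ▸ hx) m3
    · exfalso
      rw [Finset.mem_insert, Finset.mem_insert, Finset.mem_singleton] at hxt
      rcases hxt with h' | h' | h'
      · exact absurd (h' ▸ hx) m1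
      · exact absurd (h' ▸ hx) m2
      · exact absurd (h' ▸ hx) m3
  have hkeep : ∀ x ∈ I, x ∉ J → ∀ t ∈ C, x ∈ t → t ∈ C' := by
    intro x hx hxJ t ht hxt
    refine Finset.mem_union_left _ (Finset.mem_sdiff.2 ⟨ht, fun hmem => ?_⟩)
    obtain ⟨q, hq, htq⟩ := Finset.mem_biUnion.1 hmem
    obtain ⟨v, hv, rfl⟩ := hFlm q hq
    have hvt : v ∈ t := by
      unfold FlipData.old at htq
      rw [Finset.mem_insert, Finset.mem_singleton, (hdat v hv).1] at htq
      rcases htq with rfl | rfl <;> simp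
    exact hxJ (by rw [hI.ind t ht x hx v (hJm v hv).1 hxt hvt]; exact hv)
  refine ⟨C', T', hR, hCS, ⟨hI.sub, ?_, hI.ok, ?_⟩, ?_⟩
  · intro t ht x hx y hy hxt hyt
    rcases hm t ht with ⟨htC, -⟩ | ⟨v, hv, htn⟩
    · exact hI.ind t htC x hx y hy hxt hyt
    · rw [(hnewI v hv t htn x hx hxt).1, (hnewI v hv t htn y hy hyt).1]
  · intro x hx
    refine le_trans (Finset.card_le_card ?_) (hI.zb x hx)
    intro y hy
    obtain ⟨hyP, hy⟩ := mem_Zs.1 hy
    refine mem_Zs.2 ⟨hyP, ?_⟩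
    rcases hy with ⟨t, ht, hxt, hyt⟩ | hy
    · left
      rcases hm t ht with ⟨htC, -⟩ | ⟨v, hv, htn⟩
      · exact ⟨t, htC, hxt, hyt⟩
      · obtain ⟨rfl, rfl⟩ := hnewI v hv t htn x hx hxt
        refine hquad x hv y hyP (convexHull_mono ?_ hyt)
        rw [(hdat x hv).1]
        intro z hz
        simp only [Finset.coe_insert, Finset.coe_singleton, Set.mem_insert_iff,
          Set.mem_singleton_iff] at hz ⊢
        tauto
    · exact Or.inr hy
  · intro x hx
    by_cases hxJ : x ∈ J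
    · right
      have hdx := hdeg x hx
      rcases hdx with hdx | hdx
      · exact absurd hdx (hJm x hxJ).2
      obtain ⟨e, t1, t2, hX⟩ := hdat x hxJ
      obtain ⟨n1, n2, n3, n4, n5, n6⟩ := hX.distinct
      rw [e] at t1 t2 n1 n2 n3 hX
      have hulk : (dat x).b ∈ lk B C x := (mem_lk hC).2 ⟨n1, _, t1, by simp, by simp⟩
      have hsub : lk B C' x ⊆ (lk B C x).erase (dat x).b := by
        intro y hy
        rw [mem_lk hCS.tri] at hy
        obtain ⟨hne, t, ht, hxt, hyt⟩ := hy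
        rw [Finset.mem_erase, mem_lk hC]
        rcases hm t ht with ⟨htC, hold⟩ | ⟨v, hv, htn⟩
        · refine ⟨?_, hne, t, htC, hxt, hyt⟩
          rintro rfl
          apply hold
          refine Finset.mem_biUnion.2 ⟨dat x, Finset.mem_image_of_mem _ hxJ, ?_⟩
          unfold FlipData.old
          rw [Finset.mem_insert, Finset.mem_singleton, e]
          rcases tri_edge_two hC.toIs x (dat x).b n1 t htC _ t1 _ t2 hxt hyt (by simp) (by simp)
            (by simp) (by simp) with h' | h' | h'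
          · exact Or.inl h'
          · exact Or.inr h'
          · exfalso
            have : (dat x).c ∈ ({x, (dat x).b, (dat x).d} : Finset Pt) := by rw [← h']; simp
            rw [Finset.mem_insert, Finset.mem_insert, Finset.mem_singleton] at this
            rcases this with h'' | h'' | h''
            · exact n2 h''.symm
            · exact n4 h''.symm
            · exact n6 h''
        · obtain ⟨rfl, rfl⟩ := hnewI v hv t htn x hx hxt
          rw [Finset.mem_insert, Finset.mem_insert, Finset.mem_singleton] at hyt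
          rcases hyt with rfl | rfl | rfl
          · exact absurd rfl hne
          · exact ⟨n4.symm, n2, _, t1, by simp, by simp⟩
          · exact ⟨n5.symm, n3, _, t2, by simp, by simp⟩
      have h1 := Finset.card_le_card hsub
      rw [Finset.card_erase_of_mem hulk] at h1
      omega
    · left
      have hrem : Rem3 C x ∨ Rem2 B C x := by
        by_contra hcon
        exact hxJ (Finset.mem_filter.2 ⟨hx, hcon⟩)
      have hk := hkeep x hx hxJ
      rcases hrem with ⟨a, b, c, h1, h2, h3, t1, t2, t3⟩ | ⟨a, b, ha, hb, t1⟩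
      · exact Or.inl ⟨a, b, c, h1, h2, h3, hk _ t1 (by simp), hk _ t2 (by simp),
          hk _ t3 (by simp)⟩
      · exact Or.inr ⟨a, b, ha, hb, hk _ t1 (by simp)⟩

theorem CS.flips (hG : GP P) {I : Finset Pt} (d : ℕ) : ∀ (C T : Finset (Finset Pt)),
    IsTriangulation P T → CS P B C T F → Good P B C F I →
    (∀ v ∈ I, (Rem3 C v ∨ Rem2 B C v) ∨ (lk B C v).card ≤ d) →
    ∃ C' T', Reach P (d * F) T T' ∧ CS P B C' T' F ∧ Good P B C' F I ∧
      ∀ v ∈ I, Rem3 C' v ∨ Rem2 B C' v := by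
  induction d with
  | zero =>
    intro C T hT h hI hdeg
    refine ⟨C, T, by rw [Nat.zero_mul]; exact Reach.refl T hT, h, hI, fun v hv => ?_⟩
    rcases hdeg v hv with h' | h'
    · exact h'
    · rcases h.tri.flip_ex (hG.mono h.sub) (hI.sub hv) (hI.ok v hv) with ⟨u, p, q, t1, -, hx⟩ | h''
      · exfalso
        have : u ∈ lk B C v := (mem_lk h.tri).2 ⟨hx.distinct.1, _, t1, by simp, by simp⟩
        have := Finset.card_pos.2 ⟨u, this⟩
        omega
      · exact h''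
  | succ d ih =>
    intro C T hT h hI hdeg
    obtain ⟨C1, T1, hR1, h1, hI1, hdeg1⟩ := h.round hG hT hI d hdeg
    obtain ⟨C2, T2, hR2, h2, hI2, hdeg2⟩ := ih C1 T1 hR1.tri_right h1 hI1 hdeg1
    refine ⟨C2, T2, (hR1.trans hR2).mono ?_, h2, hI2, hdeg2⟩
    rw [Nat.succ_mul]
    omega

/-- one step of the coarsening -/
theorem CS.step (hG : GP P) (hT : IsTriangulation P T) (h : CS P B C T F) {I : Finset Pt}
    (hI : Good P B C F I) (d : ℕ) (hdeg : ∀ v ∈ I, (lk B C v).card ≤ d)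
    (hcard : I.card + 3 ≤ B.card) :
    ∃ C' T', Reach P (d * F) T T' ∧ CS P (B \ I) C' T' F := by
  obtain ⟨C1, T1, hR1, h1, hI1, hrem⟩ := CS.flips hG d C T hT h hI (fun v hv => Or.inr (hdeg v hv))
  obtain ⟨C2, h2⟩ := CS.remove_all hG I B C1 h1 hI1.sub hI1.ind hrem hI1.zb hcard
  exact ⟨C2, T1, hR1, h2⟩

end MP91a79a

end
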