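import Pool.Agent.Lib.MP_91a79a_co.Round
import Pool.Agent.Lib.MP_91a79a_co.Cnt

/-!
Selection of a large independent set of removable vertices with small stars (MP_91a79a_co):
coarsening, part 7.
-/

noncomputable section

namespace MP91a79a

open Set Classical

variable {B P : Finset Pt} {C T : Finset (Finset Pt)} {F : ℕ}

/-! ### caps are disjoint -/

theorem HV.insert {v z : Pt} (hv : HV P v) (hz : z ∈ convexHull ℝ (P : Set Pt)) :
    HV (insert z P) v := by
  obtain ⟨α, β, h0, h⟩ := hv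
  refine ⟨α, β, h0, fun w hw => ?_⟩
  rcases Finset.mem_insert.1 hw with rfl | hw
  · exact lf_hull_le h hz
  · exact h w hw

theorem cap_disj (hG : GP P) (hBP : B ⊆ P) (hv : ∀ b ∈ B, HV B b → HV P b) {u w u' w' : Pt}
    (h : HE B u w) (h' : HE B u' w') {z : Pt} (hz : z ∈ convexHull ℝ (P : Set Pt))
    (hc : cr u w z < 0) (hc' : cr u' w' z < 0) : u = u' ∧ w = w' := by
  have hB := hG.mono hBP
  have hvu := (hv u h.1 h.hv_left).insert hz
  have hvw := (hv w h.2.1 h.hv_right).insert hz
  have hvu' := (hv u' h'.1 h'.hv_left).insert hz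
  have hvw' := (hv w' h'.2.1 h'.hv_right).insert hz
  have mz : z ∈ insert z P := Finset.mem_insert_self _ _
  have mu : u ∈ insert z P := Finset.mem_insert_of_mem (hBP h.1)
  have mw : w ∈ insert z P := Finset.mem_insert_of_mem (hBP h.2.1)
  have mu' : u' ∈ insert z P := Finset.mem_insert_of_mem (hBP h'.1)
  have mw' : w' ∈ insert z P := Finset.mem_insert_of_mem (hBP h'.2.1)
  by_cases e1 : u = u'
  · subst e1; exact ⟨rfl, h.succ_unique hB h'⟩
  by_cases e2 : w = w'
  · subst e2; exact ⟨h.pred_unique hB h', rfl⟩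
  exfalso
  -- adjacent edges
  have adj : ∀ {u w w' : Pt}, HE B u w → HE B w w' → HV (Insert.insert z P) w →
      u ∈ Insert.insert z P → w' ∈ Insert.insert z P →
      cr u w z < 0 → cr w w' z < 0 → False := by
    intro u w w' h h' hvw mu mw' hc hc'
    by_cases e3 : w' = u
    · subst e3
      rw [cr_swap] at hc'
      linarith
    · have h1 := h.pos hB h'.2.1 e3 h'.2.2.1.symm
      refine hvw.not_in_tri mu mz mw' ?_ ?_ ?_
      · rw [show cr u z w = - cr u w z by unfold cr; ring]; linarith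
      · rw [show cr z w' w = - cr w w' z by unfold cr; ring]; linarith
      · rw [show cr w' u w = cr u w w' by unfold cr; ring]; exact h1
  by_cases e3 : w = u'
  · subst e3
    exact adj h h' hvw mu mw' hc hc'
  by_cases e4 : w' = u
  · subst e4
    exact adj h' h hvw' mu' mw hc' hc
  have p1 := h.pos hB h'.1 (Ne.symm e1) (Ne.symm e3)
  have p2 := h.pos hB h'.2.1 e4 (Ne.symm e2)
  have p3 := h'.pos hB h.1 e1 (Ne.symm e4)
  have p4 := h'.pos hB h.2.1 e3 e2
  have f3 : 0 ≤ cr w u' z := by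
    by_contra hcon
    push Not at hcon
    refine hvw.not_in_tri mu mz mu' ?_ ?_ ?_
    · rw [show cr u z w = - cr u w z by unfold cr; ring]; linarith
    · rw [show cr z u' w = - cr w u' z by unfold cr; ring]; linarith
    · rw [show cr u' u w = cr u w u' by unfold cr; ring]; exact p1
  have f4 : 0 ≤ cr w' u z := by
    by_contra hcon
    push Not at hcon
    refine hvw'.not_in_tri mu' mz mu ?_ ?_ ?_
    · rw [show cr u' z w' = - cr u' w' z by unfold cr; ring]; linarith
    · rw [show cr z u w' = - cr w' u z by unfold cr; ring]; linarith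
    · rw [show cr u u' w' = cr u' w' u by unfold cr; ring]; exact p3
  have b1 := cr_bary u w u' u' w' z
  have b2 := cr_bary u' w' u u w z
  rw [cr_self] at b1 b2
  have g1 : cr u' u z < 0 := by
    by_contra hcon
    push Not at hcon
    nlinarith [mul_nonneg f3 p3.le, mul_nonneg hcon p4.le, mul_pos p1 (neg_pos.2 hc')]
  have g2 : cr u u' z < 0 := by
    by_contra hcon
    push Not at hcon
    nlinarith [mul_nonneg f4 p1.le, mul_nonneg hcon p2.le, mul_pos p3 (neg_pos.2 hc)]
  rw [cr_swap] at g2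
  linarith

/-! ### sums -/

theorem sum_lk (hC : STri B C) : ∑ v ∈ B, (lk B C v).card ≤ 12 * B.card := by
  have h1 : ∑ v ∈ B, (lk B C v).card = (B.sigma (fun v => lk B C v)).card :=
    (Finset.card_sigma _ _).symm
  have h2 : (B.sigma (fun v => lk B C v)).card ≤ (C.biUnion (fun t => t.offDiag)).card := by
    apply Finset.card_le_card_of_injOn (fun x => (x.1, x.2))
    · intro x hx
      obtain ⟨-, hx2⟩ := Finset.mem_sigma.1 hx
      obtain ⟨hne, t, ht, h3, h4⟩ := (mem_lk hC).1 hx2
      exact Finset.mem_coe.2 (Finset.mem_biUnion.2 ⟨t, ht, Finset.mem_offDiag.2 ⟨h3, h4, hne⟩⟩)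
    · rintro ⟨x1, x2⟩ _ ⟨y1, y2⟩ _ hxy
      simp only [Prod.mk.injEq] at hxy
      obtain ⟨rfl, rfl⟩ := hxy
      rfl
  have h3 : (C.biUnion (fun t => t.offDiag)).card ≤ ∑ t ∈ C, t.offDiag.card :=
    Finset.card_biUnion_le
  have h4 : ∑ t ∈ C, t.offDiag.card = ∑ t ∈ C, 6 := by
    apply Finset.sum_congr rfl
    intro t ht
    rw [Finset.offDiag_card, hC.card t ht]
  rw [h4, Finset.sum_const, smul_eq_mul] at h3
  have h5 := card_le_two' hC.toIs
  omega

theorem tri_mem_or_int (hG : GP P) {t : Finset Pt} (ht : t ⊆ P) (hc : t.card = 3)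
    (hn : ¬ Collinear ℝ (t : Set Pt)) {x : Pt} (hx : x ∈ P)
    (hxt : x ∈ convexHull ℝ (t : Set Pt)) : x ∈ t ∨ x ∈ interior (convexHull ℝ (t : Set Pt)) := by
  obtain ⟨a, b, c, rfl, hD⟩ := repr_tri hc hn
  by_cases hmem : x ∈ ({a, b, c} : Finset Pt)
  · exact Or.inl hmem
  right
  simp only [Finset.mem_insert, Finset.mem_singleton, not_or] at hmem
  obtain ⟨m1, m2, m3⟩ := hmem
  rw [coe3] at hxt ⊢
  obtain ⟨h1, h2, h3⟩ := cr_of_hull hD.le hxt
  obtain ⟨n1, n2, n3⟩ := ne_of_cr hD.ne'
  have ha : a ∈ P := ht (by simp)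
  have hb : b ∈ P := ht (by simp)
  have hc' : c ∈ P := ht (by simp)
  exact mem_int_of_cr (lt_of_le_of_ne h1 (hG a ha b hb x hx n1 (Ne.symm m1) (Ne.symm m2)).symm)
    (lt_of_le_of_ne h2 (hG b hb c hc' x hx n3 (Ne.symm m2) (Ne.symm m3)).symm)
    (lt_of_le_of_ne h3 (hG c hc' a ha x hx n2.symm (Ne.symm m3) (Ne.symm m1)).symm)

theorem sum_pin (hG : GP P) (hBP : B ⊆ P) (hC : STri B C) :
    ∑ t ∈ C, (pin P t).card ≤ 7 * P.card := by
  set ip : Finset Pt → Finset Pt := fun t =>
    P.filter (fun x => x ∈ interior (convexHull ℝ (t : Set Pt))) with hip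
  have h1 : ∀ t ∈ C, (pin P t).card ≤ 3 + (ip t).card := by
    intro t ht
    have hsub : pin P t ⊆ t ∪ ip t := by
      intro x hx
      obtain ⟨hxP, hx⟩ := mem_pin.1 hx
      rcases tri_mem_or_int hG ((hC.sub t ht).trans hBP) (hC.card t ht) (hC.nondeg t ht) hxP hx
        with h | h
      · exact Finset.mem_union_left _ h
      · exact Finset.mem_union_right _ (Finset.mem_filter.2 ⟨hxP, h⟩)
    have := Finset.card_le_card hsub
    have h2 := Finset.card_union_le t (ip t)
    rw [hC.card t ht] at h2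
    omega
  have h2 : ∑ t ∈ C, (ip t).card = (C.biUnion ip).card := by
    symm
    apply Finset.card_biUnion
    intro s hs t ht hst
    show Disjoint (ip s) (ip t)
    rw [Finset.disjoint_left]
    intro x hx hx'
    exact Set.disjoint_left.1 (hC.disj s hs t ht hst) (Finset.mem_filter.1 hx).2
      (Finset.mem_filter.1 hx').2
  have h3 : (C.biUnion ip).card ≤ P.card := by
    apply Finset.card_le_card
    intro x hx
    obtain ⟨t, -, hx⟩ := Finset.mem_biUnion.1 hx
    exact (Finset.mem_filter.1 hx).1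
  have h4 := Finset.sum_le_sum h1
  rw [Finset.sum_add_distrib, Finset.sum_const, smul_eq_mul] at h4
  have h5 := card_le_two' hC.toIs
  have h6 := Finset.card_le_card hBP
  omega

/-- the hull edges of `B` -/
def hes (B : Finset Pt) : Finset (Pt × Pt) := (B ×ˢ B).filter (fun e => HE B e.1 e.2)

theorem mem_hes {e : Pt × Pt} : e ∈ hes B ↔ HE B e.1 e.2 := by
  unfold hes
  rw [Finset.mem_filter, Finset.mem_product]
  exact ⟨fun h => h.2, fun h => ⟨⟨h.1, h.2.1⟩, h⟩⟩

theorem sum_cap (hG : GP P) (hBP : B ⊆ P) (hv : ∀ b ∈ B, HV B b → HV P b) :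
    ∑ e ∈ hes B, (capf P e.1 e.2).card ≤ P.card := by
  have h2 : ∑ e ∈ hes B, (capf P e.1 e.2).card =
      ((hes B).biUnion (fun e => capf P e.1 e.2)).card := by
    symm
    apply Finset.card_biUnion
    intro s hs t ht hst
    show Disjoint (capf P s.1 s.2) (capf P t.1 t.2)
    rw [Finset.disjoint_left]
    intro x hx hx'
    obtain ⟨hxP, hx⟩ := mem_capf.1 hx
    obtain ⟨-, hx'⟩ := mem_capf.1 hx'
    obtain ⟨k1, k2⟩ := cap_disj hG hBP hv (mem_hes.1 hs) (mem_hes.1 ht)
      (subset_convexHull ℝ _ hxP) hx hx'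
    exact hst (Prod.ext k1 k2)
  rw [h2]
  apply Finset.card_le_card
  intro x hx
  obtain ⟨t, -, hx⟩ := Finset.mem_biUnion.1 hx
  exact (mem_capf.1 hx).1

theorem sum_ite_card {α β : Type*} [DecidableEq α] [DecidableEq β] (S : Finset α) (D : Finset β)
    (R : α → β → Prop) [∀ v t, Decidable (R v t)] (f : β → ℕ) (k : ℕ) (hk : ∀ t ∈ D, (S.filter (fun v => R v t)).card ≤ k) :
    ∑ v ∈ S, ∑ t ∈ D.filter (fun t => R v t), f t ≤ k * ∑ t ∈ D, f t := by
  have h1 : ∑ v ∈ S, ∑ t ∈ D.filter (fun t => R v t), f t =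
      ∑ t ∈ D, (S.filter (fun v => R v t)).card * f t := by
    simp_rw [Finset.sum_filter]
    rw [Finset.sum_comm]
    apply Finset.sum_congr rfl
    intro t _
    rw [← Finset.sum_filter, Finset.sum_const, smul_eq_mul]
  rw [h1, Finset.mul_sum]
  exact Finset.sum_le_sum fun t ht => Nat.mul_le_mul_right _ (hk t ht)

theorem sum_Zs (hG : GP P) (hBP : B ⊆ P) (hC : STri B C) (hv : ∀ b ∈ B, HV B b → HV P b) :
    ∑ v ∈ B, (Zs P B C v).card ≤ 23 * P.card := by
  have h1 : ∀ v ∈ B, (Zs P B C v).card ≤ ∑ t ∈ C.filter (fun t => v ∈ t), (pin P t).card +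
      ∑ e ∈ (hes B).filter (fun e => e.1 = v ∨ e.2 = v), (capf P e.1 e.2).card := by
    intro v _
    have hsub : Zs P B C v ⊆ (C.filter (fun t => v ∈ t)).biUnion (fun t => pin P t) ∪
        ((hes B).filter (fun e => e.1 = v ∨ e.2 = v)).biUnion (fun e => capf P e.1 e.2) := by
      intro x hx
      obtain ⟨hxP, hx⟩ := mem_Zs.1 hx
      rcases hx with ⟨t, ht, hvt, hxt⟩ | ⟨u, w, huw, hor, hcr⟩
      · exact Finset.mem_union_left _ (Finset.mem_biUnion.2 ⟨t, Finset.mem_filter.2 ⟨ht, hvt⟩,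
          mem_pin.2 ⟨hxP, hxt⟩⟩)
      · exact Finset.mem_union_right _ (Finset.mem_biUnion.2 ⟨(u, w),
          Finset.mem_filter.2 ⟨mem_hes.2 huw, hor⟩, mem_capf.2 ⟨hxP, hcr⟩⟩)
    refine (Finset.card_le_card hsub).trans ((Finset.card_union_le _ _).trans ?_)
    exact Nat.add_le_add Finset.card_biUnion_le Finset.card_biUnion_le
  refine (Finset.sum_le_sum h1).trans ?_
  rw [Finset.sum_add_distrib]
  have h2 := sum_ite_card B C (fun v t => v ∈ t) (fun t => (pin P t).card) 3 (by
    intro t ht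
    rw [← hC.card t ht]
    apply Finset.card_le_card
    intro x hx
    exact (Finset.mem_filter.1 hx).2)
  have h3 := sum_ite_card B (hes B) (fun v e => e.1 = v ∨ e.2 = v)
    (fun e => (capf P e.1 e.2).card) 2 (by
    intro e _
    refine le_trans (Finset.card_le_card (t := {e.1, e.2}) ?_) Finset.card_le_two
    intro x hx
    rcases (Finset.mem_filter.1 hx).2 with h | h
    · simp [← h]
    · simp [← h])
  have h4 := sum_pin hG hBP hC
  have h5 := sum_cap hG hBP hv
  omega

/-! ### ears -/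

theorem ear_aux (hB : GP B) {v v' a b a' b' x : Pt} (ha : HE B a v) (hb : HE B v b)
    (ha' : HE B a' v') (hb' : HE B v' b') (hx1 : cr a b x < 0) (hx0 : 0 ≤ cr a' v' x)
    (hx2 : 0 ≤ cr v' b' x) (hx3 : cr a' b' x < 0) : v' = v ∨ v' = a ∨ v' = b := by
  by_contra hcon
  push Not at hcon
  obtain ⟨n1, n2, n3⟩ := hcon
  have hav : v ≠ a' := by
    rintro rfl
    exact n3 (ha'.succ_unique hB hb)
  have hbv : v ≠ b' := by
    rintro rfl
    exact n2 (hb'.pred_unique hB ha)
  have key : ∀ y ∈ B, HV B y → y ≠ v → 0 ≤ cr a b y := by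
    intro y hy hvy hyv
    by_contra hc
    push Not at hc
    have hya : y ≠ a := by rintro rfl; rw [cr_self] at hc; exact lt_irrefl _ hc
    have hyb : y ≠ b := by rintro rfl; rw [cr_self'] at hc; exact lt_irrefl _ hc
    refine hvy.not_in_tri ha.1 ha.2.1 hb.2.1 (ha.pos hB hy hya hyv) (hb.pos hB hy hyv hyb) ?_
    rw [show cr b a y = - cr a b y by unfold cr; ring]; linarith
  have k1 := key a' ha'.1 ha'.hv_left hav.symm
  have k2 := key v' ha'.2.1 ha'.hv_right n1
  have k3 := key b' hb'.2.1 hb'.hv_right hbv.symm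
  have hbar := cr_bary a' v' b' a b x
  have e : cr b' a' x = - cr a' b' x := by unfold cr; ring
  have hs := cr_sum a' v' b' x
  rw [e] at hbar hs
  have hD : 0 < cr a' v' b' := by linarith
  nlinarith [mul_nonneg hx2 k1, mul_nonneg (neg_pos.2 hx3).le k2, mul_nonneg hx0 k3,
    mul_pos hD (neg_pos.2 hx1)]

theorem bad_ears (hB : GP B) (h3 : 3 ≤ B.card) :
    (B.filter (fun v => HV B v ∧ ¬ Ear B v)).card ≤ 3 * (B.filter (fun v => ¬ HV B v)).card := by
  have hex : ∀ v, ∃ y : Pt × Pt × Pt, v ∈ B.filter (fun v => HV B v ∧ ¬ Ear B v) →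
      HE B y.1 v ∧ HE B v y.2.1 ∧ y.2.2 ∈ B ∧ 0 < cr y.1 v y.2.2 ∧ 0 < cr v y.2.1 y.2.2 ∧
      cr y.1 y.2.1 y.2.2 < 0 := by
    intro v
    by_cases hv : v ∈ B.filter (fun v => HV B v ∧ ¬ Ear B v)
    · obtain ⟨hvB, hvH, hvE⟩ := Finset.mem_filter.1 hv
      obtain ⟨b, hb⟩ := hvH.succ hB hvB (by omega)
      obtain ⟨a, ha⟩ := hvH.pred hB hvB (by omega)
      have hab : a ≠ b := by
        rintro rfl
        obtain ⟨z, hz, hz1, hz2⟩ : ∃ z ∈ B, z ≠ a ∧ z ≠ v := by
          by_contra hcon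
          push Not at hcon
          have hsub : B ⊆ {a, v} := by
            intro x hx
            by_cases hxa : x = a
            · simp [hxa]
            · simp [hcon x hx hxa]
          have := Finset.card_le_card hsub
          have h2 : ({a, v} : Finset Pt).card ≤ 2 := Finset.card_le_two
          omega
        have h1 := ha.pos hB hz hz1 hz2
        have h2 := hb.pos hB hz hz2 hz1
        rw [cr_swap] at h2
        linarith
      have hbad : ∃ x ∈ B, x ≠ a ∧ x ≠ v ∧ x ≠ b ∧ cr a b x ≤ 0 := by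
        by_contra hcon
        push Not at hcon
        exact hvE ⟨a, b, ha, hb, hab, fun x hx h1 h2 h3 => hcon x hx h1 h2 h3⟩
      obtain ⟨x, hx, x1, x2, x3, x4⟩ := hbad
      refine ⟨(a, b, x), fun _ => ⟨ha, hb, hx, ha.pos hB hx x1 x2, hb.pos hB hx x2 x3, ?_⟩⟩
      exact lt_of_le_of_ne x4 (hB a ha.1 b hb.2.1 x hx hab (Ne.symm x1) (Ne.symm x3))
    · exact ⟨(v, v, v), fun h => absurd h hv⟩
  choose y hy using hex
  apply Finset.card_le_mul_card_image_of_maps_to (f := fun v => (y v).2.2)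
  · intro v hv
    obtain ⟨ha, hb, hx, x1, x2, x3⟩ := hy v hv
    refine Finset.mem_filter.2 ⟨hx, fun hH => ?_⟩
    refine hH.not_in_tri ha.1 ha.2.1 hb.2.1 x1 x2 ?_
    rw [show cr (y v).2.1 (y v).1 (y v).2.2 = - cr (y v).1 (y v).2.1 (y v).2.2 by
      unfold cr; ring]
    linarith
  · intro x _
    set V := (B.filter (fun v => HV B v ∧ ¬ Ear B v)).filter (fun v => (y v).2.2 = x) with hV
    by_cases hne : V.Nonempty
    · obtain ⟨v, hv⟩ := hne
      have hsub : V ⊆ {v, (y v).1, (y v).2.1} := by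
        intro v' hv'
        obtain ⟨g1, g2⟩ := Finset.mem_filter.1 hv
        obtain ⟨g1', g2'⟩ := Finset.mem_filter.1 hv'
        obtain ⟨ha, hb, -, -, -, x3⟩ := hy v g1
        obtain ⟨ha', hb', -, x1', x2', x3'⟩ := hy v' g1'
        rw [g2] at x3
        rw [g2'] at x1' x2' x3'
        rcases ear_aux hB ha hb ha' hb' x3 x1'.le x2'.le x3' with h | h | h
        · simp [h]
        · simp [h]
        · simp [h]
      exact (Finset.card_le_card hsub).trans Finset.card_le_three
    · rw [Finset.not_nonempty_iff_eq_empty] at hne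
      rw [hne]
      simp

/-! ### independent sets -/

theorem exists_indep {α : Type*} [DecidableEq α] (R : α → α → Prop) (hR : ∀ x y, R x y → R y x)
    (D : ℕ) : ∀ (n : ℕ) (G : Finset α), G.card = n →
    (∀ v ∈ G, (G.filter (fun x => R v x)).card ≤ D) →
    ∃ I ⊆ G, (∀ x ∈ I, ∀ y ∈ I, x ≠ y → ¬ R x y) ∧ G.card ≤ (D + 1) * I.card := by
  intro n
  induction n using Nat.strong_induction_on with
  | _ n ih =>
    intro G hG hD
    by_cases hne : G.Nonempty
    swap
    · rw [Finset.not_nonempty_iff_eq_empty] at hne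
      subst hne
      exact ⟨∅, Finset.Subset.refl _, by simp, by simp⟩
    obtain ⟨v, hv⟩ := hne
    set G' := (G.erase v).filter (fun x => ¬ R v x) with hG'
    have hsub : G' ⊆ G := (Finset.filter_subset _ _).trans (Finset.erase_subset _ _)
    have hvG' : v ∉ G' := fun h => Finset.notMem_erase v G (Finset.mem_filter.1 h).1
    have hlt : G'.card < n := by
      rw [← hG]
      exact Finset.card_lt_card ⟨hsub, fun h => hvG' (h hv)⟩
    obtain ⟨I, hI, hind, hcard⟩ := ih _ hlt G' rfl (by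
      intro w hw
      refine le_trans (Finset.card_le_card ?_) (hD w (hsub hw))
      intro x hx
      obtain ⟨h1, h2⟩ := Finset.mem_filter.1 hx
      exact Finset.mem_filter.2 ⟨hsub h1, h2⟩)
    have hvI : v ∉ I := fun h => hvG' (hI h)
    refine ⟨insert v I, ?_, ?_, ?_⟩
    · intro x hx
      rcases Finset.mem_insert.1 hx with rfl | hx
      · exact hv
      · exact hsub (hI hx)
    · intro x hx y hy hxy
      rcases Finset.mem_insert.1 hx with hx1 | hx1 <;>
        rcases Finset.mem_insert.1 hy with hy1 | hy1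
      · exact absurd (hx1.trans hy1.symm) hxy
      · rw [hx1]; exact (Finset.mem_filter.1 (hI hy1)).2
      · intro h
        rw [hy1] at h
        exact (Finset.mem_filter.1 (hI hx1)).2 (hR _ _ h)
      · exact hind x hx1 y hy1 hxy
    · rw [Finset.card_insert_of_notMem hvI]
      have h1 : G ⊆ insert v (G' ∪ G.filter (fun x => R v x)) := by
        intro x hx
        by_cases hxv : x = v
        · simp [hxv]
        · by_cases hr : R v x
          · exact Finset.mem_insert_of_mem (Finset.mem_union_right _ (Finset.mem_filter.2 ⟨hx, hr⟩))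
          · exact Finset.mem_insert_of_mem (Finset.mem_union_left _
              (Finset.mem_filter.2 ⟨Finset.mem_erase.2 ⟨hxv, hx⟩, hr⟩))
      have h2 := Finset.card_le_card h1
      have h3 := Finset.card_insert_le v (G' ∪ G.filter (fun x => R v x))
      have h4 := Finset.card_union_le G' (G.filter (fun x => R v x))
      have h5 := hD v hv
      rw [Nat.mul_add, Nat.mul_one]
      omega

/-! ### selection -/

theorem CS.select (hG : GP P) (h : CS P B C T F) (h3 : 3 ≤ B.card)
    (hF : ∀ k : ℕ, k * B.card ≤ 736 * P.card → k ≤ F) :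
    ∃ I, Good P B C F I ∧ (∀ v ∈ I, (lk B C v).card ≤ 384) ∧ B.card ≤ 6160 * I.card := by
  have hB := hG.mono h.sub
  have hC := h.tri
  have hBP := Finset.card_le_card h.sub
  set m := B.card with hm
  set n := P.card with hn
  set X1 := B.filter (fun v => 384 < (lk B C v).card) with hX1
  set X2 := B.filter (fun v => 736 * n < (Zs P B C v).card * m) with hX2
  set G0 := B.filter (fun v => ¬ HV B v ∨ Ear B v) with hG0
  have c1 : X1.card * 32 ≤ m := by
    have h1 : X1.card * 384 ≤ ∑ v ∈ X1, (lk B C v).card := by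
      rw [← smul_eq_mul]
      exact Finset.card_nsmul_le_sum _ _ _ fun v hv => (Finset.mem_filter.1 hv).2.le
    have h2 : ∑ v ∈ X1, (lk B C v).card ≤ ∑ v ∈ B, (lk B C v).card :=
      Finset.sum_le_sum_of_subset (Finset.filter_subset _ _)
    have h4 := sum_lk hC
    omega
  have c2 : X2.card * 32 ≤ m := by
    have h1 : X2.card * (736 * n) ≤ ∑ v ∈ X2, (Zs P B C v).card * m := by
      rw [← smul_eq_mul]
      exact Finset.card_nsmul_le_sum _ _ _ fun v hv => (Finset.mem_filter.1 hv).2.le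
    have h2 : ∑ v ∈ X2, (Zs P B C v).card * m ≤ (∑ v ∈ B, (Zs P B C v).card) * m := by
      rw [Finset.sum_mul]
      exact Finset.sum_le_sum_of_subset (Finset.filter_subset _ _)
    have h4 := sum_Zs hG h.sub hC h.hv
    have h5 : (∑ v ∈ B, (Zs P B C v).card) * m ≤ (23 * n) * m := Nat.mul_le_mul_right _ h4
    have h6 : X2.card * (736 * n) ≤ 23 * n * m := h1.trans (h2.trans h5)
    have hn0 : 0 < 23 * n := by omega
    have h7 : (23 * n) * (X2.card * 32) ≤ (23 * n) * m := by
      calc (23 * n) * (X2.card * 32) = X2.card * (736 * n) := by ring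
        _ ≤ 23 * n * m := h6
    exact Nat.le_of_mul_le_mul_left h7 hn0
  have c3 : m ≤ 8 * G0.card := by
    have h1 := bad_ears hB h3
    have h2 : B.filter (fun v => ¬ HV B v) ⊆ G0 := by
      intro v hv
      obtain ⟨k1, k2⟩ := Finset.mem_filter.1 hv
      exact Finset.mem_filter.2 ⟨k1, Or.inl k2⟩
    have h4 := Finset.card_le_card h2
    have h5 : B ⊆ G0 ∪ B.filter (fun v => HV B v ∧ ¬ Ear B v) := by
      intro v hv
      by_cases k : ¬ HV B v ∨ Ear B v
      · exact Finset.mem_union_left _ (Finset.mem_filter.2 ⟨hv, k⟩)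
      · push Not at k
        exact Finset.mem_union_right _ (Finset.mem_filter.2 ⟨hv, k⟩)
    have h6 := Finset.card_le_card h5
    have h7 := Finset.card_union_le G0 (B.filter (fun v => HV B v ∧ ¬ Ear B v))
    omega
  set G := (G0 \ X1) \ X2 with hGdef
  have hGsub : G ⊆ B := Finset.sdiff_subset.trans (Finset.sdiff_subset.trans
    (Finset.filter_subset _ _))
  have c4 : m ≤ 16 * G.card := by
    have h1 := Finset.le_card_sdiff X1 G0
    have h2 := Finset.le_card_sdiff X2 (G0 \ X1)
    rw [← hGdef] at h2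
    omega
  have hGm : ∀ v ∈ G, (¬ HV B v ∨ Ear B v) ∧ (lk B C v).card ≤ 384 ∧
      (Zs P B C v).card * m ≤ 736 * n := by
    intro v hv
    obtain ⟨hv1, hv2⟩ := Finset.mem_sdiff.1 hv
    obtain ⟨hv3, hv4⟩ := Finset.mem_sdiff.1 hv1
    obtain ⟨hv5, hv6⟩ := Finset.mem_filter.1 hv3
    refine ⟨hv6, ?_, ?_⟩
    · by_contra hcon
      exact hv4 (Finset.mem_filter.2 ⟨hv5, not_le.1 hcon⟩)
    · by_contra hcon
      exact hv2 (Finset.mem_filter.2 ⟨hv5, not_le.1 hcon⟩)
  obtain ⟨I, hI, hind, hcard⟩ := exists_indep (fun x y => Side C x y) (fun _ _ h => h.symm) 384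
    G.card G rfl (by
      intro v hv
      refine le_trans (Finset.card_le_card ?_) (hGm v hv).2.1
      intro x hx
      exact (mem_lk hC).2 (Finset.mem_filter.1 hx).2)
  refine ⟨I, ⟨hI.trans hGsub, ?_, fun v hv => (hGm v (hI hv)).1, ?_⟩,
    fun v hv => (hGm v (hI hv)).2.1, by omega⟩
  · intro t ht v hv v' hv' h1 h2
    by_contra hne
    exact hind v hv v' hv' hne ⟨hne, t, ht, h1, h2⟩
  · intro v hv
    exact hF _ (hGm v (hI hv)).2.2

end MP91a79a

end
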