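import Mathlib

/-!
Combinatorial triangulations of the sphere (MP_91a79a_co), abstract part: rotations, boundaries,
flips, the strip permutation.
-/

noncomputable section

namespace MP91a79a

open Classical

variable {V : Type*} {W : Finset V} {O : V → V → V → Prop} {col : V → Bool}

/-- combinatorial triangulation of the sphere with vertex set `W`; `O x y z` means: `xyz` is a
(positively oriented) triangle, `z` is on the left of `x → y` -/
structure Sph (W : Finset V) (O : V → V → V → Prop) : Prop where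
  mem : ∀ x y z, O x y z → x ∈ W
  ne : ∀ x y z, O x y z → x ≠ y
  rot : ∀ x y z, O x y z → O y z x
  fn : ∀ x y z z', O x y z → O x y z' → z = z'
  opp : ∀ x y z, O x y z → ∃ w, O y x w
  opp_ne : ∀ x y z w, O x y z → O y x w → z ≠ w
  vert : ∀ v ∈ W, ∃ x y, O v x y
  conn : ∀ M : V → V → V → Prop, (∀ x y z, M x y z → O x y z) →
    (∀ x y z, M x y z → M y z x) → (∀ x y z w, M x y z → O y x w → M y x w) →
    (∃ x y z, M x y z) → ∀ x y z, O x y z → M x y z
  link : ∀ v, ∀ S : V → Prop, (∃ x y, S x ∧ O v x y) → (∀ x y, S x → O v x y → S y) →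
    ∀ x y, O v x y → S x

/-- `xyz` is a rotation of `abc` -/
def Rot (a b c x y z : V) : Prop :=
  (x = a ∧ y = b ∧ z = c) ∨ (x = b ∧ y = c ∧ z = a) ∨ (x = c ∧ y = a ∧ z = b)

/-- the flip of the edge `pq` with triangles `pqr` and `qps` -/
def Flip (O : V → V → V → Prop) (p q r s : V) (x y z : V) : Prop :=
  (O x y z ∧ ¬ Rot p q r x y z ∧ ¬ Rot q p s x y z) ∨ Rot p s r x y z ∨ Rot s q r x y z

/-- `xy` is an edge -/
def Ed (O : V → V → V → Prop) (x y : V) : Prop := ∃ z, O x y z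

/-- the oriented mixed edges: from colour `true` to colour `false` -/
def Mx (O : V → V → V → Prop) (col : V → Bool) (d : V × V) : Prop :=
  Ed O d.1 d.2 ∧ col d.1 = true ∧ col d.2 = false

/-- the next mixed edge, in the triangle on the left -/
def nxt (O : V → V → V → Prop) (col : V → Bool) (d : V × V) : V × V :=
  if h : Mx O col d then
    (if col (Classical.choose h.1) = true then (Classical.choose h.1, d.2)
      else (d.1, Classical.choose h.1))
  else d

/-- the previous mixed edge, in the triangle on the right -/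
def prv (O : V → V → V → Prop) (col : V → Bool) (d : V × V) : V × V :=
  if h : (∃ w, O d.2 d.1 w) ∧ col d.1 = true ∧ col d.2 = false then
    (if col (Classical.choose h.1) = true then (Classical.choose h.1, d.2)
      else (d.1, Classical.choose h.1))
  else d

theorem Sph.nxt_eq (hO : Sph W O) {x y z : V} (h : O x y z) (hx : col x = true)
    (hy : col y = false) : nxt O col (x, y) = if col z = true then (z, y) else (x, z) := by
  have hm : Mx O col (x, y) := ⟨⟨z, h⟩, hx, hy⟩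
  have hz : Classical.choose hm.1 = z := hO.fn x y _ _ (Classical.choose_spec hm.1) h
  unfold nxt
  rw [dif_pos hm, hz]

theorem Sph.prv_eq (hO : Sph W O) {x y z : V} (h : O y x z) (hx : col x = true)
    (hy : col y = false) : prv O col (x, y) = if col z = true then (z, y) else (x, z) := by
  have hm : (∃ w, O (x, y).2 (x, y).1 w) ∧ col (x, y).1 = true ∧ col (x, y).2 = false :=
    ⟨⟨z, h⟩, hx, hy⟩
  have hz : Classical.choose hm.1 = z := hO.fn y x _ _ (Classical.choose_spec hm.1) h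
  unfold prv
  rw [dif_pos hm, hz]

theorem Sph.ed_symm (hO : Sph W O) {x y : V} (h : Ed O x y) : Ed O y x := by
  obtain ⟨z, hz⟩ := h
  exact hO.opp x y z hz

theorem Sph.ed_mem (hO : Sph W O) {x y : V} (h : Ed O x y) : x ∈ W := by
  obtain ⟨z, hz⟩ := h
  exact hO.mem x y z hz

theorem Sph.ed_ne (hO : Sph W O) {x y : V} (h : Ed O x y) : x ≠ y := by
  obtain ⟨z, hz⟩ := h
  exact hO.ne x y z hz

theorem Sph.rot2 (hO : Sph W O) {x y z : V} (h : O x y z) : O z x y := hO.rot _ _ _ (hO.rot _ _ _ h)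

/-- not mixed: `nxt` and `prv` are the identity -/
theorem nxt_of_not {d : V × V} (h : ¬ Mx O col d) : nxt O col d = d := by
  unfold nxt; rw [dif_neg h]

theorem Sph.mx_nxt (hO : Sph W O) {d : V × V} (h : Mx O col d) : Mx O col (nxt O col d) := by
  obtain ⟨x, y⟩ := d
  obtain ⟨⟨z, hz⟩, hx, hy⟩ := h
  rw [hO.nxt_eq hz hx hy]
  by_cases hc : col z = true
  · rw [if_pos hc]
    exact ⟨hO.ed_symm ⟨x, hO.rot _ _ _ hz⟩, hc, hy⟩
  · rw [if_neg hc]
    exact ⟨hO.ed_symm ⟨y, hO.rot2 hz⟩, hx, by simpa using hc⟩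

theorem Sph.prv_nxt (hO : Sph W O) (d : V × V) : prv O col (nxt O col d) = d := by
  by_cases h : Mx O col d
  · obtain ⟨x, y⟩ := d
    obtain ⟨⟨z, hz⟩, hx, hy⟩ := h
    rw [hO.nxt_eq hz hx hy]
    by_cases hc : col z = true
    · rw [if_pos hc, hO.prv_eq (hO.rot _ _ _ hz) hc hy, if_pos hx]
    · rw [if_neg hc, hO.prv_eq (hO.rot2 hz) hx (by simpa using hc), if_neg (by simpa using hy)]
  · rw [nxt_of_not h]
    unfold prv
    rw [dif_neg]
    rintro ⟨h1, h2, h3⟩
    exact h ⟨hO.ed_symm h1, h2, h3⟩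

theorem Sph.nxt_prv (hO : Sph W O) (d : V × V) : nxt O col (prv O col d) = d := by
  by_cases h : Mx O col d
  · obtain ⟨x, y⟩ := d
    obtain ⟨hz, hx, hy⟩ := h
    obtain ⟨z, hz⟩ := hO.ed_symm hz
    rw [hO.prv_eq hz hx hy]
    by_cases hc : col z = true
    · rw [if_pos hc, hO.nxt_eq (hO.rot2 hz) hc hy, if_pos hx]
    · rw [if_neg hc, hO.nxt_eq (hO.rot _ _ _ hz) hx (by simpa using hc),
        if_neg (by simpa using hy)]
  · have : prv O col d = d := by
      unfold prv
      rw [dif_neg]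
      rintro ⟨h1, h2, h3⟩
      exact h ⟨hO.ed_symm h1, h2, h3⟩
    rw [this, nxt_of_not h]

/-- the strip permutation -/
def Sph.sig (hO : Sph W O) (col : V → Bool) : Equiv.Perm (V × V) where
  toFun := nxt O col
  invFun := prv O col
  left_inv := hO.prv_nxt
  right_inv := hO.nxt_prv

theorem Sph.sig_apply (hO : Sph W O) (d : V × V) : hO.sig col d = nxt O col d := rfl

/-- `d` is in the strip of `e` -/
def Orb (O : V → V → V → Prop) (col : V → Bool) (e d : V × V) : Prop :=
  ∃ n : ℕ, (nxt O col)^[n] e = d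


/-! ### boundaries -/

/-- a boundary never has exactly one edge at a vertex -/
theorem Sph.bdry (hO : Sph W O) (M : V → V → V → Prop) (hM : ∀ x y z, M x y z → O x y z)
    (hr : ∀ x y z, M x y z → M y z x) {v w : V}
    (h : ¬ ((∃ z, M v w z) ↔ (∃ z, M w v z))) :
    ∃ w', w' ≠ w ∧ ¬ ((∃ z, M v w' z) ↔ (∃ z, M w' v z)) := by
  set A := W.filter (fun w => ∃ z, M v w z) with hA
  set B := W.filter (fun w => ∃ z, M w v z) with hB
  have hmA : ∀ w, w ∈ A ↔ ∃ z, M v w z := by
    intro w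
    rw [hA, Finset.mem_filter]
    refine ⟨fun h => h.2, fun h => ⟨?_, h⟩⟩
    obtain ⟨z, hz⟩ := h
    exact hO.mem _ _ _ (hO.rot _ _ _ (hM _ _ _ hz))
  have hmB : ∀ w, w ∈ B ↔ ∃ z, M w v z := by
    intro w
    rw [hB, Finset.mem_filter]
    refine ⟨fun h => h.2, fun h => ⟨?_, h⟩⟩
    obtain ⟨z, hz⟩ := h
    exact hO.mem _ _ _ (hM _ _ _ hz)
  have hcard : A.card = B.card := by
    refine Finset.card_bij (fun w hw => Classical.choose ((hmA w).1 hw)) ?_ ?_ ?_
    · intro w hw
      have := Classical.choose_spec ((hmA w).1 hw)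
      exact (hmB _).2 ⟨w, hr _ _ _ (hr _ _ _ this)⟩
    · intro w1 hw1 w2 hw2 he
      have h1 := Classical.choose_spec ((hmA w1).1 hw1)
      have h2 := Classical.choose_spec ((hmA w2).1 hw2)
      rw [← he] at h2
      exact hO.fn _ _ _ _ (hO.rot2 (hM _ _ _ h1)) (hO.rot2 (hM _ _ _ h2))
    · intro b hb
      obtain ⟨z, hz⟩ := (hmB b).1 hb
      have hz1 := hr _ _ _ hz
      refine ⟨z, (hmA z).2 ⟨b, hz1⟩, ?_⟩
      have := Classical.choose_spec ((hmA z).1 ((hmA z).2 ⟨b, hz1⟩))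
      exact hO.fn _ _ _ _ (hM _ _ _ this) (hM _ _ _ hz1)
  have hsd : (A \ B).card = (B \ A).card := by
    have h1 := Finset.card_sdiff_add_card_inter A B
    have h2 := Finset.card_sdiff_add_card_inter B A
    rw [Finset.inter_comm] at h2
    omega
  by_cases hw : ∃ z, M v w z
  · have hw2 : ¬ ∃ z, M w v z := fun hc => h ⟨fun _ => hc, fun _ => hw⟩
    have hmem : w ∈ A \ B := Finset.mem_sdiff.2 ⟨(hmA w).2 hw, fun hc => hw2 ((hmB w).1 hc)⟩
    have hpos : 0 < (B \ A).card := by rw [← hsd]; exact Finset.card_pos.2 ⟨w, hmem⟩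
    obtain ⟨w', hw'⟩ := Finset.card_pos.1 hpos
    obtain ⟨h1, h2⟩ := Finset.mem_sdiff.1 hw'
    refine ⟨w', ?_, ?_⟩
    · rintro rfl; exact h2 ((hmA _).2 hw)
    · intro hc; exact h2 ((hmA _).2 (hc.2 ((hmB _).1 h1)))
  · have hw2 : ∃ z, M w v z := by
      by_contra hc; exact h ⟨fun h' => absurd h' hw, fun h' => absurd h' hc⟩
    have hmem : w ∈ B \ A := Finset.mem_sdiff.2 ⟨(hmB w).2 hw2, fun hc => hw ((hmA w).1 hc)⟩
    have hpos : 0 < (A \ B).card := by rw [hsd]; exact Finset.card_pos.2 ⟨w, hmem⟩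
    obtain ⟨w', hw'⟩ := Finset.card_pos.1 hpos
    obtain ⟨h1, h2⟩ := Finset.mem_sdiff.1 hw'
    refine ⟨w', ?_, ?_⟩
    · rintro rfl; exact hw ((hmA _).1 h1)
    · intro hc; exact h2 ((hmB _).2 (hc.1 ((hmA _).1 h1)))

/-- propagation along a fan -/
theorem Sph.fan (hO : Sph W O) {v r : V} (hr : Ed O v r) (K R : V → Prop) (hK : ¬ K r)
    (h2 : ∀ w w', O v w w' → K w' → K w ∨ w = r)
    (hR : ∀ w w', O v w w' → K w → K w' → (R w ↔ R w')) {w w' : V} (hw : Ed O v w)
    (hw' : Ed O v w') (hKw : K w) (hKw' : K w') : R w ↔ R w' := by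
  obtain ⟨z, hz⟩ := hr
  by_cases hKz : K z
  · have key := hO.link v (fun x => K x → (R x ↔ R z)) ⟨r, z, fun h => absurd h hK, hz⟩ (by
      intro x y hx hxy hKy
      rcases h2 x y hxy hKy with h | h
      · exact (hR x y hxy h hKy).symm.trans (hx h)
      · subst h
        rw [hO.fn _ _ _ _ hxy hz])
    obtain ⟨y, hy⟩ := hw
    obtain ⟨y', hy'⟩ := hw'
    exact (key w y hy hKw).trans (key w' y' hy' hKw').symm
  · have key := hO.link v (fun x => ¬ K x) ⟨r, z, hK, hz⟩ (by
      intro x y hx hxy hKy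
      rcases h2 x y hxy hKy with h | h
      · exact hx h
      · subst h
        rw [hO.fn _ _ _ _ hxy hz] at hKy
        exact hKz hKy)
    obtain ⟨y, hy⟩ := hw
    exact absurd hKw (key w y hy)

/-! ### orbits -/

/-- the number of ordered monochromatic edges -/
def monoc (W : Finset V) (O : V → V → V → Prop) (col : V → Bool) : ℕ :=
  ((W ×ˢ W).filter (fun d => Ed O d.1 d.2 ∧ col d.1 = col d.2)).card

/-- the size of an orbit -/
def orbc (W : Finset V) (O : V → V → V → Prop) (col : V → Bool) (e : V × V) : ℕ :=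
  ((W ×ˢ W).filter (fun d => Orb O col e d)).card

theorem Sph.mx_mem (hO : Sph W O) {d : V × V} (h : Mx O col d) : d ∈ W ×ˢ W :=
  Finset.mem_product.2 ⟨hO.ed_mem h.1, hO.ed_mem (hO.ed_symm h.1)⟩

theorem Sph.mx_iter (hO : Sph W O) {d : V × V} (h : Mx O col d) (n : ℕ) :
    Mx O col ((nxt O col)^[n] d) := by
  induction n with
  | zero => exact h
  | succ n ih => rw [Function.iterate_succ_apply']; exact hO.mx_nxt ih

theorem Sph.nxt_inj (hO : Sph W O) : Function.Injective (nxt O col) := (hO.sig col).injective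

theorem Sph.period (hO : Sph W O) {e : V × V} (h : Mx O col e) :
    ∃ n : ℕ, 0 < n ∧ (nxt O col)^[n] e = e := by
  have hmap : ∀ n : ℕ, (nxt O col)^[n] e ∈ W ×ˢ W := fun n => hO.mx_mem (hO.mx_iter h n)
  obtain ⟨i, j, hij, heq⟩ : ∃ i j : ℕ, i < j ∧ (nxt O col)^[i] e = (nxt O col)^[j] e := by
    obtain ⟨x, -, y, -, hxy, he⟩ := Set.infinite_univ.exists_ne_map_eq_of_mapsTo
      (f := fun n : ℕ => (nxt O col)^[n] e) (t := ((W ×ˢ W : Finset (V × V)) : Set (V × V)))
      (fun n _ => hmap n) (Finset.finite_toSet _)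
    rcases lt_or_gt_of_ne hxy with h1 | h1
    · exact ⟨x, y, h1, he⟩
    · exact ⟨y, x, h1, he.symm⟩
  refine ⟨j - i, by omega, ?_⟩
  have h1 : (nxt O col)^[i] ((nxt O col)^[j - i] e) = (nxt O col)^[i] e := by
    rw [← Function.iterate_add_apply, Nat.add_sub_cancel' hij.le]; exact heq.symm
  exact (hO.nxt_inj.iterate i) h1

theorem Orb.refl (O : V → V → V → Prop) (col : V → Bool) (e : V × V) : Orb O col e e := ⟨0, rfl⟩

theorem Sph.orb_nxt (hO : Sph W O) {e d : V × V} (he : Mx O col e) :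
    Orb O col e (nxt O col d) ↔ Orb O col e d := by
  constructor
  · rintro ⟨n, hn⟩
    obtain ⟨m, hm, hm'⟩ := hO.period he
    refine ⟨n + m - 1, ?_⟩
    apply hO.nxt_inj
    rw [← Function.iterate_succ_apply' (nxt O col)]
    have : (n + m - 1).succ = n + m := by omega
    rw [this, Function.iterate_add_apply, hm', hn]
  · rintro ⟨n, rfl⟩
    exact ⟨n + 1, Function.iterate_succ_apply' _ _ _⟩

theorem Sph.orb_mx (hO : Sph W O) {e d : V × V} (he : Mx O col e) (h : Orb O col e d) :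
    Mx O col d := by
  obtain ⟨n, rfl⟩ := h
  exact hO.mx_iter he n

/-- merging two cycles -/
theorem cyc_merge {α : Type*} (σ τ : α → α) {a b e : α}
    (h0 : ∀ x, x ≠ a → x ≠ b → τ x = σ x) (h1 : τ a = σ b) (h2 : τ b = σ a)
    (pa : ∃ n, 0 < n ∧ σ^[n] a = a) (pb : ∃ n, 0 < n ∧ σ^[n] b = b)
    (ha : ∃ n, σ^[n] e = a) (hb : ∀ n, σ^[n] e ≠ b) :
    (∀ n, ∃ m, τ^[m] e = σ^[n] e) ∧ ∃ m, τ^[m] e = b := by
  classical
  -- up to `a`
  obtain ⟨n, hn, hnmin⟩ : ∃ n, σ^[n] e = a ∧ ∀ j < n, σ^[j] e ≠ a :=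
    ⟨Nat.find ha, Nat.find_spec ha, fun j hj => Nat.find_min ha hj⟩
  have s1 : ∀ k, k ≤ n → τ^[k] e = σ^[k] e := by
    intro k
    induction k with
    | zero => intro _; rfl
    | succ k ih =>
      intro hk
      rw [Function.iterate_succ_apply', Function.iterate_succ_apply', ih (by omega),
        h0 _ (hnmin k (by omega)) (hb k)]
  obtain ⟨m, ⟨hm0, hm⟩, hmmin⟩ : ∃ m, (0 < m ∧ σ^[m] b = b) ∧ ∀ j < m, ¬ (0 < j ∧ σ^[j] b = b) :=
    ⟨Nat.find pb, Nat.find_spec pb, fun j hj => Nat.find_min pb hj⟩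
  obtain ⟨p, ⟨hp0, hp⟩, hpmin⟩ : ∃ m, (0 < m ∧ σ^[m] a = a) ∧ ∀ j < m, ¬ (0 < j ∧ σ^[j] a = a) :=
    ⟨Nat.find pa, Nat.find_spec pa, fun j hj => Nat.find_min pa hj⟩
  -- no iterate of `b` is `a`
  have hba : ∀ j, j ≤ m → σ^[j] b ≠ a := by
    intro j hj hc
    apply hb ((m - j) + n)
    rw [Function.iterate_add_apply, hn, ← hc, ← Function.iterate_add_apply,
      Nat.sub_add_cancel hj, hm]
  have hab : ∀ j, σ^[j] a ≠ b := by
    intro j hc
    apply hb (j + n)
    rw [Function.iterate_add_apply, hn, hc]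
  have s2 : ∀ k, 1 ≤ k → k ≤ m → τ^[n + k] e = σ^[k] b := by
    intro k hk1
    induction k, hk1 using Nat.le_induction with
    | base =>
      intro _
      rw [Function.iterate_succ_apply', s1 n le_rfl, hn, h1]; rfl
    | succ k hk ih =>
      intro hkm
      rw [← add_assoc, Function.iterate_succ_apply', ih (by omega), Function.iterate_succ_apply',
        h0 _ (hba k (by omega)) (fun hc => hmmin k (by omega) ⟨by omega, hc⟩)]
  have s2' : τ^[n + m] e = b := by rw [s2 m hm0 le_rfl, hm]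
  have s3 : ∀ k, 1 ≤ k → k ≤ p → τ^[n + m + k] e = σ^[k] a := by
    intro k hk1
    induction k, hk1 using Nat.le_induction with
    | base =>
      intro _
      rw [Function.iterate_succ_apply', s2', h2]; rfl
    | succ k hk ih =>
      intro hkm
      rw [← add_assoc, Function.iterate_succ_apply', ih (by omega), Function.iterate_succ_apply',
        h0 _ (fun hc => hpmin k (by omega) ⟨by omega, hc⟩) (hab k)]
  refine ⟨?_, n + m, s2'⟩
  -- everything in the orbit of `a`
  have s4 : ∀ k, ∃ m', τ^[m'] e = σ^[k] a := by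
    intro k
    induction k using Nat.strong_induction_on with
    | _ k ih =>
      by_cases hk0 : k = 0
      · subst hk0
        exact ⟨n, by rw [s1 n le_rfl, hn]; rfl⟩
      by_cases hkp : k ≤ p
      · exact ⟨n + m + k, s3 k (by omega) hkp⟩
      · obtain ⟨m', hm'⟩ := ih (k - p) (by omega)
        refine ⟨m', ?_⟩
        rw [hm']
        have : k = (k - p) + p := by omega
        conv_rhs => rw [this, Function.iterate_add_apply, hp]
  intro k
  by_cases hk : k ≤ n
  · exact ⟨k, s1 k hk⟩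
  · obtain ⟨m', hm'⟩ := s4 (k - n)
    refine ⟨m', ?_⟩
    rw [hm', ← hn, ← Function.iterate_add_apply, Nat.sub_add_cancel (by omega)]

end MP91a79a

end
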