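import Pool.Agent.Lib.MP_91a79a_co.Sph
import Pool.Agent.Lib.MP_91a79a_co.HullE
import Pool.Agent.Lib.MP_91a79a_co.Few

/-!
The sphere of a plane triangulation (MP_91a79a_co): `OT P T` on `Option Pt`, `none` = infinity.
-/

noncomputable section

namespace MP91a79a

open Set Classical

/-- oriented triangles of the sphere of `T`: finite triangles, and the triangles `{none, u, w}` for
the hull edges `u → w` (`P` on the left, infinity on the right) -/
def OT (P : Finset Pt) (T : Finset (Finset Pt)) : Option Pt → Option Pt → Option Pt → Prop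
  | some x, some y, some z => {x, y, z} ∈ T ∧ 0 < cr x y z
  | some x, some y, none => HE P y x
  | some y, none, some x => HE P y x
  | none, some x, some y => HE P y x
  | _, _, _ => False

/-- the vertices of the sphere -/
def Wp (P : Finset Pt) : Finset (Option Pt) := insert none (P.image some)

theorem mem_Wp {P : Finset Pt} {x : Option Pt} : x ∈ Wp P ↔ x = none ∨ ∃ y ∈ P, x = some y := by
  unfold Wp
  simp only [Finset.mem_insert, Finset.mem_image]
  constructor
  · rintro (h | ⟨y, hy, rfl⟩)
    · exact Or.inl h
    · exact Or.inr ⟨y, hy, rfl⟩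
  · rintro (h | ⟨y, hy, rfl⟩)
    · exact Or.inl h
    · exact Or.inr ⟨y, hy, rfl⟩

variable {P : Finset Pt} {T : Finset (Finset Pt)}

theorem OT_rot (x y z : Option Pt) (h : OT P T x y z) : OT P T y z x := by
  rcases x with _ | x <;> rcases y with _ | y <;> rcases z with _ | z <;>
    simp only [OT] at h ⊢ <;> try exact h
  exact ⟨by rw [perm_bca]; exact h.1, by rw [← cr_rot]; exact h.2⟩

theorem OT_mem (hT : STri P T) (x y z : Option Pt) (h : OT P T x y z) : x ∈ Wp P := by
  rw [mem_Wp]
  rcases x with _ | x <;> rcases y with _ | y <;> rcases z with _ | z <;>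
    simp only [OT] at h
  · exact Or.inl rfl
  · exact Or.inr ⟨x, h.1, rfl⟩
  · exact Or.inr ⟨x, h.2.1, rfl⟩
  · exact Or.inr ⟨x, hT.sub _ h.1 (by simp), rfl⟩

theorem OT_ne (x y z : Option Pt) (h : OT P T x y z) : x ≠ y := by
  rcases x with _ | x <;> rcases y with _ | y <;> rcases z with _ | z <;>
    simp only [OT] at h
  · simp
  · simp
  · simpa using h.2.2.1.symm
  · intro he
    have : x = y := by simpa using he
    subst this
    have := h.2
    unfold cr at this
    simp at this

end MP91a79a

end
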