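import Pool.Agent.Lib.MP_91a79a_co.G.G1
import Pool.Agent.Lib.MP_91a79a_co.G.G2
import Pool.Agent.Lib.MP_91a79a_co.G.G3
import Pool.Agent.Lib.MP_91a79a_co.G.G4
import Pool.Agent.Lib.MP_91a79a_co.G.G5

/-!
The sphere of a plane triangulation is a combinatorial triangulation of the sphere (MP_91a79a_co).
-/

noncomputable section

namespace MP91a79a

variable {P : Finset Pt} {T : Finset (Finset Pt)}

theorem OT_link' (hG : GP P) (hT : STri P T) (h3 : 3 ≤ P.card) (v : Option Pt)
    (S : Option Pt → Prop) (h1 : ∃ x y, S x ∧ OT P T v x y)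
    (h2 : ∀ x y, S x → OT P T v x y → S y) (x y : Option Pt) (h : OT P T v x y) : S x := by
  rcases v with _ | v
  · exact OT_link_inf hG hT h3 S h1 h2 x y h
  · exact OT_link hG hT h3 (OT_opp hG hT h3) v S h1 h2 x y h

theorem OT_sph (hG : GP P) (hT : STri P T) (h3 : 3 ≤ P.card) : Sph (Wp P) (OT P T) where
  mem := OT_mem hT
  ne := OT_ne
  rot := OT_rot
  fn := OT_fn hG hT h3
  opp := OT_opp hG hT h3
  opp_ne := OT_opp_ne hG hT h3
  vert := OT_vert hG hT h3
  conn := OT_conn hG hT h3 (OT_link' hG hT h3)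
  link := OT_link' hG hT h3

end MP91a79a

end
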