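import Pool.Agent.Lib.MP_91a79a_co.Chord

/-!
Point sets with triangular hull, subdivided at an interior point; diameters (MP_91a79a_co).
-/

noncomputable section

namespace MP91a79a

open Set

/-- the insertion lemma, as a hypothesis -/
def InsHyp : Prop :=
  ∀ (P : Finset Pt) (T : Finset (Finset Pt)), GP P → IsTriangulation P T →
    ∀ x ∈ P, ∀ y ∈ P, x ≠ y → ∀ W : Finset Pt,
      (∀ u v, Side T u v → Cross x y u v → u ∈ W ∧ v ∈ W) →
      ∃ k ≤ W.card, ∃ T', Reach P k T T' ∧ Side T' x y ∧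
        ∀ u v, Side T u v → ¬ Cross x y u v → Side T' u v

/-- reversibility, as a hypothesis -/
def RevHyp : Prop :=
  ∀ (P : Finset Pt) (k : ℕ) (T T' : Finset (Finset Pt)), GP P → Reach P k T T' → Reach P k T' T

/-- any two triangulations of `P` are at most `k` simultaneous flips apart -/
def Dia (P : Finset Pt) (k : ℕ) : Prop :=
  ∀ T T', IsTriangulation P T → IsTriangulation P T' → Reach P k T T'

theorem Dia.mono {P : Finset Pt} {k k' : ℕ} (h : Dia P k) (hk : k ≤ k') : Dia P k' :=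
  fun T T' hT hT' => (h T T' hT hT').mono hk

theorem side_mem {P : Finset Pt} {T : Finset (Finset Pt)} (hT : IsTriangulation P T) {u v : Pt}
    (h : Side T u v) : u ∈ P ∧ v ∈ P := by
  obtain ⟨-, t, ht, h1, h2⟩ := h
  exact ⟨hT.sub t ht h1, hT.sub t ht h2⟩

/-- inserting a segment -/
theorem InsHyp.one (hins : InsHyp) {P : Finset Pt} {T : Finset (Finset Pt)} (hG : GP P)
    (hT : IsTriangulation P T) {x y : Pt} (hx : x ∈ P) (hy : y ∈ P) (hxy : x ≠ y) :
    ∃ T', Reach P P.card T T' ∧ Side T' x y ∧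
      ∀ u v, Side T u v → ¬ Cross x y u v → Side T' u v := by
  obtain ⟨k, hk, T', h1, h2, h3⟩ := hins P T hG hT x hx y hy hxy P
    (fun u v h _ => side_mem hT h)
  exact ⟨T', h1.mono hk, h2, h3⟩

theorem not_cross_left (q a b : Pt) : ¬ Cross q a q b := by
  rintro ⟨h, -⟩
  rw [cr_self, zero_mul] at h
  exact lt_irrefl _ h

/-! ### cutting along a chord -/

theorem Dia.cut (hins : InsHyp) (hrev : RevHyp) {P : Finset Pt} (hG : GP P) (h3 : 3 ≤ P.card)
    {x y : Pt} (hx : x ∈ P) (hy : y ∈ P) (hxy : x ≠ y) (hvx : HV P x) (hvy : HV P y) {k : ℕ}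
    (hL : 3 ≤ (lft P x y).card → Dia (lft P x y) k)
    (hR : 3 ≤ (lft P y x).card → Dia (lft P y x) k) : Dia P (2 * P.card + k) := by
  by_cases hneg : ∃ p ∈ P, cr x y p < 0
  · by_cases hpos : ∃ p ∈ P, 0 < cr x y p
    · have hc : Chord P x y := ⟨hG, hx, hy, hvx, hvy, hpos, hneg⟩
      intro T T' hT hT'
      obtain ⟨T1, hr, hs, -⟩ := hins.one hG hT hx hy hxy
      obtain ⟨T2, hr', hs', -⟩ := hins.one hG hT' hx hy hxy
      have h1 := hc.reach hr.tri_right hr'.tri_right hs hs' k
        (hL hc.card_lft _ _ (hc.restr hr.tri_right hs) (hc.restr hr'.tri_right hs'))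
        (hR hc.symm.card_lft _ _ (hc.symm.restr hr.tri_right hs.symm)
          (hc.symm.restr hr'.tri_right hs'.symm))
      exact ((hr.trans h1).trans (hrev _ _ _ _ hG hr')).mono (by omega)
    · have e : lft P y x = P := by
        ext w
        rw [mem_lft]
        refine ⟨fun h => h.1, fun h => ⟨h, ?_⟩⟩
        push Not at hpos
        rw [cr_swap]
        linarith [hpos w h]
      rw [e] at hR
      exact (hR h3).mono (by omega)
  · have e : lft P x y = P := by
      ext w
      rw [mem_lft]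
      refine ⟨fun h => h.1, fun h => ⟨h, ?_⟩⟩
      push Not at hneg
      exact hneg w h
    rw [e] at hL
    exact (hL h3).mono (by omega)

/-! ### triangular hull -/

/-- the hull of `P` is the triangle `abc` -/
structure TriHull (P : Finset Pt) (a b c : Pt) : Prop where
  gp : GP P
  ha : a ∈ P
  hb : b ∈ P
  hc : c ∈ P
  pos : 0 < cr a b c
  ins : ∀ p ∈ P, p ≠ a → p ≠ b → p ≠ c → 0 < cr a b p ∧ 0 < cr b c p ∧ 0 < cr c a p

/-- points of `P` in the triangle `abc` -/
def trg (P : Finset Pt) (a b c : Pt) : Finset Pt :=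
  P.filter fun w => 0 ≤ cr a b w ∧ 0 ≤ cr b c w ∧ 0 ≤ cr c a w

theorem mem_trg {P : Finset Pt} {a b c w : Pt} :
    w ∈ trg P a b c ↔ w ∈ P ∧ 0 ≤ cr a b w ∧ 0 ≤ cr b c w ∧ 0 ≤ cr c a w := Finset.mem_filter

theorem trg_sub (P : Finset Pt) (a b c : Pt) : trg P a b c ⊆ P := Finset.filter_subset _ _

theorem cr_bary (a b c u v p : Pt) : cr a b c * cr u v p =
    cr b c p * cr u v a + cr c a p * cr u v b + cr a b p * cr u v c := by
  unfold cr; ring

namespace TriHull

variable {P : Finset Pt} {a b c q : Pt}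

theorem rot (h : TriHull P a b c) : TriHull P b c a := by
  refine ⟨h.gp, h.hb, h.hc, h.ha, by rw [← cr_rot]; exact h.pos, fun p hp h1 h2 h3 => ?_⟩
  obtain ⟨i1, i2, i3⟩ := h.ins p hp h3 h1 h2
  exact ⟨i2, i3, i1⟩

theorem nes (h : TriHull P a b c) : a ≠ b ∧ a ≠ c ∧ b ≠ c := ne_of_cr h.pos.ne'

theorem card (h : TriHull P a b c) : 3 ≤ P.card := by
  obtain ⟨n1, n2, n3⟩ := h.nes
  have hsub : ({a, b, c} : Finset Pt) ⊆ P := by
    intro w hw
    simp only [Finset.mem_insert, Finset.mem_singleton] at hw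
    rcases hw with rfl | rfl | rfl
    · exact h.ha
    · exact h.hb
    · exact h.hc
  have hc : ({a, b, c} : Finset Pt).card = 3 := Finset.card_eq_three.2 ⟨_, _, _, n1, n2, n3, rfl⟩
  rw [← hc]
  exact Finset.card_le_card hsub

theorem mem_hull (h : TriHull P a b c) {w : Pt} (hw : w ∈ P) :
    0 ≤ cr a b w ∧ 0 ≤ cr b c w ∧ 0 ≤ cr c a w := by
  by_cases h1 : w = a
  · subst h1
    refine ⟨(cr_self _ _).ge, ?_, (cr_self' _ _).ge⟩
    rw [← cr_rot]; exact h.pos.le
  by_cases h2 : w = b
  · subst h2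
    refine ⟨(cr_self' _ _).ge, (cr_self _ _).ge, ?_⟩
    rw [← cr_rot, ← cr_rot]; exact h.pos.le
  by_cases h3 : w = c
  · subst h3
    exact ⟨h.pos.le, (cr_self' _ _).ge, (cr_self _ _).ge⟩
  obtain ⟨i1, i2, i3⟩ := h.ins w hw h1 h2 h3
  exact ⟨i1.le, i2.le, i3.le⟩

theorem hull_eq (h : TriHull P a b c) :
    convexHull ℝ (P : Set Pt) = convexHull ℝ ({a, b, c} : Set Pt) := by
  apply Subset.antisymm
  · apply convexHull_min _ (convex_convexHull _ _)
    intro w hw
    obtain ⟨i1, i2, i3⟩ := h.mem_hull hw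
    exact mem_hull_of_cr h.pos i1 i2 i3
  · apply convexHull_mono
    rintro w (rfl | rfl | rfl)
    · exact h.ha
    · exact h.hb
    · exact h.hc

/-- the hull edges join the corners -/
theorem edge_mem (h : TriHull P a b c) {u v : Pt} (hu : u ∈ P) (hv : v ∈ P) (huv : u ≠ v)
    (hw : ∀ w ∈ P, 0 ≤ cr u v w) : (u = a ∨ u = b ∨ u = c) ∧ (v = a ∨ v = b ∨ v = c) := by
  obtain ⟨n1, n2, n3⟩ := h.nes
  have ka := hw a h.ha
  have kb := hw b h.hb
  have kc := hw c h.hc
  have key : ∀ p ∈ P, cr u v p = 0 → p = a ∨ p = b ∨ p = c := by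
    intro p hp hp0
    by_contra hcon
    push Not at hcon
    obtain ⟨i1, i2, i3⟩ := h.ins p hp hcon.1 hcon.2.1 hcon.2.2
    have hb := cr_bary a b c u v p
    rw [hp0, mul_zero] at hb
    have j1 := mul_nonneg i2.le ka
    have j2 := mul_nonneg i3.le kb
    have j3 := mul_nonneg i1.le kc
    have za : cr u v a = 0 := by
      have : cr b c p * cr u v a = 0 := by linarith
      exact (mul_eq_zero.1 this).resolve_left i2.ne'
    have zb : cr u v b = 0 := by
      have : cr c a p * cr u v b = 0 := by linarith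
      exact (mul_eq_zero.1 this).resolve_left i3.ne'
    have zc : cr u v c = 0 := by
      have : cr a b p * cr u v c = 0 := by linarith
      exact (mul_eq_zero.1 this).resolve_left i1.ne'
    have k1 : ∀ w ∈ P, cr u v w = 0 → w = u ∨ w = v := by
      intro w hw hw0
      by_contra hcon
      push Not at hcon
      exact h.gp u hu v hv w hw huv hcon.1.symm hcon.2.symm hw0
    rcases k1 a h.ha za with e1 | e1 <;> rcases k1 b h.hb zb with e2 | e2 <;>
      rcases k1 c h.hc zc with e3 | e3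
    · exact n1 (e1.trans e2.symm)
    · exact n1 (e1.trans e2.symm)
    · exact n2 (e1.trans e3.symm)
    · exact n3 (e2.trans e3.symm)
    · exact n3 (e2.trans e3.symm)
    · exact n2 (e1.trans e3.symm)
    · exact n1 (e1.trans e2.symm)
    · exact n1 (e1.trans e2.symm)
  exact ⟨key u hu (cr_self u v), key v hv (cr_self' u v)⟩

theorem sub (h : TriHull P a b c) (hq : q ∈ P) (h1 : q ≠ a) (h2 : q ≠ b) (h3 : q ≠ c) :
    TriHull (trg P a b q) a b q := by
  obtain ⟨i1, i2, i3⟩ := h.ins q hq h1 h2 h3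
  have e1 : cr b q a = cr a b q := (cr_rot a b q).symm
  have e2 : cr q a b = cr a b q := by rw [← cr_rot b q a, ← cr_rot a b q]
  refine ⟨h.gp.mono (trg_sub _ _ _ _), mem_trg.2 ⟨h.ha, (cr_self _ _).ge, by rw [e1]; exact i1.le,
    (cr_self' _ _).ge⟩, mem_trg.2 ⟨h.hb, (cr_self' _ _).ge, (cr_self _ _).ge,
    by rw [e2]; exact i1.le⟩, mem_trg.2 ⟨hq, i1.le, (cr_self' _ _).ge, (cr_self _ _).ge⟩, i1, ?_⟩
  intro p hp hpa hpb hpq
  obtain ⟨hpP, k1, k2, k3⟩ := mem_trg.1 hp
  refine ⟨k1.lt_of_ne ?_, k2.lt_of_ne ?_, k3.lt_of_ne ?_⟩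
  · exact (h.gp a h.ha b h.hb p hpP h.nes.1 hpa.symm hpb.symm).symm
  · exact (h.gp b h.hb q hq p hpP h2.symm hpb.symm hpq.symm).symm
  · exact (h.gp q hq a h.ha p hpP h1 hpq.symm hpa.symm).symm

/-- triangulation with the three sides at `q`: the three regions -/
theorem star_reach (h : TriHull P a b c) (hq : q ∈ P) (h1 : q ≠ a) (h2 : q ≠ b) (h3 : q ≠ c)
    {T T' : Finset (Finset Pt)} (hT : IsTriangulation P T) (hT' : IsTriangulation P T')
    (sa : Side T q a) (sb : Side T q b) (sc : Side T q c)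
    (sa' : Side T' q a) (sb' : Side T' q b) (sc' : Side T' q c) {k : ℕ}
    (d1 : Dia (trg P a b q) k) (d2 : Dia (trg P b c q) k) (d3 : Dia (trg P c a q) k) :
    Reach P k T T' := by
  obtain ⟨i1, i2, i3⟩ := h.ins q hq h1 h2 h3
  have hh1 := h.sub hq h1 h2 h3
  have hh2 := h.rot.sub hq h2 h3 h1
  have hh3 := h.rot.rot.sub hq h3 h1 h2
  have hsplit := STri.split i1 i2 i3
  obtain ⟨n1, n2, n3⟩ := h.nes
  -- sides of the three regions
  have side_hull : ∀ {T : Finset (Finset Pt)} (_ : IsTriangulation P T) (_ : Side T q a)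
      (_ : Side T q b), ∀ u ∈ trg P a b q, ∀ v ∈ trg P a b q, u ≠ v →
        (∀ w ∈ trg P a b q, 0 ≤ cr u v w) → Side T u v := by
    intro T hT sa sb u hu v hv huv hw
    have hab : Side T a b := hull_side h.gp hT h.ha h.hb n1 fun w hw => (h.mem_hull hw).1
    obtain ⟨e1, e2⟩ := hh1.edge_mem hu hv huv hw
    rcases e1 with rfl | rfl | rfl <;> rcases e2 with rfl | rfl | rfl
    · exact absurd rfl huv
    · exact hab
    · exact sa.symm
    · exact hab.symm
    · exact absurd rfl huv
    · exact sb.symm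
    · exact sa
    · exact sb
    · exact absurd rfl huv
  have side_hull2 : ∀ {T : Finset (Finset Pt)} (_ : IsTriangulation P T) (_ : Side T q b)
      (_ : Side T q c), ∀ u ∈ trg P b c q, ∀ v ∈ trg P b c q, u ≠ v →
        (∀ w ∈ trg P b c q, 0 ≤ cr u v w) → Side T u v := by
    intro T hT sa sb u hu v hv huv hw
    have hab : Side T b c := hull_side h.gp hT h.hb h.hc n3 fun w hw => (h.mem_hull hw).2.1
    obtain ⟨e1, e2⟩ := hh2.edge_mem hu hv huv hw
    rcases e1 with rfl | rfl | rfl <;> rcases e2 with rfl | rfl | rfl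
    · exact absurd rfl huv
    · exact hab
    · exact sa.symm
    · exact hab.symm
    · exact absurd rfl huv
    · exact sb.symm
    · exact sa
    · exact sb
    · exact absurd rfl huv
  have side_hull3 : ∀ {T : Finset (Finset Pt)} (_ : IsTriangulation P T) (_ : Side T q c)
      (_ : Side T q a), ∀ u ∈ trg P c a q, ∀ v ∈ trg P c a q, u ≠ v →
        (∀ w ∈ trg P c a q, 0 ≤ cr u v w) → Side T u v := by
    intro T hT sa sb u hu v hv huv hw
    have hab : Side T c a := hull_side h.gp hT h.hc h.ha n2.symm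
      fun w hw => (h.mem_hull hw).2.2
    obtain ⟨e1, e2⟩ := hh3.edge_mem hu hv huv hw
    rcases e1 with rfl | rfl | rfl <;> rcases e2 with rfl | rfl | rfl
    · exact absurd rfl huv
    · exact hab
    · exact sa.symm
    · exact hab.symm
    · exact absurd rfl huv
    · exact sb.symm
    · exact sa
    · exact sb
    · exact absurd rfl huv
  have closed : ∀ {a b : Pt}, TriHull (trg P a b q) a b q → ∀ p ∈ P,
      p ∈ convexHull ℝ (trg P a b q : Set Pt) → p ∈ trg P a b q := by
    intro a b hh p hp hp'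
    rw [hh.hull_eq] at hp'
    exact mem_trg.2 ⟨hp, cr_of_hull hh.pos.le hp'⟩
  have res : ∀ {a b : Pt} {T : Finset (Finset Pt)}, IsTriangulation P T →
      TriHull (trg P a b q) a b q →
      (∀ u ∈ trg P a b q, ∀ v ∈ trg P a b q, u ≠ v →
        (∀ w ∈ trg P a b q, 0 ≤ cr u v w) → Side T u v) →
      IsTriangulation (trg P a b q) (MP91a79a.restr T (trg P a b q)) := by
    intro a b T hT hh hs
    exact hT.restr (trg_sub _ _ _ _) hh.gp hh.card (closed hh) hs
  have d12 : Disjoint (interior (convexHull ℝ (trg P a b q : Set Pt)))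
      (interior (convexHull ℝ (trg P b c q : Set Pt))) := by
    rw [hh1.hull_eq, hh2.hull_eq]
    apply disj_of_line (a := b) (b := q) h2.symm
    · intro x hx; exact (cr_of_hull i1.le hx).2.1
    · intro x hx
      have := (cr_of_hull i2.le hx).2.2
      rw [cr_swap] at this; linarith
  have d23 : Disjoint (interior (convexHull ℝ (trg P b c q : Set Pt)))
      (interior (convexHull ℝ (trg P c a q : Set Pt))) := by
    rw [hh2.hull_eq, hh3.hull_eq]
    apply disj_of_line (a := c) (b := q) h3.symm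
    · intro x hx; exact (cr_of_hull i2.le hx).2.1
    · intro x hx
      have := (cr_of_hull i3.le hx).2.2
      rw [cr_swap] at this; linarith
  have d31 : Disjoint (interior (convexHull ℝ (trg P c a q : Set Pt)))
      (interior (convexHull ℝ (trg P a b q : Set Pt))) := by
    rw [hh3.hull_eq, hh1.hull_eq]
    apply disj_of_line (a := a) (b := q) h1.symm
    · intro x hx; exact (cr_of_hull i3.le hx).2.1
    · intro x hx
      have := (cr_of_hull i1.le hx).2.2
      rw [cr_swap] at this; linarith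
  refine Reach.of_restr hT hT' (Finset.univ : Finset (Fin 3))
    ![trg P a b q, trg P b c q, trg P c a q] ?_ h.gp ?_ ?_ ?_ ?_ ?_ ?_ k ?_
  · intro i _
    fin_cases i
    · exact trg_sub _ _ _ _
    · exact trg_sub _ _ _ _
    · exact trg_sub _ _ _ _
  · intro i _
    fin_cases i
    · exact hh1.card
    · exact hh2.card
    · exact hh3.card
  · intro i _
    fin_cases i
    · exact closed hh1
    · exact closed hh2
    · exact closed hh3
  · intro i _ j _ hij
    fin_cases i <;> fin_cases j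
    · exact absurd rfl hij
    · exact d12
    · exact d31.symm
    · exact d12.symm
    · exact absurd rfl hij
    · exact d23
    · exact d31
    · exact d23.symm
    · exact absurd rfl hij
  · intro z hz
    rw [h.hull_eq] at hz
    rcases cover3 i1 i2 i3 hz with h4 | h4 | h4
    · exact ⟨0, Finset.mem_univ _, by rw [← hh1.hull_eq] at h4; exact h4⟩
    · exact ⟨1, Finset.mem_univ _, by rw [← hh2.hull_eq] at h4; exact h4⟩
    · exact ⟨2, Finset.mem_univ _, by rw [← hh3.hull_eq] at h4; exact h4⟩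
  · intro i _
    fin_cases i
    · exact side_hull hT sa sb
    · exact side_hull2 hT sb sc
    · exact side_hull3 hT sc sa
  · intro i _
    fin_cases i
    · exact side_hull hT' sa' sb'
    · exact side_hull2 hT' sb' sc'
    · exact side_hull3 hT' sc' sa'
  · intro i _
    fin_cases i
    · exact d1 _ _ (res hT hh1 (side_hull hT sa sb)) (res hT' hh1 (side_hull hT' sa' sb'))
    · exact d2 _ _ (res hT hh2 (side_hull2 hT sb sc)) (res hT' hh2 (side_hull2 hT' sb' sc'))
    · exact d3 _ _ (res hT hh3 (side_hull3 hT sc sa)) (res hT' hh3 (side_hull3 hT' sc' sa'))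

theorem ins3 (hins : InsHyp) (h : TriHull P a b c) (hq : q ∈ P) (h1 : q ≠ a) (h2 : q ≠ b)
    (h3 : q ≠ c) {T : Finset (Finset Pt)} (hT : IsTriangulation P T) :
    ∃ T', Reach P (3 * P.card) T T' ∧ Side T' q a ∧ Side T' q b ∧ Side T' q c := by
  obtain ⟨T1, r1, s1, -⟩ := hins.one h.gp hT hq h.ha h1
  obtain ⟨T2, r2, s2, k2⟩ := hins.one h.gp r1.tri_right hq h.hb h2
  obtain ⟨T3, r3, s3, k3⟩ := hins.one h.gp r2.tri_right hq h.hc h3
  refine ⟨T3, ((r1.trans r2).trans r3).mono (by omega), ?_, ?_, s3⟩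
  · exact k3 _ _ (k2 _ _ s1 (not_cross_left _ _ _)) (not_cross_left _ _ _)
  · exact k3 _ _ s2 (not_cross_left _ _ _)

theorem dia_star (hins : InsHyp) (hrev : RevHyp) (h : TriHull P a b c) (hq : q ∈ P)
    (h1 : q ≠ a) (h2 : q ≠ b) (h3 : q ≠ c) {k : ℕ}
    (d1 : Dia (trg P a b q) k) (d2 : Dia (trg P b c q) k) (d3 : Dia (trg P c a q) k) :
    Dia P (6 * P.card + k) := by
  intro T T' hT hT'
  obtain ⟨T1, r1, sa, sb, sc⟩ := h.ins3 hins hq h1 h2 h3 hT
  obtain ⟨T2, r2, sa', sb', sc'⟩ := h.ins3 hins hq h1 h2 h3 hT'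
  have h4 := h.star_reach hq h1 h2 h3 r1.tri_right r2.tri_right sa sb sc sa' sb' sc' d1 d2 d3
  exact ((r1.trans h4).trans (hrev _ _ _ _ h.gp r2)).mono (by omega)

end TriHull

/-- three points have only one triangulation -/
theorem dia_three {P : Finset Pt} (h3 : P.card = 3) : Dia P 0 := by
  intro T T' hT hT'
  have key : ∀ {T : Finset (Finset Pt)}, IsTriangulation P T → T = {P} := by
    intro T hT
    have h1 : ∀ t ∈ T, t = P := fun t ht =>
      Finset.eq_of_subset_of_card_le (hT.sub t ht) (by rw [h3, hT.card t ht])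
    have hne : P.Nonempty := by rw [← Finset.card_pos]; omega
    obtain ⟨p, hp⟩ := hne
    obtain ⟨t, ht, -⟩ := tri_mem_cover hT (subset_convexHull ℝ _ hp)
    ext s
    rw [Finset.mem_singleton]
    refine ⟨h1 s, ?_⟩
    rintro rfl
    rw [← h1 t ht]
    exact ht
  rw [key hT, key hT']
  rw [key hT] at hT
  exact Reach.refl _ hT

end MP91a79a

end
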