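import Pool.Agent.Lib.MP_91a79a_co.SphDef

/-!
Section 5 of helper43's proof of `HypE` (strip theorem), abstract part: the cyclic sequence of the
mixed edges of a coloured sphere whose mixed edges form one orbit; Hamiltonian cycles from lists.
-/

set_option autoImplicit false

noncomputable section

namespace MP91a79a

open Classical

/-! ### Hamiltonian cycles from lists -/

open SimpleGraph in
theorem ham_of_list' {V : Type} [DecidableEq V] [Fintype V] {G : SimpleGraph V} (l : List V)
    (h3 : 3 ≤ l.length) (hnd : l.Nodup) (hall : ∀ v, v ∈ l)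
    (hch : l.IsChain G.Adj) (hcl : ∀ x ∈ l.getLast?, ∀ y ∈ l.head?, G.Adj x y) :
    G.IsHamiltonian := by
  have hlen : l.length = Fintype.card V := by
    rw [← List.toFinset_card_of_nodup hnd, ← Finset.card_univ]
    congr 1
    ext v; simp [hall v]
  have hne : l ≠ [] := by
    intro h; subst h; simp at h3
  set p := Walk.ofSupport l hne hch with hp
  have hsup : p.support = l := Walk.support_ofSupport hne hch
  have hplen : p.length = l.length - 1 := Walk.length_ofSupport hne hch
  have hadj : G.Adj (l.getLast hne) (l.head hne) := by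
    apply hcl
    · rw [List.getLast?_eq_getLast_of_ne_nil hne]; simp
    · rw [List.head?_eq_some_head hne]; simp
  have hpath : p.IsPath := by
    rw [Walk.isPath_def, hsup]; exact hnd
  intro _
  refine ⟨l.getLast hne, Walk.cons hadj p, ?_⟩
  rw [Walk.isHamiltonianCycle_iff_isCycle_and_length_eq]
  refine ⟨?_, ?_⟩
  · rw [Walk.cons_isCycle_iff]
    refine ⟨hpath, ?_⟩
    intro hmem
    rw [Sym2.eq_swap] at hmem
    have := hpath.length_eq_one_of_mem_edges hmem
    omega
  · rw [Walk.length_cons, hplen, hlen]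
    omega

/-! ### left triangles -/

variable {V : Type*} {W : Finset V} {O : V → V → V → Prop} {col : V → Bool}

/-- third vertex of the left triangle of `d` -/
def apx (O : V → V → V → Prop) (d : V × V) : V :=
  if h : Ed O d.1 d.2 then Classical.choose h else d.1

theorem Mx.tri {d : V × V} (h : Mx O col d) : O d.1 d.2 (apx O d) := by
  unfold apx
  rw [dif_pos h.1]
  exact Classical.choose_spec h.1

/-- the end of `d` which is not in the next edge -/
def lv (O : V → V → V → Prop) (col : V → Bool) (d : V × V) : V :=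
  if col (apx O d) = true then d.1 else d.2

/-- the end of `d` which is in the next edge -/
def stv (O : V → V → V → Prop) (col : V → Bool) (d : V × V) : V :=
  if col (apx O d) = true then d.2 else d.1

/-- `x` is an end of `d` -/
def En (x : V) (d : V × V) : Prop := x = d.1 ∨ x = d.2

/-- `x` is a vertex of the left triangle of `d` -/
def Tn (O : V → V → V → Prop) (x : V) (d : V × V) : Prop := x = d.1 ∨ x = d.2 ∨ x = apx O d

theorem Sph.nxt_cases (hO : Sph W O) {d : V × V} (h : Mx O col d) :
    (col (apx O d) = true ∧ nxt O col d = (apx O d, d.2)) ∨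
    (col (apx O d) = false ∧ nxt O col d = (d.1, apx O d)) := by
  have := hO.nxt_eq h.tri h.2.1 h.2.2
  by_cases hc : col (apx O d) = true
  · rw [if_pos hc] at this
    exact Or.inl ⟨hc, this⟩
  · rw [if_neg hc] at this
    exact Or.inr ⟨by simpa using hc, this⟩

/-- the right triangle of the next edge is the left triangle -/
theorem Sph.nxt_right (hO : Sph W O) {d : V × V} (h : Mx O col d) :
    O (nxt O col d).2 (nxt O col d).1 (lv O col d) := by
  rcases hO.nxt_cases h with ⟨hc, he⟩ | ⟨hc, he⟩
  · rw [he]; unfold lv; rw [if_pos hc]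
    exact hO.rot _ _ _ h.tri
  · rw [he]; unfold lv; rw [if_neg (by rw [hc]; decide)]
    exact hO.rot2 h.tri

theorem en_iff {d : V × V} {x : V} : En x d ↔ x = lv O col d ∨ x = stv O col d := by
  unfold En lv stv
  by_cases hc : col (apx O d) = true
  · rw [if_pos hc, if_pos hc]
  · rw [if_neg hc, if_neg hc]; exact or_comm

theorem Sph.stv_nxt (hO : Sph W O) {d : V × V} (h : Mx O col d) :
    En (stv O col d) (nxt O col d) := by
  rcases hO.nxt_cases h with ⟨hc, he⟩ | ⟨hc, he⟩
  · rw [he]; unfold stv; rw [if_pos hc]; exact Or.inr rfl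
  · rw [he]; unfold stv; rw [if_neg (by rw [hc]; decide)]; exact Or.inl rfl

theorem Sph.tri_ne (hO : Sph W O) {x y z : V} (h : O x y z) : x ≠ y ∧ y ≠ z ∧ z ≠ x :=
  ⟨hO.ne _ _ _ h, hO.ne _ _ _ (hO.rot _ _ _ h), hO.ne _ _ _ (hO.rot2 h)⟩

theorem Sph.lv_nxt (hO : Sph W O) {d : V × V} (h : Mx O col d) :
    ¬ En (lv O col d) (nxt O col d) := by
  have hn := hO.tri_ne h.tri
  rcases hO.nxt_cases h with ⟨hc, he⟩ | ⟨hc, he⟩
  · rw [he]; unfold lv; rw [if_pos hc]
    rintro (h1 | h1)
    · exact hn.2.2 h1.symm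
    · exact hn.1 h1
  · rw [he]; unfold lv; rw [if_neg (by rw [hc]; decide)]
    rintro (h1 | h1)
    · exact hn.1 h1.symm
    · exact hn.2.1 h1

theorem Sph.lv_ne_stv (hO : Sph W O) {d : V × V} (h : Mx O col d) : lv O col d ≠ stv O col d := by
  intro he
  apply hO.lv_nxt h
  rw [he]
  exact hO.stv_nxt h

theorem Sph.tn_iff (hO : Sph W O) {d : V × V} (h : Mx O col d) {x : V} :
    Tn O x d ↔ x = lv O col d ∨ En x (nxt O col d) := by
  unfold Tn En lv
  rcases hO.nxt_cases h with ⟨hc, he⟩ | ⟨hc, he⟩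
  · rw [he, if_pos hc]
    simp only
    tauto
  · rw [he, if_neg (by rw [hc]; decide)]
    simp only
    tauto

theorem tn_of_en {d : V × V} {x : V} (h : En x d) : Tn O x d := by
  rcases h with h | h
  · exact Or.inl h
  · exact Or.inr (Or.inl h)

theorem Sph.tn_of_en_nxt (hO : Sph W O) {d : V × V} (h : Mx O col d) {x : V}
    (hx : En x (nxt O col d)) : Tn O x d := (hO.tn_iff h).2 (Or.inr hx)

theorem Sph.tn_cases (hO : Sph W O) {d : V × V} (h : Mx O col d) {x : V} (hx : Tn O x d) :
    En x d ∨ En x (nxt O col d) := by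
  rcases (hO.tn_iff h).1 hx with h1 | h1
  · exact Or.inl ((en_iff (O := O) (col := col)).2 (Or.inl h1))
  · exact Or.inr h1

/-- the only mixed edges of the left triangle of `d` are `d` and the next edge -/
theorem Sph.mx_of_tn (hO : Sph W O) {d f : V × V} (h : Mx O col d) (hf : Mx O col f)
    (h1 : Tn O f.1 d) (h2 : Tn O f.2 d) : f = d ∨ f = nxt O col d := by
  have hcs := hO.nxt_cases h
  obtain ⟨-, d1, d2⟩ := h
  obtain ⟨-, f1, f2⟩ := hf
  rcases hcs with ⟨hc, he⟩ | ⟨hc, he⟩
  · rw [he]
    have e2 : f.2 = d.2 := by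
      rcases h2 with h2 | h2 | h2
      · rw [h2, d1] at f2; exact absurd f2 (by decide)
      · exact h2
      · rw [h2, hc] at f2; exact absurd f2 (by decide)
    rcases h1 with h1 | h1 | h1
    · exact Or.inl (Prod.ext h1 e2)
    · rw [h1, d2] at f1; exact absurd f1 (by decide)
    · exact Or.inr (Prod.ext h1 e2)
  · rw [he]
    have e1 : f.1 = d.1 := by
      rcases h1 with h1 | h1 | h1
      · exact h1
      · rw [h1, d2] at f1; exact absurd f1 (by decide)
      · rw [h1, hc] at f1; exact absurd f1 (by decide)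
    rcases h2 with h2 | h2 | h2
    · rw [h2, d1] at f2; exact absurd f2 (by decide)
    · exact Or.inl (Prod.ext e1 h2)
    · exact Or.inr (Prod.ext e1 h2)

/-! ### the cyclic sequence of the mixed edges -/

/-- `e 0, ..., e (N - 1)` is the strip -/
structure Seq (O : V → V → V → Prop) (col : V → Bool) (e : ℕ → V × V) (N : ℕ) : Prop where
  mx : ∀ k, Mx O col (e k)
  nx : ∀ k, e (k + 1) = nxt O col (e k)
  pos : 0 < N
  per : e N = e 0
  inj : ∀ i j, i < j → j < i + N → e i ≠ e j
  all : ∀ d, Mx O col d → ∃ k, k < N ∧ e k = d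

theorem exists_seq (hO : Sph W O) {e0 : V × V} (h0 : Mx O col e0)
    (hone : ∀ d, Mx O col d → Orb O col e0 d) :
    ∃ (e : ℕ → V × V) (N : ℕ), Seq O col e N ∧ e 0 = e0 := by
  have hper := hO.period h0
  obtain ⟨N, ⟨hN0, hN⟩, hmin⟩ : ∃ N, (0 < N ∧ (nxt O col)^[N] e0 = e0) ∧
      ∀ j < N, ¬ (0 < j ∧ (nxt O col)^[j] e0 = e0) :=
    ⟨Nat.find hper, Nat.find_spec hper, fun j hj => Nat.find_min hper hj⟩
  refine ⟨fun k => (nxt O col)^[k] e0, N, ⟨?_, ?_, hN0, ?_, ?_, ?_⟩, rfl⟩
  · intro k; exact hO.mx_iter h0 k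
  · intro k; exact Function.iterate_succ_apply' _ _ _
  · exact hN
  · intro i j hij hj heq
    apply hmin (j - i) (by omega)
    refine ⟨by omega, ?_⟩
    have h1 : (nxt O col)^[i] ((nxt O col)^[j - i] e0) = (nxt O col)^[i] e0 := by
      rw [← Function.iterate_add_apply, Nat.add_sub_cancel' hij.le]; exact heq.symm
    exact (hO.nxt_inj.iterate i) h1
  · intro d hd
    obtain ⟨n, hn⟩ := hone d hd
    refine ⟨n % N, Nat.mod_lt _ hN0, ?_⟩
    show (nxt O col)^[n % N] e0 = d
    rw [← hn]
    have h2 : ∀ q r, (nxt O col)^[r + N * q] e0 = (nxt O col)^[r] e0 := by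
      intro q
      induction q with
      | zero => intro r; rfl
      | succ q ih =>
        intro r
        rw [Nat.mul_succ, ← add_assoc, Function.iterate_add_apply, hN, ih]
    conv_rhs => rw [← Nat.mod_add_div n N]
    rw [h2]

namespace Seq

variable {e : ℕ → V × V} {N : ℕ}

theorem lt_inj (h : Seq O col e N) {i j : ℕ} (hi : i < N) (hj : j < N) (he : e i = e j) :
    i = j := by
  rcases lt_trichotomy i j with hlt | heq | hlt
  · exact absurd he (h.inj i j hlt (by omega))
  · exact heq
  · exact absurd he.symm (h.inj j i hlt (by omega))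

/-- an edge `e k` in the left triangle of `e l` -/
theorem tri_mem (hO : Sph W O) (h : Seq O col e N) {k l : ℕ} (h1 : Tn O (e k).1 (e l))
    (h2 : Tn O (e k).2 (e l)) : e k = e l ∨ e k = e (l + 1) := by
  rw [h.nx l]
  exact hO.mx_of_tn (h.mx l) (h.mx k) h1 h2

end Seq

end MP91a79a

end
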