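import Pool.Agent.Lib.MP_91a79a_co.StripB

/-!
Section 5 of helper43's proof of `HypE` (strip theorem), the induction: walking once around the
strip and flipping the mixed edges which are nobody's home, until consecutive visited vertices are
adjacent.
-/

set_option autoImplicit false

noncomputable section

namespace MP91a79a

open Classical

/-- the data of the induction -/
structure Ctx (P : Finset Pt) (T : Finset (Finset Pt)) (col : Option Pt → Bool)
    (home : Pt → Option Pt × Option Pt) (s : Pt → Pt) (e : ℕ → Option Pt × Option Pt)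
    (N : ℕ) : Prop where
  hP : GP P
  hT : STri P T
  hS : ∀ T', STri P T' → Sph (Wp P) (OT P T')
  hcol : col none = false
  hH : Home P T col home s
  hE : Seq (OT P T) col e N

variable {P : Finset Pt} {T : Finset (Finset Pt)} {col : Option Pt → Bool}
  {home : Pt → Option Pt × Option Pt} {s : Pt → Pt} {e : ℕ → Option Pt × Option Pt} {N : ℕ}

/-- nobody's home -/
def Np (P : Finset Pt) (home : Pt → Option Pt × Option Pt) (d : Option Pt × Option Pt) : Prop :=
  ∀ v ∈ P, home v ≠ d

/-- `ab` is not an edge which will be flipped at time `k` or later -/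
def Fut (P : Finset Pt) (home : Pt → Option Pt × Option Pt) (e : ℕ → Option Pt × Option Pt)
    (N k : ℕ) (a b : Pt) : Prop :=
  ∀ l, k ≤ l → l < N → Np P home (e l) → e l ≠ (some a, some b) ∧ e l ≠ (some b, some a)

theorem Fut.mono {k k' : ℕ} {a b : Pt} (h : Fut P home e N k a b) (hk : k ≤ k') :
    Fut P home e N k' a b := fun l hl => h l (hk.trans hl)

theorem Fut.symm {k : ℕ} {a b : Pt} (h : Fut P home e N k a b) : Fut P home e N k b a :=
  fun l hl hN hn => ⟨(h l hl hN hn).2, (h l hl hN hn).1⟩

def Rr (P : Finset Pt) (home : Pt → Option Pt × Option Pt) (e : ℕ → Option Pt × Option Pt)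
    (N k : ℕ) (T' : Finset (Finset Pt)) (a b : Pt) : Prop :=
  Side T' a b ∧ Fut P home e N k a b

def C1 (P : Finset Pt) (s : Pt → Pt) (v w y : Pt) : Prop :=
  HV P v ∨ 0 ≤ cr (s v) v w * cr (s v) v y

def Cur (P : Finset Pt) (home : Pt → Option Pt × Option Pt) (s : Pt → Pt)
    (e : ℕ → Option Pt × Option Pt) (N k : ℕ) (T' : Finset (Finset Pt)) (y : Pt) : Prop :=
  En (some y) (e k) ∨
  (∃ p q, e k = (some p, some q) ∧ y ≠ p ∧ y ≠ q ∧ {y, p, q} ∈ T' ∧ cr p q y < 0 ∧
    (Np P home (e k) → C1 P s p q y ∧ C1 P s q p y)) ∨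
  (∃ p, e k = (some p, none) ∧ Side T' y p ∧ Fut P home e N k y p)

/-- the list with the vertex `x` if its home is `d` -/
def optL (P : Finset Pt) (home : Pt → Option Pt × Option Pt) (d : Option Pt × Option Pt) :
    Option Pt → List Pt
  | some v => if v ∈ P ∧ home v = d then [v] else []
  | none => []

def Ll (P : Finset Pt) (T : Finset (Finset Pt)) (col : Option Pt → Bool)
    (home : Pt → Option Pt × Option Pt) (d : Option Pt × Option Pt) : List Pt :=
  optL P home d (lv (OT P T) col d) ++ optL P home d (stv (OT P T) col d)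

def Al (P : Finset Pt) (T : Finset (Finset Pt)) (col : Option Pt → Bool)
    (home : Pt → Option Pt × Option Pt) (e : ℕ → Option Pt × Option Pt) : ℕ → List Pt
  | 0 => []
  | k + 1 => Al P T col home e k ++ Ll P T col home (e k)

theorem mem_optL {d : Option Pt × Option Pt} {x : Option Pt} {v : Pt} :
    v ∈ optL P home d x ↔ x = some v ∧ v ∈ P ∧ home v = d := by
  rcases x with _ | x
  · simp [optL]
  · simp only [optL, Option.some.injEq]
    by_cases h : x ∈ P ∧ home x = d
    · rw [if_pos h, List.mem_singleton]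
      constructor
      · rintro rfl; exact ⟨rfl, h⟩
      · rintro ⟨rfl, -⟩; rfl
    · rw [if_neg h]
      constructor
      · intro h'; exact absurd h' (by simp)
      · rintro ⟨rfl, h'⟩; exact absurd h' h

namespace Ctx

variable (h : Ctx P T col home s e N)

include h

theorem sph : Sph (Wp P) (OT P T) := h.hS T h.hT

theorem mem_Ll {k : ℕ} {v : Pt} : v ∈ Ll P T col home (e k) ↔ v ∈ P ∧ home v = e k := by
  unfold Ll
  rw [List.mem_append, mem_optL, mem_optL]
  constructor
  · rintro (h1 | h1) <;> exact h1.2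
  · rintro ⟨h1, h2⟩
    have h3 := h.hH.en v h1
    rw [h2, en_iff (O := OT P T) (col := col)] at h3
    rcases h3 with h3 | h3
    · exact Or.inl ⟨h3.symm, h1, h2⟩
    · exact Or.inr ⟨h3.symm, h1, h2⟩

theorem mem_Al {k : ℕ} {v : Pt} :
    v ∈ Al P T col home e k ↔ v ∈ P ∧ ∃ l, l < k ∧ home v = e l := by
  induction k with
  | zero => simp [Al]
  | succ k ih =>
    simp only [Al]
    rw [List.mem_append, ih, h.mem_Ll]
    constructor
    · rintro (⟨h1, l, hl, h2⟩ | ⟨h1, h2⟩)
      · exact ⟨h1, l, by omega, h2⟩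
      · exact ⟨h1, k, by omega, h2⟩
    · rintro ⟨h1, l, hl, h2⟩
      by_cases hlk : l = k
      · subst hlk; exact Or.inr ⟨h1, h2⟩
      · exact Or.inl ⟨h1, l, by omega, h2⟩

theorem nodup_Ll (k : ℕ) : (Ll P T col home (e k)).Nodup := by
  unfold Ll
  have hone : ∀ x, (optL P home (e k) x).Nodup := by
    intro x
    rcases x with _ | x
    · simp [optL]
    · simp only [optL]
      split_ifs <;> simp
  refine List.nodup_append.2 ⟨hone _, hone _, ?_⟩
  intro a ha b hb hab
  subst hab
  rw [mem_optL] at ha hb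
  exact h.sph.lv_ne_stv (h.hE.mx k) (ha.1.trans hb.1.symm)

theorem nodup_Al {k : ℕ} (hk : k ≤ N) : (Al P T col home e k).Nodup := by
  induction k with
  | zero => simp [Al]
  | succ k ih =>
    simp only [Al]
    refine List.nodup_append.2 ⟨ih (by omega), h.nodup_Ll k, ?_⟩
    intro a ha b hb hab
    subst hab
    rw [h.mem_Al] at ha
    rw [h.mem_Ll] at hb
    obtain ⟨-, l, hl, h1⟩ := ha
    rw [hb.2] at h1
    have := h.hE.lt_inj (by omega) (by omega) h1
    omega

/-- if the staying vertex is at home at `e k`, it is the last of the list -/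
theorem last_st {k : ℕ} {v : Pt} (hv : v ∈ P) (h1 : stv (OT P T) col (e k) = some v)
    (h2 : home v = e k) : (Al P T col home e (k + 1)).getLast? = some v := by
  simp only [Al, Ll]
  rw [h1]
  simp only [optL]
  rw [if_pos ⟨hv, h2⟩, ← List.append_assoc, List.getLast?_append]
  simp

/-- right triangle of the next edge, for any `O'` containing the left triangle -/
theorem right {T' : Finset (Finset Pt)} {k : ℕ}
    (hk : OT P T' (e k).1 (e k).2 (apx (OT P T) (e k))) :
    OT P T' (e (k + 1)).2 (e (k + 1)).1 (lv (OT P T) col (e k)) := by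
  rw [h.hE.nx k]
  rcases h.sph.nxt_cases (h.hE.mx k) with ⟨hc, he⟩ | ⟨hc, he⟩
  · rw [he]; unfold lv; rw [if_pos hc]
    exact OT_rot _ _ _ hk
  · rw [he]; unfold lv; rw [if_neg (by rw [hc]; decide)]
    exact OT_rot _ _ _ (OT_rot _ _ _ hk)

theorem fst_some (k : ℕ) : ∃ p, (e k).1 = some p := by
  have := (h.hE.mx k).2.1
  rcases hp : (e k).1 with _ | p
  · rw [hp, h.hcol] at this; exact absurd this (by decide)
  · exact ⟨p, rfl⟩

theorem en_nx {k : ℕ} {x : Option Pt} (hx : En x (e (k + 1))) : Tn (OT P T) x (e k) := by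
  rw [h.hE.nx k] at hx
  exact h.sph.tn_of_en_nxt (h.hE.mx k) hx

/-- `e l` is not in the left triangle of `e k` for other `l` -/
theorem not_tri {k l : ℕ} (h1 : Tn (OT P T) (e l).1 (e k)) (h2 : Tn (OT P T) (e l).2 (e k)) :
    e l = e k ∨ e l = e (k + 1) := h.hE.tri_mem h.sph h1 h2

theorem en_pair {k : ℕ} {a b : Pt} (ha : En (some a) (e k)) (hb : En (some b) (e k))
    (hab : a ≠ b) : e k = (some a, some b) ∨ e k = (some b, some a) := by
  rcases ha with ha | ha <;> rcases hb with hb | hb
  · exact absurd (Option.some.inj (ha.trans hb.symm)) hab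
  · exact Or.inl (Prod.ext ha.symm hb.symm)
  · exact Or.inr (Prod.ext hb.symm ha.symm)
  · exact absurd (Option.some.inj (ha.trans hb.symm)) hab

/-- two mixed edges with the same ends are equal -/
theorem eq_of_swap {k l : ℕ} {a b : Pt} (h1 : e k = (some a, some b))
    (h2 : e l = (some b, some a)) : False := by
  have m1 := (h.hE.mx k).2.1
  have m2 := (h.hE.mx l).2.2
  rw [h1] at m1
  rw [h2] at m2
  simp only at m1 m2
  rw [m1] at m2
  exact absurd m2 (by decide)

theorem fut_pair {k : ℕ} {a b : Pt} (ha : En (some a) (e k)) (hb : En (some b) (e k))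
    (hab : a ≠ b) : Fut P home e N (k + 1) a b := by
  intro l hl hN _
  have hinj := h.hE.inj k l (by omega) (by omega)
  rcases h.en_pair ha hb hab with hk | hk
  · refine ⟨fun hc => hinj (hk.trans hc.symm), fun hc => h.eq_of_swap hk hc⟩
  · refine ⟨fun hc => h.eq_of_swap hk hc, fun hc => hinj (hk.trans hc.symm)⟩

theorem side_pair {T' : Finset (Finset Pt)} (hT' : STri P T') {k : ℕ}
    (hk : OT P T' (e k).1 (e k).2 (apx (OT P T) (e k))) {a b : Pt}
    (ha : En (some a) (e k)) (hb : En (some b) (e k)) (hab : a ≠ b) : Side T' a b := by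
  rcases h.en_pair ha hb hab with hk' | hk'
  · rw [hk'] at hk; exact OT_side h.hP hT' hk
  · rw [hk'] at hk; exact (OT_side h.hP hT' hk).symm

/-- home condition for a vertex different from the last visited one -/
theorem not_home {k : ℕ} {y v : Pt} (hv : v ∈ P) (hve : En (some v) (e (k + 1)))
    (hy : (Al P T col home e (k + 1)).getLast? = some y) (hvy : v ≠ y) :
    ¬ (home v = e k ∧ En (some v) (e k)) := by
  rintro ⟨h1, h2⟩
  rw [en_iff (O := OT P T) (col := col)] at h2
  rcases h2 with h2 | h2
  · rw [h.hE.nx k, h2] at hve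
    exact h.sph.lv_nxt (h.hE.mx k) hve
  · have h3 := h.last_st hv h2.symm h1
    rw [hy] at h3
    exact hvy (Option.some.inj h3).symm

/-- position lemma at `e (k + 1)` -/
theorem posl {k : ℕ} {y v w : Pt} (hv : v ∈ P) (hin : ¬ HV P v)
    (hw : e (k + 1) = (some v, some w) ∨ e (k + 1) = (some w, some v))
    (hnp : Np P home (e (k + 1))) (hy : (Al P T col home e (k + 1)).getLast? = some y)
    (hvy : v ≠ y) :
    cr (s v) v w ≠ 0 ∧ (∀ x, Tn (OT P T) (some x) (e k) → 0 ≤ cr (s v) v w * cr (s v) v x) ∧
      (∀ x, Tn (OT P T) (some x) (e (k + 1)) → 0 ≤ cr (s v) v w * cr (s v) v x) := by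
  have hve : En (some v) (e (k + 1)) := by
    rcases hw with hw | hw
    · rw [hw]; exact Or.inl rfl
    · rw [hw]; exact Or.inr rfl
  have hn := h.not_home hv hve hy hvy
  rw [h.hE.nx k] at hve hw hnp ⊢
  exact h.hH.pos v hv hin (e k) (h.hE.mx k) hve hnp hn w hw

theorem cur_next {T' : Finset (Finset Pt)} (hT' : STri P T') {k : ℕ}
    (hk : OT P T' (e k).1 (e k).2 (apx (OT P T) (e k))) {y : Pt}
    (hye : En (some y) (e k)) (hy : (Al P T col home e (k + 1)).getLast? = some y) :
    Cur P home s e N (k + 1) T' y := by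
  by_cases h1 : En (some y) (e (k + 1))
  · exact Or.inl h1
  have hlv : some y = lv (OT P T) col (e k) := by
    rcases (en_iff (O := OT P T) (col := col)).1 hye with h2 | h2
    · exact h2
    · exfalso
      apply h1
      rw [h.hE.nx k, h2]
      exact h.sph.stv_nxt (h.hE.mx k)
  have hr := h.right hk
  rw [← hlv] at hr
  obtain ⟨p, hp⟩ := h.fst_some (k + 1)
  rw [hp] at hr
  rcases hq : (e (k + 1)).2 with _ | q
  · -- infinite
    rw [hq] at hr
    have hep : e (k + 1) = (some p, none) := Prod.ext hp hq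
    have hHE : HE P y p := hr
    refine Or.inr (Or.inr ⟨p, hep, HE.side h.hP hT' hHE, ?_⟩)
    intro l hl hN _
    have key : ∀ a b : Pt, (a = y ∨ a = p) → (b = y ∨ b = p) → e l ≠ (some a, some b) := by
      intro a b ha hb hc
      have ht : ∀ a : Pt, (a = y ∨ a = p) → Tn (OT P T) (some a) (e k) := by
        rintro a (rfl | rfl)
        · exact tn_of_en hye
        · apply h.en_nx; rw [hep]; exact Or.inl rfl
      rcases h.not_tri (k := k) (l := l) (by rw [hc]; exact ht a ha) (by rw [hc]; exact ht b hb)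
        with h3 | h3
      · exact h.hE.inj k l (by omega) (by omega) h3.symm
      · rw [hc, hep] at h3
        exact absurd (Prod.mk.inj h3).2 (by simp)
    exact ⟨key y p (Or.inl rfl) (Or.inr rfl), key p y (Or.inr rfl) (Or.inl rfl)⟩
  · rw [hq] at hr
    have hep : e (k + 1) = (some p, some q) := Prod.ext hp hq
    obtain ⟨hmem, hpos⟩ := hr
    have hmem' : {y, p, q} ∈ T' := by
      have : ({q, p, y} : Finset Pt) = {y, p, q} := by
        ext x; simp only [Finset.mem_insert, Finset.mem_singleton]; tauto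
      rw [this] at hmem; exact hmem
    have hneg : cr p q y < 0 := by
      have : cr p q y = - cr q p y := by unfold cr; ring
      rw [this]; linarith
    have hyp : y ≠ p := (ne_of_cr hpos.ne').2.2.symm
    have hyq : y ≠ q := (ne_of_cr hpos.ne').2.1.symm
    have hpP : p ∈ P := hT'.sub _ hmem' (by simp)
    have hqP : q ∈ P := hT'.sub _ hmem' (by simp)
    refine Or.inr (Or.inl ⟨p, q, hep, hyp, hyq, hmem', hneg, ?_⟩)
    intro hnp
    refine ⟨?_, ?_⟩
    · by_cases hin : HV P p
      · exact Or.inl hin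
      · exact Or.inr ((h.posl hpP hin (Or.inl hep) hnp hy hyp.symm).2.1 y (tn_of_en hye))
    · by_cases hin : HV P q
      · exact Or.inl hin
      · exact Or.inr ((h.posl hqP hin (Or.inr hep) hnp hy hyq.symm).2.1 y (tn_of_en hye))

/-- the current witness triangle is not in the strip ahead -/
theorem not_ahead {T' : Finset (Finset Pt)} (hT' : STri P T') {k : ℕ} (hk1 : 1 ≤ k)
    (keep : ∀ l, k ≤ l → l < N → OT P T' (e l).1 (e l).2 (apx (OT P T) (e l)))
    {y p q : Pt} (hek : e k = (some p, some q)) (hyp : y ≠ p) (hyq : y ≠ q)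
    (hmem : {y, p, q} ∈ T') (hneg : cr p q y < 0) {l : ℕ} (hl : k + 1 ≤ l) (hlN : l < N)
    {a b : Pt} (ha : a ∈ ({y, p, q} : Finset Pt)) (hb : b ∈ ({y, p, q} : Finset Pt)) :
    e l ≠ (some a, some b) := by
  intro hel
  have hab : a ≠ b := by
    rintro rfl
    have := (h.hE.mx l).2
    rw [hel] at this
    exact absurd (this.1.symm.trans this.2) (by decide)
  obtain ⟨r, hr, hcr⟩ := hT'.side_cr hmem hab ha hb
  have hS' := h.hS T' hT'
  have hall : ∀ x ∈ ({y, p, q} : Finset Pt), x = a ∨ x = b ∨ x = r := by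
    intro x hx; rw [hr] at hx; simpa using hx
  have e1 : e k ≠ e l := h.hE.inj k l (by omega) (by omega)
  have e2 : e k ≠ e (l + 1) := h.hE.inj k (l + 1) (by omega) (by omega)
  rcases lt_or_gt_of_ne hcr with h1 | h1
  · -- the triangle is the right triangle of `e l`
    have hO : OT P T' (some b) (some a) (some r) := by
      refine ⟨?_, ?_⟩
      · rw [perm_bac, ← hr]; exact hmem
      · rw [cr_swap]; linarith
    obtain ⟨j, rfl⟩ : ∃ j, l = j + 1 := ⟨l - 1, by omega⟩
    have hj := h.right (keep j (by omega) (by omega))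
    rw [hel] at hj
    have hlv := hS'.fn _ _ _ _ hO hj
    have htn : ∀ x : Pt, (x = a ∨ x = b ∨ x = r) → Tn (OT P T) (some x) (e j) := by
      intro x hx
      rw [h.sph.tn_iff (h.hE.mx j), ← h.hE.nx j, ← hlv, hel]
      rcases hx with rfl | rfl | rfl
      · exact Or.inr (Or.inl rfl)
      · exact Or.inr (Or.inr rfl)
      · exact Or.inl rfl
    have h3 := h.not_tri (k := j) (l := k) (by rw [hek]; exact htn p (hall p (by simp)))
      (by rw [hek]; exact htn q (hall q (by simp)))
    rcases h3 with h3 | h3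
    · by_cases hkj : k = j
      · subst hkj
        have hy := htn y (hall y (by simp))
        have hapx := keep k le_rfl (by omega)
        rw [hek] at hapx
        have hO2 : OT P T' (some q) (some p) (some y) := by
          refine ⟨?_, ?_⟩
          · have : ({q, p, y} : Finset Pt) = {y, p, q} := by
              ext x; simp only [Finset.mem_insert, Finset.mem_singleton]; tauto
            rw [this]; exact hmem
          · rw [cr_swap]; linarith
        have hne := hS'.opp_ne _ _ _ _ hapx hO2
        rcases hy with hy | hy | hy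
        · rw [hek] at hy; exact hyp (Option.some.inj hy)
        · rw [hek] at hy; exact hyq (Option.some.inj hy)
        · rw [hek] at hy; exact hne hy.symm
      · exact h.hE.inj k j (by omega) (by omega) h3
    · exact e1 h3
  · have hO : OT P T' (some a) (some b) (some r) := by
      refine ⟨?_, h1⟩
      rw [← hr]; exact hmem
    have hj := keep l (by omega) hlN
    rw [hel] at hj
    have hapx := hS'.fn _ _ _ _ hO hj
    have htn : ∀ x : Pt, (x = a ∨ x = b ∨ x = r) → Tn (OT P T) (some x) (e l) := by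
      intro x hx
      unfold Tn
      rw [hel]
      rcases hx with rfl | rfl | rfl
      · exact Or.inl rfl
      · exact Or.inr (Or.inl rfl)
      · exact Or.inr (Or.inr hapx)
    have h3 := h.not_tri (k := l) (l := k) (by rw [hek]; exact htn p (hall p (by simp)))
      (by rw [hek]; exact htn q (hall q (by simp)))
    rcases h3 with h3 | h3
    · exact e1 h3
    · exact e2 h3

theorem fut_tri {T' : Finset (Finset Pt)} (hT' : STri P T') {k : ℕ} (hk1 : 1 ≤ k)
    (keep : ∀ l, k ≤ l → l < N → OT P T' (e l).1 (e l).2 (apx (OT P T) (e l)))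
    {y p q : Pt} (hek : e k = (some p, some q)) (hyp : y ≠ p) (hyq : y ≠ q)
    (hmem : {y, p, q} ∈ T') (hneg : cr p q y < 0)
    {a b : Pt} (ha : a ∈ ({y, p, q} : Finset Pt)) (hb : b ∈ ({y, p, q} : Finset Pt)) :
    Fut P home e N (k + 1) a b := fun _ hl hN _ =>
  ⟨h.not_ahead hT' hk1 keep hek hyp hyq hmem hneg hl hN ha hb,
    h.not_ahead hT' hk1 keep hek hyp hyq hmem hneg hl hN hb ha⟩

/-- a triangle of the strip ahead does not contain `e k` -/
theorem ahead_no {k l : ℕ} (hk1 : 1 ≤ k) (hl : k + 1 ≤ l) (hlN : l < N) {p q : Pt}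
    (hek : e k = (some p, some q)) :
    ¬ (Tn (OT P T) (some p) (e l) ∧ Tn (OT P T) (some q) (e l)) := by
  rintro ⟨h1, h2⟩
  rcases h.not_tri (k := l) (l := k) (by rw [hek]; exact h1) (by rw [hek]; exact h2) with h3 | h3
  · exact h.hE.inj k l (by omega) (by omega) h3
  · exact h.hE.inj k (l + 1) (by omega) (by omega) h3

end Ctx

end MP91a79a

end
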