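import Pool.Agent.Lib.MP_91a79a_co.StripC

/-!
Section 5 of helper43's proof of `HypE` (strip theorem): the step of the induction and the theorem.
-/

set_option autoImplicit false

noncomputable section

namespace MP91a79a

open Classical

variable {P : Finset Pt} {T : Finset (Finset Pt)} {col : Option Pt → Bool}
  {home : Pt → Option Pt × Option Pt} {s : Pt → Pt} {e : ℕ → Option Pt × Option Pt} {N : ℕ}

/-- the state at time `k` -/
structure St (P : Finset Pt) (T : Finset (Finset Pt)) (col : Option Pt → Bool)
    (home : Pt → Option Pt × Option Pt) (s : Pt → Pt) (e : ℕ → Option Pt × Option Pt)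
    (N k : ℕ) (T' : Finset (Finset Pt)) (y : Pt) : Prop where
  tri : STri P T'
  keep : ∀ l, k ≤ l → l < N → OT P T' (e l).1 (e l).2 (apx (OT P T) (e l))
  chain : (Al P T col home e k).IsChain (Rr P home e N k T')
  last : (Al P T col home e k).getLast? = some y
  cur : Cur P home s e N k T' y
  first : ∀ p q, e 0 = (some p, some q) → Side T' p q
  card : (T' \ T).card ≤ 2 * ((Finset.range k).filter (fun l => Np P home (e l))).card

theorem chain_optL {R : Pt → Pt → Prop} (d : Option Pt × Option Pt) (x : Option Pt) :
    (optL P home d x).IsChain R := by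
  rcases x with _ | x
  · simp [optL]
  · simp only [optL]
    split_ifs <;> simp

namespace Ctx

variable (h : Ctx P T col home s e N)

include h

theorem chain_Ll {T' : Finset (Finset Pt)} (hT' : STri P T') {k : ℕ}
    (hk : OT P T' (e k).1 (e k).2 (apx (OT P T) (e k))) :
    (Ll P T col home (e k)).IsChain (Rr P home e N (k + 1) T') := by
  unfold Ll
  rw [List.isChain_append]
  refine ⟨chain_optL _ _, chain_optL _ _, ?_⟩
  intro x hx y hy
  have hx1 := List.mem_of_mem_getLast? hx
  have hy1 := List.mem_of_mem_head? hy
  rw [mem_optL] at hx1 hy1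
  have ex : En (some x) (e k) := (en_iff (O := OT P T) (col := col)).2 (Or.inl hx1.1.symm)
  have ey : En (some y) (e k) := (en_iff (O := OT P T) (col := col)).2 (Or.inr hy1.1.symm)
  have hxy : x ≠ y := by
    rintro rfl
    exact h.sph.lv_ne_stv (h.hE.mx k) (hx1.1.trans hy1.1.symm)
  exact ⟨h.side_pair hT' hk ex ey hxy, h.fut_pair ex ey hxy⟩

theorem last_Ll {k : ℕ} (hn : ¬ Np P home (e k)) :
    ∃ y, (Al P T col home e (k + 1)).getLast? = some y ∧ y ∈ P ∧ home y = e k := by
  unfold Np at hn
  push Not at hn
  obtain ⟨v, hv, hve⟩ := hn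
  have hmem := h.mem_Ll.2 ⟨hv, hve⟩
  have hne : Ll P T col home (e k) ≠ [] := List.ne_nil_of_mem hmem
  refine ⟨(Ll P T col home (e k)).getLast hne, ?_, ?_⟩
  · simp only [Al]
    rw [List.getLast?_append, List.getLast?_eq_getLast_of_ne_nil hne]
    simp
  · exact h.mem_Ll.1 (List.getLast_mem hne)

theorem Ll_nil {k : ℕ} (hn : Np P home (e k)) : Ll P T col home (e k) = [] := by
  rw [List.eq_nil_iff_forall_not_mem]
  intro v hv
  have := h.mem_Ll.1 hv
  exact hn v this.1 this.2

theorem start (hn : ¬ Np P home (e 0)) : ∃ y, St P T col home s e N 1 T y := by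
  obtain ⟨y, hy, hyP, hye⟩ := h.last_Ll hn
  have hk : OT P T (e 0).1 (e 0).2 (apx (OT P T) (e 0)) := (h.hE.mx 0).tri
  refine ⟨y, h.hT, fun l _ _ => (h.hE.mx l).tri, ?_, hy, ?_, ?_, ?_⟩
  · simp only [Al, List.nil_append]
    exact h.chain_Ll h.hT hk
  · refine h.cur_next h.hT hk ?_ hy
    rw [← hye]; exact h.hH.en y hyP
  · intro p q hpq
    rw [hpq] at hk
    exact OT_side h.hP h.hT hk
  · simp

theorem card_mono (k : ℕ) : ((Finset.range k).filter (fun l => Np P home (e l))).card ≤
    ((Finset.range (k + 1)).filter (fun l => Np P home (e l))).card := by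
  apply Finset.card_le_card
  apply Finset.filter_subset_filter
  intro x hx
  rw [Finset.mem_range] at hx ⊢
  omega

theorem stepA {T' : Finset (Finset Pt)} {y : Pt} {k : ℕ} (hk1 : 1 ≤ k) (hkN : k < N)
    (st : St P T col home s e N k T' y) (hn : ¬ Np P home (e k)) :
    ∃ y', St P T col home s e N (k + 1) T' y' := by
  obtain ⟨y', hy', hyP', hye'⟩ := h.last_Ll hn
  have hk := st.keep k le_rfl hkN
  refine ⟨y', st.tri, fun l hl hN => st.keep l (by omega) hN, ?_, hy', ?_, st.first, ?_⟩
  · simp only [Al]
    rw [List.isChain_append]
    refine ⟨st.chain.imp (fun a b hab => ⟨hab.1, hab.2.mono (by omega)⟩),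
      h.chain_Ll st.tri hk, ?_⟩
    intro x hx z hz
    rw [st.last] at hx
    have hxy : y = x := by simpa using hx
    subst hxy
    have hz1 := h.mem_Ll.1 (List.mem_of_mem_head? hz)
    have hze : En (some z) (e k) := by rw [← hz1.2]; exact h.hH.en z hz1.1
    have hyA : y ∈ Al P T col home e k := List.mem_of_mem_getLast? (by rw [st.last]; rfl)
    have hyz : y ≠ z := by
      rintro rfl
      obtain ⟨-, l, hl, hl2⟩ := h.mem_Al.1 hyA
      rw [hz1.2] at hl2
      have := h.hE.lt_inj hkN (by omega) hl2
      omega
    rcases st.cur with hc | ⟨p, q, hek, hyp, hyq, hmem, hneg, -⟩ | ⟨p, hek, hside, hfut⟩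
    · exact ⟨h.side_pair st.tri hk hc hze hyz, h.fut_pair hc hze hyz⟩
    · have hz2 : z = p ∨ z = q := by
        rw [hek] at hze
        rcases hze with hze | hze
        · exact Or.inl (Option.some.inj hze)
        · exact Or.inr (Option.some.inj hze)
      have hzm : z ∈ ({y, p, q} : Finset Pt) := by
        rcases hz2 with rfl | rfl <;> simp
      exact ⟨⟨hyz, _, hmem, by simp, hzm⟩,
        h.fut_tri st.tri hk1 st.keep hek hyp hyq hmem hneg (by simp) hzm⟩
    · have hz2 : z = p := by
        rw [hek] at hze
        rcases hze with hze | hze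
        · exact Option.some.inj hze
        · exact absurd hze (by simp)
      subst hz2
      exact ⟨hside, hfut.mono (by omega)⟩
  · refine h.cur_next st.tri hk ?_ hy'
    rw [← hye']; exact h.hH.en y' hyP'
  · exact st.card.trans (Nat.mul_le_mul le_rfl (h.card_mono k))

/-- sides survive a flip -/
theorem side_flip {T' : Finset (Finset Pt)} {p q y z a b : Pt} (hs : Side T' a b)
    (h1 : ¬ (a = p ∧ b = q)) (h2 : ¬ (a = q ∧ b = p)) :
    Side ((T' \ {{p, q, y}, {p, q, z}}) ∪ {{p, y, z}, {q, y, z}}) a b := by
  obtain ⟨hne, t, ht, ha, hb⟩ := hs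
  by_cases e1 : t = {p, q, y}
  · subst e1
    simp only [Finset.mem_insert, Finset.mem_singleton] at ha hb
    have : (a ∈ ({p, y, z} : Finset Pt) ∧ b ∈ ({p, y, z} : Finset Pt)) ∨
        (a ∈ ({q, y, z} : Finset Pt) ∧ b ∈ ({q, y, z} : Finset Pt)) := by
      simp only [Finset.mem_insert, Finset.mem_singleton]
      tauto
    rcases this with h3 | h3
    · exact ⟨hne, _, Finset.mem_union_right _ (by simp), h3.1, h3.2⟩
    · exact ⟨hne, _, Finset.mem_union_right _ (by simp), h3.1, h3.2⟩
  · by_cases e2 : t = {p, q, z}
    · subst e2
      simp only [Finset.mem_insert, Finset.mem_singleton] at ha hb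
      have : (a ∈ ({p, y, z} : Finset Pt) ∧ b ∈ ({p, y, z} : Finset Pt)) ∨
          (a ∈ ({q, y, z} : Finset Pt) ∧ b ∈ ({q, y, z} : Finset Pt)) := by
        simp only [Finset.mem_insert, Finset.mem_singleton]
        tauto
      rcases this with h3 | h3
      · exact ⟨hne, _, Finset.mem_union_right _ (by simp), h3.1, h3.2⟩
      · exact ⟨hne, _, Finset.mem_union_right _ (by simp), h3.1, h3.2⟩
    · refine ⟨hne, t, Finset.mem_union_left _ (Finset.mem_sdiff.2 ⟨ht, ?_⟩), ha, hb⟩
      simp only [Finset.mem_insert, Finset.mem_singleton, not_or]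
      exact ⟨e1, e2⟩

/-- the geometric part of the flip -/
theorem stepB {T' : Finset (Finset Pt)} {y : Pt} {k : ℕ} (hk1 : 1 ≤ k) (hkN : k < N)
    (st : St P T col home s e N k T' y) (hn : Np P home (e k)) :
    ∃ T'' y', St P T col home s e N (k + 1) T'' y' := by
  have hk := st.keep k le_rfl hkN
  have hAl : Al P T col home e (k + 1) = Al P T col home e k := by
    simp only [Al]; rw [h.Ll_nil hn, List.append_nil]
  have hlast : (Al P T col home e (k + 1)).getLast? = some y := by rw [hAl]; exact st.last
  have hcard := st.card.trans (Nat.mul_le_mul le_rfl (h.card_mono k))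
  have hchain : (Al P T col home e (k + 1)).IsChain (Rr P home e N (k + 1) T') := by
    rw [hAl]
    exact st.chain.imp (fun a b hab => ⟨hab.1, hab.2.mono (by omega)⟩)
  rcases st.cur with hc | ⟨p, q, hek, hyp, hyq, hmem, hneg, hC⟩ | ⟨p, hek, hside, hfut⟩
  · exact ⟨T', y, st.tri, fun l hl hN => st.keep l (by omega) hN, hchain, hlast,
      h.cur_next st.tri hk hc hlast, st.first, hcard⟩
  · -- the witness triangle `y p q`
    have hk' := hk
    rw [hek] at hk'
    have hpP : p ∈ P := st.tri.sub _ hmem (by simp)
    have hqP : q ∈ P := st.tri.sub _ hmem (by simp)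
    have hyP : y ∈ P := st.tri.sub _ hmem (by simp)
    obtain ⟨hCp, hCq⟩ := hC hn
    obtain ⟨j, rfl⟩ : ∃ j, k = j + 1 := ⟨k - 1, by omega⟩
    rw [← hek] at hk'
    have hnc := h.sph.nxt_cases (h.hE.mx (j + 1))
    rw [← h.hE.nx] at hnc
    rcases hz : apx (OT P T) (e (j + 1)) with _ | z
    · -- infinity: no flip
      have hnx : e (j + 1 + 1) = (some p, none) := by
        rw [hz, h.hcol] at hnc
        rcases hnc with hnc | hnc
        · exact absurd hnc.1 (by decide)
        · rw [hnc.2, hek]
      refine ⟨T', y, st.tri, fun l hl hN => st.keep l (by omega) hN, hchain, hlast,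
        Or.inr (Or.inr ⟨p, hnx, ⟨hyp, _, hmem, by simp, by simp⟩, ?_⟩), st.first, hcard⟩
      exact h.fut_tri st.tri hk1 st.keep hek hyp hyq hmem hneg (by simp) (by simp)
    · -- flip
      rw [hz, hek] at hk
      obtain ⟨hmz, hpz⟩ := hk
      have hzP : z ∈ P := st.tri.sub _ hmz (by simp)
      have hyz : y ≠ z := by rintro rfl; exact absurd hpz (not_lt.2 hneg.le)
      have hpz1 : z ≠ p := (ne_of_cr hpz.ne').2.1.symm
      have hqz1 : z ≠ q := (ne_of_cr hpz.ne').2.2.symm
      have tz : Tn (OT P T) (some z) (e (j + 1)) := by
        unfold Tn; rw [hz]; exact Or.inr (Or.inr rfl)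
      have tp : Tn (OT P T) (some p) (e (j + 1)) := by
        unfold Tn; rw [hek]; exact Or.inl rfl
      have tq : Tn (OT P T) (some q) (e (j + 1)) := by
        unfold Tn; rw [hek]; exact Or.inr (Or.inl rfl)
      -- conditions at `p` and `q`
      have hpos : ∀ v w : Pt, v ∈ P → ¬ HV P v → (e (j + 1) = (some v, some w) ∨
          e (j + 1) = (some w, some v)) → v ≠ y → cr (s v) v w ≠ 0 ∧
          0 ≤ cr (s v) v w * cr (s v) v z := by
        intro v w hv hin hvw hvy
        have := h.posl hv hin hvw hn st.last hvy
        exact ⟨this.1, this.2.2 z tz⟩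
      have hFp : ∃ α β : ℝ, (α ≠ 0 ∨ β ≠ 0) ∧ lf α β p ≤ lf α β y ∧ lf α β p ≤ lf α β q ∧
          lf α β p ≤ lf α β z := by
        by_cases hin : HV P p
        · exact fun_of_hv hin hqP hyP hzP
        · obtain ⟨h1, h2⟩ := hpos p q hpP hin (Or.inl hek) hyp.symm
          rcases hCp with h3 | h3
          · exact absurd h3 hin
          · exact fun_of_line h1 h3 h2
      have hFq : ∃ α β : ℝ, (α ≠ 0 ∨ β ≠ 0) ∧ lf α β q ≤ lf α β z ∧ lf α β q ≤ lf α β p ∧
          lf α β q ≤ lf α β y := by
        by_cases hin : HV P q
        · exact fun_of_hv hin hpP hzP hyP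
        · obtain ⟨h1, h2⟩ := hpos q p hqP hin (Or.inr hek) hyq.symm
          rcases hCq with h3 | h3
          · exact absurd h3 hin
          · exact fun_of_line h1 h2 h3
      have t1 : 0 < cr p y z := by
        refine turn (q := q) ?_ hpz ?_ hFp
        · have : cr p y q = - cr p q y := by unfold cr; ring
          rw [this]; linarith
        · exact h.hP p hpP y hyP z hzP hyp.symm hpz1.symm hyz
      have t2 : 0 < cr q z y := by
        refine turn (q := p) ?_ ?_ ?_ hFq
        · have : cr q z p = cr p q z := by unfold cr; ring
          rw [this]; exact hpz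
        · have : cr q p y = - cr p q y := by unfold cr; ring
          rw [this]; linarith
        · exact h.hP q hqP z hzP y hyP hqz1.symm hyq.symm hyz.symm
      have hcross : Cross p q y z := by
        refine ⟨mul_neg_of_neg_of_pos hneg hpz, ?_⟩
        have e1 : cr y z p = cr p y z := by unfold cr; ring
        have e2 : cr y z q = - cr q z y := by unfold cr; ring
        rw [e1, e2]
        exact mul_neg_of_pos_of_neg t1 (by linarith)
      have hmy : {p, q, y} ∈ T' := by
        have : ({p, q, y} : Finset Pt) = {y, p, q} := by
          ext x; simp only [Finset.mem_insert, Finset.mem_singleton]; tauto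
        rw [this]; exact hmem
      set T'' := (T' \ {{p, q, y}, {p, q, z}}) ∪ {{p, y, z}, {q, y, z}} with hT''
      have hST'' : STri P T'' := st.tri.flip hmy hmz hcross
      have hnew1 : {p, y, z} ∈ T'' := Finset.mem_union_right _ (by simp)
      have hnew2 : {q, y, z} ∈ T'' := Finset.mem_union_right _ (by simp)
      have hkeep : ∀ l, j + 1 + 1 ≤ l → l < N →
          OT P T'' (e l).1 (e l).2 (apx (OT P T) (e l)) := by
        intro l hl hlN
        have hold := st.keep l (by omega) hlN
        have hah := h.ahead_no hk1 hl hlN hek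
        rcases hx1 : (e l).1 with _ | x1
        · rw [hx1] at hold
          rcases hx2 : (e l).2 with _ | x2
          · rw [hx2] at hold; simp [OT] at hold
          · rw [hx2] at hold
            rcases hx3 : apx (OT P T) (e l) with _ | x3
            · rw [hx3] at hold; simp [OT] at hold
            · rw [hx3] at hold; exact hold
        · rw [hx1] at hold
          rcases hx2 : (e l).2 with _ | x2
          · rw [hx2] at hold
            rcases hx3 : apx (OT P T) (e l) with _ | x3
            · rw [hx3] at hold; simp [OT] at hold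
            · rw [hx3] at hold; exact hold
          · rw [hx2] at hold
            rcases hx3 : apx (OT P T) (e l) with _ | x3
            · rw [hx3] at hold; exact hold
            · rw [hx3] at hold
              refine ⟨?_, hold.2⟩
              refine Finset.mem_union_left _ (Finset.mem_sdiff.2 ⟨hold.1, ?_⟩)
              have htn : ∀ x ∈ ({x1, x2, x3} : Finset Pt), Tn (OT P T) (some x) (e l) := by
                intro x hx
                simp only [Finset.mem_insert, Finset.mem_singleton] at hx
                unfold Tn
                rw [hx1, hx2, hx3]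
                rcases hx with rfl | rfl | rfl
                · exact Or.inl rfl
                · exact Or.inr (Or.inl rfl)
                · exact Or.inr (Or.inr rfl)
              intro hc
              simp only [Finset.mem_insert, Finset.mem_singleton] at hc
              apply hah
              rcases hc with hc | hc
              · exact ⟨htn p (by rw [hc]; simp), htn q (by rw [hc]; simp)⟩
              · exact ⟨htn p (by rw [hc]; simp), htn q (by rw [hc]; simp)⟩
      have hcr1 : cr z q y < 0 := by
        have : cr z q y = - cr q z y := by unfold cr; ring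
        rw [this]; linarith
      have hcr2 : cr p z y < 0 := by
        have : cr p z y = - cr p y z := by unfold cr; ring
        rw [this]; linarith
      -- the new vertex
      have hnewv : ∀ w v' : Pt, ((w = p ∧ v' = q) ∨ (w = q ∧ v' = p)) →
          (e (j + 1 + 1) = (some z, some w) ∨ e (j + 1 + 1) = (some w, some z)) →
          Np P home (e (j + 1 + 1)) → C1 P s z w y := by
        intro w v' hwv hzw hnp
        by_cases hin : HV P z
        · exact Or.inl hin
        · right
          have hzy : z ≠ y := hyz.symm
          obtain ⟨-, hp1, -⟩ := h.posl hzP hin hzw hnp hlast hzy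
          have hp2 := hp1 p tp
          have hp3 := hp1 q tq
          have hz0 : 0 < cr z p q := by
            have : cr z p q = cr p q z := by unfold cr; ring
            rw [this]; exact hpz
          have e1 : cr z p q * cr (s z) z y = cr z y q * cr (s z) z p +
              cr z p y * cr (s z) z q := by unfold cr; ring
          have e2 : cr z y q = cr q z y := by unfold cr; ring
          have e3 : cr z p y = cr p y z := by unfold cr; ring
          rw [e2, e3] at e1
          have e4 : cr z p q * (cr (s z) z w * cr (s z) z y) =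
              cr q z y * (cr (s z) z w * cr (s z) z p) +
              cr p y z * (cr (s z) z w * cr (s z) z q) := by
            calc cr z p q * (cr (s z) z w * cr (s z) z y)
                = cr (s z) z w * (cr z p q * cr (s z) z y) := by ring
              _ = cr (s z) z w * (cr q z y * cr (s z) z p + cr p y z * cr (s z) z q) := by
                  rw [e1]
              _ = _ := by ring
          have e5 : 0 ≤ cr z p q * (cr (s z) z w * cr (s z) z y) := by
            rw [e4]
            exact add_nonneg (mul_nonneg t2.le hp2) (mul_nonneg t1.le hp3)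
          exact nonneg_of_mul_nonneg_right e5 hz0
      -- the old vertex
      have hold : ∀ v w : Pt, v ∈ P → (e (j + 1) = (some v, some w) ∨
          e (j + 1) = (some w, some v)) → v ≠ y → C1 P s v w y → C1 P s v z y := by
        intro v w hv hvw hvy hc
        by_cases hin : HV P v
        · exact Or.inl hin
        · right
          obtain ⟨h1, h2⟩ := hpos v w hv hin hvw hvy
          rcases hc with hc | hc
          · exact absurd hc hin
          · have h3 : 0 ≤ (cr (s v) v w * cr (s v) v w) * (cr (s v) v z * cr (s v) v y) := by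
              have := mul_nonneg h2 hc
              nlinarith [this]
            exact nonneg_of_mul_nonneg_right h3 (mul_self_pos.2 h1)
      refine ⟨T'', y, hST'', hkeep, ?_, hlast, ?_, ?_, ?_⟩
      · rw [hAl]
        refine st.chain.imp ?_
        intro a b hab
        refine ⟨?_, hab.2.mono (by omega)⟩
        have hf := hab.2 (j + 1) le_rfl hkN hn
        refine h.side_flip hab.1 ?_ ?_
        · rintro ⟨rfl, rfl⟩; exact hf.1 hek
        · rintro ⟨rfl, rfl⟩; exact hf.2 hek
      · right; left
        rcases hnc with ⟨hc, hnx⟩ | ⟨hc, hnx⟩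
        · rw [hz, hek] at hnx
          refine ⟨z, q, hnx, hyz, hyq, ?_, hcr1, ?_⟩
          · have : ({y, z, q} : Finset Pt) = {q, y, z} := by
              ext x; simp only [Finset.mem_insert, Finset.mem_singleton]; tauto
            rw [this]; exact hnew2
          · intro hnp
            exact ⟨hnewv q p (Or.inr ⟨rfl, rfl⟩) (Or.inl hnx) hnp,
              hold q p hqP (Or.inr hek) hyq.symm hCq⟩
        · rw [hz, hek] at hnx
          refine ⟨p, z, hnx, hyp, hyz, ?_, hcr2, ?_⟩
          · have : ({y, p, z} : Finset Pt) = {p, y, z} := by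
              ext x; simp only [Finset.mem_insert, Finset.mem_singleton]; tauto
            rw [this]; exact hnew1
          · intro hnp
            exact ⟨hold p q hpP (Or.inl hek) hyp.symm hCp,
              hnewv p q (Or.inl ⟨rfl, rfl⟩) (Or.inr hnx) hnp⟩
      · intro p0 q0 h0
        have hne : e 0 ≠ e (j + 1) := h.hE.inj 0 (j + 1) (by omega) (by omega)
        refine h.side_flip (st.first p0 q0 h0) ?_ ?_
        · rintro ⟨rfl, rfl⟩; exact hne (h0.trans hek.symm)
        · rintro ⟨rfl, rfl⟩; exact h.eq_of_swap hek h0
      · have hsub : T'' \ T ⊆ (T' \ T) ∪ {{p, y, z}, {q, y, z}} := by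
          intro t ht
          obtain ⟨h1, h2⟩ := Finset.mem_sdiff.1 ht
          rcases Finset.mem_union.1 h1 with h3 | h3
          · exact Finset.mem_union_left _ (Finset.mem_sdiff.2 ⟨(Finset.mem_sdiff.1 h3).1, h2⟩)
          · exact Finset.mem_union_right _ h3
        have h1 := Finset.card_le_card hsub
        have h2 := Finset.card_union_le (T' \ T) {{p, y, z}, {q, y, z}}
        have h3 : ({{p, y, z}, {q, y, z}} : Finset (Finset Pt)).card ≤ 2 := Finset.card_le_two
        have h4 := st.card
        have h5 : ((Finset.range (j + 1 + 1)).filter (fun l => Np P home (e l))).card =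
            ((Finset.range (j + 1)).filter (fun l => Np P home (e l))).card + 1 := by
          rw [Finset.range_add_one, Finset.filter_insert, if_pos hn, Finset.card_insert_of_notMem]
          intro hc
          have := Finset.mem_range.1 (Finset.mem_filter.1 hc).1
          omega
        rw [h5]
        omega
  · -- infinite edges are homes
    exfalso
    rw [hek] at hk
    have hv : HV P p := by
      generalize apx (OT P T) (some p, none) = a at hk
      rcases a with _ | z
      · simp [OT] at hk
      · exact HE.hv_left hk
    have hpP : p ∈ P := (Side.mem st.tri hside).2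
    have hcp : col (some p) = true := by
      have := (h.hE.mx k).2.1
      rw [hek] at this; exact this
    have := h.hH.hull p hpP hv hcp
    exact hn p hpP (this.trans hek.symm)

theorem all (h0 : ¬ Np P home (e 0)) : ∃ T' y, St P T col home s e N N T' y := by
  have key : ∀ k, 1 ≤ k → k ≤ N → ∃ T' y, St P T col home s e N k T' y := by
    intro k hk
    induction k, hk using Nat.le_induction with
    | base =>
      intro _
      obtain ⟨y, hy⟩ := h.start h0
      exact ⟨T, y, hy⟩
    | succ k hk ih =>
      intro hkN
      obtain ⟨T', y, st⟩ := ih (by omega)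
      by_cases hn : Np P home (e k)
      · exact h.stepB hk (by omega) st hn
      · obtain ⟨y', hy'⟩ := h.stepA hk (by omega) st hn
        exact ⟨T', y', hy'⟩
  exact key N h.hE.pos le_rfl

end Ctx

end MP91a79a

end
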